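import Mathlib

open MeasureTheory ProbabilityTheory Filter Topology Set
open scoped ENNReal NNReal

namespace Pool.Agent.H968

noncomputable section

/-- centred Gaussian process with covariance `C`, in terms of characteristic functions -/
structure GP {Ω S : Type*} [MeasurableSpace Ω] (P : Measure Ω) (Y : S → Ω → ℝ) (C : S → S → ℝ) : Prop where
  meas : ∀ s, Measurable (Y s)
  char : ∀ (m : ℕ) (s : Fin m → S) (a : Fin m → ℝ),
    ∫ ω, Complex.exp (((∑ i, a i * Y (s i) ω : ℝ) : ℂ) * Complex.I) ∂P =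
      Complex.exp (-(((∑ i, ∑ j, a i * a j * C (s i) (s j) : ℝ) : ℂ)) / 2)

section
variable {Ω S : Type*} [MeasurableSpace Ω] {P : Measure Ω} [IsProbabilityMeasure P]
  {Y : S → Ω → ℝ} {C : S → S → ℝ}

/-- quadratic form -/
def qf (C : S → S → ℝ) {m : ℕ} (s : Fin m → S) (a : Fin m → ℝ) : ℝ := ∑ i, ∑ j, a i * a j * C (s i) (s j)

omit [IsProbabilityMeasure P] in
lemma GP.meas_lin (h : GP P Y C) {m : ℕ} (s : Fin m → S) (a : Fin m → ℝ) :
    Measurable (fun ω => ∑ i, a i * Y (s i) ω) :=
  Finset.measurable_sum _ fun i _ => (h.meas (s i)).const_mul _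

lemma GP.qf_nonneg (h : GP P Y C) {m : ℕ} (s : Fin m → S) (a : Fin m → ℝ) : 0 ≤ qf C s a := by
  have h1 := h.char m s a
  have h2 : ‖∫ ω, Complex.exp (((∑ i, a i * Y (s i) ω : ℝ) : ℂ) * Complex.I) ∂P‖ ≤ 1 := by
    refine (norm_integral_le_of_norm_le_const (C := 1) (Eventually.of_forall fun ω => ?_)).trans (by simp)
    rw [Complex.norm_exp_ofReal_mul_I]
  rw [h1, Complex.norm_exp] at h2
  have h3 : (-(((∑ i, ∑ j, a i * a j * C (s i) (s j) : ℝ) : ℂ)) / 2).re = - qf C s a / 2 := by
    unfold qf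
    rw [← Complex.ofReal_neg]
    have : ((-(∑ i, ∑ j, a i * a j * C (s i) (s j)) : ℝ) : ℂ) / 2 =
      ((-(∑ i, ∑ j, a i * a j * C (s i) (s j)) / 2 : ℝ) : ℂ) := by push_cast; ring
    rw [this, Complex.ofReal_re]
  rw [h3] at h2
  have h4 := Real.exp_le_one_iff.1 h2
  linarith

lemma GP.map_lin (h : GP P Y C) {m : ℕ} (s : Fin m → S) (a : Fin m → ℝ) :
    P.map (fun ω => ∑ i, a i * Y (s i) ω) = gaussianReal 0 (Real.toNNReal (qf C s a)) := by
  have : IsProbabilityMeasure (P.map (fun ω => ∑ i, a i * Y (s i) ω)) :=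
    Measure.isProbabilityMeasure_map (h.meas_lin s a).aemeasurable
  apply Measure.ext_of_charFun
  ext t
  rw [charFun_apply_real, integral_map (h.meas_lin s a).aemeasurable, charFun_gaussianReal]
  · have h1 := h.char m s (fun i => t * a i)
    have h2 : (fun ω => Complex.exp ((t : ℂ) * ((∑ i, a i * Y (s i) ω : ℝ) : ℂ) * Complex.I)) =
        fun ω => Complex.exp (((∑ i, (t * a i) * Y (s i) ω : ℝ) : ℂ) * Complex.I) := by
      ext ω; congr 2
      rw [← Complex.ofReal_mul, Finset.mul_sum]
      congr 1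
      apply Finset.sum_congr rfl; intro i _; ring
    rw [h2, h1]
    congr 1
    have h3 : (∑ i, ∑ j, (t * a i) * (t * a j) * C (s i) (s j)) = t^2 * qf C s a := by
      unfold qf
      rw [Finset.mul_sum]
      apply Finset.sum_congr rfl; intro i _
      rw [Finset.mul_sum]
      apply Finset.sum_congr rfl; intro j _; ring
    rw [h3, Real.coe_toNNReal _ (h.qf_nonneg s a)]
    push_cast; ring
  · apply Continuous.aestronglyMeasurable
    fun_prop

lemma GP.integrable_exp (h : GP P Y C) {m : ℕ} (s : Fin m → S) (a : Fin m → ℝ) :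
    Integrable (fun ω => Real.exp (∑ i, a i * Y (s i) ω)) P := by
  have h1 := integrable_exp_mul_gaussianReal (μ := 0) (v := Real.toNNReal (qf C s a)) 1
  rw [← h.map_lin s a] at h1
  have := (integrable_map_measure (by fun_prop) (h.meas_lin s a).aemeasurable).1 h1
  simpa [Function.comp_def] using this

lemma GP.integral_exp (h : GP P Y C) {m : ℕ} (s : Fin m → S) (a : Fin m → ℝ) :
    ∫ ω, Real.exp (∑ i, a i * Y (s i) ω) ∂P = Real.exp (qf C s a / 2) := by
  have h1 := mgf_gaussianReal (h.map_lin s a) 1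
  unfold mgf at h1
  simp only [one_mul, mul_one, zero_add, one_pow] at h1
  rw [h1, Real.coe_toNNReal _ (h.qf_nonneg s a)]

lemma GP.map_vec {Ω' : Type*} [MeasurableSpace Ω'] {P' : Measure Ω'} [IsProbabilityMeasure P']
    {Y' : S → Ω' → ℝ} {C' : S → S → ℝ} (h : GP P Y C) (h' : GP P' Y' C') {m : ℕ} (s : Fin m → S)
    (hC : ∀ i j, C (s i) (s j) = C' (s i) (s j)) :
    P.map (fun ω i => Y (s i) ω) = P'.map (fun ω i => Y' (s i) ω) := by
  have m1 : Measurable (fun ω i => Y (s i) ω) := measurable_pi_lambda _ fun i => h.meas (s i)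
  have m2 : Measurable (fun ω i => Y' (s i) ω) := measurable_pi_lambda _ fun i => h'.meas (s i)
  have : IsProbabilityMeasure (P.map (fun ω i => Y (s i) ω)) :=
    Measure.isProbabilityMeasure_map m1.aemeasurable
  have : IsProbabilityMeasure (P'.map (fun ω i => Y' (s i) ω)) :=
    Measure.isProbabilityMeasure_map m2.aemeasurable
  apply Measure.ext_of_charFunDual
  ext L
  have hL : ∀ v : Fin m → ℝ, L v = ∑ i, L (Pi.single i 1) * v i := by
    intro v
    conv_lhs => rw [← Finset.univ_sum_single v, map_sum]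
    apply Finset.sum_congr rfl
    intro i _
    have : Pi.single i (v i) = v i • (Pi.single i (1:ℝ) : Fin m → ℝ) := by
      ext j; by_cases hj : j = i
      · subst hj; simp
      · simp [hj]
    rw [this, map_smul, smul_eq_mul, mul_comm]
  rw [charFunDual_apply, charFunDual_apply, integral_map m1.aemeasurable, integral_map m2.aemeasurable]
  · have e1 : (fun ω => Complex.exp ((L (fun i => Y (s i) ω) : ℂ) * Complex.I)) =
        fun ω => Complex.exp (((∑ i, L (Pi.single i 1) * Y (s i) ω : ℝ) : ℂ) * Complex.I) := by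
      ext ω; rw [hL]
    have e2 : (fun ω => Complex.exp ((L (fun i => Y' (s i) ω) : ℂ) * Complex.I)) =
        fun ω => Complex.exp (((∑ i, L (Pi.single i 1) * Y' (s i) ω : ℝ) : ℂ) * Complex.I) := by
      ext ω; rw [hL]
    rw [e1, e2]
    rw [h.char m s (fun i => L (Pi.single i 1)), h'.char m s (fun i => L (Pi.single i 1))]
    simp_rw [hC]
  · apply Continuous.aestronglyMeasurable; fun_prop
  · apply Continuous.aestronglyMeasurable; fun_prop

/-- one-point law -/
lemma GP.map_one (h : GP P Y C) (s : S) : P.map (Y s) = gaussianReal 0 (Real.toNNReal (C s s)) := by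
  have := h.map_lin (m := 1) (fun _ => s) (fun _ => 1)
  simpa [qf] using this

end

section law
variable {Ω Ω' S : Type*} [MeasurableSpace Ω] [MeasurableSpace Ω'] [MeasurableSpace S]
  {P : Measure Ω} [IsProbabilityMeasure P] {P' : Measure Ω'} [IsProbabilityMeasure P']
  {Y : S → Ω → ℝ} {Y' : S → Ω' → ℝ} {C C' : S → S → ℝ}

/-- bounded integrals: all moments -/
lemma moment_formula {g : S → Ω → ℝ} (hg : Measurable (Function.uncurry g)) {K : ℝ}
    (hK : ∀ s ω, |g s ω| ≤ K) (lam : Measure S) [IsFiniteMeasure lam] (m : ℕ) :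
    ∫ ω, (∫ s, g s ω ∂lam)^m ∂P = ∫ x : Fin m → S, ∫ ω, ∏ i, g (x i) ω ∂P ∂(Measure.pi fun _ => lam) := by
  have h1 : ∀ ω, (∫ s, g s ω ∂lam)^m = ∫ x : Fin m → S, ∏ i, g (x i) ω ∂(Measure.pi fun _ => lam) := by
    intro ω
    rw [integral_fintype_prod_eq_pow (μ := lam) (fun s => g s ω)]
    simp
  simp_rw [h1]
  rw [integral_integral_swap]
  have hm : Measurable (Function.uncurry fun (ω : Ω) (x : Fin m → S) => ∏ i, g (x i) ω) := by
    apply Finset.measurable_prod
    intro i _
    have : Measurable (fun p : Ω × (Fin m → S) => (p.2 i, p.1)) :=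
      ((measurable_pi_apply i).comp measurable_snd).prodMk measurable_fst
    exact hg.comp this
  refine Integrable.of_bound hm.aestronglyMeasurable (C := K^m) (Eventually.of_forall fun p => ?_)
  simp only [Function.uncurry]
  rw [Real.norm_eq_abs, Finset.abs_prod]
  calc ∏ i, |g (p.2 i) p.1| ≤ ∏ i : Fin m, K := Finset.prod_le_prod (fun _ _ => abs_nonneg _) (fun i _ => hK _ _)
    _ = K^m := by simp

lemma exp_series {U : Ω → ℝ} (hU : Measurable U) {K : ℝ} (hK : ∀ ω, |U ω| ≤ K) :
    HasSum (fun m : ℕ => ((Complex.I^m / (m.factorial : ℂ)) * ((∫ ω, (U ω)^m ∂P : ℝ) : ℂ)))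
      (∫ ω, Complex.exp ((U ω : ℂ) * Complex.I) ∂P) := by
  have hK0 : 0 ≤ K ∨ IsEmpty Ω := by
    by_cases h : IsEmpty Ω
    · right; exact h
    · left; rw [not_isEmpty_iff] at h; obtain ⟨ω⟩ := h; exact (abs_nonneg _).trans (hK ω)
  have hK0 : 0 ≤ K := by
    rcases hK0 with h | h
    · exact h
    · exfalso
      have : P = 0 := Measure.eq_zero_of_isEmpty P
      exact IsProbabilityMeasure.ne_zero P this
  have h := hasSum_integral_of_dominated_convergence (μ := P)
    (F := fun (m : ℕ) ω => ((U ω : ℂ) * Complex.I)^m / (m.factorial : ℂ))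
    (f := fun ω => Complex.exp ((U ω : ℂ) * Complex.I))
    (bound := fun m _ => K^m / m.factorial) ?_ ?_ ?_ ?_ ?_
  · have e : (fun m : ℕ => ((Complex.I^m / (m.factorial : ℂ)) * ((∫ ω, (U ω)^m ∂P : ℝ) : ℂ))) =
        fun n => ∫ a, ((U a : ℂ) * Complex.I) ^ n / (n.factorial : ℂ) ∂P := by
      ext m
      rw [← integral_complex_ofReal, ← integral_const_mul]
      congr 1; ext ω
      push_cast
      rw [mul_pow]; ring
    rw [e]; exact h
  · intro m
    apply Measurable.aestronglyMeasurable
    exact ((Complex.measurable_ofReal.comp hU).mul_const _ |>.pow_const _).div_const _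
  · intro m
    refine Eventually.of_forall fun ω => ?_
    rw [norm_div, norm_pow, norm_mul, Complex.norm_I, mul_one, Complex.norm_real, Complex.norm_natCast]
    gcongr
    exact hK ω
  · exact Eventually.of_forall fun _ => Real.summable_pow_div_factorial K
  · exact integrable_const _
  · refine Eventually.of_forall fun ω => ?_
    have := NormedSpace.expSeries_div_hasSum_exp ((U ω : ℂ) * Complex.I)
    rwa [← Complex.exp_eq_exp_ℂ] at this

/-- the law of a bounded integral functional is determined by the covariance -/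
lemma law_bdd (h : GP P Y C) (h' : GP P' Y' C') (hj : Measurable (Function.uncurry Y))
    (hj' : Measurable (Function.uncurry Y')) (lam : Measure S) [IsFiniteMeasure lam]
    {D : Set S} (hD : ∀ᵐ s ∂lam, s ∈ D) (hC : ∀ s ∈ D, ∀ t ∈ D, C s t = C' s t)
    {G : S → ℝ → ℝ} (hG : Measurable (Function.uncurry G)) {K : ℝ} (hK : ∀ s y, |G s y| ≤ K) :
    ∫ ω, Complex.exp (((∫ s, G s (Y s ω) ∂lam : ℝ) : ℂ) * Complex.I) ∂P =
    ∫ ω, Complex.exp (((∫ s, G s (Y' s ω) ∂lam : ℝ) : ℂ) * Complex.I) ∂P' := by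
  have mg : Measurable (Function.uncurry fun s ω => G s (Y s ω)) :=
    hG.comp (measurable_fst.prodMk hj)
  have mg' : Measurable (Function.uncurry fun s ω => G s (Y' s ω)) :=
    hG.comp (measurable_fst.prodMk hj')
  have mU : Measurable (fun ω => ∫ s, G s (Y s ω) ∂lam) := by
    have : StronglyMeasurable (fun p : Ω × S => G p.2 (Y p.2 p.1)) :=
      (mg.comp measurable_swap).stronglyMeasurable
    exact this.integral_prod_right.measurable
  have mU' : Measurable (fun ω => ∫ s, G s (Y' s ω) ∂lam) := by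
    have : StronglyMeasurable (fun p : Ω' × S => G p.2 (Y' p.2 p.1)) :=
      (mg'.comp measurable_swap).stronglyMeasurable
    exact this.integral_prod_right.measurable
  have bU : ∀ ω, |∫ s, G s (Y s ω) ∂lam| ≤ K * lam.real univ := by
    intro ω
    have := norm_integral_le_of_norm_le_const (μ := lam) (f := fun s => G s (Y s ω)) (C := K)
      (Eventually.of_forall fun s => hK _ _)
    simpa using this
  have bU' : ∀ ω, |∫ s, G s (Y' s ω) ∂lam| ≤ K * lam.real univ := by
    intro ω
    have := norm_integral_le_of_norm_le_const (μ := lam) (f := fun s => G s (Y' s ω)) (C := K)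
      (Eventually.of_forall fun s => hK _ _)
    simpa using this
  have s1 := exp_series (P := P) mU bU
  have s2 := exp_series (P := P') mU' bU'
  have hmom : ∀ m : ℕ, ∫ ω, (∫ s, G s (Y s ω) ∂lam)^m ∂P = ∫ ω, (∫ s, G s (Y' s ω) ∂lam)^m ∂P' := by
    intro m
    rw [moment_formula mg (fun s ω => hK _ _) lam m, moment_formula mg' (fun s ω => hK _ _) lam m]
    apply integral_congr_ae
    have hall : ∀ᵐ x : Fin m → S ∂(Measure.pi fun _ => lam), ∀ i, x i ∈ D := by
      rw [ae_all_iff]
      intro i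
      exact (Measure.tendsto_eval_ae_ae (i := i)).eventually hD
    filter_upwards [hall] with x hx
    have hv := h.map_vec h' x (fun i j => hC _ (hx i) _ (hx j))
    have m1 : Measurable (fun ω i => Y (x i) ω) := measurable_pi_lambda _ fun i => h.meas (x i)
    have m2 : Measurable (fun ω i => Y' (x i) ω) := measurable_pi_lambda _ fun i => h'.meas (x i)
    have mf : Measurable (fun v : Fin m → ℝ => ∏ i, G (x i) (v i)) := by
      apply Finset.measurable_prod
      intro i _
      exact hG.comp (measurable_const.prodMk (measurable_pi_apply i))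
    have e1 : ∫ ω, ∏ i, G (x i) (Y (x i) ω) ∂P = ∫ v, ∏ i, G (x i) (v i) ∂(P.map (fun ω i => Y (x i) ω)) := by
      rw [integral_map m1.aemeasurable mf.aestronglyMeasurable]
    have e2 : ∫ ω, ∏ i, G (x i) (Y' (x i) ω) ∂P' = ∫ v, ∏ i, G (x i) (v i) ∂(P'.map (fun ω i => Y' (x i) ω)) := by
      rw [integral_map m2.aemeasurable mf.aestronglyMeasurable]
    rw [e1, e2, hv]
  rw [← s1.tsum_eq, ← s2.tsum_eq]
  congr 1; ext m
  rw [hmom m]

end law

end

end Pool.Agent.H968
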