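import Mathlib
import Pool.Agent.H968.GaussA

open MeasureTheory ProbabilityTheory Filter Topology Set
open scoped ENNReal NNReal

namespace Pool.Agent.H968

noncomputable section

section law
variable {Ω Ω' S : Type*} [MeasurableSpace Ω] [MeasurableSpace Ω'] [MeasurableSpace S]
  {P : Measure Ω} [IsProbabilityMeasure P] {P' : Measure Ω'} [IsProbabilityMeasure P']
  {Y : S → Ω → ℝ} {Y' : S → Ω' → ℝ} {C C' : S → S → ℝ}

/-- truncation -/
def clamp (n : ℕ) (y : ℝ) : ℝ := max (-(n:ℝ)) (min (n:ℝ) y)

lemma clamp_meas (n : ℕ) : Measurable (clamp n) := by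
  unfold clamp; fun_prop

lemma abs_clamp_le (n : ℕ) (y : ℝ) : |clamp n y| ≤ n := by
  unfold clamp
  rw [abs_le]
  refine ⟨le_max_left _ _, max_le (by have : (0:ℝ) ≤ n := n.cast_nonneg
                                      linarith) (min_le_left _ _)⟩

lemma abs_clamp_le' (n : ℕ) (y : ℝ) : |clamp n y| ≤ |y| := by
  unfold clamp
  have hn : (0:ℝ) ≤ n := n.cast_nonneg
  rw [abs_le]
  constructor
  · refine le_trans ?_ (le_max_right _ _)
    exact le_min (by have := abs_nonneg y; linarith) (neg_abs_le y)
  · refine max_le (by have := abs_nonneg y; linarith) ((min_le_right _ _).trans (le_abs_self y))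

lemma clamp_tendsto (y : ℝ) : Tendsto (fun n => clamp n y) atTop (𝓝 y) := by
  apply tendsto_const_nhds.congr'
  obtain ⟨N, hN⟩ := exists_nat_ge |y|
  filter_upwards [eventually_ge_atTop N] with n hn
  have h1 : |y| ≤ n := hN.trans (by exact_mod_cast hn)
  unfold clamp
  rw [min_eq_right ((le_abs_self y).trans h1), max_eq_right]
  have := neg_abs_le y
  linarith

lemma trunc_tendsto {G : S → ℝ → ℝ} (hG : Measurable (Function.uncurry G))
    (hj : Measurable (Function.uncurry Y)) (lam : Measure S) [IsFiniteMeasure lam]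
    (hI : Integrable (Function.uncurry fun s ω => G s (Y s ω)) (lam.prod P)) :
    Tendsto (fun n : ℕ => ∫ ω, Complex.exp (((∫ s, clamp n (G s (Y s ω)) ∂lam : ℝ) : ℂ) * Complex.I) ∂P)
      atTop (𝓝 (∫ ω, Complex.exp (((∫ s, G s (Y s ω) ∂lam : ℝ) : ℂ) * Complex.I) ∂P)) := by
  have mg : Measurable (Function.uncurry fun s ω => G s (Y s ω)) :=
    hG.comp (measurable_fst.prodMk hj)
  apply tendsto_integral_of_dominated_convergence (fun _ => (1:ℝ)) _ (integrable_const _)
  · intro n
    exact Eventually.of_forall fun ω => by rw [Complex.norm_exp_ofReal_mul_I]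
  · have hsec := hI.prod_left_ae
    filter_upwards [hsec] with ω hω
    have hω' : Integrable (fun s => G s (Y s ω)) lam := hω
    have h1 : Tendsto (fun n : ℕ => ∫ s, clamp n (G s (Y s ω)) ∂lam) atTop (𝓝 (∫ s, G s (Y s ω) ∂lam)) := by
      apply tendsto_integral_of_dominated_convergence (fun s => |G s (Y s ω)|) _ hω'.abs
      · intro n; exact Eventually.of_forall fun s => abs_clamp_le' n _
      · exact Eventually.of_forall fun s => clamp_tendsto _
      · intro n
        exact ((clamp_meas n).comp (mg.comp (measurable_id.prodMk measurable_const))).aestronglyMeasurable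
    have hc : Continuous (fun x : ℝ => Complex.exp ((x : ℂ) * Complex.I)) := by fun_prop
    exact (hc.tendsto _).comp h1
  · intro n
    have : StronglyMeasurable (fun p : Ω × S => clamp n (G p.2 (Y p.2 p.1))) :=
      ((clamp_meas n).comp (mg.comp measurable_swap)).stronglyMeasurable
    have h2 := StronglyMeasurable.integral_prod_right' (ν := lam) this
    have hc : Continuous (fun x : ℝ => Complex.exp ((x : ℂ) * Complex.I)) := by fun_prop
    exact (hc.comp_stronglyMeasurable h2).aestronglyMeasurable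

/-- the law of an integral functional is determined by the covariance -/
theorem law_int (h : GP P Y C) (h' : GP P' Y' C') (hj : Measurable (Function.uncurry Y))
    (hj' : Measurable (Function.uncurry Y')) (lam : Measure S) [IsFiniteMeasure lam]
    {D : Set S} (hD : ∀ᵐ s ∂lam, s ∈ D) (hC : ∀ s ∈ D, ∀ t ∈ D, C s t = C' s t)
    {G : S → ℝ → ℝ} (hG : Measurable (Function.uncurry G))
    (hI : Integrable (Function.uncurry fun s ω => G s (Y s ω)) (lam.prod P))
    (hI' : Integrable (Function.uncurry fun s ω => G s (Y' s ω)) (lam.prod P')) :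
    ∫ ω, Complex.exp (((∫ s, G s (Y s ω) ∂lam : ℝ) : ℂ) * Complex.I) ∂P =
    ∫ ω, Complex.exp (((∫ s, G s (Y' s ω) ∂lam : ℝ) : ℂ) * Complex.I) ∂P' := by
  have t1 := trunc_tendsto hG hj lam hI
  have t2 := trunc_tendsto hG hj' lam hI'
  refine tendsto_nhds_unique t1 (t2.congr fun n => ?_)
  exact (law_bdd h h' hj hj' lam hD hC (G := fun s y => clamp n (G s y))
    ((clamp_meas n).comp hG) (fun s y => abs_clamp_le n _)).symm

/-- two independent copies glued along `A` -/
def glueY (A : Set S) (Y : S → Ω → ℝ) (s : S) (p : Ω × Ω) : ℝ :=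
  A.indicator (fun s => Y s p.1) s + Aᶜ.indicator (fun s => Y s p.2) s

def glueC (A : Set S) (C : S → S → ℝ) (s t : S) : ℝ :=
  (A.indicator 1 s * A.indicator 1 t + Aᶜ.indicator 1 s * Aᶜ.indicator 1 t) * C s t

omit [MeasurableSpace S] in
lemma glue_GP (h : GP P Y C) (A : Set S) : GP (P.prod P) (glueY A Y) (glueC A C) := by
  constructor
  · intro s
    unfold glueY
    by_cases hs : s ∈ A
    · simp only [indicator_of_mem hs, indicator_of_notMem (show s ∉ Aᶜ by simpa using hs), add_zero]
      exact (h.meas s).comp measurable_fst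
    · simp only [indicator_of_notMem hs, indicator_of_mem (show s ∈ Aᶜ from hs), zero_add]
      exact (h.meas s).comp measurable_snd
  · intro m s a
    have e1 : ∀ p : Ω × Ω, Complex.exp (((∑ i, a i * glueY A Y (s i) p : ℝ) : ℂ) * Complex.I) =
        Complex.exp (((∑ i, (a i * A.indicator 1 (s i)) * Y (s i) p.1 : ℝ) : ℂ) * Complex.I) *
        Complex.exp (((∑ i, (a i * Aᶜ.indicator 1 (s i)) * Y (s i) p.2 : ℝ) : ℂ) * Complex.I) := by
      intro p
      rw [← Complex.exp_add, ← add_mul, ← Complex.ofReal_add, ← Finset.sum_add_distrib]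
      congr 4
      ext i
      unfold glueY
      by_cases hs : s i ∈ A
      · simp [hs]
      · simp [hs]
    simp_rw [e1]
    rw [integral_prod_mul (μ := P) (ν := P)
      (fun ω => Complex.exp (((∑ i, (a i * A.indicator 1 (s i)) * Y (s i) ω : ℝ) : ℂ) * Complex.I))
      (fun ω => Complex.exp (((∑ i, (a i * Aᶜ.indicator 1 (s i)) * Y (s i) ω : ℝ) : ℂ) * Complex.I))]
    rw [h.char, h.char, ← Complex.exp_add]
    congr 1
    rw [← add_div, ← neg_add, ← Complex.ofReal_add]
    congr 3
    rw [← Finset.sum_add_distrib]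
    apply Finset.sum_congr rfl; intro i _
    rw [← Finset.sum_add_distrib]
    apply Finset.sum_congr rfl; intro j _
    unfold glueC
    ring

/-- independence of integral functionals over uncorrelated regions -/
theorem indep_int (h : GP P Y C) (hj : Measurable (Function.uncurry Y))
    (lam : Measure S) [IsFiniteMeasure lam] {D A : Set S} (hA : MeasurableSet A)
    (hD : ∀ᵐ s ∂lam, s ∈ D)
    (hC : ∀ s ∈ D, ∀ t ∈ D, s ∈ A → t ∉ A → C s t = 0 ∧ C t s = 0)
    {G : S → ℝ → ℝ} (hG : Measurable (Function.uncurry G))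
    (hI : Integrable (Function.uncurry fun s ω => G s (Y s ω)) (lam.prod P)) :
    ∫ ω, Complex.exp (((∫ s, G s (Y s ω) ∂lam : ℝ) : ℂ) * Complex.I) ∂P =
    (∫ ω, Complex.exp (((∫ s in A, G s (Y s ω) ∂lam : ℝ) : ℂ) * Complex.I) ∂P) *
    (∫ ω, Complex.exp (((∫ s in Aᶜ, G s (Y s ω) ∂lam : ℝ) : ℂ) * Complex.I) ∂P) := by
  have mg : Measurable (Function.uncurry fun s ω => G s (Y s ω)) :=
    hG.comp (measurable_fst.prodMk hj)
  have hjg : Measurable (Function.uncurry (glueY A Y)) := by
    have m1 : Measurable (fun q : S × (Ω × Ω) => Y q.1 q.2.1) :=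
      hj.comp (measurable_fst.prodMk (measurable_fst.comp measurable_snd))
    have m2 : Measurable (fun q : S × (Ω × Ω) => Y q.1 q.2.2) :=
      hj.comp (measurable_fst.prodMk (measurable_snd.comp measurable_snd))
    have e : Function.uncurry (glueY A Y) = fun q : S × (Ω × Ω) =>
        (Prod.fst ⁻¹' A).indicator (fun q : S × (Ω × Ω) => Y q.1 q.2.1) q +
        (Prod.fst ⁻¹' Aᶜ).indicator (fun q : S × (Ω × Ω) => Y q.1 q.2.2) q := by
      ext q
      simp only [Function.uncurry, glueY]
      by_cases hs : q.1 ∈ A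
      · simp [hs, indicator]
      · simp [hs, indicator]
    rw [e]
    exact (m1.indicator (measurable_fst hA)).add (m2.indicator (measurable_fst hA.compl))
  -- value of the functional on glued process
  have hval : ∀ s (p : Ω × Ω), G s (glueY A Y s p) =
      A.indicator (fun s => G s (Y s p.1)) s + Aᶜ.indicator (fun s => G s (Y s p.2)) s := by
    intro s p
    unfold glueY
    by_cases hs : s ∈ A
    · simp [hs]
    · simp [hs]
  have i1 : Integrable (fun q : S × (Ω × Ω) => G q.1 (Y q.1 q.2.1)) (lam.prod (P.prod P)) := by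
    have hmp : MeasurePreserving (fun q : S × (Ω × Ω) => (q.1, q.2.1)) (lam.prod (P.prod P)) (lam.prod P) :=
      (MeasurePreserving.id lam).prod measurePreserving_fst
    exact hmp.integrable_comp_of_integrable hI
  have i2 : Integrable (fun q : S × (Ω × Ω) => G q.1 (Y q.1 q.2.2)) (lam.prod (P.prod P)) := by
    have hmp : MeasurePreserving (fun q : S × (Ω × Ω) => (q.1, q.2.2)) (lam.prod (P.prod P)) (lam.prod P) :=
      (MeasurePreserving.id lam).prod measurePreserving_snd
    exact hmp.integrable_comp_of_integrable hI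
  have hIg : Integrable (Function.uncurry fun s p => G s (glueY A Y s p)) (lam.prod (P.prod P)) := by
    have e : (Function.uncurry fun s p => G s (glueY A Y s p)) = fun q : S × (Ω × Ω) =>
        (Prod.fst ⁻¹' A).indicator (fun q : S × (Ω × Ω) => G q.1 (Y q.1 q.2.1)) q +
        (Prod.fst ⁻¹' Aᶜ).indicator (fun q : S × (Ω × Ω) => G q.1 (Y q.1 q.2.2)) q := by
      ext q
      simp only [Function.uncurry]
      rw [hval]
      by_cases hs : q.1 ∈ A
      · simp [indicator, hs]
      · simp [indicator, hs]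
    rw [e]
    exact (i1.indicator (measurable_fst hA)).add (i2.indicator (measurable_fst hA.compl))
  have key := law_int h (glue_GP h A) hj hjg lam (D := D) hD (by
    intro s hs t ht
    unfold glueC
    by_cases h1 : s ∈ A <;> by_cases h2 : t ∈ A
    · simp [h1, h2]
    · simp [h1, h2, (hC s hs t ht h1 h2).1]
    · simp [h1, h2, (hC t ht s hs h2 h1).2]
    · simp [h1, h2]) hG hI hIg
  rw [key]
  have hsec1 := hI.prod_left_ae
  have hsec : ∀ᵐ p ∂(P.prod P), Complex.exp (((∫ s, G s (glueY A Y s p) ∂lam : ℝ) : ℂ) * Complex.I) =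
      Complex.exp (((∫ s in A, G s (Y s p.1) ∂lam : ℝ) : ℂ) * Complex.I) *
      Complex.exp (((∫ s in Aᶜ, G s (Y s p.2) ∂lam : ℝ) : ℂ) * Complex.I) := by
    have q1 : ∀ᵐ p ∂(P.prod P), Integrable (fun s => G s (Y s p.1)) lam :=
      Measure.quasiMeasurePreserving_fst.ae hsec1
    have q2 : ∀ᵐ p ∂(P.prod P), Integrable (fun s => G s (Y s p.2)) lam :=
      Measure.quasiMeasurePreserving_snd.ae hsec1
    filter_upwards [q1, q2] with p hp1 hp2
    rw [← Complex.exp_add, ← add_mul, ← Complex.ofReal_add]
    congr 3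
    simp_rw [hval]
    rw [integral_add (hp1.indicator hA) (hp2.indicator hA.compl), integral_indicator hA,
      integral_indicator hA.compl]
  rw [integral_congr_ae hsec]
  exact integral_prod_mul (μ := P) (ν := P)
      (fun ω => Complex.exp (((∫ s in A, G s (Y s ω) ∂lam : ℝ) : ℂ) * Complex.I))
      (fun ω => Complex.exp (((∫ s in Aᶜ, G s (Y s ω) ∂lam : ℝ) : ℂ) * Complex.I))

end law

end

end Pool.Agent.H968
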