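import Mathlib

open MeasureTheory Filter Topology Set

namespace Pool.Agent.H968

noncomputable section

lemma hasSum_of_eq {f g : ℕ → ℝ} {a b : ℝ} (h : HasSum f a) (hfg : ∀ j, g j = f j) (hab : b = a) :
    HasSum g b := by
  rw [hab, funext hfg]; exact h

lemma cosSum {τ : ℝ} (h0 : 0 ≤ τ) (h2 : τ ≤ 2) :
    HasSum (fun n : ℕ => 1 / (n:ℝ)^2 * Real.cos (Real.pi * n * τ))
      (Real.pi^2 * (τ^2/4 - τ/2 + 1/6)) := by
  have h := hasSum_one_div_nat_pow_mul_cos (k := 1) (by norm_num) (x := τ/2)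
    ⟨by linarith, by linarith⟩
  have e : (fun n : ℕ => 1 / (n:ℝ)^2 * Real.cos (Real.pi * n * τ)) =
      fun n : ℕ => 1 / (n : ℝ) ^ (2 * 1) * Real.cos (2 * Real.pi * n * (τ/2)) := by
    ext n; congr 2; ring
  rw [e]
  convert h using 1
  have : (Polynomial.map (algebraMap ℚ ℝ) (Polynomial.bernoulli 2)).eval (τ/2) =
      (τ/2)^2 - (τ/2) + 1/6 := by
    simp [Polynomial.bernoulli, Finset.sum_range_succ, bernoulli_two, bernoulli_one]
    ring
  simp only [mul_one]
  rw [this]
  norm_num [Nat.factorial]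
  ring

/-- Fourier coefficients of the triangle of half width `s` -/
def qs (s : ℝ) (j : ℕ) : ℝ :=
  if j = 0 then s/2 else 2 * (1 - Real.cos (Real.pi * j * s)) / (s * Real.pi^2 * (j:ℝ)^2)

lemma qs_nonneg {s : ℝ} (hs : 0 < s) (j : ℕ) : 0 ≤ qs s j := by
  unfold qs
  split_ifs with h
  · positivity
  · have := Real.cos_le_one (Real.pi * j * s)
    apply div_nonneg (by linarith) (by positivity)

lemma qs_le {s : ℝ} (hs : 0 < s) (hs1 : s ≤ 1) (j : ℕ) : qs s j ≤ 2 * s⁻¹ / ((j:ℝ)+1)^2 := by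
  unfold qs
  have hinv : 1 ≤ s⁻¹ := (one_le_inv₀ hs).2 hs1
  split_ifs with h
  · subst h
    norm_num
    linarith
  · have hj : (1:ℝ) ≤ j := by exact_mod_cast Nat.one_le_iff_ne_zero.2 h
    have h1 := Real.neg_one_le_cos (Real.pi * j * s)
    have hpi : 9 ≤ Real.pi^2 := by nlinarith [Real.pi_gt_three]
    have h2 : 2 * (1 - Real.cos (Real.pi * j * s)) / (s * Real.pi^2 * (j:ℝ)^2) ≤
        4 / (s * 9 * (j:ℝ)^2) := by
      apply div_le_div₀ (by norm_num) (by linarith) (by positivity)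
      gcongr
    refine h2.trans ?_
    rw [show 2 * s⁻¹ / ((j:ℝ)+1)^2 = 2 / (s * ((j:ℝ)+1)^2) by field_simp]
    rw [div_le_div_iff₀ (by positivity) (by positivity)]
    have : ((j:ℝ)+1)^2 ≤ 4 * (j:ℝ)^2 := by nlinarith
    nlinarith

lemma triangle_hasSum {s τ : ℝ} (hs : 0 < s) (hs1 : s ≤ 1) (h0 : 0 ≤ τ) (h1 : τ ≤ 1) :
    HasSum (fun j : ℕ => qs s j * Real.cos (Real.pi * j * τ)) (max 0 (1 - τ / s)) := by
  have a1 := cosSum h0 (by linarith)
  have a2 := cosSum (τ := τ + s) (by linarith) (by linarith)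
  have a3 := cosSum (τ := |τ - s|) (abs_nonneg _) (by rw [abs_le]; constructor <;> linarith)
  have b := (((a1.mul_left 2).sub a2).sub a3).mul_left (1 / (s * Real.pi^2))
  have c : HasSum (fun j : ℕ => if j = 0 then s/2 else 0) (s/2) := by
    have := hasSum_ite_eq (0:ℕ) (s/2)
    exact this
  have d := b.add c
  refine hasSum_of_eq d (fun j => ?_) ?_
  · unfold qs
    by_cases hj : j = 0
    · subst hj; simp
    · simp only [hj, if_false, add_zero]
      have hc : Real.cos (Real.pi * j * (τ + s)) + Real.cos (Real.pi * j * |τ - s|) =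
          2 * Real.cos (Real.pi * j * τ) * Real.cos (Real.pi * j * s) := by
        have e1 : Real.cos (Real.pi * j * |τ - s|) = Real.cos (Real.pi * j * (τ - s)) := by
          rcases abs_cases (τ - s) with h | h
          · rw [h.1]
          · rw [h.1, mul_neg, Real.cos_neg]
        rw [e1, mul_add, mul_sub, Real.cos_add, Real.cos_sub]; ring
      have hj' : (j:ℝ) ≠ 0 := by exact_mod_cast hj
      have hpi : Real.pi ≠ 0 := Real.pi_ne_zero
      have : 1 / (j:ℝ)^2 * Real.cos (Real.pi * j * |τ - s|) = 1 / (j:ℝ)^2 *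
          (2 * Real.cos (Real.pi * j * τ) * Real.cos (Real.pi * j * s) - Real.cos (Real.pi * j * (τ + s))) := by
        rw [← hc]; ring
      rw [this]
      field_simp
      ring
  · have hpi : Real.pi ≠ 0 := Real.pi_ne_zero
    have hs' : s ≠ 0 := hs.ne'
    rcases le_total τ s with h | h
    · rw [max_eq_right (by rw [sub_nonneg, div_le_one hs]; exact h), abs_of_nonpos (by linarith)]
      field_simp
      ring
    · rw [max_eq_left (by rw [sub_nonpos, one_le_div hs]; exact h), abs_of_nonneg (by linarith)]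
      field_simp
      ring

/-- increment kernels -/
def cK (i : ℕ) (τ : ℝ) : ℝ :=
  if i = 0 then 1 - |τ| else ∫ ρ in ((i:ℝ)-1)..i, max 0 (1 - |τ| * Real.exp ρ)

/-- Fourier coefficients of the increment kernels -/
def qK (i j : ℕ) : ℝ :=
  if i = 0 then qs 1 j else ∫ ρ in ((i:ℝ)-1)..i, qs (Real.exp (-ρ)) j

lemma qs_cont (j : ℕ) : Continuous (fun ρ : ℝ => qs (Real.exp (-ρ)) j) := by
  unfold qs
  by_cases h : j = 0
  · simp only [h, if_true]; fun_prop
  · simp only [h, if_false]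
    have hj' : (j:ℝ) ≠ 0 := by exact_mod_cast h
    apply Continuous.div (by fun_prop) (by fun_prop)
    intro ρ
    have := Real.exp_pos (-ρ)
    positivity

lemma exp_neg_le_one_of {i : ℕ} (hi : i ≠ 0) {ρ : ℝ} (h : ρ ∈ Icc ((i:ℝ)-1) i) : Real.exp (-ρ) ≤ 1 := by
  rw [Real.exp_le_one_iff]
  have : (1:ℝ) ≤ i := by exact_mod_cast Nat.one_le_iff_ne_zero.2 hi
  linarith [h.1]

lemma qK_nonneg (i j : ℕ) : 0 ≤ qK i j := by
  unfold qK
  split_ifs with h
  · exact qs_nonneg one_pos j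
  · apply intervalIntegral.integral_nonneg (by linarith)
    intro ρ _
    exact qs_nonneg (Real.exp_pos _) j

lemma qK_le (i j : ℕ) : qK i j ≤ 2 * Real.exp i / ((j:ℝ)+1)^2 := by
  unfold qK
  split_ifs with h
  · have := qs_le one_pos le_rfl j
    subst h; simpa using this
  · have h1 : ∫ ρ in ((i:ℝ)-1)..i, qs (Real.exp (-ρ)) j ≤ ∫ ρ in ((i:ℝ)-1)..i, 2 * Real.exp i / ((j:ℝ)+1)^2 := by
      apply intervalIntegral.integral_mono_on (by linarith) ((qs_cont j).intervalIntegrable _ _)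
        intervalIntegrable_const
      intro ρ hρ
      refine (qs_le (Real.exp_pos _) (exp_neg_le_one_of h hρ) j).trans ?_
      rw [← Real.exp_neg, neg_neg]
      gcongr
      exact hρ.2
    refine h1.trans (le_of_eq ?_)
    rw [intervalIntegral.integral_const]; simp

lemma summable_inv_sq : Summable (fun j : ℕ => 1 / ((j:ℝ)+1)^2) := by
  have := (summable_nat_add_iff 1).2 (Real.summable_one_div_nat_pow.2 (by norm_num : 1 < 2))
  simpa using this

lemma qK_hasSum (i : ℕ) {τ : ℝ} (h1 : |τ| ≤ 1) :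
    HasSum (fun j : ℕ => qK i j * Real.cos (Real.pi * j * τ)) (cK i τ) := by
  have hcos : ∀ j : ℕ, Real.cos (Real.pi * j * τ) = Real.cos (Real.pi * j * |τ|) := by
    intro j
    rcases abs_cases τ with h | h
    · rw [h.1]
    · rw [h.1, mul_neg, Real.cos_neg]
  simp_rw [hcos]
  unfold qK cK
  split_ifs with h
  · have := triangle_hasSum one_pos le_rfl (abs_nonneg τ) h1
    rw [div_one, max_eq_right (by linarith)] at this
    exact this
  · have key := intervalIntegral.hasSum_integral_of_dominated_convergence (μ := volume)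
      (a := (i:ℝ)-1) (b := i)
      (F := fun (j : ℕ) ρ => qs (Real.exp (-ρ)) j * Real.cos (Real.pi * j * |τ|))
      (f := fun ρ => max 0 (1 - |τ| * Real.exp ρ))
      (fun j _ => 2 * Real.exp i * (1 / ((j:ℝ)+1)^2)) ?_ ?_ ?_ ?_ ?_
    · refine hasSum_of_eq key (fun j => ?_) rfl
      rw [intervalIntegral.integral_mul_const]
    · intro j
      exact ((qs_cont j).mul continuous_const).aestronglyMeasurable
    · intro j
      refine Eventually.of_forall fun ρ hρ => ?_
      rw [uIoc_of_le (by linarith)] at hρ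
      rw [norm_mul]
      have hc := Real.abs_cos_le_one (Real.pi * j * |τ|)
      have hq := qs_nonneg (Real.exp_pos (-ρ)) j
      have hq2 := qs_le (Real.exp_pos (-ρ)) (exp_neg_le_one_of h ⟨hρ.1.le, hρ.2⟩) j
      rw [Real.norm_eq_abs, Real.norm_eq_abs, abs_of_nonneg hq]
      have h3 : 2 * (Real.exp (-ρ))⁻¹ / ((j:ℝ)+1)^2 ≤ 2 * Real.exp i * (1 / ((j:ℝ)+1)^2) := by
        rw [← Real.exp_neg, neg_neg, mul_one_div]
        gcongr
        exact hρ.2
      calc qs (Real.exp (-ρ)) j * |Real.cos (Real.pi * j * |τ|)| ≤ qs (Real.exp (-ρ)) j * 1 := by gcongr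
        _ ≤ _ := by rw [mul_one]; exact hq2.trans h3
    · exact Eventually.of_forall fun ρ _ => summable_inv_sq.mul_left _
    · exact intervalIntegrable_const
    · refine Eventually.of_forall fun ρ hρ => ?_
      rw [uIoc_of_le (by linarith)] at hρ
      have := triangle_hasSum (Real.exp_pos (-ρ)) (exp_neg_le_one_of h ⟨hρ.1.le, hρ.2⟩) (abs_nonneg τ) h1
      refine hasSum_of_eq this (fun j => rfl) ?_
      rw [Real.exp_neg, div_inv_eq_mul]

/-- the covariance kernel of level `k` -/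
def KK (k : ℕ) (τ : ℝ) : ℝ := ∑ i ∈ Finset.range k, cK i τ

lemma KK_zero (τ : ℝ) : KK 0 τ = 0 := by simp [KK]

lemma KK_add_one (k : ℕ) (τ : ℝ) : KK (k+1) τ = KK k τ + cK k τ := by
  unfold KK; rw [Finset.sum_range_succ]

lemma tri_cont (τ : ℝ) : Continuous (fun ρ : ℝ => max 0 (1 - |τ| * Real.exp ρ)) := by fun_prop

lemma KK_succ (k : ℕ) (τ : ℝ) :
    KK (k+1) τ = 1 - |τ| + ∫ ρ in (0:ℝ)..k, max 0 (1 - |τ| * Real.exp ρ) := by
  induction k with
  | zero => simp [KK, cK]
  | succ k ih =>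
    rw [KK_add_one, ih]
    unfold cK
    simp only [Nat.succ_ne_zero, if_false]
    rw [add_assoc]
    congr 1
    have e : (((k+1:ℕ):ℝ) - 1) = k := by push_cast; ring
    rw [e]
    exact intervalIntegral.integral_add_adjacent_intervals
      ((tri_cont τ).intervalIntegrable _ _) ((tri_cont τ).intervalIntegrable _ _)

lemma KK_diff {j k : ℕ} (τ : ℝ) : KK (k+1) τ - KK (j+1) τ =
    ∫ ρ in (j:ℝ)..k, max 0 (1 - |τ| * Real.exp ρ) := by
  rw [KK_succ, KK_succ]
  have := intervalIntegral.integral_add_adjacent_intervals (a := (0:ℝ)) (b := j) (c := k) (μ := volume)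
      ((tri_cont τ).intervalIntegrable _ _) ((tri_cont τ).intervalIntegrable _ _)
  linarith

lemma cK_nonneg (i : ℕ) {τ : ℝ} (h : |τ| ≤ 1) : 0 ≤ cK i τ := by
  unfold cK
  split_ifs
  · linarith
  · apply intervalIntegral.integral_nonneg (by linarith)
    intro ρ _; exact le_max_left _ _

lemma cK_le_one (i : ℕ) (τ : ℝ) : cK i τ ≤ 1 := by
  unfold cK
  split_ifs
  · linarith [abs_nonneg τ]
  · have : ∫ ρ in ((i:ℝ)-1)..i, max 0 (1 - |τ| * Real.exp ρ) ≤ ∫ ρ in ((i:ℝ)-1)..i, (1:ℝ) := by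
      apply intervalIntegral.integral_mono_on (by linarith) ((tri_cont τ).intervalIntegrable _ _)
        intervalIntegrable_const
      intro ρ _
      apply max_le (by norm_num)
      have : 0 ≤ |τ| * Real.exp ρ := by positivity
      linarith
    refine this.trans (le_of_eq ?_)
    rw [intervalIntegral.integral_const]; simp

lemma cK_zero (i : ℕ) : cK i 0 = 1 := by
  unfold cK
  split_ifs
  · simp
  · simp

lemma cK_eq_zero {i : ℕ} {τ : ℝ} (h1 : |τ| ≤ 1) (h : Real.exp (-((i:ℝ)-1)) ≤ |τ|) : cK i τ = 0 := by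
  unfold cK
  split_ifs with hi
  · subst hi
    simp only [Nat.cast_zero, zero_sub, neg_neg] at h
    have : (1:ℝ) < Real.exp 1 := Real.one_lt_exp_iff.2 one_pos
    linarith
  · have : ∫ ρ in ((i:ℝ)-1)..i, max 0 (1 - |τ| * Real.exp ρ) = ∫ ρ in ((i:ℝ)-1)..i, (0:ℝ) := by
      apply intervalIntegral.integral_congr
      intro ρ hρ
      rw [uIcc_of_le (by linarith)] at hρ
      simp only
      apply max_eq_left
      have h2 : Real.exp (-((i:ℝ)-1)) * Real.exp ρ ≤ |τ| * Real.exp ρ := by gcongr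
      rw [← Real.exp_add] at h2
      have h3 : 1 ≤ Real.exp (-((i:ℝ)-1) + ρ) := Real.one_le_exp (by linarith [hρ.1])
      linarith
    rw [this]; simp

lemma cK_abs (i : ℕ) (τ : ℝ) : cK i |τ| = cK i τ := by
  unfold cK; simp

lemma cK_neg (i : ℕ) (τ : ℝ) : cK i (-τ) = cK i τ := by
  unfold cK; simp

lemma KK_neg (i : ℕ) (τ : ℝ) : KK i (-τ) = KK i τ := by
  unfold KK; simp [cK_neg]

lemma cK_anti (i : ℕ) {s t : ℝ} (h : |s| ≤ |t|) : cK i t ≤ cK i s := by
  unfold cK
  split_ifs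
  · linarith
  · apply intervalIntegral.integral_mono_on (by linarith) ((tri_cont t).intervalIntegrable _ _)
        ((tri_cont s).intervalIntegrable _ _)
    intro ρ _
    apply max_le_max le_rfl
    gcongr

lemma KK_anti (k : ℕ) {s t : ℝ} (h : |s| ≤ |t|) : KK k t ≤ KK k s :=
  Finset.sum_le_sum fun i _ => cK_anti i h

lemma KK_at_zero (k : ℕ) : KK k 0 = k := by simp [KK, cK_zero]

lemma KK_nonneg (k : ℕ) {τ : ℝ} (h : |τ| ≤ 1) : 0 ≤ KK k τ :=
  Finset.sum_nonneg fun i _ => cK_nonneg i h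

lemma KK_le (k : ℕ) (τ : ℝ) : KK k τ ≤ k := by
  have := KK_anti k (s := 0) (t := τ) (by simp)
  rwa [KK_at_zero] at this

lemma KK_mono {j k : ℕ} (h : j ≤ k) {τ : ℝ} (hτ : |τ| ≤ 1) : KK j τ ≤ KK k τ := by
  unfold KK
  apply Finset.sum_le_sum_of_subset_of_nonneg
  · exact Finset.range_mono h
  · intro i _ _; exact cK_nonneg i hτ

/-- difference of kernels is antitone -/
lemma KKd_anti {j k : ℕ} (h : j ≤ k) {s t : ℝ} (hst : |s| ≤ |t|) :
    KK k t - KK j t ≤ KK k s - KK j s := by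
  unfold KK
  rw [← Finset.sum_range_add_sum_Ico _ h, ← Finset.sum_range_add_sum_Ico (fun i => cK i s) h]
  have : ∑ i ∈ Finset.Ico j k, cK i t ≤ ∑ i ∈ Finset.Ico j k, cK i s :=
    Finset.sum_le_sum fun i _ => cK_anti i hst
  linarith

/-- explicit value of the kernel for small distances -/
lemma KK_small {k : ℕ} (hk : k ≠ 0) {τ : ℝ} (h : |τ| ≤ Real.exp (-((k:ℝ)-1))) :
    KK k τ = k - |τ| * Real.exp ((k:ℝ)-1) := by
  obtain ⟨m, rfl⟩ := Nat.exists_eq_succ_of_ne_zero hk
  rw [Nat.succ_eq_add_one, KK_succ]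
  have e : (((m+1:ℕ):ℝ) - 1) = m := by push_cast; ring
  rw [Nat.succ_eq_add_one, e] at h
  rw [e]
  have hint : ∫ ρ in (0:ℝ)..m, max 0 (1 - |τ| * Real.exp ρ) = ∫ ρ in (0:ℝ)..m, (1 - |τ| * Real.exp ρ) := by
    apply intervalIntegral.integral_congr
    intro ρ hρ
    rw [uIcc_of_le (by positivity)] at hρ
    simp only
    apply max_eq_right
    have h2 : |τ| * Real.exp ρ ≤ Real.exp (-(m:ℝ)) * Real.exp ρ := by gcongr
    rw [← Real.exp_add] at h2
    have h3 : Real.exp (-(m:ℝ) + ρ) ≤ 1 := Real.exp_le_one_iff.2 (by linarith [hρ.2])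
    linarith
  rw [hint, intervalIntegral.integral_sub intervalIntegrable_const
    ((Real.continuous_exp.const_mul _).intervalIntegrable _ _), intervalIntegral.integral_const_mul,
    integral_exp]
  simp
  ring

/-- difference of kernels: exact logarithm -/
lemma KKd_eq {j k : ℕ} (hj : j ≠ 0) (hk : k ≠ 0) {τ : ℝ} (h1 : Real.exp (-((k:ℝ)-1)) ≤ |τ|)
    (h2 : |τ| ≤ Real.exp (-((j:ℝ)-1))) :
    KK k τ - KK j τ = Real.log (1/|τ|) - j + |τ| * Real.exp ((j:ℝ)-1) := by
  obtain ⟨a, rfl⟩ := Nat.exists_eq_succ_of_ne_zero hj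
  obtain ⟨b, rfl⟩ := Nat.exists_eq_succ_of_ne_zero hk
  rw [Nat.succ_eq_add_one, Nat.succ_eq_add_one] at *
  rw [KK_diff]
  have ea : (((a+1:ℕ):ℝ) - 1) = a := by push_cast; ring
  have eb : (((b+1:ℕ):ℝ) - 1) = b := by push_cast; ring
  rw [eb] at h1
  rw [ea] at h2 ⊢
  have hτ : 0 < |τ| := lt_of_lt_of_le (Real.exp_pos _) h1
  set c := Real.log (1/|τ|) with hc
  have hc' : Real.exp c = 1/|τ| := Real.exp_log (by positivity)
  have hac : (a:ℝ) ≤ c := by
    rw [hc, one_div, Real.log_inv]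
    have := Real.log_le_log hτ h2
    rw [Real.log_exp] at this; linarith
  have hcb : c ≤ (b:ℝ) := by
    rw [hc, one_div, Real.log_inv]
    have := Real.log_le_log (Real.exp_pos _) h1
    rw [Real.log_exp] at this; linarith
  rw [← intervalIntegral.integral_add_adjacent_intervals (b := c)
    ((tri_cont τ).intervalIntegrable _ _) ((tri_cont τ).intervalIntegrable _ _)]
  have i1 : ∫ ρ in (a:ℝ)..c, max 0 (1 - |τ| * Real.exp ρ) = ∫ ρ in (a:ℝ)..c, (1 - |τ| * Real.exp ρ) := by
    apply intervalIntegral.integral_congr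
    intro ρ hρ
    rw [uIcc_of_le hac] at hρ
    simp only
    apply max_eq_right
    have : |τ| * Real.exp ρ ≤ |τ| * Real.exp c := by gcongr; exact hρ.2
    rw [hc'] at this
    have h3 : |τ| * (1/|τ|) = 1 := by field_simp
    linarith
  have i2 : ∫ ρ in c..(b:ℝ), max 0 (1 - |τ| * Real.exp ρ) = 0 := by
    have : ∫ ρ in c..(b:ℝ), max 0 (1 - |τ| * Real.exp ρ) = ∫ ρ in c..(b:ℝ), (0:ℝ) := by
      apply intervalIntegral.integral_congr
      intro ρ hρ
      rw [uIcc_of_le hcb] at hρ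
      simp only
      apply max_eq_left
      have : |τ| * Real.exp c ≤ |τ| * Real.exp ρ := by gcongr; exact hρ.1
      rw [hc'] at this
      have h3 : |τ| * (1/|τ|) = 1 := by field_simp
      linarith
    rw [this]; simp
  rw [i1, i2, intervalIntegral.integral_sub intervalIntegrable_const
    ((Real.continuous_exp.const_mul _).intervalIntegrable _ _), intervalIntegral.integral_const_mul,
    integral_exp, hc', intervalIntegral.integral_const]
  simp only [smul_eq_mul, mul_one]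
  push_cast
  field_simp
  ring

/-- upper bound for the kernel -/
lemma KKd_le {j k : ℕ} (hj : j ≠ 0) (hjk : j ≤ k) {τ : ℝ} (hτ : τ ≠ 0) (hτ1 : |τ| ≤ Real.exp (-((j:ℝ)-1))) :
    KK k τ - KK j τ ≤ Real.log (1/|τ|) - ((j:ℝ)-1) := by
  obtain ⟨a, rfl⟩ := Nat.exists_eq_succ_of_ne_zero hj
  obtain ⟨b, rfl⟩ := Nat.exists_eq_succ_of_ne_zero (show k ≠ 0 by omega)
  rw [Nat.succ_eq_add_one, Nat.succ_eq_add_one] at *
  rw [KK_diff]
  have ea : (((a+1:ℕ):ℝ) - 1) = a := by push_cast; ring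
  rw [ea] at hτ1 ⊢
  have hτ0 : 0 < |τ| := abs_pos.2 hτ
  have hab : (a:ℝ) ≤ b := by exact_mod_cast (by omega : a ≤ b)
  set c := Real.log (1/|τ|) with hc
  have hc' : Real.exp c = 1/|τ| := Real.exp_log (by positivity)
  have hac : (a:ℝ) ≤ c := by
    rw [hc, one_div, Real.log_inv]
    have := Real.log_le_log hτ0 hτ1
    rw [Real.log_exp] at this; linarith
  have hone : ∀ ρ : ℝ, max 0 (1 - |τ| * Real.exp ρ) ≤ 1 := by
    intro ρ
    apply max_le (by norm_num)
    have : 0 ≤ |τ| * Real.exp ρ := by positivity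
    linarith
  rcases le_total (b:ℝ) c with h | h
  · have : ∫ ρ in (a:ℝ)..b, max 0 (1 - |τ| * Real.exp ρ) ≤ ∫ ρ in (a:ℝ)..b, (1:ℝ) := by
      apply intervalIntegral.integral_mono_on hab ((tri_cont τ).intervalIntegrable _ _)
        intervalIntegrable_const
      intro ρ _; exact hone ρ
    rw [intervalIntegral.integral_const] at this
    simp at this; linarith
  · rw [← intervalIntegral.integral_add_adjacent_intervals (b := c)
      ((tri_cont τ).intervalIntegrable _ _) ((tri_cont τ).intervalIntegrable _ _)]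
    have i1 : ∫ ρ in (a:ℝ)..c, max 0 (1 - |τ| * Real.exp ρ) ≤ ∫ ρ in (a:ℝ)..c, (1:ℝ) := by
      apply intervalIntegral.integral_mono_on hac ((tri_cont τ).intervalIntegrable _ _)
        intervalIntegrable_const
      intro ρ _; exact hone ρ
    have i2 : ∫ ρ in c..(b:ℝ), max 0 (1 - |τ| * Real.exp ρ) = 0 := by
      have : ∫ ρ in c..(b:ℝ), max 0 (1 - |τ| * Real.exp ρ) = ∫ ρ in c..(b:ℝ), (0:ℝ) := by
        apply intervalIntegral.integral_congr
        intro ρ hρ
        rw [uIcc_of_le h] at hρ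
        simp only
        apply max_eq_left
        have : |τ| * Real.exp c ≤ |τ| * Real.exp ρ := by gcongr; exact hρ.1
        rw [hc'] at this
        have h3 : |τ| * (1/|τ|) = 1 := by field_simp
        linarith
      rw [this]; simp
    rw [i2]
    rw [intervalIntegral.integral_const] at i1
    simp at i1; linarith

lemma KK_le_log (k : ℕ) {τ : ℝ} (hτ : τ ≠ 0) (hτ1 : |τ| ≤ 1) : KK k τ ≤ Real.log (1/|τ|) := by
  rcases Nat.eq_zero_or_pos k with h | h
  · subst h; rw [KK_zero]; apply Real.log_nonneg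
    rw [one_le_div (abs_pos.2 hτ)]; exact hτ1
  · -- compare with a large level
    have h0 : 0 < |τ| := abs_pos.2 hτ
    obtain ⟨m, hm⟩ := exists_nat_ge (Real.log (1/|τ|) + 1)
    have hmk : k ≤ max k (max m 1) := le_max_left _ _
    refine (KK_mono hmk hτ1).trans ?_
    set M := max k (max m 1) with hM
    have hM1 : 1 ≤ M := (le_max_right m 1).trans (le_max_right _ _)
    have hMm : (m:ℝ) ≤ M := by exact_mod_cast (le_max_left m 1).trans (le_max_right _ _)
    have e := KKd_eq (j := 1) (k := M) (τ := τ) (by norm_num) (by omega) ?_ (by simpa using hτ1)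
    · have e1 := KK_small (k := 1) (τ := τ) (by norm_num) (by simpa using hτ1)
      norm_num at e e1
      rw [one_div, Real.log_inv, Real.log_abs]
      linarith
    · rw [← Real.le_log_iff_exp_le h0]
      rw [one_div, Real.log_inv] at hm
      linarith

lemma KK_eq_log {k : ℕ} (hk : k ≠ 0) {τ : ℝ} (hτ1 : |τ| ≤ 1) (h : Real.exp (-((k:ℝ)-1)) ≤ |τ|) :
    KK k τ = Real.log (1/|τ|) := by
  have e := KKd_eq (j := 1) (k := k) (τ := τ) (by norm_num) hk h (by simpa using hτ1)
  have e1 := KK_small (k := 1) (τ := τ) (by norm_num) (by simpa using hτ1)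
  norm_num at e e1
  rw [one_div, Real.log_inv, Real.log_abs]
  linarith

lemma KKd_eq_zero {j k : ℕ} (hjk : j ≤ k) {τ : ℝ} (h1 : |τ| ≤ 1)
    (h : Real.exp (-((j:ℝ)-1)) ≤ |τ|) : KK k τ = KK j τ := by
  unfold KK
  rw [← Finset.sum_range_add_sum_Ico _ hjk]
  have : ∑ i ∈ Finset.Ico j k, cK i τ = 0 := by
    apply Finset.sum_eq_zero
    intro i hi
    apply cK_eq_zero h1
    refine le_trans ?_ h
    apply Real.exp_le_exp.2
    have : (j:ℝ) ≤ i := by exact_mod_cast (Finset.mem_Ico.1 hi).1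
    linarith
  linarith

lemma cK_cont (i : ℕ) : Continuous (cK i) := by
  unfold cK
  by_cases h : i = 0
  · simp only [h, if_true]; fun_prop
  · simp only [h, if_false]
    apply intervalIntegral.continuous_parametric_intervalIntegral_of_continuous'
    fun_prop

lemma KK_cont (k : ℕ) : Continuous (KK k) := by
  unfold KK
  exact continuous_finsetSum _ fun i _ => cK_cont i

end

end Pool.Agent.H968
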