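import Mathlib
import Pool.Agent.H968.Kern
import Pool.Agent.H968.GaussB

open MeasureTheory ProbabilityTheory Filter Topology Set
open scoped ENNReal NNReal

namespace Pool.Agent.H968

noncomputable section

lemma integral_sq_gaussian (v : ℝ≥0) : ∫ x, x^2 ∂(gaussianReal 0 v) = v := by
  have hv : Var[id; gaussianReal 0 v] = (v:ℝ) := variance_id_gaussianReal
  rw [variance_eq_sub (memLp_id_gaussianReal (μ := 0) (v := v) 2)] at hv
  have h0 : ∫ s, s ∂(gaussianReal 0 v) = 0 := integral_id_gaussianReal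
  simp only [Pi.pow_apply, id] at hv
  rw [h0] at hv
  simpa using hv

lemma integral_abs_gaussian_le (v : ℝ≥0) : ∫ x, |x| ∂(gaussianReal 0 v) ≤ Real.sqrt v := by
  rcases eq_or_ne v 0 with h | h
  · subst h
    rw [gaussianReal_zero_var, integral_dirac]; simp
  · have hv : (0:ℝ) < v := by
      have : 0 < v := pos_iff_ne_zero.2 h
      exact_mod_cast this
    have hs : 0 < Real.sqrt v := Real.sqrt_pos.2 hv
    have i1 : Integrable (fun x : ℝ => x^2) (gaussianReal 0 v) :=
      (memLp_id_gaussianReal (μ := 0) (v := v) 2).integrable_sq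
    have i0 : Integrable (fun x : ℝ => |x|) (gaussianReal 0 v) := by
      have := memLp_id_gaussianReal (μ := 0) (v := v) 1
      exact (memLp_one_iff_integrable.1 (by exact_mod_cast this)).abs
    have h1 : ∫ x, |x| ∂(gaussianReal 0 v) ≤ ∫ x, (x^2 * (2 * Real.sqrt v)⁻¹ + Real.sqrt v / 2) ∂(gaussianReal 0 v) := by
      apply integral_mono i0 ((i1.mul_const _).add (integrable_const _))
      intro x
      show |x| ≤ x^2 * (2 * Real.sqrt v)⁻¹ + Real.sqrt v / 2
      have h2 : 0 ≤ (|x| - Real.sqrt v)^2 := sq_nonneg _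
      rw [← div_eq_mul_inv, ← sub_le_iff_le_add, le_div_iff₀ (by positivity)]
      nlinarith [sq_abs x, Real.sq_sqrt hv.le]
    refine h1.trans (le_of_eq ?_)
    rw [integral_add (i1.mul_const _) (integrable_const _), integral_mul_const, integral_sq_gaussian]
    simp only [integral_const, smul_eq_mul]
    have h3 := Real.sq_sqrt hv.le
    simp
    field_simp
    nlinarith

section
variable {Ω S : Type*} [MeasurableSpace Ω] {P : Measure Ω} [IsProbabilityMeasure P]
  {Y : S → Ω → ℝ} {C : S → S → ℝ}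

lemma GP.diag_nonneg (h : GP P Y C) (s : S) : 0 ≤ C s s := by
  have := h.qf_nonneg (m := 1) (fun _ => s) (fun _ => 1)
  simpa [qf] using this

lemma GP.lintegral_abs_le (h : GP P Y C) (s : S) :
    ∫⁻ ω, ‖Y s ω‖ₑ ∂P ≤ ENNReal.ofReal (Real.sqrt (C s s)) := by
  have h1 : ∫⁻ ω, ‖Y s ω‖ₑ ∂P = ∫⁻ x, ‖x‖ₑ ∂(P.map (Y s)) := by
    rw [lintegral_map (by fun_prop) (h.meas s)]
  rw [h1, h.map_one s]
  have i0 : Integrable (fun x : ℝ => x) (gaussianReal 0 (Real.toNNReal (C s s))) := by
    have := memLp_id_gaussianReal (μ := 0) (v := Real.toNNReal (C s s)) 1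
    exact memLp_one_iff_integrable.1 (by exact_mod_cast this)
  have h2 := ofReal_integral_norm_eq_lintegral_enorm i0
  rw [← h2]
  apply ENNReal.ofReal_le_ofReal
  have := integral_abs_gaussian_le (Real.toNNReal (C s s))
  rwa [Real.coe_toNNReal _ (h.diag_nonneg s)] at this

lemma GP.integrable_sq (h : GP P Y C) (s : S) : Integrable (fun ω => (Y s ω)^2) P := by
  have i1 : Integrable (fun x : ℝ => x^2) (gaussianReal 0 (Real.toNNReal (C s s))) :=
      (memLp_id_gaussianReal (μ := 0) (v := Real.toNNReal (C s s)) 2).integrable_sq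
  rw [← h.map_one s] at i1
  exact (integrable_map_measure (by fun_prop) (h.meas s).aemeasurable).1 i1

/-- limits of Gaussian processes -/
theorem conv_GP [MeasurableSpace S] (Z : ℕ → S → Ω → ℝ) (hZ : ∀ i, Measurable (Function.uncurry (Z i)))
    (Ci : ℕ → S → S → ℝ) (hGP : ∀ i, GP P (Z i) (Ci i))
    (hC : ∀ s t, Tendsto (fun i => Ci i s t) atTop (𝓝 (C s t))) (δ : ℕ → ℝ≥0∞) (hδ : ∑' i, δ i ≠ ∞)
    (hd : ∀ i s, ∫⁻ ω, ‖Z (i+1) s ω - Z i s ω‖ₑ ∂P ≤ δ i) :
    ∃ Y : S → Ω → ℝ, Measurable (Function.uncurry Y) ∧ GP P Y C ∧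
      ∀ s, ∀ᵐ ω ∂P, Tendsto (fun i => Z i s ω) atTop (𝓝 (Y s ω)) := by
  refine ⟨fun s ω => limUnder atTop (fun i => Z i s ω), ?_⟩
  have hconv : ∀ s, ∀ᵐ ω ∂P, Tendsto (fun i => Z i s ω) atTop (𝓝 (limUnder atTop (fun i => Z i s ω))) := by
    intro s
    have h1 : ∫⁻ ω, ∑' i, ‖Z (i+1) s ω - Z i s ω‖ₑ ∂P ≠ ∞ := by
      rw [lintegral_tsum]
      · exact ne_top_of_le_ne_top hδ (ENNReal.tsum_le_tsum fun i => hd i s)
      · intro i
        exact (((hGP (i+1)).meas s).sub ((hGP i).meas s)).enorm.aemeasurable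
    have h2 := ae_lt_top' (by
      apply AEMeasurable.tsum
      intro i
      exact (((hGP (i+1)).meas s).sub ((hGP i).meas s)).enorm.aemeasurable) h1
    filter_upwards [h2] with ω hω
    have hc : CauchySeq (fun i => Z i s ω) := by
      apply cauchySeq_of_edist_le_of_tsum_ne_top (fun i => ‖Z (i+1) s ω - Z i s ω‖ₑ)
      · intro i
        rw [edist_comm, edist_eq_enorm_sub]
      · exact hω.ne
    exact hc.tendsto_limUnder
  have hm : Measurable (Function.uncurry fun s ω => limUnder atTop (fun i => Z i s ω)) := by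
    have : StronglyMeasurable fun p : S × Ω => limUnder atTop (fun i => Z i p.1 p.2) :=
      StronglyMeasurable.limUnder (fun i => (hZ i).stronglyMeasurable)
    exact this.measurable
  refine ⟨hm, ⟨?_, ?_⟩, hconv⟩
  · intro s
    exact hm.comp (measurable_const.prodMk measurable_id)
  · intro m s a
    have t1 : Tendsto (fun n => ∫ ω, Complex.exp (((∑ i, a i * Z n (s i) ω : ℝ) : ℂ) * Complex.I) ∂P) atTop
        (𝓝 (∫ ω, Complex.exp (((∑ i, a i * limUnder atTop (fun n => Z n (s i) ω) : ℝ) : ℂ) * Complex.I) ∂P)) := by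
      apply tendsto_integral_of_dominated_convergence (fun _ => (1:ℝ)) _ (integrable_const _)
      · intro n
        exact Eventually.of_forall fun ω => by rw [Complex.norm_exp_ofReal_mul_I]
      · have hall : ∀ᵐ ω ∂P, ∀ i, Tendsto (fun n => Z n (s i) ω) atTop (𝓝 (limUnder atTop (fun n => Z n (s i) ω))) :=
          ae_all_iff.2 fun i => hconv (s i)
        filter_upwards [hall] with ω hω
        have hc : Continuous (fun x : ℝ => Complex.exp ((x : ℂ) * Complex.I)) := by fun_prop
        apply (hc.tendsto _).comp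
        exact tendsto_finsetSum _ fun i _ => (hω i).const_mul _
      · intro n
        have hc : Continuous (fun x : ℝ => Complex.exp ((x : ℂ) * Complex.I)) := by fun_prop
        exact (hc.measurable.comp ((hGP n).meas_lin s a)).aestronglyMeasurable
    have t2 : Tendsto (fun n => Complex.exp (-(((∑ i, ∑ j, a i * a j * Ci n (s i) (s j) : ℝ) : ℂ)) / 2)) atTop
        (𝓝 (Complex.exp (-(((∑ i, ∑ j, a i * a j * C (s i) (s j) : ℝ) : ℂ)) / 2))) := by
      have hc : Continuous (fun x : ℝ => Complex.exp (-(x : ℂ) / 2)) := by fun_prop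
      apply (hc.tendsto _).comp
      apply tendsto_finsetSum; intro i _
      apply tendsto_finsetSum; intro j _
      exact (hC _ _).const_mul _
    refine tendsto_nhds_unique t1 (t2.congr fun n => ?_)
    exact ((hGP n).char m s a).symm

end

section prod
variable {W : Type*} [MeasurableSpace W] (Q : Measure W) [IsProbabilityMeasure Q]

lemma prod_char (g : ℕ → W → ℝ) (hg : ∀ i, Measurable (g i)) (n : ℕ) :
    ∫ ω, Complex.exp (((∑ i ∈ Finset.range n, g i (ω i) : ℝ) : ℂ) * Complex.I)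
      ∂(Measure.infinitePi fun _ : ℕ => Q) =
    ∏ i ∈ Finset.range n, ∫ w, Complex.exp ((g i w : ℂ) * Complex.I) ∂Q := by
  have h1 : ∀ ω : ℕ → W, Complex.exp (((∑ i ∈ Finset.range n, g i (ω i) : ℝ) : ℂ) * Complex.I) =
      (fun y : (i : Finset.range n) → W => ∏ i : Finset.range n, Complex.exp ((g i (y i) : ℂ) * Complex.I))
        ((Finset.range n).restrict ω) := by
    intro ω
    simp only [Finset.restrict]
    rw [← Complex.exp_sum]
    congr 1
    rw [← Finset.sum_mul]
    congr 1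
    push_cast
    rw [Finset.sum_coe_sort (Finset.range n) (fun i => ((g i (ω i) : ℝ) : ℂ))]
  simp_rw [h1]
  have hmeas : AEStronglyMeasurable (fun y : (i : Finset.range n) → W =>
      ∏ i : Finset.range n, Complex.exp ((g i (y i) : ℂ) * Complex.I))
      (Measure.pi fun _ : Finset.range n => Q) := by
    apply Measurable.aestronglyMeasurable
    apply Finset.measurable_prod
    intro i _
    have hc : Continuous (fun x : ℝ => Complex.exp ((x : ℂ) * Complex.I)) := by fun_prop
    exact hc.measurable.comp ((hg i).comp (measurable_pi_apply i))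
  refine (integral_restrict_infinitePi (μ := fun _ : ℕ => Q) (s := Finset.range n) hmeas).trans ?_
  rw [integral_fintype_prod_eq_prod (μ := fun _ : Finset.range n => Q)
      (fun (i : Finset.range n) w => Complex.exp ((g i w : ℂ) * Complex.I))]
  rw [Finset.prod_coe_sort (Finset.range n) (fun i => ∫ w, Complex.exp ((g i w : ℂ) * Complex.I) ∂Q)]

end prod

/-- Gaussian white noise -/
def Q0 : Measure (ℕ → ℝ) := Measure.infinitePi fun _ : ℕ => gaussianReal 0 1

instance : IsProbabilityMeasure Q0 := by unfold Q0; infer_instance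

lemma Q0_char (b : ℕ → ℝ) (n : ℕ) :
    ∫ w, Complex.exp (((∑ i ∈ Finset.range n, b i * w i : ℝ) : ℂ) * Complex.I) ∂Q0 =
      Complex.exp (-((∑ i ∈ Finset.range n, b i ^ 2 : ℝ) : ℂ) / 2) := by
  unfold Q0
  rw [prod_char (gaussianReal 0 1) (fun i x => b i * x) (fun i => by fun_prop) n]
  have : ∀ i, ∫ w, Complex.exp (((b i * w : ℝ) : ℂ) * Complex.I) ∂(gaussianReal 0 1) =
      Complex.exp (-((b i ^ 2 : ℝ) : ℂ) / 2) := by
    intro i
    have := charFun_gaussianReal (μ := 0) (v := 1) (b i)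
    rw [charFun_apply_real] at this
    push_cast at this ⊢
    rw [this]
    congr 1
    simp
    ring
  simp_rw [this]
  rw [← Complex.exp_sum]
  congr 1
  rw [← Finset.sum_div, Finset.sum_neg_distrib]
  push_cast; rfl

/-- basis functions of the level field -/
def vv (i m : ℕ) (x : ℝ) : ℝ :=
  Real.sqrt (qK i (m/2)) * (if m % 2 = 0 then Real.cos (Real.pi * (m/2 : ℕ) * x) else Real.sin (Real.pi * (m/2 : ℕ) * x))

lemma vv_cont (i m : ℕ) : Continuous (vv i m) := by
  unfold vv
  by_cases h : m % 2 = 0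
  · simp only [h, if_true]; fun_prop
  · simp only [h, if_false]; fun_prop

lemma vv_sq_le (i m : ℕ) (x : ℝ) : vv i m x ^ 2 ≤ 8 * Real.exp i / ((m:ℝ)+1)^2 := by
  unfold vv
  rw [mul_pow, Real.sq_sqrt (qK_nonneg _ _)]
  have h1 : (if m % 2 = 0 then Real.cos (Real.pi * (m/2 : ℕ) * x) else Real.sin (Real.pi * (m/2 : ℕ) * x))^2 ≤ 1 := by
    split_ifs
    · exact Real.cos_sq_le_one _
    · exact Real.sin_sq_le_one _
  have h2 := qK_nonneg i (m/2)
  have h3 := qK_le i (m/2)
  have h4 : ((m:ℝ)+1) ≤ 2 * (((m/2 : ℕ):ℝ)+1) := by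
    have : m + 1 ≤ 2 * (m/2 + 1) := by omega
    exact_mod_cast this
  calc qK i (m/2) * _ ≤ qK i (m/2) * 1 := by gcongr
    _ ≤ 2 * Real.exp i / (((m/2 : ℕ):ℝ)+1)^2 := by rw [mul_one]; exact h3
    _ ≤ 8 * Real.exp i / ((m:ℝ)+1)^2 := by
        rw [div_le_div_iff₀ (by positivity) (by positivity)]
        have h5 : ((m:ℝ)+1)^2 ≤ 4 * (((m/2 : ℕ):ℝ)+1)^2 := by nlinarith
        have := Real.exp_pos (i:ℝ)
        nlinarith

lemma vv_sum (i n : ℕ) (x y : ℝ) : ∑ m ∈ Finset.range (2*n), vv i m x * vv i m y =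
    ∑ j ∈ Finset.range n, qK i j * Real.cos (Real.pi * j * (x - y)) := by
  induction n with
  | zero => simp
  | succ n ih =>
    rw [show 2 * (n+1) = (2*n+1)+1 by ring, Finset.sum_range_succ, Finset.sum_range_succ, ih,
      Finset.sum_range_succ, add_assoc]
    congr 1
    unfold vv
    have e1 : 2 * n / 2 = n := by omega
    have e2 : (2 * n + 1) / 2 = n := by omega
    have e3 : (2 * n) % 2 = 0 := by omega
    have e4 : ¬ ((2 * n + 1) % 2 = 0) := by omega
    simp only [e1, e2, e3, e4, if_true, if_false]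
    rw [mul_sub, Real.cos_sub]
    have := Real.mul_self_sqrt (qK_nonneg i n)
    calc _ = (Real.sqrt (qK i n) * Real.sqrt (qK i n)) * (Real.cos (Real.pi * n * x) * Real.cos (Real.pi * n * y)
          + Real.sin (Real.pi * n * x) * Real.sin (Real.pi * n * y)) := by ring
      _ = _ := by rw [this]

/-- covariance of the level field -/
def CK (i : ℕ) (x y : ℝ) : ℝ := ∑' j : ℕ, qK i j * Real.cos (Real.pi * j * (x - y))

lemma CK_summable (i : ℕ) (x y : ℝ) : Summable (fun j : ℕ => qK i j * Real.cos (Real.pi * j * (x - y))) := by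
  apply Summable.of_norm_bounded (g := fun j : ℕ => 2 * Real.exp i * (1 / ((j:ℝ)+1)^2))
    (summable_inv_sq.mul_left _)
  intro j
  rw [norm_mul, Real.norm_eq_abs, Real.norm_eq_abs, abs_of_nonneg (qK_nonneg i j)]
  have := Real.abs_cos_le_one (Real.pi * j * (x - y))
  have h2 := qK_le i j
  have h3 := qK_nonneg i j
  rw [mul_one_div]
  calc qK i j * _ ≤ qK i j * 1 := by gcongr
    _ ≤ _ := by rw [mul_one]; exact h2

lemma CK_eq (i : ℕ) {x y : ℝ} (h : |x - y| ≤ 1) : CK i x y = cK i (x - y) :=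
  (qK_hasSum i h).tsum_eq

lemma CK_diag (i : ℕ) (x : ℝ) : CK i x x = 1 := by
  rw [CK_eq i (by simp), sub_self, cK_zero]

/-- partial sums -/
def ZZ (i n : ℕ) (x : ℝ) (w : ℕ → ℝ) : ℝ := ∑ m ∈ Finset.range (2 * 4^n), vv i m x * w m

lemma ZZ_meas (i n : ℕ) : Measurable (Function.uncurry (ZZ i n)) := by
  show Measurable (fun p : ℝ × (ℕ → ℝ) => ∑ m ∈ Finset.range (2 * 4^n), vv i m p.1 * p.2 m)
  apply Finset.measurable_sum
  intro m _
  have h1 : Measurable (fun p : ℝ × (ℕ → ℝ) => vv i m p.1) := (vv_cont i m).measurable.comp measurable_fst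
  have h2 : Measurable (fun p : ℝ × (ℕ → ℝ) => p.2 m) := (measurable_pi_apply m).comp measurable_snd
  exact h1.mul h2

lemma ZZ_GP (i n : ℕ) : GP Q0 (ZZ i n) (fun x y => ∑ m ∈ Finset.range (2 * 4^n), vv i m x * vv i m y) := by
  constructor
  · intro x
    have h : Measurable (fun w : ℕ → ℝ => (x, w)) := measurable_const.prodMk measurable_id
    show Measurable (fun w => Function.uncurry (ZZ i n) (x, w))
    exact (ZZ_meas i n).comp h
  · intro k s a
    have e : ∀ w : ℕ → ℝ, ∑ l, a l * ZZ i n (s l) w =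
        ∑ m ∈ Finset.range (2 * 4^n), (∑ l, a l * vv i m (s l)) * w m := by
      intro w
      unfold ZZ
      simp_rw [Finset.mul_sum, Finset.sum_mul]
      rw [Finset.sum_comm]
      apply Finset.sum_congr rfl; intro m _
      apply Finset.sum_congr rfl; intro l _; ring
    simp_rw [e]
    rw [Q0_char]
    congr 3
    simp_rw [Finset.mul_sum]
    rw [Finset.sum_congr rfl (fun l _ => Finset.sum_comm), Finset.sum_comm]
    congr 1
    apply Finset.sum_congr rfl; intro m _
    rw [sq, Finset.sum_mul_sum]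
    apply Finset.sum_congr rfl; intro l _
    apply Finset.sum_congr rfl; intro l' _
    ring

lemma lin_abs (b : ℕ → ℝ) (n : ℕ) :
    ∫⁻ w, ‖∑ m ∈ Finset.range n, b m * w m‖ₑ ∂Q0 ≤
      ENNReal.ofReal (Real.sqrt (∑ m ∈ Finset.range n, b m ^ 2)) := by
  have hGP : GP Q0 (fun (_ : Unit) w => ∑ m ∈ Finset.range n, b m * w m)
      (fun _ _ => ∑ m ∈ Finset.range n, b m ^ 2) := by
    constructor
    · intro _
      apply Finset.measurable_sum; intro m _
      exact (measurable_pi_apply m).const_mul _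
    · intro k s a
      have e : ∀ w : ℕ → ℝ, ∑ l : Fin k, a l * ∑ m ∈ Finset.range n, b m * w m =
        ∑ m ∈ Finset.range n, ((∑ l, a l) * b m) * w m := by
        intro w
        rw [← Finset.sum_mul, Finset.mul_sum]
        apply Finset.sum_congr rfl; intro m _; ring
      simp_rw [e]
      rw [Q0_char]
      congr 3
      simp_rw [mul_pow, ← Finset.mul_sum, ← Finset.sum_mul]
      rw [sq, Finset.sum_mul_sum]
  exact hGP.lintegral_abs_le ()

lemma ZZ_diff (i n : ℕ) (x : ℝ) : ∫⁻ w, ‖ZZ i (n+1) x w - ZZ i n x w‖ₑ ∂Q0 ≤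
    ENNReal.ofReal (Real.sqrt (12 * Real.exp i) * (1/2)^n) := by
  set b : ℕ → ℝ := fun m => if m < 2 * 4^n then 0 else vv i m x with hb
  have hle : 2 * 4^n ≤ 2 * 4^(n+1) := by
    have : 4^n ≤ 4^(n+1) := Nat.pow_le_pow_right (by norm_num) (by omega)
    omega
  have e1 : ∀ w : ℕ → ℝ, ZZ i (n+1) x w - ZZ i n x w = ∑ m ∈ Finset.range (2 * 4^(n+1)), b m * w m := by
    intro w
    unfold ZZ
    rw [← Finset.sum_range_add_sum_Ico _ hle, ← Finset.sum_range_add_sum_Ico (fun m => b m * w m) hle]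
    have z : ∑ m ∈ Finset.range (2 * 4^n), b m * w m = 0 := by
      apply Finset.sum_eq_zero
      intro m hm
      simp only [hb, Finset.mem_range.1 hm, if_true, zero_mul]
    rw [z]
    have z2 : ∑ m ∈ Finset.Ico (2 * 4^n) (2 * 4^(n+1)), b m * w m =
        ∑ m ∈ Finset.Ico (2 * 4^n) (2 * 4^(n+1)), vv i m x * w m := by
      apply Finset.sum_congr rfl
      intro m hm
      simp only [hb, not_lt.2 (Finset.mem_Ico.1 hm).1, if_false]
    rw [z2]; ring
  simp_rw [e1]
  refine (lin_abs b _).trans (ENNReal.ofReal_le_ofReal ?_)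
  have h2 : ∑ m ∈ Finset.range (2 * 4^(n+1)), b m ^ 2 ≤ 12 * Real.exp i * (1/4)^n := by
    rw [← Finset.sum_range_add_sum_Ico _ hle]
    have z : ∑ m ∈ Finset.range (2 * 4^n), b m ^ 2 = 0 := by
      apply Finset.sum_eq_zero
      intro m hm
      simp [hb, Finset.mem_range.1 hm]
    rw [z, zero_add]
    have z2 : ∀ m ∈ Finset.Ico (2 * 4^n) (2 * 4^(n+1)), b m ^ 2 ≤ 2 * Real.exp i * ((1/4)^n * (1/4)^n) := by
      intro m hm
      have hm1 := (Finset.mem_Ico.1 hm).1
      simp only [hb, not_lt.2 hm1, if_false]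
      refine (vv_sq_le i m x).trans ?_
      have hm2 : (2 * 4^n : ℝ) ≤ m := by exact_mod_cast hm1
      have hp : (0:ℝ) < 4^n := by positivity
      rw [div_le_iff₀ (by positivity)]
      have h3 : (4:ℝ) * (4^n * 4^n) ≤ ((m:ℝ)+1)^2 := by nlinarith
      have h4 : ((1:ℝ)/4)^n * 4^n = 1 := by rw [← mul_pow]; norm_num
      have hq : (0:ℝ) < (1/4)^n := by positivity
      have h5 : ((1:ℝ)/4)^n * (1/4)^n * (4 * (4^n * 4^n)) = 4 := by
        calc ((1:ℝ)/4)^n * (1/4)^n * (4 * (4^n * 4^n)) = 4 * ((1/4)^n * 4^n) * ((1/4)^n * 4^n) := by ring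
          _ = 4 := by rw [h4]; norm_num
      calc 8 * Real.exp i = 2 * Real.exp i * (((1:ℝ)/4)^n * (1/4)^n * (4 * (4^n * 4^n))) := by rw [h5]; ring
        _ ≤ 2 * Real.exp i * (((1:ℝ)/4)^n * (1/4)^n * ((m:ℝ)+1)^2) := by gcongr
        _ = _ := by ring
    refine (Finset.sum_le_sum z2).trans ?_
    rw [Finset.sum_const, Nat.card_Ico, nsmul_eq_mul]
    have hc : ((2 * 4^(n+1) - 2 * 4^n : ℕ) : ℝ) = 6 * 4^n := by
      rw [Nat.cast_sub hle]; push_cast; ring
    rw [hc]
    have h4 : ((1:ℝ)/4)^n * 4^n = 1 := by rw [← mul_pow]; norm_num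
    have : 6 * 4^n * (2 * Real.exp i * (((1:ℝ)/4)^n * (1/4)^n)) = 12 * Real.exp i * (1/4)^n * ((1/4)^n * 4^n) := by ring
    rw [this, h4, mul_one]
  calc Real.sqrt (∑ m ∈ Finset.range (2 * 4^(n+1)), b m ^ 2) ≤ Real.sqrt (12 * Real.exp i * (1/4)^n) :=
        Real.sqrt_le_sqrt h2
    _ = Real.sqrt (12 * Real.exp i) * (1/2)^n := by
        rw [Real.sqrt_mul (by positivity)]
        congr 1
        have : ((1:ℝ)/4)^n = ((1/2)^n)^2 := by rw [← pow_mul, mul_comm, pow_mul]; norm_num
        rw [this, Real.sqrt_sq (by positivity)]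

lemma exists_level (i : ℕ) : ∃ Y : ℝ → (ℕ → ℝ) → ℝ, Measurable (Function.uncurry Y) ∧ GP Q0 Y (CK i) := by
  have hC : ∀ x y, Tendsto (fun n => ∑ m ∈ Finset.range (2 * 4^n), vv i m x * vv i m y) atTop (𝓝 (CK i x y)) := by
    intro x y
    simp_rw [vv_sum]
    have h4 : Tendsto (fun n : ℕ => 4^n) atTop atTop := tendsto_pow_atTop_atTop_of_one_lt (by norm_num)
    exact ((CK_summable i x y).hasSum.tendsto_sum_nat).comp h4
  have hδ : ∑' n : ℕ, ENNReal.ofReal (Real.sqrt (12 * Real.exp i) * (1/2)^n) ≠ ∞ := by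
    rw [← ENNReal.ofReal_tsum_of_nonneg]
    · exact ENNReal.ofReal_ne_top
    · intro n; positivity
    · exact summable_geometric_two.mul_left _
  obtain ⟨Y, h1, h2, -⟩ := conv_GP (P := Q0) (S := ℝ) (ZZ i) (ZZ_meas i)
    (fun n x y => ∑ m ∈ Finset.range (2 * 4^n), vv i m x * vv i m y) (ZZ_GP i) hC
    (fun n => ENNReal.ofReal (Real.sqrt (12 * Real.exp i) * (1/2)^n)) hδ (fun n x => ZZ_diff i n x)
  exact ⟨Y, h1, h2⟩

/-- the level fields -/
def YY (i : ℕ) : ℝ → (ℕ → ℝ) → ℝ := (exists_level i).choose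

lemma YY_meas (i : ℕ) : Measurable (Function.uncurry (YY i)) := (exists_level i).choose_spec.1

lemma YY_GP (i : ℕ) : GP Q0 (YY i) (CK i) := (exists_level i).choose_spec.2

/-- the canonical space -/
abbrev Om : Type := ℕ → (ℕ → ℝ)

/-- the canonical measure -/
def PP : Measure Om := Measure.infinitePi fun _ : ℕ => Q0

instance : IsProbabilityMeasure PP := by unfold PP; infer_instance

/-- the field at level `k` -/
def X (k : ℕ) (x : ℝ) (ω : Om) : ℝ := ∑ i ∈ Finset.range k, YY i x (ω i)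

lemma X_meas (k : ℕ) : Measurable (Function.uncurry (X k)) := by
  show Measurable (fun p : ℝ × Om => ∑ i ∈ Finset.range k, YY i p.1 (p.2 i))
  apply Finset.measurable_sum
  intro i _
  have h1 : Measurable (fun p : ℝ × Om => (p.1, p.2 i)) :=
    measurable_fst.prodMk ((measurable_pi_apply i).comp measurable_snd)
  exact (YY_meas i).comp h1

lemma X_zero (x : ℝ) (ω : Om) : X 0 x ω = 0 := by simp [X]

lemma X_succ (k : ℕ) (x : ℝ) (ω : Om) : X (k+1) x ω = X k x ω + YY k x (ω k) := by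
  unfold X; rw [Finset.sum_range_succ]

/-- the covariance of the whole family -/
def CX (p q : ℕ × ℝ) : ℝ := ∑ i ∈ Finset.range (min p.1 q.1), CK i p.2 q.2

lemma X_GP : GP PP (fun p : ℕ × ℝ => X p.1 p.2) CX := by
  constructor
  · intro p
    exact (X_meas p.1).comp (measurable_const.prodMk measurable_id)
  · intro m s a
    obtain ⟨n, hn⟩ : ∃ n, ∀ l, (s l).1 ≤ n := ⟨Finset.univ.sup fun l => (s l).1, fun l => Finset.le_sup (f := fun l => (s l).1) (Finset.mem_univ l)⟩
    have e : ∀ ω : Om, ∑ l, a l * X (s l).1 (s l).2 ω = ∑ i ∈ Finset.range n,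
        ∑ l, (a l * (if i < (s l).1 then 1 else 0)) * YY i (s l).2 (ω i) := by
      intro ω
      rw [Finset.sum_comm]
      apply Finset.sum_congr rfl; intro l _
      unfold X
      rw [Finset.mul_sum, ← Finset.sum_range_add_sum_Ico _ (hn l)]
      have z : ∑ i ∈ Finset.Ico (s l).1 n, a l * (if i < (s l).1 then 1 else 0) * YY i (s l).2 (ω i) = 0 := by
        apply Finset.sum_eq_zero; intro i hi
        simp [not_lt.2 (Finset.mem_Ico.1 hi).1]
      rw [z, add_zero]
      apply Finset.sum_congr rfl; intro i hi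
      simp [Finset.mem_range.1 hi]
    simp_rw [e]
    unfold PP
    rw [prod_char Q0 (fun i w => ∑ l, (a l * (if i < (s l).1 then 1 else 0)) * YY i (s l).2 w)]
    · simp_rw [(YY_GP _).char]
      rw [← Complex.exp_sum]
      congr 1
      rw [← Finset.sum_div, Finset.sum_neg_distrib]
      congr 2
      rw [← Complex.ofReal_sum]
      congr 1
      rw [Finset.sum_comm]
      apply Finset.sum_congr rfl; intro l _
      rw [Finset.sum_comm]
      apply Finset.sum_congr rfl; intro l' _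
      unfold CX
      rw [Finset.mul_sum]
      have hmin : min (s l).1 (s l').1 ≤ n := (min_le_left _ _).trans (hn l)
      rw [← Finset.sum_range_add_sum_Ico _ hmin]
      have z : ∑ i ∈ Finset.Ico (min (s l).1 (s l').1) n, a l * (if i < (s l).1 then 1 else 0) *
          (a l' * (if i < (s l').1 then 1 else 0)) * CK i (s l).2 (s l').2 = 0 := by
        apply Finset.sum_eq_zero; intro i hi
        have h1 := (Finset.mem_Ico.1 hi).1
        rcases min_le_iff.1 h1 with h | h
        · simp [not_lt.2 h]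
        · simp [not_lt.2 h]
      rw [z, add_zero]
      apply Finset.sum_congr rfl; intro i hi
      have h1 := lt_min_iff.1 (Finset.mem_range.1 hi)
      simp [h1.1, h1.2]
    · intro i
      exact (YY_GP i).meas_lin _ _

end

end Pool.Agent.H968
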