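import Mathlib

open MeasureTheory ProbabilityTheory Filter Topology Set

namespace Pool.Agent.H968

noncomputable section

/-- the standard Gaussian law on the line -/
def nu : Measure ℝ := gaussianReal 0 1

instance : IsProbabilityMeasure nu := by unfold nu; infer_instance

/-- odd Gaussian distribution function -/
def F (n : ℕ) (z : ℝ) : ℝ := ∫ s, Real.sign (z + s) ∂(gaussianReal 0 (n : NNReal))

lemma measurable_sign : Measurable Real.sign := by
  unfold Real.sign
  exact Measurable.ite measurableSet_Iio measurable_const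
    (Measurable.ite measurableSet_Ioi measurable_const measurable_const)

lemma abs_sign_le (x : ℝ) : |Real.sign x| ≤ 1 := by
  rcases Real.sign_apply_eq x with h | h | h <;> rw [h] <;> norm_num

lemma sign_mono {x y : ℝ} (h : x ≤ y) : Real.sign x ≤ Real.sign y := by
  rcases lt_trichotomy x 0 with hx | hx | hx
  · rw [Real.sign_of_neg hx]
    have := abs_le.1 (abs_sign_le y)
    linarith [this.1]
  · subst hx
    rcases h.lt_or_eq with hy | hy
    · rw [Real.sign_of_pos hy, Real.sign_zero]; norm_num
    · rw [← hy]
  · rw [Real.sign_of_pos hx, Real.sign_of_pos (lt_of_lt_of_le hx h)]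

lemma integrable_sign (μ : Measure ℝ) [IsProbabilityMeasure μ] (z : ℝ) :
    Integrable (fun s => Real.sign (z + s)) μ := by
  refine Integrable.of_bound (C := 1) ?_ ?_
  · exact (measurable_sign.comp (measurable_const.add measurable_id)).aestronglyMeasurable
  · exact Eventually.of_forall fun s => by simpa using abs_sign_le _

lemma F_abs_le (n : ℕ) (z : ℝ) : |F n z| ≤ 1 := by
  unfold F
  have := norm_integral_le_of_norm_le_const (μ := gaussianReal 0 (n : NNReal))
    (f := fun s => Real.sign (z + s)) (C := 1) (Eventually.of_forall fun s => by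
      simpa using abs_sign_le _)
  simpa using this

lemma F_mono (n : ℕ) : Monotone (F n) := by
  intro x y h
  unfold F
  exact integral_mono (integrable_sign _ _) (integrable_sign _ _)
    fun s => sign_mono (by linarith)

lemma F_neg (n : ℕ) (z : ℝ) : F n (-z) = - F n z := by
  have h : (gaussianReal 0 (n : NNReal)).map (fun x => -x) = gaussianReal 0 (n : NNReal) := by
    rw [gaussianReal_map_neg]; simp
  unfold F
  rw [← integral_neg]
  conv_lhs => rw [← h]
  rw [integral_map measurable_neg.aemeasurable]
  · congr 1; ext s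
    have h2 : -z + -s = -(z + s) := by ring
    rw [h2]
    rcases lt_trichotomy (z+s) 0 with hx | hx | hx
    · rw [Real.sign_of_neg hx, Real.sign_of_pos (by linarith)]; norm_num
    · rw [hx]; simp
    · rw [Real.sign_of_pos hx, Real.sign_of_neg (by linarith)]
  · exact (measurable_sign.comp (measurable_const.add measurable_id)).aestronglyMeasurable

lemma F_zero (n : ℕ) : F n 0 = 0 := by
  have := F_neg n 0
  simp at this; linarith

lemma F_nonneg (n : ℕ) {z : ℝ} (hz : 0 ≤ z) : 0 ≤ F n z := by
  have := F_mono n hz
  rwa [F_zero] at this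

lemma F_measurable (n : ℕ) : Measurable (F n) := (F_mono n).measurable

lemma F_succ (n : ℕ) (z : ℝ) : F (n+1) z = ∫ s, F n (z + s) ∂nu := by
  have h : gaussianReal 0 ((n+1 : ℕ) : NNReal) = (gaussianReal 0 1) ∗ (gaussianReal 0 (n : NNReal)) := by
    rw [gaussianReal_conv_gaussianReal]; congr 1
    · simp
    · push_cast; ring
  unfold F nu
  rw [h, integral_conv]
  · congr 1; ext s
    congr 1; ext t; congr 1; ring
  · refine Integrable.of_bound (C := 1) ?_ ?_
    · exact (measurable_sign.comp (measurable_const.add measurable_id)).aestronglyMeasurable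
    · exact Eventually.of_forall fun s => by simpa using abs_sign_le _

lemma F_eq_integral {n : ℕ} (hn : n ≠ 0) {z : ℝ} (hz : 0 ≤ z) :
    F n z = ∫ s in Ioo (-z) z, gaussianPDFReal 0 n s := by
  have hn' : (n : NNReal) ≠ 0 := by exact_mod_cast hn
  have h : (gaussianReal 0 (n : NNReal)).map (fun x => -x) = gaussianReal 0 (n : NNReal) := by
    rw [gaussianReal_map_neg]; simp
  have h1 : F n z = ∫ s, Real.sign (z - s) ∂(gaussianReal 0 (n : NNReal)) := by
    unfold F
    conv_lhs => rw [← h]
    rw [integral_map measurable_neg.aemeasurable]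
    · congr 1
    · exact (measurable_sign.comp (measurable_const.add measurable_id)).aestronglyMeasurable
  have hint : Integrable (fun s => Real.sign (z - s)) (gaussianReal 0 (n : NNReal)) := by
    refine Integrable.of_bound (C := 1) ?_ ?_
    · exact (measurable_sign.comp (measurable_const.sub measurable_id)).aestronglyMeasurable
    · exact Eventually.of_forall fun s => by simpa using abs_sign_le _
  have h2 : F n z = ∫ s, (Real.sign (z + s) + Real.sign (z - s))/2 ∂(gaussianReal 0 (n : NNReal)) := by
    rw [integral_div, integral_add (integrable_sign _ _) hint, ← h1]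
    have : F n z = ∫ s, Real.sign (z + s) ∂(gaussianReal 0 (n : NNReal)) := rfl
    rw [← this]; ring
  have hna := nullSingletonClass_gaussianReal (μ := 0) hn'
  have h3 : (fun s => (Real.sign (z + s) + Real.sign (z - s))/2) =ᵐ[gaussianReal 0 (n : NNReal)]
      (Ioo (-z) z).indicator (fun _ => (1:ℝ)) := by
    have hz1 : ∀ᵐ s ∂(gaussianReal 0 (n : NNReal)), s ≠ z := by
      simp [ae_iff]
    have hz2 : ∀ᵐ s ∂(gaussianReal 0 (n : NNReal)), s ≠ -z := by
      simp [ae_iff]
    filter_upwards [hz1, hz2] with s hs1 hs2
    by_cases hs : s ∈ Ioo (-z) z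
    · rw [indicator_of_mem hs, Real.sign_of_pos (by linarith [hs.1]), Real.sign_of_pos (by linarith [hs.2])]
      norm_num
    · rw [indicator_of_notMem hs]
      rcases lt_or_ge s (-z) with h' | h'
      · rw [Real.sign_of_neg (by linarith), Real.sign_of_pos (by linarith)]; norm_num
      · have h'' : -z < s := lt_of_le_of_ne h' (Ne.symm hs2)
        have h3 : z ≤ s := by
          by_contra hc; push Not at hc; exact hs ⟨h'', hc⟩
        have h4 : z < s := lt_of_le_of_ne h3 (Ne.symm hs1)
        rw [Real.sign_of_pos (by linarith), Real.sign_of_neg (by linarith)]; norm_num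
  rw [h2, integral_congr_ae h3, integral_indicator measurableSet_Ioo]
  rw [integral_const, smul_eq_mul, mul_one]
  unfold Measure.real
  rw [Measure.restrict_apply_univ, gaussianReal_apply_eq_integral _ hn', ENNReal.toReal_ofReal]
  exact setIntegral_nonneg measurableSet_Ioo fun s _ => gaussianPDFReal_nonneg _ _ _

lemma pdf_anti {n : ℕ} {s t : ℝ} (h : |s| ≤ |t|) :
    gaussianPDFReal 0 (n : NNReal) t ≤ gaussianPDFReal 0 n s := by
  unfold gaussianPDFReal
  have h1 : s ^ 2 ≤ t ^ 2 := sq_le_sq.2 h
  simp only [sub_zero]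
  gcongr

lemma pdf_le {n : ℕ} (t : ℝ) :
    gaussianPDFReal 0 (n : NNReal) t ≤ (Real.sqrt (2 * Real.pi * n))⁻¹ := by
  have := pdf_anti (n := n) (s := 0) (t := t) (by simp)
  refine this.trans ?_
  unfold gaussianPDFReal
  simp

lemma F_eq_integral' {n : ℕ} (hn : n ≠ 0) {z : ℝ} (hz : 0 ≤ z) :
    F n z = ∫ s in (-z)..z, gaussianPDFReal 0 n s := by
  rw [F_eq_integral hn hz, intervalIntegral.integral_of_le (by linarith),
    integral_Ioc_eq_integral_Ioo]

lemma F_le_lin {n : ℕ} (hn : n ≠ 0) {z : ℝ} (hz : 0 ≤ z) :
    F n z ≤ 2 * z * (Real.sqrt (2 * Real.pi * n))⁻¹ := by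
  rw [F_eq_integral' hn hz]
  have : ∫ s in (-z)..z, gaussianPDFReal 0 (n : NNReal) s ≤
      ∫ s in (-z)..z, (Real.sqrt (2 * Real.pi * n))⁻¹ := by
    apply intervalIntegral.integral_mono (by linarith)
    · exact (integrable_gaussianPDFReal _ _).intervalIntegrable
    · exact intervalIntegrable_const
    · intro s; exact pdf_le s
  refine this.trans (le_of_eq ?_)
  rw [intervalIntegral.integral_const, smul_eq_mul]; ring

lemma F_ge_lin {n : ℕ} (hn : n ≠ 0) {z : ℝ} (hz : 0 ≤ z) :
    2 * z * gaussianPDFReal 0 n z ≤ F n z := by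
  rw [F_eq_integral' hn hz]
  have : ∫ s in (-z)..z, gaussianPDFReal 0 (n : NNReal) z ≤
      ∫ s in (-z)..z, gaussianPDFReal 0 (n : NNReal) s := by
    apply intervalIntegral.integral_mono_on (by linarith)
    · exact intervalIntegrable_const
    · exact (integrable_gaussianPDFReal _ _).intervalIntegrable
    · intro s hs
      apply pdf_anti
      rw [abs_of_nonneg hz]; exact abs_le.2 hs
  refine le_trans (le_of_eq ?_) this
  rw [intervalIntegral.integral_const, smul_eq_mul]; ring

lemma F_scale {n : ℕ} {t : ℝ} (ht : 1 ≤ t) : F n t ≤ t * F n 1 := by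
  rcases Nat.eq_zero_or_pos n with hn | hn
  · subst hn
    have h0 : F 0 1 = 1 := by
      unfold F; simp [Real.sign_of_pos]
    rw [h0, mul_one]
    exact ((abs_le.1 (F_abs_le 0 t)).2).trans ht
  · rw [F_eq_integral' hn.ne' (by linarith), F_eq_integral' hn.ne' (by norm_num)]
    have h1 : ∫ s in (-t)..t, gaussianPDFReal 0 (n : NNReal) s =
        t * ∫ s in (-1:ℝ)..1, gaussianPDFReal 0 (n : NNReal) (s * t) := by
      have := intervalIntegral.smul_integral_comp_mul_right (a := -1) (b := 1)
        (fun s => gaussianPDFReal 0 (n : NNReal) s) t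
      simp only [smul_eq_mul, neg_mul, one_mul] at this
      rw [← this]
    rw [h1]
    apply mul_le_mul_of_nonneg_left _ (by linarith)
    apply intervalIntegral.integral_mono (by norm_num)
    · have := (integrable_gaussianPDFReal 0 (n : NNReal)).comp_mul_right' (by linarith : t ≠ 0)
      exact this.intervalIntegrable
    · exact (integrable_gaussianPDFReal _ _).intervalIntegrable
    · intro s
      apply pdf_anti
      rw [abs_mul, abs_of_pos (by linarith : (0:ℝ) < t)]
      nlinarith [abs_nonneg s]

lemma F_growth {n : ℕ} {t : ℝ} (ht : 0 ≤ t) : F n t ≤ (1 + t) * F n 1 := by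
  have h1 := F_nonneg n (z := 1) (by norm_num)
  rcases le_total t 1 with h | h
  · have := F_mono n h; nlinarith
  · have := F_scale (n := n) h; nlinarith

end

end Pool.Agent.H968
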