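import Mathlib
import Pool.Agent.H968.RWa

open MeasureTheory ProbabilityTheory Filter Topology Set

namespace Pool.Agent.H968

noncomputable section

lemma nu_integral (f : ℝ → ℝ) : ∫ s, f s ∂nu = ∫ s, gaussianPDFReal 0 1 s * f s := by
  unfold nu
  rw [integral_gaussianReal_eq_integral_smul (by norm_num)]
  rfl

lemma integrable_id_nu : Integrable (fun s : ℝ => s) nu := by
  have := memLp_id_gaussianReal (μ := 0) (v := 1) 1
  exact (memLp_one_iff_integrable.1 (by exact_mod_cast this))

lemma integrable_abs_nu : Integrable (fun s : ℝ => |s|) nu := integrable_id_nu.abs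

lemma integral_id_nu : ∫ s, s ∂nu = 0 := by
  unfold nu; rw [integral_id_gaussianReal]

lemma nu_map_neg : nu.map (fun x => -x) = nu := by
  unfold nu; rw [gaussianReal_map_neg]; simp

lemma integral_abs_nu_le : ∫ s, |s| ∂nu ≤ 1 := by
  have h2 : Integrable (fun s : ℝ => s^2) nu := by
    have := memLp_id_gaussianReal (μ := 0) (v := 1) 2
    exact this.integrable_sq
  have h3 : ∫ s, s^2 ∂nu = 1 := by
    have hv : Var[id; gaussianReal 0 1] = ((1:NNReal):ℝ) := variance_id_gaussianReal
    rw [variance_eq_sub (memLp_id_gaussianReal (μ := 0) (v := 1) 2)] at hv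
    have h0 : ∫ s, s ∂(gaussianReal 0 1) = 0 := integral_id_gaussianReal
    simp only [Pi.pow_apply, NNReal.coe_one, id] at hv
    rw [h0] at hv
    unfold nu
    simpa using hv
  have h4 : ∫ s, |s| ∂nu ≤ ∫ s, (1 + s^2)/2 ∂nu := by
    apply integral_mono integrable_abs_nu
    · exact ((integrable_const _).add h2).div_const _
    · intro s
      have : 0 ≤ (|s| - 1)^2 := sq_nonneg _
      simp only
      nlinarith [sq_abs s]
  rw [integral_div, integral_add (integrable_const _) h2, h3] at h4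
  simp at h4
  linarith

/-- one step of the walk killed on the negative half line -/
def Pr (f : ℝ → ℝ) (z : ℝ) : ℝ := ∫ s, (if 0 ≤ z + s then f (z + s) else 0) ∂nu

/-- linear growth on the half line -/
structure LG (f : ℝ → ℝ) : Prop where
  meas : Measurable f
  bd : ∃ C, 0 ≤ C ∧ ∀ y, 0 ≤ y → |f y| ≤ C * (1 + y)

lemma LG.const (c : ℝ) : LG (fun _ => c) :=
  ⟨measurable_const, |c|, abs_nonneg _, fun y hy => by nlinarith [abs_nonneg c]⟩

lemma LG.id : LG (fun y => y) :=
  ⟨measurable_id, 1, by norm_num, fun y hy => by rw [abs_of_nonneg hy]; linarith⟩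

lemma LG.add {f g : ℝ → ℝ} (hf : LG f) (hg : LG g) : LG (fun y => f y + g y) := by
  obtain ⟨C, hC, h1⟩ := hf.bd
  obtain ⟨D, hD, h2⟩ := hg.bd
  refine ⟨hf.meas.add hg.meas, C + D, by positivity, fun y hy => ?_⟩
  have := abs_add_le (f y) (g y)
  nlinarith [h1 y hy, h2 y hy]

lemma LG.mul {f : ℝ → ℝ} (c : ℝ) (hf : LG f) : LG (fun y => c * f y) := by
  obtain ⟨C, hC, h1⟩ := hf.bd
  refine ⟨hf.meas.const_mul c, |c| * C, by positivity, fun y hy => ?_⟩
  rw [abs_mul, mul_assoc]
  exact mul_le_mul_of_nonneg_left (h1 y hy) (abs_nonneg _)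

lemma LG.of_bdd {f : ℝ → ℝ} (hf : Measurable f) {C : ℝ} (h : ∀ y, 0 ≤ y → |f y| ≤ C) : LG f := by
  have hC : 0 ≤ C := (abs_nonneg _).trans (h 0 le_rfl)
  exact ⟨hf, C, hC, fun y hy => (h y hy).trans (by nlinarith)⟩

lemma meas_ind {f : ℝ → ℝ} (hf : Measurable f) :
    Measurable (fun p : ℝ × ℝ => if 0 ≤ p.1 + p.2 then f (p.1 + p.2) else 0) :=
  Measurable.ite (measurableSet_le measurable_const (measurable_fst.add measurable_snd))
    (hf.comp (measurable_fst.add measurable_snd)) measurable_const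

lemma meas_ind' {f : ℝ → ℝ} (hf : Measurable f) (z : ℝ) :
    Measurable (fun s : ℝ => if 0 ≤ z + s then f (z + s) else 0) :=
  (meas_ind hf).comp (measurable_const.prodMk measurable_id)

lemma Pr_integrable {f : ℝ → ℝ} (hf : LG f) (z : ℝ) :
    Integrable (fun s => if 0 ≤ z + s then f (z + s) else 0) nu := by
  obtain ⟨C, hC, h1⟩ := hf.bd
  have hb : Integrable (fun s : ℝ => C * (1 + |z| + |s|)) nu :=
    ((integrable_const _).add integrable_abs_nu).const_mul C
  refine hb.mono' (meas_ind' hf.meas z).aestronglyMeasurable ?_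
  refine Eventually.of_forall fun s => ?_
  simp only [Real.norm_eq_abs]
  split_ifs with h
  · refine (h1 _ h).trans ?_
    have := le_abs_self z
    have := le_abs_self s
    gcongr ?_ * ?_
    linarith
  · simp; positivity

lemma Pr_meas {f : ℝ → ℝ} (hf : Measurable f) : Measurable (Pr f) := by
  have : StronglyMeasurable (fun p : ℝ × ℝ => if 0 ≤ p.1 + p.2 then f (p.1 + p.2) else 0) :=
    (meas_ind hf).stronglyMeasurable
  exact this.integral_prod_right.measurable

lemma Pr_bound {f : ℝ → ℝ} {C : ℝ} (hC : 0 ≤ C)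
    (h1 : ∀ y, 0 ≤ y → |f y| ≤ C * (1 + y)) {z : ℝ} (hz : 0 ≤ z) :
    |Pr f z| ≤ 2 * C * (1 + z) := by
  unfold Pr
  have hb : Integrable (fun s : ℝ => C * (1 + z + |s|)) nu :=
    ((integrable_const _).add integrable_abs_nu).const_mul C
  have h2 : ‖∫ s, (if 0 ≤ z + s then f (z + s) else 0) ∂nu‖ ≤ ∫ s, C * (1 + z + |s|) ∂nu := by
    apply norm_integral_le_of_norm_le hb
    refine Eventually.of_forall fun s => ?_
    simp only [Real.norm_eq_abs]
    split_ifs with h
    · refine (h1 _ h).trans ?_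
      have := le_abs_self s
      gcongr ?_ * ?_
      linarith
    · simp; positivity
  rw [Real.norm_eq_abs] at h2
  refine h2.trans ?_
  rw [integral_const_mul, integral_add (integrable_const _) integrable_abs_nu]
  have := integral_abs_nu_le
  simp
  nlinarith

lemma Pr_LG {f : ℝ → ℝ} (hf : LG f) : LG (Pr f) := by
  obtain ⟨C, hC, h1⟩ := hf.bd
  refine ⟨Pr_meas hf.meas, 2 * C, by positivity, fun z hz => ?_⟩
  exact Pr_bound hC h1 hz

lemma iter_LG {f : ℝ → ℝ} (hf : LG f) (n : ℕ) : LG (Pr^[n] f) := by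
  induction n with
  | zero => exact hf
  | succ n ih => rw [Function.iterate_succ_apply']; exact Pr_LG ih

lemma Pr_mono {f g : ℝ → ℝ} (hf : LG f) (hg : LG g) (h : ∀ y, 0 ≤ y → f y ≤ g y) (z : ℝ) :
    Pr f z ≤ Pr g z := by
  unfold Pr
  apply integral_mono (Pr_integrable hf z) (Pr_integrable hg z)
  intro s
  simp only
  split_ifs with h'
  · exact h _ h'
  · exact le_rfl

lemma iter_mono {f g : ℝ → ℝ} (hf : LG f) (hg : LG g) (h : ∀ y, 0 ≤ y → f y ≤ g y) (n : ℕ) :
    ∀ z, 0 ≤ z → (Pr^[n] f) z ≤ (Pr^[n] g) z := by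
  induction n with
  | zero => exact h
  | succ n ih =>
    intro z _
    rw [Function.iterate_succ_apply', Function.iterate_succ_apply']
    exact Pr_mono (iter_LG hf n) (iter_LG hg n) ih z

lemma Pr_add {f g : ℝ → ℝ} (hf : LG f) (hg : LG g) :
    Pr (fun y => f y + g y) = fun z => Pr f z + Pr g z := by
  ext z; unfold Pr
  rw [← integral_add (Pr_integrable hf z) (Pr_integrable hg z)]
  congr 1; ext s; split_ifs <;> simp

lemma Pr_mul (c : ℝ) (f : ℝ → ℝ) : Pr (fun y => c * f y) = fun z => c * Pr f z := by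
  ext z; unfold Pr
  rw [← integral_const_mul]
  congr 1; ext s; split_ifs <;> simp

lemma iter_add {f g : ℝ → ℝ} (hf : LG f) (hg : LG g) (n : ℕ) :
    Pr^[n] (fun y => f y + g y) = fun z => (Pr^[n] f) z + (Pr^[n] g) z := by
  induction n with
  | zero => rfl
  | succ n ih =>
    rw [Function.iterate_succ_apply', ih, Pr_add (iter_LG hf n) (iter_LG hg n)]
    ext z
    rw [Function.iterate_succ_apply', Function.iterate_succ_apply']

lemma iter_mul (c : ℝ) (f : ℝ → ℝ) (n : ℕ) :
    Pr^[n] (fun y => c * f y) = fun z => c * (Pr^[n] f) z := by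
  induction n with
  | zero => rfl
  | succ n ih =>
    rw [Function.iterate_succ_apply', ih, Pr_mul]
    ext z
    rw [Function.iterate_succ_apply']

/-- values on the negative half line do not matter -/
lemma Pr_congr {f g : ℝ → ℝ} (h : ∀ y, 0 ≤ y → f y = g y) : Pr f = Pr g := by
  ext z; unfold Pr; congr 1; ext s; split_ifs with h'
  · exact h _ h'
  · rfl

/-- survival probabilities -/
def u (n : ℕ) : ℝ → ℝ := Pr^[n] (fun _ => 1)

lemma u_zero (z : ℝ) : u 0 z = 1 := rfl

lemma u_succ (n : ℕ) : u (n+1) = Pr (u n) := by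
  unfold u; rw [Function.iterate_succ_apply']

lemma u_LG (n : ℕ) : LG (u n) := iter_LG (LG.const 1) n

lemma u_meas (n : ℕ) : Measurable (u n) := (u_LG n).meas

lemma Pr_nonneg {f : ℝ → ℝ} (h : ∀ y, 0 ≤ y → 0 ≤ f y) (z : ℝ) : 0 ≤ Pr f z := by
  unfold Pr
  apply integral_nonneg
  intro s; simp only [Pi.zero_apply]; split_ifs with h'
  · exact h _ h'
  · exact le_rfl

lemma iter_nonneg {f : ℝ → ℝ} (h : ∀ y, 0 ≤ y → 0 ≤ f y) (n : ℕ) :
    ∀ z, 0 ≤ z → 0 ≤ (Pr^[n] f) z := by
  induction n with
  | zero => exact h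
  | succ n ih =>
    intro z _
    rw [Function.iterate_succ_apply']; exact Pr_nonneg ih z

lemma u_nonneg (n : ℕ) (z : ℝ) : 0 ≤ u n z := by
  cases n with
  | zero => rw [u_zero]; norm_num
  | succ n => rw [u_succ]; exact Pr_nonneg (fun y hy => iter_nonneg (fun _ _ => by norm_num) n y hy) z

lemma u_le_one (n : ℕ) (z : ℝ) : u n z ≤ 1 := by
  induction n generalizing z with
  | zero => rw [u_zero]
  | succ n ih =>
    rw [u_succ]
    unfold Pr
    calc ∫ s, (if 0 ≤ z + s then u n (z + s) else 0) ∂nu ≤ ∫ s, (1:ℝ) ∂nu := by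
          apply integral_mono (Pr_integrable (u_LG n) z) (integrable_const _)
          intro s; simp only; split_ifs
          · exact ih _
          · norm_num
      _ = 1 := by simp

lemma u_anti (n : ℕ) (z : ℝ) : u (n+1) z ≤ u n z := by
  induction n generalizing z with
  | zero => rw [u_zero]; exact u_le_one _ _
  | succ n ih =>
    rw [u_succ (n+1)]
    conv_rhs => rw [u_succ n]
    exact Pr_mono (u_LG _) (u_LG _) (fun y _ => ih y) z

lemma F_LG (n : ℕ) (c : ℝ) : LG (fun y => F n (y + c)) :=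
  LG.of_bdd ((F_measurable n).comp (measurable_id.add_const c)) fun _ _ => F_abs_le n _

lemma F_integrable (n : ℕ) (c : ℝ) : Integrable (fun s => F n (c + s)) nu := by
  refine Integrable.of_bound (C := 1) ?_ ?_
  · exact ((F_measurable n).comp (measurable_const.add measurable_id)).aestronglyMeasurable
  · exact Eventually.of_forall fun s => by simpa using F_abs_le _ _

lemma F_le_u (n : ℕ) : ∀ z, 0 ≤ z → F n z ≤ u n z := by
  induction n with
  | zero =>
    intro z _
    rw [u_zero]; exact (abs_le.1 (F_abs_le 0 z)).2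
  | succ n ih =>
    intro z hz
    rw [F_succ, u_succ]
    unfold Pr
    apply integral_mono (F_integrable n z) (Pr_integrable (u_LG n) z)
    intro s
    simp only
    split_ifs with h
    · exact ih _ h
    · have h1 : z + s ≤ 0 := by linarith [not_le.1 h]
      have := F_mono n h1
      rwa [F_zero] at this

end

end Pool.Agent.H968
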