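import Mathlib
import Pool.Agent.H968.RWb

open MeasureTheory ProbabilityTheory Filter Topology Set

namespace Pool.Agent.H968

noncomputable section

lemma pdf1_eq (x : ℝ) : gaussianPDFReal 0 1 x = (Real.sqrt (2 * Real.pi))⁻¹ * Real.exp (-(x^2)/2) := by
  unfold gaussianPDFReal; simp

lemma pdf1_hasDeriv (x : ℝ) :
    HasDerivAt (gaussianPDFReal 0 1) (gaussianPDFReal 0 1 x * (-x)) x := by
  have h : gaussianPDFReal 0 1 = fun x => (Real.sqrt (2 * Real.pi))⁻¹ * Real.exp (-(x^2)/2) := by
    ext x; exact pdf1_eq x
  rw [h]
  have h1 : HasDerivAt (fun x : ℝ => -(x^2)/2) (-x) x :=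
    ((hasDerivAt_pow 2 x).neg.div_const 2).congr_deriv (by norm_num; ring)
  exact ((h1.exp).const_mul (Real.sqrt (2 * Real.pi))⁻¹).congr_deriv (by ring)

lemma pdf1_tendsto_bot : Tendsto (gaussianPDFReal 0 1) atBot (𝓝 0) := by
  have h : gaussianPDFReal 0 1 = fun x => (Real.sqrt (2 * Real.pi))⁻¹ * Real.exp (-(x^2)/2) := by
    ext x; exact pdf1_eq x
  rw [h]
  have h1 : Tendsto (fun x : ℝ => -(x^2)/2) atBot atBot := by
    have h2 : Tendsto (fun x : ℝ => x^2) atBot atTop := by
      have := (tendsto_pow_atTop (α := ℝ) (n := 2) (by norm_num)).comp tendsto_neg_atBot_atTop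
      refine this.congr fun x => ?_
      simp
    have h3 := (tendsto_neg_atTop_atBot.comp h2)
    exact h3.atBot_div_const (by norm_num)
  have := (Real.tendsto_exp_atBot.comp h1).const_mul (Real.sqrt (2 * Real.pi))⁻¹
  simpa using this

lemma integrableOn_pdf_mul : Integrable (fun s => gaussianPDFReal 0 1 s * (-s)) := by
  have h := integrable_id_nu
  unfold nu at h
  rw [gaussianReal_of_var_ne_zero 0 (by norm_num), integrable_withDensity_iff_integrable_smul'
    (measurable_gaussianPDF 0 1) (Eventually.of_forall fun x => gaussianPDF_lt_top)] at h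
  have h2 : Integrable (fun s => gaussianPDFReal 0 1 s * s) := by
    refine h.congr (Eventually.of_forall fun s => ?_)
    simp [toReal_gaussianPDF]
  refine h2.neg.congr (Eventually.of_forall fun s => ?_)
  simp

lemma tail_first_moment (a : ℝ) :
    ∫ s in Iic a, gaussianPDFReal 0 1 s * (-s) = gaussianPDFReal 0 1 a := by
  have := integral_Iic_of_hasDerivAt_of_tendsto' (f := gaussianPDFReal 0 1)
    (f' := fun s => gaussianPDFReal 0 1 s * (-s)) (a := a) (m := 0)
    (fun x _ => pdf1_hasDeriv x) integrableOn_pdf_mul.integrableOn pdf1_tendsto_bot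
  simpa using this

/-- the overshoot inequality -/
lemma overshoot {G : ℝ → ℝ} (hG : Measurable G) {C : ℝ} (hC : 0 ≤ C)
    (hb : ∀ y, |G y| ≤ C * (1 + |y|)) (hodd : ∀ y, G (-y) = - G y) (hmono : Monotone G)
    (hg : ∀ t, 0 ≤ t → G t ≤ (1 + t) * G 1) {z : ℝ} (hz : 0 ≤ z) :
    0 ≤ ∫ s, (if z + s < 0 then G (z + s + 2) else 0) ∂nu := by
  have h0 : G 0 = 0 := by have := hodd 0; simp at this; linarith
  have h1 : 0 ≤ G 1 := by rw [← h0]; exact hmono (by norm_num)
  have hnn : ∀ t, 0 ≤ t → 0 ≤ G t := fun t ht => by rw [← h0]; exact hmono ht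
  have hint1 : Integrable (fun s => if z + s < 0 then G (z + s + 2) else 0) nu := by
    have hbi : Integrable (fun s : ℝ => C * (1 + (|z| + |s| + 2))) nu :=
      ((integrable_const _).add (((integrable_const _).add integrable_abs_nu).add
        (integrable_const _))).const_mul C
    refine hbi.mono' ?_ ?_
    · apply Measurable.aestronglyMeasurable
      exact Measurable.ite (measurableSet_lt (measurable_const.add measurable_id) measurable_const)
        (hG.comp ((measurable_const.add measurable_id).add_const 2)) measurable_const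
    · refine Eventually.of_forall fun s => ?_
      simp only [Real.norm_eq_abs]
      split_ifs with h
      · refine (hb _).trans ?_
        have h3 : |z + s + 2| ≤ |z| + |s| + 2 := by
          refine (abs_add_le _ _).trans ?_
          have := abs_add_le z s
          simp; linarith
        gcongr
      · simp; positivity
  have hlow : ∀ s, G 1 * ((Ico (-z-1) (-z)).indicator (fun _ => (1:ℝ)) s
      - (Iic (-z-2)).indicator (fun s => -s) s) ≤ (if z + s < 0 then G (z + s + 2) else 0) := by
    intro s
    split_ifs with h
    · rcases le_or_gt (-z-1) s with h2 | h2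
      · rw [indicator_of_mem (show s ∈ Ico (-z-1) (-z) from ⟨h2, by linarith⟩),
          indicator_of_notMem (by simp only [mem_Iic, not_le]; linarith)]
        have : G 1 ≤ G (z + s + 2) := hmono (by linarith)
        linarith
      · rw [indicator_of_notMem (by simp only [mem_Ico, not_and, not_lt]; intro h3; linarith)]
        rcases le_or_gt s (-z-2) with h3 | h3
        · rw [indicator_of_mem (by exact h3)]
          have h4 := hg (-(z + s + 2)) (by linarith)
          rw [hodd] at h4
          nlinarith
        · rw [indicator_of_notMem (by simp only [mem_Iic, not_le]; exact h3)]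
          have := hnn (z + s + 2) (by linarith)
          linarith
    · rw [indicator_of_notMem (by simp only [mem_Ico, not_and, not_lt]; intro h3; linarith),
        indicator_of_notMem (by simp only [mem_Iic, not_le]; linarith)]
      simp
  have hi1 : Integrable ((Ico (-z-1) (-z)).indicator (fun _ => (1:ℝ))) nu :=
    (integrable_const _).indicator measurableSet_Ico
  have hi2 : Integrable ((Iic (-z-2)).indicator (fun s : ℝ => -s)) nu :=
    integrable_id_nu.neg.indicator measurableSet_Iic
  have h5 : 0 ≤ ∫ s, G 1 * ((Ico (-z-1) (-z)).indicator (fun _ => (1:ℝ)) s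
      - (Iic (-z-2)).indicator (fun s => -s) s) ∂nu := by
    rw [integral_const_mul]
    apply mul_nonneg h1
    rw [integral_sub hi1 hi2]
    have h6 : ∫ s, (Iic (-z-2)).indicator (fun s => -s) s ∂nu = gaussianPDFReal 0 1 (-z-2) := by
      rw [nu_integral, ← tail_first_moment, ← integral_indicator measurableSet_Iic]
      congr 1; ext s
      by_cases hs : s ∈ Iic (-z-2)
      · rw [indicator_of_mem hs, indicator_of_mem hs]
      · rw [indicator_of_notMem hs, indicator_of_notMem hs]; simp
    have h7 : gaussianPDFReal 0 1 (-z-1) ≤ ∫ s, (Ico (-z-1) (-z)).indicator (fun _ => (1:ℝ)) s ∂nu := by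
      rw [nu_integral]
      have e1 : ∫ s, gaussianPDFReal 0 1 s * (Ico (-z-1) (-z)).indicator (fun _ => (1:ℝ)) s
          = ∫ s in Ico (-z-1) (-z), gaussianPDFReal 0 1 s := by
        rw [← integral_indicator measurableSet_Ico]
        congr 1; ext s
        by_cases hs : s ∈ Ico (-z-1) (-z)
        · rw [indicator_of_mem hs, indicator_of_mem hs]; simp
        · rw [indicator_of_notMem hs, indicator_of_notMem hs]; simp
      rw [e1]
      have e2 : ∫ s in Ico (-z-1) (-z), gaussianPDFReal 0 1 (-z-1) = gaussianPDFReal 0 1 (-z-1) := by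
        rw [integral_const, smul_eq_mul]
        simp [Measure.real]
      rw [← e2]
      apply setIntegral_mono_on
      · exact integrable_const _
      · exact (integrable_gaussianPDFReal _ _).integrableOn
      · exact measurableSet_Ico
      · intro s hs
        have := pdf_anti (n := 1) (s := s) (t := -z-1) (by
          rw [abs_of_nonpos (by linarith [hs.2] : s ≤ 0), abs_of_nonpos (by linarith)]
          linarith [hs.1])
        simpa using this
    have h8 : gaussianPDFReal 0 1 (-z-2) ≤ gaussianPDFReal 0 1 (-z-1) := by
      have := pdf_anti (n := 1) (s := -z-1) (t := -z-2) (by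
        rw [abs_of_nonpos (by linarith), abs_of_nonpos (by linarith)]; linarith)
      simpa using this
    linarith
  refine h5.trans ?_
  apply integral_mono _ hint1 hlow
  exact (hi1.sub hi2).const_mul _

/-- if `G` is odd and nice and `G(. + 2)` averages to `G'` then the killed operator is dominated -/
lemma Pr_shift_le {G : ℝ → ℝ} (hG : Measurable G) {C : ℝ} (hC : 0 ≤ C)
    (hb : ∀ y, |G y| ≤ C * (1 + |y|)) (hodd : ∀ y, G (-y) = - G y) (hmono : Monotone G)
    (hg : ∀ t, 0 ≤ t → G t ≤ (1 + t) * G 1) {z : ℝ} (hz : 0 ≤ z) :
    Pr (fun y => G (y + 2)) z ≤ ∫ s, G (z + 2 + s) ∂nu := by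
  have h := overshoot hG hC hb hodd hmono hg hz
  have hbi : Integrable (fun s : ℝ => C * (1 + (|z| + |s| + 2))) nu :=
      ((integrable_const _).add (((integrable_const _).add integrable_abs_nu).add
        (integrable_const _))).const_mul C
  have habs : ∀ s : ℝ, |z + s + 2| ≤ |z| + |s| + 2 := by
    intro s
    refine (abs_add_le _ _).trans ?_
    have := abs_add_le z s
    simp; linarith
  have hint0 : Integrable (fun s => G (z + s + 2)) nu := by
    refine hbi.mono' (hG.comp ((measurable_const.add measurable_id).add_const 2)).aestronglyMeasurable ?_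
    refine Eventually.of_forall fun s => ?_
    simp only [Real.norm_eq_abs]
    refine (hb _).trans ?_
    have := habs s
    gcongr
  have hint1 : Integrable (fun s => if z + s < 0 then G (z + s + 2) else 0) nu := by
    have : (fun s => if z + s < 0 then G (z + s + 2) else 0) =
        {s | z + s < 0}.indicator (fun s => G (z + s + 2)) := by
      ext s; simp [indicator]
    rw [this]
    exact hint0.indicator (measurableSet_lt (measurable_const.add measurable_id) measurable_const)
  have e : ∫ s, G (z + 2 + s) ∂nu = Pr (fun y => G (y + 2)) z +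
      ∫ s, (if z + s < 0 then G (z + s + 2) else 0) ∂nu := by
    unfold Pr
    rw [← integral_add _ hint1]
    · congr 1; ext s
      by_cases hs : z + s < 0
      · rw [if_pos hs, if_neg (not_le.2 hs), zero_add]; congr 1; ring
      · rw [if_neg hs, if_pos (not_lt.1 hs), add_zero]; congr 1; ring
    · have : (fun s => if 0 ≤ z + s then G (z + s + 2) else 0) =
        {s | 0 ≤ z + s}.indicator (fun s => G (z + s + 2)) := by
        ext s; simp [indicator]
      rw [this]
      exact hint0.indicator (measurableSet_le measurable_const (measurable_const.add measurable_id))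
  rw [e]; linarith

lemma u_le_F (n : ℕ) : ∀ z, 0 ≤ z → u n z ≤ F n (z + 2) := by
  induction n with
  | zero =>
    intro z hz
    rw [u_zero]
    unfold F
    simp only [Nat.cast_zero, gaussianReal_zero_var]
    rw [integral_dirac]
    rw [Real.sign_of_pos (by linarith)]
  | succ n ih =>
    intro z hz
    rw [u_succ, F_succ]
    refine (Pr_mono (u_LG n) (F_LG n 2) ih z).trans ?_
    exact Pr_shift_le (F_measurable n) (C := 1) (by norm_num)
      (fun y => (F_abs_le n y).trans (by nlinarith [abs_nonneg y])) (F_neg n) (F_mono n)
      (fun t ht => F_growth ht) hz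

lemma V_step {z : ℝ} (hz : 0 ≤ z) : Pr (fun y => y + 2) z ≤ z + 2 := by
  have h := Pr_shift_le (G := fun y => y) measurable_id (C := 1) (by norm_num)
    (fun y => by linarith) (fun y => rfl) (fun a b h => h) (fun t ht => by linarith) hz
  refine h.trans (le_of_eq ?_)
  rw [integral_add (integrable_const _) integrable_id_nu, integral_id_nu]
  simp

end

end Pool.Agent.H968
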