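import Mathlib
import Pool.Agent.H968.RWc

open MeasureTheory ProbabilityTheory Filter Topology Set
open scoped ENNReal NNReal

namespace Pool.Agent.H968

noncomputable section

/-- the constant `sqrt (2/pi)` -/
def kap : ℝ := 2 * (Real.sqrt (2 * Real.pi))⁻¹

lemma kap_pos : 0 < kap := by unfold kap; positivity

lemma u_le_lin {n : ℕ} (hn : n ≠ 0) {z : ℝ} (hz : 0 ≤ z) :
    u n z ≤ kap * (z + 2) * (Real.sqrt n)⁻¹ := by
  refine (u_le_F n z hz).trans ((F_le_lin hn (by linarith)).trans (le_of_eq ?_))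
  unfold kap
  rw [Real.sqrt_mul (by positivity), mul_inv]
  ring

lemma sqrt_F_tendsto {y : ℝ} (hy : 0 ≤ y) :
    Tendsto (fun n : ℕ => Real.sqrt n * F n y) atTop (𝓝 (kap * y)) := by
  have hlow : Tendsto (fun n : ℕ => kap * y * Real.exp (-(y^2)/(2*n))) atTop (𝓝 (kap * y * 1)) := by
    apply Tendsto.const_mul
    rw [← Real.exp_zero]
    apply (Real.continuous_exp.tendsto 0).comp
    have h1 : Tendsto (fun n : ℕ => (2 * (n:ℝ))) atTop atTop :=
      Tendsto.const_mul_atTop (by norm_num) tendsto_natCast_atTop_atTop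
    exact h1.const_div_atTop _
  rw [mul_one] at hlow
  refine tendsto_of_tendsto_of_tendsto_of_le_of_le' hlow tendsto_const_nhds ?_ ?_
  · filter_upwards [eventually_ne_atTop 0] with n hn
    have hn0 : (0:ℝ) < n := by exact_mod_cast Nat.pos_of_ne_zero hn
    have h := F_ge_lin hn hy
    have h2 : Real.sqrt n * (2 * y * gaussianPDFReal 0 n y) ≤ Real.sqrt n * F n y :=
      mul_le_mul_of_nonneg_left h (Real.sqrt_nonneg _)
    refine le_trans (le_of_eq ?_) h2
    unfold gaussianPDFReal kap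
    have h3 : Real.sqrt n ≠ 0 := (Real.sqrt_pos.2 hn0).ne'
    rw [Real.sqrt_mul (by positivity : (0:ℝ) ≤ 2 * Real.pi)]
    simp only [NNReal.coe_natCast, sub_zero]
    field_simp
  · filter_upwards [eventually_ne_atTop 0] with n hn
    have hn0 : (0:ℝ) < n := by exact_mod_cast Nat.pos_of_ne_zero hn
    have h := F_le_lin hn hy
    have h2 : Real.sqrt n * F n y ≤ Real.sqrt n * (2 * y * (Real.sqrt (2 * Real.pi * n))⁻¹) :=
      mul_le_mul_of_nonneg_left h (Real.sqrt_nonneg _)
    refine h2.trans (le_of_eq ?_)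
    have h3 : Real.sqrt n ≠ 0 := (Real.sqrt_pos.2 hn0).ne'
    unfold kap
    rw [Real.sqrt_mul (by positivity : (0:ℝ) ≤ 2 * Real.pi)]
    field_simp

lemma Pr_tendsto {g : ℕ → ℝ → ℝ} {G : ℝ → ℝ} {C : ℝ} (hC : 0 ≤ C) (hg : ∀ j, Measurable (g j))
    (hb : ∀ j, ∀ y, 0 ≤ y → |g j y| ≤ C * (1 + y))
    (ht : ∀ y, 0 ≤ y → Tendsto (fun j => g j y) atTop (𝓝 (G y))) (z : ℝ) :
    Tendsto (fun j => Pr (g j) z) atTop (𝓝 (Pr G z)) := by
  unfold Pr
  have hbi : Integrable (fun s : ℝ => C * (1 + |z| + |s|)) nu :=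
    ((integrable_const _).add integrable_abs_nu).const_mul C
  apply tendsto_integral_of_dominated_convergence _ _ hbi
  · intro j
    refine Eventually.of_forall fun s => ?_
    simp only [Real.norm_eq_abs]
    split_ifs with h
    · refine (hb j _ h).trans ?_
      have := le_abs_self z
      have := le_abs_self s
      gcongr ?_ * ?_
      linarith
    · simp; positivity
  · refine Eventually.of_forall fun s => ?_
    split_ifs with h
    · exact ht _ h
    · exact tendsto_const_nhds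
  · intro j; exact (meas_ind' (hg j) z).aestronglyMeasurable

lemma iter_tendsto (m : ℕ) : ∀ {g : ℕ → ℝ → ℝ} {G : ℝ → ℝ} {C : ℝ}, 0 ≤ C →
    (∀ j, Measurable (g j)) → (∀ j, ∀ y, 0 ≤ y → |g j y| ≤ C * (1 + y)) →
    (∀ y, 0 ≤ y → Tendsto (fun j => g j y) atTop (𝓝 (G y))) → ∀ z, 0 ≤ z →
    Tendsto (fun j => (Pr^[m] (g j)) z) atTop (𝓝 ((Pr^[m] G) z)) := by
  induction m with
  | zero => intro g G C _ _ _ ht z hz; exact ht z hz
  | succ m ih =>
    intro g G C hC hg hb ht z hz
    simp only [Function.iterate_succ_apply]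
    apply ih (C := 2 * C) (by positivity) (fun j => Pr_meas (hg j)) _ _ z hz
    · intro j y hy; exact Pr_bound hC (hb j) hy
    · intro y _; exact Pr_tendsto hC hg hb ht y

/-- `E_z[S_m ; survival up to m]` -/
def V (m : ℕ) : ℝ → ℝ := Pr^[m] (fun y => y)

lemma V_LG (m : ℕ) : LG (V m) := iter_LG LG.id m

lemma V_succ (m : ℕ) : V (m+1) = Pr (V m) := by
  unfold V; rw [Function.iterate_succ_apply']

lemma V_zero_le {z : ℝ} : z ≤ Pr (fun y => y) z := by
  have e : z = ∫ s, (z + s) ∂nu := by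
    rw [integral_add (integrable_const _) integrable_id_nu, integral_id_nu]; simp
  conv_lhs => rw [e]
  unfold Pr
  apply integral_mono ((integrable_const _).add integrable_id_nu) (Pr_integrable LG.id z)
  intro s; simp only
  split_ifs with h
  · exact le_rfl
  · exact (not_le.1 h).le

lemma V_mono0 (m : ℕ) {z : ℝ} (hz : 0 ≤ z) : V m z ≤ V (m+1) z := by
  unfold V
  rw [Function.iterate_succ_apply]
  exact iter_mono LG.id (Pr_LG LG.id) (fun y _ => V_zero_le) m z hz

lemma V_mono (m : ℕ) (z : ℝ) : V (m+1) z ≤ V (m+2) z := by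
  rw [V_succ (m+1)]; conv_lhs => rw [V_succ m]
  exact Pr_mono (V_LG _) (V_LG _) (fun y hy => V_mono0 m hy) z

lemma V_le0 (m : ℕ) : ∀ z, 0 ≤ z → V m z ≤ z + 2 := by
  induction m with
  | zero => intro z hz; unfold V; simp
  | succ m ih =>
    intro z hz
    rw [V_succ]
    exact (Pr_mono (V_LG m) (LG.id.add (LG.const 2)) ih z).trans (V_step hz)

lemma V_le (m : ℕ) (z : ℝ) : V (m+1) z ≤ Pr (fun y => y + 2) z := by
  rw [V_succ]
  exact Pr_mono (V_LG m) (LG.id.add (LG.const 2)) (fun y hy => V_le0 m y hy) z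

/-- the renewal function -/
def R (z : ℝ) : ℝ := kap * ⨆ m, V (m+1) z

lemma V_tendsto (z : ℝ) : Tendsto (fun m => kap * V (m+1) z) atTop (𝓝 (R z)) := by
  apply Tendsto.const_mul
  apply tendsto_atTop_ciSup
  · exact monotone_nat_of_le_succ fun m => V_mono m z
  · exact ⟨Pr (fun y => y + 2) z, by rintro _ ⟨m, rfl⟩; exact V_le m z⟩

lemma R_meas : Measurable R :=
  measurable_of_tendsto_metrizable (fun m => (V_LG (m+1)).meas.const_mul kap)
    (tendsto_pi_nhds.2 V_tendsto)

lemma kapV_le_R (m : ℕ) {z : ℝ} (hz : 0 ≤ z) : kap * V m z ≤ R z := by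
  have hmono : Monotone (fun m => V m z) := monotone_nat_of_le_succ fun m => V_mono0 m hz
  refine ge_of_tendsto (V_tendsto z) ?_
  filter_upwards [eventually_ge_atTop m] with k hk
  exact mul_le_mul_of_nonneg_left (hmono (by omega)) kap_pos.le

lemma R_ge {z : ℝ} (hz : 0 ≤ z) : kap * z ≤ R z := kapV_le_R 0 hz

lemma R_le {z : ℝ} (hz : 0 ≤ z) : R z ≤ kap * (z + 2) := by
  refine le_of_tendsto (V_tendsto z) ?_
  filter_upwards with k
  exact mul_le_mul_of_nonneg_left (V_le0 _ z hz) kap_pos.le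

lemma u_add (m j : ℕ) : u (m + j) = Pr^[m] (u j) := by
  unfold u; rw [Function.iterate_add_apply]

lemma u_tendsto_zero {z : ℝ} (hz : 0 ≤ z) : Tendsto (fun m => u m z) atTop (𝓝 0) := by
  have h1 : Tendsto (fun n : ℕ => kap * (z + 2) * (Real.sqrt n)⁻¹) atTop (𝓝 (kap * (z+2) * 0)) := by
    apply Tendsto.const_mul
    apply tendsto_inv_atTop_zero.comp
    exact Real.tendsto_sqrt_atTop.comp tendsto_natCast_atTop_atTop
  rw [mul_zero] at h1
  refine tendsto_of_tendsto_of_tendsto_of_le_of_le' tendsto_const_nhds h1 ?_ ?_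
  · exact Eventually.of_forall fun n => u_nonneg n z
  · filter_upwards [eventually_ne_atTop 0] with n hn
    exact u_le_lin hn hz

/-- `sqrt n * u n z` converges to the renewal function -/
theorem sqrt_u_tendsto {z : ℝ} (hz : 0 ≤ z) :
    Tendsto (fun n : ℕ => Real.sqrt n * u n z) atTop (𝓝 (R z)) := by
  have key : ∀ m : ℕ, ∀ ε > 0, ∀ᶠ n : ℕ in atTop, kap * V m z - ε ≤ Real.sqrt n * u n z ∧
      Real.sqrt n * u n z ≤ kap * (V m z + 2 * u m z) + ε := by
    intro m ε hε
    -- ratio of square roots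
    have hr : Tendsto (fun j : ℕ => Real.sqrt ((m + (j+1) : ℕ)) / Real.sqrt ((j+1 : ℕ))) atTop (𝓝 1) := by
      have h1 : Tendsto (fun j : ℕ => Real.sqrt (1 + m / ((j+1 : ℕ) : ℝ))) atTop (𝓝 (Real.sqrt (1 + 0))) := by
        apply (Real.continuous_sqrt.tendsto _).comp
        apply Tendsto.const_add
        have : Tendsto (fun j : ℕ => ((j+1 : ℕ) : ℝ)) atTop atTop :=
          tendsto_natCast_atTop_atTop.comp (tendsto_add_atTop_nat 1)
        exact this.const_div_atTop _
      rw [add_zero, Real.sqrt_one] at h1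
      refine h1.congr fun j => ?_
      rw [← Real.sqrt_div (by positivity)]
      congr 1
      have : ((j+1 : ℕ) : ℝ) ≠ 0 := by positivity
      field_simp
      push_cast; ring
    have hrb : ∀ j : ℕ, Real.sqrt ((m + (j+1) : ℕ)) / Real.sqrt ((j+1 : ℕ)) ≤ Real.sqrt (m+1) := by
      intro j
      rw [← Real.sqrt_div (by positivity)]
      apply Real.sqrt_le_sqrt
      rw [div_le_iff₀ (by positivity)]
      push_cast
      have : (0:ℝ) ≤ m * j := by positivity
      nlinarith
    have hlim : ∀ c : ℝ, 0 ≤ c → ∀ y, 0 ≤ y → Tendsto (fun j : ℕ => Real.sqrt ((m + (j+1) : ℕ)) * F (j+1) (y + c)) atTop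
        (𝓝 (kap * (y + c))) := by
      intro c hc y hy
      have h1 := (tendsto_add_atTop_iff_nat 1).2 (sqrt_F_tendsto (y := y + c) (by positivity))
      have h2 := hr.mul h1
      rw [one_mul] at h2
      refine h2.congr fun j => ?_
      have : Real.sqrt ((j+1 : ℕ)) ≠ 0 := (Real.sqrt_pos.2 (by positivity)).ne'
      field_simp
    have hbd : ∀ c : ℝ, 0 ≤ c → ∀ j : ℕ, ∀ y, 0 ≤ y → |Real.sqrt ((m + (j+1) : ℕ)) * F (j+1) (y + c)| ≤
        (kap * Real.sqrt (m+1) * (1 + c)) * (1 + y) := by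
      intro c hc j y hy
      rw [abs_of_nonneg (mul_nonneg (Real.sqrt_nonneg _) (F_nonneg _ (by positivity)))]
      have h1 := F_le_lin (n := j+1) (by omega) (z := y + c) (by positivity)
      have h2 : F (j+1) (y+c) ≤ kap * (y + c) * (Real.sqrt ((j+1:ℕ)))⁻¹ := by
        refine h1.trans (le_of_eq ?_)
        unfold kap
        rw [Real.sqrt_mul (by positivity), mul_inv]; ring
      calc Real.sqrt ((m + (j+1) : ℕ)) * F (j+1) (y + c)
          ≤ Real.sqrt ((m + (j+1) : ℕ)) * (kap * (y + c) * (Real.sqrt ((j+1:ℕ)))⁻¹) := by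
            gcongr
        _ = (Real.sqrt ((m + (j+1) : ℕ)) / Real.sqrt ((j+1 : ℕ))) * (kap * (y + c)) := by
            field_simp
        _ ≤ Real.sqrt (m+1) * (kap * (y + c)) := by
            apply mul_le_mul_of_nonneg_right (hrb j)
            have := kap_pos; positivity
        _ ≤ (kap * Real.sqrt (m+1) * (1 + c)) * (1 + y) := by
            have h3 : 0 ≤ kap * Real.sqrt (m+1) := mul_nonneg kap_pos.le (Real.sqrt_nonneg _)
            have h4 : y + c ≤ (1 + c) * (1 + y) := by nlinarith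
            nlinarith
    have hmeas : ∀ c : ℝ, ∀ j : ℕ, Measurable (fun y => Real.sqrt ((m + (j+1) : ℕ)) * F (j+1) (y + c)) :=
      fun c j => ((F_measurable (j+1)).comp (measurable_id.add_const c)).const_mul _
    have hF_LG : ∀ c : ℝ, ∀ j : ℕ, LG (fun y => Real.sqrt ((m + (j+1) : ℕ)) * F (j+1) (y + c)) :=
      fun c j => LG.mul _ (F_LG _ _)
    have t0 := iter_tendsto m (by
      have := kap_pos; positivity) (hmeas 0) (hbd 0 le_rfl) (hlim 0 le_rfl) z hz
    have t2 := iter_tendsto m (by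
      have := kap_pos; positivity) (hmeas 2) (hbd 2 (by norm_num)) (hlim 2 (by norm_num)) z hz
    have e0 : (Pr^[m] (fun y => kap * (y + 0))) z = kap * V m z := by
      rw [iter_mul kap (fun y => y + 0) m]
      simp [V]
    have e2 : (Pr^[m] (fun y => kap * (y + 2))) z = kap * (V m z + 2 * u m z) := by
      rw [iter_mul kap (fun y => y + 2) m]
      have h := iter_add LG.id (LG.const 2) m
      have h2 : (Pr^[m] (fun _ => (2:ℝ))) = fun z => 2 * u m z := by
        have := iter_mul 2 (fun _ => (1:ℝ)) m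
        simpa [u] using this
      simp only [h, h2, V]
    rw [e0] at t0
    rw [e2] at t2
    have h1 : ∀ᶠ j : ℕ in atTop, kap * V m z - ε ≤ Real.sqrt ((m + (j+1) : ℕ)) * u (m + (j+1)) z ∧
      Real.sqrt ((m + (j+1) : ℕ)) * u (m + (j+1)) z ≤ kap * (V m z + 2 * u m z) + ε := by
      filter_upwards [t0.eventually (lt_mem_nhds (show kap * V m z - ε < kap * V m z by linarith)),
        t2.eventually (gt_mem_nhds (show kap * (V m z + 2 * u m z) < kap * (V m z + 2 * u m z) + ε by linarith))]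
        with j h3 h4
      have e : Real.sqrt ((m + (j+1) : ℕ)) * u (m + (j+1)) z =
          (Pr^[m] (fun y => Real.sqrt ((m + (j+1) : ℕ)) * u (j+1) y)) z := by
        rw [iter_mul, ← u_add]
      rw [e]
      constructor
      · refine h3.le.trans (iter_mono (hF_LG 0 j) (LG.mul _ (u_LG _)) ?_ m z hz)
        intro y hy
        apply mul_le_mul_of_nonneg_left _ (Real.sqrt_nonneg _)
        simpa using F_le_u (j+1) y hy
      · refine le_trans (iter_mono (LG.mul _ (u_LG _)) (hF_LG 2 j) ?_ m z hz) h4.le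
        intro y hy
        apply mul_le_mul_of_nonneg_left _ (Real.sqrt_nonneg _)
        exact u_le_F (j+1) y hy
    rw [eventually_atTop] at h1 ⊢
    obtain ⟨a, ha⟩ := h1
    refine ⟨m + (a + 1), fun n hn => ?_⟩
    have := ha (n - m - 1) (by omega)
    have h5 : m + (n - m - 1 + 1) = n := by omega
    rwa [h5] at this
  rw [Metric.tendsto_atTop']
  intro ε hε
  have h1 := (V_tendsto z).eventually (lt_mem_nhds (show R z - ε/3 < R z by linarith))
  have h2 : Tendsto (fun m => kap * (2 * u (m+1) z)) atTop (𝓝 (kap * (2 * 0))) :=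
    (((tendsto_add_atTop_iff_nat 1).2 (u_tendsto_zero hz)).const_mul 2).const_mul kap
  rw [mul_zero, mul_zero] at h2
  have h3 := h2.eventually (gt_mem_nhds (show (0:ℝ) < ε/3 by linarith))
  obtain ⟨m, hm1, hm2⟩ := (h1.and h3).exists
  have h4 := key (m+1) (ε/3) (by linarith)
  rw [eventually_atTop] at h4
  obtain ⟨N, hN⟩ := h4
  refine ⟨N, fun n hn => ?_⟩
  obtain ⟨h5, h6⟩ := hN n hn.le
  have h7 := kapV_le_R (m+1) hz
  rw [Real.dist_eq, abs_lt]
  constructor
  · linarith
  · have : kap * (V (m+1) z + 2 * u (m+1) z) = kap * V (m+1) z + kap * (2 * u (m+1) z) := by ring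
    linarith

end

end Pool.Agent.H968
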