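import Mathlib
import Pool.Agent.H968.RWd

open MeasureTheory ProbabilityTheory Filter Topology Set
open scoped ENNReal NNReal

namespace Pool.Agent.H968

noncomputable section

/-- the killed operator on extended nonnegative functions -/
def PL (f : ℝ → ℝ≥0∞) (z : ℝ) : ℝ≥0∞ := ∫⁻ s, (Ici (0:ℝ)).indicator f (z + s) ∂nu

lemma PL_meas {f : ℝ → ℝ≥0∞} (hf : Measurable f) : Measurable (PL f) := by
  unfold PL
  apply Measurable.lintegral_prod_right' (f := fun p : ℝ × ℝ => (Ici (0:ℝ)).indicator f (p.1 + p.2))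
  exact (hf.indicator measurableSet_Ici).comp (measurable_fst.add measurable_snd)

lemma PLiter_meas {f : ℝ → ℝ≥0∞} (hf : Measurable f) (n : ℕ) : Measurable (PL^[n] f) := by
  induction n with
  | zero => exact hf
  | succ n ih => rw [Function.iterate_succ_apply']; exact PL_meas ih

lemma lintegral_nu {g : ℝ → ℝ≥0∞} (hg : Measurable g) :
    ∫⁻ s, g s ∂nu = ∫⁻ s, gaussianPDF 0 1 s * g s := by
  unfold nu
  rw [gaussianReal_of_var_ne_zero 0 (by norm_num),
    lintegral_withDensity_eq_lintegral_mul _ (measurable_gaussianPDF 0 1) hg]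
  rfl

lemma PL_eq {f : ℝ → ℝ≥0∞} (hf : Measurable f) (z : ℝ) :
    PL f z = ∫⁻ y in Ici (0:ℝ), gaussianPDF 0 1 (y - z) * f y := by
  unfold PL
  have hm : Measurable (fun s => (Ici (0:ℝ)).indicator f (z + s)) :=
    (hf.indicator measurableSet_Ici).comp (measurable_const.add measurable_id)
  rw [lintegral_nu hm, ← lintegral_indicator measurableSet_Ici]
  rw [← lintegral_add_left_eq_self (μ := volume)
    (fun y => (Ici (0:ℝ)).indicator (fun y => gaussianPDF 0 1 (y - z) * f y) y) z]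
  congr 1; ext s
  by_cases h : z + s ∈ Ici (0:ℝ)
  · rw [indicator_of_mem h, indicator_of_mem h]; congr 2; ring
  · rw [indicator_of_notMem h, indicator_of_notMem h]; simp

lemma pdf1_symm (x y : ℝ) : gaussianPDF 0 1 (x - y) = gaussianPDF 0 1 (y - x) := by
  unfold gaussianPDF gaussianPDFReal
  congr 3
  simp only [sub_zero]
  ring

lemma PL_symm {f g : ℝ → ℝ≥0∞} (hf : Measurable f) (hg : Measurable g) :
    ∫⁻ z in Ici (0:ℝ), g z * PL f z = ∫⁻ z in Ici (0:ℝ), PL g z * f z := by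
  simp_rw [PL_eq hf, PL_eq hg]
  have hpm : Measurable (fun p : ℝ × ℝ => gaussianPDF 0 1 (p.2 - p.1)) :=
    (measurable_gaussianPDF 0 1).comp (measurable_snd.sub measurable_fst)
  have h1 : ∀ z, g z * ∫⁻ y in Ici (0:ℝ), gaussianPDF 0 1 (y - z) * f y =
      ∫⁻ y in Ici (0:ℝ), g z * (gaussianPDF 0 1 (y - z) * f y) := by
    intro z
    rw [lintegral_const_mul]
    exact ((measurable_gaussianPDF 0 1).comp (measurable_id.sub_const z)).mul hf
  have h2 : ∀ z, (∫⁻ y in Ici (0:ℝ), gaussianPDF 0 1 (y - z) * g y) * f z =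
      ∫⁻ y in Ici (0:ℝ), gaussianPDF 0 1 (y - z) * g y * f z := by
    intro z
    rw [lintegral_mul_const]
    exact ((measurable_gaussianPDF 0 1).comp (measurable_id.sub_const z)).mul hg
  simp_rw [h1, h2]
  rw [lintegral_lintegral_swap]
  · congr 1; ext y; congr 1; ext z
    rw [pdf1_symm]; ring
  · apply Measurable.aemeasurable
    apply Measurable.mul (hg.comp measurable_fst)
    exact hpm.mul (hf.comp measurable_snd)

lemma PLiter_symm (n : ℕ) : ∀ {f g : ℝ → ℝ≥0∞}, Measurable f → Measurable g →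
    ∫⁻ z in Ici (0:ℝ), g z * (PL^[n] f) z = ∫⁻ z in Ici (0:ℝ), (PL^[n] g) z * f z := by
  induction n with
  | zero => intro f g _ _; rfl
  | succ n ih =>
    intro f g hf hg
    rw [Function.iterate_succ_apply' PL n f, PL_symm (PLiter_meas hf n) hg, ih hf (PL_meas hg)]
    rfl

lemma PL_mono {f g : ℝ → ℝ≥0∞} (h : ∀ y, 0 ≤ y → f y ≤ g y) (z : ℝ) : PL f z ≤ PL g z := by
  unfold PL
  apply lintegral_mono
  intro s
  apply indicator_le_indicator'
  intro hs; exact h _ hs

lemma PLiter_mono {f g : ℝ → ℝ≥0∞} (h : ∀ y, 0 ≤ y → f y ≤ g y) (n : ℕ) :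
    ∀ z, 0 ≤ z → (PL^[n] f) z ≤ (PL^[n] g) z := by
  induction n with
  | zero => exact h
  | succ n ih =>
    intro z hz
    rw [Function.iterate_succ_apply', Function.iterate_succ_apply']
    exact PL_mono ih z

lemma PLiter_le_free {f : ℝ → ℝ≥0∞} (hf : Measurable f) (n : ℕ) : ∀ z, 0 ≤ z →
    (PL^[n] f) z ≤ ∫⁻ s, (Ici (0:ℝ)).indicator f (z + s) ∂(gaussianReal 0 (n : NNReal)) := by
  induction n with
  | zero =>
    intro z hz
    simp only [Function.iterate_zero, id, Nat.cast_zero, gaussianReal_zero_var]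
    rw [lintegral_dirac]
    rw [add_zero, indicator_of_mem (show z ∈ Ici (0:ℝ) from hz)]
  | succ n ih =>
    intro z hz
    rw [Function.iterate_succ_apply']
    unfold PL
    have h : gaussianReal 0 ((n+1 : ℕ) : NNReal) = nu ∗ (gaussianReal 0 (n : NNReal)) := by
      unfold nu
      rw [gaussianReal_conv_gaussianReal]; congr 1
      · simp
      · push_cast; ring
    rw [h, Measure.lintegral_conv]
    · apply lintegral_mono
      intro s
      simp only
      by_cases hs : z + s ∈ Ici (0:ℝ)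
      · rw [indicator_of_mem hs]
        refine (ih _ hs).trans (le_of_eq ?_)
        congr 1; ext t; congr 1; ring
      · rw [indicator_of_notMem hs]; exact zero_le
    · exact (hf.indicator measurableSet_Ici).comp (measurable_const.add measurable_id)

lemma PLiter_le_const {f : ℝ → ℝ≥0∞} (hf : Measurable f) {n : ℕ} (hn : n ≠ 0) {z : ℝ} (hz : 0 ≤ z) :
    (PL^[n] f) z ≤ ENNReal.ofReal ((Real.sqrt (2 * Real.pi * n))⁻¹) * ∫⁻ y in Ici (0:ℝ), f y := by
  refine (PLiter_le_free hf n z hz).trans ?_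
  have hn' : (n : NNReal) ≠ 0 := by exact_mod_cast hn
  have hm : Measurable (fun s => (Ici (0:ℝ)).indicator f (z + s)) :=
    (hf.indicator measurableSet_Ici).comp (measurable_const.add measurable_id)
  rw [gaussianReal_of_var_ne_zero 0 hn',
    lintegral_withDensity_eq_lintegral_mul _ (measurable_gaussianPDF 0 _) hm]
  calc ∫⁻ s, (gaussianPDF 0 (n : NNReal) * fun s => (Ici (0:ℝ)).indicator f (z + s)) s
      ≤ ∫⁻ s, ENNReal.ofReal ((Real.sqrt (2 * Real.pi * n))⁻¹) * (Ici (0:ℝ)).indicator f (z + s) := by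
        apply lintegral_mono
        intro s
        simp only [Pi.mul_apply]
        gcongr
        unfold gaussianPDF
        exact ENNReal.ofReal_le_ofReal (pdf_le s)
    _ = ENNReal.ofReal ((Real.sqrt (2 * Real.pi * n))⁻¹) * ∫⁻ y in Ici (0:ℝ), f y := by
        rw [lintegral_const_mul _ hm, lintegral_add_left_eq_self (μ := volume)
          (fun y => (Ici (0:ℝ)).indicator f y) z, lintegral_indicator measurableSet_Ici]

lemma PL_const_mul {c : ℝ≥0∞} {f : ℝ → ℝ≥0∞} (hf : Measurable f) (z : ℝ) :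
    PL (fun y => c * f y) z = c * PL f z := by
  unfold PL
  rw [← lintegral_const_mul]
  · congr 1; ext s
    by_cases h : z + s ∈ Ici (0:ℝ)
    · rw [indicator_of_mem h, indicator_of_mem h]
    · rw [indicator_of_notMem h, indicator_of_notMem h]; simp
  · exact (hf.indicator measurableSet_Ici).comp (measurable_const.add measurable_id)

lemma PLiter_const_mul {c : ℝ≥0∞} {f : ℝ → ℝ≥0∞} (hf : Measurable f) (n : ℕ) :
    PL^[n] (fun y => c * f y) = fun z => c * (PL^[n] f) z := by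
  induction n with
  | zero => rfl
  | succ n ih =>
    ext z
    rw [Function.iterate_succ_apply', ih, PL_const_mul (PLiter_meas hf n), Function.iterate_succ_apply']

/-- local estimate, extended nonnegative version -/
lemma PL_local {f : ℝ → ℝ≥0∞} (hf : Measurable f) {a b c : ℕ} (hb : b ≠ 0) {z : ℝ} (hz : 0 ≤ z) :
    (PL^[a + (b + c)] f) z ≤ ENNReal.ofReal ((Real.sqrt (2 * Real.pi * b))⁻¹) *
      (∫⁻ y in Ici (0:ℝ), (PL^[c] (fun _ => 1)) y * f y) * (PL^[a] (fun _ => 1)) z := by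
  rw [Function.iterate_add_apply]
  have h1 : ∀ y, 0 ≤ y → (PL^[b + c] f) y ≤ (ENNReal.ofReal ((Real.sqrt (2 * Real.pi * b))⁻¹) *
      (∫⁻ y in Ici (0:ℝ), (PL^[c] (fun _ => 1)) y * f y)) * 1 := by
    intro y hy
    rw [Function.iterate_add_apply]
    refine (PLiter_le_const (PLiter_meas hf c) hb hy).trans (le_of_eq ?_)
    rw [mul_one]
    congr 1
    have := PLiter_symm c hf (g := fun _ => 1) measurable_const
    simpa using this
  refine (PLiter_mono h1 a z hz).trans (le_of_eq ?_)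
  rw [PLiter_const_mul measurable_const]

lemma ofReal_Pr {f : ℝ → ℝ} (hf : LG f) (h0 : ∀ y, 0 ≤ y → 0 ≤ f y) (z : ℝ) :
    ENNReal.ofReal (Pr f z) = PL (fun y => ENNReal.ofReal (f y)) z := by
  unfold Pr PL
  rw [ofReal_integral_eq_lintegral_ofReal (Pr_integrable hf z)]
  · congr 1; ext s
    by_cases h : z + s ∈ Ici (0:ℝ)
    · rw [indicator_of_mem h, if_pos (mem_Ici.1 h)]
    · rw [indicator_of_notMem h, if_neg (fun hc => h (mem_Ici.2 hc))]; simp
  · refine Eventually.of_forall fun s => ?_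
    simp only [Pi.zero_apply]
    split_ifs with h
    · exact h0 _ h
    · exact le_rfl

lemma PL_congr {f g : ℝ → ℝ≥0∞} (h : ∀ y, 0 ≤ y → f y = g y) : PL f = PL g := by
  ext z; unfold PL; congr 1; ext s
  by_cases h' : z + s ∈ Ici (0:ℝ)
  · rw [indicator_of_mem h', indicator_of_mem h']; exact h _ h'
  · rw [indicator_of_notMem h', indicator_of_notMem h']

lemma ofReal_iter {f : ℝ → ℝ} (hf : LG f) (h0 : ∀ y, 0 ≤ y → 0 ≤ f y) (n : ℕ) (z : ℝ) :
    ENNReal.ofReal ((Pr^[n] f) z) = (PL^[n] (fun y => ENNReal.ofReal (f y))) z := by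
  induction n generalizing z with
  | zero => rfl
  | succ n ih =>
    rw [Function.iterate_succ_apply', Function.iterate_succ_apply',
      ofReal_Pr (iter_LG hf n) (iter_nonneg h0 n)]
    congr 1
    ext y; exact ih y

lemma PL_one (n : ℕ) (z : ℝ) : (PL^[n] (fun _ => 1)) z = ENNReal.ofReal (u n z) := by
  have := ofReal_iter (LG.const 1) (fun _ _ => by norm_num) n z
  simp only [ENNReal.ofReal_one] at this
  rw [← this]; rfl

/-- the local estimate -/
theorem iter_local {f : ℝ → ℝ} (hf : LG f) (h0 : ∀ y, 0 ≤ y → 0 ≤ f y)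
    (hI : IntegrableOn (fun y => (1 + y) * f y) (Ici 0)) {n : ℕ} (hn : 3 ≤ n) {z : ℝ} (hz : 0 ≤ z) :
    (Pr^[n] f) z ≤ 432 * (1 + z) * ((Real.sqrt n)⁻¹)^3 * ∫ y in Ici (0:ℝ), (1 + y) * f y := by
  obtain ⟨a, ha⟩ : ∃ a, a = n / 3 := ⟨_, rfl⟩
  obtain ⟨b, hb⟩ : ∃ b, b = n - 2 * a := ⟨_, rfl⟩
  have hsum : a + (b + a) = n := by omega
  have ha1 : 1 ≤ a := by omega
  have ha9 : (n:ℝ) ≤ 9 * a := by
    have : n ≤ 9 * a := by omega
    exact_mod_cast this
  have hb9 : (n:ℝ) ≤ 9 * b := by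
    have : n ≤ 9 * b := by omega
    exact_mod_cast this
  have hn0 : (0:ℝ) < n := by have : 0 < n := by omega
                             exact_mod_cast this
  have ha0 : (0:ℝ) < a := by exact_mod_cast ha1
  have hb0 : (0:ℝ) < b := by have : 0 < b := by omega
                             exact_mod_cast this
  have hs : ∀ c : ℝ, 0 < c → (n:ℝ) ≤ 9 * c → (Real.sqrt c)⁻¹ ≤ 3 * (Real.sqrt n)⁻¹ := by
    intro c hc h
    have h1 : Real.sqrt n ≤ 3 * Real.sqrt c := by
      have : Real.sqrt (9 * c) = 3 * Real.sqrt c := by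
        rw [Real.sqrt_mul (by norm_num), show (9:ℝ) = 3^2 by norm_num, Real.sqrt_sq (by norm_num)]
      rw [← this]; exact Real.sqrt_le_sqrt h
    have h2 : 0 < Real.sqrt n := Real.sqrt_pos.2 hn0
    have h3 : 0 < Real.sqrt c := Real.sqrt_pos.2 hc
    rw [inv_eq_one_div, inv_eq_one_div, div_le_iff₀ h3]
    rw [mul_one_div, div_mul_eq_mul_div, le_div_iff₀ h2]
    linarith
  set Q : ℝ := 3 * (Real.sqrt n)⁻¹ with hQ
  have hQ0 : 0 ≤ Q := by positivity
  have hkap1 : kap ≤ 1 := by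
    unfold kap
    have : 2 ≤ Real.sqrt (2 * Real.pi) := by
      apply Real.le_sqrt_of_sq_le
      nlinarith [Real.pi_gt_three]
    rw [← div_eq_mul_inv]
    exact div_le_one_of_le₀ this (Real.sqrt_nonneg _)
  have hu : ∀ y, 0 ≤ y → u a y ≤ 2 * Q * (1 + y) := by
    intro y hy
    refine (u_le_lin (by omega) hy).trans ?_
    have h1 := hs a ha0 ha9
    have h2 : 0 ≤ (Real.sqrt a)⁻¹ := by positivity
    calc kap * (y + 2) * (Real.sqrt a)⁻¹ ≤ 1 * (y + 2) * Q := by gcongr
      _ ≤ 2 * Q * (1 + y) := by nlinarith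
  have h2b : (Real.sqrt (2 * Real.pi * b))⁻¹ ≤ Q := by
    refine le_trans ?_ (hs b hb0 hb9)
    apply inv_anti₀ (Real.sqrt_pos.2 hb0)
    apply Real.sqrt_le_sqrt
    nlinarith [Real.pi_gt_three]
  have hI0 : 0 ≤ ∫ y in Ici (0:ℝ), (1 + y) * f y := by
    apply setIntegral_nonneg measurableSet_Ici
    intro y hy; exact mul_nonneg (by linarith [show (0:ℝ) ≤ y from hy]) (h0 y hy)
  have hmf : Measurable (fun y => ENNReal.ofReal (f y)) := hf.meas.ennreal_ofReal
  have hloc := PL_local hmf (a := a) (b := b) (c := a) (by omega) hz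
  rw [hsum, ← ofReal_iter hf h0] at hloc
  simp only [PL_one] at hloc
  have hint : ∫⁻ y in Ici (0:ℝ), ENNReal.ofReal (u a y) * ENNReal.ofReal (f y) ≤
      ENNReal.ofReal (2 * Q * ∫ y in Ici (0:ℝ), (1 + y) * f y) := by
    rw [← integral_const_mul, ofReal_integral_eq_lintegral_ofReal (hI.const_mul _)]
    · apply setLIntegral_mono' measurableSet_Ici
      intro y hy
      rw [← ENNReal.ofReal_mul (u_nonneg _ _)]
      apply ENNReal.ofReal_le_ofReal
      have := hu y hy
      have h3 := h0 y hy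
      nlinarith
    · refine (ae_restrict_mem measurableSet_Ici).mono fun y hy => ?_
      simp only [Pi.zero_apply]
      have h3 := h0 y hy
      have : (0:ℝ) ≤ y := hy
      positivity
  have hfin : ENNReal.ofReal ((Pr^[n] f) z) ≤ ENNReal.ofReal (Q * (2 * Q * ∫ y in Ici (0:ℝ), (1 + y) * f y) *
      (2 * Q * (1 + z))) := by
    refine hloc.trans ?_
    rw [ENNReal.ofReal_mul (by positivity), ENNReal.ofReal_mul hQ0]
    gcongr
    exact hu z hz
  have hpos : 0 ≤ Q * (2 * Q * ∫ y in Ici (0:ℝ), (1 + y) * f y) * (2 * Q * (1 + z)) := by positivity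
  have := (ENNReal.ofReal_le_ofReal_iff hpos).1 hfin
  refine this.trans ?_
  rw [hQ]
  have h5 : 0 ≤ ((Real.sqrt n)⁻¹)^3 := by positivity
  have h6 : 0 ≤ (1 + z) * ((Real.sqrt n)⁻¹)^3 * ∫ y in Ici (0:ℝ), (1 + y) * f y := by positivity
  nlinarith

end

end Pool.Agent.H968
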