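import Mathlib
import Pool.Agent.H968.Build
import Pool.Agent.H968.RWe

open MeasureTheory ProbabilityTheory Filter Topology Set
open scoped ENNReal NNReal

namespace Pool.Agent.H968

noncomputable section

/-- combine the levels below `k` of the first sequence with the levels from `k` on of the second -/
def gl (k : ℕ) (p : Om × Om) : Om := fun i => if i < k then p.1 i else p.2 i

lemma gl_meas (k : ℕ) : Measurable (gl k) := by
  unfold gl
  apply measurable_pi_lambda
  intro i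
  by_cases h : i < k
  · simp only [h, if_true]; exact (measurable_pi_apply i).comp measurable_fst
  · simp only [h, if_false]; exact (measurable_pi_apply i).comp measurable_snd

lemma gl_mp (k : ℕ) : MeasurePreserving (gl k) (PP.prod PP) PP := by
  refine ⟨gl_meas k, ?_⟩
  unfold PP
  apply Measure.eq_infinitePi
  intro s t ht
  rw [Measure.map_apply (gl_meas k) (MeasurableSet.pi s.countable_toSet (fun i _ => ht i))]
  have e : gl k ⁻¹' (Set.pi (s : Set ℕ) t) =
      (Set.pi ((s.filter (· < k) : Finset ℕ) : Set ℕ) t) ×ˢ (Set.pi ((s.filter (fun i => ¬ i < k) : Finset ℕ) : Set ℕ) t) := by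
    ext p
    simp only [mem_preimage, Set.mem_pi, Set.mem_prod, Finset.coe_filter, mem_ofPred_eq, Finset.mem_coe, gl]
    constructor
    · intro h
      refine ⟨fun i hi => ?_, fun i hi => ?_⟩
      · have := h i hi.1; simpa [hi.2] using this
      · have := h i hi.1; simpa [hi.2] using this
    · rintro ⟨h1, h2⟩ i hi
      by_cases hk : i < k
      · simp only [hk, if_true]; exact h1 i ⟨hi, hk⟩
      · simp only [hk, if_false]; exact h2 i ⟨hi, hk⟩
  rw [e, Measure.prod_prod, Measure.infinitePi_pi _ (fun i _ => ht i), Measure.infinitePi_pi _ (fun i _ => ht i)]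
  exact Finset.prod_filter_mul_prod_filter_not s (· < k) (fun i => Q0 (t i))

lemma X_gl_le {j k : ℕ} (h : j ≤ k) (x : ℝ) (p : Om × Om) : X j x (gl k p) = X j x p.1 := by
  unfold X gl
  apply Finset.sum_congr rfl
  intro i hi
  have : i < k := lt_of_lt_of_le (Finset.mem_range.1 hi) h
  simp [this]

lemma X_gl_ge {j k : ℕ} (h : k ≤ j) (x : ℝ) (p : Om × Om) :
    X j x (gl k p) = X k x p.1 + (X j x p.2 - X k x p.2) := by
  unfold X gl
  rw [← Finset.sum_range_add_sum_Ico _ h, ← Finset.sum_range_add_sum_Ico (fun i => YY i x (p.2 i)) h]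
  have e1 : ∑ i ∈ Finset.range k, YY i x (if i < k then p.1 i else p.2 i) = ∑ i ∈ Finset.range k, YY i x (p.1 i) := by
    apply Finset.sum_congr rfl
    intro i hi; simp [Finset.mem_range.1 hi]
  have e2 : ∑ i ∈ Finset.Ico k j, YY i x (if i < k then p.1 i else p.2 i) = ∑ i ∈ Finset.Ico k j, YY i x (p.2 i) := by
    apply Finset.sum_congr rfl
    intro i hi
    have : ¬ i < k := not_lt.2 (Finset.mem_Ico.1 hi).1
    simp [this]
  rw [e1, e2]; ring

/-- dependence on the levels below `k` -/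
def Dep {β : Type*} (k : ℕ) (A : Om → β) : Prop := ∀ ω ω', (∀ i < k, ω i = ω' i) → A ω = A ω'

lemma Dep.gl {β : Type*} {k : ℕ} {A : Om → β} (h : Dep k A) (p : Om × Om) : A (gl k p) = A p.1 := by
  apply h
  intro i hi; simp [H968.gl, hi]

lemma Dep.mono {β : Type*} {j k : ℕ} {A : Om → β} (h : Dep j A) (hjk : j ≤ k) : Dep k A :=
  fun ω ω' h' => h ω ω' fun i hi => h' i (by omega)

lemma X_dep {j k : ℕ} (h : j ≤ k) (x : ℝ) : Dep k (X j x) := by
  intro ω ω' h'
  unfold X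
  apply Finset.sum_congr rfl
  intro i hi
  rw [h' i (lt_of_lt_of_le (Finset.mem_range.1 hi) h)]

lemma integral_gl {k : ℕ} {F : Om → ℝ} (hF : Integrable F PP) :
    ∫ ω, F ω ∂PP = ∫ ω, ∫ ω', F (gl k (ω, ω')) ∂PP ∂PP := by
  have h := (gl_mp k).integrable_comp_of_integrable hF
  have h2 := integral_prod (μ := PP) (ν := PP) (fun p => F (gl k p)) h
  rw [← h2]
  have h3 : ∫ p, F (gl k p) ∂(PP.prod PP) = ∫ ω, F ω ∂((PP.prod PP).map (gl k)) := by
    rw [integral_map (gl_meas k).aemeasurable]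
    rw [(gl_mp k).map_eq]; exact hF.aestronglyMeasurable
  rw [h3, (gl_mp k).map_eq]

lemma integral_glC {k : ℕ} {F : Om → ℂ} (hF : Integrable F PP) :
    ∫ ω, F ω ∂PP = ∫ ω, ∫ ω', F (gl k (ω, ω')) ∂PP ∂PP := by
  have h := (gl_mp k).integrable_comp_of_integrable hF
  have h2 := integral_prod (μ := PP) (ν := PP) (fun p => F (gl k p)) h
  rw [← h2]
  have h3 : ∫ p, F (gl k p) ∂(PP.prod PP) = ∫ ω, F ω ∂((PP.prod PP).map (gl k)) := by
    rw [integral_map (gl_meas k).aemeasurable]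
    rw [(gl_mp k).map_eq]; exact hF.aestronglyMeasurable
  rw [h3, (gl_mp k).map_eq]

/-- the marginal at level `k` -/
lemma integral_coord (k : ℕ) {E : Type*} [NormedAddCommGroup E] [NormedSpace ℝ E] {g : (ℕ → ℝ) → E}
    (hg : AEStronglyMeasurable g Q0) : ∫ ω, g (ω k) ∂PP = ∫ w, g w ∂Q0 := by
  have h := measurePreserving_eval_infinitePi (fun _ : ℕ => Q0) k
  have h3 : ∫ p, g (p k) ∂PP = ∫ ω, g ω ∂(PP.map (Function.eval k)) := by
    refine (integral_map (measurable_pi_apply k).aemeasurable ?_).symm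
    unfold PP; rw [h.map_eq]; exact hg
  rw [h3]
  unfold PP; rw [h.map_eq]

lemma YY_map (i : ℕ) (x : ℝ) : Q0.map (YY i x) = nu := by
  rw [(YY_GP i).map_one x, CK_diag]; unfold nu; simp

/-- square root of two -/
def s2 : ℝ := Real.sqrt 2

lemma s2_sq : s2 * s2 = 2 := Real.mul_self_sqrt (by norm_num)
lemma s2_pos : 0 < s2 := Real.sqrt_pos.2 (by norm_num)
lemma s2_gt : 1.41 < s2 := by
  unfold s2; apply Real.lt_sqrt_of_sq_lt; norm_num
lemma s2_lt : s2 < 1.42 := by
  unfold s2; rw [Real.sqrt_lt' (by norm_num)]; norm_num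

/-- tilting -/
lemma tilt (g : ℝ → ℝ) : ∫ y, Real.exp (s2 * y - 1) * g (s2 - y) ∂nu = ∫ s, g s ∂nu := by
  rw [nu_integral, nu_integral]
  rw [← integral_sub_left_eq_self (μ := volume) (fun s => gaussianPDFReal 0 1 s * g s) s2]
  congr 1; ext y
  rw [← mul_assoc]
  congr 1
  rw [pdf1_eq, pdf1_eq, mul_assoc, ← Real.exp_add]
  congr 2
  nlinarith [s2_sq]

/-- the martingale density of the critical measure -/
def ww (k : ℕ) (x : ℝ) (ω : Om) : ℝ := Real.exp (s2 * X k x ω - k)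

/-- the martingale density of the chaos at `γ = 1/√2` -/
def hh (k : ℕ) (x : ℝ) (ω : Om) : ℝ := Real.exp (s2 / 2 * X k x ω - k / 4)

/-- distance to the barrier -/
def TT (β : ℝ) (k : ℕ) (x : ℝ) (ω : Om) : ℝ := β + s2 * k - X k x ω

/-- barrier indicator -/
def bb (β : ℝ) (k : ℕ) (x : ℝ) (ω : Om) : ℝ := ∏ j ∈ Finset.range k, if 0 ≤ TT β (j+1) x ω then 1 else 0

/-- truncated critical density -/
def aa (β : ℝ) (k : ℕ) (x : ℝ) (ω : Om) : ℝ := ww k x ω * bb β k x ω

lemma ww_pos (k : ℕ) (x : ℝ) (ω : Om) : 0 < ww k x ω := Real.exp_pos _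
lemma hh_pos (k : ℕ) (x : ℝ) (ω : Om) : 0 < hh k x ω := Real.exp_pos _

lemma hh_sq (k : ℕ) (x : ℝ) (ω : Om) : hh k x ω ^ 2 = Real.exp (k/2) * ww k x ω := by
  unfold hh ww
  rw [← Real.exp_nat_mul, ← Real.exp_add]
  congr 1; push_cast; ring

lemma bb_zero (β x : ℝ) (ω : Om) : bb β 0 x ω = 1 := by simp [bb]

lemma bb_succ (β : ℝ) (k : ℕ) (x : ℝ) (ω : Om) :
    bb β (k+1) x ω = bb β k x ω * (if 0 ≤ TT β (k+1) x ω then 1 else 0) := by
  unfold bb; rw [Finset.prod_range_succ]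

lemma bb_01 (β : ℝ) (k : ℕ) (x : ℝ) (ω : Om) : bb β k x ω = 0 ∨ bb β k x ω = 1 := by
  induction k with
  | zero => right; exact bb_zero _ _ _
  | succ k ih =>
    rw [bb_succ]
    rcases ih with h | h <;> rw [h] <;> split_ifs <;> simp

lemma bb_nonneg (β : ℝ) (k : ℕ) (x : ℝ) (ω : Om) : 0 ≤ bb β k x ω := by
  rcases bb_01 β k x ω with h | h <;> rw [h]; norm_num

lemma bb_le_one (β : ℝ) (k : ℕ) (x : ℝ) (ω : Om) : bb β k x ω ≤ 1 := by
  rcases bb_01 β k x ω with h | h <;> rw [h]; norm_num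

lemma bb_anti (β : ℝ) {j k : ℕ} (h : j ≤ k) (x : ℝ) (ω : Om) : bb β k x ω ≤ bb β j x ω := by
  induction k, h using Nat.le_induction with
  | base => exact le_rfl
  | succ k _ ih =>
    rw [bb_succ]
    refine le_trans ?_ ih
    have := bb_nonneg β k x ω
    split_ifs <;> nlinarith

lemma TT_zero (β x : ℝ) (ω : Om) : TT β 0 x ω = β := by simp [TT, X_zero]

lemma TT_succ (β : ℝ) (k : ℕ) (x : ℝ) (ω : Om) :
    TT β (k+1) x ω = TT β k x ω + (s2 - YY k x (ω k)) := by
  unfold TT; rw [X_succ]; push_cast; ring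

lemma ww_succ (k : ℕ) (x : ℝ) (ω : Om) :
    ww (k+1) x ω = ww k x ω * Real.exp (s2 * YY k x (ω k) - 1) := by
  unfold ww; rw [X_succ, ← Real.exp_add]; congr 1; push_cast; ring

lemma ww_eq_T (β : ℝ) (k : ℕ) (x : ℝ) (ω : Om) :
    ww k x ω = Real.exp (s2 * β + k) * Real.exp (-(s2 * TT β k x ω)) := by
  unfold ww TT; rw [← Real.exp_add]; congr 1; nlinarith [s2_sq]

lemma TT_nonneg_of_bb {β : ℝ} (hβ : 0 ≤ β) {k : ℕ} {x : ℝ} {ω : Om} (h : bb β k x ω ≠ 0) : 0 ≤ TT β k x ω := by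
  cases k with
  | zero => rw [TT_zero]; exact hβ
  | succ k =>
    rw [bb_succ] at h
    by_contra hc
    simp [hc] at h

lemma bb_meas (β : ℝ) (k : ℕ) : Measurable (Function.uncurry (bb β k)) := by
  show Measurable (fun p : ℝ × Om => ∏ j ∈ Finset.range k, if 0 ≤ TT β (j+1) p.1 p.2 then (1:ℝ) else 0)
  apply Finset.measurable_prod
  intro j _
  apply Measurable.ite _ measurable_const measurable_const
  apply measurableSet_le measurable_const
  show Measurable (fun p : ℝ × Om => β + s2 * ((j+1 : ℕ):ℝ) - Function.uncurry (X (j+1)) p)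
  exact measurable_const.sub (X_meas (j+1))

lemma ww_meas (k : ℕ) : Measurable (Function.uncurry (ww k)) := by
  show Measurable (fun p : ℝ × Om => Real.exp (s2 * Function.uncurry (X k) p - k))
  exact Real.measurable_exp.comp (((X_meas k).const_mul s2).sub_const _)

lemma hh_meas (k : ℕ) : Measurable (Function.uncurry (hh k)) := by
  show Measurable (fun p : ℝ × Om => Real.exp (s2 / 2 * Function.uncurry (X k) p - k/4))
  exact Real.measurable_exp.comp (((X_meas k).const_mul (s2/2)).sub_const _)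

lemma TT_meas (β : ℝ) (k : ℕ) : Measurable (Function.uncurry (TT β k)) := by
  show Measurable (fun p : ℝ × Om => β + s2 * (k:ℝ) - Function.uncurry (X k) p)
  exact measurable_const.sub (X_meas k)

lemma aa_meas (β : ℝ) (k : ℕ) : Measurable (Function.uncurry (aa β k)) :=
  (ww_meas k).mul (bb_meas β k)

lemma meas_sec {f : ℝ → Om → ℝ} (h : Measurable (Function.uncurry f)) (x : ℝ) : Measurable (f x) :=
  h.comp (measurable_const.prodMk measurable_id)

lemma aa_nonneg (β : ℝ) (k : ℕ) (x : ℝ) (ω : Om) : 0 ≤ aa β k x ω :=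
  mul_nonneg (ww_pos _ _ _).le (bb_nonneg _ _ _ _)

lemma aa_le {β : ℝ} (hβ : 0 ≤ β) (k : ℕ) (x : ℝ) (ω : Om) : aa β k x ω ≤ Real.exp (s2 * β + k) := by
  unfold aa
  rcases bb_01 β k x ω with h | h
  · rw [h, mul_zero]; positivity
  · rw [h, mul_one, ww_eq_T β]
    have := TT_nonneg_of_bb hβ (k := k) (x := x) (ω := ω) (by rw [h]; norm_num)
    have h2 : Real.exp (-(s2 * TT β k x ω)) ≤ 1 := by
      rw [Real.exp_le_one_iff]
      have := s2_pos
      nlinarith
    have := Real.exp_pos (s2 * β + k)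
    nlinarith

/-- bounded quantity attached to the barrier -/
lemma aa_f_bdd {β : ℝ} (hβ : 0 ≤ β) (k : ℕ) {f : ℝ → ℝ} {C : ℝ} (hC : ∀ y, 0 ≤ y → |f y| ≤ C) (x : ℝ) (ω : Om) :
    |aa β k x ω * f (TT β k x ω)| ≤ Real.exp (s2 * β + k) * C := by
  have hC0 : 0 ≤ C := (abs_nonneg _).trans (hC 0 le_rfl)
  rw [abs_mul, abs_of_nonneg (aa_nonneg _ _ _ _)]
  rcases bb_01 β k x ω with h | h
  · have : aa β k x ω = 0 := by unfold aa; rw [h, mul_zero]
    rw [this, zero_mul]; positivity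
  · have hT := TT_nonneg_of_bb hβ (k := k) (x := x) (ω := ω) (by rw [h]; norm_num)
    exact mul_le_mul (aa_le hβ k x ω) (hC _ hT) (abs_nonneg _) (by positivity)

lemma X_dep' {j k : ℕ} (h : j ≤ k) (x : ℝ) : Dep k (X j x) := X_dep h x

lemma TT_dep (β : ℝ) {j k : ℕ} (h : j ≤ k) (x : ℝ) : Dep k (TT β j x) := by
  intro ω ω' h'; unfold TT; rw [X_dep h x ω ω' h']

lemma ww_dep {j k : ℕ} (h : j ≤ k) (x : ℝ) : Dep k (ww j x) := by
  intro ω ω' h'; unfold ww; rw [X_dep h x ω ω' h']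

lemma hh_dep {j k : ℕ} (h : j ≤ k) (x : ℝ) : Dep k (hh j x) := by
  intro ω ω' h'; unfold hh; rw [X_dep h x ω ω' h']

lemma bb_dep (β : ℝ) {j k : ℕ} (h : j ≤ k) (x : ℝ) : Dep k (bb β j x) := by
  intro ω ω' h'
  unfold bb
  apply Finset.prod_congr rfl
  intro i hi
  rw [TT_dep β (show i + 1 ≤ k by have := Finset.mem_range.1 hi; omega) x ω ω' h']

lemma aa_dep (β : ℝ) {j k : ℕ} (h : j ≤ k) (x : ℝ) : Dep k (aa β j x) := by
  intro ω ω' h'; unfold aa; rw [ww_dep h x ω ω' h', bb_dep β h x ω ω' h']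

/-- single step identity -/
lemma one_step {β : ℝ} (hβ : 0 ≤ β) {k : ℕ} {A : Om → ℝ} (hA : Dep k A) (hAm : Measurable A) {K : ℝ}
    (hK : ∀ ω, |A ω| ≤ K) {f : ℝ → ℝ} (hf : Measurable f) {C : ℝ} (hC : ∀ y, 0 ≤ y → |f y| ≤ C) (x : ℝ) :
    ∫ ω, A ω * (aa β (k+1) x ω * f (TT β (k+1) x ω)) ∂PP = ∫ ω, A ω * (aa β k x ω * Pr f (TT β k x ω)) ∂PP := by
  have hm : Measurable (fun ω => A ω * (aa β (k+1) x ω * f (TT β (k+1) x ω))) :=
    hAm.mul ((meas_sec (aa_meas β (k+1)) x).mul (hf.comp (meas_sec (TT_meas β (k+1)) x)))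
  have hint : Integrable (fun ω => A ω * (aa β (k+1) x ω * f (TT β (k+1) x ω))) PP := by
    refine Integrable.of_bound (C := K * (Real.exp (s2 * β + (k+1 : ℕ)) * C)) hm.aestronglyMeasurable
      (Eventually.of_forall fun ω => ?_)
    rw [Real.norm_eq_abs, abs_mul]
    have h0 : 0 ≤ K := (abs_nonneg _).trans (hK ω)
    exact mul_le_mul (hK ω) (aa_f_bdd hβ _ hC x ω) (abs_nonneg _) h0
  rw [integral_gl (k := k) hint]
  congr 1; ext ω
  have e : ∀ ω', A (gl k (ω, ω')) * (aa β (k+1) x (gl k (ω, ω')) * f (TT β (k+1) x (gl k (ω, ω')))) =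
      (A ω * aa β k x ω) * (fun y => Real.exp (s2 * y - 1) * (fun s => if 0 ≤ TT β k x ω + s then f (TT β k x ω + s) else 0) (s2 - y))
        (YY k x (ω' k)) := by
    intro ω'
    have hA' : A (gl k (ω, ω')) = A ω := hA.gl (ω, ω')
    have hT : TT β k x (gl k (ω, ω')) = TT β k x ω := (TT_dep β le_rfl x).gl (ω, ω')
    have hw : ww k x (gl k (ω, ω')) = ww k x ω := (ww_dep le_rfl x).gl (ω, ω')
    have hb : bb β k x (gl k (ω, ω')) = bb β k x ω := (bb_dep β le_rfl x).gl (ω, ω')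
    have hk : gl k (ω, ω') k = ω' k := by simp [gl]
    unfold aa
    rw [ww_succ, bb_succ, TT_succ, hA', hT, hw, hb, hk]
    simp only
    split_ifs <;> ring
  simp_rw [e]
  rw [integral_const_mul, mul_assoc (A ω)]
  congr 2
  have hg : Measurable (fun y : ℝ => Real.exp (s2 * y - 1) * (fun s => if 0 ≤ TT β k x ω + s then f (TT β k x ω + s) else 0) (s2 - y)) := by
    have h1 := meas_ind' hf (TT β k x ω)
    have h2 : Measurable (fun y : ℝ => s2 - y) := measurable_const.sub measurable_id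
    have h3 : Measurable (fun y : ℝ => Real.exp (s2 * y - 1)) := by fun_prop
    exact h3.mul (h1.comp h2)
  have hyy : Measurable (YY k x) := (YY_GP k).meas x
  have e2 := integral_coord k (g := fun w => (fun y => Real.exp (s2 * y - 1) * (fun s => if 0 ≤ TT β k x ω + s then f (TT β k x ω + s) else 0) (s2 - y))
        (YY k x w)) (hg.comp hyy).aestronglyMeasurable
  refine e2.trans ?_
  have e3 := integral_map (μ := Q0) hyy.aemeasurable (f := fun y : ℝ => Real.exp (s2 * y - 1) * (fun s => if 0 ≤ TT β k x ω + s then f (TT β k x ω + s) else 0) (s2 - y)) hg.aestronglyMeasurable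
  rw [YY_map] at e3
  refine e3.symm.trans ?_
  exact tilt (fun s => if 0 ≤ TT β k x ω + s then f (TT β k x ω + s) else 0)

end

end Pool.Agent.H968
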