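import Mathlib
import Pool.Agent.H968.Levels

open MeasureTheory ProbabilityTheory Filter Topology Set
open scoped ENNReal NNReal

namespace Pool.Agent.H968

noncomputable section

/-- bounded on the half line -/
structure BH (f : ℝ → ℝ) : Prop where
  meas : Measurable f
  bd : ∃ C, ∀ y, 0 ≤ y → |f y| ≤ C

lemma Pr_BH {f : ℝ → ℝ} (hf : BH f) : BH (Pr f) := by
  obtain ⟨C, hC⟩ := hf.bd
  have hC0 : 0 ≤ C := (abs_nonneg _).trans (hC 0 le_rfl)
  refine ⟨Pr_meas hf.meas, C, fun z _ => ?_⟩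
  unfold Pr
  have := norm_integral_le_of_norm_le_const (μ := nu)
    (f := fun s => if 0 ≤ z + s then f (z + s) else 0) (C := C) (Eventually.of_forall fun s => by
      simp only [Real.norm_eq_abs]
      split_ifs with h
      · exact hC _ h
      · simpa using hC0)
  simpa using this

lemma iter_BH {f : ℝ → ℝ} (hf : BH f) (n : ℕ) : BH (Pr^[n] f) := by
  induction n with
  | zero => exact hf
  | succ n ih => rw [Function.iterate_succ_apply']; exact Pr_BH ih

lemma u_BH (n : ℕ) : BH (u n) :=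
  ⟨u_meas n, 1, fun y _ => by rw [abs_of_nonneg (u_nonneg n y)]; exact u_le_one n y⟩

lemma one_BH : BH (fun _ => (1:ℝ)) := ⟨measurable_const, 1, fun _ _ => by simp⟩

lemma BH.LG {f : ℝ → ℝ} (hf : BH f) : LG f := by
  obtain ⟨C, hC⟩ := hf.bd
  exact LG.of_bdd hf.meas hC

/-- iterated step identity -/
lemma iter_step {β : ℝ} (hβ : 0 ≤ β) {k : ℕ} {A : Om → ℝ} (hA : Dep k A) (hAm : Measurable A) {K : ℝ}
    (hK : ∀ ω, |A ω| ≤ K) {f : ℝ → ℝ} (hf : BH f) (x : ℝ) (m : ℕ) :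
    ∫ ω, A ω * (aa β (k+m) x ω * f (TT β (k+m) x ω)) ∂PP =
      ∫ ω, A ω * (aa β k x ω * (Pr^[m] f) (TT β k x ω)) ∂PP := by
  induction m generalizing f with
  | zero => rfl
  | succ m ih =>
    obtain ⟨C, hC⟩ := hf.bd
    have h1 := one_step hβ (hA.mono (show k ≤ k + m by omega)) hAm hK hf.meas hC x
    rw [show k + (m+1) = k + m + 1 by ring, h1, ih (Pr_BH hf)]
    rfl

lemma aa_zero {β x : ℝ} {ω : Om} : aa β 0 x ω = 1 := by
  unfold aa ww; rw [bb_zero, X_zero]; simp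

lemma expect_aa {β : ℝ} (hβ : 0 ≤ β) {f : ℝ → ℝ} (hf : BH f) (x : ℝ) (m : ℕ) :
    ∫ ω, aa β m x ω * f (TT β m x ω) ∂PP = (Pr^[m] f) β := by
  have h := iter_step hβ (k := 0) (A := fun _ => 1) (fun _ _ _ => rfl) measurable_const (K := 1)
    (by simp) hf x m
  simp only [one_mul, zero_add] at h
  rw [h]
  simp [aa_zero, TT_zero]

/-- two uncorrelated points -/
lemma pair_indep {k : ℕ} {x y : ℝ} (hxy : x ≠ y) (h0 : CK k x y = 0) (h0' : CK k y x = 0)
    {f g : ℝ → ℝ} (hf : Measurable f) (hg : Measurable g) :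
    ∫ w, f (YY k x w) * g (YY k y w) ∂Q0 = (∫ w, f (YY k x w) ∂Q0) * (∫ w, g (YY k y w) ∂Q0) := by
  have hGP := YY_GP k
  have hgl := glue_GP hGP {x}
  have hmap := hGP.map_vec hgl (m := 2) (![x, y]) (by
    intro i j
    unfold glueC
    fin_cases i <;> fin_cases j <;> simp [hxy, hxy.symm, h0, h0'])
  set F : (Fin 2 → ℝ) → ℝ := fun v => f (v 0) * g (v 1) with hF
  have mF : Measurable F := (hf.comp (measurable_pi_apply 0)).mul (hg.comp (measurable_pi_apply 1))
  have m1 : Measurable (fun (ω : ℕ → ℝ) (i : Fin 2) => YY k (![x, y] i) ω) :=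
    measurable_pi_lambda _ fun i => hGP.meas _
  have m2 : Measurable (fun (ω : (ℕ → ℝ) × (ℕ → ℝ)) (i : Fin 2) => glueY {x} (YY k) (![x, y] i) ω) :=
    measurable_pi_lambda _ fun i => hgl.meas _
  have e1 : ∫ w, f (YY k x w) * g (YY k y w) ∂Q0 =
      ∫ v, F v ∂(Q0.map (fun (ω : ℕ → ℝ) (i : Fin 2) => YY k (![x, y] i) ω)) := by
    rw [integral_map m1.aemeasurable mF.aestronglyMeasurable]
    rfl
  rw [e1, hmap, integral_map m2.aemeasurable mF.aestronglyMeasurable]
  have e2 : ∀ p : (ℕ → ℝ) × (ℕ → ℝ), F (fun i => glueY {x} (YY k) (![x, y] i) p) =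
      f (YY k x p.1) * g (YY k y p.2) := by
    intro p
    simp only [hF, glueY]
    simp [hxy.symm]
  simp_rw [e2]
  exact integral_prod_mul (μ := Q0) (ν := Q0) (fun w => f (YY k x w)) (fun w => g (YY k y w))

/-- inner integral of the tilted step -/
lemma inner_step {f : ℝ → ℝ} (hf : Measurable f) (k : ℕ) (x z : ℝ) :
    ∫ w, Real.exp (s2 * YY k x w - 1) * (if 0 ≤ z + (s2 - YY k x w) then f (z + (s2 - YY k x w)) else 0) ∂Q0
      = Pr f z := by
  have hg : Measurable (fun y : ℝ => Real.exp (s2 * y - 1) * (fun s => if 0 ≤ z + s then f (z + s) else 0) (s2 - y)) := by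
    have h1 := meas_ind' hf z
    have h2 : Measurable (fun y : ℝ => s2 - y) := measurable_const.sub measurable_id
    have h3 : Measurable (fun y : ℝ => Real.exp (s2 * y - 1)) := by fun_prop
    exact h3.mul (h1.comp h2)
  have hyy : Measurable (YY k x) := (YY_GP k).meas x
  have e3 := integral_map (μ := Q0) hyy.aemeasurable (f := fun y : ℝ => Real.exp (s2 * y - 1) * (fun s => if 0 ≤ z + s then f (z + s) else 0) (s2 - y)) hg.aestronglyMeasurable
  rw [YY_map] at e3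
  refine e3.symm.trans ?_
  exact tilt (fun s => if 0 ≤ z + s then f (z + s) else 0)

/-- two point step beyond the decorrelation level -/
lemma two_step {β : ℝ} (hβ : 0 ≤ β) {k : ℕ} {x y : ℝ} (hxy : x ≠ y) (h0 : CK k x y = 0) (h0' : CK k y x = 0)
    {f g : ℝ → ℝ} (hf : BH f) (hg : BH g) :
    ∫ ω, (aa β (k+1) x ω * f (TT β (k+1) x ω)) * (aa β (k+1) y ω * g (TT β (k+1) y ω)) ∂PP =
      ∫ ω, (aa β k x ω * Pr f (TT β k x ω)) * (aa β k y ω * Pr g (TT β k y ω)) ∂PP := by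
  obtain ⟨C, hC⟩ := hf.bd
  obtain ⟨D, hD⟩ := hg.bd
  have mf := hf.meas
  have mg := hg.meas
  have hm : Measurable (fun ω => (aa β (k+1) x ω * f (TT β (k+1) x ω)) * (aa β (k+1) y ω * g (TT β (k+1) y ω))) :=
    ((meas_sec (aa_meas β (k+1)) x).mul (mf.comp (meas_sec (TT_meas β (k+1)) x))).mul
    ((meas_sec (aa_meas β (k+1)) y).mul (mg.comp (meas_sec (TT_meas β (k+1)) y)))
  have hint : Integrable (fun ω => (aa β (k+1) x ω * f (TT β (k+1) x ω)) * (aa β (k+1) y ω * g (TT β (k+1) y ω))) PP := by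
    refine Integrable.of_bound (C := (Real.exp (s2 * β + (k+1 : ℕ)) * C) * (Real.exp (s2 * β + (k+1 : ℕ)) * D))
      hm.aestronglyMeasurable (Eventually.of_forall fun ω => ?_)
    rw [Real.norm_eq_abs, abs_mul]
    have h1 := aa_f_bdd hβ (k+1) hC x ω
    have h2 := aa_f_bdd hβ (k+1) hD y ω
    exact mul_le_mul h1 h2 (abs_nonneg _) ((abs_nonneg _).trans h1)
  rw [integral_gl (k := k) hint]
  congr 1; ext ω
  have e : ∀ z, ∀ φ : ℝ → ℝ, ∀ ω', aa β (k+1) z (gl k (ω, ω')) * φ (TT β (k+1) z (gl k (ω, ω'))) =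
      aa β k z ω * (Real.exp (s2 * YY k z (ω' k) - 1) *
        (if 0 ≤ TT β k z ω + (s2 - YY k z (ω' k)) then φ (TT β k z ω + (s2 - YY k z (ω' k))) else 0)) := by
    intro z φ ω'
    have hT : TT β k z (gl k (ω, ω')) = TT β k z ω := (TT_dep β le_rfl z).gl (ω, ω')
    have hw : ww k z (gl k (ω, ω')) = ww k z ω := (ww_dep le_rfl z).gl (ω, ω')
    have hb : bb β k z (gl k (ω, ω')) = bb β k z ω := (bb_dep β le_rfl z).gl (ω, ω')
    have hk : gl k (ω, ω') k = ω' k := by simp [gl]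
    unfold aa
    rw [ww_succ, bb_succ, TT_succ, hT, hw, hb, hk]
    split_ifs <;> ring
  simp_rw [e x f, e y g]
  have hyx : Measurable (YY k x) := (YY_GP k).meas x
  have hyy : Measurable (YY k y) := (YY_GP k).meas y
  set fx : ℝ → ℝ := fun y' => Real.exp (s2 * y' - 1) *
        (if 0 ≤ TT β k x ω + (s2 - y') then f (TT β k x ω + (s2 - y')) else 0) with hfx
  set gy : ℝ → ℝ := fun y' => Real.exp (s2 * y' - 1) *
        (if 0 ≤ TT β k y ω + (s2 - y') then g (TT β k y ω + (s2 - y')) else 0) with hgy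
  have mfx : Measurable fx := by
    have h1 := meas_ind' mf (TT β k x ω)
    have h2 : Measurable (fun y : ℝ => s2 - y) := measurable_const.sub measurable_id
    have h3 : Measurable (fun y : ℝ => Real.exp (s2 * y - 1)) := by fun_prop
    exact h3.mul (h1.comp h2)
  have mgy : Measurable gy := by
    have h1 := meas_ind' mg (TT β k y ω)
    have h2 : Measurable (fun y : ℝ => s2 - y) := measurable_const.sub measurable_id
    have h3 : Measurable (fun y : ℝ => Real.exp (s2 * y - 1)) := by fun_prop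
    exact h3.mul (h1.comp h2)
  have e5 : ∀ ω' : Om, aa β k x ω * (Real.exp (s2 * YY k x (ω' k) - 1) *
        (if 0 ≤ TT β k x ω + (s2 - YY k x (ω' k)) then f (TT β k x ω + (s2 - YY k x (ω' k))) else 0)) *
      (aa β k y ω * (Real.exp (s2 * YY k y (ω' k) - 1) *
        (if 0 ≤ TT β k y ω + (s2 - YY k y (ω' k)) then g (TT β k y ω + (s2 - YY k y (ω' k))) else 0))) =
      (aa β k x ω * aa β k y ω) * (fx (YY k x (ω' k)) * gy (YY k y (ω' k))) := by
    intro ω'; simp only [hfx, hgy]; ring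
  simp_rw [e5]
  rw [integral_const_mul]
  have e6 := integral_coord k (g := fun w => fx (YY k x w) * gy (YY k y w))
    ((mfx.comp hyx).mul (mgy.comp hyy)).aestronglyMeasurable
  rw [e6, pair_indep hxy h0 h0' mfx mgy]
  rw [show ∫ w, fx (YY k x w) ∂Q0 = Pr f (TT β k x ω) from inner_step mf k x _,
    show ∫ w, gy (YY k y w) ∂Q0 = Pr g (TT β k y ω) from inner_step mg k y _]
  ring

lemma CK_far {i : ℕ} {x y : ℝ} (h1 : |x - y| ≤ 1) (h : Real.exp (-((i:ℝ)-1)) ≤ |x - y|) : CK i x y = 0 := by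
  rw [CK_eq i h1, cK_eq_zero h1 h]

lemma two_iter {β : ℝ} (hβ : 0 ≤ β) {S : ℕ} {x y : ℝ} (h1 : |x - y| ≤ 1)
    (h : Real.exp (-((S:ℝ)-1)) ≤ |x - y|) {f g : ℝ → ℝ} (hf : BH f) (hg : BH g) (m : ℕ) :
    ∫ ω, (aa β (S+m) x ω * f (TT β (S+m) x ω)) * (aa β (S+m) y ω * g (TT β (S+m) y ω)) ∂PP =
      ∫ ω, (aa β S x ω * (Pr^[m] f) (TT β S x ω)) * (aa β S y ω * (Pr^[m] g) (TT β S y ω)) ∂PP := by
  have hxy : x ≠ y := by
    intro hc; subst hc
    simp only [sub_self, abs_zero] at h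
    exact absurd (Real.exp_pos _) (not_lt.2 h)
  induction m generalizing f g with
  | zero => rfl
  | succ m ih =>
    have hm : Real.exp (-(((S+m : ℕ):ℝ)-1)) ≤ |x - y| := by
      refine le_trans (Real.exp_le_exp.2 ?_) h
      push_cast
      have : (0:ℝ) ≤ m := m.cast_nonneg
      linarith
    have c1 := CK_far (i := S + m) h1 hm
    have c2 := CK_far (i := S + m) (x := y) (y := x) (by rw [abs_sub_comm]; exact h1)
      (by rw [abs_sub_comm]; exact hm)
    rw [show S + (m+1) = S + m + 1 by ring, two_step hβ hxy c1 c2 hf hg, ih (Pr_BH hf) (Pr_BH hg)]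
    rfl

/-- far pairs -/
lemma far_identity {β : ℝ} (hβ : 0 ≤ β) {S j k : ℕ} (hSj : S ≤ j) (hjk : j ≤ k) {x y : ℝ} (h1 : |x - y| ≤ 1)
    (h : Real.exp (-((S:ℝ)-1)) ≤ |x - y|) :
    ∫ ω, aa β j x ω * aa β k y ω ∂PP =
      ∫ ω, (aa β S x ω * u (j - S) (TT β S x ω)) * (aa β S y ω * u (k - S) (TT β S y ω)) ∂PP := by
  have e1 := iter_step hβ (k := j) (A := aa β j x) (aa_dep β le_rfl x) (meas_sec (aa_meas β j) x)
    (K := Real.exp (s2 * β + j)) (fun ω => by rw [abs_of_nonneg (aa_nonneg _ _ _ _)]; exact aa_le hβ j x ω)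
    one_BH y (k - j)
  rw [show j + (k - j) = k by omega] at e1
  simp only [mul_one] at e1
  rw [e1]
  have e2 := two_iter hβ h1 h (f := fun _ => 1) (g := u (k - j)) one_BH (u_BH _) (j - S)
  rw [show S + (j - S) = j by omega] at e2
  simp only [mul_one] at e2
  have e3 : (Pr^[k - j] fun _ => (1:ℝ)) = u (k - j) := rfl
  rw [e3, e2]
  have e4 : (Pr^[j - S] fun _ => (1:ℝ)) = u (j - S) := rfl
  have e5 : Pr^[j - S] (u (k - j)) = u (k - S) := by
    rw [← u_add]; congr 1; omega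
  rw [e4, e5]

end

end Pool.Agent.H968
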