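import Mathlib
import Pool.Agent.H968.SHa

open MeasureTheory ProbabilityTheory Filter Topology Set
open scoped ENNReal NNReal

namespace Pool.Agent.H968

noncomputable section

lemma meas2 {α Ω : Type*} [MeasurableSpace α] [MeasurableSpace Ω] {f : ℝ → Ω → ℝ}
    (h : Measurable (Function.uncurry f)) {a : α → ℝ} {b : α → Ω}
    (ha : Measurable a) (hb : Measurable b) : Measurable (fun q => f (a q) (b q)) :=
  h.comp (ha.prodMk hb)

/-- Lebesgue measure on the unit interval -/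
def lam : Measure ℝ := volume.restrict (Icc (0:ℝ) 1)

instance : IsProbabilityMeasure lam := by
  unfold lam; exact ⟨by simp⟩

lemma lam_mem : ∀ᵐ x ∂lam, x ∈ Icc (0:ℝ) 1 := by
  unfold lam; exact ae_restrict_mem measurableSet_Icc

lemma lam2_mem : ∀ᵐ p ∂(lam.prod lam), p.1 ∈ Icc (0:ℝ) 1 ∧ p.2 ∈ Icc (0:ℝ) 1 := by
  have h1 : ∀ᵐ p ∂(lam.prod lam), p.1 ∈ Icc (0:ℝ) 1 := Measure.quasiMeasurePreserving_fst.ae lam_mem
  have h2 : ∀ᵐ p ∂(lam.prod lam), p.2 ∈ Icc (0:ℝ) 1 := Measure.quasiMeasurePreserving_snd.ae lam_mem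
  filter_upwards [h1, h2] with p a b using ⟨a, b⟩

lemma kap_le_one : kap ≤ 1 := by
  unfold kap
  have : 2 ≤ Real.sqrt (2 * Real.pi) := by
    apply Real.le_sqrt_of_sq_le
    nlinarith [Real.pi_gt_three]
  rw [← div_eq_mul_inv]
  exact div_le_one_of_le₀ this (Real.sqrt_nonneg _)

lemma u_sq_le (m : ℕ) {z : ℝ} (hz : 0 ≤ z) : (u m z)^2 ≤ 8 * (1+z)^2 / ((m:ℝ)+1) := by
  rcases Nat.eq_zero_or_pos m with h | h
  · subst h
    rw [u_zero]
    norm_num
    nlinarith
  · have h1 := u_le_lin (n := m) (by omega) hz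
    have h0 := u_nonneg m z
    have hm : (1:ℝ) ≤ m := by exact_mod_cast h
    have h2 : u m z ≤ 2 * (1+z) * (Real.sqrt m)⁻¹ := by
      refine h1.trans ?_
      have := kap_le_one
      have := kap_pos
      have hs : 0 ≤ (Real.sqrt m)⁻¹ := by positivity
      have h3 : kap * (z + 2) ≤ 2 * (1 + z) := by nlinarith
      exact mul_le_mul_of_nonneg_right h3 hs
    have h3 : (u m z)^2 ≤ (2 * (1+z) * (Real.sqrt m)⁻¹)^2 := by gcongr
    refine h3.trans ?_
    rw [mul_pow, inv_pow, Real.sq_sqrt (by positivity), ← div_eq_mul_inv,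
      div_le_div_iff₀ (by positivity) (by positivity)]
    nlinarith [sq_nonneg (1+z)]

lemma integrable_poly_exp {c : ℝ} (hc : 0 < c) :
    IntegrableOn (fun y : ℝ => (1+y)^3 * Real.exp (-(c * y))) (Ici 0) := by
  have h1 : IntegrableOn (fun y : ℝ => (1 + 6/c)^3 * Real.exp ((-(c/2)) * y)) (Ici 0) := by
    rw [integrableOn_Ici_iff_integrableOn_Ioi]
    exact (integrableOn_exp_mul_Ioi (by linarith) 0).const_mul _
  refine Integrable.mono' h1 (by fun_prop) ?_
  refine (ae_restrict_mem measurableSet_Ici).mono fun y hy => ?_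
  have hy0 : (0:ℝ) ≤ y := hy
  rw [Real.norm_eq_abs, abs_of_nonneg (by positivity)]
  have h2 : 1 + y ≤ (1 + 6/c) * Real.exp (c * y / 6) := by
    have h3 : c * y / 6 + 1 ≤ Real.exp (c * y / 6) := Real.add_one_le_exp _
    have h4 : 1 + y ≤ (1 + 6/c) * (c * y / 6 + 1) := by
      have : (1 + 6/c) * (c * y / 6 + 1) = c * y / 6 + 1 + y + 6/c := by field_simp; ring
      rw [this]
      have : 0 ≤ c * y / 6 := by positivity
      have : 0 < 6/c := by positivity
      linarith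
    exact h4.trans (mul_le_mul_of_nonneg_left h3 (by positivity))
  calc (1+y)^3 * Real.exp (-(c*y)) ≤ ((1 + 6/c) * Real.exp (c * y / 6))^3 * Real.exp (-(c*y)) := by gcongr
    _ = (1 + 6/c)^3 * Real.exp ((-(c/2)) * y) := by
        rw [mul_pow, ← Real.exp_nat_mul, mul_assoc, ← Real.exp_add]
        congr 2; push_cast; ring

/-- an absolute constant -/
def I3 : ℝ := ∫ y in Ici (0:ℝ), (1+y)^3 * Real.exp (-(s2 * y))

lemma I3_nonneg : 0 ≤ I3 := by
  unfold I3
  apply setIntegral_nonneg measurableSet_Ici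
  intro y hy
  have : (0:ℝ) ≤ y := hy
  positivity

/-- constant in the second moment estimate -/
def Kb (β : ℝ) : ℝ := 432 * (1+β) * (Real.exp (s2*β) * (8 * I3))

lemma Kb_nonneg {β : ℝ} (hβ : 0 ≤ β) : 0 ≤ Kb β := by
  unfold Kb; have := I3_nonneg; positivity

lemma B_sq {β : ℝ} (hβ : 0 ≤ β) {s : ℕ} (hs : 3 ≤ s) (m : ℕ) (x : ℝ) :
    ∫ ω, (aa β s x ω * u m (TT β s x ω))^2 ∂PP ≤ Kb β * Real.exp s * ((Real.sqrt s)⁻¹)^3 / ((m:ℝ)+1) := by
  set f : ℝ → ℝ := fun z => Real.exp (s2 * β + s) * Real.exp (-(s2 * z)) * (u m z)^2 with hf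
  have mf : Measurable f := by
    have := u_meas m
    exact (by fun_prop : Measurable fun z => Real.exp (s2 * β + s) * Real.exp (-(s2 * z))).mul (this.pow_const 2)
  have hexp : ∀ z : ℝ, 0 ≤ z → Real.exp (-(s2 * z)) ≤ 1 := by
    intro z hz
    rw [Real.exp_le_one_iff]
    have := s2_pos
    nlinarith
  have hBH : BH f := by
    refine ⟨mf, Real.exp (s2 * β + s), fun z hz => ?_⟩
    simp only [hf]
    rw [abs_of_nonneg (by positivity)]
    have h1 := hexp z hz
    have h2 : (u m z)^2 ≤ 1 := by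
      have := u_le_one m z
      have := u_nonneg m z
      nlinarith
    calc Real.exp (s2 * β + s) * Real.exp (-(s2 * z)) * (u m z)^2 ≤ Real.exp (s2 * β + s) * 1 * 1 := by gcongr
      _ = _ := by ring
  have e : ∀ ω, (aa β s x ω * u m (TT β s x ω))^2 = aa β s x ω * f (TT β s x ω) := by
    intro ω
    have h1 : aa β s x ω * aa β s x ω = aa β s x ω * ww s x ω := by
      unfold aa
      rcases bb_01 β s x ω with h | h <;> rw [h] <;> ring
    rw [ww_eq_T β] at h1
    simp only [hf]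
    calc (aa β s x ω * u m (TT β s x ω))^2 = (aa β s x ω * aa β s x ω) * (u m (TT β s x ω))^2 := by ring
      _ = _ := by rw [h1]; ring
  simp_rw [e]
  rw [expect_aa hβ hBH]
  have hbound : ∀ y, 0 ≤ y → (1+y) * f y ≤ Real.exp (s2 * β + s) * (8 / ((m:ℝ)+1)) * ((1+y)^3 * Real.exp (-(s2 * y))) := by
    intro y hy
    simp only [hf]
    have h1 := u_sq_le m hy
    have h2 : 0 ≤ Real.exp (s2 * β + s) * Real.exp (-(s2 * y)) * (1+y) := by positivity
    have h3 := mul_le_mul_of_nonneg_left h1 h2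
    calc (1+y) * (Real.exp (s2 * β + s) * Real.exp (-(s2 * y)) * (u m y)^2)
        = Real.exp (s2 * β + s) * Real.exp (-(s2 * y)) * (1+y) * (u m y)^2 := by ring
      _ ≤ _ := h3
      _ = _ := by ring
  have hfnn : ∀ y, 0 ≤ y → 0 ≤ f y := fun y _ => by simp only [hf]; positivity
  have hdom := (integrable_poly_exp s2_pos).const_mul (Real.exp (s2 * β + s) * (8 / ((m:ℝ)+1)))
  have hI : IntegrableOn (fun y => (1+y) * f y) (Ici 0) := by
    refine Integrable.mono' hdom ((by fun_prop : Measurable fun y : ℝ => 1+y).mul mf).aestronglyMeasurable ?_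
    refine (ae_restrict_mem measurableSet_Ici).mono fun y hy => ?_
    have hy0 : (0:ℝ) ≤ y := hy
    rw [Real.norm_eq_abs, abs_of_nonneg (mul_nonneg (by linarith) (hfnn y hy0))]
    exact hbound y hy0
  have h1 := iter_local hBH.LG hfnn hI hs hβ
  refine h1.trans ?_
  have h2 : ∫ y in Ici (0:ℝ), (1+y) * f y ≤ Real.exp (s2 * β + s) * (8 / ((m:ℝ)+1)) * I3 := by
    unfold I3
    rw [← integral_const_mul]
    apply setIntegral_mono_on hI hdom measurableSet_Ici
    intro y hy; exact hbound y hy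
  calc 432 * (1 + β) * ((Real.sqrt s)⁻¹)^3 * ∫ y in Ici (0:ℝ), (1+y) * f y
      ≤ 432 * (1 + β) * ((Real.sqrt s)⁻¹)^3 * (Real.exp (s2 * β + s) * (8 / ((m:ℝ)+1)) * I3) := by
        gcongr
    _ = Kb β * Real.exp s * ((Real.sqrt s)⁻¹)^3 / ((m:ℝ)+1) := by
        unfold Kb; rw [Real.exp_add]; ring

lemma B_integrable {β : ℝ} (hβ : 0 ≤ β) (s : ℕ) {f : ℝ → ℝ} (hf : BH f) (x : ℝ) :
    Integrable (fun ω => aa β s x ω * f (TT β s x ω)) PP := by
  obtain ⟨C, hC⟩ := hf.bd
  refine Integrable.of_bound (C := Real.exp (s2 * β + s) * C)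
    ((meas_sec (aa_meas β s) x).mul (hf.meas.comp (meas_sec (TT_meas β s) x))).aestronglyMeasurable
    (Eventually.of_forall fun ω => ?_)
  exact aa_f_bdd hβ s hC x ω

lemma B_mul_integrable {β : ℝ} (hβ : 0 ≤ β) (s t : ℕ) {f g : ℝ → ℝ} (hf : BH f) (hg : BH g) (x y : ℝ) :
    Integrable (fun ω => (aa β s x ω * f (TT β s x ω)) * (aa β t y ω * g (TT β t y ω))) PP := by
  obtain ⟨C, hC⟩ := hf.bd
  obtain ⟨D, hD⟩ := hg.bd
  refine Integrable.of_bound (C := (Real.exp (s2 * β + s) * C) * (Real.exp (s2 * β + t) * D))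
    (((meas_sec (aa_meas β s) x).mul (hf.meas.comp (meas_sec (TT_meas β s) x))).mul
    ((meas_sec (aa_meas β t) y).mul (hg.meas.comp (meas_sec (TT_meas β t) y)))).aestronglyMeasurable
    (Eventually.of_forall fun ω => ?_)
  rw [Real.norm_eq_abs, abs_mul]
  have h1 := aa_f_bdd hβ s hC x ω
  have h2 := aa_f_bdd hβ t hD y ω
  exact mul_le_mul h1 h2 (abs_nonneg _) ((abs_nonneg _).trans h1)

/-- bound for the two point function at equal levels -/
lemma pair_bound {β : ℝ} (hβ : 0 ≤ β) {s j : ℕ} (hs : 3 ≤ s) (hsj : s ≤ j) {x y : ℝ} (h1 : |x - y| ≤ 1)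
    (h : s = j ∨ Real.exp (-((s:ℝ)-1)) ≤ |x - y|) :
    ∫ ω, aa β j x ω * aa β j y ω ∂PP ≤ Kb β * Real.exp s * ((Real.sqrt s)⁻¹)^3 / (((j - s : ℕ):ℝ)+1) := by
  have key : ∫ ω, aa β j x ω * aa β j y ω ∂PP =
      ∫ ω, (aa β s x ω * u (j - s) (TT β s x ω)) * (aa β s y ω * u (j - s) (TT β s y ω)) ∂PP := by
    rcases h with h | h
    · subst h; simp [u_zero]
    · exact far_identity hβ hsj le_rfl h1 h
  rw [key]
  have b1 := B_sq hβ hs (j - s) x
  have b2 := B_sq hβ hs (j - s) y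
  have i1 : Integrable (fun ω => (aa β s x ω * u (j - s) (TT β s x ω))^2) PP := by
    have := B_mul_integrable hβ s s (u_BH (j-s)) (u_BH (j-s)) x x
    refine this.congr (Eventually.of_forall fun ω => ?_); simp only; ring
  have i2 : Integrable (fun ω => (aa β s y ω * u (j - s) (TT β s y ω))^2) PP := by
    have := B_mul_integrable hβ s s (u_BH (j-s)) (u_BH (j-s)) y y
    refine this.congr (Eventually.of_forall fun ω => ?_); simp only; ring
  have h3 : ∫ ω, (aa β s x ω * u (j - s) (TT β s x ω)) * (aa β s y ω * u (j - s) (TT β s y ω)) ∂PP ≤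
      ∫ ω, ((aa β s x ω * u (j - s) (TT β s x ω))^2 + (aa β s y ω * u (j - s) (TT β s y ω))^2) * (1/2) ∂PP := by
    apply integral_mono (B_mul_integrable hβ s s (u_BH _) (u_BH _) x y) ((i1.add i2).mul_const _)
    intro ω
    simp only [Pi.add_apply]
    nlinarith [sq_nonneg (aa β s x ω * u (j - s) (TT β s x ω) - aa β s y ω * u (j - s) (TT β s y ω))]
  refine h3.trans ?_
  rw [integral_mul_const, integral_add i1 i2]
  linarith

lemma near_measure (r : ℝ) : (lam.prod lam).real {p | |p.1 - p.2| < r} ≤ 2 * max r 0 := by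
  have hm : MeasurableSet {p : ℝ × ℝ | |p.1 - p.2| < r} :=
    measurableSet_lt (by fun_prop) measurable_const
  unfold Measure.real
  rw [Measure.prod_apply hm]
  have : ∫⁻ x, lam (Prod.mk x ⁻¹' {p : ℝ × ℝ | |p.1 - p.2| < r}) ∂lam ≤ ∫⁻ x, ENNReal.ofReal (2 * max r 0) ∂lam := by
    apply lintegral_mono
    intro x
    have h1 : Prod.mk x ⁻¹' {p : ℝ × ℝ | |p.1 - p.2| < r} ⊆ Ioo (x - max r 0) (x + max r 0) := by
      intro y hy
      have hy' : |x - y| < r := hy
      have := lt_of_lt_of_le hy' (le_max_left r 0)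
      rw [abs_lt] at this
      exact ⟨by linarith, by linarith⟩
    refine (measure_mono h1).trans ?_
    unfold lam
    refine (Measure.restrict_apply_le _ _).trans ?_
    rw [Real.volume_Ioo]
    apply ENNReal.ofReal_le_ofReal; linarith
  refine ENNReal.toReal_le_of_le_ofReal (by positivity) (this.trans (le_of_eq ?_))
  simp

end

end Pool.Agent.H968
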