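import Mathlib
import Pool.Agent.H968.SHb

open MeasureTheory ProbabilityTheory Filter Topology Set
open scoped ENNReal NNReal

namespace Pool.Agent.H968

noncomputable section

/-- `s^{-3/2}` -/
def g3 (s : ℕ) : ℝ := ((Real.sqrt s)⁻¹)^3

lemma g3_nonneg (s : ℕ) : 0 ≤ g3 s := by unfold g3; positivity

lemma g3_summable : Summable g3 := by
  have h := Real.summable_nat_rpow_inv.2 (show (1:ℝ) < 3/2 by norm_num)
  refine h.congr fun n => ?_
  unfold g3
  rw [inv_pow]
  congr 1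
  rw [Real.sqrt_eq_rpow, ← Real.rpow_natCast, ← Real.rpow_mul (by positivity)]
  norm_num

/-- tail -/
def tl (S : ℕ) : ℝ := ∑' i, g3 (i + S)

lemma tl_tendsto : Tendsto tl atTop (𝓝 0) := tendsto_sum_nat_add g3

lemma sum_le_tl (S n : ℕ) : ∑ s ∈ Finset.Ico S n, g3 s ≤ tl S := by
  rw [Finset.sum_Ico_eq_sum_range]
  have h : Summable (fun i => g3 (i + S)) := (summable_nat_add_iff S).2 g3_summable
  have := h.sum_le_tsum (Finset.range (n - S)) (fun i _ => g3_nonneg _)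
  refine le_trans (le_of_eq ?_) this
  apply Finset.sum_congr rfl
  intro i _; rw [add_comm]

/-- second part -/
def ps (j : ℕ) : ℝ := 3 * (Real.sqrt j)⁻¹ * (1 + Real.log (j+1))

lemma ps_tendsto : Tendsto ps atTop (𝓝 0) := by
  have h1 : Tendsto (fun x : ℝ => Real.log x / x^(1/2 : ℝ)) atTop (𝓝 0) :=
    (isLittleO_log_rpow_atTop (by norm_num)).tendsto_div_nhds_zero
  have h2 : Tendsto (fun j : ℕ => Real.log ((j:ℝ)+1) / ((j:ℝ)+1)^(1/2:ℝ)) atTop (𝓝 0) :=
    h1.comp (tendsto_natCast_atTop_atTop.atTop_add tendsto_const_nhds)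
  have h3 : Tendsto (fun j : ℕ => (Real.sqrt j)⁻¹) atTop (𝓝 0) :=
    tendsto_inv_atTop_zero.comp (Real.tendsto_sqrt_atTop.comp tendsto_natCast_atTop_atTop)
  have h4 : Tendsto (fun j : ℕ => 3 * (Real.sqrt j)⁻¹ + 6 * (Real.log ((j:ℝ)+1) / ((j:ℝ)+1)^(1/2:ℝ))) atTop (𝓝 (3 * 0 + 6 * 0)) :=
    (h3.const_mul 3).add (h2.const_mul 6)
  norm_num at h4
  refine tendsto_of_tendsto_of_tendsto_of_le_of_le' tendsto_const_nhds h4 ?_ ?_
  · filter_upwards with j
    unfold ps
    have hj0 : (0:ℝ) ≤ j := j.cast_nonneg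
    have : 0 ≤ Real.log ((j:ℝ)+1) := Real.log_nonneg (by linarith)
    positivity
  · filter_upwards [eventually_ge_atTop 1] with j hj
    unfold ps
    have hj' : (1:ℝ) ≤ j := by exact_mod_cast hj
    have hl : 0 ≤ Real.log ((j:ℝ)+1) := Real.log_nonneg (by linarith)
    have hs : Real.sqrt ((j:ℝ)+1) ≤ 2 * Real.sqrt j := by
      have : Real.sqrt (4 * j) = 2 * Real.sqrt j := by
        rw [Real.sqrt_mul (by norm_num), show (4:ℝ) = 2^2 by norm_num, Real.sqrt_sq (by norm_num)]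
      rw [← this]; apply Real.sqrt_le_sqrt; linarith
    have hsp : 0 < Real.sqrt j := Real.sqrt_pos.2 (by linarith)
    have hsp1 : 0 < Real.sqrt ((j:ℝ)+1) := Real.sqrt_pos.2 (by linarith)
    have h5 : (Real.sqrt j)⁻¹ ≤ 2 * (Real.sqrt ((j:ℝ)+1))⁻¹ := by
      rw [inv_eq_one_div, ← div_eq_mul_inv, div_le_div_iff₀ hsp hsp1]; linarith
    have e1 : ((j:ℝ)+1)^(1/2:ℝ) = Real.sqrt ((j:ℝ)+1) := by rw [Real.sqrt_eq_rpow]
    rw [e1]
    rw [mul_add, mul_one]
    have : 3 * (Real.sqrt j)⁻¹ * Real.log ((j:ℝ)+1) ≤ 6 * (Real.log ((j:ℝ)+1) / Real.sqrt ((j:ℝ)+1)) := by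
      rw [div_eq_mul_inv]
      nlinarith
    linarith

lemma sum_bound {S j : ℕ} (hj : 1 ≤ j) :
    ∑ s ∈ Finset.Ico S (j+1), g3 s * (j / (((j - s : ℕ):ℝ)+1)) ≤ 2 * tl S + ps j := by
  have hj' : (1:ℝ) ≤ j := by exact_mod_cast hj
  have hterm : ∀ s ∈ Finset.Ico S (j+1), g3 s * (j / (((j - s : ℕ):ℝ)+1)) ≤
      2 * g3 s + 3 * (Real.sqrt j)⁻¹ * (1 / (((j - s : ℕ):ℝ)+1)) := by
    intro s hs
    have hsj : s ≤ j := by have := (Finset.mem_Ico.1 hs).2; omega
    have hg := g3_nonneg s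
    have hd : (0:ℝ) < ((j - s : ℕ):ℝ)+1 := by positivity
    rcases le_or_gt (2*s) j with h | h
    · have h1 : (j:ℝ) / (((j - s : ℕ):ℝ)+1) ≤ 2 := by
        rw [div_le_iff₀ hd]
        have : j ≤ 2 * ((j - s) + 1) := by omega
        exact_mod_cast this
      have h2 : 0 ≤ 3 * (Real.sqrt j)⁻¹ * (1 / (((j - s : ℕ):ℝ)+1)) := by positivity
      nlinarith
    · have h1 : g3 s * j ≤ 3 * (Real.sqrt j)⁻¹ := by
        unfold g3
        have hs0 : (0:ℝ) < s := by have : 0 < s := by omega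
                                   exact_mod_cast this
        have h3 : Real.sqrt j ≤ Real.sqrt 2 * Real.sqrt s := by
          rw [← Real.sqrt_mul (by norm_num)]
          apply Real.sqrt_le_sqrt
          have : j ≤ 2 * s := by omega
          exact_mod_cast this
        have hsj0 : 0 < Real.sqrt j := Real.sqrt_pos.2 (by linarith)
        have hss0 : 0 < Real.sqrt s := Real.sqrt_pos.2 hs0
        have h4 : (Real.sqrt s)⁻¹ ≤ Real.sqrt 2 * (Real.sqrt j)⁻¹ := by
          rw [inv_eq_one_div, ← div_eq_mul_inv, div_le_div_iff₀ hss0 hsj0]; linarith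
        have h5 : ((Real.sqrt s)⁻¹)^3 ≤ (Real.sqrt 2 * (Real.sqrt j)⁻¹)^3 := by gcongr
        have h6 : Real.sqrt 2 ^ 3 ≤ 3 := by
          have h7 : Real.sqrt 2 ^ 2 = 2 := Real.sq_sqrt (by norm_num)
          have h8 : Real.sqrt 2 < 1.5 := by rw [Real.sqrt_lt' (by norm_num)]; norm_num
          nlinarith
        have h9 : (j:ℝ) = Real.sqrt j ^ 2 := (Real.sq_sqrt (by linarith)).symm
        calc ((Real.sqrt s)⁻¹)^3 * (j:ℝ) ≤ (Real.sqrt 2 * (Real.sqrt j)⁻¹)^3 * j := by gcongr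
          _ = Real.sqrt 2 ^ 3 * (Real.sqrt j)⁻¹ * ((Real.sqrt j)⁻¹ ^ 2 * j) := by ring
          _ = Real.sqrt 2 ^ 3 * (Real.sqrt j)⁻¹ := by
              have : (Real.sqrt j)⁻¹ ^ 2 * (j:ℝ) = 1 := by
                rw [inv_pow, Real.sq_sqrt (by linarith)]; field_simp
              rw [this, mul_one]
          _ ≤ 3 * (Real.sqrt j)⁻¹ := by gcongr
      calc g3 s * (j / (((j - s : ℕ):ℝ)+1)) = (g3 s * j) * (1 / (((j - s : ℕ):ℝ)+1)) := by ring
        _ ≤ 3 * (Real.sqrt j)⁻¹ * (1 / (((j - s : ℕ):ℝ)+1)) := by gcongr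
        _ ≤ _ := by linarith
  refine (Finset.sum_le_sum hterm).trans ?_
  rw [Finset.sum_add_distrib, ← Finset.mul_sum, ← Finset.mul_sum]
  have h1 := sum_le_tl S (j+1)
  have h2 : ∑ s ∈ Finset.Ico S (j+1), 1 / (((j - s : ℕ):ℝ)+1) ≤ 1 + Real.log (j+1) := by
    have h3 : ∑ s ∈ Finset.Ico S (j+1), 1 / (((j - s : ℕ):ℝ)+1) ≤ ∑ s ∈ Finset.range (j+1), 1 / (((j - s : ℕ):ℝ)+1) := by
      apply Finset.sum_le_sum_of_subset_of_nonneg
      · intro s hs; exact Finset.mem_range.2 (Finset.mem_Ico.1 hs).2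
      · intro _ _ _; positivity
    refine h3.trans ?_
    have h4 := Finset.sum_range_reflect (fun i : ℕ => 1 / ((i:ℝ)+1)) (j+1)
    have h5 : ∑ s ∈ Finset.range (j+1), 1 / (((j - s : ℕ):ℝ)+1) = ∑ i ∈ Finset.range (j+1), 1 / ((i:ℝ)+1) := by
      rw [← h4]
      apply Finset.sum_congr rfl
      intro s hs
      congr 3
    rw [h5]
    have h6 := harmonic_le_one_add_log (j+1)
    unfold harmonic at h6
    push_cast at h6
    refine le_trans (le_of_eq ?_) h6
    apply Finset.sum_congr rfl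
    intro i _; rw [one_div]
  unfold ps
  have h7 : 3 * (Real.sqrt j)⁻¹ * ∑ s ∈ Finset.Ico S (j+1), 1 / (((j - s : ℕ):ℝ)+1) ≤
      3 * (Real.sqrt j)⁻¹ * (1 + Real.log (j+1)) := by gcongr
  linarith

/-- two point function at level `j`, normalised -/
def ph (β : ℝ) (j : ℕ) (p : ℝ × ℝ) : ℝ := j * ∫ ω, aa β j p.1 ω * aa β j p.2 ω ∂PP

/-- the near diagonal set -/
def nr (S : ℕ) : Set (ℝ × ℝ) := {p | |p.1 - p.2| < Real.exp (-((S:ℝ)-2))}

lemma nr_meas (S : ℕ) : MeasurableSet (nr S) := measurableSet_lt (by fun_prop) measurable_const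

lemma ph_pointwise {β : ℝ} (hβ : 0 ≤ β) {S j : ℕ} (hS : 3 ≤ S) (hSj : S ≤ j) {p : ℝ × ℝ}
    (hp : |p.1 - p.2| ≤ 1) (hnear : |p.1 - p.2| < Real.exp (-((S:ℝ)-2))) :
    ph β j p ≤ ∑ s ∈ Finset.Ico S (j+1), (nr s).indicator
      (fun _ => Kb β * Real.exp s * (g3 s * (j / (((j - s : ℕ):ℝ)+1)))) p := by
  classical
  have hex : ∃ s, S ≤ s ∧ (s = j ∨ Real.exp (-((s:ℝ)-1)) ≤ |p.1 - p.2|) := ⟨j, hSj, Or.inl rfl⟩
  set s := Nat.find hex with hs
  have hs1 := Nat.find_spec hex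
  rw [← hs] at hs1
  have hsj : s ≤ j := by rw [hs]; exact Nat.find_min' hex ⟨hSj, Or.inl rfl⟩
  have hlt : |p.1 - p.2| < Real.exp (-((s:ℝ)-2)) := by
    rcases Nat.eq_or_lt_of_le hs1.1 with h | h
    · rw [← h]; exact hnear
    · have hmin := Nat.find_min hex (m := s - 1) (by omega)
      push Not at hmin
      have h2 := (hmin (by omega)).2
      have e : ((s - 1 : ℕ):ℝ) - 1 = (s:ℝ) - 2 := by
        rw [Nat.cast_sub (by omega)]; push_cast; ring
      rwa [e] at h2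
  have hmem : s ∈ Finset.Ico S (j+1) := Finset.mem_Ico.2 ⟨hs1.1, by omega⟩
  have hK := Kb_nonneg hβ
  have hb := pair_bound hβ (s := s) (j := j) (by omega) hsj hp hs1.2
  have h3 : ph β j p ≤ (nr s).indicator
      (fun _ => Kb β * Real.exp s * (g3 s * (j / (((j - s : ℕ):ℝ)+1)))) p := by
    rw [indicator_of_mem (show p ∈ nr s from hlt)]
    unfold ph
    have : (0:ℝ) ≤ j := j.cast_nonneg
    refine (mul_le_mul_of_nonneg_left hb this).trans (le_of_eq ?_)
    unfold g3; ring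
  refine h3.trans ?_
  apply Finset.single_le_sum (f := fun s : ℕ => (nr s).indicator
      (fun _ => Kb β * Real.exp s * (g3 s * (j / (((j - s : ℕ):ℝ)+1)))) p) _ hmem
  intro t _
  apply indicator_nonneg
  intro _ _
  have := g3_nonneg t
  positivity

lemma ph_meas (β : ℝ) (j : ℕ) : Measurable (ph β j) := by
  unfold ph
  have h : StronglyMeasurable (fun q : (ℝ × ℝ) × Om => aa β j q.1.1 q.2 * aa β j q.1.2 q.2) := by
    apply Measurable.stronglyMeasurable
    exact (meas2 (aa_meas β j) (measurable_fst.comp measurable_fst) measurable_snd).mul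
      (meas2 (aa_meas β j) (measurable_snd.comp measurable_fst) measurable_snd)
  exact (StronglyMeasurable.integral_prod_right' (ν := PP) h).measurable.const_mul _

lemma ph_nonneg (β : ℝ) (j : ℕ) (p : ℝ × ℝ) : 0 ≤ ph β j p := by
  unfold ph
  have : 0 ≤ ∫ ω, aa β j p.1 ω * aa β j p.2 ω ∂PP :=
    integral_nonneg fun ω => mul_nonneg (aa_nonneg _ _ _ _) (aa_nonneg _ _ _ _)
  positivity

lemma ph_bdd {β : ℝ} (hβ : 0 ≤ β) (j : ℕ) (p : ℝ × ℝ) :
    |ph β j p| ≤ j * (Real.exp (s2 * β + j) * Real.exp (s2 * β + j)) := by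
  rw [abs_of_nonneg (ph_nonneg _ _ _)]
  unfold ph
  apply mul_le_mul_of_nonneg_left _ j.cast_nonneg
  have := norm_integral_le_of_norm_le_const (μ := PP) (f := fun ω => aa β j p.1 ω * aa β j p.2 ω)
    (C := Real.exp (s2 * β + j) * Real.exp (s2 * β + j)) (Eventually.of_forall fun ω => by
      rw [Real.norm_eq_abs, abs_mul, abs_of_nonneg (aa_nonneg _ _ _ _), abs_of_nonneg (aa_nonneg _ _ _ _)]
      exact mul_le_mul (aa_le hβ _ _ _) (aa_le hβ _ _ _) (aa_nonneg _ _ _ _) (by positivity))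
  refine (le_abs_self _).trans ?_
  simpa using this

lemma near_bound {β : ℝ} (hβ : 0 ≤ β) {S j : ℕ} (hS : 3 ≤ S) (hSj : S ≤ j) :
    ∫ p in nr S, ph β j p ∂(lam.prod lam) ≤ Kb β * (2 * Real.exp 2) * (2 * tl S + ps j) := by
  have hK := Kb_nonneg hβ
  have hiI : ∀ s : ℕ, ∀ c : ℝ, Integrable ((nr s).indicator (fun _ => c)) (lam.prod lam) :=
    fun s c => (integrable_const c).indicator (nr_meas s)
  have h1 : ∫ p in nr S, ph β j p ∂(lam.prod lam) ≤ ∫ p, ∑ s ∈ Finset.Ico S (j+1), (nr s).indicator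
      (fun _ => Kb β * Real.exp s * (g3 s * (j / (((j - s : ℕ):ℝ)+1)))) p ∂(lam.prod lam) := by
    rw [← integral_indicator (nr_meas S)]
    apply integral_mono_ae
    · refine Integrable.of_bound (C := j * (Real.exp (s2 * β + j) * Real.exp (s2 * β + j)))
        ((ph_meas β j).indicator (nr_meas S)).aestronglyMeasurable (Eventually.of_forall fun p => ?_)
      refine (norm_indicator_le_norm_self _ _).trans ?_
      exact ph_bdd hβ j p
    · exact integrable_finsetSum _ fun s _ => hiI s _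
    · filter_upwards [lam2_mem] with p hp
      by_cases hn : p ∈ nr S
      · rw [indicator_of_mem hn]
        apply ph_pointwise hβ hS hSj _ hn
        rw [abs_le]
        exact ⟨by linarith [hp.1.1, hp.2.2], by linarith [hp.1.2, hp.2.1]⟩
      · rw [indicator_of_notMem hn]
        apply Finset.sum_nonneg
        intro s _
        apply indicator_nonneg
        intro _ _
        have := g3_nonneg s
        positivity
  refine h1.trans ?_
  rw [integral_finsetSum _ fun s _ => hiI s _]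
  have h2 : ∀ s ∈ Finset.Ico S (j+1), ∫ p, (nr s).indicator
      (fun _ => Kb β * Real.exp s * (g3 s * (j / (((j - s : ℕ):ℝ)+1)))) p ∂(lam.prod lam) ≤
      Kb β * (2 * Real.exp 2) * (g3 s * (j / (((j - s : ℕ):ℝ)+1))) := by
    intro s _
    rw [integral_indicator (nr_meas s), integral_const, smul_eq_mul]
    have h3 := near_measure (Real.exp (-((s:ℝ)-2)))
    rw [max_eq_left (Real.exp_pos _).le] at h3
    have hg := g3_nonneg s
    have h4 : (lam.prod lam).real (nr s) * (Kb β * Real.exp s * (g3 s * (j / (((j - s : ℕ):ℝ)+1)))) ≤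
      (2 * Real.exp (-((s:ℝ)-2))) * (Kb β * Real.exp s * (g3 s * (j / (((j - s : ℕ):ℝ)+1)))) := by
      apply mul_le_mul_of_nonneg_right h3
      positivity
    have e1 : ((lam.prod lam).restrict (nr s)).real univ = (lam.prod lam).real (nr s) := by
      unfold Measure.real; rw [Measure.restrict_apply_univ]
    show ((lam.prod lam).restrict (nr s)).real univ * _ ≤ _
    rw [e1]
    refine h4.trans (le_of_eq ?_)
    have e2 : Real.exp (-((s:ℝ)-2)) * Real.exp s = Real.exp 2 := by rw [← Real.exp_add]; congr 1; ring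
    calc (2 * Real.exp (-((s:ℝ)-2))) * (Kb β * Real.exp s * (g3 s * (j / (((j - s : ℕ):ℝ)+1))))
        = Kb β * (2 * (Real.exp (-((s:ℝ)-2)) * Real.exp s)) * (g3 s * (j / (((j - s : ℕ):ℝ)+1))) := by ring
      _ = _ := by rw [e2]
  refine (Finset.sum_le_sum h2).trans ?_
  rw [← Finset.mul_sum]
  apply mul_le_mul_of_nonneg_left (sum_bound (by omega)) (by positivity)

end

end Pool.Agent.H968
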