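import Mathlib
import Pool.Agent.H968.SHc

open MeasureTheory ProbabilityTheory Filter Topology Set
open scoped ENNReal NNReal

namespace Pool.Agent.H968

noncomputable section

lemma int4 {α : Type*} [MeasurableSpace α] {μ : Measure α} {a b c d : α → ℝ} (ha : Integrable a μ)
    (hb : Integrable b μ) (hc : Integrable c μ) (hd : Integrable d μ) :
    ∫ x, (a x - b x - c x + d x) ∂μ = ∫ x, a x ∂μ - ∫ x, b x ∂μ - ∫ x, c x ∂μ + ∫ x, d x ∂μ := by
  have h1 : Integrable (fun x => a x - b x) μ := ha.sub hb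
  have h2 : Integrable (fun x => a x - b x - c x) μ := h1.sub hc
  rw [integral_add h2 hd, integral_sub h1 hc, integral_sub ha hb]

lemma int3 {α : Type*} [MeasurableSpace α] {μ : Measure α} {a b c : α → ℝ} (ha : Integrable a μ)
    (hb : Integrable b μ) (hc : Integrable c μ) :
    ∫ x, (a x - b x + c x) ∂μ = ∫ x, a x ∂μ - ∫ x, b x ∂μ + ∫ x, c x ∂μ := by
  have h1 : Integrable (fun x => a x - b x) μ := ha.sub hb
  rw [integral_add h1 hc, integral_sub ha hb]

lemma sq_formula {g : ℝ → Om → ℝ} (hg : Measurable (Function.uncurry g)) {C : ℝ} (hC : ∀ x ω, |g x ω| ≤ C) :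
    ∫ ω, (∫ x, g x ω ∂lam)^2 ∂PP = ∫ p, ∫ ω, g p.1 ω * g p.2 ω ∂PP ∂(lam.prod lam) := by
  have h1 : ∀ ω, (∫ x, g x ω ∂lam)^2 = ∫ p, g p.1 ω * g p.2 ω ∂(lam.prod lam) := by
    intro ω
    rw [sq, ← integral_prod_mul (μ := lam) (ν := lam) (fun x => g x ω) (fun x => g x ω)]
  simp_rw [h1]
  rw [integral_integral_swap]
  refine Integrable.of_bound (C := C * C) ?_ (Eventually.of_forall fun q => ?_)
  · apply Measurable.aestronglyMeasurable
    exact (meas2 hg (measurable_fst.comp measurable_snd) measurable_fst).mul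
      (meas2 hg (measurable_snd.comp measurable_snd) measurable_fst)
  · simp only [Function.uncurry]
    rw [Real.norm_eq_abs, abs_mul]
    exact mul_le_mul (hC _ _) (hC _ _) (abs_nonneg _) ((abs_nonneg _).trans (hC q.2.1 q.1))

lemma far_identity' {β : ℝ} (hβ : 0 ≤ β) {S j k : ℕ} (hSj : S ≤ j) (hSk : S ≤ k) {x y : ℝ} (h1 : |x - y| ≤ 1)
    (h : Real.exp (-((S:ℝ)-1)) ≤ |x - y|) :
    ∫ ω, aa β j x ω * aa β k y ω ∂PP =
      ∫ ω, (aa β S x ω * u (j - S) (TT β S x ω)) * (aa β S y ω * u (k - S) (TT β S y ω)) ∂PP := by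
  rcases le_total j k with hjk | hjk
  · exact far_identity hβ hSj hjk h1 h
  · have := far_identity hβ hSk hjk (x := y) (y := x) (by rw [abs_sub_comm]; exact h1)
      (by rw [abs_sub_comm]; exact h)
    simp_rw [mul_comm (aa β j x _) (aa β k y _)]
    rw [this]
    congr 1; ext ω; ring

/-- the normalised truncated mass -/
def NN (β : ℝ) (j : ℕ) (ω : Om) : ℝ := ∫ x, Real.sqrt j * aa β j x ω ∂lam

lemma AA_meas (β : ℝ) (j : ℕ) : Measurable (Function.uncurry fun x ω => Real.sqrt j * aa β j x ω) :=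
  (aa_meas β j).const_mul _

lemma AA_bdd {β : ℝ} (hβ : 0 ≤ β) (j : ℕ) (x : ℝ) (ω : Om) :
    |Real.sqrt j * aa β j x ω| ≤ Real.sqrt j * Real.exp (s2 * β + j) := by
  rw [abs_of_nonneg (mul_nonneg (Real.sqrt_nonneg _) (aa_nonneg _ _ _ _))]
  exact mul_le_mul_of_nonneg_left (aa_le hβ _ _ _) (Real.sqrt_nonneg _)

lemma sec_meas_x {g : ℝ → Om → ℝ} (hg : Measurable (Function.uncurry g)) (ω : Om) : Measurable (fun x => g x ω) :=
  hg.comp (measurable_id.prodMk measurable_const)

lemma AA_int_x {β : ℝ} (hβ : 0 ≤ β) (j : ℕ) (ω : Om) : Integrable (fun x => Real.sqrt j * aa β j x ω) lam :=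
  Integrable.of_bound (sec_meas_x (AA_meas β j) ω).aestronglyMeasurable _
    (Eventually.of_forall fun x => AA_bdd hβ j x ω)

lemma int_param_meas {g : ℝ → Om → ℝ} (hg : Measurable (Function.uncurry g)) :
    Measurable (fun ω => ∫ x, g x ω ∂lam) := by
  have : StronglyMeasurable (fun p : Om × ℝ => g p.2 p.1) :=
    (hg.comp measurable_swap).stronglyMeasurable
  exact (StronglyMeasurable.integral_prod_right' (ν := lam) this).measurable

lemma NN_meas (β : ℝ) (j : ℕ) : Measurable (NN β j) := int_param_meas (AA_meas β j)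

lemma NN_bdd {β : ℝ} (hβ : 0 ≤ β) (j : ℕ) (ω : Om) : |NN β j ω| ≤ Real.sqrt j * Real.exp (s2 * β + j) := by
  have := norm_integral_le_of_norm_le_const (μ := lam) (f := fun x => Real.sqrt j * aa β j x ω)
    (C := Real.sqrt j * Real.exp (s2 * β + j)) (Eventually.of_forall fun x => AA_bdd hβ j x ω)
  simpa [NN] using this

lemma NN_nonneg (β : ℝ) (j : ℕ) (ω : Om) : 0 ≤ NN β j ω :=
  integral_nonneg fun _ => mul_nonneg (Real.sqrt_nonneg _) (aa_nonneg _ _ _ _)

/-- conditional expectations at level `S` -/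
def DD (β : ℝ) (S j : ℕ) (x : ℝ) (ω : Om) : ℝ := aa β S x ω * (Real.sqrt j * u (j - S) (TT β S x ω))

lemma DD_meas (β : ℝ) (S j : ℕ) : Measurable (Function.uncurry (DD β S j)) := by
  show Measurable (fun q : ℝ × Om => aa β S q.1 q.2 * (Real.sqrt j * u (j - S) (TT β S q.1 q.2)))
  exact (meas2 (aa_meas β S) measurable_fst measurable_snd).mul
    (((u_meas (j - S)).comp (meas2 (TT_meas β S) measurable_fst measurable_snd)).const_mul _)

lemma DD_bdd {β : ℝ} (hβ : 0 ≤ β) (S j : ℕ) (x : ℝ) (ω : Om) :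
    |DD β S j x ω| ≤ Real.sqrt j * Real.exp (s2 * β + S) := by
  unfold DD
  have h := aa_f_bdd hβ S (f := fun z => Real.sqrt j * u (j - S) z) (C := Real.sqrt j) (fun y _ => by
    rw [abs_of_nonneg (mul_nonneg (Real.sqrt_nonneg _) (u_nonneg _ _))]
    have := u_le_one (j - S) y
    have := Real.sqrt_nonneg (j:ℝ)
    nlinarith) x ω
  linarith

lemma cauchy_bound {β : ℝ} (hβ : 0 ≤ β) {S j k : ℕ} (hS : 3 ≤ S) (hj : S ≤ j) (hk : S ≤ k) :
    ∫ ω, (NN β j ω - NN β k ω)^2 ∂PP ≤
      ∫ ω, ∫ x, (DD β S j x ω - DD β S k x ω)^2 ∂lam ∂PP +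
      (Kb β * (2 * Real.exp 2) * (2 * tl S + ps j) + Kb β * (2 * Real.exp 2) * (2 * tl S + ps k)) := by
  set g : ℝ → Om → ℝ := fun x ω => Real.sqrt j * aa β j x ω - Real.sqrt k * aa β k x ω with hg
  set d : ℝ → Om → ℝ := fun x ω => DD β S j x ω - DD β S k x ω with hd
  have mg : Measurable (Function.uncurry g) := (AA_meas β j).sub (AA_meas β k)
  have md : Measurable (Function.uncurry d) := (DD_meas β S j).sub (DD_meas β S k)
  set Cg := Real.sqrt j * Real.exp (s2 * β + j) + Real.sqrt k * Real.exp (s2 * β + k) with hCg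
  set Cd := Real.sqrt j * Real.exp (s2 * β + S) + Real.sqrt k * Real.exp (s2 * β + S) with hCd
  have bg : ∀ x ω, |g x ω| ≤ Cg := fun x ω => (abs_sub _ _).trans (add_le_add (AA_bdd hβ j x ω) (AA_bdd hβ k x ω))
  have bd : ∀ x ω, |d x ω| ≤ Cd := fun x ω => (abs_sub _ _).trans (add_le_add (DD_bdd hβ S j x ω) (DD_bdd hβ S k x ω))
  have e0 : ∀ ω, NN β j ω - NN β k ω = ∫ x, g x ω ∂lam := by
    intro ω
    unfold NN
    rw [← integral_sub (AA_int_x hβ j ω) (AA_int_x hβ k ω)]
  simp_rw [e0]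
  rw [sq_formula mg bg]
  -- the two functions on the square
  set Φ : ℝ × ℝ → ℝ := fun p => ∫ ω, g p.1 ω * g p.2 ω ∂PP with hΦ
  set Ψ : ℝ × ℝ → ℝ := fun p => ∫ ω, d p.1 ω * d p.2 ω ∂PP with hΨ
  set Ψa : ℝ × ℝ → ℝ := fun p => ∫ ω, |d p.1 ω| * |d p.2 ω| ∂PP with hΨa
  have gen : ∀ {f : ℝ → Om → ℝ} {C : ℝ}, Measurable (Function.uncurry f) → (∀ x ω, |f x ω| ≤ C) →
      Integrable (fun p : ℝ × ℝ => ∫ ω, f p.1 ω * f p.2 ω ∂PP) (lam.prod lam) := by
    intro f C mf bf
    have sm : StronglyMeasurable (fun q : (ℝ × ℝ) × Om => f q.1.1 q.2 * f q.1.2 q.2) :=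
      ((meas2 mf (measurable_fst.comp measurable_fst) measurable_snd).mul
      (meas2 mf (measurable_snd.comp measurable_fst) measurable_snd)).stronglyMeasurable
    refine Integrable.of_bound (C := C * C) (StronglyMeasurable.integral_prod_right' (ν := PP) sm).aestronglyMeasurable
      (Eventually.of_forall fun p => ?_)
    have := norm_integral_le_of_norm_le_const (μ := PP) (f := fun ω => f p.1 ω * f p.2 ω) (C := C * C)
      (Eventually.of_forall fun ω => by
        rw [Real.norm_eq_abs, abs_mul]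
        exact mul_le_mul (bf _ _) (bf _ _) (abs_nonneg _) ((abs_nonneg _).trans (bf p.1 ω)))
    simpa using this
  have iΦ : Integrable Φ (lam.prod lam) := gen mg bg
  have iΨ : Integrable Ψ (lam.prod lam) := gen md bd
  have iΨa : Integrable Ψa (lam.prod lam) := gen (f := fun x ω => |d x ω|) (C := Cd) (by
    show Measurable (fun q : ℝ × Om => |Function.uncurry d q|)
    exact md.abs) (fun x ω => by rw [abs_abs]; exact bd x ω)
  have intA : ∀ (i l : ℕ) (x y : ℝ), Integrable (fun ω => aa β i x ω * aa β l y ω) PP := by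
    intro i l x y
    have := B_mul_integrable hβ i l one_BH one_BH x y
    simpa using this
  have intB : ∀ (i l : ℕ) (x y : ℝ), Integrable (fun ω => (aa β S x ω * u i (TT β S x ω)) * (aa β S y ω * u l (TT β S y ω))) PP :=
    fun i l x y => B_mul_integrable hβ S S (u_BH i) (u_BH l) x y
  have hfar : ∀ p : ℝ × ℝ, |p.1 - p.2| ≤ 1 → p ∉ nr S → Φ p = Ψ p := by
    intro p hp hn
    have hdist : Real.exp (-((S:ℝ)-1)) ≤ |p.1 - p.2| := by
      have h1 : Real.exp (-((S:ℝ)-2)) ≤ |p.1 - p.2| := not_lt.1 hn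
      refine le_trans (Real.exp_le_exp.2 (by linarith)) h1
    have f1 := far_identity' hβ hj hj hp hdist
    have f2 := far_identity' hβ hj hk hp hdist
    have f3 := far_identity' hβ hk hj hp hdist
    have f4 := far_identity' hβ hk hk hp hdist
    have eΦ : Φ p = (Real.sqrt j * Real.sqrt j) * (∫ ω, aa β j p.1 ω * aa β j p.2 ω ∂PP)
        - (Real.sqrt j * Real.sqrt k) * (∫ ω, aa β j p.1 ω * aa β k p.2 ω ∂PP)
        - (Real.sqrt k * Real.sqrt j) * (∫ ω, aa β k p.1 ω * aa β j p.2 ω ∂PP)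
        + (Real.sqrt k * Real.sqrt k) * (∫ ω, aa β k p.1 ω * aa β k p.2 ω ∂PP) := by
      simp only [hΦ, hg]
      rw [← integral_const_mul, ← integral_const_mul, ← integral_const_mul, ← integral_const_mul]
      rw [← int4 ((intA j j p.1 p.2).const_mul _) ((intA j k p.1 p.2).const_mul _)
        ((intA k j p.1 p.2).const_mul _) ((intA k k p.1 p.2).const_mul _)]
      congr 1; ext ω; ring
    have eΨ : Ψ p = (Real.sqrt j * Real.sqrt j) * (∫ ω, (aa β S p.1 ω * u (j - S) (TT β S p.1 ω)) * (aa β S p.2 ω * u (j - S) (TT β S p.2 ω)) ∂PP)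
        - (Real.sqrt j * Real.sqrt k) * (∫ ω, (aa β S p.1 ω * u (j - S) (TT β S p.1 ω)) * (aa β S p.2 ω * u (k - S) (TT β S p.2 ω)) ∂PP)
        - (Real.sqrt k * Real.sqrt j) * (∫ ω, (aa β S p.1 ω * u (k - S) (TT β S p.1 ω)) * (aa β S p.2 ω * u (j - S) (TT β S p.2 ω)) ∂PP)
        + (Real.sqrt k * Real.sqrt k) * (∫ ω, (aa β S p.1 ω * u (k - S) (TT β S p.1 ω)) * (aa β S p.2 ω * u (k - S) (TT β S p.2 ω)) ∂PP) := by
      simp only [hΨ, hd, DD]
      rw [← integral_const_mul, ← integral_const_mul, ← integral_const_mul, ← integral_const_mul]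
      rw [← int4 ((intB _ _ p.1 p.2).const_mul _) ((intB _ _ p.1 p.2).const_mul _)
        ((intB _ _ p.1 p.2).const_mul _) ((intB _ _ p.1 p.2).const_mul _)]
      congr 1; ext ω; ring
    rw [eΦ, eΨ, f1, f2, f3, f4]
  have hnear : ∀ p : ℝ × ℝ, Φ p ≤ ph β j p + ph β k p := by
    intro p
    have e1 : ph β j p + ph β k p = ∫ ω, ((j:ℝ) * (aa β j p.1 ω * aa β j p.2 ω) + (k:ℝ) * (aa β k p.1 ω * aa β k p.2 ω)) ∂PP := by
      unfold ph
      rw [← integral_const_mul, ← integral_const_mul, ← integral_add ((intA j j _ _).const_mul _) ((intA k k _ _).const_mul _)]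
    rw [e1]
    apply integral_mono
    · refine Integrable.of_bound (C := Cg * Cg) ((meas_sec mg p.1).mul (meas_sec mg p.2)).aestronglyMeasurable
        (Eventually.of_forall fun ω => ?_)
      rw [Real.norm_eq_abs, abs_mul]
      exact mul_le_mul (bg _ _) (bg _ _) (abs_nonneg _) ((abs_nonneg _).trans (bg p.1 ω))
    · exact ((intA j j _ _).const_mul _).add ((intA k k _ _).const_mul _)
    · intro ω
      simp only [hg]
      have a1 := aa_nonneg β j p.1 ω
      have a2 := aa_nonneg β j p.2 ω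
      have a3 := aa_nonneg β k p.1 ω
      have a4 := aa_nonneg β k p.2 ω
      have r1 := Real.sqrt_nonneg (j:ℝ)
      have r2 := Real.sqrt_nonneg (k:ℝ)
      have q1 : Real.sqrt j * Real.sqrt j = j := Real.mul_self_sqrt j.cast_nonneg
      have q2 : Real.sqrt k * Real.sqrt k = k := Real.mul_self_sqrt k.cast_nonneg
      have p1 : 0 ≤ Real.sqrt j * aa β j p.1 ω * (Real.sqrt k * aa β k p.2 ω) := by positivity
      have p2 : 0 ≤ Real.sqrt k * aa β k p.1 ω * (Real.sqrt j * aa β j p.2 ω) := by positivity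
      calc (Real.sqrt j * aa β j p.1 ω - Real.sqrt k * aa β k p.1 ω) * (Real.sqrt j * aa β j p.2 ω - Real.sqrt k * aa β k p.2 ω)
          = (Real.sqrt j * Real.sqrt j) * (aa β j p.1 ω * aa β j p.2 ω) + (Real.sqrt k * Real.sqrt k) * (aa β k p.1 ω * aa β k p.2 ω)
            - Real.sqrt j * aa β j p.1 ω * (Real.sqrt k * aa β k p.2 ω) - Real.sqrt k * aa β k p.1 ω * (Real.sqrt j * aa β j p.2 ω) := by ring
        _ ≤ _ := by rw [q1, q2]; linarith
  rw [← integral_add_compl (nr_meas S) iΦ]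
  have iph : ∀ i : ℕ, Integrable (ph β i) (lam.prod lam) := fun i =>
    Integrable.of_bound (ph_meas β i).aestronglyMeasurable _ (Eventually.of_forall fun p => ph_bdd hβ i p)
  have b1 : ∫ p in nr S, Φ p ∂(lam.prod lam) ≤
      Kb β * (2 * Real.exp 2) * (2 * tl S + ps j) + Kb β * (2 * Real.exp 2) * (2 * tl S + ps k) := by
    refine le_trans ?_ (add_le_add (near_bound hβ hS hj) (near_bound hβ hS hk))
    rw [← integral_add (iph j).integrableOn (iph k).integrableOn]
    exact integral_mono iΦ.integrableOn ((iph j).add (iph k)).integrableOn (fun p => hnear p)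
  have b2 : ∫ p in (nr S)ᶜ, Φ p ∂(lam.prod lam) ≤ ∫ ω, ∫ x, (d x ω)^2 ∂lam ∂PP := by
    have c1 : ∫ p in (nr S)ᶜ, Φ p ∂(lam.prod lam) ≤ ∫ p, Ψa p ∂(lam.prod lam) := by
      rw [← integral_indicator (nr_meas S).compl]
      apply integral_mono_ae (iΦ.indicator (nr_meas S).compl) iΨa
      filter_upwards [lam2_mem] with p hp
      have hΨa0 : 0 ≤ Ψa p := integral_nonneg fun ω => mul_nonneg (abs_nonneg _) (abs_nonneg _)
      by_cases hn : p ∈ nr S
      · rw [indicator_of_notMem (by simpa using hn)]; exact hΨa0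
      · rw [indicator_of_mem (show p ∈ (nr S)ᶜ from hn), hfar p (by
          rw [abs_le]
          exact ⟨by linarith [hp.1.1, hp.2.2], by linarith [hp.1.2, hp.2.1]⟩) hn]
        simp only [hΨ, hΨa]
        refine (le_abs_self _).trans ((abs_integral_le_integral_abs).trans (le_of_eq ?_))
        congr 1; ext ω; rw [abs_mul]
    refine c1.trans ?_
    have mda : Measurable (Function.uncurry fun x ω => |d x ω|) := by
      show Measurable (fun q : ℝ × Om => |Function.uncurry d q|)
      exact md.abs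
    have c2 := sq_formula (g := fun x ω => |d x ω|) (C := Cd) mda (fun x ω => by rw [abs_abs]; exact bd x ω)
    have c3 : ∫ p, Ψa p ∂(lam.prod lam) = ∫ ω, (∫ x, |d x ω| ∂lam)^2 ∂PP := c2.symm
    rw [c3]
    have md2 : Measurable (Function.uncurry fun x ω => (d x ω)^2) := by
      show Measurable (fun q : ℝ × Om => (Function.uncurry d q)^2)
      exact md.pow_const 2
    apply integral_mono
    · refine Integrable.of_bound (C := Cd^2) ((int_param_meas mda).pow_const 2).aestronglyMeasurable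
        (Eventually.of_forall fun ω => ?_)
      have := norm_integral_le_of_norm_le_const (μ := lam) (f := fun x => |d x ω|) (C := Cd)
        (Eventually.of_forall fun x => by rw [Real.norm_eq_abs, abs_abs]; exact bd x ω)
      rw [norm_pow]
      have h2 : ‖∫ x, |d x ω| ∂lam‖ ≤ Cd := by simpa using this
      gcongr
    · refine Integrable.of_bound (C := Cd^2) (int_param_meas md2).aestronglyMeasurable
        (Eventually.of_forall fun ω => ?_)
      have := norm_integral_le_of_norm_le_const (μ := lam) (f := fun x => (d x ω)^2) (C := Cd^2)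
        (Eventually.of_forall fun x => by
          rw [norm_pow, Real.norm_eq_abs]
          have := bd x ω
          gcongr)
      simpa using this
    · intro ω
      simp only
      -- Cauchy Schwarz on a probability space
      have i1 : Integrable (fun x => |d x ω|) lam :=
        Integrable.of_bound (sec_meas_x mda ω).aestronglyMeasurable Cd
          (Eventually.of_forall fun x => by rw [Real.norm_eq_abs, abs_abs]; exact bd x ω)
      have i2 : Integrable (fun x => (d x ω)^2) lam :=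
        Integrable.of_bound (sec_meas_x md2 ω).aestronglyMeasurable (Cd^2)
          (Eventually.of_forall fun x => by
          rw [norm_pow, Real.norm_eq_abs]
          have := bd x ω
          gcongr)
      set m := ∫ x, |d x ω| ∂lam with hm
      have h3 : 0 ≤ ∫ x, (|d x ω| - m)^2 ∂lam := integral_nonneg fun x => sq_nonneg _
      have h4 : ∫ x, (|d x ω| - m)^2 ∂lam = ∫ x, (d x ω)^2 ∂lam - 2 * m * m + m^2 := by
        have e : ∀ x, (|d x ω| - m)^2 = ((d x ω)^2 - (2 * m) * |d x ω|) + m^2 := by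
          intro x; rw [sub_sq, sq_abs]; ring
        simp_rw [e]
        rw [int3 i2 (i1.const_mul _) (integrable_const _), integral_const_mul, ← hm]
        simp
      nlinarith
  linarith

end

end Pool.Agent.H968
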