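import Mathlib
import Pool.Agent.H968.SHd

open MeasureTheory ProbabilityTheory Filter Topology Set
open scoped ENNReal NNReal

namespace Pool.Agent.H968

noncomputable section

lemma sqrt_u_shift (S : ℕ) {z : ℝ} (hz : 0 ≤ z) :
    Tendsto (fun j : ℕ => Real.sqrt j * u (j - S) z) atTop (𝓝 (R z)) := by
  have h1 : Tendsto (fun j : ℕ => Real.sqrt (1 + S / ((j+1 : ℕ) : ℝ))) atTop (𝓝 (Real.sqrt (1 + 0))) := by
    apply (Real.continuous_sqrt.tendsto _).comp
    apply Tendsto.const_add
    have : Tendsto (fun j : ℕ => ((j+1 : ℕ) : ℝ)) atTop atTop :=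
      tendsto_natCast_atTop_atTop.comp (tendsto_add_atTop_nat 1)
    exact this.const_div_atTop _
  rw [add_zero, Real.sqrt_one] at h1
  have h2 := (tendsto_add_atTop_iff_nat 1).2 (sqrt_u_tendsto hz)
  have h3 := h1.mul h2
  rw [one_mul] at h3
  rw [← tendsto_add_atTop_iff_nat (S+1)]
  refine h3.congr fun j => ?_
  have e1 : j + (S+1) - S = j + 1 := by omega
  rw [e1, ← mul_assoc, ← Real.sqrt_mul (by positivity)]
  congr 2
  have : ((j+1 : ℕ) : ℝ) ≠ 0 := by positivity
  field_simp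
  push_cast; ring

lemma sqrt_u_bd {S j : ℕ} (hj : S ≤ j) {z : ℝ} (hz : 0 ≤ z) :
    Real.sqrt j * u (j - S) z ≤ (Real.sqrt (2*S) + 4) * (1+z) := by
  have hu0 := u_nonneg (j-S) z
  rcases le_or_gt (2*S) j with h | h
  · rcases Nat.eq_zero_or_pos (j - S) with h0 | h0
    · have : j = 0 := by omega
      subst this
      simp; positivity
    · have h1 := u_le_lin (n := j - S) (by omega) hz
      have hpos : (0:ℝ) < ((j - S : ℕ):ℝ) := by exact_mod_cast h0
      have h2 : Real.sqrt j * (Real.sqrt ((j - S : ℕ):ℝ))⁻¹ ≤ 2 := by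
        rw [← div_eq_mul_inv, div_le_iff₀ (Real.sqrt_pos.2 hpos)]
        have h3 : (j:ℝ) ≤ 4 * ((j - S : ℕ):ℝ) := by
          have : j ≤ 4 * (j - S) := by omega
          exact_mod_cast this
        have h4 : Real.sqrt (4 * ((j - S : ℕ):ℝ)) = 2 * Real.sqrt ((j - S : ℕ):ℝ) := by
          rw [Real.sqrt_mul (by norm_num), show (4:ℝ) = 2^2 by norm_num, Real.sqrt_sq (by norm_num)]
        rw [← h4]; exact Real.sqrt_le_sqrt h3
      have h5 : Real.sqrt j * u (j - S) z ≤ Real.sqrt j * (kap * (z+2) * (Real.sqrt ((j - S : ℕ):ℝ))⁻¹) := by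
        gcongr
      refine h5.trans ?_
      have h6 : Real.sqrt j * (kap * (z+2) * (Real.sqrt ((j - S : ℕ):ℝ))⁻¹) =
          (kap * (z+2)) * (Real.sqrt j * (Real.sqrt ((j - S : ℕ):ℝ))⁻¹) := by ring
      rw [h6]
      have h7 : kap * (z+2) ≤ 2 * (1+z) := by nlinarith [kap_le_one, kap_pos]
      have h8 : 0 ≤ Real.sqrt (2*S) := Real.sqrt_nonneg _
      calc (kap * (z+2)) * (Real.sqrt j * (Real.sqrt ((j - S : ℕ):ℝ))⁻¹) ≤ (2 * (1+z)) * 2 := by
            apply mul_le_mul h7 h2 (by positivity) (by positivity)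
        _ ≤ _ := by nlinarith
  · have h1 : Real.sqrt j ≤ Real.sqrt (2*S) := by
      apply Real.sqrt_le_sqrt; exact_mod_cast h.le
    have h2 := u_le_one (j-S) z
    have h8 : 0 ≤ Real.sqrt (2*S) := Real.sqrt_nonneg _
    have h9 : 0 ≤ Real.sqrt j := Real.sqrt_nonneg _
    calc Real.sqrt j * u (j - S) z ≤ Real.sqrt (2*S) * 1 := by gcongr
      _ ≤ _ := by nlinarith

lemma R_bd {z : ℝ} (hz : 0 ≤ z) (S : ℕ) : |R z| ≤ (Real.sqrt (2*S) + 4) * (1+z) := by
  have h1 := R_le hz
  have h2 := R_ge hz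
  have hk := kap_pos
  have hk1 := kap_le_one
  have h8 : 0 ≤ Real.sqrt (2*S) := Real.sqrt_nonneg _
  rw [abs_of_nonneg (by nlinarith)]
  nlinarith

/-- linear growth is absorbed by the truncated density -/
lemma aa_lin_bdd {β : ℝ} (hβ : 0 ≤ β) (S : ℕ) {f : ℝ → ℝ} {C : ℝ} (hC : ∀ y, 0 ≤ y → |f y| ≤ C * (1+y)) (x : ℝ) (ω : Om) :
    |aa β S x ω * f (TT β S x ω)| ≤ Real.exp (s2 * β + S) * C := by
  have hC0 : 0 ≤ C := by have := (abs_nonneg _).trans (hC 0 le_rfl); linarith
  rcases bb_01 β S x ω with h | h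
  · have : aa β S x ω = 0 := by unfold aa; rw [h, mul_zero]
    rw [this, zero_mul]; simp; positivity
  · have hT := TT_nonneg_of_bb hβ (k := S) (x := x) (ω := ω) (by rw [h]; norm_num)
    have e : aa β S x ω = Real.exp (s2 * β + S) * Real.exp (-(s2 * TT β S x ω)) := by
      unfold aa; rw [h, mul_one, ww_eq_T β]
    rw [abs_mul, e, abs_of_pos (by positivity)]
    have h1 := hC _ hT
    have h2 : (1 + TT β S x ω) * Real.exp (-(s2 * TT β S x ω)) ≤ 1 := by
      have h3 : 1 + TT β S x ω ≤ Real.exp (TT β S x ω) := by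
        have := Real.add_one_le_exp (TT β S x ω); linarith
      have h4 : Real.exp (-(s2 * TT β S x ω)) ≤ Real.exp (-(TT β S x ω)) := by
        apply Real.exp_le_exp.2
        nlinarith [s2_gt]
      calc (1 + TT β S x ω) * Real.exp (-(s2 * TT β S x ω)) ≤ Real.exp (TT β S x ω) * Real.exp (-(TT β S x ω)) := by gcongr
        _ = 1 := by rw [← Real.exp_add]; simp
    calc Real.exp (s2 * β + S) * Real.exp (-(s2 * TT β S x ω)) * |f (TT β S x ω)|
        ≤ Real.exp (s2 * β + S) * Real.exp (-(s2 * TT β S x ω)) * (C * (1 + TT β S x ω)) := by gcongr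
      _ = Real.exp (s2 * β + S) * (C * ((1 + TT β S x ω) * Real.exp (-(s2 * TT β S x ω)))) := by ring
      _ ≤ Real.exp (s2 * β + S) * (C * 1) := by gcongr
      _ = _ := by ring

/-- the limit of the conditional expectations -/
def DI (β : ℝ) (S : ℕ) (x : ℝ) (ω : Om) : ℝ := aa β S x ω * R (TT β S x ω)

lemma DI_meas (β : ℝ) (S : ℕ) : Measurable (Function.uncurry (DI β S)) := by
  show Measurable (fun q : ℝ × Om => aa β S q.1 q.2 * (R (TT β S q.1 q.2)))
  exact (meas2 (aa_meas β S) measurable_fst measurable_snd).mul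
    (R_meas.comp (meas2 (TT_meas β S) measurable_fst measurable_snd))

lemma DD_ptwise {β : ℝ} (hβ : 0 ≤ β) (S : ℕ) (x : ℝ) (ω : Om) :
    Tendsto (fun j => DD β S j x ω) atTop (𝓝 (DI β S x ω)) := by
  unfold DD DI
  rcases bb_01 β S x ω with h | h
  · have : aa β S x ω = 0 := by unfold aa; rw [h, mul_zero]
    simp [this]
  · have hT := TT_nonneg_of_bb hβ (k := S) (x := x) (ω := ω) (by rw [h]; norm_num)
    exact (sqrt_u_shift S hT).const_mul _

lemma DD_L2 {β : ℝ} (hβ : 0 ≤ β) (S : ℕ) :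
    Tendsto (fun j => ∫ ω, ∫ x, (DD β S j x ω - DI β S x ω)^2 ∂lam ∂PP) atTop (𝓝 0) := by
  set B := 2 * (Real.exp (s2 * β + S) * (Real.sqrt (2*S) + 4)) with hB
  have hbd : ∀ j, S ≤ j → ∀ x ω, ‖(DD β S j x ω - DI β S x ω)^2‖ ≤ B^2 := by
    intro j hj x ω
    have h1 : |DD β S j x ω| ≤ Real.exp (s2 * β + S) * (Real.sqrt (2*S) + 4) := by
      unfold DD
      apply aa_lin_bdd hβ S (f := fun z => Real.sqrt j * u (j - S) z)
      intro y hy
      rw [abs_of_nonneg (mul_nonneg (Real.sqrt_nonneg _) (u_nonneg _ _))]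
      exact sqrt_u_bd hj hy
    have h2 : |DI β S x ω| ≤ Real.exp (s2 * β + S) * (Real.sqrt (2*S) + 4) := by
      unfold DI
      apply aa_lin_bdd hβ S (f := R)
      intro y hy; exact R_bd hy S
    rw [norm_pow, Real.norm_eq_abs]
    have h3 : |DD β S j x ω - DI β S x ω| ≤ B := by
      refine (abs_sub _ _).trans ?_
      rw [hB]; linarith
    gcongr
  have m1 : ∀ j, Measurable (Function.uncurry fun x ω => (DD β S j x ω - DI β S x ω)^2) := by
    intro j
    show Measurable (fun q : ℝ × Om => (Function.uncurry (DD β S j) q - Function.uncurry (DI β S) q)^2)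
    exact ((DD_meas β S j).sub (DI_meas β S)).pow_const 2
  have hin : ∀ ω, Tendsto (fun j => ∫ x, (DD β S j x ω - DI β S x ω)^2 ∂lam) atTop (𝓝 0) := by
    intro ω
    have : Tendsto (fun j => ∫ x, (DD β S j x ω - DI β S x ω)^2 ∂lam) atTop (𝓝 (∫ x, (0:ℝ) ∂lam)) := by
      apply tendsto_integral_filter_of_dominated_convergence (fun _ => B^2)
      · exact Eventually.of_forall fun j => (sec_meas_x (m1 j) ω).aestronglyMeasurable
      · filter_upwards [eventually_ge_atTop S] with j hj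
        exact Eventually.of_forall fun x => hbd j hj x ω
      · exact integrable_const _
      · refine Eventually.of_forall fun x => ?_
        have := (DD_ptwise hβ S x ω).sub_const (DI β S x ω)
        rw [sub_self] at this
        have := this.pow 2
        simpa using this
    simpa using this
  have : Tendsto (fun j => ∫ ω, ∫ x, (DD β S j x ω - DI β S x ω)^2 ∂lam ∂PP) atTop (𝓝 (∫ ω : Om, (0:ℝ) ∂PP)) := by
    apply tendsto_integral_filter_of_dominated_convergence (fun _ => B^2)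
    · exact Eventually.of_forall fun j => (int_param_meas (m1 j)).aestronglyMeasurable
    · filter_upwards [eventually_ge_atTop S] with j hj
      refine Eventually.of_forall fun ω => ?_
      have := norm_integral_le_of_norm_le_const (μ := lam) (f := fun x => (DD β S j x ω - DI β S x ω)^2) (C := B^2)
        (Eventually.of_forall fun x => hbd j hj x ω)
      simpa using this
    · exact integrable_const _
    · exact Eventually.of_forall hin
  simpa using this

lemma DD_diff {β : ℝ} (hβ : 0 ≤ β) {S j k : ℕ} :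
    ∫ ω, ∫ x, (DD β S j x ω - DD β S k x ω)^2 ∂lam ∂PP ≤
      2 * ∫ ω, ∫ x, (DD β S j x ω - DI β S x ω)^2 ∂lam ∂PP + 2 * ∫ ω, ∫ x, (DD β S k x ω - DI β S x ω)^2 ∂lam ∂PP := by
  have hDI : ∀ x ω, |DI β S x ω| ≤ Real.exp (s2 * β + S) * (Real.sqrt (2*S) + 4) := by
    intro x ω
    unfold DI
    apply aa_lin_bdd hβ S (f := R)
    intro y hy; exact R_bd hy S
  have m1 : ∀ j, Measurable (Function.uncurry fun x ω => (DD β S j x ω - DI β S x ω)^2) := by
    intro j
    show Measurable (fun q : ℝ × Om => (Function.uncurry (DD β S j) q - Function.uncurry (DI β S) q)^2)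
    exact ((DD_meas β S j).sub (DI_meas β S)).pow_const 2
  have m2 : Measurable (Function.uncurry fun x ω => (DD β S j x ω - DD β S k x ω)^2) := by
    show Measurable (fun q : ℝ × Om => (Function.uncurry (DD β S j) q - Function.uncurry (DD β S k) q)^2)
    exact ((DD_meas β S j).sub (DD_meas β S k)).pow_const 2
  have gen : ∀ {f : ℝ → Om → ℝ} {C : ℝ}, Measurable (Function.uncurry f) → (∀ x ω, |f x ω| ≤ C) →
      (∀ ω, Integrable (fun x => f x ω) lam) ∧ Integrable (fun ω => ∫ x, f x ω ∂lam) PP := by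
    intro f C mf bf
    refine ⟨fun ω => Integrable.of_bound (sec_meas_x mf ω).aestronglyMeasurable C (Eventually.of_forall fun x => bf x ω), ?_⟩
    refine Integrable.of_bound (int_param_meas mf).aestronglyMeasurable C (Eventually.of_forall fun ω => ?_)
    have := norm_integral_le_of_norm_le_const (μ := lam) (f := fun x => f x ω) (C := C)
        (Eventually.of_forall fun x => bf x ω)
    simpa using this
  have bsq : ∀ {a b A B : ℝ}, |a| ≤ A → |b| ≤ B → |(a-b)^2| ≤ (A+B)^2 := by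
    intro a b A B ha hb
    rw [abs_pow]
    have : |a - b| ≤ A + B := (abs_sub _ _).trans (add_le_add ha hb)
    gcongr
  have g1 := gen (m1 j) (fun x ω => bsq (DD_bdd hβ S j x ω) (hDI x ω))
  have g2 := gen (m1 k) (fun x ω => bsq (DD_bdd hβ S k x ω) (hDI x ω))
  have g3 := gen m2 (fun x ω => bsq (DD_bdd hβ S j x ω) (DD_bdd hβ S k x ω))
  rw [← integral_const_mul, ← integral_const_mul, ← integral_add (g1.2.const_mul _) (g2.2.const_mul _)]
  apply integral_mono g3.2 ((g1.2.const_mul _).add (g2.2.const_mul _))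
  intro ω
  simp only [Pi.add_apply]
  rw [← integral_const_mul, ← integral_const_mul, ← integral_add ((g1.1 ω).const_mul _) ((g2.1 ω).const_mul _)]
  apply integral_mono (g3.1 ω) (((g1.1 ω).const_mul _).add ((g2.1 ω).const_mul _))
  intro x
  simp only [Pi.add_apply]
  nlinarith [sq_nonneg ((DD β S j x ω - DI β S x ω) + (DD β S k x ω - DI β S x ω))]

/-- the truncated normalised masses form a Cauchy sequence in `L²` -/
theorem NN_cauchy {β : ℝ} (hβ : 0 ≤ β) {ε : ℝ} (hε : 0 < ε) :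
    ∃ J : ℕ, ∀ j k, J ≤ j → J ≤ k → ∫ ω, (NN β j ω - NN β k ω)^2 ∂PP ≤ ε := by
  have hK := Kb_nonneg hβ
  set c := Kb β * (2 * Real.exp 2) with hc
  have hc0 : 0 ≤ c := by positivity
  have t1 : Tendsto (fun S => c * (4 * tl S)) atTop (𝓝 (c * (4 * 0))) := (tl_tendsto.const_mul 4).const_mul c
  rw [mul_zero, mul_zero] at t1
  obtain ⟨S, hS3, hS⟩ := ((eventually_ge_atTop 3).and (t1.eventually (gt_mem_nhds (show 0 < ε/3 by linarith)))).exists
  have t2 : Tendsto (fun j => c * ps j) atTop (𝓝 (c * 0)) := ps_tendsto.const_mul c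
  rw [mul_zero] at t2
  have e1 := t2.eventually (gt_mem_nhds (show 0 < ε/6 by linarith))
  have e2 := (DD_L2 hβ S).eventually (gt_mem_nhds (show 0 < ε/12 by linarith))
  obtain ⟨J, hJ⟩ := eventually_atTop.1 ((e1.and e2).and (eventually_ge_atTop S))
  refine ⟨J, fun j k hj hk => ?_⟩
  obtain ⟨⟨a1, a2⟩, a3⟩ := hJ j hj
  obtain ⟨⟨b1, b2⟩, b3⟩ := hJ k hk
  have h1 := cauchy_bound hβ hS3 a3 b3
  have h2 := DD_diff hβ (S := S) (j := j) (k := k)
  rw [← hc] at h1
  have e3 : c * (2 * tl S + ps j) + c * (2 * tl S + ps k) = c * (4 * tl S) + c * ps j + c * ps k := by ring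
  rw [e3] at h1
  linarith

lemma NN_mean {β : ℝ} (hβ : 0 ≤ β) (j : ℕ) : ∫ ω, NN β j ω ∂PP = Real.sqrt j * u j β := by
  unfold NN
  rw [integral_integral_swap]
  · have h : ∀ x, ∫ ω, Real.sqrt j * aa β j x ω ∂PP = Real.sqrt j * u j β := by
      intro x
      rw [integral_const_mul]
      congr 1
      have := expect_aa hβ one_BH x j
      simp only [mul_one] at this
      exact this
    simp_rw [h]
    simp
  · refine Integrable.of_bound (C := Real.sqrt j * Real.exp (s2 * β + j)) ?_ (Eventually.of_forall fun q => AA_bdd hβ j q.2 q.1)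
    exact (meas2 (AA_meas β j) measurable_snd measurable_fst).aestronglyMeasurable

lemma NN_mean_tendsto {β : ℝ} (hβ : 0 ≤ β) : Tendsto (fun j => ∫ ω, NN β j ω ∂PP) atTop (𝓝 (R β)) := by
  simp_rw [NN_mean hβ]
  exact sqrt_u_tendsto hβ

end

end Pool.Agent.H968
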