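import Mathlib
import Pool.Agent.H968.SHe

open MeasureTheory ProbabilityTheory Filter Topology Set
open scoped ENNReal NNReal

namespace Pool.Agent.H968

noncomputable section

section
variable {Ω S : Type*} [MeasurableSpace Ω] {P : Measure Ω} [IsProbabilityMeasure P]
  {Y : S → Ω → ℝ} {C : S → S → ℝ}

omit [IsProbabilityMeasure P] in
lemma GP.charF (h : GP P Y C) {ι : Type*} [Fintype ι] (s : ι → S) (a : ι → ℝ) :
    ∫ ω, Complex.exp (((∑ i, a i * Y (s i) ω : ℝ) : ℂ) * Complex.I) ∂P =
      Complex.exp (-(((∑ i, ∑ j, a i * a j * C (s i) (s j) : ℝ) : ℂ)) / 2) := by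
  have e := Fintype.equivFin ι
  have h1 := h.char (Fintype.card ι) (s ∘ e.symm) (a ∘ e.symm)
  simp only [Function.comp] at h1
  have e1 : ∀ ω, ∑ i, a (e.symm i) * Y (s (e.symm i)) ω = ∑ i, a i * Y (s i) ω :=
    fun ω => e.symm.sum_comp (fun i => a i * Y (s i) ω)
  have e2 : ∑ i, ∑ j, a (e.symm i) * a (e.symm j) * C (s (e.symm i)) (s (e.symm j)) =
      ∑ i, ∑ j, a i * a j * C (s i) (s j) := by
    rw [← e.symm.sum_comp (fun i => ∑ j, a i * a j * C (s i) (s j))]
    apply Finset.sum_congr rfl; intro i _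
    exact e.symm.sum_comp (fun j => a (e.symm i) * a j * C (s (e.symm i)) (s j))
  simp_rw [e1] at h1
  rw [h1, e2]

omit [IsProbabilityMeasure P] in
/-- linear combinations of two values -/
lemma GP.lin2 (h : GP P Y C) {T : Type*} (a b : T → S) (α γ : T → ℝ) :
    GP P (fun t ω => α t * Y (a t) ω + γ t * Y (b t) ω)
      (fun t t' => α t * α t' * C (a t) (a t') + α t * γ t' * C (a t) (b t') + γ t * α t' * C (b t) (a t')
        + γ t * γ t' * C (b t) (b t')) := by
  constructor
  · intro t; exact ((h.meas _).const_mul _).add ((h.meas _).const_mul _)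
  · intro m s c
    have h1 := h.charF (ι := Fin m ⊕ Fin m) (Sum.elim (a ∘ s) (b ∘ s))
      (Sum.elim (fun i => c i * α (s i)) (fun i => c i * γ (s i)))
    simp only [Fintype.sum_sum_type, Sum.elim_inl, Sum.elim_inr, Function.comp] at h1
    have e1 : ∀ ω, ∑ i, c i * (α (s i) * Y (a (s i)) ω + γ (s i) * Y (b (s i)) ω) =
        ∑ i, c i * α (s i) * Y (a (s i)) ω + ∑ i, c i * γ (s i) * Y (b (s i)) ω := by
      intro ω
      rw [← Finset.sum_add_distrib]
      apply Finset.sum_congr rfl; intro i _; ring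
    simp_rw [e1]
    rw [h1]
    congr 4
    rw [← Finset.sum_add_distrib]
    apply Finset.sum_congr rfl; intro i _
    rw [← Finset.sum_add_distrib, ← Finset.sum_add_distrib, ← Finset.sum_add_distrib]
    apply Finset.sum_congr rfl; intro j _
    ring

/-- splitting off an uncorrelated coordinate -/
lemma GP.split {T : Type*} {Z : Option T → Ω → ℝ} {K : Option T → Option T → ℝ} (h : GP P Z K) {r : ℕ}
    (t : Fin r → T) (h0 : ∀ i, K none (some (t i)) = 0) (h0' : ∀ i, K (some (t i)) none = 0)
    {G : ℝ → (Fin r → ℝ) → ℝ≥0∞} (hG : Measurable (Function.uncurry G)) :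
    ∫⁻ ω, G (Z none ω) (fun i => Z (some (t i)) ω) ∂P =
      ∫⁻ ω₁, ∫⁻ ω₂, G (Z none ω₁) (fun i => Z (some (t i)) ω₂) ∂P ∂P := by
  have hgl := glue_GP h {none}
  set s : Fin (r+1) → Option T := Fin.cons none (fun i => some (t i)) with hs
  have hmap := h.map_vec hgl s (by
    intro i j
    unfold glueC
    refine Fin.cases ?_ (fun i => ?_) i <;> refine Fin.cases ?_ (fun j => ?_) j
    · simp [hs]
    · simp [hs, h0]
    · simp [hs, h0']
    · simp [hs])
  set F : (Fin (r+1) → ℝ) → ℝ≥0∞ := fun v => G (v 0) (fun i => v i.succ) with hF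
  have mF : Measurable F := by
    have : Measurable (fun v : Fin (r+1) → ℝ => (v 0, fun i : Fin r => v i.succ)) :=
      (measurable_pi_apply 0).prodMk (measurable_pi_lambda _ fun i => measurable_pi_apply _)
    exact hG.comp this
  have m1 : Measurable (fun (ω : Ω) (i : Fin (r+1)) => Z (s i) ω) :=
    measurable_pi_lambda _ fun i => h.meas _
  have m2 : Measurable (fun (ω : Ω × Ω) (i : Fin (r+1)) => glueY {none} Z (s i) ω) :=
    measurable_pi_lambda _ fun i => hgl.meas _
  have e1 : ∫⁻ ω, G (Z none ω) (fun i => Z (some (t i)) ω) ∂P =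
      ∫⁻ v, F v ∂(P.map (fun (ω : Ω) (i : Fin (r+1)) => Z (s i) ω)) := by
    rw [lintegral_map mF m1]
    simp [hF, hs]
  rw [e1, hmap, lintegral_map mF m2]
  have e2 : ∀ p : Ω × Ω, F (fun i => glueY {none} Z (s i) p) =
      G (Z none p.1) (fun i => Z (some (t i)) p.2) := by
    intro p
    simp only [hF, glueY, hs]
    simp
  simp_rw [e2]
  rw [lintegral_prod]
  apply Measurable.aemeasurable
  have : Measurable (fun p : Ω × Ω => (Z none p.1, fun i => Z (some (t i)) p.2)) :=
    ((h.meas _).comp measurable_fst).prodMk (measurable_pi_lambda _ fun i => (h.meas _).comp measurable_snd)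
  exact hG.comp this

end

/-- odd Gaussian distribution function, general variance -/
def Fg (v : ℝ≥0) (z : ℝ) : ℝ := ∫ s, Real.sign (z + s) ∂(gaussianReal 0 v)

lemma Fg_mono (v : ℝ≥0) : Monotone (Fg v) := by
  intro x y h
  unfold Fg
  exact integral_mono (integrable_sign _ _) (integrable_sign _ _)
    fun s => sign_mono (by linarith)

lemma Fg_le_one (v : ℝ≥0) (z : ℝ) : Fg v z ≤ 1 := by
  unfold Fg
  have := norm_integral_le_of_norm_le_const (μ := gaussianReal 0 v)
    (f := fun s => Real.sign (z + s)) (C := 1) (Eventually.of_forall fun s => by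
      simpa using abs_sign_le _)
  refine (le_abs_self _).trans ?_
  simpa using this

lemma Fg_abs (v : ℝ≥0) (z : ℝ) : |Fg v z| ≤ 1 := by
  unfold Fg
  have := norm_integral_le_of_norm_le_const (μ := gaussianReal 0 v)
    (f := fun s => Real.sign (z + s)) (C := 1) (Eventually.of_forall fun s => by
      simpa using abs_sign_le _)
  simpa using this

lemma sign_neg' (x : ℝ) : Real.sign (-x) = - Real.sign x := by
  rcases lt_trichotomy x 0 with hx | hx | hx
  · rw [Real.sign_of_neg hx, Real.sign_of_pos (by linarith)]; norm_num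
  · rw [hx]; simp
  · rw [Real.sign_of_pos hx, Real.sign_of_neg (by linarith)]

lemma Fg_neg (v : ℝ≥0) (z : ℝ) : Fg v (-z) = - Fg v z := by
  have h : (gaussianReal 0 v).map (fun x => -x) = gaussianReal 0 v := by
    rw [gaussianReal_map_neg]; simp
  unfold Fg
  rw [← integral_neg]
  conv_lhs => rw [← h]
  rw [integral_map measurable_neg.aemeasurable]
  · congr 1; ext s
    have h2 : -z + -s = -(z + s) := by ring
    rw [h2, sign_neg']
  · exact (measurable_sign.comp (measurable_const.add measurable_id)).aestronglyMeasurable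

lemma Fg_nonpos (v : ℝ≥0) {z : ℝ} (hz : z ≤ 0) : Fg v z ≤ 0 := by
  have h0 : Fg v 0 = 0 := by have := Fg_neg v 0; simp at this; linarith
  rw [← h0]; exact Fg_mono v hz

lemma Fg_meas (v : ℝ≥0) : Measurable (Fg v) := (Fg_mono v).measurable

lemma Fg_conv (v v' : ℝ≥0) (z : ℝ) : ∫ g, Fg v (z - g) ∂(gaussianReal 0 v') = Fg (v' + v) z := by
  have h : gaussianReal 0 (v' + v) = (gaussianReal 0 v') ∗ (gaussianReal 0 v) := by
    rw [gaussianReal_conv_gaussianReal]; simp
  have hneg : (gaussianReal 0 v').map (fun x => -x) = gaussianReal 0 v' := by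
    rw [gaussianReal_map_neg]; simp
  have h1 : ∫ g, Fg v (z - g) ∂(gaussianReal 0 v') = ∫ g, Fg v (z + g) ∂(gaussianReal 0 v') := by
    conv_lhs => rw [← hneg]
    rw [integral_map measurable_neg.aemeasurable]
    · congr 1; ext s; congr 1; ring
    · exact ((Fg_meas v).comp (measurable_const.sub measurable_id)).aestronglyMeasurable
  rw [h1]
  unfold Fg
  rw [h, integral_conv]
  · congr 1; ext s
    congr 1; ext t; congr 1; ring
  · refine Integrable.of_bound (C := 1) ?_ ?_
    · exact (measurable_sign.comp (measurable_const.add measurable_id)).aestronglyMeasurable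
    · exact Eventually.of_forall fun s => by simpa using abs_sign_le _

lemma sign_ge (c y : ℝ) (hc : 0 < c) : 1 - 2 * Real.exp (-(c * y)) ≤ Real.sign y := by
  rcases lt_trichotomy y 0 with hx | hx | hx
  · rw [Real.sign_of_neg hx]
    have : 1 ≤ Real.exp (-(c * y)) := Real.one_le_exp (by nlinarith)
    linarith
  · subst hx; simp
  · rw [Real.sign_of_pos hx]
    have := Real.exp_pos (-(c * y))
    linarith

lemma Fg_ge (v : ℝ≥0) {c : ℝ} (hc : 0 < c) (z : ℝ) :
    1 - 2 * Real.exp (-(c * z) + c^2 * v / 2) ≤ Fg v z := by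
  have h1 := integrable_exp_mul_gaussianReal (μ := 0) (v := v) (-c)
  have h2 : ∫ s, Real.exp (-c * s) ∂(gaussianReal 0 v) = Real.exp (v * (-c)^2 / 2) := by
    have := congrFun (mgf_fun_id_gaussianReal (μ := 0) (v := v)) (-c)
    unfold mgf at this
    rw [this]; simp
  have e : ∫ s, (1 - 2 * Real.exp (-(c * z)) * Real.exp (-c * s)) ∂(gaussianReal 0 v) =
      1 - 2 * Real.exp (-(c * z) + c^2 * v / 2) := by
    rw [integral_sub (integrable_const _) (h1.const_mul _), integral_const_mul, h2, Real.exp_add]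
    simp
    ring_nf
  rw [← e]
  unfold Fg
  apply integral_mono ((integrable_const _).sub (h1.const_mul _)) (integrable_sign _ _)
  intro s
  have := sign_ge c (z + s) hc
  refine le_trans (le_of_eq ?_) this
  simp only [Pi.sub_apply]
  rw [mul_assoc, ← Real.exp_add]
  congr 3; ring

end

end Pool.Agent.H968
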