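import Mathlib
import Pool.Agent.H968.GoodA

open MeasureTheory ProbabilityTheory Filter Topology Set
open scoped ENNReal NNReal

namespace Pool.Agent.H968

noncomputable section

/-- covariance of the field at a fixed level -/
def Cm (m : ℕ) (x y : ℝ) : ℝ := ∑ i ∈ Finset.range m, CK i x y

lemma Xm_GP (m : ℕ) : GP PP (X m) (Cm m) := by
  constructor
  · intro x; exact meas_sec (X_meas m) x
  · intro k s a
    have := X_GP.char k (fun i => (m, s i)) a
    simp only [CX, min_self] at this
    exact this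

lemma Cm_eq {m : ℕ} {x y : ℝ} (h : |x - y| ≤ 1) : Cm m x y = KK m (x - y) := by
  unfold Cm KK
  apply Finset.sum_congr rfl
  intro i _; exact CK_eq i h

lemma Cm_local {m : ℕ} (hm : m ≠ 0) {x y : ℝ} (h : |x - y| ≤ Real.exp (-((m:ℝ)-1))) :
    Cm m x y = m - |x - y| * Real.exp ((m:ℝ)-1) := by
  have h1 : Real.exp (-((m:ℝ)-1)) ≤ 1 := by
    rw [Real.exp_le_one_iff]
    have : (1:ℝ) ≤ m := by exact_mod_cast Nat.one_le_iff_ne_zero.2 hm
    linarith
  rw [Cm_eq (h.trans h1), KK_small hm h]

lemma ofReal_integral_le {Ω : Type*} [MeasurableSpace Ω] {P : Measure Ω} {f : Ω → ℝ} (hf : Integrable f P) :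
    ENNReal.ofReal (∫ ω, f ω ∂P) ≤ ∫⁻ ω, ENNReal.ofReal (f ω) ∂P := by
  have h1 : ∫ ω, f ω ∂P ≤ ∫ ω, max (f ω) 0 ∂P :=
    integral_mono hf hf.pos_part (fun ω => le_max_left _ _)
  refine (ENNReal.ofReal_le_ofReal h1).trans ?_
  rw [ofReal_integral_eq_lintegral_ofReal hf.pos_part (Eventually.of_forall fun ω => le_max_right _ _)]
  apply lintegral_mono
  intro ω
  simp only
  rcases le_total (f ω) 0 with h | h
  · rw [max_eq_right h]; simp
  · rw [max_eq_left h]

/-- reflection inequality along increasing points -/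
lemma refl_ineq {m : ℕ} (hm : m ≠ 0) (r : ℕ) : ∀ (t0 tm : ℝ) (t : Fin r → ℝ), Monotone t →
    (∀ i, t0 ≤ t i) → (∀ i, t i ≤ tm) → t0 ≤ tm → tm - t0 ≤ Real.exp (-((m:ℝ)-1)) → ∀ z : ℝ,
    ENNReal.ofReal (Fg (Real.toNNReal (2 * Real.exp ((m:ℝ)-1) * (tm - t0))) z) ≤
      PP {ω | ∀ i, X m (t i) ω - X m t0 ω ≤ z} := by
  induction r with
  | zero =>
    intro t0 tm t _ _ _ _ _ z
    have : {ω : Om | ∀ i : Fin 0, X m (t i) ω - X m t0 ω ≤ z} = univ := by
      ext ω; simp
    rw [this, measure_univ]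
    exact ENNReal.ofReal_le_one.2 (Fg_le_one _ _)
  | succ r ih =>
    intro t0 tm t hmono h0 h1 h01 hlen z
    set v := 2 * Real.exp ((m:ℝ)-1) with hv
    have hv0 : 0 ≤ v := by positivity
    set t1 := t 0 with ht1
    have ht01 : t0 ≤ t1 := h0 0
    have ht1m : t1 ≤ tm := h1 0
    set a : Option ℝ → ℝ := fun o => o.elim t1 id with ha
    set b : Option ℝ → ℝ := fun o => o.elim t0 (fun _ => t1) with hb
    have hGP := (Xm_GP m).lin2 a b (fun _ => 1) (fun _ => -1)
    set Z : Option ℝ → Om → ℝ := fun o ω => 1 * X m (a o) ω + (-1) * X m (b o) ω with hZ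
    have hloc : ∀ x y, t0 ≤ x → x ≤ tm → t0 ≤ y → y ≤ tm → Cm m x y = m - |x - y| * Real.exp ((m:ℝ)-1) := by
      intro x y a1 a2 a3 a4
      apply Cm_local hm
      refine le_trans ?_ hlen
      rw [abs_le]; constructor <;> linarith
    have hK0 : ∀ i : Fin r, (1:ℝ) * 1 * Cm m (a none) (a (some (t i.succ))) + 1 * -1 * Cm m (a none) (b (some (t i.succ)))
        + -1 * 1 * Cm m (b none) (a (some (t i.succ))) + -1 * -1 * Cm m (b none) (b (some (t i.succ))) = 0 := by
      intro i
      have hi : t1 ≤ t i.succ := hmono (Fin.zero_le _)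
      simp only [ha, hb, Option.elim]
      rw [hloc t1 (id (t i.succ)) ht01 ht1m (h0 _) (h1 _), hloc t1 t1 ht01 ht1m ht01 ht1m,
        hloc t0 (id (t i.succ)) le_rfl h01 (h0 _) (h1 _), hloc t0 t1 le_rfl h01 ht01 ht1m]
      simp only [id]
      rw [abs_of_nonpos (by linarith : t1 - t i.succ ≤ 0), abs_of_nonpos (by linarith [h0 i.succ] : t0 - t i.succ ≤ 0),
        abs_of_nonpos (by linarith : t0 - t1 ≤ 0)]
      simp; ring
    have hK0' : ∀ i : Fin r, (1:ℝ) * 1 * Cm m (a (some (t i.succ))) (a none) + 1 * -1 * Cm m (a (some (t i.succ))) (b none)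
        + -1 * 1 * Cm m (b (some (t i.succ))) (a none) + -1 * -1 * Cm m (b (some (t i.succ))) (b none) = 0 := by
      intro i
      have hi : t1 ≤ t i.succ := hmono (Fin.zero_le _)
      simp only [ha, hb, Option.elim]
      rw [hloc (id (t i.succ)) t1 (h0 _) (h1 _) ht01 ht1m, hloc t1 t1 ht01 ht1m ht01 ht1m,
        hloc (id (t i.succ)) t0 (h0 _) (h1 _) le_rfl h01, hloc t1 t0 ht01 ht1m le_rfl h01]
      simp only [id]
      rw [abs_of_nonneg (by linarith : 0 ≤ t i.succ - t1), abs_of_nonneg (by linarith [h0 i.succ] : 0 ≤ t i.succ - t0),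
        abs_of_nonneg (by linarith : 0 ≤ t1 - t0)]
      simp; ring
    set G : ℝ → (Fin r → ℝ) → ℝ≥0∞ := fun g d => {p : ℝ × (Fin r → ℝ) | p.1 ≤ z ∧ ∀ i, p.2 i ≤ z - p.1}.indicator (fun _ => 1) (g, d) with hG
    have hset : MeasurableSet {p : ℝ × (Fin r → ℝ) | p.1 ≤ z ∧ ∀ i, p.2 i ≤ z - p.1} := by
      have : {p : ℝ × (Fin r → ℝ) | p.1 ≤ z ∧ ∀ i, p.2 i ≤ z - p.1} =
          {p | p.1 ≤ z} ∩ ⋂ i, {p : ℝ × (Fin r → ℝ) | p.2 i ≤ z - p.1} := by
        ext p; simp
      rw [this]
      apply MeasurableSet.inter (measurableSet_le measurable_fst measurable_const)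
      apply MeasurableSet.iInter
      intro i
      exact measurableSet_le ((measurable_pi_apply i).comp measurable_snd) (measurable_const.sub measurable_fst)
    have mG : Measurable (Function.uncurry G) := by
      show Measurable ({p : ℝ × (Fin r → ℝ) | p.1 ≤ z ∧ ∀ i, p.2 i ≤ z - p.1}.indicator (fun _ => (1:ℝ≥0∞)))
      exact measurable_const.indicator hset
    have hsplit := hGP.split (r := r) (fun i => t i.succ) hK0 hK0' mG
    -- identify the event
    have hZn : ∀ ω, Z none ω = X m t1 ω - X m t0 ω := by intro ω; simp [hZ, ha, hb]; ring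
    have hZs : ∀ s ω, Z (some s) ω = X m s ω - X m t1 ω := by intro s ω; simp [hZ, ha, hb]; ring
    have hLHS : ∫⁻ ω, G (Z none ω) (fun i => Z (some (t i.succ)) ω) ∂PP = PP {ω | ∀ i, X m (t i) ω - X m t0 ω ≤ z} := by
      have e : ∀ ω, G (Z none ω) (fun i => Z (some (t i.succ)) ω) = {ω | ∀ i, X m (t i) ω - X m t0 ω ≤ z}.indicator 1 ω := by
        intro ω
        simp only [hG, indicator, mem_ofPred_eq]
        congr 1
        rw [hZn]
        simp only [hZs, eq_iff_iff]
        constructor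
        · rintro ⟨q1, q2⟩ i
          refine Fin.cases q1 (fun i => ?_) i
          have := q2 i; linarith
        · intro q
          refine ⟨q 0, fun i => ?_⟩
          have := q i.succ; linarith
      simp_rw [e]
      rw [lintegral_indicator_one]
      have : {ω | ∀ i, X m (t i) ω - X m t0 ω ≤ z} = ⋂ i, {ω | X m (t i) ω - X m t0 ω ≤ z} := by
        ext; simp
      rw [this]
      apply MeasurableSet.iInter
      intro i
      exact measurableSet_le ((meas_sec (X_meas m) _).sub (meas_sec (X_meas m) _)) measurable_const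
    have hGP' : GP PP Z (fun t t' => (1:ℝ) * 1 * Cm m (a t) (a t') + 1 * -1 * Cm m (a t) (b t') + -1 * 1 * Cm m (b t) (a t')
        + -1 * -1 * Cm m (b t) (b t')) := hGP
    set V' := Real.toNNReal (v * (tm - t1)) with hV'
    have hmZ : Measurable (Z none) := hGP'.meas none
    have iF : Integrable (fun ω => Fg V' (z - Z none ω)) PP := by
      refine Integrable.of_bound (C := 1) ((Fg_meas V').comp (measurable_const.sub hmZ)).aestronglyMeasurable
        (Eventually.of_forall fun ω => Fg_abs _ _)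
    have hmain : ∫⁻ ω, ENNReal.ofReal (Fg V' (z - Z none ω)) ∂PP ≤
        ∫⁻ ω₁, ∫⁻ ω₂, G (Z none ω₁) (fun i => Z (some (t i.succ)) ω₂) ∂PP ∂PP := by
      apply lintegral_mono
      intro ω₁
      simp only
      rcases le_or_gt (Z none ω₁) z with h | h
      · have hih := ih t1 tm (fun i => t i.succ) (fun i j hij => hmono (Fin.succ_le_succ_iff.2 hij))
          (fun i => hmono (Fin.zero_le _)) (fun i => h1 _) ht1m (by linarith) (z - Z none ω₁)
        refine hih.trans (le_of_eq ?_)
        have e : ∀ ω₂, G (Z none ω₁) (fun i => Z (some (t i.succ)) ω₂) =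
            {ω | ∀ i : Fin r, X m (t i.succ) ω - X m t1 ω ≤ z - Z none ω₁}.indicator 1 ω₂ := by
          intro ω₂
          simp only [hG, indicator, mem_ofPred_eq, hZs, h, true_and]
          congr 1
        simp_rw [e]
        rw [lintegral_indicator_one]
        have : {ω | ∀ i : Fin r, X m (t i.succ) ω - X m t1 ω ≤ z - Z none ω₁} =
            ⋂ i : Fin r, {ω | X m (t i.succ) ω - X m t1 ω ≤ z - Z none ω₁} := by
          ext; simp
        rw [this]
        apply MeasurableSet.iInter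
        intro i
        exact measurableSet_le ((meas_sec (X_meas m) _).sub (meas_sec (X_meas m) _)) measurable_const
      · rw [ENNReal.ofReal_of_nonpos (Fg_nonpos _ (by linarith))]
        exact zero_le
    rw [← hLHS, hsplit]
    refine le_trans ?_ hmain
    refine le_trans (le_of_eq ?_) (ofReal_integral_le iF)
    congr 1
    have e3 : ∫ ω, Fg V' (z - Z none ω) ∂PP = ∫ y, Fg V' (z - y) ∂(PP.map (Z none)) := by
      rw [integral_map hmZ.aemeasurable]
      exact ((Fg_meas V').comp (measurable_const.sub measurable_id)).aestronglyMeasurable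
    rw [e3, hGP'.map_one none, Fg_conv]
    congr 1
    rw [hV', ← Real.toNNReal_add]
    · congr 1
      simp only [ha, hb, Option.elim]
      rw [hloc t1 t1 ht01 ht1m ht01 ht1m, hloc t1 t0 ht01 ht1m le_rfl h01, hloc t0 t1 le_rfl h01 ht01 ht1m,
        hloc t0 t0 le_rfl h01 le_rfl h01, abs_of_nonneg (by linarith : 0 ≤ t1 - t0),
        abs_of_nonpos (by linarith : t0 - t1 ≤ 0), hv]
      simp; ring
    · simp only [ha, hb, Option.elim]
      rw [hloc t1 t1 ht01 ht1m ht01 ht1m, hloc t1 t0 ht01 ht1m le_rfl h01, hloc t0 t1 le_rfl h01 ht01 ht1m,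
        hloc t0 t0 le_rfl h01 le_rfl h01, abs_of_nonneg (by linarith : 0 ≤ t1 - t0),
        abs_of_nonpos (by linarith : t0 - t1 ≤ 0)]
      have : 0 ≤ (t1 - t0) * Real.exp ((m:ℝ)-1) := mul_nonneg (by linarith) (Real.exp_pos _).le
      simp only [sub_self, abs_zero, zero_mul, sub_zero]
      nlinarith
    · exact mul_nonneg hv0 (by linarith)

end

end Pool.Agent.H968
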