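import Mathlib
import Pool.Agent.H968.GoodB

open MeasureTheory ProbabilityTheory Filter Topology Set
open scoped ENNReal NNReal

namespace Pool.Agent.H968

noncomputable section

/-- increasing points inside a window of the right size -/
structure Win (m r : ℕ) (t : Fin (r+1) → ℝ) : Prop where
  hm : m ≠ 0
  mono : Monotone t
  len : t (Fin.last r) - t 0 ≤ Real.exp (-((m:ℝ)-1))

lemma Win.len0 {m r : ℕ} {t : Fin (r+1) → ℝ} (h : Win m r t) : 0 ≤ t (Fin.last r) - t 0 := by
  have := h.mono (Fin.zero_le (Fin.last r)); linarith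

/-- maximal increment -/
def Zm (m : ℕ) {r : ℕ} (t : Fin (r+1) → ℝ) (ω : Om) : ℝ :=
  Finset.univ.sup' Finset.univ_nonempty (fun i => X m (t i) ω - X m (t 0) ω)

lemma Zm_meas (m : ℕ) {r : ℕ} (t : Fin (r+1) → ℝ) : Measurable (Zm m t) := by
  unfold Zm
  have h := Finset.measurable_sup' (f := fun (i : Fin (r+1)) (ω : Om) => X m (t i) ω - X m (t 0) ω)
    Finset.univ_nonempty (fun i _ => (meas_sec (X_meas m) (t i)).sub (meas_sec (X_meas m) (t 0)))
  convert h using 1
  ext ω
  rw [Finset.sup'_apply]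

lemma le_Zm (m : ℕ) {r : ℕ} (t : Fin (r+1) → ℝ) (ω : Om) (i : Fin (r+1)) :
    X m (t i) ω - X m (t 0) ω ≤ Zm m t ω := Finset.le_sup' (fun i => X m (t i) ω - X m (t 0) ω) (Finset.mem_univ i)

lemma Zm_nonneg (m : ℕ) {r : ℕ} (t : Fin (r+1) → ℝ) (ω : Om) : 0 ≤ Zm m t ω := by
  have := le_Zm m t ω 0; simpa using this

lemma exists_Zm (m : ℕ) {r : ℕ} (t : Fin (r+1) → ℝ) (ω : Om) :
    ∃ i, Zm m t ω = X m (t i) ω - X m (t 0) ω := by
  obtain ⟨i, _, hi⟩ := Finset.exists_mem_eq_sup' Finset.univ_nonempty (fun i => X m (t i) ω - X m (t 0) ω)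
  exact ⟨i, hi⟩

lemma tail_bound {m r : ℕ} {t : Fin (r+1) → ℝ} (h : Win m r t) {c : ℝ} (hc : 0 < c) (z : ℝ) :
    PP {ω | z < Zm m t ω} ≤ ENNReal.ofReal (2 * Real.exp (-(c * z) + c^2)) := by
  have h1 := refl_ineq h.hm (r+1) (t 0) (t (Fin.last r)) t h.mono (fun i => h.mono (Fin.zero_le _))
    (fun i => h.mono (Fin.le_last _)) (h.mono (Fin.zero_le _)) h.len z
  have hms : MeasurableSet {ω | ∀ i, X m (t i) ω - X m (t 0) ω ≤ z} := by
    have : {ω | ∀ i, X m (t i) ω - X m (t 0) ω ≤ z} = ⋂ i, {ω | X m (t i) ω - X m (t 0) ω ≤ z} := by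
      ext; simp
    rw [this]
    apply MeasurableSet.iInter
    intro i
    exact measurableSet_le ((meas_sec (X_meas m) _).sub (meas_sec (X_meas m) _)) measurable_const
  have e : {ω | z < Zm m t ω} = {ω | ∀ i, X m (t i) ω - X m (t 0) ω ≤ z}ᶜ := by
    ext ω
    simp only [mem_ofPred_eq, mem_compl_iff, not_forall, not_le]
    constructor
    · intro hz
      obtain ⟨i, hi⟩ := exists_Zm m t ω
      exact ⟨i, by rw [← hi]; exact hz⟩
    · rintro ⟨i, hi⟩
      exact lt_of_lt_of_le hi (le_Zm m t ω i)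
  rw [e, prob_compl_eq_one_sub hms]
  have hV : 2 * Real.exp ((m:ℝ)-1) * (t (Fin.last r) - t 0) ≤ 2 := by
    have := h.len
    have hp := Real.exp_pos ((m:ℝ)-1)
    calc 2 * Real.exp ((m:ℝ)-1) * (t (Fin.last r) - t 0) ≤ 2 * Real.exp ((m:ℝ)-1) * Real.exp (-((m:ℝ)-1)) := by gcongr
      _ = 2 := by rw [mul_assoc, ← Real.exp_add]; simp
  have h2 := Fg_ge (Real.toNNReal (2 * Real.exp ((m:ℝ)-1) * (t (Fin.last r) - t 0))) hc z
  have h3 : c^2 * (Real.toNNReal (2 * Real.exp ((m:ℝ)-1) * (t (Fin.last r) - t 0)) : ℝ) / 2 ≤ c^2 := by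
    rw [Real.coe_toNNReal _ (by have := h.len0; positivity)]
    have : 0 ≤ c^2 := sq_nonneg c
    nlinarith
  have h4 : 1 - 2 * Real.exp (-(c * z) + c^2) ≤ Fg (Real.toNNReal (2 * Real.exp ((m:ℝ)-1) * (t (Fin.last r) - t 0))) z := by
    refine le_trans ?_ h2
    have : Real.exp (-(c * z) + c^2 * (Real.toNNReal (2 * Real.exp ((m:ℝ)-1) * (t (Fin.last r) - t 0)) : ℝ) / 2) ≤ Real.exp (-(c * z) + c^2) :=
      Real.exp_le_exp.2 (by linarith)
    linarith
  have h5 : ENNReal.ofReal (1 - 2 * Real.exp (-(c * z) + c^2)) ≤ PP {ω | ∀ i, X m (t i) ω - X m (t 0) ω ≤ z} :=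
    (ENNReal.ofReal_le_ofReal h4).trans h1
  have h6 : (1:ℝ≥0∞) ≤ ENNReal.ofReal (1 - 2 * Real.exp (-(c * z) + c^2)) + ENNReal.ofReal (2 * Real.exp (-(c * z) + c^2)) := by
    refine le_trans (le_of_eq ?_) (ENNReal.ofReal_add_le)
    simp
  rw [tsub_le_iff_right]
  refine h6.trans ?_
  rw [add_comm]
  gcongr

/-- constant for the exponential moment of the maximal increment -/
def KE (c : ℝ) : ℝ := 2 * Real.exp (3*c + 4*c^2) * (1 - Real.exp (-c))⁻¹

lemma exp_moment {m r : ℕ} {t : Fin (r+1) → ℝ} (h : Win m r t) {c : ℝ} (hc : 0 < c) :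
    ∫⁻ ω, ENNReal.ofReal (Real.exp (c * Zm m t ω)) ∂PP ≤ ENNReal.ofReal (KE c) := by
  have hpt : ∀ ω, ENNReal.ofReal (Real.exp (c * Zm m t ω)) ≤
      ∑' n : ℕ, {ω | (n:ℝ) ≤ Zm m t ω}.indicator (fun _ => ENNReal.ofReal (Real.exp (c * (n+1)))) ω := by
    intro ω
    set n := ⌊Zm m t ω⌋₊ with hn
    have h1 : (n:ℝ) ≤ Zm m t ω := Nat.floor_le (Zm_nonneg m t ω)
    have h2 : Zm m t ω < n + 1 := Nat.lt_floor_add_one _
    refine le_trans ?_ (ENNReal.le_tsum n)
    rw [indicator_of_mem (show ω ∈ {ω | (n:ℝ) ≤ Zm m t ω} from h1)]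
    apply ENNReal.ofReal_le_ofReal
    apply Real.exp_le_exp.2
    exact mul_le_mul_of_nonneg_left h2.le hc.le
  refine (lintegral_mono hpt).trans ?_
  have hms : ∀ n : ℕ, MeasurableSet {ω | (n:ℝ) ≤ Zm m t ω} := fun n => measurableSet_le measurable_const (Zm_meas m t)
  rw [lintegral_tsum (fun n => (measurable_const.indicator (hms n)).aemeasurable)]
  have hb : ∀ n : ℕ, ∫⁻ ω, {ω | (n:ℝ) ≤ Zm m t ω}.indicator (fun _ => ENNReal.ofReal (Real.exp (c * (n+1)))) ω ∂PP ≤
      ENNReal.ofReal (2 * Real.exp (3*c + 4*c^2) * (Real.exp (-c))^n) := by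
    intro n
    rw [lintegral_indicator (hms n), lintegral_const, Measure.restrict_apply_univ]
    have hsub : {ω | (n:ℝ) ≤ Zm m t ω} ⊆ {ω | (n:ℝ) - 1 < Zm m t ω} := by
      intro ω hω
      have : (n:ℝ) ≤ Zm m t ω := hω
      show (n:ℝ) - 1 < Zm m t ω
      linarith
    have h1 := (measure_mono hsub).trans (tail_bound h (c := 2*c) (by linarith) ((n:ℝ)-1))
    calc ENNReal.ofReal (Real.exp (c * (n+1))) * PP {ω | (n:ℝ) ≤ Zm m t ω}
        ≤ ENNReal.ofReal (Real.exp (c * (n+1))) * ENNReal.ofReal (2 * Real.exp (-(2*c * ((n:ℝ)-1)) + (2*c)^2)) := by gcongr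
      _ = ENNReal.ofReal (2 * Real.exp (3*c + 4*c^2) * (Real.exp (-c))^n) := by
          rw [← ENNReal.ofReal_mul (Real.exp_pos _).le]
          congr 1
          rw [← Real.exp_nat_mul]
          have e1 : Real.exp (c * (n+1)) * (2 * Real.exp (-(2*c * ((n:ℝ)-1)) + (2*c)^2)) =
            2 * (Real.exp (c * (n+1)) * Real.exp (-(2*c * ((n:ℝ)-1)) + (2*c)^2)) := by ring
          have e2 : 2 * Real.exp (3*c + 4*c^2) * Real.exp (n * -c) = 2 * (Real.exp (3*c + 4*c^2) * Real.exp (n * -c)) := by ring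
          rw [e1, e2, ← Real.exp_add, ← Real.exp_add]
          congr 2; ring
  refine (ENNReal.tsum_le_tsum hb).trans ?_
  have hlt : Real.exp (-c) < 1 := by
    have := Real.exp_strictMono (show -c < 0 by linarith)
    rwa [Real.exp_zero] at this
  rw [← ENNReal.ofReal_tsum_of_nonneg (fun n => by positivity) ((summable_geometric_of_lt_one (Real.exp_pos _).le hlt).mul_left _)]
  apply ENNReal.ofReal_le_ofReal
  rw [tsum_mul_left, tsum_geometric_of_lt_one (Real.exp_pos _).le hlt]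
  rfl

/-- weighted exponential moment -/
def KW (c : ℝ) : ℝ := (Real.exp 2 + KE (2*c)) / 2

lemma KE_nonneg {c : ℝ} (hc : 0 < c) : 0 ≤ KE c := by
  unfold KE
  have hlt : Real.exp (-c) < 1 := by
    have := Real.exp_strictMono (show -c < 0 by linarith)
    rwa [Real.exp_zero] at this
  have : 0 < 1 - Real.exp (-c) := by linarith
  positivity

lemma weighted_moment {m r : ℕ} {t : Fin (r+1) → ℝ} (h : Win m r t) {c : ℝ} (hc : 0 < c) :
    ∫⁻ ω, ENNReal.ofReal (ww m (t 0) ω * Real.exp (c * Zm m t ω)) ∂PP ≤ ENNReal.ofReal (KW c) := by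
  set t0 := t 0 with ht0
  set tm := t (Fin.last r) with htm
  have h01 : t0 ≤ tm := h.mono (Fin.zero_le _)
  set a : Option ℝ → ℝ := fun o => o.elim t0 id with ha
  set b : Option ℝ → ℝ := fun o => o.elim tm (fun _ => t0) with hb
  set α : Option ℝ → ℝ := fun o => o.elim (1/2) (fun _ => 1) with hα
  set γ : Option ℝ → ℝ := fun o => o.elim (1/2) (fun _ => -1) with hγ
  have hGP := (Xm_GP m).lin2 a b α γ
  set Z : Option ℝ → Om → ℝ := fun o ω => α o * X m (a o) ω + γ o * X m (b o) ω with hZ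
  have hloc : ∀ x y, t0 ≤ x → x ≤ tm → t0 ≤ y → y ≤ tm → Cm m x y = m - |x - y| * Real.exp ((m:ℝ)-1) := by
    intro x y a1 a2 a3 a4
    apply Cm_local h.hm
    refine le_trans ?_ h.len
    rw [abs_le]; constructor <;> linarith
  have hi0 : ∀ i, t0 ≤ t i := fun i => h.mono (Fin.zero_le _)
  have hi1 : ∀ i, t i ≤ tm := fun i => h.mono (Fin.le_last _)
  have hK0 : ∀ i : Fin (r+1), α none * α (some (t i)) * Cm m (a none) (a (some (t i))) + α none * γ (some (t i)) * Cm m (a none) (b (some (t i)))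
      + γ none * α (some (t i)) * Cm m (b none) (a (some (t i))) + γ none * γ (some (t i)) * Cm m (b none) (b (some (t i))) = 0 := by
    intro i
    simp only [ha, hb, hα, hγ, Option.elim, id]
    rw [hloc t0 (t i) le_rfl h01 (hi0 i) (hi1 i), hloc t0 t0 le_rfl h01 le_rfl h01,
      hloc tm (t i) h01 le_rfl (hi0 i) (hi1 i), hloc tm t0 h01 le_rfl le_rfl h01]
    rw [abs_of_nonpos (by linarith [hi0 i] : t0 - t i ≤ 0), abs_of_nonneg (by linarith [hi1 i] : 0 ≤ tm - t i),
      abs_of_nonneg (by linarith : 0 ≤ tm - t0)]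
    simp; ring
  have hK0' : ∀ i : Fin (r+1), α (some (t i)) * α none * Cm m (a (some (t i))) (a none) + α (some (t i)) * γ none * Cm m (a (some (t i))) (b none)
      + γ (some (t i)) * α none * Cm m (b (some (t i))) (a none) + γ (some (t i)) * γ none * Cm m (b (some (t i))) (b none) = 0 := by
    intro i
    simp only [ha, hb, hα, hγ, Option.elim, id]
    rw [hloc (t i) t0 (hi0 i) (hi1 i) le_rfl h01, hloc t0 t0 le_rfl h01 le_rfl h01,
      hloc (t i) tm (hi0 i) (hi1 i) h01 le_rfl, hloc t0 tm le_rfl h01 h01 le_rfl]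
    rw [abs_of_nonneg (by linarith [hi0 i] : 0 ≤ t i - t0), abs_of_nonpos (by linarith [hi1 i] : t i - tm ≤ 0),
      abs_of_nonpos (by linarith : t0 - tm ≤ 0)]
    simp; ring
  set G : ℝ → (Fin (r+1) → ℝ) → ℝ≥0∞ := fun g d => ENNReal.ofReal (Real.exp (s2 * g - m)) *
    ENNReal.ofReal (Real.exp (-(s2/2) * d (Fin.last r)) * Real.exp (c * Finset.univ.sup' Finset.univ_nonempty d)) with hG
  have msup : Measurable (fun d : Fin (r+1) → ℝ => Finset.univ.sup' Finset.univ_nonempty d) := by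
    have h := Finset.measurable_sup' (f := fun (i : Fin (r+1)) (d : Fin (r+1) → ℝ) => d i)
      Finset.univ_nonempty (fun i _ => measurable_pi_apply i)
    convert h using 1
    ext d
    rw [Finset.sup'_apply]
  have mG : Measurable (Function.uncurry G) := by
    show Measurable (fun p : ℝ × (Fin (r+1) → ℝ) => ENNReal.ofReal (Real.exp (s2 * p.1 - m)) *
      ENNReal.ofReal (Real.exp (-(s2/2) * p.2 (Fin.last r)) * Real.exp (c * Finset.univ.sup' Finset.univ_nonempty p.2)))
    have q1 : Measurable (fun p : ℝ × (Fin (r+1) → ℝ) => Real.exp (s2 * p.1 - m)) :=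
      Real.measurable_exp.comp ((measurable_fst.const_mul s2).sub_const _)
    have q2 : Measurable (fun p : ℝ × (Fin (r+1) → ℝ) => Real.exp (-(s2/2) * p.2 (Fin.last r))) :=
      Real.measurable_exp.comp (((measurable_pi_apply (Fin.last r)).comp measurable_snd).const_mul _)
    have q3 : Measurable (fun p : ℝ × (Fin (r+1) → ℝ) => Real.exp (c * Finset.univ.sup' Finset.univ_nonempty p.2)) :=
      Real.measurable_exp.comp ((msup.comp measurable_snd).const_mul _)
    exact q1.ennreal_ofReal.mul (q2.mul q3).ennreal_ofReal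
  have hsplit := hGP.split (r := r+1) (fun i => t i) hK0 hK0' mG
  have hZn : ∀ ω, Z none ω = 1/2 * X m t0 ω + 1/2 * X m tm ω := by intro ω; simp [hZ, ha, hb, hα, hγ]
  have hZs : ∀ s ω, Z (some s) ω = X m s ω - X m t0 ω := by intro s ω; simp [hZ, ha, hb, hα, hγ]; ring
  have hsupZ : ∀ ω, Finset.univ.sup' Finset.univ_nonempty (fun i => Z (some (t i)) ω) = Zm m t ω := by
    intro ω; unfold Zm; simp_rw [hZs]; rfl
  have hLHS : ∀ ω, ENNReal.ofReal (ww m t0 ω * Real.exp (c * Zm m t ω)) = G (Z none ω) (fun i => Z (some (t i)) ω) := by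
    intro ω
    simp only [hG]
    rw [hsupZ, ← ENNReal.ofReal_mul (Real.exp_pos _).le, ← mul_assoc, ← Real.exp_add]
    congr 2
    unfold ww
    congr 1
    rw [hZn, hZs, ← htm]; ring
  simp_rw [hLHS]
  have hGP' : GP PP Z (fun t t' => α t * α t' * Cm m (a t) (a t') + α t * γ t' * Cm m (a t) (b t') + γ t * α t' * Cm m (b t) (a t')
        + γ t * γ t' * Cm m (b t) (b t')) := hGP
  have hsplit' : ∫⁻ ω, G (Z none ω) (fun i => Z (some (t i)) ω) ∂PP =
      ∫⁻ ω₁, ∫⁻ ω₂, G (Z none ω₁) (fun i => Z (some (t i)) ω₂) ∂PP ∂PP := hsplit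
  rw [hsplit']
  have mZs : ∀ s, Measurable (Z (some s)) := fun s => hGP'.meas _
  have minner : Measurable (fun ω₂ => ENNReal.ofReal (Real.exp (-(s2/2) * Z (some (t (Fin.last r))) ω₂) * Real.exp (c * Zm m t ω₂))) := by
    apply Measurable.ennreal_ofReal
    exact (Real.measurable_exp.comp ((mZs _).const_mul _)).mul (Real.measurable_exp.comp ((Zm_meas m t).const_mul _))
  simp only [hG, hsupZ]
  simp_rw [lintegral_const_mul _ minner]
  rw [lintegral_mul_const]
  swap
  · exact (Real.measurable_exp.comp (((hGP'.meas none).const_mul s2).sub_const _)).ennreal_ofReal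
  -- first factor
  have f1 : ∫⁻ ω, ENNReal.ofReal (Real.exp (s2 * Z none ω - m)) ∂PP ≤ 1 := by
    have i1 := hGP'.integrable_exp (m := 1) (fun _ => none) (fun _ => s2)
    have e1 := hGP'.integral_exp (m := 1) (fun _ => none) (fun _ => s2)
    simp only [Finset.univ_unique, Finset.sum_singleton, qf] at i1 e1
    have e2 : ∀ ω, Real.exp (s2 * Z none ω - m) = Real.exp (s2 * Z none ω) * Real.exp (-(m:ℝ)) := by
      intro ω; rw [← Real.exp_add]; congr 1
    simp_rw [e2]
    rw [← ofReal_integral_eq_lintegral_ofReal (i1.mul_const _) (Eventually.of_forall fun ω => by positivity),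
      integral_mul_const, e1, ← Real.exp_add]
    rw [ENNReal.ofReal_le_one, Real.exp_le_one_iff]
    simp only [ha, hb, hα, hγ, Option.elim]
    rw [hloc t0 t0 le_rfl h01 le_rfl h01, hloc t0 tm le_rfl h01 h01 le_rfl, hloc tm t0 h01 le_rfl le_rfl h01,
      hloc tm tm h01 le_rfl h01 le_rfl, abs_of_nonneg (by linarith : 0 ≤ tm - t0), abs_of_nonpos (by linarith : t0 - tm ≤ 0)]
    have hq : 0 ≤ (tm - t0) * Real.exp ((m:ℝ)-1) := mul_nonneg (by linarith) (Real.exp_pos _).le
    have h22 := s2_sq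
    simp only [sub_self, abs_zero, zero_mul, sub_zero]
    rw [h22]
    nlinarith
  -- second factor
  have f2 : ∫⁻ ω, ENNReal.ofReal (Real.exp (-(s2/2) * Z (some (t (Fin.last r))) ω) * Real.exp (c * Zm m t ω)) ∂PP ≤
      ENNReal.ofReal (KW c) := by
    have hpt : ∀ ω, ENNReal.ofReal (Real.exp (-(s2/2) * Z (some (t (Fin.last r))) ω) * Real.exp (c * Zm m t ω)) ≤
        ENNReal.ofReal (1/2) * (ENNReal.ofReal (Real.exp (-s2 * Z (some (t (Fin.last r))) ω)) + ENNReal.ofReal (Real.exp (2 * c * Zm m t ω))) := by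
      intro ω
      rw [← ENNReal.ofReal_add (Real.exp_pos _).le (Real.exp_pos _).le, ← ENNReal.ofReal_mul (by norm_num)]
      apply ENNReal.ofReal_le_ofReal
      set p := Real.exp (-(s2/2) * Z (some (t (Fin.last r))) ω)
      set q := Real.exp (c * Zm m t ω)
      have e1 : Real.exp (-s2 * Z (some (t (Fin.last r))) ω) = p * p := by
        rw [← Real.exp_add]; congr 1; ring
      have e2 : Real.exp (2 * c * Zm m t ω) = q * q := by rw [← Real.exp_add]; congr 1; ring
      rw [e1, e2]; nlinarith [sq_nonneg (p - q)]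
    refine (lintegral_mono hpt).trans ?_
    have m1 : Measurable (fun ω => ENNReal.ofReal (Real.exp (-s2 * Z (some (t (Fin.last r))) ω))) :=
      (Real.measurable_exp.comp ((mZs _).const_mul _)).ennreal_ofReal
    have m2 : Measurable (fun ω => ENNReal.ofReal (Real.exp (2 * c * Zm m t ω))) :=
      (Real.measurable_exp.comp ((Zm_meas m t).const_mul _)).ennreal_ofReal
    have m12 : Measurable (fun ω => ENNReal.ofReal (Real.exp (-s2 * Z (some (t (Fin.last r))) ω)) +
        ENNReal.ofReal (Real.exp (2 * c * Zm m t ω))) := m1.add m2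
    rw [lintegral_const_mul _ m12, lintegral_add_left m1]
    have b1 : ∫⁻ ω, ENNReal.ofReal (Real.exp (-s2 * Z (some (t (Fin.last r))) ω)) ∂PP ≤ ENNReal.ofReal (Real.exp 2) := by
      have i1 := hGP'.integrable_exp (m := 1) (fun _ => some (t (Fin.last r))) (fun _ => -s2)
      have e1 := hGP'.integral_exp (m := 1) (fun _ => some (t (Fin.last r))) (fun _ => -s2)
      simp only [Finset.univ_unique, Finset.sum_singleton, qf] at i1 e1
      rw [← ofReal_integral_eq_lintegral_ofReal i1 (Eventually.of_forall fun ω => by positivity), e1]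
      apply ENNReal.ofReal_le_ofReal
      apply Real.exp_le_exp.2
      simp only [ha, hb, hα, hγ, Option.elim, id]
      rw [← htm, hloc t0 t0 le_rfl h01 le_rfl h01, hloc t0 tm le_rfl h01 h01 le_rfl, hloc tm t0 h01 le_rfl le_rfl h01,
        hloc tm tm h01 le_rfl h01 le_rfl, abs_of_nonneg (by linarith : 0 ≤ tm - t0), abs_of_nonpos (by linarith : t0 - tm ≤ 0)]
      have hq : (tm - t0) * Real.exp ((m:ℝ)-1) ≤ 1 := by
        calc (tm - t0) * Real.exp ((m:ℝ)-1) ≤ Real.exp (-((m:ℝ)-1)) * Real.exp ((m:ℝ)-1) := by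
              gcongr; exact h.len
          _ = 1 := by rw [← Real.exp_add]; simp
      have h22 := s2_sq
      simp only [sub_self, abs_zero, zero_mul, sub_zero]
      have : -s2 * -s2 = 2 := by rw [neg_mul_neg]; exact h22
      rw [this]
      nlinarith
    have b2 := exp_moment h (c := 2*c) (by linarith)
    calc ENNReal.ofReal (1/2) * (∫⁻ ω, ENNReal.ofReal (Real.exp (-s2 * Z (some (t (Fin.last r))) ω)) ∂PP + ∫⁻ ω, ENNReal.ofReal (Real.exp (2 * c * Zm m t ω)) ∂PP)
        ≤ ENNReal.ofReal (1/2) * (ENNReal.ofReal (Real.exp 2) + ENNReal.ofReal (KE (2*c))) := by gcongr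
      _ = ENNReal.ofReal (KW c) := by
          rw [← ENNReal.ofReal_add (Real.exp_pos _).le (KE_nonneg (by linarith)), ← ENNReal.ofReal_mul (by norm_num)]
          congr 1; unfold KW; ring
  calc _ ≤ 1 * ENNReal.ofReal (KW c) := mul_le_mul' f1 f2
    _ = _ := one_mul _

end

end Pool.Agent.H968
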