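import Mathlib
import Pool.Agent.H968.GoodC

open MeasureTheory ProbabilityTheory Filter Topology Set
open scoped ENNReal NNReal

namespace Pool.Agent.H968

noncomputable section

lemma lintegral_gl (k : ℕ) {F : Om → ℝ≥0∞} (hF : Measurable F) :
    ∫⁻ ω, F ω ∂PP = ∫⁻ ω, ∫⁻ ω', F (gl k (ω, ω')) ∂PP ∂PP := by
  rw [← (gl_mp k).lintegral_comp hF]
  exact lintegral_prod (fun p => F (gl k p)) (hF.comp (gl_meas k)).aemeasurable

/-- `m^{-5/4}` -/
def g5 (m : ℕ) : ℝ := ((Real.sqrt (Real.sqrt m))⁻¹)^5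

lemma g5_nonneg (m : ℕ) : 0 ≤ g5 m := by unfold g5; positivity

lemma g5_summable : Summable (fun k : ℕ => g5 (k+1)) := by
  have h := Real.summable_nat_rpow_inv.2 (show (1:ℝ) < 5/4 by norm_num)
  have h2 := (summable_nat_add_iff 1).2 h
  refine h2.congr fun n => ?_
  unfold g5
  rw [inv_pow]
  congr 1
  rw [Real.sqrt_eq_rpow, Real.sqrt_eq_rpow, ← Real.rpow_mul (by positivity), ← Real.rpow_natCast,
    ← Real.rpow_mul (by positivity)]
  norm_num

lemma g5_eq {m : ℕ} (hm : 1 ≤ m) : Real.sqrt (Real.sqrt m) * g3 m = g5 m := by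
  unfold g3 g5
  have h1 : 0 < Real.sqrt m := Real.sqrt_pos.2 (by exact_mod_cast hm)
  set τ := Real.sqrt (Real.sqrt m) with hτ
  have h2 : 0 < τ := Real.sqrt_pos.2 h1
  have h3 : Real.sqrt m = τ^2 := (Real.sq_sqrt h1.le).symm
  rw [h3]
  field_simp

/-- Young's inequality for exponentials -/
lemma young {τ : ℝ} (hτ : 0 < τ) (a b : ℝ) :
    Real.exp a * Real.exp b ≤ τ * Real.exp ((6/5) * a) + (τ⁻¹)^5 * Real.exp (6 * b) := by
  set v := Real.log τ with hv
  have hv' : Real.exp v = τ := Real.exp_log hτ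
  have h1 : Real.exp (a + b) ≤ (5/6) * Real.exp ((6/5) * a + v) + (1/6) * Real.exp (6 * b - 5 * v) := by
    have hc := convexOn_exp.2 (mem_univ ((6/5) * a + v)) (mem_univ (6 * b - 5 * v))
      (show (0:ℝ) ≤ 5/6 by norm_num) (show (0:ℝ) ≤ 1/6 by norm_num) (by norm_num)
    simp only [smul_eq_mul] at hc
    refine le_trans (le_of_eq ?_) hc
    congr 1; ring
  rw [← Real.exp_add]
  refine h1.trans ?_
  rw [Real.exp_add, hv']
  have e2 : Real.exp (6 * b - 5 * v) = (τ⁻¹)^5 * Real.exp (6 * b) := by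
    rw [sub_eq_add_neg, Real.exp_add, mul_comm]
    congr 1
    rw [Real.exp_neg, inv_pow]
    congr 1
    have := (Real.exp_nat_mul v 5)
    push_cast at this
    rw [this, hv']
  rw [e2]
  have p1 : 0 ≤ Real.exp ((6/5) * a) * τ := by positivity
  have p2 : 0 ≤ (τ⁻¹)^5 * Real.exp (6 * b) := by positivity
  nlinarith

/-- the exponent used in the crossing estimate -/
def cc : ℝ := (6/5) * s2

lemma cc_pos : 0 < cc := by unfold cc; have := s2_pos; positivity

/-- constants -/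
def Icc' : ℝ := ∫ y in Ici (0:ℝ), (1+y)^3 * Real.exp (-(cc * y))

lemma Icc'_nonneg : 0 ≤ Icc' := by
  unfold Icc'
  apply setIntegral_nonneg measurableSet_Ici
  intro y hy
  have : (0:ℝ) ≤ y := hy
  positivity

def K1 : ℝ := Real.exp (cc^2/2) * (3456 * Icc' + 8)
def K2 : ℝ := KW (12 * s2)

lemma K1_nonneg : 0 ≤ K1 := by unfold K1; have := Icc'_nonneg; positivity

lemma KW_nonneg {c : ℝ} (hc : 0 < c) : 0 ≤ KW c := by
  unfold KW
  have := KE_nonneg (c := 2*c) (by linarith)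
  positivity

lemma K2_nonneg : 0 ≤ K2 := KW_nonneg (by have := s2_pos; positivity)

lemma Pr_exp_bound {β : ℝ} (hβ : 0 ≤ β) (k : ℕ) :
    (Pr^[k] (fun y => Real.exp (-(cc * y)))) β ≤ (3456 * Icc' + 8) * (1 + β) * g3 (k+1) := by
  have hc := cc_pos
  have hle : ∀ y : ℝ, 0 ≤ y → Real.exp (-(cc * y)) ≤ 1 := by
    intro y hy; rw [Real.exp_le_one_iff]; nlinarith
  have hBH : BH (fun y => Real.exp (-(cc * y))) := ⟨by fun_prop, 1, fun y hy => by
    rw [abs_of_pos (Real.exp_pos _)]; exact hle y hy⟩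
  have hI0 := Icc'_nonneg
  have hg : 0 ≤ g3 (k+1) := g3_nonneg _
  rcases lt_or_ge k 3 with h | h
  · have h1 : (Pr^[k] (fun y => Real.exp (-(cc * y)))) β ≤ u k β :=
      iter_mono hBH.LG (LG.const 1) hle k β hβ
    have h2 := u_le_one k β
    have h3 : 1 ≤ 8 * g3 (k+1) := by
      unfold g3
      have hk : ((k+1 : ℕ):ℝ) ≤ 4 := by
        have : k + 1 ≤ 4 := by omega
        exact_mod_cast this
      have h4 : Real.sqrt ((k+1 : ℕ):ℝ) ≤ 2 := by
        rw [Real.sqrt_le_left (by norm_num)]; linarith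
      have h5 : 0 < Real.sqrt ((k+1 : ℕ):ℝ) := Real.sqrt_pos.2 (by positivity)
      have h6 : (1/2 : ℝ) ≤ (Real.sqrt ((k+1 : ℕ):ℝ))⁻¹ := by
        rw [one_div]; exact inv_anti₀ h5 h4
      have h7 : (1/2 : ℝ)^3 ≤ ((Real.sqrt ((k+1 : ℕ):ℝ))⁻¹)^3 := by gcongr
      norm_num at h7 ⊢
      linarith
    have h8 : 0 ≤ 3456 * Icc' * (1 + β) * g3 (k+1) := by positivity
    have h9 : 0 ≤ β * g3 (k+1) := by positivity
    nlinarith
  · have hI : IntegrableOn (fun y => (1+y) * Real.exp (-(cc * y))) (Ici 0) := by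
      refine Integrable.mono' (integrable_poly_exp hc) (by fun_prop) ?_
      refine (ae_restrict_mem measurableSet_Ici).mono fun y hy => ?_
      have hy0 : (0:ℝ) ≤ y := hy
      rw [Real.norm_eq_abs, abs_of_nonneg (by positivity)]
      have : 1 + y ≤ (1+y)^3 := by nlinarith [sq_nonneg y, mul_nonneg hy0 hy0]
      gcongr
    have h1 := iter_local hBH.LG (fun y _ => (Real.exp_pos _).le) hI h hβ
    refine h1.trans ?_
    have h2 : ∫ y in Ici (0:ℝ), (1+y) * Real.exp (-(cc * y)) ≤ Icc' := by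
      unfold Icc'
      apply setIntegral_mono_on hI (integrable_poly_exp hc) measurableSet_Ici
      intro y hy
      have hy0 : (0:ℝ) ≤ y := hy
      have : 1 + y ≤ (1+y)^3 := by nlinarith [sq_nonneg y, mul_nonneg hy0 hy0]
      gcongr
    have h3 : ((Real.sqrt k)⁻¹)^3 ≤ 8 * g3 (k+1) := by
      unfold g3
      have hk0 : (1:ℝ) ≤ k := by exact_mod_cast (by omega : 1 ≤ k)
      have h4 : Real.sqrt ((k+1 : ℕ):ℝ) ≤ 2 * Real.sqrt k := by
        have : Real.sqrt (4 * k) = 2 * Real.sqrt k := by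
          rw [Real.sqrt_mul (by norm_num), show (4:ℝ) = 2^2 by norm_num, Real.sqrt_sq (by norm_num)]
        rw [← this]; apply Real.sqrt_le_sqrt; push_cast; linarith
      have h5 : 0 < Real.sqrt ((k+1 : ℕ):ℝ) := Real.sqrt_pos.2 (by positivity)
      have h6 : 0 < Real.sqrt k := Real.sqrt_pos.2 (by linarith)
      have h7 : (Real.sqrt k)⁻¹ ≤ 2 * (Real.sqrt ((k+1 : ℕ):ℝ))⁻¹ := by
        rw [inv_eq_one_div, ← div_eq_mul_inv, div_le_div_iff₀ h6 h5]; linarith
      calc ((Real.sqrt k)⁻¹)^3 ≤ (2 * (Real.sqrt ((k+1 : ℕ):ℝ))⁻¹)^3 := by gcongr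
        _ = 8 * ((Real.sqrt ((k+1 : ℕ):ℝ))⁻¹)^3 := by ring
    calc 432 * (1 + β) * ((Real.sqrt k)⁻¹)^3 * ∫ y in Ici (0:ℝ), (1 + y) * Real.exp (-(cc * y))
        ≤ 432 * (1 + β) * (8 * g3 (k+1)) * Icc' := by
          apply mul_le_mul _ h2 _ (by positivity)
          · gcongr
          · apply setIntegral_nonneg measurableSet_Ici
            intro y hy
            have hy0 : (0:ℝ) ≤ y := hy
            positivity
      _ ≤ _ := by
          have : 0 ≤ 8 * (1 + β) * g3 (k+1) := by positivity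
          nlinarith

/-- one free step after a barrier -/
lemma free_step {β : ℝ} (hβ : 0 ≤ β) (k : ℕ) (x : ℝ) :
    ∫⁻ ω, ENNReal.ofReal (ww (k+1) x ω * bb β k x ω * Real.exp (-(cc * TT β (k+1) x ω))) ∂PP ≤
      ENNReal.ofReal (K1 * (1 + β) * g3 (k+1)) := by
  have hm : Measurable (fun ω => ENNReal.ofReal (ww (k+1) x ω * bb β k x ω * Real.exp (-(cc * TT β (k+1) x ω)))) := by
    apply Measurable.ennreal_ofReal
    exact ((meas_sec (ww_meas (k+1)) x).mul (meas_sec (bb_meas β k) x)).mul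
      (Real.measurable_exp.comp (((meas_sec (TT_meas β (k+1)) x).const_mul _).neg))
  rw [lintegral_gl k hm]
  have hin : ∀ ω, ∫⁻ ω', ENNReal.ofReal (ww (k+1) x (gl k (ω, ω')) * bb β k x (gl k (ω, ω')) * Real.exp (-(cc * TT β (k+1) x (gl k (ω, ω'))))) ∂PP =
      ENNReal.ofReal (Real.exp (cc^2/2) * (aa β k x ω * Real.exp (-(cc * TT β k x ω)))) := by
    intro ω
    have e : ∀ ω', ww (k+1) x (gl k (ω, ω')) * bb β k x (gl k (ω, ω')) * Real.exp (-(cc * TT β (k+1) x (gl k (ω, ω')))) =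
        (aa β k x ω * Real.exp (-1 - cc * TT β k x ω - cc * s2)) * Real.exp ((s2 + cc) * YY k x (ω' k)) := by
      intro ω'
      have hT : TT β k x (gl k (ω, ω')) = TT β k x ω := (TT_dep β le_rfl x).gl (ω, ω')
      have hw : ww k x (gl k (ω, ω')) = ww k x ω := (ww_dep le_rfl x).gl (ω, ω')
      have hb : bb β k x (gl k (ω, ω')) = bb β k x ω := (bb_dep β le_rfl x).gl (ω, ω')
      have hk : gl k (ω, ω') k = ω' k := by simp [gl]
      unfold aa
      rw [ww_succ, TT_succ, hT, hw, hb, hk]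
      have : Real.exp (s2 * YY k x (ω' k) - 1) * Real.exp (-(cc * (TT β k x ω + (s2 - YY k x (ω' k))))) =
          Real.exp (-1 - cc * TT β k x ω - cc * s2) * Real.exp ((s2 + cc) * YY k x (ω' k)) := by
        rw [← Real.exp_add, ← Real.exp_add]; congr 1; ring
      calc _ = ww k x ω * bb β k x ω * (Real.exp (s2 * YY k x (ω' k) - 1) * Real.exp (-(cc * (TT β k x ω + (s2 - YY k x (ω' k)))))) := by ring
        _ = _ := by rw [this]; ring
    simp_rw [e]
    have h0 : 0 ≤ aa β k x ω * Real.exp (-1 - cc * TT β k x ω - cc * s2) :=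
      mul_nonneg (aa_nonneg _ _ _ _) (Real.exp_pos _).le
    simp_rw [ENNReal.ofReal_mul h0]
    have hyy : Measurable (YY k x) := (YY_GP k).meas x
    have mY : Measurable (fun ω' : Om => YY k x (ω' k)) := hyy.comp (measurable_pi_apply k)
    have mE : Measurable (fun ω' : Om => ENNReal.ofReal (Real.exp ((s2 + cc) * YY k x (ω' k)))) :=
      (Real.measurable_exp.comp (mY.const_mul _)).ennreal_ofReal
    rw [lintegral_const_mul _ mE]
    have hmap : PP.map (fun ω' : Om => YY k x (ω' k)) = gaussianReal 0 1 := by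
      have h1 := (measurePreserving_eval_infinitePi (fun _ : ℕ => Q0) k).map_eq
      have h2 : PP.map (fun ω' : Om => YY k x (ω' k)) = (PP.map (Function.eval k)).map (YY k x) := by
        rw [Measure.map_map hyy (measurable_pi_apply k)]; rfl
      rw [h2]
      unfold PP
      rw [h1]
      exact YY_map k x
    have hmgf := mgf_gaussianReal hmap (s2 + cc)
    have hint : Integrable (fun ω' : Om => Real.exp ((s2 + cc) * YY k x (ω' k))) PP := by
      have h1 := integrable_exp_mul_gaussianReal (μ := 0) (v := 1) (s2 + cc)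
      rw [← hmap] at h1
      exact (integrable_map_measure (by fun_prop) mY.aemeasurable).1 h1
    unfold mgf at hmgf
    rw [← ofReal_integral_eq_lintegral_ofReal hint (Eventually.of_forall fun ω => (Real.exp_pos _).le), hmgf,
      ← ENNReal.ofReal_mul h0]
    congr 1
    have : Real.exp (-1 - cc * TT β k x ω - cc * s2) * Real.exp (0 * (s2 + cc) + ((1:ℝ≥0):ℝ) * (s2 + cc)^2/2) =
        Real.exp (cc^2/2) * Real.exp (-(cc * TT β k x ω)) := by
      rw [← Real.exp_add, ← Real.exp_add]; congr 1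
      have := s2_sq
      simp only [NNReal.coe_one]
      nlinarith
    rw [mul_assoc, this]; ring
  simp_rw [hin]
  have hc := cc_pos
  have hBH : BH (fun y => Real.exp (-(cc * y))) := ⟨by fun_prop, 1, fun y hy => by
    rw [abs_of_pos (Real.exp_pos _), Real.exp_le_one_iff]; nlinarith⟩
  rw [← ofReal_integral_eq_lintegral_ofReal ((B_integrable hβ k hBH x).const_mul _)
    (Eventually.of_forall fun ω => by have := aa_nonneg β k x ω; positivity), integral_const_mul, expect_aa hβ hBH]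
  apply ENNReal.ofReal_le_ofReal
  have := Pr_exp_bound hβ k
  unfold K1
  calc Real.exp (cc^2/2) * (Pr^[k] fun y => Real.exp (-(cc * y))) β ≤ Real.exp (cc^2/2) * ((3456 * Icc' + 8) * (1 + β) * g3 (k+1)) := by gcongr
    _ = _ := by ring

/-- crossing estimate in one window -/
lemma block_cross {β : ℝ} (hβ : 0 ≤ β) (k : ℕ) {r : ℕ} {t : Fin (r+1) → ℝ} (h : Win (k+1) r t) :
    ∫⁻ ω, ENNReal.ofReal (bb β k (t 0) ω * (if ∃ i, TT β (k+1) (t i) ω < 0 then 1 else 0)) ∂PP ≤
      ENNReal.ofReal (Real.exp (-(s2 * β + (k+1))) * ((K1 * (1+β) + K2) * g5 (k+1))) := by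
  set τ := Real.sqrt (Real.sqrt ((k+1 : ℕ):ℝ)) with hτ
  have hτ0 : 0 < τ := Real.sqrt_pos.2 (Real.sqrt_pos.2 (by positivity))
  have hs := s2_pos
  have hpt : ∀ ω, ENNReal.ofReal (bb β k (t 0) ω * (if ∃ i, TT β (k+1) (t i) ω < 0 then 1 else 0)) ≤
      ENNReal.ofReal (Real.exp (-(s2 * β + (k+1)))) * (ENNReal.ofReal τ * ENNReal.ofReal (ww (k+1) (t 0) ω * bb β k (t 0) ω * Real.exp (-(cc * TT β (k+1) (t 0) ω))) +
        ENNReal.ofReal ((τ⁻¹)^5) * ENNReal.ofReal (ww (k+1) (t 0) ω * Real.exp (12 * s2 * Zm (k+1) t ω))) := by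
    intro ω
    have hw := (ww_pos (k+1) (t 0) ω).le
    have hb := bb_nonneg β k (t 0) ω
    have hb1 := bb_le_one β k (t 0) ω
    rw [← ENNReal.ofReal_mul hτ0.le, ← ENNReal.ofReal_mul (by positivity), ← ENNReal.ofReal_add (by positivity) (by positivity),
      ← ENNReal.ofReal_mul (by positivity)]
    apply ENNReal.ofReal_le_ofReal
    split_ifs with hex
    · rw [mul_one]
      obtain ⟨i, hi⟩ := hex
      have hZ := le_Zm (k+1) t ω i
      have hTi : TT β (k+1) (t i) ω = TT β (k+1) (t 0) ω - (X (k+1) (t i) ω - X (k+1) (t 0) ω) := by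
        unfold TT; ring
      have hpos : 0 ≤ Zm (k+1) t ω - TT β (k+1) (t 0) ω := by linarith
      have h1 : 1 ≤ Real.exp (2 * s2 * (Zm (k+1) t ω - TT β (k+1) (t 0) ω)) := Real.one_le_exp (by positivity)
      have e1 : Real.exp (2 * s2 * (Zm (k+1) t ω - TT β (k+1) (t 0) ω)) = Real.exp (-(s2 * β + (k+1))) *
          (ww (k+1) (t 0) ω * (Real.exp (-(s2 * TT β (k+1) (t 0) ω)) * Real.exp (2 * s2 * Zm (k+1) t ω))) := by
        rw [ww_eq_T β]
        push_cast
        rw [← Real.exp_add, ← Real.exp_add, ← Real.exp_add, ← Real.exp_add]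
        congr 1; ring
      have hy := young hτ0 (-(s2 * TT β (k+1) (t 0) ω)) (2 * s2 * Zm (k+1) t ω)
      have e2 : (6/5) * (-(s2 * TT β (k+1) (t 0) ω)) = -(cc * TT β (k+1) (t 0) ω) := by unfold cc; ring
      have e3 : 6 * (2 * s2 * Zm (k+1) t ω) = 12 * s2 * Zm (k+1) t ω := by ring
      rw [e2, e3] at hy
      calc bb β k (t 0) ω ≤ bb β k (t 0) ω * Real.exp (2 * s2 * (Zm (k+1) t ω - TT β (k+1) (t 0) ω)) := by nlinarith
        _ = Real.exp (-(s2 * β + (k+1))) * (bb β k (t 0) ω * ww (k+1) (t 0) ω * (Real.exp (-(s2 * TT β (k+1) (t 0) ω)) * Real.exp (2 * s2 * Zm (k+1) t ω))) := by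
            rw [e1]; ring
        _ ≤ Real.exp (-(s2 * β + (k+1))) * (bb β k (t 0) ω * ww (k+1) (t 0) ω * (τ * Real.exp (-(cc * TT β (k+1) (t 0) ω)) + (τ⁻¹)^5 * Real.exp (12 * s2 * Zm (k+1) t ω))) := by
            gcongr
        _ = Real.exp (-(s2 * β + (k+1))) * (τ * (ww (k+1) (t 0) ω * bb β k (t 0) ω * Real.exp (-(cc * TT β (k+1) (t 0) ω))) + bb β k (t 0) ω * ((τ⁻¹)^5 * (ww (k+1) (t 0) ω * Real.exp (12 * s2 * Zm (k+1) t ω)))) := by
            ring
        _ ≤ _ := by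
            have hnn : 0 ≤ (τ⁻¹)^5 * (ww (k+1) (t 0) ω * Real.exp (12 * s2 * Zm (k+1) t ω)) := by positivity
            have : bb β k (t 0) ω * ((τ⁻¹)^5 * (ww (k+1) (t 0) ω * Real.exp (12 * s2 * Zm (k+1) t ω))) ≤ (τ⁻¹)^5 * (ww (k+1) (t 0) ω * Real.exp (12 * s2 * Zm (k+1) t ω)) := by
              nlinarith
            gcongr
    · rw [mul_zero]; positivity
  refine (lintegral_mono hpt).trans ?_
  have m1 : Measurable (fun ω => ENNReal.ofReal (ww (k+1) (t 0) ω * bb β k (t 0) ω * Real.exp (-(cc * TT β (k+1) (t 0) ω)))) := by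
    apply Measurable.ennreal_ofReal
    exact ((meas_sec (ww_meas (k+1)) _).mul (meas_sec (bb_meas β k) _)).mul
      (Real.measurable_exp.comp (((meas_sec (TT_meas β (k+1)) _).const_mul _).neg))
  have m2 : Measurable (fun ω => ENNReal.ofReal (ww (k+1) (t 0) ω * Real.exp (12 * s2 * Zm (k+1) t ω))) := by
    apply Measurable.ennreal_ofReal
    exact (meas_sec (ww_meas (k+1)) _).mul (Real.measurable_exp.comp ((Zm_meas _ t).const_mul _))
  have m3 : Measurable (fun ω => ENNReal.ofReal τ * ENNReal.ofReal (ww (k+1) (t 0) ω * bb β k (t 0) ω * Real.exp (-(cc * TT β (k+1) (t 0) ω)))) := m1.const_mul _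
  have m4 : Measurable (fun ω => ENNReal.ofReal ((τ⁻¹)^5) * ENNReal.ofReal (ww (k+1) (t 0) ω * Real.exp (12 * s2 * Zm (k+1) t ω))) := m2.const_mul _
  have m34 : Measurable (fun ω => ENNReal.ofReal τ * ENNReal.ofReal (ww (k+1) (t 0) ω * bb β k (t 0) ω * Real.exp (-(cc * TT β (k+1) (t 0) ω))) + ENNReal.ofReal ((τ⁻¹)^5) * ENNReal.ofReal (ww (k+1) (t 0) ω * Real.exp (12 * s2 * Zm (k+1) t ω))) := m3.add m4
  rw [lintegral_const_mul _ m34, lintegral_add_left m3, lintegral_const_mul _ m1, lintegral_const_mul _ m2]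
  have b1 := free_step hβ k (t 0)
  have b2 := weighted_moment h (c := 12 * s2) (by positivity)
  have hg := g3_nonneg (k+1)
  have hK1 := K1_nonneg
  have hK2 := K2_nonneg
  calc _ ≤ ENNReal.ofReal (Real.exp (-(s2 * β + (k+1)))) * (ENNReal.ofReal τ * ENNReal.ofReal (K1 * (1 + β) * g3 (k+1)) +
        ENNReal.ofReal ((τ⁻¹)^5) * ENNReal.ofReal K2) := by
        gcongr
        exact b2
    _ = _ := by
        rw [← ENNReal.ofReal_mul hτ0.le, ← ENNReal.ofReal_mul (by positivity), ← ENNReal.ofReal_add (by positivity) (by positivity),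
          ← ENNReal.ofReal_mul (by positivity)]
        congr 2
        have e := g5_eq (m := k+1) (by omega)
        have e' : (τ⁻¹)^5 = g5 (k+1) := rfl
        rw [e']
        have : τ * (K1 * (1 + β) * g3 (k+1)) = K1 * (1+β) * (Real.sqrt (Real.sqrt ((k+1 : ℕ):ℝ)) * g3 (k+1)) := by rw [← hτ]; ring
        rw [this, e]; ring

end

end Pool.Agent.H968
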