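import Mathlib
import Pool.Agent.H968.GoodD
import Pool.Agent.H968.SHe

open MeasureTheory ProbabilityTheory Filter Topology Set
open scoped ENNReal NNReal

namespace Pool.Agent.H968

noncomputable section

/-- bound of one window -/
def wb (β : ℝ) (k : ℕ) : ℝ := Real.exp (-(s2 * β + (k+1))) * ((K1 * (1+β) + K2) * g5 (k+1))

lemma wb_nonneg {β : ℝ} (hβ : 0 ≤ β) (k : ℕ) : 0 ≤ wb β k := by
  unfold wb
  have h1 := K1_nonneg
  have h2 := K2_nonneg
  have h3 := g5_nonneg (k+1)
  positivity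

lemma block_set {β : ℝ} (hβ : 0 ≤ β) (k : ℕ) (S : Finset ℝ) (hS : S.Nonempty)
    (hd : ∀ a ∈ S, ∀ b ∈ S, b - a ≤ Real.exp (-(k:ℝ))) :
    ∃ x0 ∈ S, PP {ω | bb β k x0 ω ≠ 0 ∧ ∃ y ∈ S, TT β (k+1) y ω < 0} ≤ ENNReal.ofReal (wb β k) := by
  obtain ⟨r, hr⟩ : ∃ r, S.card = r + 1 := ⟨S.card - 1, by
    have := Finset.card_pos.2 hS; omega⟩
  set t := S.orderEmbOfFin hr with ht
  have hmem : ∀ i, t i ∈ S := fun i => Finset.orderEmbOfFin_mem S hr i
  have hwin : Win (k+1) r (fun i => t i) := by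
    refine ⟨by omega, fun i j hij => t.monotone hij, ?_⟩
    have := hd (t 0) (hmem 0) (t (Fin.last r)) (hmem _)
    refine this.trans (le_of_eq ?_)
    congr 1; push_cast; ring
  refine ⟨t 0, hmem 0, ?_⟩
  have hb := block_cross hβ k hwin
  have hm : MeasurableSet {ω | bb β k (t 0) ω ≠ 0 ∧ ∃ y ∈ S, TT β (k+1) y ω < 0} := by
    apply MeasurableSet.inter
    · exact (measurableSet_eq_fun (meas_sec (bb_meas β k) _) measurable_const).compl
    · have : {ω | ∃ y ∈ S, TT β (k+1) y ω < 0} = ⋃ y ∈ S, {ω | TT β (k+1) y ω < 0} := by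
        ext; simp
      show MeasurableSet {ω | ∃ y ∈ S, TT β (k+1) y ω < 0}
      rw [this]
      apply Finset.measurableSet_biUnion
      intro y _
      exact measurableSet_lt (meas_sec (TT_meas β (k+1)) _) measurable_const
  rw [← lintegral_indicator_one hm]
  refine le_trans (lintegral_mono fun ω => ?_) hb
  by_cases hω : ω ∈ {ω | bb β k (t 0) ω ≠ 0 ∧ ∃ y ∈ S, TT β (k+1) y ω < 0}
  · rw [Set.indicator_of_mem hω]
    obtain ⟨h1, y, hy, hy2⟩ := hω
    have h3 : ∃ i, TT β (k+1) (t i) ω < 0 := by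
      have : y ∈ Set.range t := by
        rw [Finset.range_orderEmbOfFin]; exact hy
      obtain ⟨i, hi⟩ := this
      exact ⟨i, by rw [hi]; exact hy2⟩
    rw [if_pos h3]
    rcases bb_01 β k (t 0) ω with h | h
    · exact absurd h h1
    · rw [h]; simp
  · rw [Set.indicator_of_notMem hω]; exact zero_le

lemma measurable_bad (β : ℝ) (n : ℕ) {J : ℕ} (x : Fin J → ℝ) : MeasurableSet {ω | ∃ i, bb β n (x i) ω = 0} := by
  have : {ω | ∃ i, bb β n (x i) ω = 0} = ⋃ i, {ω | bb β n (x i) ω = 0} := by ext; simp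
  rw [this]
  exact MeasurableSet.iUnion fun i => measurableSet_eq_fun (meas_sec (bb_meas β n) _) measurable_const

lemma bad_step {β : ℝ} (hβ : 0 ≤ β) (k : ℕ) {J : ℕ} (x : Fin J → ℝ) (hx : ∀ i, x i ∈ Icc (0:ℝ) 1) :
    PP {ω | ∃ i, bb β (k+1) (x i) ω = 0} ≤ PP {ω | ∃ i, bb β k (x i) ω = 0} +
      ENNReal.ofReal (3 * Real.exp k * wb β k) := by
  classical
  set N := ⌈Real.exp k⌉₊ with hN
  have hN0 : (0:ℝ) < N := by
    have := Nat.le_ceil (Real.exp k)
    exact lt_of_lt_of_le (Real.exp_pos _) this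
  have hN1 : Real.exp k ≤ N := Nat.le_ceil _
  let S : ℕ → Finset ℝ := fun l => (Finset.univ.filter (fun i : Fin J => ⌊(N:ℝ) * x i⌋₊ = l)).image x
  have hS : ∀ l, ∀ a ∈ S l, ∀ b ∈ S l, b - a ≤ Real.exp (-(k:ℝ)) := by
    intro l a ha b hb
    simp only [S, Finset.mem_image, Finset.mem_filter, Finset.mem_univ, true_and] at ha hb
    obtain ⟨i, hi, rfl⟩ := ha
    obtain ⟨j, hj, rfl⟩ := hb
    have h1 : (N:ℝ) * x j < l + 1 := by rw [← hj]; exact_mod_cast Nat.lt_floor_add_one _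
    have h2 : (l:ℝ) ≤ N * x i := by
      rw [← hi]; exact Nat.floor_le (mul_nonneg hN0.le (hx i).1)
    have h3 : (N:ℝ) * (x j - x i) ≤ 1 := by linarith
    have h4 : x j - x i ≤ 1 / N := by rw [le_div_iff₀ hN0]; linarith
    refine h4.trans ?_
    rw [Real.exp_neg, one_div]
    exact inv_anti₀ (Real.exp_pos _) hN1
  have hcase : ∀ l, ∃ Bl : Set Om, PP Bl ≤ ENNReal.ofReal (wb β k) ∧
      ∀ i, ⌊(N:ℝ) * x i⌋₊ = l → ∀ ω, (∀ j, bb β k (x j) ω ≠ 0) → TT β (k+1) (x i) ω < 0 → ω ∈ Bl := by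
    intro l
    by_cases hne : (S l).Nonempty
    · obtain ⟨x0, hx0, hle⟩ := block_set hβ k (S l) hne (hS l)
      refine ⟨_, hle, ?_⟩
      intro i hi ω hω hT
      have hx0' : ∃ j, x j = x0 := by
        simp only [S, Finset.mem_image, Finset.mem_filter, Finset.mem_univ, true_and] at hx0
        obtain ⟨j, _, hj⟩ := hx0
        exact ⟨j, hj⟩
      obtain ⟨j, hj⟩ := hx0'
      refine ⟨by rw [← hj]; exact hω j, x i, ?_, hT⟩
      simp only [S, Finset.mem_image, Finset.mem_filter, Finset.mem_univ, true_and]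
      exact ⟨i, hi, rfl⟩
    · refine ⟨∅, by simp, ?_⟩
      intro i hi ω _ _
      exfalso
      apply hne
      refine ⟨x i, ?_⟩
      simp only [S, Finset.mem_image, Finset.mem_filter, Finset.mem_univ, true_and]
      exact ⟨i, hi, rfl⟩
  choose Bl hBl1 hBl2 using hcase
  have hsub : {ω | ∃ i, bb β (k+1) (x i) ω = 0} ⊆ {ω | ∃ i, bb β k (x i) ω = 0} ∪ ⋃ l ∈ Finset.range (N+1), Bl l := by
    intro ω hω
    obtain ⟨i, hi⟩ := hω
    by_cases hex : ∃ i, bb β k (x i) ω = 0
    · left; exact hex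
    · right
      push Not at hex
      rw [bb_succ] at hi
      have hT : TT β (k+1) (x i) ω < 0 := by
        by_contra hc
        rw [if_pos (not_lt.1 hc), mul_one] at hi
        exact hex i hi
      simp only [mem_iUnion]
      refine ⟨⌊(N:ℝ) * x i⌋₊, ?_, hBl2 _ i rfl ω hex hT⟩
      rw [Finset.mem_range, Nat.lt_succ_iff]
      apply Nat.floor_le_of_le
      have := (hx i).2
      nlinarith
  refine (measure_mono hsub).trans ((measure_union_le _ _).trans ?_)
  gcongr
  refine (measure_biUnion_finset_le _ _).trans ?_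
  refine (Finset.sum_le_sum (fun l _ => hBl1 l)).trans ?_
  rw [Finset.sum_const, Finset.card_range, nsmul_eq_mul]
  have hw := wb_nonneg hβ k
  rw [show ((N+1 : ℕ) : ℝ≥0∞) = ENNReal.ofReal ((N:ℝ)+1) by
    rw [ENNReal.ofReal_add (by positivity) (by norm_num)]; simp]
  rw [← ENNReal.ofReal_mul (by positivity)]
  apply ENNReal.ofReal_le_ofReal
  have h1 : (N:ℝ) < Real.exp k + 1 := Nat.ceil_lt_add_one (Real.exp_pos _).le
  have h2 : (1:ℝ) ≤ Real.exp k := Real.one_le_exp (by positivity)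
  have h3 : (N:ℝ) + 1 ≤ 3 * Real.exp k := by linarith
  exact mul_le_mul_of_nonneg_right h3 hw

/-- the total bound -/
def dl (β : ℝ) : ℝ := 3 * Real.exp (-(s2 * β + 1)) * (K1 * (1+β) + K2) * ∑' k : ℕ, g5 (k+1)

lemma dl_nonneg {β : ℝ} (hβ : 0 ≤ β) : 0 ≤ dl β := by
  unfold dl
  have h1 := K1_nonneg
  have h2 := K2_nonneg
  have h3 : 0 ≤ ∑' k : ℕ, g5 (k+1) := tsum_nonneg fun k => g5_nonneg _
  positivity

lemma bad_bound {β : ℝ} (hβ : 0 ≤ β) (n : ℕ) {J : ℕ} (x : Fin J → ℝ) (hx : ∀ i, x i ∈ Icc (0:ℝ) 1) :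
    PP {ω | ∃ i, bb β n (x i) ω = 0} ≤ ENNReal.ofReal (dl β) := by
  have h1 := K1_nonneg
  have h2 := K2_nonneg
  have key : ∀ n, PP {ω | ∃ i, bb β n (x i) ω = 0} ≤
      ENNReal.ofReal (3 * Real.exp (-(s2 * β + 1)) * (K1 * (1+β) + K2) * ∑ k ∈ Finset.range n, g5 (k+1)) := by
    intro n
    induction n with
    | zero =>
      have : {ω | ∃ i, bb β 0 (x i) ω = 0} = ∅ := by
        ext ω; simp [bb_zero]
      rw [this]; simp
    | succ n ih =>
      refine (bad_step hβ n x hx).trans ?_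
      refine (add_le_add_left ih _).trans ?_
      have hs : 0 ≤ ∑ k ∈ Finset.range n, g5 (k+1) := Finset.sum_nonneg fun k _ => g5_nonneg _
      rw [← ENNReal.ofReal_add (by positivity) (by have := wb_nonneg hβ n; positivity)]
      apply ENNReal.ofReal_le_ofReal
      rw [Finset.sum_range_succ]
      unfold wb
      have e : Real.exp n * Real.exp (-(s2 * β + (n+1))) = Real.exp (-(s2 * β + 1)) := by
        rw [← Real.exp_add]; congr 1; ring
      apply le_of_eq
      calc _ = 3 * Real.exp (-(s2 * β + 1)) * (K1 * (1 + β) + K2) * ∑ k ∈ Finset.range n, g5 (k + 1) +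
          3 * (Real.exp n * Real.exp (-(s2 * β + (n+1)))) * ((K1 * (1 + β) + K2) * g5 (n + 1)) := by ring
        _ = _ := by rw [e]; ring
  refine (key n).trans ?_
  apply ENNReal.ofReal_le_ofReal
  unfold dl
  gcongr
  exact g5_summable.sum_le_tsum _ (fun k _ => g5_nonneg _)

/-- proportion of good points -/
def gd (β : ℝ) (n : ℕ) (ω : Om) : ℝ := ∫ x, bb β n x ω ∂lam

lemma gd_meas (β : ℝ) (n : ℕ) : Measurable (gd β n) := int_param_meas (bb_meas β n)

lemma bb_abs (β : ℝ) (n : ℕ) (x : ℝ) (ω : Om) : |bb β n x ω| ≤ 1 := by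
  rw [abs_of_nonneg (bb_nonneg _ _ _ _)]; exact bb_le_one _ _ _ _

lemma bb_int_x (β : ℝ) (n : ℕ) (ω : Om) : Integrable (fun x => bb β n x ω) lam :=
  Integrable.of_bound (sec_meas_x (bb_meas β n) ω).aestronglyMeasurable 1
    (Eventually.of_forall fun x => bb_abs β n x ω)

lemma gd_nonneg (β : ℝ) (n : ℕ) (ω : Om) : 0 ≤ gd β n ω := integral_nonneg fun x => bb_nonneg _ _ _ _

lemma gd_le_one (β : ℝ) (n : ℕ) (ω : Om) : gd β n ω ≤ 1 := by
  have := integral_mono (bb_int_x β n ω) (integrable_const (1:ℝ)) (fun x => bb_le_one β n x ω)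
  simpa [gd] using this

lemma gd_anti (β : ℝ) {m n : ℕ} (h : m ≤ n) (ω : Om) : gd β n ω ≤ gd β m ω :=
  integral_mono (bb_int_x β n ω) (bb_int_x β m ω) (fun x => bb_anti β h x ω)

lemma gd_dep (β : ℝ) {j k : ℕ} (h : j ≤ k) : Dep k (gd β j) := by
  intro ω ω' h'
  unfold gd
  congr 1; ext x
  exact bb_dep β h x ω ω' h'

lemma gd_moment {β : ℝ} (hβ : 0 ≤ β) (n J : ℕ) : 1 - dl β ≤ ∫ ω, (gd β n ω)^J ∂PP := by
  unfold gd
  rw [moment_formula (P := PP) (bb_meas β n) (fun x ω => bb_abs β n x ω) lam J]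
  have hpt : ∀ x : Fin J → ℝ, (∀ i, x i ∈ Icc (0:ℝ) 1) → 1 - dl β ≤ ∫ ω, ∏ i, bb β n (x i) ω ∂PP := by
    intro x hx
    have hb := bad_bound hβ n x hx
    have hm := measurable_bad β n x
    have e : ∀ ω, ∏ i, bb β n (x i) ω = 1 - ({ω | ∃ i, bb β n (x i) ω = 0}.indicator (fun _ => (1:ℝ)) ω) := by
      intro ω
      by_cases h : ω ∈ {ω | ∃ i, bb β n (x i) ω = 0}
      · rw [Set.indicator_of_mem h]
        obtain ⟨i, hi⟩ := h
        rw [Finset.prod_eq_zero (Finset.mem_univ i) hi]; ring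
      · rw [Set.indicator_of_notMem h]
        have : ∀ i, bb β n (x i) ω = 1 := by
          intro i
          rcases bb_01 β n (x i) ω with h1 | h1
          · exact absurd ⟨i, h1⟩ h
          · exact h1
        rw [Finset.prod_eq_one (fun i _ => this i)]; ring
    simp_rw [e]
    rw [integral_sub (integrable_const _) ((integrable_const (1:ℝ)).indicator hm), integral_indicator_const _ hm]
    simp only [integral_const, probReal_univ, smul_eq_mul, mul_one]
    have : PP.real {ω | ∃ i, bb β n (x i) ω = 0} ≤ dl β := by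
      unfold Measure.real
      exact ENNReal.toReal_le_of_le_ofReal (dl_nonneg hβ) hb
    linarith
  have hae : ∀ᵐ x : Fin J → ℝ ∂(Measure.pi fun _ => lam), ∀ i, x i ∈ Icc (0:ℝ) 1 := by
    rw [ae_all_iff]
    intro i
    exact (Measure.quasiMeasurePreserving_eval (fun _ : Fin J => lam) i).ae lam_mem
  have hI : Integrable (fun x : Fin J → ℝ => ∫ ω, ∏ i, bb β n (x i) ω ∂PP) (Measure.pi fun _ => lam) := by
    have hmm : Measurable (Function.uncurry fun (x : Fin J → ℝ) (ω : Om) => ∏ i, bb β n (x i) ω) := by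
      apply Finset.measurable_prod
      intro i _
      exact meas2 (bb_meas β n) ((measurable_pi_apply i).comp measurable_fst) measurable_snd
    refine Integrable.of_bound (C := 1) (StronglyMeasurable.integral_prod_right' (ν := PP) hmm.stronglyMeasurable).aestronglyMeasurable
      (Eventually.of_forall fun x => ?_)
    have := norm_integral_le_of_norm_le_const (μ := PP) (f := fun ω => ∏ i, bb β n (x i) ω) (C := 1)
      (Eventually.of_forall fun ω => ?_)
    · simpa using this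
    · rw [Real.norm_eq_abs, Finset.abs_prod]
      exact Finset.prod_le_one (fun _ _ => abs_nonneg _) (fun i _ => bb_abs β n _ _)
  have h := integral_mono_ae (integrable_const (1 - dl β)) hI (hae.mono fun x hx => hpt x hx)
  simpa using h

/-- good event -/
def GG (β : ℝ) (n : ℕ) : Set Om := {ω | gd β n ω = 1}

lemma GG_meas (β : ℝ) (n : ℕ) : MeasurableSet (GG β n) := measurableSet_eq_fun (gd_meas β n) measurable_const

lemma GG_anti (β : ℝ) {m n : ℕ} (h : m ≤ n) : GG β n ⊆ GG β m := by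
  intro ω hω
  have h1 := gd_anti β h ω
  have h2 := gd_le_one β m ω
  have h3 : gd β n ω = 1 := hω
  show gd β m ω = 1
  linarith

lemma GG_prob {β : ℝ} (hβ : 0 ≤ β) (n : ℕ) : 1 - dl β ≤ PP.real (GG β n) := by
  have hlim : Tendsto (fun J : ℕ => ∫ ω, (gd β n ω)^J ∂PP) atTop (𝓝 (∫ ω, (GG β n).indicator (fun _ => (1:ℝ)) ω ∂PP)) := by
    apply tendsto_integral_of_dominated_convergence (fun _ => (1:ℝ))
    · intro J; exact ((gd_meas β n).pow_const _).aestronglyMeasurable
    · exact integrable_const _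
    · intro J
      refine Eventually.of_forall fun ω => ?_
      rw [Real.norm_eq_abs, abs_pow, abs_of_nonneg (gd_nonneg _ _ _)]
      exact pow_le_one₀ (gd_nonneg _ _ _) (gd_le_one _ _ _)
    · refine Eventually.of_forall fun ω => ?_
      by_cases h : ω ∈ GG β n
      · rw [Set.indicator_of_mem h]
        have : gd β n ω = 1 := h
        simp [this]
      · rw [Set.indicator_of_notMem h]
        apply tendsto_pow_atTop_nhds_zero_of_lt_one (gd_nonneg _ _ _)
        exact lt_of_le_of_ne (gd_le_one _ _ _) h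
  have h := ge_of_tendsto' hlim (fun J => gd_moment hβ n J)
  rw [integral_indicator_const _ (GG_meas β n)] at h
  simpa using h

lemma GG_ae {β : ℝ} {n : ℕ} {ω : Om} (h : ω ∈ GG β n) : ∀ᵐ x ∂lam, bb β n x ω = 1 := by
  have h1 : ∫ x, (1 - bb β n x ω) ∂lam = 0 := by
    rw [integral_sub (integrable_const _) (bb_int_x β n ω)]
    have : ∫ x, bb β n x ω ∂lam = 1 := h
    rw [this]; simp
  have h2 := (integral_eq_zero_iff_of_nonneg (fun x => sub_nonneg.2 (bb_le_one β n x ω))
    ((integrable_const (1:ℝ)).sub (bb_int_x β n ω))).1 h1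
  refine h2.mono fun x hx => ?_
  have hx' : 1 - bb β n x ω = 0 := hx
  linarith

lemma dl_tendsto : Tendsto dl atTop (𝓝 0) := by
  have h1 : Tendsto (fun β : ℝ => Real.exp (-(s2 * β))) atTop (𝓝 0) := by
    have : Tendsto (fun β : ℝ => s2 * β) atTop atTop := tendsto_id.const_mul_atTop s2_pos
    exact Real.tendsto_exp_neg_atTop_nhds_zero.comp this
  have h2 : Tendsto (fun β : ℝ => Real.exp (-(s2 * β)) * β) atTop (𝓝 0) := by
    have h3 : Tendsto (fun β : ℝ => (s2 * β)^1 * Real.exp (-(s2 * β))) atTop (𝓝 0) :=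
      (Real.tendsto_pow_mul_exp_neg_atTop_nhds_zero 1).comp (tendsto_id.const_mul_atTop s2_pos)
    have h4 := h3.const_mul (s2⁻¹)
    rw [mul_zero] at h4
    refine h4.congr fun β => ?_
    have := s2_pos.ne'
    field_simp
  have h5 : Tendsto (fun β : ℝ => 3 * Real.exp (-1) * (∑' k : ℕ, g5 (k+1)) *
      (K1 * (Real.exp (-(s2 * β)) + Real.exp (-(s2 * β)) * β) + K2 * Real.exp (-(s2 * β)))) atTop (𝓝 0) := by
    have := (((h1.add h2).const_mul K1).add (h1.const_mul K2)).const_mul (3 * Real.exp (-1) * (∑' k : ℕ, g5 (k+1)))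
    simpa using this
  refine h5.congr fun β => ?_
  unfold dl
  rw [show -(s2 * β + 1) = -(s2 * β) + -1 by ring, Real.exp_add]
  ring

end

end Pool.Agent.H968
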