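import Mathlib
import Pool.Agent.H968.GoodE

open MeasureTheory ProbabilityTheory Filter Topology Set
open scoped ENNReal NNReal

namespace Pool.Agent.H968

noncomputable section

/-- increments of the field -/
def XI (j k : ℕ) (x : ℝ) (ω : Om) : ℝ := X k x ω - X j x ω

/-- covariance of the increments -/
def CI (j k : ℕ) (x y : ℝ) : ℝ := Cm k x y - Cm j x y

lemma XI_meas (j k : ℕ) : Measurable (Function.uncurry (XI j k)) := (X_meas k).sub (X_meas j)

lemma XI_GP {j k : ℕ} (h : j ≤ k) : GP PP (XI j k) (CI j k) := by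
  have h1 := X_GP.lin2 (T := ℝ) (fun x => (k, x)) (fun x => (j, x)) (fun _ => 1) (fun _ => -1)
  constructor
  · intro x; exact meas_sec (XI_meas j k) x
  · intro m s a
    have h2 := h1.char m s a
    simp only [CX, min_self, min_eq_left h, min_eq_right h] at h2
    have e : ∀ (x : ℝ) (ω : Om), XI j k x ω = 1 * X k x ω + -1 * X j x ω := by
      intro x ω; unfold XI; ring
    simp_rw [e]
    rw [h2]
    congr 4
    apply Finset.sum_congr rfl; intro i _
    apply Finset.sum_congr rfl; intro i' _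
    unfold CI Cm
    ring

/-- increment density -/
def gg (j k : ℕ) (x : ℝ) (ω : Om) : ℝ := Real.exp (s2 / 2 * XI j k x ω - ((k:ℝ) - j) / 4)

lemma gg_pos (j k : ℕ) (x : ℝ) (ω : Om) : 0 < gg j k x ω := Real.exp_pos _

lemma gg_meas (j k : ℕ) : Measurable (Function.uncurry (gg j k)) := by
  show Measurable (fun p : ℝ × Om => Real.exp (s2 / 2 * Function.uncurry (XI j k) p - ((k:ℝ)-j)/4))
  exact Real.measurable_exp.comp (((XI_meas j k).const_mul (s2/2)).sub_const _)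

lemma hh_eq_gg (k : ℕ) (x : ℝ) (ω : Om) : hh k x ω = gg 0 k x ω := by
  unfold hh gg XI; rw [X_zero]; simp

lemma gg_self (k : ℕ) (x : ℝ) (ω : Om) : gg k k x ω = 1 := by
  unfold gg XI; simp

lemma gg_prod_eq (j k : ℕ) {m : ℕ} (x : Fin m → ℝ) (ω : Om) :
    ∏ i, gg j k (x i) ω = Real.exp (-(m * (((k:ℝ)-j)/4))) * Real.exp (∑ i, (s2/2) * XI j k (x i) ω) := by
  unfold gg
  rw [← Real.exp_sum, ← Real.exp_add]
  congr 1
  rw [Finset.sum_sub_distrib]
  simp
  ring

lemma gg_prod_int {j k : ℕ} (h : j ≤ k) {m : ℕ} (x : Fin m → ℝ) :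
    Integrable (fun ω => ∏ i, gg j k (x i) ω) PP ∧
    ∫ ω, ∏ i, gg j k (x i) ω ∂PP = Real.exp ((∑ i, ∑ i', CI j k (x i) (x i'))/4 - m * (((k:ℝ)-j)/4)) := by
  simp_rw [gg_prod_eq]
  have h1 := (XI_GP h).integrable_exp x (fun _ => s2/2)
  have h2 := (XI_GP h).integral_exp x (fun _ => s2/2)
  refine ⟨h1.const_mul _, ?_⟩
  rw [integral_const_mul, h2, ← Real.exp_add]
  congr 1
  unfold qf
  have e : ∑ i, ∑ i', s2/2 * (s2/2) * CI j k (x i) (x i') = (1/2) * ∑ i, ∑ i', CI j k (x i) (x i') := by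
    rw [Finset.mul_sum]
    apply Finset.sum_congr rfl; intro i _
    rw [Finset.mul_sum]
    apply Finset.sum_congr rfl; intro i' _
    have := s2_sq
    have : s2/2 * (s2/2) = 1/2 := by nlinarith
    rw [this]
  rw [e]; ring

lemma CI_diag {j k : ℕ} (x : ℝ) : CI j k x x = (k:ℝ) - j := by
  unfold CI Cm; simp [CK_diag]

lemma CI_eq {j k : ℕ} {x y : ℝ} (h : |x - y| ≤ 1) : CI j k x y = KK k (x-y) - KK j (x-y) := by
  unfold CI; rw [Cm_eq h, Cm_eq h]

lemma CI_eq' {j k : ℕ} {x y : ℝ} (h : |x - y| ≤ 1) : CI j k y x = KK k (x-y) - KK j (x-y) := by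
  rw [CI_eq (by rw [abs_sub_comm]; exact h), ← KK_neg k, ← KK_neg j, neg_sub]

/-- exponential kernel -/
def ek (j k : ℕ) (τ : ℝ) : ℝ := Real.exp ((KK k τ - KK j τ)/2)

lemma ek_pos (j k : ℕ) (τ : ℝ) : 0 < ek j k τ := Real.exp_pos _

lemma ek_cont (j k : ℕ) : Continuous (ek j k) := by
  unfold ek
  exact Real.continuous_exp.comp (((KK_cont k).sub (KK_cont j)).div_const _)

lemma ek_neg (j k : ℕ) (τ : ℝ) : ek j k (-τ) = ek j k τ := by unfold ek; rw [KK_neg, KK_neg]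

lemma ek_anti {j k : ℕ} (h : j ≤ k) {s t : ℝ} (hst : |s| ≤ |t|) : ek j k t ≤ ek j k s := by
  unfold ek; apply Real.exp_le_exp.2; have := KKd_anti h hst; linarith

lemma ek_ge_one {j k : ℕ} (h : j ≤ k) {τ : ℝ} (hτ : |τ| ≤ 1) : 1 ≤ ek j k τ := by
  unfold ek; apply Real.one_le_exp; have := KK_mono h hτ; linarith

lemma ek_zero (j k : ℕ) : ek j k 0 = Real.exp (((k:ℝ)-j)/2) := by unfold ek; rw [KK_at_zero, KK_at_zero]

lemma ek_le {j k : ℕ} (h : j ≤ k) (τ : ℝ) : ek j k τ ≤ Real.exp (((k:ℝ)-j)/2) := by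
  rw [← ek_zero]; exact ek_anti h (by simp)

lemma ek_mul (i j k : ℕ) (τ : ℝ) : ek i j τ * ek j k τ = ek i k τ := by
  unfold ek; rw [← Real.exp_add]; congr 1; ring

lemma gg_one {j k : ℕ} (h : j ≤ k) (x : ℝ) : Integrable (gg j k x) PP ∧ ∫ ω, gg j k x ω ∂PP = 1 := by
  have := gg_prod_int h (m := 1) (fun _ => x)
  simp only [Finset.univ_unique, Finset.prod_singleton, Finset.sum_singleton, CI_diag] at this
  refine ⟨this.1, ?_⟩
  rw [this.2]
  norm_num

lemma gg_two {j k : ℕ} (h : j ≤ k) {x y : ℝ} (hxy : |x - y| ≤ 1) :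
    Integrable (fun ω => gg j k x ω * gg j k y ω) PP ∧ ∫ ω, gg j k x ω * gg j k y ω ∂PP = ek j k (x - y) := by
  have := gg_prod_int h (m := 2) ![x, y]
  simp only [Fin.prod_univ_two, Fin.sum_univ_two, Matrix.cons_val_zero, Matrix.cons_val_one, CI_diag, CI_eq hxy, CI_eq' hxy] at this
  refine ⟨this.1, ?_⟩
  rw [this.2]
  unfold ek
  congr 1
  push_cast
  ring

lemma gg_three {j k : ℕ} (h : j ≤ k) {x y z : ℝ} (hxy : |x - y| ≤ 1) (hyz : |y - z| ≤ 1) (hxz : |x - z| ≤ 1) :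
    Integrable (fun ω => gg j k x ω * gg j k y ω * gg j k z ω) PP ∧
    ∫ ω, gg j k x ω * gg j k y ω * gg j k z ω ∂PP = ek j k (x - y) * ek j k (y - z) * ek j k (x - z) := by
  have := gg_prod_int h (m := 3) ![x, y, z]
  simp only [Fin.prod_univ_three, Fin.sum_univ_three, Matrix.cons_val_zero, Matrix.cons_val_one, Matrix.cons_val_two,
    Matrix.tail_cons, Matrix.head_cons, CI_diag, CI_eq hxy, CI_eq' hxy, CI_eq hyz, CI_eq' hyz, CI_eq hxz, CI_eq' hxz] at this
  refine ⟨this.1, ?_⟩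
  rw [this.2]
  unfold ek
  rw [← Real.exp_add, ← Real.exp_add]
  congr 1
  push_cast
  ring

/-- gluing identity -/
lemma XI_gl_ge {i j : ℕ} (h : i ≤ j) (x : ℝ) (p : Om × Om) : X j x (gl i p) = X i x p.1 + XI i j x p.2 := by
  rw [X_gl_ge h]; unfold XI; ring

lemma hh_gl {i j : ℕ} (h : i ≤ j) (x : ℝ) (ω ω' : Om) : hh j x (gl i (ω, ω')) = hh i x ω * gg i j x ω' := by
  unfold hh gg
  rw [XI_gl_ge h, ← Real.exp_add]; congr 1; ring

lemma gg_gl {o i j : ℕ} (h : i ≤ j) (hoi : o ≤ i) (x : ℝ) (ω ω' : Om) :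
    gg o j x (gl i (ω, ω')) = gg o i x ω * gg i j x ω' := by
  unfold gg
  have h1 : XI o j x (gl i (ω, ω')) = XI o i x ω + XI i j x ω' := by
    unfold XI
    rw [XI_gl_ge h, X_gl_le hoi]; unfold XI; ring
  rw [h1, ← Real.exp_add]; congr 1; ring

lemma gg_dep {o j k : ℕ} (h : j ≤ k) (ho : o ≤ k) (x : ℝ) : Dep k (gg o j x) := by
  intro ω ω' h'; unfold gg XI; rw [X_dep h x ω ω' h', X_dep ho x ω ω' h']

lemma gg_mixed {o i j : ℕ} (hoi : o ≤ i) (hij : i ≤ j) {x y : ℝ} (hxy : |x - y| ≤ 1) :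
    Integrable (fun ω => gg o i x ω * gg o j y ω) PP ∧ ∫ ω, gg o i x ω * gg o j y ω ∂PP = ek o i (x - y) := by
  have hI : Integrable (fun ω => gg o i x ω * gg o j y ω) PP := by
    have h1 := (gg_two hoi (x := x) (y := x) (by simp)).1
    have h2 := (gg_two (hoi.trans hij) (x := y) (y := y) (by simp)).1
    refine Integrable.mono' (h1.add h2) ((meas_sec (gg_meas o i) x).mul (meas_sec (gg_meas o j) y)).aestronglyMeasurable
      (Eventually.of_forall fun ω => ?_)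
    have p1 := gg_pos o i x ω; have p2 := gg_pos o j y ω
    rw [Real.norm_eq_abs, abs_of_pos (by positivity)]
    simp only [Pi.add_apply]
    nlinarith [sq_nonneg (gg o i x ω - gg o j y ω), sq_nonneg (gg o i x ω + gg o j y ω)]
  refine ⟨hI, ?_⟩
  rw [integral_gl (k := i) hI]
  have e : ∀ ω ω', gg o i x (gl i (ω, ω')) * gg o j y (gl i (ω, ω')) = (gg o i x ω * gg o i y ω) * gg i j y ω' := by
    intro ω ω'
    have h1 : gg o i x (gl i (ω, ω')) = gg o i x ω := (gg_dep le_rfl hoi x).gl (ω, ω')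
    rw [h1, gg_gl hij hoi]; ring
  simp_rw [e]
  have e2 : ∀ ω, ∫ ω', (gg o i x ω * gg o i y ω) * gg i j y ω' ∂PP = gg o i x ω * gg o i y ω := by
    intro ω
    rw [integral_const_mul, (gg_one hij y).2, mul_one]
  simp_rw [e2]
  exact (gg_two hoi hxy).2

/-- weighted covariance -/
lemma cov_weight {o i j : ℕ} (hoi : o ≤ i) (hij : i ≤ j) {A : Om → ℝ} (hA : Dep o A) (hAm : Measurable A) {K : ℝ}
    (hK : ∀ ω, |A ω| ≤ K) {x y : ℝ} (hxy : |x - y| ≤ 1) :
    ∫ ω, A ω * (hh i x ω * hh j y ω) ∂PP = (∫ ω, A ω * (hh o x ω * hh o y ω) ∂PP) * ek o i (x - y) := by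
  have hI0 : Integrable (fun ω => hh i x ω * hh j y ω) PP := by
    simp_rw [hh_eq_gg]; exact (gg_mixed (Nat.zero_le _) hij hxy).1
  have hI : Integrable (fun ω => A ω * (hh i x ω * hh j y ω)) PP :=
    hI0.bdd_mul (c := K) hAm.aestronglyMeasurable (Eventually.of_forall hK)
  rw [integral_gl (k := o) hI]
  have e : ∀ ω ω', A (gl o (ω, ω')) * (hh i x (gl o (ω, ω')) * hh j y (gl o (ω, ω'))) =
      (A ω * (hh o x ω * hh o y ω)) * (gg o i x ω' * gg o j y ω') := by
    intro ω ω'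
    have h1 : A (gl o (ω, ω')) = A ω := hA.gl (ω, ω')
    rw [h1, hh_gl hoi, hh_gl (hoi.trans hij)]; ring
  simp_rw [e, integral_const_mul, (gg_mixed hoi hij hxy).2, integral_mul_const]

/-- the critical density is integrable -/
lemma ww_one (k : ℕ) (x : ℝ) : Integrable (ww k x) PP ∧ ∫ ω, ww k x ω ∂PP = 1 := by
  have h1 := (Xm_GP k).integrable_exp (m := 1) (fun _ => x) (fun _ => s2)
  have h2 := (Xm_GP k).integral_exp (m := 1) (fun _ => x) (fun _ => s2)
  simp only [Finset.univ_unique, Finset.sum_singleton] at h1 h2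
  have e : ∀ ω, ww k x ω = Real.exp (-(k:ℝ)) * Real.exp (s2 * X k x ω) := by
    intro ω; unfold ww; rw [← Real.exp_add]; congr 1; ring
  have e' : ww k x = fun ω => Real.exp (-(k:ℝ)) * Real.exp (s2 * X k x ω) := funext e
  constructor
  · rw [e']; exact h1.const_mul _
  · simp_rw [e]
    rw [integral_const_mul, h2, ← Real.exp_add]
    unfold qf
    simp only [Finset.univ_unique, Finset.sum_singleton]
    have : Cm k x x = k := by unfold Cm; simp [CK_diag]
    rw [this]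
    have h3 := s2_sq
    have : -(k:ℝ) + s2 * s2 * k / 2 = 0 := by rw [h3]; ring
    rw [this, Real.exp_zero]

lemma ww_prod_int (k : ℕ) : Integrable (fun q : ℝ × Om => ww k q.1 q.2) (lam.prod PP) := by
  have hm : Measurable (fun q : ℝ × Om => ww k q.1 q.2) := ww_meas k
  rw [integrable_prod_iff hm.aestronglyMeasurable]
  constructor
  · exact Eventually.of_forall fun x => (ww_one k x).1
  · have : (fun x => ∫ ω, ‖ww k x ω‖ ∂PP) = fun _ => (1:ℝ) := by
      ext x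
      rw [← (ww_one k x).2]
      congr 1; ext ω
      rw [Real.norm_eq_abs, abs_of_pos (ww_pos _ _ _)]
    rw [this]; exact integrable_const _

lemma ww_int_ae (k : ℕ) : ∀ᵐ ω ∂PP, Integrable (fun x => ww k x ω) lam := (ww_prod_int k).prod_left_ae

end

end Pool.Agent.H968
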