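import Mathlib
import Pool.Agent.H968.Mom

open MeasureTheory ProbabilityTheory Filter Topology Set
open scoped ENNReal NNReal

namespace Pool.Agent.H968

noncomputable section

lemma cos_int_bdd {a ψ : ℝ} {G : ℝ → ℝ} (hG : Integrable G) : Integrable (fun x => Real.cos (a * x + ψ) * G x) := by
  refine hG.bdd_mul (c := 1) (by fun_prop) (Eventually.of_forall fun x => ?_)
  rw [Real.norm_eq_abs]; exact Real.abs_cos_le_one _

lemma osc_shift {n : ℕ} (hn : n ≠ 0) (ψ : ℝ) {G : ℝ → ℝ} (hG : Integrable G) :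
    2 * ∫ x, Real.cos (2 * Real.pi * n * x + ψ) * G x =
      ∫ x, Real.cos (2 * Real.pi * n * x + ψ) * (G x - G (x + 1/(2*n))) := by
  have hn' : (n:ℝ) ≠ 0 := by exact_mod_cast hn
  have h1 : ∫ x, Real.cos (2 * Real.pi * n * x + ψ) * G (x + 1/(2*n)) =
      - ∫ x, Real.cos (2 * Real.pi * n * x + ψ) * G x := by
    have h2 := integral_add_right_eq_self (μ := volume)
      (fun x => Real.cos (2 * Real.pi * n * (x - 1/(2*n)) + ψ) * G x) (1/(2*n) : ℝ)
    have e1 : ∀ x : ℝ, Real.cos (2 * Real.pi * n * (x + 1/(2*n) - 1/(2*n)) + ψ) * G (x + 1/(2*n)) =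
        Real.cos (2 * Real.pi * n * x + ψ) * G (x + 1/(2*n)) := by
      intro x; rw [add_sub_cancel_right]
    simp_rw [e1] at h2
    rw [h2, ← integral_neg]
    congr 1; ext x
    have : 2 * Real.pi * n * (x - 1/(2*n)) + ψ = (2 * Real.pi * n * x + ψ) - Real.pi := by
      field_simp; ring
    rw [this, Real.cos_sub_pi]; ring
  have hG2 : Integrable (fun x => G (x + 1/(2*n))) := hG.comp_add_right _
  have e : ∀ x, Real.cos (2 * Real.pi * n * x + ψ) * (G x - G (x + 1/(2*n))) =
      Real.cos (2 * Real.pi * n * x + ψ) * G x - Real.cos (2 * Real.pi * n * x + ψ) * G (x + 1/(2*n)) := by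
    intro x; ring
  simp_rw [e]
  rw [integral_sub (cos_int_bdd hG) (cos_int_bdd hG2), h1]
  ring

lemma osc_one {n : ℕ} (hn : n ≠ 0) (ψ : ℝ) {κ : ℝ → ℝ} {b : ℝ} (hb : 0 ≤ b) (hκ : AntitoneOn κ (Icc 0 b))
    (h0 : ∀ x ∈ Icc 0 b, 0 ≤ κ x) :
    |∫ x in (0:ℝ)..b, Real.cos (2 * Real.pi * n * x + ψ) * κ x| ≤ κ 0 / (2 * n) := by
  have hn' : (0:ℝ) < n := by exact_mod_cast Nat.pos_of_ne_zero hn
  set δ : ℝ := 1/(2*n) with hδ
  have hδ0 : 0 < δ := by positivity
  set G : ℝ → ℝ := (Ioc 0 b).indicator κ with hG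
  have hint : IntegrableOn κ (Ioc 0 b) := (hκ.integrableOn_isCompact isCompact_Icc).mono_set Ioc_subset_Icc_self
  have hGi : Integrable G := hint.integrable_indicator measurableSet_Ioc
  have hκ0 : 0 ≤ κ 0 := h0 0 ⟨le_rfl, hb⟩
  have hG0 : ∀ x, 0 ≤ G x := by
    intro x; apply Set.indicator_nonneg; intro y hy; exact h0 y ⟨hy.1.le, hy.2⟩
  have hG1 : ∀ x, G x ≤ κ 0 := by
    intro x
    by_cases hx : x ∈ Ioc 0 b
    · rw [hG, Set.indicator_of_mem hx]; exact hκ ⟨le_rfl, hb⟩ ⟨hx.1.le, hx.2⟩ hx.1.le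
    · rw [hG, Set.indicator_of_notMem hx]; exact hκ0
  have e1 : ∫ x in (0:ℝ)..b, Real.cos (2 * Real.pi * n * x + ψ) * κ x = ∫ x, Real.cos (2 * Real.pi * n * x + ψ) * G x := by
    rw [intervalIntegral.integral_of_le hb, ← integral_indicator measurableSet_Ioc]
    congr 1; ext x
    by_cases hx : x ∈ Ioc 0 b
    · rw [Set.indicator_of_mem hx, hG, Set.indicator_of_mem hx]
    · rw [Set.indicator_of_notMem hx, hG, Set.indicator_of_notMem hx, mul_zero]
  have h2 := osc_shift hn ψ hGi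
  rw [e1]
  have hpt : ∀ x, |G x - G (x + δ)| ≤ (G x - G (x + δ)) + 2 * κ 0 * (Ioc (-δ) 0).indicator (fun _ => (1:ℝ)) x := by
    intro x
    by_cases hx : x ∈ Ioc (-δ) 0
    · rw [Set.indicator_of_mem hx]
      have g1 : G x = 0 := by
        rw [hG, Set.indicator_of_notMem]; intro h; exact absurd h.1 (not_lt.2 hx.2)
      rw [g1, zero_sub, abs_neg, abs_of_nonneg (hG0 _)]
      have := hG1 (x+δ)
      linarith
    · rw [Set.indicator_of_notMem hx, mul_zero, add_zero]
      have : G (x + δ) ≤ G x := by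
        rcases le_or_gt x 0 with h | h
        · have hx2 : x ≤ -δ := by
            by_contra hc; exact hx ⟨not_le.1 hc, h⟩
          have : G (x+δ) = 0 := by
            rw [hG, Set.indicator_of_notMem]; intro h; have := h.1; linarith
          rw [this]; exact hG0 _
        · by_cases hxb : x + δ ≤ b
          · rw [hG, Set.indicator_of_mem (show x + δ ∈ Ioc 0 b from ⟨by linarith, hxb⟩),
              Set.indicator_of_mem (show x ∈ Ioc 0 b from ⟨h, by linarith⟩)]
            exact hκ ⟨h.le, by linarith⟩ ⟨by linarith, hxb⟩ (by linarith)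
          · have : G (x+δ) = 0 := by
              rw [hG, Set.indicator_of_notMem]; intro h; exact hxb h.2
            rw [this]; exact hG0 _
      rw [abs_of_nonneg (by linarith)]
  have hGi2 : Integrable (fun x => G (x + δ)) := hGi.comp_add_right _
  have hD : Integrable (fun x => G x - G (x + δ)) := hGi.sub hGi2
  have hIn : Integrable ((Ioc (-δ) 0).indicator (fun _ => (1:ℝ))) := by
    apply IntegrableOn.integrable_indicator _ measurableSet_Ioc
    exact integrableOn_const (by simp) (by simp)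
  have h3 : |∫ x, Real.cos (2 * Real.pi * n * x + ψ) * (G x - G (x + δ))| ≤ 2 * κ 0 * δ := by
    refine (abs_integral_le_integral_abs).trans ?_
    have h4 : ∫ x, |Real.cos (2 * Real.pi * n * x + ψ) * (G x - G (x + δ))| ≤
        ∫ x, ((G x - G (x + δ)) + 2 * κ 0 * (Ioc (-δ) 0).indicator (fun _ => (1:ℝ)) x) := by
      apply integral_mono (cos_int_bdd hD).abs (hD.add (hIn.const_mul _))
      intro x
      simp only [Pi.add_apply]
      rw [abs_mul]
      have := Real.abs_cos_le_one (2 * Real.pi * n * x + ψ)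
      have h5 := hpt x
      have h6 := abs_nonneg (G x - G (x+δ))
      nlinarith [abs_nonneg (Real.cos (2 * Real.pi * n * x + ψ))]
    refine h4.trans ?_
    rw [integral_add hD (hIn.const_mul _), integral_sub hGi hGi2, integral_add_right_eq_self (μ := volume) G δ, sub_self, zero_add,
      integral_const_mul, integral_indicator_const _ measurableSet_Ioc]
    simp [Measure.real, hδ0.le]
  rw [← h2, abs_mul, abs_of_pos (by norm_num : (0:ℝ) < 2)] at h3
  have : κ 0 / (2 * n) = κ 0 * δ := by rw [hδ]; ring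
  rw [this]; linarith

/-- the test function -/
def ff (n : ℕ) (φ : ℝ) (x : ℝ) : ℝ := Real.cos (2 * Real.pi * n * x - φ)

lemma ff_cont (n : ℕ) (φ : ℝ) : Continuous (ff n φ) := by unfold ff; fun_prop

lemma ff_abs (n : ℕ) (φ x : ℝ) : |ff n φ x| ≤ 1 := Real.abs_cos_le_one _

lemma ff_neg (n : ℕ) (φ x : ℝ) : ff n φ (-x) = ff n (-φ) x := by
  unfold ff; rw [← Real.cos_neg]; congr 1; ring

lemma ff_half {n : ℕ} (hn : n ≠ 0) (φ x : ℝ) : ff n φ (x + 1/(2*n)) = - ff n φ x := by
  have hn' : (n:ℝ) ≠ 0 := by exact_mod_cast hn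
  unfold ff
  have : 2 * Real.pi * n * (x + 1/(2*n)) - φ = (2 * Real.pi * n * x - φ) + Real.pi := by
    field_simp; ring
  rw [this, Real.cos_add_pi]

lemma lam_integral (g : ℝ → ℝ) : ∫ y, g y ∂lam = ∫ y in (0:ℝ)..1, g y := by
  unfold lam
  rw [intervalIntegral.integral_of_le zero_le_one, integral_Icc_eq_integral_Ioc]

/-- oscillating integral against a decreasing kernel -/
lemma osc_two {n : ℕ} (hn : n ≠ 0) (φ : ℝ) {κ : ℝ → ℝ} (hc : Continuous κ) (h0 : ∀ τ, |τ| ≤ 1 → 0 ≤ κ τ)
    (ha : ∀ s t, |s| ≤ |t| → κ t ≤ κ s) {x : ℝ} (hx : x ∈ Icc (0:ℝ) 1) :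
    |∫ y, ff n φ y * κ (x - y) ∂lam| ≤ κ 0 / n := by
  have hn' : (0:ℝ) < n := by exact_mod_cast Nat.pos_of_ne_zero hn
  rw [lam_integral, ← intervalIntegral.integral_add_adjacent_intervals (b := x)
    (by apply Continuous.intervalIntegrable; exact (ff_cont n φ).mul (hc.comp (by fun_prop)))
    (by apply Continuous.intervalIntegrable; exact (ff_cont n φ).mul (hc.comp (by fun_prop)))]
  have e1 : ∫ y in (0:ℝ)..x, ff n φ y * κ (x - y) =
      ∫ τ in (0:ℝ)..x, Real.cos (2 * Real.pi * n * τ + (φ - 2 * Real.pi * n * x)) * κ τ := by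
    have h := intervalIntegral.integral_comp_sub_left (a := 0) (b := x) (fun y => ff n φ (x - y) * κ y) x
    simp only [sub_sub_cancel, sub_self, sub_zero] at h
    rw [h]
    congr 1; ext τ
    unfold ff
    rw [← Real.cos_neg]; congr 2; ring
  have e2 : ∫ y in x..1, ff n φ y * κ (x - y) =
      ∫ τ in (0:ℝ)..(1-x), Real.cos (2 * Real.pi * n * τ + (2 * Real.pi * n * x - φ)) * κ (-τ) := by
    have h := intervalIntegral.integral_comp_sub_right (a := x) (b := 1) (fun τ => ff n φ (τ + x) * κ (-τ)) x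
    simp only [sub_add_cancel, sub_self, neg_sub] at h
    rw [h]
    congr 1; ext τ
    unfold ff
    congr 2; ring
  rw [e1, e2]
  have b1 := osc_one hn (φ - 2 * Real.pi * n * x) (κ := κ) hx.1 (by
      intro s hs t ht hst
      apply ha; rw [abs_of_nonneg hs.1, abs_of_nonneg ht.1]; exact hst)
    (fun t ht => h0 t (by rw [abs_of_nonneg ht.1]; exact ht.2.trans hx.2))
  have b2 := osc_one hn (2 * Real.pi * n * x - φ) (κ := fun τ => κ (-τ)) (b := 1 - x) (by linarith [hx.2]) (by
      intro s hs t ht hst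
      apply ha; rw [abs_neg, abs_neg, abs_of_nonneg hs.1, abs_of_nonneg ht.1]; exact hst)
    (fun t ht => h0 _ (by rw [abs_neg, abs_of_nonneg ht.1]; exact ht.2.trans (by linarith [hx.1])))
  simp only [neg_zero] at b2
  refine (abs_add_le _ _).trans ?_
  have : κ 0 / n = κ 0 / (2 * n) + κ 0 / (2 * n) := by field_simp; ring
  rw [this]
  exact add_le_add b1 b2

end

end Pool.Agent.H968
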