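import Mathlib
import Pool.Agent.H968.Osc

open MeasureTheory ProbabilityTheory Filter Topology Set
open scoped ENNReal NNReal

namespace Pool.Agent.H968

noncomputable section

/-- integrability on a product from bounds on sections -/
lemma prod_integrable {α : Type*} [MeasurableSpace α] {μ : Measure α} [SFinite μ] {F : α → Om → ℝ}
    (hF : Measurable (Function.uncurry F)) (h1 : ∀ᵐ p ∂μ, Integrable (F p) PP) {B : α → ℝ} (hB : Integrable B μ)
    (h2 : ∀ᵐ p ∂μ, ∫ ω, |F p ω| ∂PP ≤ B p) : Integrable (fun q : α × Om => F q.1 q.2) (μ.prod PP) := by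
  have hm : Measurable (fun q : α × Om => F q.1 q.2) := hF
  rw [integrable_prod_iff hm.aestronglyMeasurable]
  refine ⟨h1, ?_⟩
  refine Integrable.mono' hB ?_ ?_
  · have : StronglyMeasurable (fun q : α × Om => ‖F q.1 q.2‖) := hm.norm.stronglyMeasurable
    exact (this.integral_prod_right' (ν := PP)).aestronglyMeasurable
  · filter_upwards [h2] with p hp
    rw [Real.norm_eq_abs, abs_of_nonneg (integral_nonneg fun ω => norm_nonneg _)]
    exact hp

/-- product of two integral functionals -/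
lemma bil_formula {μ : Measure ℝ} [SFinite μ] {a b : ℝ → Om → ℝ}
    (hI : Integrable (fun q : (ℝ × ℝ) × Om => a q.1.1 q.2 * b q.1.2 q.2) ((μ.prod μ).prod PP)) :
    ∫ ω, (∫ x, a x ω ∂μ) * (∫ y, b y ω ∂μ) ∂PP = ∫ p, ∫ ω, a p.1 ω * b p.2 ω ∂PP ∂(μ.prod μ) := by
  have h1 : ∀ ω, (∫ x, a x ω ∂μ) * (∫ y, b y ω ∂μ) = ∫ p, a p.1 ω * b p.2 ω ∂(μ.prod μ) := by
    intro ω
    rw [← integral_prod_mul (μ := μ) (ν := μ) (fun x => a x ω) (fun x => b x ω)]
  simp_rw [h1]
  exact integral_integral_swap (f := fun ω (p : ℝ × ℝ) => a p.1 ω * b p.2 ω) hI.swap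

/-- the random Fourier type integrals -/
def mm (f : ℝ → ℝ) (k : ℕ) (ω : Om) : ℝ := ∫ x, f x * hh k x ω ∂lam

lemma fh_meas {f : ℝ → ℝ} (hf : Measurable f) (k : ℕ) : Measurable (Function.uncurry fun x ω => f x * hh k x ω) :=
  (hf.comp measurable_fst).mul (hh_meas k)

lemma mm_meas {f : ℝ → ℝ} (hf : Measurable f) (k : ℕ) : Measurable (mm f k) := int_param_meas (fh_meas hf k)

lemma hh_two (k : ℕ) {x y : ℝ} (hxy : |x - y| ≤ 1) :
    Integrable (fun ω => hh k x ω * hh k y ω) PP ∧ ∫ ω, hh k x ω * hh k y ω ∂PP = ek 0 k (x - y) := by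
  simp_rw [hh_eq_gg]; exact gg_two (Nat.zero_le _) hxy

lemma hh_mixed {i j : ℕ} (hij : i ≤ j) {x y : ℝ} (hxy : |x - y| ≤ 1) :
    Integrable (fun ω => hh i x ω * hh j y ω) PP ∧ ∫ ω, hh i x ω * hh j y ω ∂PP = ek 0 i (x - y) := by
  simp_rw [hh_eq_gg]; exact gg_mixed (Nat.zero_le _) hij hxy

lemma abs_sub_le_one {p : ℝ × ℝ} (h : p.1 ∈ Icc (0:ℝ) 1 ∧ p.2 ∈ Icc (0:ℝ) 1) : |p.1 - p.2| ≤ 1 := by
  rw [abs_le]; constructor <;> linarith [h.1.1, h.1.2, h.2.1, h.2.2]

/-- the weighted two point function at level `o` -/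
def W2 (A : Om → ℝ) (o : ℕ) (p : ℝ × ℝ) : ℝ := ∫ ω, A ω * (hh o p.1 ω * hh o p.2 ω) ∂PP

lemma W2_meas {A : Om → ℝ} (hA : Measurable A) (o : ℕ) : Measurable (W2 A o) := by
  have : Measurable (fun q : (ℝ × ℝ) × Om => A q.2 * (hh o q.1.1 q.2 * hh o q.1.2 q.2)) :=
    (hA.comp measurable_snd).mul ((meas2 (hh_meas o) (measurable_fst.comp measurable_fst) measurable_snd).mul
      (meas2 (hh_meas o) (measurable_snd.comp measurable_fst) measurable_snd))
  exact (this.stronglyMeasurable.integral_prod_right' (ν := PP)).measurable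

lemma W2_bdd {A : Om → ℝ} (h01 : ∀ ω, A ω ∈ Icc (0:ℝ) 1) (hAm : Measurable A) (o : ℕ) {p : ℝ × ℝ} (hp : |p.1 - p.2| ≤ 1) :
    0 ≤ W2 A o p ∧ W2 A o p ≤ Real.exp (o/2) := by
  constructor
  · exact integral_nonneg fun ω => mul_nonneg (h01 ω).1 (mul_nonneg (hh_pos _ _ _).le (hh_pos _ _ _).le)
  · have h1 := hh_two o hp
    have h2 : W2 A o p ≤ ∫ ω, hh o p.1 ω * hh o p.2 ω ∂PP := by
      apply integral_mono _ h1.1
      · intro ω
        have h3 := (h01 ω).2
        have h4 := (h01 ω).1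
        have h5 : 0 ≤ hh o p.1 ω * hh o p.2 ω := mul_nonneg (hh_pos _ _ _).le (hh_pos _ _ _).le
        simp only
        nlinarith
      · refine h1.1.bdd_mul (c := 1) hAm.aestronglyMeasurable (Eventually.of_forall fun ω => ?_)
        rw [Real.norm_eq_abs, abs_of_nonneg (h01 ω).1]; exact (h01 ω).2
    rw [h1.2] at h2
    refine h2.trans ((ek_le (Nat.zero_le _) _).trans (le_of_eq ?_))
    congr 1; push_cast; ring

/-- weighted second moments -/
lemma sec_formula {o i j : ℕ} (hoi : o ≤ i) (hij : i ≤ j) {A : Om → ℝ} (hA : Dep o A) (hAm : Measurable A)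
    (h01 : ∀ ω, A ω ∈ Icc (0:ℝ) 1) {f : ℝ → ℝ} (hf : Measurable f) (hf1 : ∀ x, |f x| ≤ 1) :
    Integrable (fun ω => A ω * (mm f i ω * mm f j ω)) PP ∧
    ∫ ω, A ω * (mm f i ω * mm f j ω) ∂PP =
      ∫ p, f p.1 * f p.2 * W2 A o p * ek o i (p.1 - p.2) ∂(lam.prod lam) := by
  have hmeas : Measurable (Function.uncurry fun (p : ℝ × ℝ) (ω : Om) => (A ω * (f p.1 * hh i p.1 ω)) * (f p.2 * hh j p.2 ω)) := by
    have m1 : Measurable (fun q : (ℝ × ℝ) × Om => A q.2) := hAm.comp measurable_snd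
    have m2 : Measurable (fun q : (ℝ × ℝ) × Om => f q.1.1 * hh i q.1.1 q.2) :=
      (hf.comp (measurable_fst.comp measurable_fst)).mul (meas2 (hh_meas i) (measurable_fst.comp measurable_fst) measurable_snd)
    have m3 : Measurable (fun q : (ℝ × ℝ) × Om => f q.1.2 * hh j q.1.2 q.2) :=
      (hf.comp (measurable_snd.comp measurable_fst)).mul (meas2 (hh_meas j) (measurable_snd.comp measurable_fst) measurable_snd)
    exact (m1.mul m2).mul m3
  have hK : ∀ ω, |A ω| ≤ 1 := fun ω => by rw [abs_of_nonneg (h01 ω).1]; exact (h01 ω).2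
  have hpt : ∀ (p : ℝ × ℝ) ω, |(A ω * (f p.1 * hh i p.1 ω)) * (f p.2 * hh j p.2 ω)| ≤ hh i p.1 ω * hh j p.2 ω := by
    intro p ω
    have a1 := (h01 ω).1
    have a2 := (h01 ω).2
    have p1 := hh_pos i p.1 ω
    have p2 := hh_pos j p.2 ω
    rw [abs_mul, abs_mul, abs_mul, abs_mul, abs_of_nonneg a1, abs_of_pos p1, abs_of_pos p2]
    have b1 : |f p.1| * hh i p.1 ω ≤ hh i p.1 ω := by have := hf1 p.1; nlinarith
    have b2 : |f p.2| * hh j p.2 ω ≤ hh j p.2 ω := by have := hf1 p.2; nlinarith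
    have b3 : A ω * (|f p.1| * hh i p.1 ω) ≤ hh i p.1 ω := by
      have : 0 ≤ |f p.1| * hh i p.1 ω := by positivity
      nlinarith
    exact mul_le_mul b3 b2 (by positivity) p1.le
  have hI0 : Integrable (fun q : (ℝ × ℝ) × Om => (A q.2 * (f q.1.1 * hh i q.1.1 q.2)) * (f q.1.2 * hh j q.1.2 q.2)) ((lam.prod lam).prod PP) := by
    refine prod_integrable (F := fun (p : ℝ × ℝ) (ω : Om) => (A ω * (f p.1 * hh i p.1 ω)) * (f p.2 * hh j p.2 ω)) hmeas ?_
      (B := fun _ => Real.exp (i/2)) (integrable_const _) ?_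
    · filter_upwards [lam2_mem] with p hp
      have h1 := (hh_mixed hij (abs_sub_le_one hp)).1
      exact h1.mono' (hmeas.comp (measurable_const.prodMk measurable_id)).aestronglyMeasurable (Eventually.of_forall fun ω => hpt p ω)
    · filter_upwards [lam2_mem] with p hp
      have h1 := hh_mixed hij (abs_sub_le_one hp)
      have h2 : ∫ ω, |(A ω * (f p.1 * hh i p.1 ω)) * (f p.2 * hh j p.2 ω)| ∂PP ≤ ∫ ω, hh i p.1 ω * hh j p.2 ω ∂PP :=
        integral_mono_of_nonneg (Eventually.of_forall fun ω => abs_nonneg _) h1.1 (Eventually.of_forall fun ω => hpt p ω)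
      rw [h1.2] at h2
      refine h2.trans ((ek_le (Nat.zero_le _) _).trans (le_of_eq ?_))
      congr 1; push_cast; ring
  have key := bil_formula (μ := lam) (a := fun x ω => A ω * (f x * hh i x ω)) (b := fun x ω => f x * hh j x ω) hI0
  have e1 : ∀ ω, A ω * (mm f i ω * mm f j ω) = (∫ x, A ω * (f x * hh i x ω) ∂lam) * (∫ y, f y * hh j y ω ∂lam) := by
    intro ω; unfold mm; rw [integral_const_mul]; ring
  have e2 : ∀ᵐ p ∂(lam.prod lam), ∫ ω, (A ω * (f p.1 * hh i p.1 ω)) * (f p.2 * hh j p.2 ω) ∂PP =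
      f p.1 * f p.2 * W2 A o p * ek o i (p.1 - p.2) := by
    filter_upwards [lam2_mem] with p hp
    have h3 := cov_weight hoi hij hA hAm hK (abs_sub_le_one hp)
    have e3 : ∀ ω, (A ω * (f p.1 * hh i p.1 ω)) * (f p.2 * hh j p.2 ω) = (f p.1 * f p.2) * (A ω * (hh i p.1 ω * hh j p.2 ω)) := by
      intro ω; ring
    simp_rw [e3]
    rw [integral_const_mul, h3]
    unfold W2; ring
  constructor
  · simp_rw [e1]
    have h4 := hI0.swap.integral_prod_left
    refine h4.congr (Eventually.of_forall fun ω => ?_)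
    simp only [Prod.swap, Function.comp_def]
    exact integral_prod_mul (μ := lam) (ν := lam) (fun x => A ω * (f x * hh i x ω)) (fun x => f x * hh j x ω)
  · simp_rw [e1]
    rw [key]
    exact integral_congr_ae e2

/-- weighted variances -/
def cv (A : Om → ℝ) (o : ℕ) (f : ℝ → ℝ) (i : ℕ) : ℝ :=
  ∫ p, f p.1 * f p.2 * W2 A o p * ek o i (p.1 - p.2) ∂(lam.prod lam)

lemma sec_diff {o i j : ℕ} (hoi : o ≤ i) (hij : i ≤ j) {A : Om → ℝ} (hA : Dep o A) (hAm : Measurable A)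
    (h01 : ∀ ω, A ω ∈ Icc (0:ℝ) 1) {f : ℝ → ℝ} (hf : Measurable f) (hf1 : ∀ x, |f x| ≤ 1) :
    Integrable (fun ω => A ω * (mm f j ω - mm f i ω)^2) PP ∧
    ∫ ω, A ω * (mm f j ω - mm f i ω)^2 ∂PP = cv A o f j - cv A o f i := by
  have h1 := sec_formula hoi hij hA hAm h01 hf hf1
  have h2 := sec_formula hoi le_rfl hA hAm h01 hf hf1
  have h3 := sec_formula (hoi.trans hij) le_rfl hA hAm h01 hf hf1
  have e : ∀ ω, A ω * (mm f j ω - mm f i ω)^2 = A ω * (mm f j ω * mm f j ω) - 2 * (A ω * (mm f i ω * mm f j ω)) +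
      A ω * (mm f i ω * mm f i ω) := by intro ω; ring
  simp_rw [e]
  constructor
  · exact (h3.1.sub (h1.1.const_mul 2)).add h2.1
  · rw [int3 h3.1 (h1.1.const_mul 2) h2.1, integral_const_mul, h1.2, h2.2, h3.2]
    unfold cv; ring

end

end Pool.Agent.H968
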