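import Mathlib
import Pool.Agent.H968.Sec

open MeasureTheory ProbabilityTheory Filter Topology Set
open scoped ENNReal NNReal

namespace Pool.Agent.H968

noncomputable section

/-- `KK k - KK j ≥ (k-j) - |τ| e^{k-1}` -/
lemma KKd_ge {o q : ℕ} (hoq : o ≤ q) {τ : ℝ} (h : |τ| ≤ Real.exp (-((q:ℝ)-1))) :
    (q:ℝ) - o - |τ| * Real.exp ((q:ℝ)-1) ≤ KK q τ - KK o τ := by
  rcases Nat.eq_zero_or_pos q with hq | hq
  · subst hq
    have : o = 0 := by omega
    subst this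
    have := mul_nonneg (abs_nonneg τ) (Real.exp_pos (((0:ℕ):ℝ)-1)).le
    linarith
  · rw [KK_small (by omega) h]
    have := KK_le o τ
    linarith

lemma ek_ge {o q : ℕ} (hoq : o ≤ q) {τ : ℝ} (h : |τ| ≤ Real.exp (-((q:ℝ)-1))) :
    Real.exp (((q:ℝ)-o)/2) * (1 - |τ| * Real.exp ((q:ℝ)-1) / 2) ≤ ek o q τ := by
  unfold ek
  have h1 := KKd_ge hoq h
  have h2 : Real.exp (((q:ℝ)-o)/2 + -(|τ| * Real.exp ((q:ℝ)-1) / 2)) ≤ Real.exp ((KK q τ - KK o τ)/2) := by
    apply Real.exp_le_exp.2; linarith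
  refine le_trans ?_ h2
  rw [Real.exp_add]
  have h3 := Real.add_one_le_exp (-(|τ| * Real.exp ((q:ℝ)-1) / 2))
  have := Real.exp_pos (((q:ℝ)-o)/2)
  apply mul_le_mul_of_nonneg_left _ this.le
  linarith

/-- difference of increments at nearby points -/
lemma gg_diff {o q : ℕ} (hoq : o ≤ q) {ρ : ℝ} (hρ : 0 < ρ) (hρ1 : ρ ≤ 1) {x y : ℝ} (hxy : |x - y| ≤ 1)
    (h : |x - y| * Real.exp ((q:ℝ)-1) ≤ ρ) :
    Integrable (fun ω => gg o q x ω * |gg o q x ω - gg o q y ω|) PP ∧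
    ∫ ω, gg o q x ω * |gg o q x ω - gg o q y ω| ∂PP ≤ Real.exp (((q:ℝ)-o)/2) * Real.sqrt ρ := by
  have h' : |x - y| ≤ Real.exp (-((q:ℝ)-1)) := by
    rw [Real.exp_neg, ← one_div, le_div_iff₀ (Real.exp_pos _)]
    exact h.trans hρ1
  have a1 := gg_two hoq (x := x) (y := x) (by simp)
  have a2 := gg_two hoq (x := y) (y := y) (by simp)
  have a3 := gg_two hoq hxy
  simp only [sub_self, ek_zero] at a1 a2
  set r := Real.sqrt ρ with hr
  have hr0 : 0 < r := Real.sqrt_pos.2 hρ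
  have hr2 : r * r = ρ := Real.mul_self_sqrt hρ.le
  have hdom : ∀ ω, gg o q x ω * |gg o q x ω - gg o q y ω| ≤ (r/2) * (gg o q x ω * gg o q x ω) +
      (r⁻¹/2) * (gg o q x ω * gg o q x ω - 2 * (gg o q x ω * gg o q y ω) + gg o q y ω * gg o q y ω) := by
    intro ω
    set a := gg o q x ω
    set b := gg o q y ω
    have ha : 0 < a := gg_pos _ _ _ _
    have e : a * a - 2 * (a * b) + b * b = |a - b|^2 := by rw [sq_abs]; ring
    rw [e]
    have h1 : 0 ≤ (r * a - |a - b|)^2 := sq_nonneg _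
    have h2 : a * |a-b| = r⁻¹/2 * (2 * (r * a * |a - b|)) := by field_simp
    have h3 : (r/2) * (a*a) = r⁻¹/2 * (r * a)^2 := by field_simp
    rw [h2, h3, ← mul_add]
    apply mul_le_mul_of_nonneg_left _ (by positivity)
    nlinarith
  have i1 : Integrable (fun ω => (r/2) * (gg o q x ω * gg o q x ω)) PP := a1.1.const_mul _
  have i2 : Integrable (fun ω => (gg o q x ω * gg o q x ω - 2 * (gg o q x ω * gg o q y ω) + gg o q y ω * gg o q y ω)) PP :=
    (a1.1.sub (a3.1.const_mul 2)).add a2.1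
  have hI : Integrable (fun ω => gg o q x ω * |gg o q x ω - gg o q y ω|) PP := by
    refine (i1.add (i2.const_mul (r⁻¹/2))).mono' ?_ (Eventually.of_forall fun ω => ?_)
    · exact ((meas_sec (gg_meas o q) x).mul ((meas_sec (gg_meas o q) x).sub (meas_sec (gg_meas o q) y)).abs).aestronglyMeasurable
    · rw [Real.norm_eq_abs, abs_of_nonneg (mul_nonneg (gg_pos _ _ _ _).le (abs_nonneg _))]
      exact hdom ω
  refine ⟨hI, ?_⟩
  have h3 := integral_mono hI (i1.add (i2.const_mul (r⁻¹/2))) hdom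
  refine h3.trans ?_
  simp only [Pi.add_apply]
  rw [integral_add i1 (i2.const_mul _), integral_const_mul, integral_const_mul, int3 a1.1 (a3.1.const_mul 2) a2.1,
    integral_const_mul, a1.2, a2.2, a3.2]
  have h4 := ek_ge hoq h'
  set E := Real.exp (((q:ℝ)-o)/2) with hE
  have hE0 : 0 < E := Real.exp_pos _
  have h5 : E - 2 * ek o q (x-y) + E ≤ E * ρ := by
    have : E * (1 - ρ/2) ≤ ek o q (x - y) := by
      refine le_trans ?_ h4
      apply mul_le_mul_of_nonneg_left _ hE0.le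
      linarith
    linarith
  calc r/2 * E + r⁻¹/2 * (E - 2 * ek o q (x-y) + E) ≤ r/2 * E + r⁻¹/2 * (E * ρ) := by
        gcongr
    _ = E * r := by rw [← hr2]; field_simp; ring

lemma hh_diff {q : ℕ} {ρ : ℝ} (hρ : 0 < ρ) (hρ1 : ρ ≤ 1) {x y : ℝ} (hxy : |x - y| ≤ 1)
    (h : |x - y| * Real.exp ((q:ℝ)-1) ≤ ρ) :
    Integrable (fun ω => hh q x ω * |hh q x ω - hh q y ω|) PP ∧
    ∫ ω, hh q x ω * |hh q x ω - hh q y ω| ∂PP ≤ Real.exp (q/2) * Real.sqrt ρ := by
  have := gg_diff (Nat.zero_le q) hρ hρ1 hxy h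
  simp_rw [hh_eq_gg]
  simpa using this

/-- difference with a weight at a lower level -/
lemma hh_diff_weight {o q : ℕ} (hoq : o ≤ q) {A : Om → ℝ} (hA : Dep o A) (hAm : Measurable A)
    (h01 : ∀ ω, A ω ∈ Icc (0:ℝ) 1) {ρ : ℝ} (hρ : 0 < ρ) (hρ1 : ρ ≤ 1) {x y : ℝ} (hxy : |x - y| ≤ 1)
    (h : |x - y| * Real.exp ((q:ℝ)-1) ≤ ρ) :
    Integrable (fun ω => A ω * (hh q x ω * |hh q x ω - hh q y ω|)) PP ∧
    ∫ ω, A ω * (hh q x ω * |hh q x ω - hh q y ω|) ∂PP ≤
      (∫ ω, A ω * (hh o x ω * hh o x ω) ∂PP) * (Real.exp (((q:ℝ)-o)/2) * Real.sqrt ρ) +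
      Real.exp ((q:ℝ)/2) * Real.sqrt (ρ * Real.exp (-((q:ℝ)-o))) := by
  have b0 := hh_diff hρ hρ1 hxy h
  have hI : Integrable (fun ω => A ω * (hh q x ω * |hh q x ω - hh q y ω|)) PP := by
    refine b0.1.bdd_mul (c := 1) hAm.aestronglyMeasurable (Eventually.of_forall fun ω => ?_)
    rw [Real.norm_eq_abs, abs_of_nonneg (h01 ω).1]; exact (h01 ω).2
  refine ⟨hI, ?_⟩
  rw [integral_gl (k := o) hI]
  have hρ' : 0 < ρ * Real.exp (-((q:ℝ)-o)) := by positivity
  have hle1 : Real.exp (-((q:ℝ)-o)) ≤ 1 := by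
    rw [Real.exp_le_one_iff]
    have : (o:ℝ) ≤ q := by exact_mod_cast hoq
    linarith
  have hρ1' : ρ * Real.exp (-((q:ℝ)-o)) ≤ 1 := by nlinarith [Real.exp_pos (-((q:ℝ)-o))]
  have h'' : |x - y| * Real.exp ((o:ℝ)-1) ≤ ρ * Real.exp (-((q:ℝ)-o)) := by
    have : Real.exp ((o:ℝ)-1) = Real.exp ((q:ℝ)-1) * Real.exp (-((q:ℝ)-o)) := by
      rw [← Real.exp_add]; congr 1; ring
    rw [this, ← mul_assoc]
    exact mul_le_mul_of_nonneg_right h (Real.exp_pos _).le
  have b1 := gg_diff hoq hρ hρ1 hxy h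
  have b2 := hh_diff (q := o) hρ' hρ1' hxy h''
  have b3 := gg_two hoq hxy
  have b4 := hh_two o (x := x) (y := x) (by simp)
  have i4 : Integrable (fun ω => A ω * (hh o x ω * hh o x ω)) PP := by
    refine b4.1.bdd_mul (c := 1) hAm.aestronglyMeasurable (Eventually.of_forall fun ω => ?_)
    rw [Real.norm_eq_abs, abs_of_nonneg (h01 ω).1]; exact (h01 ω).2
  have hin : ∀ ω, ∫ ω', A (gl o (ω, ω')) * (hh q x (gl o (ω, ω')) * |hh q x (gl o (ω, ω')) - hh q y (gl o (ω, ω'))|) ∂PP ≤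
      (A ω * (hh o x ω * hh o x ω)) * (Real.exp (((q:ℝ)-o)/2) * Real.sqrt ρ) + (hh o x ω * |hh o x ω - hh o y ω|) * Real.exp (((q:ℝ)-o)/2) := by
    intro ω
    have hA' : ∀ ω', A (gl o (ω, ω')) = A ω := fun ω' => hA.gl (ω, ω')
    have hx' : ∀ ω', hh q x (gl o (ω, ω')) = hh o x ω * gg o q x ω' := fun ω' => hh_gl hoq x ω ω'
    have hy' : ∀ ω', hh q y (gl o (ω, ω')) = hh o y ω * gg o q y ω' := fun ω' => hh_gl hoq y ω ω'
    simp_rw [hA', hx', hy']
    have a0 := (h01 ω).1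
    have a1 := (h01 ω).2
    have px := hh_pos o x ω
    have hdom : ∀ ω', A ω * (hh o x ω * gg o q x ω' * |hh o x ω * gg o q x ω' - hh o y ω * gg o q y ω'|) ≤
        (A ω * (hh o x ω * hh o x ω)) * (gg o q x ω' * |gg o q x ω' - gg o q y ω'|) +
        (hh o x ω * |hh o x ω - hh o y ω|) * (gg o q x ω' * gg o q y ω') := by
      intro ω'
      have g1 := gg_pos o q x ω'
      have g2 := gg_pos o q y ω'
      have h1 : |hh o x ω * gg o q x ω' - hh o y ω * gg o q y ω'| ≤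
          hh o x ω * |gg o q x ω' - gg o q y ω'| + |hh o x ω - hh o y ω| * gg o q y ω' := by
        have : hh o x ω * gg o q x ω' - hh o y ω * gg o q y ω' =
            hh o x ω * (gg o q x ω' - gg o q y ω') + (hh o x ω - hh o y ω) * gg o q y ω' := by ring
        rw [this]
        refine (abs_add_le _ _).trans ?_
        rw [abs_mul, abs_mul, abs_of_pos px, abs_of_pos g2]
      have h2 : A ω * (hh o x ω * gg o q x ω' * |hh o x ω * gg o q x ω' - hh o y ω * gg o q y ω'|) ≤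
          A ω * (hh o x ω * gg o q x ω' * (hh o x ω * |gg o q x ω' - gg o q y ω'| + |hh o x ω - hh o y ω| * gg o q y ω')) := by
        gcongr
      refine h2.trans ?_
      have h3 : 0 ≤ (hh o x ω * |hh o x ω - hh o y ω|) * (gg o q x ω' * gg o q y ω') := by positivity
      have h4 : A ω * ((hh o x ω * |hh o x ω - hh o y ω|) * (gg o q x ω' * gg o q y ω')) ≤
          (hh o x ω * |hh o x ω - hh o y ω|) * (gg o q x ω' * gg o q y ω') := by nlinarith
      calc _ = (A ω * (hh o x ω * hh o x ω)) * (gg o q x ω' * |gg o q x ω' - gg o q y ω'|) +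
          A ω * ((hh o x ω * |hh o x ω - hh o y ω|) * (gg o q x ω' * gg o q y ω')) := by ring
        _ ≤ _ := by linarith
    have i1 : Integrable (fun ω' => (A ω * (hh o x ω * hh o x ω)) * (gg o q x ω' * |gg o q x ω' - gg o q y ω'|)) PP := b1.1.const_mul _
    have i2 : Integrable (fun ω' => (hh o x ω * |hh o x ω - hh o y ω|) * (gg o q x ω' * gg o q y ω')) PP := b3.1.const_mul _
    have h5 := integral_mono_of_nonneg (μ := PP) (Eventually.of_forall fun ω' => mul_nonneg a0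
      (mul_nonneg (mul_nonneg px.le (gg_pos o q x ω').le) (abs_nonneg _))) (i1.add i2) (Eventually.of_forall hdom)
    refine h5.trans ?_
    simp only [Pi.add_apply]
    rw [integral_add i1 i2, integral_const_mul, integral_const_mul, b3.2]
    have c1 : 0 ≤ A ω * (hh o x ω * hh o x ω) := mul_nonneg a0 (mul_nonneg px.le px.le)
    have c2 : 0 ≤ hh o x ω * |hh o x ω - hh o y ω| := mul_nonneg px.le (abs_nonneg _)
    exact add_le_add (mul_le_mul_of_nonneg_left b1.2 c1) (mul_le_mul_of_nonneg_left (ek_le hoq _) c2)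
  have j1 : Integrable (fun ω => (A ω * (hh o x ω * hh o x ω)) * (Real.exp (((q:ℝ)-o)/2) * Real.sqrt ρ)) PP := i4.mul_const _
  have j2 : Integrable (fun ω => (hh o x ω * |hh o x ω - hh o y ω|) * Real.exp (((q:ℝ)-o)/2)) PP := b2.1.mul_const _
  have h6 := integral_mono_of_nonneg (μ := PP) (Eventually.of_forall fun ω => integral_nonneg fun ω' =>
    mul_nonneg (h01 (gl o (ω, ω'))).1 (mul_nonneg (hh_pos q x (gl o (ω, ω'))).le (abs_nonneg _))) (j1.add j2) (Eventually.of_forall hin)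
  refine h6.trans ?_
  simp only [Pi.add_apply]
  rw [integral_add j1 j2, integral_mul_const, integral_mul_const]
  have h7 := mul_le_mul_of_nonneg_right b2.2 (Real.exp_pos (((q:ℝ)-o)/2)).le
  have e : Real.exp (o/2) * Real.sqrt (ρ * Real.exp (-((q:ℝ)-o))) * Real.exp (((q:ℝ)-o)/2) =
      Real.exp ((q:ℝ)/2) * Real.sqrt (ρ * Real.exp (-((q:ℝ)-o))) := by
    have : Real.exp ((q:ℝ)/2) = Real.exp (o/2) * Real.exp (((q:ℝ)-o)/2) := by rw [← Real.exp_add]; congr 1; ring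
    rw [this]; ring
  rw [e] at h7
  linarith

end

end Pool.Agent.H968
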