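import Mathlib
import Pool.Agent.H968.Diff

open MeasureTheory ProbabilityTheory Filter Topology Set
open scoped ENNReal NNReal

namespace Pool.Agent.H968

noncomputable section

/-- correlation length -/
def ell (j : ℕ) : ℝ := Real.exp (-((j:ℝ)-1))

lemma ell_pos (j : ℕ) : 0 < ell j := Real.exp_pos _

lemma ell_le_one {j : ℕ} (hj : j ≠ 0) : ell j ≤ 1 := by
  unfold ell; rw [Real.exp_le_one_iff]
  have : (1:ℝ) ≤ j := by exact_mod_cast Nat.one_le_iff_ne_zero.2 hj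
  linarith

/-- powers of the exponential kernel -/
def ea (a : ℝ) (j k : ℕ) (τ : ℝ) : ℝ := Real.exp (a * (KK k τ - KK j τ))

lemma ea_cont (a : ℝ) (j k : ℕ) : Continuous (ea a j k) := by
  unfold ea
  exact Real.continuous_exp.comp (((KK_cont k).sub (KK_cont j)).const_mul _)

lemma ea_neg (a : ℝ) (j k : ℕ) (τ : ℝ) : ea a j k (-τ) = ea a j k τ := by unfold ea; rw [KK_neg, KK_neg]

lemma ea_ge_one {a : ℝ} (ha : 0 ≤ a) {j k : ℕ} (h : j ≤ k) {τ : ℝ} (hτ : |τ| ≤ 1) : 1 ≤ ea a j k τ := by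
  unfold ea; apply Real.one_le_exp; have := KK_mono h hτ
  apply mul_nonneg ha; linarith

lemma ea_half (j k : ℕ) (τ : ℝ) : ea (1/2) j k τ = ek j k τ := by unfold ea ek; congr 1; ring

lemma ea_eq_one {a : ℝ} {j k : ℕ} (h : j ≤ k) {τ : ℝ} (h1 : |τ| ≤ 1) (h2 : ell j ≤ |τ|) : ea a j k τ = 1 := by
  unfold ea; rw [KKd_eq_zero h h1 h2]; simp

lemma ea_le {a : ℝ} (ha : 0 ≤ a) {j k : ℕ} (hj : j ≠ 0) (h : j ≤ k) {τ : ℝ} (h0 : 0 < τ) (h1 : τ ≤ ell j) :
    ea a j k τ ≤ (ell j)^a * τ^(-a) := by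
  unfold ea
  have h2 := KKd_le hj h h0.ne' (by rw [abs_of_pos h0]; exact h1)
  rw [Real.rpow_def_of_pos (ell_pos j), Real.rpow_def_of_pos h0, ← Real.exp_add]
  apply Real.exp_le_exp.2
  unfold ell
  rw [Real.log_exp]
  rw [abs_of_pos h0, one_div, Real.log_inv] at h2
  have := mul_le_mul_of_nonneg_left h2 ha
  linarith

lemma ea_int {a : ℝ} (ha : 0 ≤ a) (ha1 : a < 1) {j k : ℕ} (hj : j ≠ 0) (h : j ≤ k) {b : ℝ} (hb0 : 0 ≤ b) (hb : b ≤ 1) :
    ∫ τ in (0:ℝ)..b, (ea a j k τ - 1) ≤ ell j / (1 - a) := by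
  have hl := ell_pos j
  have hl1 := ell_le_one hj
  have hii : ∀ c d : ℝ, IntervalIntegrable (fun τ => ea a j k τ - 1) volume c d := fun c d =>
    ((ea_cont a j k).sub continuous_const).intervalIntegrable _ _
  have h1 : ∫ τ in (0:ℝ)..b, (ea a j k τ - 1) ≤ ∫ τ in (0:ℝ)..1, (ea a j k τ - 1) := by
    rw [← intervalIntegral.integral_add_adjacent_intervals (hii 0 b) (hii b 1)]
    have : 0 ≤ ∫ τ in b..1, (ea a j k τ - 1) := by
      apply intervalIntegral.integral_nonneg hb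
      intro u hu
      have := ea_ge_one ha h (τ := u) (by rw [abs_of_nonneg (hb0.trans hu.1)]; exact hu.2)
      linarith
    linarith
  refine h1.trans ?_
  rw [← intervalIntegral.integral_add_adjacent_intervals (hii 0 (ell j)) (hii (ell j) 1)]
  have h2 : ∫ τ in (ell j)..1, (ea a j k τ - 1) = 0 := by
    rw [intervalIntegral.integral_congr (g := fun _ => (0:ℝ))]
    · simp
    · intro u hu
      rw [uIcc_of_le hl1] at hu
      simp only
      rw [ea_eq_one h (by rw [abs_of_nonneg (hl.le.trans hu.1)]; exact hu.2) (by rw [abs_of_nonneg (hl.le.trans hu.1)]; exact hu.1)]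
      ring
  rw [h2, add_zero]
  have h3 : ∫ τ in (0:ℝ)..(ell j), (ea a j k τ - 1) ≤ ∫ τ in (0:ℝ)..(ell j), (ell j)^a * τ^(-a) := by
    apply intervalIntegral.integral_mono_on_of_le_Ioo hl.le (hii _ _)
    · exact (intervalIntegral.intervalIntegrable_rpow' (by linarith)).const_mul _
    · intro u hu
      have := ea_le ha hj h hu.1 hu.2.le
      linarith
  refine h3.trans (le_of_eq ?_)
  rw [intervalIntegral.integral_const_mul, integral_rpow (Or.inl (by linarith)), Real.zero_rpow (by linarith), sub_zero,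
    ← mul_div_assoc, ← Real.rpow_add hl]
  rw [show a + (-a+1) = 1 by ring, Real.rpow_one, show -a + 1 = 1 - a by ring]

/-- splitting an even convolution -/
lemma conv_split {κ : ℝ → ℝ} (hc : Continuous κ) (he : ∀ τ, κ (-τ) = κ τ) (x : ℝ) :
    ∫ y, κ (x - y) ∂lam = (∫ τ in (0:ℝ)..x, κ τ) + ∫ τ in (0:ℝ)..(1-x), κ τ := by
  rw [lam_integral, ← intervalIntegral.integral_add_adjacent_intervals (b := x)
    (by apply Continuous.intervalIntegrable; exact (hc.comp (by fun_prop)))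
    (by apply Continuous.intervalIntegrable; exact (hc.comp (by fun_prop)))]
  have e1 : ∫ y in (0:ℝ)..x, κ (x - y) = ∫ τ in (0:ℝ)..x, κ τ := by
    have h := intervalIntegral.integral_comp_sub_left (a := 0) (b := x) (fun y => κ y) x
    simp only [sub_self, sub_zero] at h
    exact h
  have e2 : ∫ y in x..1, κ (x - y) = ∫ τ in (0:ℝ)..(1-x), κ τ := by
    have h := intervalIntegral.integral_comp_sub_right (a := x) (b := 1) (fun y => κ (-y)) x
    simp only [sub_self, neg_sub] at h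
    rw [h]
    congr 1; ext τ; exact he τ
  rw [e1, e2]

lemma ea_conv {a : ℝ} (ha : 0 ≤ a) (ha1 : a < 1) {j k : ℕ} (hj : j ≠ 0) (h : j ≤ k) {x : ℝ} (hx : x ∈ Icc (0:ℝ) 1) :
    ∫ y, (ea a j k (x - y) - 1) ∂lam ≤ 2 * (ell j / (1 - a)) := by
  rw [conv_split (κ := fun τ => ea a j k τ - 1) ((ea_cont a j k).sub continuous_const) (fun τ => by
    rw [ea_neg]) x]
  have h1 := ea_int ha ha1 hj h (b := x) hx.1 hx.2
  have h2 := ea_int ha ha1 hj h (b := 1 - x) (by linarith [hx.2]) (by linarith [hx.1])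
  linarith

lemma ek_conv {j k : ℕ} (hj : j ≠ 0) (h : j ≤ k) {x : ℝ} (hx : x ∈ Icc (0:ℝ) 1) :
    ∫ y, (ek j k (x - y) - 1) ∂lam ≤ 4 * ell j := by
  have := ea_conv (a := 1/2) (by norm_num) (by norm_num) hj h hx
  simp_rw [ea_half] at this
  refine this.trans (le_of_eq ?_)
  norm_num
  ring

lemma cont_int_lam {g : ℝ → ℝ} (hg : Continuous g) : Integrable g lam := by
  unfold lam
  exact hg.continuousOn.integrableOn_compact isCompact_Icc

/-- difference kernel -/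
def dk (o i j : ℕ) (τ : ℝ) : ℝ := ek o j τ - ek o i τ

lemma dk_cont (o i j : ℕ) : Continuous (dk o i j) := (ek_cont o j).sub (ek_cont o i)

lemma dk_eq (o i j : ℕ) (τ : ℝ) : dk o i j τ = ek o i τ * (ek i j τ - 1) := by
  unfold dk; rw [mul_sub, ek_mul, mul_one]

lemma dk_nonneg {o i j : ℕ} (hij : i ≤ j) {τ : ℝ} (h : |τ| ≤ 1) : 0 ≤ dk o i j τ := by
  rw [dk_eq]
  have := ek_ge_one hij h
  exact mul_nonneg (ek_pos _ _ _).le (by linarith)

lemma dk_neg (o i j : ℕ) (τ : ℝ) : dk o i j (-τ) = dk o i j τ := by unfold dk; rw [ek_neg, ek_neg]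

lemma dk_eq_zero {o i j : ℕ} (hij : i ≤ j) {τ : ℝ} (h : |τ| ≤ 1) (h2 : ell i ≤ |τ|) : dk o i j τ = 0 := by
  rw [dk_eq]
  have : ek i j τ = 1 := by rw [← ea_half]; exact ea_eq_one hij h h2
  rw [this]; ring

/-- truncated kernel, globally monotone -/
def dkt (o i j : ℕ) (τ : ℝ) : ℝ := dk o i j (min |τ| 1)

lemma dkt_eq {o i j : ℕ} {τ : ℝ} (h : |τ| ≤ 1) : dkt o i j τ = dk o i j τ := by
  unfold dkt; rw [min_eq_left h]
  rcases abs_cases τ with h1 | h1
  · rw [h1.1]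
  · rw [h1.1, dk_neg]

lemma min_abs {τ : ℝ} : |min |τ| 1| = min |τ| 1 := abs_of_nonneg (le_min (abs_nonneg _) zero_le_one)

lemma dkt_cont (o i j : ℕ) : Continuous (dkt o i j) := (dk_cont o i j).comp (by fun_prop)

lemma dkt_nonneg {o i j : ℕ} (hij : i ≤ j) (τ : ℝ) : 0 ≤ dkt o i j τ := by
  unfold dkt; apply dk_nonneg hij; rw [min_abs]; exact min_le_right _ _

lemma dkt_anti {o i j : ℕ} (hoi : o ≤ i) (hij : i ≤ j) {s t : ℝ} (h : |s| ≤ |t|) : dkt o i j t ≤ dkt o i j s := by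
  unfold dkt
  have h1 : min |s| 1 ≤ min |t| 1 := min_le_min_right _ h
  rw [dk_eq, dk_eq]
  have a1 := ek_anti hoi (s := min |s| 1) (t := min |t| 1) (by rw [min_abs, min_abs]; exact h1)
  have a2 := ek_anti hij (s := min |s| 1) (t := min |t| 1) (by rw [min_abs, min_abs]; exact h1)
  have a3 := ek_ge_one hij (τ := min |t| 1) (by rw [min_abs]; exact min_le_right _ _)
  apply mul_le_mul a1 (by linarith) (by linarith) (ek_pos _ _ _).le

lemma dkt_zero {o i j : ℕ} : dkt o i j 0 = Real.exp (((j:ℝ)-o)/2) - Real.exp (((i:ℝ)-o)/2) := by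
  unfold dkt dk; simp [ek_zero]

lemma dkt_conv {o i j : ℕ} (hi : i ≠ 0) (hoi : o ≤ i) (hij : i ≤ j) {x : ℝ} (hx : x ∈ Icc (0:ℝ) 1) :
    ∫ y, dkt o i j (x - y) ∂lam ≤ Real.exp (((i:ℝ)-o)/2) * (4 * ell i) := by
  have h1 : ∫ y, dkt o i j (x - y) ∂lam ≤ ∫ y, Real.exp (((i:ℝ)-o)/2) * (ek i j (x - y) - 1) ∂lam := by
    apply integral_mono_ae (cont_int_lam ((dkt_cont o i j).comp (by fun_prop)))
      (cont_int_lam (continuous_const.mul (((ek_cont i j).comp (by fun_prop)).sub continuous_const)))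
    filter_upwards [lam_mem] with y hy
    have hxy : |x - y| ≤ 1 := abs_sub_le_one (p := (x,y)) ⟨hx, hy⟩
    show dkt o i j (x - y) ≤ Real.exp (((i:ℝ)-o)/2) * (ek i j (x - y) - 1)
    rw [dkt_eq hxy, dk_eq]
    have := ek_ge_one hij hxy
    exact mul_le_mul_of_nonneg_right (ek_le hoi _) (by linarith)
  refine h1.trans ?_
  rw [integral_const_mul]
  exact mul_le_mul_of_nonneg_left (ek_conv hi hij hx) (Real.exp_pos _).le

lemma dkt_osc {n : ℕ} (hn : n ≠ 0) (φ : ℝ) {o i j : ℕ} (hoi : o ≤ i) (hij : i ≤ j) {x : ℝ} (hx : x ∈ Icc (0:ℝ) 1) :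
    |∫ y, ff n φ y * dkt o i j (x - y) ∂lam| ≤ Real.exp (((j:ℝ)-o)/2) / n := by
  have h1 := osc_two hn φ (dkt_cont o i j) (fun τ _ => dkt_nonneg hij τ) (fun s t h => dkt_anti hoi hij h) hx
  refine h1.trans ?_
  rw [dkt_zero]
  apply div_le_div_of_nonneg_right _ (by positivity)
  have := Real.exp_pos (((i:ℝ)-o)/2)
  linarith

end

end Pool.Agent.H968
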