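import Mathlib
import Pool.Agent.H968.KerI

open MeasureTheory ProbabilityTheory Filter Topology Set
open scoped ENNReal NNReal

namespace Pool.Agent.H968

noncomputable section

/-- indicator of the good event -/
def ig (β : ℝ) (o : ℕ) (ω : Om) : ℝ := (GG β o).indicator (fun _ => (1:ℝ)) ω

lemma ig_meas (β : ℝ) (o : ℕ) : Measurable (ig β o) := measurable_const.indicator (GG_meas β o)

lemma ig_01 (β : ℝ) (o : ℕ) (ω : Om) : ig β o ω ∈ Icc (0:ℝ) 1 := by
  unfold ig
  by_cases h : ω ∈ GG β o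
  · rw [Set.indicator_of_mem h]; norm_num
  · rw [Set.indicator_of_notMem h]; norm_num

lemma ig_dep (β : ℝ) {o k : ℕ} (h : o ≤ k) : Dep k (ig β o) := by
  intro ω ω' h'
  unfold ig
  have : (ω ∈ GG β o) ↔ (ω' ∈ GG β o) := by
    show gd β o ω = 1 ↔ gd β o ω' = 1
    rw [gd_dep β h ω ω' h']
  by_cases h1 : ω ∈ GG β o
  · rw [Set.indicator_of_mem h1, Set.indicator_of_mem (this.1 h1)]
  · rw [Set.indicator_of_notMem h1, Set.indicator_of_notMem (fun hc => h1 (this.2 hc))]

lemma ig_anti (β : ℝ) {m n : ℕ} (h : m ≤ n) (ω : Om) : ig β n ω ≤ ig β m ω := by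
  unfold ig
  by_cases h1 : ω ∈ GG β n
  · rw [Set.indicator_of_mem h1, Set.indicator_of_mem (GG_anti β h h1)]
  · rw [Set.indicator_of_notMem h1]; exact (ig_01 β m ω).1

lemma expect_aa_one {β : ℝ} (hβ : 0 ≤ β) (x : ℝ) (m : ℕ) : ∫ ω, aa β m x ω ∂PP = u m β := by
  have := expect_aa hβ one_BH x m
  simp only [mul_one] at this
  exact this

lemma hsq_prod_int (o : ℕ) : Integrable (fun q : ℝ × Om => hh o q.1 q.2 * hh o q.1 q.2) (lam.prod PP) := by
  refine prod_integrable (F := fun (x : ℝ) (ω : Om) => hh o x ω * hh o x ω) ((hh_meas o).mul (hh_meas o)) ?_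
    (B := fun _ => Real.exp (o/2)) (integrable_const _) ?_
  · exact Eventually.of_forall fun x => (hh_two o (x := x) (y := x) (by simp)).1
  · refine Eventually.of_forall fun x => ?_
    have h := (hh_two o (x := x) (y := x) (by simp)).2
    have e : ∀ ω, |hh o x ω * hh o x ω| = hh o x ω * hh o x ω := fun ω =>
      abs_of_nonneg (mul_nonneg (hh_pos _ _ _).le (hh_pos _ _ _).le)
    simp_rw [e]
    rw [h]; simp [ek_zero]

lemma hsq_mean {β : ℝ} (hβ : 0 ≤ β) (o : ℕ) :
    ∫ x, (∫ ω, ig β o ω * (hh o x ω * hh o x ω) ∂PP) ∂lam ≤ Real.exp (o/2) * u o β := by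
  have hI : Integrable (fun q : ℝ × Om => ig β o q.2 * (hh o q.1 q.2 * hh o q.1 q.2)) (lam.prod PP) := by
    refine (hsq_prod_int o).bdd_mul (c := 1) ((ig_meas β o).comp measurable_snd).aestronglyMeasurable
      (Eventually.of_forall fun q => ?_)
    rw [Real.norm_eq_abs, abs_of_nonneg (ig_01 _ _ _).1]; exact (ig_01 _ _ _).2
  rw [integral_integral_swap (f := fun (x : ℝ) (ω : Om) => ig β o ω * (hh o x ω * hh o x ω)) hI]
  have hA : Integrable (fun q : ℝ × Om => aa β o q.1 q.2) (lam.prod PP) := by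
    have hm : Measurable (fun q : ℝ × Om => aa β o q.1 q.2) := aa_meas β o
    refine Integrable.of_bound hm.aestronglyMeasurable (Real.exp (s2 * β + o)) (Eventually.of_forall fun q => ?_)
    rw [Real.norm_eq_abs, abs_of_nonneg (aa_nonneg _ _ _ _)]; exact aa_le hβ _ _ _
  have h1 : ∀ ω, ∫ x, ig β o ω * (hh o x ω * hh o x ω) ∂lam ≤ Real.exp (o/2) * ∫ x, aa β o x ω ∂lam := by
    intro ω
    have h0 : 0 ≤ ∫ x, aa β o x ω ∂lam := integral_nonneg fun x => aa_nonneg _ _ _ _
    by_cases h : ω ∈ GG β o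
    · have e1 : ig β o ω = 1 := by unfold ig; rw [Set.indicator_of_mem h]
      rw [e1, ← integral_const_mul]
      apply le_of_eq
      apply integral_congr_ae
      filter_upwards [GG_ae h] with x hx
      have := hh_sq o x ω
      unfold aa; rw [hx]; rw [sq] at this; rw [this]; ring
    · have e1 : ig β o ω = 0 := by unfold ig; rw [Set.indicator_of_notMem h]
      rw [e1]
      simp only [zero_mul, integral_zero]
      positivity
  have h2 : ∫ ω, ∫ x, ig β o ω * (hh o x ω * hh o x ω) ∂lam ∂PP ≤ ∫ ω, Real.exp (o/2) * ∫ x, aa β o x ω ∂lam ∂PP :=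
    integral_mono hI.integral_prod_right (hA.integral_prod_right.const_mul _) h1
  refine h2.trans ?_
  rw [integral_const_mul]
  apply le_of_eq
  congr 1
  rw [← integral_integral_swap (f := fun (x : ℝ) (ω : Om) => aa β o x ω) hA]
  simp_rw [expect_aa_one hβ]
  simp

/-- the unconditional second moment at low levels -/
lemma low_level {n : ℕ} (hn : n ≠ 0) (φ : ℝ) (i : ℕ) {A : Om → ℝ} (hAm : Measurable A) (h01 : ∀ ω, A ω ∈ Icc (0:ℝ) 1) :
    Integrable (fun ω => A ω * (mm (ff n φ) i ω)^2) PP ∧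
    ∫ ω, A ω * (mm (ff n φ) i ω)^2 ∂PP ≤ Real.exp (i/2) / n := by
  have hf := (ff_cont n φ).measurable
  have key := sec_formula (o := 0) (i := i) (j := i) (Nat.zero_le _) le_rfl (A := fun _ => 1)
    (fun _ _ _ => rfl) measurable_const (fun _ => by norm_num) hf (ff_abs n φ)
  simp only [one_mul] at key
  have hW : ∀ p, W2 (fun _ => (1:ℝ)) 0 p = 1 := by
    intro p
    unfold W2
    have : ∀ x ω, hh 0 x ω = 1 := by intro x ω; unfold hh; rw [X_zero]; simp
    simp [this]
  simp_rw [hW, mul_one] at key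
  have hI : Integrable (fun ω => (mm (ff n φ) i ω)^2) PP := by
    refine key.1.congr (Eventually.of_forall fun ω => ?_)
    simp only; ring
  have hI2 : Integrable (fun ω => A ω * (mm (ff n φ) i ω)^2) PP := by
    refine hI.bdd_mul (c := 1) hAm.aestronglyMeasurable (Eventually.of_forall fun ω => ?_)
    rw [Real.norm_eq_abs, abs_of_nonneg (h01 ω).1]; exact (h01 ω).2
  refine ⟨hI2, ?_⟩
  have h1 : ∫ ω, A ω * (mm (ff n φ) i ω)^2 ∂PP ≤ ∫ ω, (mm (ff n φ) i ω)^2 ∂PP := by
    apply integral_mono hI2 hI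
    intro ω
    have := (h01 ω).2
    have h3 := sq_nonneg (mm (ff n φ) i ω)
    simp only
    nlinarith
  refine h1.trans ?_
  have e1 : ∫ ω, (mm (ff n φ) i ω)^2 ∂PP = ∫ ω, mm (ff n φ) i ω * mm (ff n φ) i ω ∂PP := by
    congr 1; ext ω; ring
  rw [e1, key.2]
  have hc : Continuous (fun p : ℝ × ℝ => ff n φ p.1 * ff n φ p.2 * ek 0 i (p.1 - p.2)) := by
    have h1 := ff_cont n φ
    have h2 := ek_cont 0 i
    fun_prop
  have hbd : ∀ p : ℝ × ℝ, |ff n φ p.1 * ff n φ p.2 * ek 0 i (p.1 - p.2)| ≤ Real.exp (i/2) := by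
    intro p
    rw [abs_mul, abs_mul]
    have h1 := ff_abs n φ p.1
    have h2 := ff_abs n φ p.2
    have h3 := ek_le (Nat.zero_le i) (p.1 - p.2)
    have h4 := ek_pos 0 i (p.1 - p.2)
    rw [abs_of_pos h4]
    have h5 : |ff n φ p.1| * |ff n φ p.2| ≤ 1 := by
      have := mul_le_mul h1 h2 (abs_nonneg _) (by norm_num : (0:ℝ) ≤ 1)
      linarith
    have h6 : 0 ≤ |ff n φ p.1| * |ff n φ p.2| := by positivity
    simp only [Nat.cast_zero, sub_zero] at h3
    nlinarith
  have hIp : Integrable (fun p : ℝ × ℝ => ff n φ p.1 * ff n φ p.2 * ek 0 i (p.1 - p.2)) (lam.prod lam) :=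
    Integrable.of_bound hc.aestronglyMeasurable _ (Eventually.of_forall hbd)
  rw [integral_prod _ hIp]
  have e2 : ∀ x, ∫ y, ff n φ x * ff n φ y * ek 0 i (x - y) ∂lam = ff n φ x * ∫ y, ff n φ y * ek 0 i (x - y) ∂lam := by
    intro x; rw [← integral_const_mul]; congr 1; ext y; ring
  simp only [e2]
  have hb : ∀ᵐ x ∂lam, ‖ff n φ x * ∫ y, ff n φ y * ek 0 i (x - y) ∂lam‖ ≤ Real.exp (i/2) / n := by
    filter_upwards [lam_mem] with x hx
    have h3 := osc_two hn φ (ek_cont 0 i) (fun τ _ => (ek_pos _ _ _).le) (fun s t h => ek_anti (Nat.zero_le i) h) hx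
    rw [ek_zero] at h3
    simp only [Nat.cast_zero, sub_zero] at h3
    rw [Real.norm_eq_abs, abs_mul]
    have h4 := ff_abs n φ x
    have h5 := abs_nonneg (∫ y, ff n φ y * ek 0 i (x - y) ∂lam)
    nlinarith [abs_nonneg (ff n φ x)]
  have := norm_integral_le_of_norm_le_const hb
  simp only [probReal_univ, mul_one] at this
  exact (le_abs_self _).trans this

/-- growth of the weighted variance between levels -/
lemma cv_diff {β : ℝ} (hβ : 0 ≤ β) {n : ℕ} (hn : n ≠ 0) (φ : ℝ) {o i j : ℕ} (hi : i ≠ 0) (hoi : o ≤ i) (hij : i ≤ j) :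
    cv (ig β o) o (ff n φ) j - cv (ig β o) o (ff n φ) i ≤
      Real.exp ((j:ℝ)/2) / n * u o β + 4 * Real.exp (o/2) * ell i := by
  have hf := (ff_cont n φ).measurable
  set A := ig β o with hA
  have hAm : Measurable A := ig_meas β o
  have h01 : ∀ ω, A ω ∈ Icc (0:ℝ) 1 := ig_01 β o
  set f := ff n φ with hfdef
  have hf1 : ∀ x, |f x| ≤ 1 := ff_abs n φ
  -- integrability
  have hWm := W2_meas hAm o
  have hIk : ∀ i, o ≤ i → Integrable (fun p : ℝ × ℝ => f p.1 * f p.2 * W2 A o p * ek o i (p.1 - p.2)) (lam.prod lam) := by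
    intro i hoi
    refine Integrable.of_bound (C := Real.exp (o/2) * Real.exp (((i:ℝ)-o)/2)) ?_ ?_
    · apply Measurable.aestronglyMeasurable
      exact (((hf.comp measurable_fst).mul (hf.comp measurable_snd)).mul hWm).mul
        ((ek_cont o i).measurable.comp (measurable_fst.sub measurable_snd))
    · filter_upwards [lam2_mem] with p hp
      have h1 := W2_bdd h01 hAm o (abs_sub_le_one hp)
      have h2 := ek_le hoi (p.1 - p.2)
      have h3 := ek_pos o i (p.1 - p.2)
      rw [Real.norm_eq_abs, abs_mul, abs_mul, abs_mul, abs_of_pos h3, abs_of_nonneg h1.1]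
      have h5 : |f p.1| * |f p.2| ≤ 1 := by
        have := mul_le_mul (hf1 p.1) (hf1 p.2) (abs_nonneg _) (by norm_num : (0:ℝ) ≤ 1)
        linarith
      have h6 : |f p.1| * |f p.2| * W2 A o p ≤ Real.exp (o/2) := by
        have := mul_le_mul h5 h1.2 h1.1 (by norm_num : (0:ℝ) ≤ 1)
        linarith
      exact mul_le_mul h6 h2 h3.le (Real.exp_pos _).le
  unfold cv
  rw [← integral_sub (hIk j (hoi.trans hij)) (hIk i hoi)]
  -- rewrite the difference
  have e1 : ∀ᵐ p ∂(lam.prod lam), f p.1 * f p.2 * W2 A o p * ek o j (p.1 - p.2) - f p.1 * f p.2 * W2 A o p * ek o i (p.1 - p.2) =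
      f p.1 * W2 A o (p.1, p.1) * (f p.2 * dkt o i j (p.1 - p.2)) + f p.1 * f p.2 * (W2 A o p - W2 A o (p.1, p.1)) * dkt o i j (p.1 - p.2) := by
    filter_upwards [lam2_mem] with p hp
    rw [dkt_eq (abs_sub_le_one hp)]
    unfold dk; ring
  rw [integral_congr_ae e1]
  have hdl : ∀ τ, dkt o i j τ ≤ Real.exp (((j:ℝ)-o)/2) := by
    intro τ
    have h1 := dkt_anti hoi hij (s := 0) (t := τ) (by simp)
    rw [dkt_zero] at h1
    have := Real.exp_pos (((i:ℝ)-o)/2)
    linarith
  have hWd : Measurable (fun x : ℝ => W2 A o (x, x)) := hWm.comp (measurable_id.prodMk measurable_id)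
  have hWd0 : ∀ x, 0 ≤ W2 A o (x, x) := fun x => (W2_bdd h01 hAm o (p := (x, x)) (by simp)).1
  have hWd1 : ∀ x, W2 A o (x, x) ≤ Real.exp (o/2) := fun x => (W2_bdd h01 hAm o (p := (x, x)) (by simp)).2
  have hdm : Measurable (fun p : ℝ × ℝ => dkt o i j (p.1 - p.2)) := (dkt_cont o i j).measurable.comp (measurable_fst.sub measurable_snd)
  have J1 : Integrable (fun p : ℝ × ℝ => f p.1 * W2 A o (p.1, p.1) * (f p.2 * dkt o i j (p.1 - p.2))) (lam.prod lam) := by
    refine Integrable.of_bound (C := Real.exp (o/2) * Real.exp (((j:ℝ)-o)/2)) ?_ (Eventually.of_forall fun p => ?_)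
    · apply Measurable.aestronglyMeasurable
      exact ((hf.comp measurable_fst).mul (hWd.comp measurable_fst)).mul ((hf.comp measurable_snd).mul hdm)
    · rw [Real.norm_eq_abs, abs_mul, abs_mul, abs_mul, abs_of_nonneg (hWd0 _), abs_of_nonneg (dkt_nonneg hij _)]
      have a1 : |f p.1| * W2 A o (p.1, p.1) ≤ Real.exp (o/2) := by
        have := mul_le_mul (hf1 p.1) (hWd1 p.1) (hWd0 _) (by norm_num : (0:ℝ) ≤ 1)
        linarith
      have a2 : |f p.2| * dkt o i j (p.1 - p.2) ≤ Real.exp (((j:ℝ)-o)/2) := by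
        have := mul_le_mul (hf1 p.2) (hdl (p.1 - p.2)) (dkt_nonneg hij _) (by norm_num : (0:ℝ) ≤ 1)
        linarith
      exact mul_le_mul a1 a2 (mul_nonneg (abs_nonneg _) (dkt_nonneg hij _)) (Real.exp_pos _).le
  have J2m : Measurable (fun p : ℝ × ℝ => f p.1 * f p.2 * (W2 A o p - W2 A o (p.1, p.1)) * dkt o i j (p.1 - p.2)) :=
    (((hf.comp measurable_fst).mul (hf.comp measurable_snd)).mul (hWm.sub (hWd.comp measurable_fst))).mul hdm
  have J2b : ∀ᵐ p ∂(lam.prod lam), |f p.1 * f p.2 * (W2 A o p - W2 A o (p.1, p.1)) * dkt o i j (p.1 - p.2)| ≤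
      Real.exp (o/2) * Real.sqrt (Real.exp (-((i:ℝ)-o))) * dkt o i j (p.1 - p.2) := by
    filter_upwards [lam2_mem] with p hp
    have hxy := abs_sub_le_one hp
    rcases le_or_gt (ell i) |p.1 - p.2| with h | h
    · rw [dkt_eq hxy, dk_eq_zero hij hxy h]; simp
    · have h3 : |p.1 - p.2| * Real.exp ((o:ℝ)-1) ≤ Real.exp (-((i:ℝ)-o)) := by
        have : Real.exp (-((i:ℝ)-o)) = ell i * Real.exp ((o:ℝ)-1) := by
          unfold ell; rw [← Real.exp_add]; congr 1; ring
        rw [this]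
        exact mul_le_mul_of_nonneg_right h.le (Real.exp_pos _).le
      have h4 : Real.exp (-((i:ℝ)-o)) ≤ 1 := by
        rw [Real.exp_le_one_iff]
        have : (o:ℝ) ≤ i := by exact_mod_cast hoi
        linarith
      have h5 := hh_diff (q := o) (Real.exp_pos _) h4 hxy h3
      have b1 := hh_two o (x := p.1) (y := p.2) hxy
      have b2 := hh_two o (x := p.1) (y := p.1) (by simp)
      have i1 : Integrable (fun ω => A ω * (hh o p.1 ω * hh o p.2 ω)) PP := by
        refine b1.1.bdd_mul (c := 1) hAm.aestronglyMeasurable (Eventually.of_forall fun ω => ?_)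
        rw [Real.norm_eq_abs, abs_of_nonneg (h01 ω).1]; exact (h01 ω).2
      have i2 : Integrable (fun ω => A ω * (hh o p.1 ω * hh o p.1 ω)) PP := by
        refine b2.1.bdd_mul (c := 1) hAm.aestronglyMeasurable (Eventually.of_forall fun ω => ?_)
        rw [Real.norm_eq_abs, abs_of_nonneg (h01 ω).1]; exact (h01 ω).2
      have h6 : |W2 A o p - W2 A o (p.1, p.1)| ≤ Real.exp (o/2) * Real.sqrt (Real.exp (-((i:ℝ)-o))) := by
        unfold W2
        rw [← integral_sub i1 i2]
        refine (abs_integral_le_integral_abs).trans (le_trans ?_ h5.2)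
        apply integral_mono_of_nonneg (Eventually.of_forall fun ω => abs_nonneg _) h5.1
        refine Eventually.of_forall fun ω => ?_
        simp only
        have : A ω * (hh o p.1 ω * hh o p.2 ω) - A ω * (hh o p.1 ω * hh o p.1 ω) = -(A ω * (hh o p.1 ω * (hh o p.1 ω - hh o p.2 ω))) := by ring
        rw [this, abs_neg, abs_mul, abs_mul, abs_of_nonneg (h01 ω).1, abs_of_pos (hh_pos o p.1 ω)]
        have h7 : 0 ≤ hh o p.1 ω * |hh o p.1 ω - hh o p.2 ω| := mul_nonneg (hh_pos _ _ _).le (abs_nonneg _)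
        have := (h01 ω).2
        nlinarith
      rw [abs_mul, abs_mul, abs_mul, abs_of_nonneg (dkt_nonneg hij _)]
      apply mul_le_mul_of_nonneg_right _ (dkt_nonneg hij _)
      have h8 : |f p.1| * |f p.2| ≤ 1 := by
        have := mul_le_mul (hf1 p.1) (hf1 p.2) (abs_nonneg _) (by norm_num : (0:ℝ) ≤ 1)
        linarith
      have := mul_le_mul h8 h6 (abs_nonneg _) (by norm_num : (0:ℝ) ≤ 1)
      linarith
  have hdI : Integrable (fun p : ℝ × ℝ => dkt o i j (p.1 - p.2)) (lam.prod lam) := by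
    refine Integrable.of_bound (C := Real.exp (((j:ℝ)-o)/2)) hdm.aestronglyMeasurable (Eventually.of_forall fun p => ?_)
    rw [Real.norm_eq_abs, abs_of_nonneg (dkt_nonneg hij _)]; exact hdl _
  have J2 : Integrable (fun p : ℝ × ℝ => f p.1 * f p.2 * (W2 A o p - W2 A o (p.1, p.1)) * dkt o i j (p.1 - p.2)) (lam.prod lam) :=
    (hdI.const_mul (Real.exp (o/2) * Real.sqrt (Real.exp (-((i:ℝ)-o))))).mono' J2m.aestronglyMeasurable J2b
  rw [integral_add J1 J2]
  have hconv : ∀ x ∈ Icc (0:ℝ) 1, ∫ y, dkt o i j (x - y) ∂lam ≤ Real.exp (((i:ℝ)-o)/2) * (4 * ell i) := fun x hx => dkt_conv hi hoi hij hx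
  have T2 : ∫ p, f p.1 * f p.2 * (W2 A o p - W2 A o (p.1, p.1)) * dkt o i j (p.1 - p.2) ∂(lam.prod lam) ≤ 4 * Real.exp (o/2) * ell i := by
    have h1 : ∫ p, f p.1 * f p.2 * (W2 A o p - W2 A o (p.1, p.1)) * dkt o i j (p.1 - p.2) ∂(lam.prod lam) ≤
        ∫ p, Real.exp (o/2) * Real.sqrt (Real.exp (-((i:ℝ)-o))) * dkt o i j (p.1 - p.2) ∂(lam.prod lam) := by
      apply integral_mono_ae J2 (hdI.const_mul _)
      filter_upwards [J2b] with p hp
      exact (le_abs_self _).trans hp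
    refine h1.trans ?_
    rw [integral_const_mul, integral_prod _ hdI]
    have h2 : ∫ x, ∫ y, dkt o i j (x - y) ∂lam ∂lam ≤ Real.exp (((i:ℝ)-o)/2) * (4 * ell i) := by
      have := integral_mono_ae (μ := lam) (f := fun x => ∫ y, dkt o i j (x - y) ∂lam) (g := fun _ => Real.exp (((i:ℝ)-o)/2) * (4 * ell i)) hdI.integral_prod_left (integrable_const _)
        (lam_mem.mono fun x hx => hconv x hx)
      simpa using this
    calc Real.exp (o/2) * Real.sqrt (Real.exp (-((i:ℝ)-o))) * ∫ x, ∫ y, dkt o i j (x - y) ∂lam ∂lam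
        ≤ Real.exp (o/2) * Real.sqrt (Real.exp (-((i:ℝ)-o))) * (Real.exp (((i:ℝ)-o)/2) * (4 * ell i)) := by gcongr
      _ = 4 * Real.exp (o/2) * ell i := by
          have : Real.sqrt (Real.exp (-((i:ℝ)-o))) = Real.exp (-(((i:ℝ)-o)/2)) := by
            rw [Real.sqrt_eq_iff_mul_self_eq (Real.exp_pos _).le (Real.exp_pos _).le, ← Real.exp_add]
            congr 1; ring
          rw [this]
          have e : Real.exp (-(((i:ℝ)-o)/2)) * Real.exp (((i:ℝ)-o)/2) = 1 := by rw [← Real.exp_add]; simp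
          calc _ = Real.exp (o/2) * (Real.exp (-(((i:ℝ)-o)/2)) * Real.exp (((i:ℝ)-o)/2)) * (4 * ell i) := by ring
            _ = _ := by rw [e]; ring
  have T1 : ∫ p, f p.1 * W2 A o (p.1, p.1) * (f p.2 * dkt o i j (p.1 - p.2)) ∂(lam.prod lam) ≤ Real.exp ((j:ℝ)/2) / n * u o β := by
    rw [integral_prod _ J1]
    simp_rw [integral_const_mul]
    have hWI : Integrable (fun x => W2 A o (x, x)) lam := by
      refine Integrable.of_bound hWd.aestronglyMeasurable (Real.exp (o/2)) (Eventually.of_forall fun x => ?_)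
      rw [Real.norm_eq_abs, abs_of_nonneg (hWd0 _)]; exact hWd1 _
    have h1 : ∫ x, f x * W2 A o (x, x) * ∫ y, f y * dkt o i j (x - y) ∂lam ∂lam ≤
        ∫ x, W2 A o (x, x) * (Real.exp (((j:ℝ)-o)/2) / n) ∂lam := by
      have hJ := J1.integral_prod_left
      simp only [integral_const_mul] at hJ
      apply integral_mono_ae hJ (hWI.mul_const _)
      filter_upwards [lam_mem] with x hx
      have h2 := dkt_osc hn φ hoi hij hx
      have h3 : |f x * W2 A o (x, x) * ∫ y, f y * dkt o i j (x - y) ∂lam| ≤ W2 A o (x, x) * (Real.exp (((j:ℝ)-o)/2) / n) := by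
        rw [abs_mul, abs_mul, abs_of_nonneg (hWd0 x)]
        apply mul_le_mul _ h2 (abs_nonneg _) (hWd0 x)
        have := hf1 x
        have := hWd0 x
        nlinarith
      exact (le_abs_self _).trans h3
    refine h1.trans ?_
    rw [integral_mul_const]
    have h4 := hsq_mean hβ o
    have h5 : ∫ x, W2 A o (x, x) ∂lam ≤ Real.exp (o/2) * u o β := h4
    calc (∫ x, W2 A o (x, x) ∂lam) * (Real.exp (((j:ℝ)-o)/2) / n) ≤ (Real.exp (o/2) * u o β) * (Real.exp (((j:ℝ)-o)/2) / n) := by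
          gcongr
      _ = (Real.exp (o/2) * Real.exp (((j:ℝ)-o)/2)) / n * u o β := by ring
      _ = Real.exp ((j:ℝ)/2) / n * u o β := by rw [← Real.exp_add]; congr 3; ring
  linarith

end

end Pool.Agent.H968
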