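import Mathlib
import Pool.Agent.H968.VarA

open MeasureTheory ProbabilityTheory Filter Topology Set
open scoped ENNReal NNReal

namespace Pool.Agent.H968

noncomputable section

/-- conditional variance functional -/
def VV (f : ℝ → ℝ) (q v : ℕ) (H : ℝ → ℝ) : ℝ :=
  ∫ p, f p.1 * f p.2 * (H p.1 * H p.2) * (ek q v (p.1 - p.2) - 1) ∂(lam.prod lam)

/-- oscillating mass of the kernel -/
def JJ (n q p v : ℕ) : ℝ := 2 * ∫ τ in (0:ℝ)..1, Real.cos (2 * Real.pi * n * τ) * dk q p v τ

/-- size of the kernel -/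
def DK (q p : ℕ) : ℝ := Real.exp (((p:ℝ)-q)/2) * (4 * ell p)

lemma DK_nonneg (q p : ℕ) : 0 ≤ DK q p := by unfold DK; have := ell_pos p; positivity

lemma dk_half_int {q p v : ℕ} (hp : p ≠ 0) (hqp : q ≤ p) (hpv : p ≤ v) {b : ℝ} (hb0 : 0 ≤ b) (hb : b ≤ 1) :
    ∫ τ in (0:ℝ)..b, dk q p v τ ≤ DK q p / 2 := by
  have h1 : ∫ τ in (0:ℝ)..b, dk q p v τ ≤ ∫ τ in (0:ℝ)..b, Real.exp (((p:ℝ)-q)/2) * (ea (1/2) p v τ - 1) := by
    apply intervalIntegral.integral_mono_on hb0 ((dk_cont q p v).intervalIntegrable _ _)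
      ((continuous_const.mul ((ea_cont _ _ _).sub continuous_const)).intervalIntegrable _ _)
    intro τ hτ
    show dk q p v τ ≤ Real.exp (((p:ℝ)-q)/2) * (ea (1/2) p v τ - 1)
    rw [dk_eq, ea_half]
    have := ek_ge_one hpv (τ := τ) (by rw [abs_of_nonneg hτ.1]; exact hτ.2.trans hb)
    exact mul_le_mul_of_nonneg_right (ek_le hqp _) (by linarith)
  refine h1.trans ?_
  rw [intervalIntegral.integral_const_mul]
  have h2 := ea_int (a := 1/2) (by norm_num) (by norm_num) hp hpv hb0 hb
  have h3 : ell p / (1 - 1/2) = 2 * ell p := by ring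
  rw [h3] at h2
  unfold DK
  have := mul_le_mul_of_nonneg_left h2 (Real.exp_pos (((p:ℝ)-q)/2)).le
  linarith

lemma JJ_abs {n q p v : ℕ} (hp : p ≠ 0) (hqp : q ≤ p) (hpv : p ≤ v) : |JJ n q p v| ≤ DK q p := by
  unfold JJ
  rw [abs_mul, abs_of_pos (by norm_num : (0:ℝ) < 2)]
  have h1 : |∫ τ in (0:ℝ)..1, Real.cos (2 * Real.pi * n * τ) * dk q p v τ| ≤ ∫ τ in (0:ℝ)..1, dk q p v τ := by
    rw [← Real.norm_eq_abs]
    apply intervalIntegral.norm_integral_le_of_norm_le zero_le_one
    · refine Eventually.of_forall fun τ hτ => ?_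
      rw [Real.norm_eq_abs, abs_mul]
      have h2 := dk_nonneg (o := q) hpv (τ := τ) (by rw [abs_of_nonneg hτ.1.le]; exact hτ.2)
      rw [abs_of_nonneg h2]
      have := Real.abs_cos_le_one (2 * Real.pi * n * τ)
      nlinarith
    · exact (dk_cont q p v).intervalIntegrable _ _
  have h2 := dk_half_int hp hqp hpv (b := 1) zero_le_one le_rfl
  linarith

/-- the inner integral away from the boundary -/
lemma inner_eq (n : ℕ) (φ : ℝ) {q p v : ℕ} (hpv : p ≤ v) {x : ℝ} (h1 : ell p ≤ x) (h2 : x ≤ 1 - ell p) :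
    ∫ y, ff n φ y * dk q p v (x - y) ∂lam = ff n φ x * JJ n q p v := by
  have hl := ell_pos p
  have hcont : Continuous (fun y => ff n φ y * dk q p v (x - y)) := (ff_cont n φ).mul ((dk_cont q p v).comp (by fun_prop))
  rw [lam_integral, ← intervalIntegral.integral_add_adjacent_intervals (b := x) (hcont.intervalIntegrable _ _) (hcont.intervalIntegrable _ _)]
  have ext0 : ∀ (g : ℝ → ℝ), Continuous g → ∀ b : ℝ, ell p ≤ b → b ≤ 1 →
      ∫ τ in (0:ℝ)..b, g τ * dk q p v τ = ∫ τ in (0:ℝ)..1, g τ * dk q p v τ := by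
    intro g hg b hb1 hb2
    have hc : Continuous (fun τ => g τ * dk q p v τ) := hg.mul (dk_cont q p v)
    rw [← intervalIntegral.integral_add_adjacent_intervals (a := 0) (b := b) (c := 1) (hc.intervalIntegrable _ _) (hc.intervalIntegrable _ _)]
    have : ∫ τ in b..1, g τ * dk q p v τ = 0 := by
      rw [intervalIntegral.integral_congr (g := fun _ => (0:ℝ))]
      · simp
      · intro u hu
        rw [uIcc_of_le hb2] at hu
        have hu0 : 0 ≤ u := by linarith [hu.1]
        simp only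
        rw [dk_eq_zero hpv (by rw [abs_of_nonneg hu0]; exact hu.2) (by rw [abs_of_nonneg hu0]; linarith [hu.1])]
        ring
    rw [this, add_zero]
  have e1 : ∫ y in (0:ℝ)..x, ff n φ y * dk q p v (x - y) = ∫ τ in (0:ℝ)..x, ff n φ (x - τ) * dk q p v τ := by
    have h := intervalIntegral.integral_comp_sub_left (a := 0) (b := x) (fun y => ff n φ (x - y) * dk q p v y) x
    simp only [sub_sub_cancel, sub_self, sub_zero] at h
    exact h
  have e2 : ∫ y in x..1, ff n φ y * dk q p v (x - y) = ∫ τ in (0:ℝ)..(1-x), ff n φ (x + τ) * dk q p v τ := by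
    have h := intervalIntegral.integral_comp_sub_right (a := x) (b := 1) (fun τ => ff n φ (x + τ) * dk q p v (-τ)) x
    simp only [sub_self, neg_sub, add_sub_cancel] at h
    rw [h]
    congr 1; ext τ; rw [dk_neg]
  rw [e1, e2, ext0 (fun τ => ff n φ (x - τ)) ((ff_cont n φ).comp (by fun_prop)) x h1 (by linarith),
    ext0 (fun τ => ff n φ (x + τ)) ((ff_cont n φ).comp (by fun_prop)) (1-x) (by linarith) (by linarith)]
  rw [← intervalIntegral.integral_add]
  · unfold JJ
    rw [← mul_assoc, mul_comm (ff n φ x) 2, mul_assoc, ← intervalIntegral.integral_const_mul, ← intervalIntegral.integral_const_mul]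
    congr 1; ext τ
    have : ff n φ (x - τ) + ff n φ (x + τ) = 2 * (ff n φ x * Real.cos (2 * Real.pi * n * τ)) := by
      unfold ff
      have e3 : 2 * Real.pi * n * (x - τ) - φ = (2 * Real.pi * n * x - φ) - 2 * Real.pi * n * τ := by ring
      have e4 : 2 * Real.pi * n * (x + τ) - φ = (2 * Real.pi * n * x - φ) + 2 * Real.pi * n * τ := by ring
      rw [e3, e4, Real.cos_sub, Real.cos_add]; ring
    calc _ = (ff n φ (x - τ) + ff n φ (x + τ)) * dk q p v τ := by ring
      _ = _ := by rw [this]; ring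
  · exact (((ff_cont n φ).comp (by fun_prop)).mul (dk_cont q p v)).intervalIntegrable _ _
  · exact (((ff_cont n φ).comp (by fun_prop)).mul (dk_cont q p v)).intervalIntegrable _ _

/-- boundary zone -/
def bz (l : ℝ) : Set ℝ := {x | x < l ∨ 1 - l < x}

lemma bz_meas (l : ℝ) : MeasurableSet (bz l) := (measurableSet_lt measurable_id measurable_const).union
  (measurableSet_lt measurable_const measurable_id)

section det
variable {H : ℝ → ℝ} (hH : Measurable H) (h0 : ∀ x, 0 ≤ H x) (hI : Integrable (fun x => H x * H x) lam)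
include hH h0 hI

lemma H_int : Integrable H lam := by
  refine ((integrable_const (1:ℝ)).add hI).mono' hH.aestronglyMeasurable (Eventually.of_forall fun x => ?_)
  rw [Real.norm_eq_abs, abs_of_nonneg (h0 x)]
  simp only [Pi.add_apply]
  nlinarith [sq_nonneg (H x - 1)]

lemma HH_bdd_int {g : ℝ × ℝ → ℝ} (hg : Measurable g) {C : ℝ} (hC : ∀ᵐ p ∂(lam.prod lam), |g p| ≤ C) :
    Integrable (fun p : ℝ × ℝ => g p * (H p.1 * H p.2)) (lam.prod lam) := by
  have h1 := (H_int hH h0 hI).mul_prod (H_int hH h0 hI)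
  exact h1.bdd_mul (c := C) hg.aestronglyMeasurable hC

omit hH h0 in
lemma HHd_bdd_int {g : ℝ × ℝ → ℝ} (hg : Measurable g) {C : ℝ} (hC : ∀ᵐ p ∂(lam.prod lam), |g p| ≤ C) :
    Integrable (fun p : ℝ × ℝ => g p * (H p.1 * H p.1)) (lam.prod lam) := by
  have h1 : Integrable (fun p : ℝ × ℝ => (H p.1 * H p.1) * 1) (lam.prod lam) := hI.mul_prod (integrable_const (1:ℝ))
  simp only [mul_one] at h1
  exact h1.bdd_mul (c := C) hg.aestronglyMeasurable hC

/-- the main deterministic comparison -/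
lemma VV_main {n : ℕ} (hn : n ≠ 0) (φ : ℝ) {q p v : ℕ} (hp : p ≠ 0) (hqp : q ≤ p) (hpv : p ≤ v) :
    |VV (ff n φ) q v H - VV (ff n φ) q p H - JJ n q p v * ∫ x, ff n φ x * ff n φ x * (H x * H x) ∂lam| ≤
      (∫ r, H r.1 * |H r.1 - H r.2| * dkt q p v (r.1 - r.2) ∂(lam.prod lam)) +
      2 * DK q p * ∫ x, (bz (ell p)).indicator (fun x => H x * H x) x ∂lam := by
  set f := ff n φ with hfdef
  have hf : Measurable f := (ff_cont n φ).measurable
  have hf1 : ∀ x, |f x| ≤ 1 := ff_abs n φ
  have hff : ∀ r : ℝ × ℝ, |f r.1 * f r.2| ≤ 1 := by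
    intro r; rw [abs_mul]
    have := mul_le_mul (hf1 r.1) (hf1 r.2) (abs_nonneg _) (by norm_num : (0:ℝ) ≤ 1)
    linarith
  have hfm : Measurable (fun r : ℝ × ℝ => f r.1 * f r.2) := (hf.comp measurable_fst).mul (hf.comp measurable_snd)
  have hfdm : Measurable (fun r : ℝ × ℝ => f r.1 * f r.1) := (hf.comp measurable_fst).mul (hf.comp measurable_fst)
  have hdm : Measurable (fun r : ℝ × ℝ => dkt q p v (r.1 - r.2)) := (dkt_cont q p v).measurable.comp (measurable_fst.sub measurable_snd)
  have hdl : ∀ τ, |dkt q p v τ| ≤ Real.exp (((v:ℝ)-q)/2) := by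
    intro τ
    rw [abs_of_nonneg (dkt_nonneg hpv _)]
    have h1 := dkt_anti hqp hpv (s := 0) (t := τ) (by simp)
    rw [dkt_zero] at h1
    have := Real.exp_pos (((p:ℝ)-q)/2)
    linarith
  -- integrabilities
  have iV : ∀ v, q ≤ v → Integrable (fun r : ℝ × ℝ => f r.1 * f r.2 * (H r.1 * H r.2) * (ek q v (r.1 - r.2) - 1)) (lam.prod lam) := by
    intro v hv
    have := HH_bdd_int hH h0 hI (g := fun r => f r.1 * f r.2 * (ek q v (r.1 - r.2) - 1)) (C := 1 * (Real.exp (((v:ℝ)-q)/2) + 1))
      (hfm.mul (((ek_cont q v).measurable.comp (measurable_fst.sub measurable_snd)).sub_const _)) (Eventually.of_forall fun r => by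
        rw [abs_mul]
        apply mul_le_mul (hff r) _ (abs_nonneg _) zero_le_one
        have h1 := ek_le hv (r.1 - r.2)
        have h2 := ek_pos q v (r.1 - r.2)
        rw [abs_le]; constructor <;> linarith)
    refine this.congr (Eventually.of_forall fun r => ?_)
    simp only; ring
  have i1 : Integrable (fun r : ℝ × ℝ => f r.1 * f r.2 * dkt q p v (r.1 - r.2) * (H r.1 * H r.2)) (lam.prod lam) :=
    HH_bdd_int hH h0 hI (hfm.mul hdm) (C := 1 * Real.exp (((v:ℝ)-q)/2)) (Eventually.of_forall fun r => by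
      rw [abs_mul]; exact mul_le_mul (hff r) (hdl _) (abs_nonneg _) zero_le_one)
  have i2 : Integrable (fun r : ℝ × ℝ => f r.1 * f r.2 * dkt q p v (r.1 - r.2) * (H r.1 * H r.1)) (lam.prod lam) :=
    HHd_bdd_int hI (hfm.mul hdm) (C := 1 * Real.exp (((v:ℝ)-q)/2)) (Eventually.of_forall fun r => by
      rw [abs_mul]; exact mul_le_mul (hff r) (hdl _) (abs_nonneg _) zero_le_one)
  have i3 : Integrable (fun r : ℝ × ℝ => H r.1 * |H r.1 - H r.2| * dkt q p v (r.1 - r.2)) (lam.prod lam) := by
    have j1 := HH_bdd_int hH h0 hI (g := fun r => dkt q p v (r.1 - r.2)) hdm (C := Real.exp (((v:ℝ)-q)/2)) (Eventually.of_forall fun r => hdl _)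
    have j2 := HHd_bdd_int hI (g := fun r => dkt q p v (r.1 - r.2)) hdm (C := Real.exp (((v:ℝ)-q)/2)) (Eventually.of_forall fun r => hdl _)
    refine (j1.add j2).mono' ?_ (Eventually.of_forall fun r => ?_)
    · exact (((hH.comp measurable_fst).mul ((hH.comp measurable_fst).sub (hH.comp measurable_snd)).abs).mul hdm).aestronglyMeasurable
    · rw [Real.norm_eq_abs, abs_mul, abs_mul, abs_abs, abs_of_nonneg (h0 _), abs_of_nonneg (dkt_nonneg hpv _)]
      simp only [Pi.add_apply]
      have h1 : |H r.1 - H r.2| ≤ H r.1 + H r.2 := by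
        rw [abs_le]; constructor <;> linarith [h0 r.1, h0 r.2]
      calc H r.1 * |H r.1 - H r.2| * dkt q p v (r.1 - r.2) ≤ H r.1 * (H r.1 + H r.2) * dkt q p v (r.1 - r.2) := by
            have := h0 r.1; have := dkt_nonneg (o := q) hpv (r.1 - r.2); gcongr
        _ = _ := by ring
  -- step 1 : difference of the two V's
  have s1 : VV f q v H - VV f q p H = ∫ r, f r.1 * f r.2 * dkt q p v (r.1 - r.2) * (H r.1 * H r.2) ∂(lam.prod lam) := by
    unfold VV
    rw [← integral_sub (iV v (hqp.trans hpv)) (iV p hqp)]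
    apply integral_congr_ae
    filter_upwards [lam2_mem] with r hr
    rw [dkt_eq (abs_sub_le_one hr)]
    unfold dk; ring
  -- step 2 : diagonal replacement
  have s2 : |(∫ r, f r.1 * f r.2 * dkt q p v (r.1 - r.2) * (H r.1 * H r.2) ∂(lam.prod lam)) -
      ∫ r, f r.1 * f r.2 * dkt q p v (r.1 - r.2) * (H r.1 * H r.1) ∂(lam.prod lam)| ≤
      ∫ r, H r.1 * |H r.1 - H r.2| * dkt q p v (r.1 - r.2) ∂(lam.prod lam) := by
    rw [← integral_sub i1 i2]
    refine (abs_integral_le_integral_abs).trans ?_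
    apply integral_mono (i1.sub i2).abs i3
    intro r
    show |f r.1 * f r.2 * dkt q p v (r.1 - r.2) * (H r.1 * H r.2) - f r.1 * f r.2 * dkt q p v (r.1 - r.2) * (H r.1 * H r.1)| ≤
      H r.1 * |H r.1 - H r.2| * dkt q p v (r.1 - r.2)
    have e : f r.1 * f r.2 * dkt q p v (r.1 - r.2) * (H r.1 * H r.2) - f r.1 * f r.2 * dkt q p v (r.1 - r.2) * (H r.1 * H r.1) =
        -((f r.1 * f r.2) * (H r.1 * (H r.1 - H r.2) * dkt q p v (r.1 - r.2))) := by ring
    rw [e, abs_neg, abs_mul (f r.1 * f r.2), abs_mul (H r.1 * (H r.1 - H r.2)), abs_mul (H r.1), abs_of_nonneg (h0 _), abs_of_nonneg (dkt_nonneg hpv _)]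
    have h1 : 0 ≤ H r.1 * |H r.1 - H r.2| * dkt q p v (r.1 - r.2) :=
      mul_nonneg (mul_nonneg (h0 _) (abs_nonneg _)) (dkt_nonneg hpv _)
    have := hff r
    nlinarith
  -- step 3 : inner integral
  have s3 : |(∫ r, f r.1 * f r.2 * dkt q p v (r.1 - r.2) * (H r.1 * H r.1) ∂(lam.prod lam)) -
      JJ n q p v * ∫ x, f x * f x * (H x * H x) ∂lam| ≤ 2 * DK q p * ∫ x, (bz (ell p)).indicator (fun x => H x * H x) x ∂lam := by
    rw [integral_prod _ i2]
    have e1 : ∀ x, ∫ y, f x * f y * dkt q p v (x - y) * (H x * H x) ∂lam = (f x * (H x * H x)) * ∫ y, f y * dkt q p v (x - y) ∂lam := by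
      intro x; rw [← integral_const_mul]; congr 1; ext y; ring
    have hI1 := i2.integral_prod_left
    simp only [e1] at hI1 ⊢
    have hI2 : Integrable (fun x => JJ n q p v * (f x * f x * (H x * H x))) lam := by
      apply Integrable.const_mul
      refine hI.bdd_mul (c := 1) (hf.mul hf).aestronglyMeasurable (Eventually.of_forall fun x => ?_)
      rw [Real.norm_eq_abs, abs_mul]
      have := mul_le_mul (hf1 x) (hf1 x) (abs_nonneg _) (by norm_num : (0:ℝ) ≤ 1)
      linarith
    rw [← integral_const_mul, ← integral_sub hI1 hI2, ← integral_const_mul]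
    refine (abs_integral_le_integral_abs).trans ?_
    apply integral_mono_ae (hI1.sub hI2).abs ((hI.indicator (bz_meas _)).const_mul _)
    filter_upwards [lam_mem] with x hx
    have hHx : 0 ≤ H x * H x := mul_nonneg (h0 x) (h0 x)
    have e2 : f x * (H x * H x) * ∫ y, f y * dkt q p v (x - y) ∂lam - JJ n q p v * (f x * f x * (H x * H x)) =
        (f x * (H x * H x)) * ((∫ y, f y * dkt q p v (x - y) ∂lam) - f x * JJ n q p v) := by ring
    have e3 : ∫ y, f y * dkt q p v (x - y) ∂lam = ∫ y, f y * dk q p v (x - y) ∂lam := by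
      apply integral_congr_ae
      filter_upwards [lam_mem] with y hy
      rw [dkt_eq (abs_sub_le_one (p := (x,y)) ⟨hx, hy⟩)]
    show |f x * (H x * H x) * ∫ y, f y * dkt q p v (x - y) ∂lam - JJ n q p v * (f x * f x * (H x * H x))| ≤
      2 * DK q p * (bz (ell p)).indicator (fun x => H x * H x) x
    rw [e2]
    by_cases hb : x ∈ bz (ell p)
    · rw [Set.indicator_of_mem hb, abs_mul, abs_mul, abs_of_nonneg hHx]
      have b1 : |∫ y, f y * dkt q p v (x - y) ∂lam| ≤ DK q p := by
        refine (abs_integral_le_integral_abs).trans ?_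
        refine le_trans ?_ (dkt_conv hp hqp hpv hx)
        apply integral_mono_of_nonneg (Eventually.of_forall fun y => abs_nonneg _) (cont_int_lam ((dkt_cont q p v).comp (by fun_prop)))
        refine Eventually.of_forall fun y => ?_
        show |f y * dkt q p v (x - y)| ≤ dkt q p v (x - y)
        rw [abs_mul, abs_of_nonneg (dkt_nonneg hpv (x - y))]
        have := hf1 y
        have := dkt_nonneg (o := q) hpv (x - y)
        nlinarith
      have b2 : |f x * JJ n q p v| ≤ DK q p := by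
        rw [abs_mul]
        have h1 := JJ_abs (n := n) hp hqp hpv
        have h2 := hf1 x
        have h3 := abs_nonneg (JJ n q p v)
        nlinarith
      have b3 : |(∫ y, f y * dkt q p v (x - y) ∂lam) - f x * JJ n q p v| ≤ 2 * DK q p := by
        refine (abs_sub _ _).trans ?_
        linarith
      have b4 : |f x| * (H x * H x) ≤ H x * H x := by have := hf1 x; nlinarith
      calc |f x| * (H x * H x) * |(∫ y, f y * dkt q p v (x - y) ∂lam) - f x * JJ n q p v| ≤ (H x * H x) * (2 * DK q p) :=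
            mul_le_mul b4 b3 (abs_nonneg _) hHx
        _ = _ := by ring
    · rw [Set.indicator_of_notMem hb]
      have hb' : ell p ≤ x ∧ x ≤ 1 - ell p := by
        unfold bz at hb
        simp only [mem_ofPred_eq, not_or, not_lt] at hb
        exact hb
      rw [e3, inner_eq n φ hpv hb'.1 hb'.2, hfdef]
      simp
  rw [s1]
  have h5 := abs_sub_le (∫ r, f r.1 * f r.2 * dkt q p v (r.1 - r.2) * (H r.1 * H r.2) ∂(lam.prod lam))
    (∫ r, f r.1 * f r.2 * dkt q p v (r.1 - r.2) * (H r.1 * H r.1) ∂(lam.prod lam)) (JJ n q p v * ∫ x, f x * f x * (H x * H x) ∂lam)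
  linarith

omit hH in
/-- replacing `f²` by its mean -/
lemma sq_mean {n : ℕ} (hn : n ≠ 0) (φ : ℝ) :
    |(∫ x, ff n φ x * ff n φ x * (H x * H x) ∂lam) - (1/2) * ∫ x, H x * H x ∂lam| ≤
      (∫ x in (0:ℝ)..(1 - 1/(4*n)), |H x * H x - H (x + 1/(4*n)) * H (x + 1/(4*n))|) +
      ∫ x, (bz (1/(4*n))).indicator (fun x => H x * H x) x ∂lam := by
  have hn' : (0:ℝ) < n := by exact_mod_cast Nat.pos_of_ne_zero hn
  have hn1 : (1:ℝ) ≤ n := by exact_mod_cast Nat.one_le_iff_ne_zero.2 hn
  set δ : ℝ := 1/(4*n) with hδ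
  have hδ0 : 0 < δ := by positivity
  have hδ1 : δ ≤ 1/4 := by
    rw [hδ]; apply one_div_le_one_div_of_le (by norm_num); linarith
  set g := ff (2*n) (2*φ) with hg
  have hg1 : ∀ x, |g x| ≤ 1 := ff_abs _ _
  have hgm : Measurable g := (ff_cont _ _).measurable
  have e1 : ∀ x, ff n φ x * ff n φ x = 1/2 + (1/2) * g x := by
    intro x
    rw [hg]
    unfold ff
    have : 2 * Real.pi * ((2*n:ℕ):ℝ) * x - 2 * φ = 2 * (2 * Real.pi * n * x - φ) := by push_cast; ring
    rw [this, Real.cos_two_mul]; ring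
  have hgs : ∀ x, g (x + δ) = - g x := by
    intro x
    have := ff_half (n := 2*n) (by omega) (2*φ) x
    rw [hg, ← this, hδ]
    congr 2; push_cast; ring
  have hIg : Integrable (fun x => g x * (H x * H x)) lam := hI.bdd_mul (c := 1) hgm.aestronglyMeasurable (Eventually.of_forall hg1)
  have e2 : (∫ x, ff n φ x * ff n φ x * (H x * H x) ∂lam) - (1/2) * ∫ x, H x * H x ∂lam = (1/2) * ∫ x, g x * (H x * H x) ∂lam := by
    have : ∀ x, ff n φ x * ff n φ x * (H x * H x) = (1/2) * (H x * H x) + (1/2) * (g x * (H x * H x)) := by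
      intro x; rw [e1]; ring
    simp_rw [this]
    rw [integral_add (hI.const_mul _) (hIg.const_mul _), integral_const_mul, integral_const_mul]; ring
  rw [e2]
  -- interval integrability
  have hII : IntervalIntegrable (fun x => H x * H x) volume 0 1 := by
    rw [intervalIntegrable_iff_integrableOn_Icc_of_le zero_le_one]
    exact hI
  have hIIg : IntervalIntegrable (fun x => g x * (H x * H x)) volume 0 1 := by
    rw [intervalIntegrable_iff_integrableOn_Icc_of_le zero_le_one]
    exact hIg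
  have sub : ∀ a b : ℝ, 0 ≤ a → a ≤ 1 → 0 ≤ b → b ≤ 1 → IntervalIntegrable (fun x => g x * (H x * H x)) volume a b := by
    intro a b ha ha1 hb hb1
    apply hIIg.mono_set
    rw [uIcc_of_le zero_le_one]
    exact uIcc_subset_Icc ⟨ha, ha1⟩ ⟨hb, hb1⟩
  have subH : ∀ a b : ℝ, 0 ≤ a → a ≤ 1 → 0 ≤ b → b ≤ 1 → IntervalIntegrable (fun x => H x * H x) volume a b := by
    intro a b ha ha1 hb hb1
    apply hII.mono_set
    rw [uIcc_of_le zero_le_one]
    exact uIcc_subset_Icc ⟨ha, ha1⟩ ⟨hb, hb1⟩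
  rw [lam_integral]
  have a1 : ∫ x in (0:ℝ)..1, g x * (H x * H x) = (∫ x in (0:ℝ)..(1-δ), g x * (H x * H x)) + ∫ x in (1-δ)..1, g x * (H x * H x) :=
    (intervalIntegral.integral_add_adjacent_intervals (sub _ _ le_rfl zero_le_one (by linarith) (by linarith)) (sub _ _ (by linarith) (by linarith) zero_le_one le_rfl)).symm
  have a2 : ∫ x in (0:ℝ)..1, g x * (H x * H x) = (∫ x in (0:ℝ)..δ, g x * (H x * H x)) + ∫ x in δ..1, g x * (H x * H x) :=
    (intervalIntegral.integral_add_adjacent_intervals (sub _ _ le_rfl zero_le_one (by linarith) (by linarith)) (sub _ _ (by linarith) (by linarith) zero_le_one le_rfl)).symm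
  have a3 : ∫ x in δ..1, g x * (H x * H x) = - ∫ x in (0:ℝ)..(1-δ), g x * (H (x+δ) * H (x+δ)) := by
    have h := intervalIntegral.integral_comp_add_right (a := 0) (b := 1-δ) (fun x => g x * (H x * H x)) δ
    simp only [zero_add, sub_add_cancel] at h
    rw [← h, ← intervalIntegral.integral_neg]
    congr 1; ext x; rw [hgs]; ring
  have hs1 : IntervalIntegrable (fun x => g x * (H x * H x)) volume 0 (1-δ) := sub _ _ le_rfl zero_le_one (by linarith) (by linarith)
  have hs2 : IntervalIntegrable (fun x => g x * (H (x+δ) * H (x+δ))) volume 0 (1-δ) := by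
    have h := (sub δ 1 (by linarith) (by linarith) zero_le_one le_rfl).comp_add_right δ
    simp only [sub_self] at h
    refine (h.neg).congr ?_
    intro x _
    simp only [Pi.neg_apply]
    rw [hgs]; ring
  have a4 : 2 * ∫ x in (0:ℝ)..1, g x * (H x * H x) = (∫ x in (0:ℝ)..(1-δ), g x * (H x * H x - H (x+δ) * H (x+δ))) +
      (∫ x in (1-δ)..1, g x * (H x * H x)) + ∫ x in (0:ℝ)..δ, g x * (H x * H x) := by
    have : ∫ x in (0:ℝ)..(1-δ), g x * (H x * H x - H (x+δ) * H (x+δ)) = (∫ x in (0:ℝ)..(1-δ), g x * (H x * H x)) -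
        ∫ x in (0:ℝ)..(1-δ), g x * (H (x+δ) * H (x+δ)) := by
      rw [← intervalIntegral.integral_sub hs1 hs2]
      congr 1; ext x; ring
    rw [this]
    linarith
  have hH2' : IntervalIntegrable (fun x => H (x+δ) * H (x+δ)) volume 0 (1-δ) := by
    have h := (subH δ 1 (by linarith) (by linarith) zero_le_one le_rfl).comp_add_right δ
    simp only [sub_self] at h
    exact h
  have b1 : |∫ x in (0:ℝ)..(1-δ), g x * (H x * H x - H (x+δ) * H (x+δ))| ≤ ∫ x in (0:ℝ)..(1-δ), |H x * H x - H (x+δ) * H (x+δ)| := by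
    rw [← Real.norm_eq_abs]
    apply intervalIntegral.norm_integral_le_of_norm_le (by linarith)
    · refine Eventually.of_forall fun x _ => ?_
      rw [Real.norm_eq_abs, abs_mul]
      have := hg1 x
      nlinarith [abs_nonneg (H x * H x - H (x+δ) * H (x+δ))]
    · exact ((subH 0 (1-δ) le_rfl zero_le_one (by linarith) (by linarith)).sub hH2').abs
  have b2 : ∀ a b : ℝ, 0 ≤ a → a ≤ b → b ≤ 1 → |∫ x in a..b, g x * (H x * H x)| ≤ ∫ x in a..b, H x * H x := by
    intro a b ha hab hb
    rw [← Real.norm_eq_abs]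
    apply intervalIntegral.norm_integral_le_of_norm_le hab
    · refine Eventually.of_forall fun x _ => ?_
      rw [Real.norm_eq_abs, abs_mul, abs_of_nonneg (mul_nonneg (h0 x) (h0 x))]
      have := hg1 x
      have := mul_nonneg (h0 x) (h0 x)
      nlinarith
    · exact subH a b ha (hab.trans hb) (ha.trans hab) hb
  have b3 : (∫ x in (1-δ)..1, H x * H x) + ∫ x in (0:ℝ)..δ, H x * H x ≤ ∫ x, (bz δ).indicator (fun x => H x * H x) x ∂lam := by
    have hIb : Integrable ((bz δ).indicator (fun x => H x * H x)) lam := hI.indicator (bz_meas _)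
    rw [lam_integral]
    have hii : IntervalIntegrable ((bz δ).indicator (fun x => H x * H x)) volume 0 1 := by
      rw [intervalIntegrable_iff_integrableOn_Icc_of_le zero_le_one]
      exact hIb
    have sub' : ∀ a b : ℝ, 0 ≤ a → a ≤ 1 → 0 ≤ b → b ≤ 1 → IntervalIntegrable ((bz δ).indicator (fun x => H x * H x)) volume a b := by
      intro a b ha ha1 hb hb1
      apply hii.mono_set
      rw [uIcc_of_le zero_le_one]
      exact uIcc_subset_Icc ⟨ha, ha1⟩ ⟨hb, hb1⟩
    rw [← intervalIntegral.integral_add_adjacent_intervals (a := 0) (b := δ) (c := 1) (sub' _ _ le_rfl zero_le_one (by linarith) (by linarith)) (sub' _ _ (by linarith) (by linarith) zero_le_one le_rfl),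
      ← intervalIntegral.integral_add_adjacent_intervals (a := δ) (b := 1-δ) (c := 1) (sub' _ _ (by linarith) (by linarith) (by linarith) (by linarith)) (sub' _ _ (by linarith) (by linarith) zero_le_one le_rfl)]
    have c1 : ∫ x in (0:ℝ)..δ, (bz δ).indicator (fun x => H x * H x) x = ∫ x in (0:ℝ)..δ, H x * H x := by
      apply intervalIntegral.integral_congr_ae
      have hne : ∀ᵐ x : ℝ, x ≠ δ := by
        rw [ae_iff]; simp
      filter_upwards [hne] with x hx1 hx2
      rw [uIoc_of_le hδ0.le] at hx2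
      rw [Set.indicator_of_mem]
      exact Or.inl (lt_of_le_of_ne hx2.2 hx1)
    have c2 : ∫ x in (1-δ)..1, (bz δ).indicator (fun x => H x * H x) x = ∫ x in (1-δ)..1, H x * H x := by
      apply intervalIntegral.integral_congr_ae
      refine Eventually.of_forall fun x hx2 => ?_
      rw [uIoc_of_le (by linarith)] at hx2
      rw [Set.indicator_of_mem]
      exact Or.inr hx2.1
    have c3 : 0 ≤ ∫ x in δ..(1-δ), (bz δ).indicator (fun x => H x * H x) x := by
      apply intervalIntegral.integral_nonneg (by linarith)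
      intro x _
      exact Set.indicator_nonneg (fun x _ => mul_nonneg (h0 x) (h0 x)) x
    rw [c1, c2]
    linarith
  have b4 := b2 (1-δ) 1 (by linarith) (by linarith) le_rfl
  have b5 := b2 0 δ le_rfl hδ0.le (by linarith)
  have hnn : 0 ≤ ∫ x in (0:ℝ)..(1-δ), |H x * H x - H (x+δ) * H (x+δ)| := by
    apply intervalIntegral.integral_nonneg (by linarith)
    intro x _; exact abs_nonneg _
  have hnn2 : 0 ≤ ∫ x, (bz δ).indicator (fun x => H x * H x) x ∂lam :=
    integral_nonneg fun x => Set.indicator_nonneg (fun x _ => mul_nonneg (h0 x) (h0 x)) x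
  have b6 : |2 * ∫ x in (0:ℝ)..1, g x * (H x * H x)| ≤ (∫ x in (0:ℝ)..(1-δ), |H x * H x - H (x+δ) * H (x+δ)|) +
      ∫ x, (bz δ).indicator (fun x => H x * H x) x ∂lam := by
    rw [a4]
    refine (abs_add_le _ _).trans ?_
    have := abs_add_le (∫ x in (0:ℝ)..(1-δ), g x * (H x * H x - H (x+δ) * H (x+δ))) (∫ x in (1-δ)..1, g x * (H x * H x))
    linarith
  rw [abs_mul, abs_of_pos (by norm_num : (0:ℝ) < 2)] at b6
  rw [abs_mul, abs_of_pos (by norm_num : (0:ℝ) < 1/2)]
  have := abs_nonneg (∫ x in (0:ℝ)..1, g x * (H x * H x))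
  linarith

end det

end

end Pool.Agent.H968
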