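import Mathlib
import Pool.Agent.H968.VarB

open MeasureTheory ProbabilityTheory Filter Topology Set
open scoped ENNReal NNReal

namespace Pool.Agent.H968

noncomputable section

/-- integrability and value of the expectation of a parametric integral -/
lemma param_expect {α : Type*} [MeasurableSpace α] {μ : Measure α} [SFinite μ] {F : α → Om → ℝ}
    (hF : Measurable (Function.uncurry F)) (h1 : ∀ᵐ p ∂μ, Integrable (F p) PP) {B : α → ℝ} (hB : Integrable B μ)
    (h2 : ∀ᵐ p ∂μ, ∫ ω, |F p ω| ∂PP ≤ B p) :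
    Integrable (fun ω => ∫ p, F p ω ∂μ) PP ∧ ∫ ω, ∫ p, F p ω ∂μ ∂PP = ∫ p, ∫ ω, F p ω ∂PP ∂μ := by
  have hI := prod_integrable hF h1 hB h2
  refine ⟨hI.integral_prod_right, ?_⟩
  exact (integral_integral_swap (f := fun (p : α) (ω : Om) => F p ω) hI).symm

lemma param_expect_le {α : Type*} [MeasurableSpace α] {μ : Measure α} [SFinite μ] {F : α → Om → ℝ}
    (hF : Measurable (Function.uncurry F)) (h0 : ∀ p ω, 0 ≤ F p ω) (h1 : ∀ᵐ p ∂μ, Integrable (F p) PP) {B : α → ℝ} (hB : Integrable B μ)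
    (h2 : ∀ᵐ p ∂μ, ∫ ω, F p ω ∂PP ≤ B p) :
    Integrable (fun ω => ∫ p, F p ω ∂μ) PP ∧ ∫ ω, ∫ p, F p ω ∂μ ∂PP ≤ ∫ p, B p ∂μ := by
  have h2' : ∀ᵐ p ∂μ, ∫ ω, |F p ω| ∂PP ≤ B p := by
    filter_upwards [h2] with p hp
    simp_rw [abs_of_nonneg (h0 p _)]; exact hp
  have h := param_expect hF h1 hB h2'
  refine ⟨h.1, ?_⟩
  rw [h.2]
  exact integral_mono_of_nonneg (Eventually.of_forall fun p => integral_nonneg fun ω => h0 p ω) hB h2

lemma diffF_meas (q : ℕ) : Measurable (fun s : (ℝ × ℝ) × Om => hh q s.1.1 s.2 * |hh q s.1.1 s.2 - hh q s.1.2 s.2|) := by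
  have m1 : Measurable (fun s : (ℝ × ℝ) × Om => hh q s.1.1 s.2) := meas2 (hh_meas q) (measurable_fst.comp measurable_fst) measurable_snd
  have m2 : Measurable (fun s : (ℝ × ℝ) × Om => hh q s.1.2 s.2) := meas2 (hh_meas q) (measurable_snd.comp measurable_fst) measurable_snd
  have m3 : Measurable (fun s : (ℝ × ℝ) × Om => |hh q s.1.1 s.2 - hh q s.1.2 s.2|) := (m1.sub m2).abs
  exact m1.mul m3

section main
variable {β : ℝ} (hβ : 0 ≤ β) {o q p v : ℕ}
include hβ

/-- diagonal of the weighted two point function -/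
lemma W2d_props (o : ℕ) : Measurable (fun x : ℝ => W2 (ig β o) o (x, x)) ∧ (∀ x, 0 ≤ W2 (ig β o) o (x, x)) ∧
    (∀ x, W2 (ig β o) o (x, x) ≤ Real.exp (o/2)) ∧ Integrable (fun x => W2 (ig β o) o (x, x)) lam ∧
    ∫ x, W2 (ig β o) o (x, x) ∂lam ≤ Real.exp (o/2) * u o β := by
  have hm := (W2_meas (ig_meas β o) o).comp (measurable_id.prodMk measurable_id (α := ℝ))
  have h0 : ∀ x, 0 ≤ W2 (ig β o) o (x, x) := fun x => (W2_bdd (ig_01 β o) (ig_meas β o) o (p := (x, x)) (by simp)).1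
  have h1 : ∀ x, W2 (ig β o) o (x, x) ≤ Real.exp (o/2) := fun x => (W2_bdd (ig_01 β o) (ig_meas β o) o (p := (x, x)) (by simp)).2
  refine ⟨hm, h0, h1, ?_, hsq_mean hβ o⟩
  refine Integrable.of_bound hm.aestronglyMeasurable (Real.exp (o/2)) (Eventually.of_forall fun x => ?_)
  show ‖W2 (ig β o) o (x, x)‖ ≤ _
  rw [Real.norm_eq_abs, abs_of_nonneg (h0 x)]; exact h1 x

omit hβ in
/-- first error term -/
lemma D1_bound {f : ℝ → ℝ} (hf : Measurable f) (hf1 : ∀ x, |f x| ≤ 1) (hoq : o ≤ q) (hqp : q ≤ p) :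
    Integrable (fun ω => ig β o ω * VV f q p (fun x => hh q x ω)) PP ∧
    ∫ ω, ig β o ω * VV f q p (fun x => hh q x ω) ∂PP = cv (ig β o) o f p - cv (ig β o) o f q := by
  have hAm := ig_meas β o
  have h01 := ig_01 β o
  have hK : ∀ ω, |ig β o ω| ≤ 1 := fun ω => by rw [abs_of_nonneg (h01 ω).1]; exact (h01 ω).2
  have hff : ∀ r : ℝ × ℝ, |f r.1 * f r.2| ≤ 1 := by
    intro r; rw [abs_mul]
    have := mul_le_mul (hf1 r.1) (hf1 r.2) (abs_nonneg _) (by norm_num : (0:ℝ) ≤ 1)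
    linarith
  have m1 : Measurable (fun s : (ℝ × ℝ) × Om => ig β o s.2) := hAm.comp measurable_snd
  have m2 : Measurable (fun s : (ℝ × ℝ) × Om => f s.1.1 * f s.1.2 * (ek q p (s.1.1 - s.1.2) - 1)) := by
    have a1 : Measurable (fun s : (ℝ × ℝ) × Om => f s.1.1) := hf.comp (measurable_fst.comp measurable_fst)
    have a2 : Measurable (fun s : (ℝ × ℝ) × Om => f s.1.2) := hf.comp (measurable_snd.comp measurable_fst)
    have a3 : Measurable (fun s : (ℝ × ℝ) × Om => s.1.1 - s.1.2) :=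
      (measurable_fst.comp measurable_fst).sub (measurable_snd.comp measurable_fst)
    exact (a1.mul a2).mul (((ek_cont q p).measurable.comp a3).sub_const _)
  have m3 : Measurable (fun s : (ℝ × ℝ) × Om => hh q s.1.1 s.2 * hh q s.1.2 s.2) :=
    (meas2 (hh_meas q) (measurable_fst.comp measurable_fst) measurable_snd).mul
      (meas2 (hh_meas q) (measurable_snd.comp measurable_fst) measurable_snd)
  have hFm : Measurable (Function.uncurry fun (r : ℝ × ℝ) (ω : Om) => (f r.1 * f r.2 * (ek q p (r.1 - r.2) - 1)) * (ig β o ω * (hh q r.1 ω * hh q r.2 ω))) :=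
    m2.mul (m1.mul m3)
  have hek : ∀ τ, |ek q p τ - 1| ≤ Real.exp (((p:ℝ)-q)/2) + 1 := by
    intro τ
    have h1 := ek_le hqp τ
    have h2 := ek_pos q p τ
    rw [abs_le]; constructor <;> linarith
  have hsec : ∀ r : ℝ × ℝ, |r.1 - r.2| ≤ 1 → Integrable (fun ω => ig β o ω * (hh q r.1 ω * hh q r.2 ω)) PP := by
    intro r hr
    refine (hh_two q hr).1.bdd_mul (c := 1) hAm.aestronglyMeasurable (Eventually.of_forall fun ω => ?_)
    exact hK ω
  have key := param_expect (μ := lam.prod lam) hFm (B := fun _ => (Real.exp (((p:ℝ)-q)/2) + 1) * Real.exp (q/2)) ?_ (integrable_const _) ?_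
  · have e1 : ∀ ω, ∫ r, (f r.1 * f r.2 * (ek q p (r.1 - r.2) - 1)) * (ig β o ω * (hh q r.1 ω * hh q r.2 ω)) ∂(lam.prod lam) =
        ig β o ω * VV f q p (fun x => hh q x ω) := by
      intro ω
      unfold VV
      rw [← integral_const_mul]
      congr 1; ext r; ring
    simp_rw [e1] at key
    refine ⟨key.1, ?_⟩
    rw [key.2]
    have hWm := W2_meas hAm o
    have hIk : ∀ i, o ≤ i → Integrable (fun p : ℝ × ℝ => f p.1 * f p.2 * W2 (ig β o) o p * ek o i (p.1 - p.2)) (lam.prod lam) := by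
      intro i hoi
      refine Integrable.of_bound (C := Real.exp (o/2) * Real.exp (((i:ℝ)-o)/2)) ?_ ?_
      · apply Measurable.aestronglyMeasurable
        exact (((hf.comp measurable_fst).mul (hf.comp measurable_snd)).mul hWm).mul
          ((ek_cont o i).measurable.comp (measurable_fst.sub measurable_snd))
      · filter_upwards [lam2_mem] with p hp
        have h1 := W2_bdd h01 hAm o (abs_sub_le_one hp)
        have h2 := ek_le hoi (p.1 - p.2)
        have h3 := ek_pos o i (p.1 - p.2)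
        rw [Real.norm_eq_abs, abs_mul, abs_mul (f p.1 * f p.2), abs_of_pos h3, abs_of_nonneg h1.1]
        have h6 : |f p.1 * f p.2| * W2 (ig β o) o p ≤ Real.exp (o/2) := by
          have := mul_le_mul (hff p) h1.2 h1.1 (by norm_num : (0:ℝ) ≤ 1)
          linarith
        exact mul_le_mul h6 h2 h3.le (Real.exp_pos _).le
    unfold cv
    rw [← integral_sub (hIk p (hoq.trans hqp)) (hIk q hoq)]
    apply integral_congr_ae
    filter_upwards [lam2_mem] with r hr
    have hr1 := abs_sub_le_one hr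
    rw [integral_const_mul, cov_weight hoq le_rfl (ig_dep β le_rfl) hAm hK hr1]
    have : ek o q (r.1 - r.2) * (ek q p (r.1 - r.2) - 1) = ek o p (r.1 - r.2) - ek o q (r.1 - r.2) := by
      rw [mul_sub, ek_mul, mul_one]
    unfold W2
    calc _ = f r.1 * f r.2 * (∫ ω, ig β o ω * (hh o r.1 ω * hh o r.2 ω) ∂PP) * (ek o q (r.1 - r.2) * (ek q p (r.1 - r.2) - 1)) := by ring
      _ = _ := by rw [this]; ring
  · filter_upwards [lam2_mem] with r hr
    exact (hsec r (abs_sub_le_one hr)).const_mul _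
  · filter_upwards [lam2_mem] with r hr
    have hr1 := abs_sub_le_one hr
    have h2 := hh_two q hr1
    have h3 : ∫ ω, |(f r.1 * f r.2 * (ek q p (r.1 - r.2) - 1)) * (ig β o ω * (hh q r.1 ω * hh q r.2 ω))| ∂PP ≤
        ∫ ω, (Real.exp (((p:ℝ)-q)/2) + 1) * (hh q r.1 ω * hh q r.2 ω) ∂PP := by
      apply integral_mono_of_nonneg (Eventually.of_forall fun ω => abs_nonneg _) (h2.1.const_mul _)
      refine Eventually.of_forall fun ω => ?_
      show |(f r.1 * f r.2 * (ek q p (r.1 - r.2) - 1)) * (ig β o ω * (hh q r.1 ω * hh q r.2 ω))| ≤ (Real.exp (((p:ℝ)-q)/2) + 1) * (hh q r.1 ω * hh q r.2 ω)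
      have hp0 : 0 ≤ hh q r.1 ω * hh q r.2 ω := mul_nonneg (hh_pos _ _ _).le (hh_pos _ _ _).le
      rw [abs_mul, abs_mul (f r.1 * f r.2), abs_mul (ig β o ω), abs_of_nonneg hp0]
      have a1 : |f r.1 * f r.2| * |ek q p (r.1 - r.2) - 1| ≤ Real.exp (((p:ℝ)-q)/2) + 1 := by
        have := mul_le_mul (hff r) (hek (r.1 - r.2)) (abs_nonneg _) (by norm_num : (0:ℝ) ≤ 1)
        linarith
      have a2 : |ig β o ω| * (hh q r.1 ω * hh q r.2 ω) ≤ hh q r.1 ω * hh q r.2 ω := by
        have := hK ω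
        nlinarith
      exact mul_le_mul a1 a2 (by positivity) (by positivity)
    refine h3.trans ?_
    rw [integral_const_mul, h2.2]
    apply mul_le_mul_of_nonneg_left _ (by positivity)
    refine (ek_le (Nat.zero_le _) _).trans (le_of_eq ?_)
    congr 1; push_cast; ring

omit hβ in
/-- common size of difference terms -/
lemma diff_E (hoq : o ≤ q) {ρ : ℝ} (hρ : 0 < ρ) (hρ1 : ρ ≤ 1) {x y : ℝ} (hxy : |x - y| ≤ 1)
    (h : |x - y| * Real.exp ((q:ℝ)-1) ≤ ρ) :
    Integrable (fun ω => ig β o ω * (hh q x ω * |hh q x ω - hh q y ω|)) PP ∧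
    ∫ ω, ig β o ω * (hh q x ω * |hh q x ω - hh q y ω|) ∂PP ≤
      W2 (ig β o) o (x, x) * (Real.exp (((q:ℝ)-o)/2) * Real.sqrt ρ) +
      Real.exp ((q:ℝ)/2) * Real.sqrt (ρ * Real.exp (-((q:ℝ)-o))) :=
  hh_diff_weight hoq (ig_dep β le_rfl) (ig_meas β o) (ig_01 β o) hρ hρ1 hxy h

/-- second error term -/
lemma D2_bound (hp : p ≠ 0) (hoq : o ≤ q) (hqp : q ≤ p) (hpv : p ≤ v) :
    Integrable (fun ω => ig β o ω * ∫ r, hh q r.1 ω * |hh q r.1 ω - hh q r.2 ω| * dkt q p v (r.1 - r.2) ∂(lam.prod lam)) PP ∧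
    ∫ ω, ig β o ω * (∫ r, hh q r.1 ω * |hh q r.1 ω - hh q r.2 ω| * dkt q p v (r.1 - r.2) ∂(lam.prod lam)) ∂PP ≤
      DK q p * (Real.exp ((q:ℝ)/2) * Real.sqrt (Real.exp (-((p:ℝ)-q))) * (u o β + Real.sqrt (Real.exp (-((q:ℝ)-o))))) := by
  have hAm := ig_meas β o
  have h01 := ig_01 β o
  obtain ⟨w1, w2, w3, w4, w5⟩ := W2d_props hβ o
  set ρ := Real.exp (-((p:ℝ)-q)) with hρ
  have hρ0 : 0 < ρ := Real.exp_pos _
  have hρ1 : ρ ≤ 1 := by
    rw [hρ, Real.exp_le_one_iff]
    have : (q:ℝ) ≤ p := by exact_mod_cast hqp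
    linarith
  have m1 : Measurable (fun s : (ℝ × ℝ) × Om => ig β o s.2) := hAm.comp measurable_snd
  have m2 : Measurable (fun s : (ℝ × ℝ) × Om => dkt q p v (s.1.1 - s.1.2)) :=
    (dkt_cont q p v).measurable.comp ((measurable_fst.comp measurable_fst).sub (measurable_snd.comp measurable_fst))
  have hFm : Measurable (Function.uncurry fun (r : ℝ × ℝ) (ω : Om) => dkt q p v (r.1 - r.2) * (ig β o ω * (hh q r.1 ω * |hh q r.1 ω - hh q r.2 ω|))) :=
    m2.mul (m1.mul (diffF_meas q))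
  set E1 := Real.exp (((q:ℝ)-o)/2) * Real.sqrt ρ with hE1
  set E2 := Real.exp ((q:ℝ)/2) * Real.sqrt (ρ * Real.exp (-((q:ℝ)-o))) with hE2
  have hE1n : 0 ≤ E1 := by positivity
  have hE2n : 0 ≤ E2 := by positivity
  have hdm : Measurable (fun p' : ℝ × ℝ => dkt q p v (p'.1 - p'.2)) := (dkt_cont q p v).measurable.comp (measurable_fst.sub measurable_snd)
  have hdl : ∀ τ, dkt q p v τ ≤ Real.exp (((v:ℝ)-q)/2) := by
    intro τ
    have h1 := dkt_anti hqp hpv (s := 0) (t := τ) (by simp)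
    rw [dkt_zero] at h1
    have := Real.exp_pos (((p:ℝ)-q)/2)
    linarith
  have hBI : Integrable (fun r : ℝ × ℝ => (W2 (ig β o) o (r.1, r.1) * E1 + E2) * dkt q p v (r.1 - r.2)) (lam.prod lam) := by
    refine Integrable.of_bound (C := (Real.exp (o/2) * E1 + E2) * Real.exp (((v:ℝ)-q)/2)) ?_ (Eventually.of_forall fun r => ?_)
    · exact ((((w1.comp measurable_fst).mul_const _).add_const _).mul hdm).aestronglyMeasurable
    · have a1 := w2 r.1
      have a2 := w3 r.1
      have a3 := dkt_nonneg (o := q) hpv (r.1 - r.2)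
      have a4 := hdl (r.1 - r.2)
      rw [Real.norm_eq_abs, abs_of_nonneg (by positivity)]
      gcongr
  have key := param_expect_le (μ := lam.prod lam) hFm
    (fun r ω => mul_nonneg (dkt_nonneg hpv _) (mul_nonneg (h01 ω).1 (mul_nonneg (hh_pos _ _ _).le (abs_nonneg _))))
    (B := fun r => (W2 (ig β o) o (r.1, r.1) * E1 + E2) * dkt q p v (r.1 - r.2)) ?_ hBI ?_
  · have e1 : ∀ ω, ∫ r, dkt q p v (r.1 - r.2) * (ig β o ω * (hh q r.1 ω * |hh q r.1 ω - hh q r.2 ω|)) ∂(lam.prod lam) =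
        ig β o ω * ∫ r, hh q r.1 ω * |hh q r.1 ω - hh q r.2 ω| * dkt q p v (r.1 - r.2) ∂(lam.prod lam) := by
      intro ω
      rw [← integral_const_mul]
      congr 1; ext r; ring
    simp_rw [e1] at key
    refine ⟨key.1, key.2.trans ?_⟩
    rw [integral_prod _ hBI]
    have e2 : ∀ x, ∫ y, (W2 (ig β o) o (x, x) * E1 + E2) * dkt q p v (x - y) ∂lam = (W2 (ig β o) o (x, x) * E1 + E2) * ∫ y, dkt q p v (x - y) ∂lam := by
      intro x; rw [integral_const_mul]
    have hJ := hBI.integral_prod_left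
    simp only [e2] at hJ ⊢
    have h3 : ∫ x, (W2 (ig β o) o (x, x) * E1 + E2) * ∫ y, dkt q p v (x - y) ∂lam ∂lam ≤ ∫ x, (W2 (ig β o) o (x, x) * E1 + E2) * DK q p ∂lam := by
      apply integral_mono_ae hJ (((w4.mul_const _).add (integrable_const _)).mul_const _)
      filter_upwards [lam_mem] with x hx
      have := w2 x
      exact mul_le_mul_of_nonneg_left (dkt_conv hp hqp hpv hx) (by positivity)
    refine h3.trans ?_
    rw [integral_mul_const, integral_add (w4.mul_const _) (integrable_const _), integral_mul_const]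
    simp only [integral_const, probReal_univ, smul_eq_mul, one_mul]
    have hD := DK_nonneg q p
    have h4 : (∫ x, W2 (ig β o) o (x, x) ∂lam) * E1 ≤ (Real.exp (o/2) * u o β) * E1 := mul_le_mul_of_nonneg_right w5 hE1n
    have h5 : (Real.exp (o/2) * u o β) * E1 = Real.exp ((q:ℝ)/2) * Real.sqrt ρ * u o β := by
      rw [hE1]
      have : Real.exp ((q:ℝ)/2) = Real.exp (o/2) * Real.exp (((q:ℝ)-o)/2) := by rw [← Real.exp_add]; congr 1; ring
      rw [this]; ring
    have h6 : E2 = Real.exp ((q:ℝ)/2) * Real.sqrt ρ * Real.sqrt (Real.exp (-((q:ℝ)-o))) := by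
      rw [hE2, Real.sqrt_mul hρ0.le]; ring
    rw [mul_comm]
    apply mul_le_mul_of_nonneg_left _ hD
    rw [h5] at h4
    rw [h6]
    linarith
  · filter_upwards [lam2_mem] with r hr
    have hr1 := abs_sub_le_one hr
    by_cases hc : ell p ≤ |r.1 - r.2|
    · have : ∀ ω, dkt q p v (r.1 - r.2) * (ig β o ω * (hh q r.1 ω * |hh q r.1 ω - hh q r.2 ω|)) = 0 := by
        intro ω; rw [dkt_eq hr1, dk_eq_zero hpv hr1 hc, zero_mul]
      simp_rw [this]; exact integrable_const _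
    · have h7 : |r.1 - r.2| * Real.exp ((q:ℝ)-1) ≤ ρ := by
        have : ρ = ell p * Real.exp ((q:ℝ)-1) := by
          rw [hρ]; unfold ell; rw [← Real.exp_add]; congr 1; ring
        rw [this]
        exact mul_le_mul_of_nonneg_right (not_le.1 hc).le (Real.exp_pos _).le
      exact (diff_E hoq hρ0 hρ1 hr1 h7).1.const_mul _
  · filter_upwards [lam2_mem] with r hr
    have hr1 := abs_sub_le_one hr
    by_cases hc : ell p ≤ |r.1 - r.2|
    · have h0 : dkt q p v (r.1 - r.2) = 0 := by rw [dkt_eq hr1, dk_eq_zero hpv hr1 hc]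
      rw [h0]; simp
    · have h7 : |r.1 - r.2| * Real.exp ((q:ℝ)-1) ≤ ρ := by
        have : ρ = ell p * Real.exp ((q:ℝ)-1) := by
          rw [hρ]; unfold ell; rw [← Real.exp_add]; congr 1; ring
        rw [this]
        exact mul_le_mul_of_nonneg_right (not_le.1 hc).le (Real.exp_pos _).le
      rw [integral_const_mul, mul_comm]
      exact mul_le_mul_of_nonneg_right (diff_E hoq hρ0 hρ1 hr1 h7).2 (dkt_nonneg hpv _)

omit hβ in
/-- boundary error term -/
lemma D3_bound (q : ℕ) {l : ℝ} (hl : 0 ≤ l) :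
    Integrable (fun ω => ∫ x, (bz l).indicator (fun x => hh q x ω * hh q x ω) x ∂lam) PP ∧
    ∫ ω, ∫ x, (bz l).indicator (fun x => hh q x ω * hh q x ω) x ∂lam ∂PP ≤ 2 * l * Real.exp ((q:ℝ)/2) := by
  have e : ∀ x ω, (bz l).indicator (fun x => hh q x ω * hh q x ω) x = (bz l).indicator (fun _ => (1:ℝ)) x * (hh q x ω * hh q x ω) := by
    intro x ω
    by_cases hx : x ∈ bz l
    · rw [Set.indicator_of_mem hx, Set.indicator_of_mem hx, one_mul]
    · rw [Set.indicator_of_notMem hx, Set.indicator_of_notMem hx, zero_mul]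
  simp_rw [e]
  have hm : Measurable (Function.uncurry fun (x : ℝ) (ω : Om) => (bz l).indicator (fun _ => (1:ℝ)) x * (hh q x ω * hh q x ω)) := by
    have m1 : Measurable (fun s : ℝ × Om => (bz l).indicator (fun _ => (1:ℝ)) s.1) :=
      (measurable_const.indicator (bz_meas l)).comp measurable_fst
    have m2 : Measurable (fun s : ℝ × Om => hh q s.1 s.2) := hh_meas q
    exact m1.mul (m2.mul m2)
  have hBI : Integrable (fun x : ℝ => (bz l).indicator (fun _ => (1:ℝ)) x * Real.exp ((q:ℝ)/2)) lam :=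
    ((integrable_const (1:ℝ)).indicator (bz_meas l)).mul_const _
  have hsq : ∀ x, ∫ ω, hh q x ω * hh q x ω ∂PP = Real.exp ((q:ℝ)/2) := by
    intro x
    have := (hh_two q (x := x) (y := x) (by simp)).2
    rw [this, sub_self, ek_zero]; simp
  have key := param_expect_le (μ := lam) hm (fun x ω => mul_nonneg (Set.indicator_nonneg (fun _ _ => zero_le_one) _) (mul_nonneg (hh_pos _ _ _).le (hh_pos _ _ _).le))
    (Eventually.of_forall fun x => ((hh_two q (x := x) (y := x) (by simp)).1.const_mul _)) hBI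
    (Eventually.of_forall fun x => by rw [integral_const_mul, hsq])
  refine ⟨key.1, key.2.trans ?_⟩
  rw [integral_mul_const, integral_indicator_const _ (bz_meas l)]
  have h1 : lam.real (bz l) ≤ 2 * l := by
    have h2 : lam (bz l) ≤ ENNReal.ofReal (2 * l) := by
      unfold lam
      rw [Measure.restrict_apply (bz_meas l)]
      have hsub : bz l ∩ Icc 0 1 ⊆ Ico 0 l ∪ Ioc (1-l) 1 := by
        intro x hx
        rcases hx.1 with h | h
        · left; exact ⟨hx.2.1, h⟩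
        · right; exact ⟨h, hx.2.2⟩
      refine (measure_mono hsub).trans ((measure_union_le _ _).trans ?_)
      rw [Real.volume_Ico, Real.volume_Ioc, ← ENNReal.ofReal_add (by linarith) (by linarith)]
      apply ENNReal.ofReal_le_ofReal; linarith
    exact ENNReal.toReal_le_of_le_ofReal (by linarith) h2
  simp only [smul_eq_mul, mul_one]
  exact mul_le_mul_of_nonneg_right h1 (Real.exp_pos _).le

/-- shift error term -/
lemma D4_bound (hoq : o ≤ q) {n : ℕ} (hn : n ≠ 0) (hρ1 : 1/(4*(n:ℝ)) * Real.exp ((q:ℝ)-1) ≤ 1) :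
    Integrable (fun ω => ig β o ω * ∫ x in (0:ℝ)..(1 - 1/(4*n)), |hh q x ω * hh q x ω - hh q (x + 1/(4*n)) ω * hh q (x + 1/(4*n)) ω|) PP ∧
    ∫ ω, ig β o ω * (∫ x in (0:ℝ)..(1 - 1/(4*n)), |hh q x ω * hh q x ω - hh q (x + 1/(4*n)) ω * hh q (x + 1/(4*n)) ω|) ∂PP ≤
      2 * (Real.exp ((q:ℝ)/2) * Real.sqrt (1/(4*(n:ℝ)) * Real.exp ((q:ℝ)-1)) * (u o β + Real.sqrt (Real.exp (-((q:ℝ)-o))))) := by
  have hAm := ig_meas β o
  have h01 := ig_01 β o
  obtain ⟨w1, w2, w3, w4, w5⟩ := W2d_props hβ o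
  have hn' : (0:ℝ) < n := by exact_mod_cast Nat.pos_of_ne_zero hn
  have hn1 : (1:ℝ) ≤ n := by exact_mod_cast Nat.one_le_iff_ne_zero.2 hn
  set δ : ℝ := 1/(4*n) with hδ
  have hδ0 : 0 < δ := by positivity
  have hδ1 : δ ≤ 1/4 := by
    rw [hδ]; apply one_div_le_one_div_of_le (by norm_num); linarith
  set ρ := δ * Real.exp ((q:ℝ)-1) with hρ
  have hρ0 : 0 < ρ := by positivity
  set E1 := Real.exp (((q:ℝ)-o)/2) * Real.sqrt ρ with hE1
  set E2 := Real.exp ((q:ℝ)/2) * Real.sqrt (ρ * Real.exp (-((q:ℝ)-o))) with hE2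
  have hE1n : 0 ≤ E1 := by positivity
  have hE2n : 0 ≤ E2 := by positivity
  simp_rw [intervalIntegral.integral_of_le (show (0:ℝ) ≤ 1 - δ by linarith)]
  have mx : Measurable (fun s : ℝ × Om => hh q s.1 s.2) := hh_meas q
  have my : Measurable (fun s : ℝ × Om => hh q (s.1 + δ) s.2) := meas2 (hh_meas q) (measurable_fst.add_const δ) measurable_snd
  have m1 : Measurable (fun s : ℝ × Om => ig β o s.2) := hAm.comp measurable_snd
  have m3 : Measurable (fun s : ℝ × Om => |hh q s.1 s.2 * hh q s.1 s.2 - hh q (s.1 + δ) s.2 * hh q (s.1 + δ) s.2|) :=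
    ((mx.mul mx).sub (my.mul my)).abs
  have hFm : Measurable (Function.uncurry fun (x : ℝ) (ω : Om) => ig β o ω * |hh q x ω * hh q x ω - hh q (x + δ) ω * hh q (x + δ) ω|) := m1.mul m3
  have hx1 : ∀ x : ℝ, |x - (x + δ)| = δ := by
    intro x
    have : x - (x + δ) = -δ := by ring
    rw [this, abs_neg, abs_of_pos hδ0]
  have hx2 : ∀ x : ℝ, |(x + δ) - x| = δ := by
    intro x; rw [abs_sub_comm]; exact hx1 x
  have d1 : ∀ x, _ := fun x : ℝ => diff_E (β := β) hoq (ρ := ρ) hρ0 hρ1 (x := x) (y := x + δ) (by rw [hx1]; linarith) (by rw [hx1])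
  have d2 : ∀ x, _ := fun x : ℝ => diff_E (β := β) hoq (ρ := ρ) hρ0 hρ1 (x := x + δ) (y := x) (by rw [hx2]; linarith) (by rw [hx2])
  have hpt : ∀ x ω, ig β o ω * |hh q x ω * hh q x ω - hh q (x + δ) ω * hh q (x + δ) ω| ≤
      ig β o ω * (hh q x ω * |hh q x ω - hh q (x + δ) ω|) + ig β o ω * (hh q (x + δ) ω * |hh q (x + δ) ω - hh q x ω|) := by
    intro x ω
    have p1 := hh_pos q x ω
    have p2 := hh_pos q (x + δ) ω
    have e : hh q x ω * hh q x ω - hh q (x + δ) ω * hh q (x + δ) ω = (hh q x ω + hh q (x + δ) ω) * (hh q x ω - hh q (x + δ) ω) := by ring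
    rw [e, abs_mul, abs_of_pos (by positivity), abs_sub_comm (hh q (x+δ) ω)]
    apply le_of_eq; ring
  have hsecI : ∀ x : ℝ, Integrable (fun ω => ig β o ω * |hh q x ω * hh q x ω - hh q (x + δ) ω * hh q (x + δ) ω|) PP := by
    intro x
    refine ((d1 x).1.add (d2 x).1).mono' ?_ (Eventually.of_forall fun ω => ?_)
    · exact (hFm.comp (measurable_const.prodMk measurable_id)).aestronglyMeasurable
    · rw [Real.norm_eq_abs, abs_of_nonneg (mul_nonneg (h01 ω).1 (abs_nonneg _))]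
      exact hpt x ω
  have wI1 : IntegrableOn (fun x => W2 (ig β o) o (x, x)) (Ioc 0 (1-δ)) := by
    refine Measure.integrableOn_of_bounded (M := Real.exp (o/2)) (by simp) w1.aestronglyMeasurable (Eventually.of_forall fun x => ?_)
    rw [Real.norm_eq_abs, abs_of_nonneg (w2 x)]; exact w3 x
  have wI2 : IntegrableOn (fun x => W2 (ig β o) o (x + δ, x + δ)) (Ioc 0 (1-δ)) := by
    refine Measure.integrableOn_of_bounded (M := Real.exp (o/2)) (by simp) (w1.comp (measurable_id.add_const δ)).aestronglyMeasurable (Eventually.of_forall fun x => ?_)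
    rw [Real.norm_eq_abs, abs_of_nonneg (w2 (x+δ))]; exact w3 (x+δ)
  have hBI : Integrable (fun x : ℝ => (W2 (ig β o) o (x, x) * E1 + E2) + (W2 (ig β o) o (x + δ, x + δ) * E1 + E2)) (volume.restrict (Ioc 0 (1-δ))) :=
    ((wI1.mul_const _).add (integrable_const _)).add ((wI2.mul_const _).add (integrable_const _))
  have key := param_expect_le (μ := volume.restrict (Ioc 0 (1-δ))) hFm (fun x ω => mul_nonneg (h01 ω).1 (abs_nonneg _))
    (Eventually.of_forall fun x => hsecI x) hBI (Eventually.of_forall fun x => by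
      have h1 := integral_mono (hsecI x) ((d1 x).1.add (d2 x).1) (fun ω => hpt x ω)
      refine h1.trans ?_
      simp only [Pi.add_apply]
      rw [integral_add (d1 x).1 (d2 x).1]
      exact add_le_add (d1 x).2 (d2 x).2)
  have e1 : ∀ ω, ∫ x in Ioc 0 (1-δ), ig β o ω * |hh q x ω * hh q x ω - hh q (x + δ) ω * hh q (x + δ) ω| =
      ig β o ω * ∫ x in Ioc 0 (1-δ), |hh q x ω * hh q x ω - hh q (x + δ) ω * hh q (x + δ) ω| := by
    intro ω; rw [integral_const_mul]
  simp_rw [e1] at key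
  refine ⟨key.1, key.2.trans ?_⟩
  have a1 : Integrable (fun x : ℝ => W2 (ig β o) o (x, x) * E1) (volume.restrict (Ioc 0 (1-δ))) := wI1.mul_const _
  have a2 : Integrable (fun x : ℝ => W2 (ig β o) o (x + δ, x + δ) * E1) (volume.restrict (Ioc 0 (1-δ))) := wI2.mul_const _
  have a3 : Integrable (fun x : ℝ => W2 (ig β o) o (x, x) * E1 + E2) (volume.restrict (Ioc 0 (1-δ))) := a1.add (integrable_const _)
  have a4 : Integrable (fun x : ℝ => W2 (ig β o) o (x + δ, x + δ) * E1 + E2) (volume.restrict (Ioc 0 (1-δ))) := a2.add (integrable_const _)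
  have r1 : ∫ x in Ioc 0 (1-δ), W2 (ig β o) o (x, x) * E1 = (∫ x in Ioc 0 (1-δ), W2 (ig β o) o (x, x)) * E1 := integral_mul_const _ _
  have r2 : ∫ x in Ioc 0 (1-δ), W2 (ig β o) o (x + δ, x + δ) * E1 = (∫ x in Ioc 0 (1-δ), W2 (ig β o) o (x + δ, x + δ)) * E1 := integral_mul_const _ _
  rw [integral_add a3 a4, integral_add a1 (integrable_const _), integral_add a2 (integrable_const _), r1, r2]
  have hnn : 0 ≤ᵐ[volume.restrict (Icc (0:ℝ) 1)] (fun x => W2 (ig β o) o (x, x)) := Eventually.of_forall fun x => w2 x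
  have w4' : IntegrableOn (fun x => W2 (ig β o) o (x, x)) (Icc (0:ℝ) 1) := w4
  have w5' : ∫ x in Icc (0:ℝ) 1, W2 (ig β o) o (x, x) ≤ Real.exp (o/2) * u o β := w5
  have b1 : ∫ x in Ioc 0 (1-δ), W2 (ig β o) o (x, x) ≤ Real.exp (o/2) * u o β := by
    refine le_trans ?_ w5'
    apply setIntegral_mono_set w4' hnn
    exact Eventually.of_forall (fun x hx => ⟨hx.1.le, by linarith [hx.2]⟩)
  have b2 : ∫ x in Ioc 0 (1-δ), W2 (ig β o) o (x + δ, x + δ) ≤ Real.exp (o/2) * u o β := by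
    have h := intervalIntegral.integral_comp_add_right (a := 0) (b := 1-δ) (fun x => W2 (ig β o) o (x, x)) δ
    rw [intervalIntegral.integral_of_le (by linarith), intervalIntegral.integral_of_le (by linarith)] at h
    rw [h]
    refine le_trans ?_ w5'
    apply setIntegral_mono_set w4' hnn
    exact Eventually.of_forall (fun x hx => ⟨by linarith [hx.1], by linarith [hx.2]⟩)
  have b3 : ∫ x in Ioc 0 (1-δ), E2 ≤ E2 := by
    simp only [integral_const, smul_eq_mul]
    have : (volume.restrict (Ioc 0 (1-δ))).real univ = 1 - δ := by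
      rw [Measure.real, Measure.restrict_apply_univ, Real.volume_Ioc, sub_zero, ENNReal.toReal_ofReal (by linarith)]
    rw [this]; nlinarith
  have h5 : (Real.exp (o/2) * u o β) * E1 = Real.exp ((q:ℝ)/2) * Real.sqrt ρ * u o β := by
    rw [hE1]
    have : Real.exp ((q:ℝ)/2) = Real.exp (o/2) * Real.exp (((q:ℝ)-o)/2) := by rw [← Real.exp_add]; congr 1; ring
    rw [this]; ring
  have h6 : E2 = Real.exp ((q:ℝ)/2) * Real.sqrt ρ * Real.sqrt (Real.exp (-((q:ℝ)-o))) := by
    rw [hE2, Real.sqrt_mul hρ0.le]; ring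
  have c1 := mul_le_mul_of_nonneg_right b1 hE1n
  have c2 := mul_le_mul_of_nonneg_right b2 hE1n
  rw [h5] at c1 c2
  rw [h6] at b3 ⊢
  linarith

end main

end

end Pool.Agent.H968
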