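import Mathlib
import Pool.Agent.H968.VarC

open MeasureTheory ProbabilityTheory Filter Topology Set
open scoped ENNReal NNReal

namespace Pool.Agent.H968

noncomputable section

/-- conditional fluctuation functional -/
def UU (f : ℝ → ℝ) (q v : ℕ) (H : ℝ → ℝ) (ω : Om) : ℝ := ∫ x, f x * H x * (gg q v x ω - 1) ∂lam

lemma gm_meas {f H : ℝ → ℝ} (hf : Measurable f) (hH : Measurable H) (q v : ℕ) :
    Measurable (Function.uncurry fun x ω => f x * H x * (gg q v x ω - 1)) := by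
  have m1 : Measurable (fun s : ℝ × Om => f s.1 * H s.1) := (hf.comp measurable_fst).mul (hH.comp measurable_fst)
  have m2 : Measurable (fun s : ℝ × Om => gg q v s.1 s.2 - 1) := (gg_meas q v).sub_const 1
  exact m1.mul m2

lemma UU_meas {f H : ℝ → ℝ} (hf : Measurable f) (hH : Measurable H) (q v : ℕ) : Measurable (UU f q v H) :=
  int_param_meas (gm_meas hf hH q v)

lemma gm_two {q v : ℕ} (hqv : q ≤ v) {x y : ℝ} (hxy : |x - y| ≤ 1) :
    Integrable (fun ω => (gg q v x ω - 1) * (gg q v y ω - 1)) PP ∧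
    ∫ ω, (gg q v x ω - 1) * (gg q v y ω - 1) ∂PP = ek q v (x - y) - 1 ∧
    ∫ ω, |(gg q v x ω - 1) * (gg q v y ω - 1)| ∂PP ≤ Real.exp (((v:ℝ)-q)/2) + 3 := by
  have h1 := gg_two hqv hxy
  have h2 := gg_one hqv x
  have h3 := gg_one hqv y
  have e : ∀ ω, (gg q v x ω - 1) * (gg q v y ω - 1) = gg q v x ω * gg q v y ω - gg q v x ω - gg q v y ω + 1 := by
    intro ω; ring
  have i1 : Integrable (fun ω => gg q v x ω * gg q v y ω - gg q v x ω - gg q v y ω + 1) PP :=
    ((h1.1.sub h2.1).sub h3.1).add (integrable_const 1)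
  have hI : Integrable (fun ω => (gg q v x ω - 1) * (gg q v y ω - 1)) PP := i1.congr (Eventually.of_forall fun ω => (e ω).symm)
  refine ⟨hI, ?_, ?_⟩
  · simp_rw [e]
    rw [int4 h1.1 h2.1 h3.1 (integrable_const 1), h1.2, h2.2, h3.2]
    simp
  · have i2 : Integrable (fun ω => gg q v x ω * gg q v y ω + gg q v x ω + gg q v y ω + 1) PP :=
      ((h1.1.add h2.1).add h3.1).add (integrable_const 1)
    have h4 : ∫ ω, |(gg q v x ω - 1) * (gg q v y ω - 1)| ∂PP ≤ ∫ ω, (gg q v x ω * gg q v y ω + gg q v x ω + gg q v y ω + 1) ∂PP := by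
      apply integral_mono hI.abs i2
      intro ω
      have p1 := gg_pos q v x ω
      have p2 := gg_pos q v y ω
      have p3 := mul_pos p1 p2
      show |(gg q v x ω - 1) * (gg q v y ω - 1)| ≤ gg q v x ω * gg q v y ω + gg q v x ω + gg q v y ω + 1
      rw [abs_le]; constructor <;> nlinarith
    refine h4.trans ?_
    have i3 : Integrable (fun ω => gg q v x ω * gg q v y ω + gg q v x ω) PP := h1.1.add h2.1
    have i4 : Integrable (fun ω => gg q v x ω * gg q v y ω + gg q v x ω + gg q v y ω) PP := i3.add h3.1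
    rw [integral_add i4 (integrable_const 1), integral_add i3 h3.1, integral_add h1.1 h2.1, h1.2, h2.2, h3.2]
    have := ek_le hqv (x - y)
    simp
    linarith

section det
variable {H : ℝ → ℝ} (hH : Measurable H) (h0 : ∀ x, 0 ≤ H x) (hI : Integrable (fun x => H x * H x) lam)
include hH h0 hI

lemma UU_bil {f f' : ℝ → ℝ} (hf : Measurable f) (hf1 : ∀ x, |f x| ≤ 1) (hf' : Measurable f') (hf1' : ∀ x, |f' x| ≤ 1)
    {q v : ℕ} (hqv : q ≤ v) :
    Integrable (fun ω => UU f q v H ω * UU f' q v H ω) PP ∧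
    ∫ ω, UU f q v H ω * UU f' q v H ω ∂PP =
      ∫ p, f p.1 * f' p.2 * (H p.1 * H p.2) * (ek q v (p.1 - p.2) - 1) ∂(lam.prod lam) := by
  have hFm : Measurable (Function.uncurry fun (p : ℝ × ℝ) (ω : Om) => (f p.1 * H p.1 * (gg q v p.1 ω - 1)) * (f' p.2 * H p.2 * (gg q v p.2 ω - 1))) := by
    exact (meas2 (gm_meas hf hH q v) (measurable_fst.comp measurable_fst) measurable_snd).mul
      (meas2 (gm_meas hf' hH q v) (measurable_snd.comp measurable_fst) measurable_snd)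
  have hHH := (H_int hH h0 hI).mul_prod (H_int hH h0 hI)
  have e : ∀ (p : ℝ × ℝ) ω, (f p.1 * H p.1 * (gg q v p.1 ω - 1)) * (f' p.2 * H p.2 * (gg q v p.2 ω - 1)) =
      (f p.1 * f' p.2 * (H p.1 * H p.2)) * ((gg q v p.1 ω - 1) * (gg q v p.2 ω - 1)) := by intro p ω; ring
  have hI0 : Integrable (fun s : (ℝ × ℝ) × Om => (f s.1.1 * H s.1.1 * (gg q v s.1.1 s.2 - 1)) * (f' s.1.2 * H s.1.2 * (gg q v s.1.2 s.2 - 1))) ((lam.prod lam).prod PP) := by
    refine prod_integrable (F := fun (p : ℝ × ℝ) (ω : Om) => (f p.1 * H p.1 * (gg q v p.1 ω - 1)) * (f' p.2 * H p.2 * (gg q v p.2 ω - 1))) hFm ?_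
      (B := fun p => (H p.1 * H p.2) * (Real.exp (((v:ℝ)-q)/2) + 3)) (hHH.mul_const _) ?_
    · filter_upwards [lam2_mem] with p hp
      refine ((gm_two hqv (abs_sub_le_one hp)).1.const_mul (f p.1 * f' p.2 * (H p.1 * H p.2))).congr (Eventually.of_forall fun ω => ?_)
      exact (e p ω).symm
    · filter_upwards [lam2_mem] with p hp
      simp_rw [e, abs_mul (f p.1 * f' p.2 * (H p.1 * H p.2))]
      rw [integral_const_mul]
      have h3 := (gm_two hqv (abs_sub_le_one hp)).2.2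
      apply mul_le_mul _ h3 (integral_nonneg fun ω => abs_nonneg _) (mul_nonneg (h0 _) (h0 _))
      rw [abs_mul, abs_mul, abs_of_nonneg (mul_nonneg (h0 p.1) (h0 p.2))]
      have h4 : |f p.1| * |f' p.2| ≤ 1 := by
        have := mul_le_mul (hf1 p.1) (hf1' p.2) (abs_nonneg _) (by norm_num : (0:ℝ) ≤ 1)
        linarith
      have := mul_nonneg (h0 p.1) (h0 p.2)
      nlinarith
  constructor
  · have h4 := hI0.swap.integral_prod_left
    refine h4.congr (Eventually.of_forall fun ω => ?_)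
    simp only [Prod.swap, Function.comp_def]
    exact integral_prod_mul (μ := lam) (ν := lam) (fun x => f x * H x * (gg q v x ω - 1)) (fun x => f' x * H x * (gg q v x ω - 1))
  · have key := bil_formula (μ := lam) (a := fun x ω => f x * H x * (gg q v x ω - 1)) (b := fun x ω => f' x * H x * (gg q v x ω - 1)) hI0
    refine key.trans ?_
    apply integral_congr_ae
    filter_upwards [lam2_mem] with p hp
    simp_rw [e]
    rw [integral_const_mul, (gm_two hqv (abs_sub_le_one hp)).2.1]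

lemma VV_eq {f : ℝ → ℝ} (hf : Measurable f) (hf1 : ∀ x, |f x| ≤ 1) {q v : ℕ} (hqv : q ≤ v) :
    ∫ ω, UU f q v H ω * UU f q v H ω ∂PP = VV f q v H := (UU_bil hH h0 hI hf hf1 hf hf1 hqv).2

lemma VV_nonneg {f : ℝ → ℝ} (hf : Measurable f) (hf1 : ∀ x, |f x| ≤ 1) {q v : ℕ} (hqv : q ≤ v) :
    0 ≤ VV f q v H := by
  rw [← VV_eq hH h0 hI hf hf1 hqv]
  exact integral_nonneg fun ω => mul_self_nonneg _

end det

/-- the total error bound -/
def EB (β : ℝ) (n o k q p v : ℕ) : ℝ :=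
  (Real.exp ((p:ℝ)/2) / n * u o β + 4 * Real.exp ((o:ℝ)/2) * ell k) +
  DK q p * (Real.exp ((q:ℝ)/2) * Real.sqrt (Real.exp (-((p:ℝ)-q))) * (u o β + Real.sqrt (Real.exp (-((q:ℝ)-o))))) +
  2 * DK q p * (2 * ell p * Real.exp ((q:ℝ)/2)) +
  |JJ n q p v| * (2 * (Real.exp ((q:ℝ)/2) * Real.sqrt (1/(4*(n:ℝ)) * Real.exp ((q:ℝ)-1)) * (u o β + Real.sqrt (Real.exp (-((q:ℝ)-o))))) +
    2 * (1/(4*(n:ℝ))) * Real.exp ((q:ℝ)/2))

theorem var_error {β : ℝ} (hβ : 0 ≤ β) {n : ℕ} (hn : n ≠ 0) (φ : ℝ) {o k q p v : ℕ} (hk : k ≠ 0) (hok : o ≤ k) (hkq : k ≤ q)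
    (hqp : q ≤ p) (hpv : p ≤ v) (hρ1 : 1/(4*(n:ℝ)) * Real.exp ((q:ℝ)-1) ≤ 1) :
    ∃ D : Om → ℝ, Integrable D PP ∧
      (∀ᵐ ω ∂PP, ig β o ω * |VV (ff n φ) q v (fun x => hh q x ω) - (1/2) * JJ n q p v * ∫ x, hh q x ω * hh q x ω ∂lam| ≤ D ω) ∧
      ∫ ω, D ω ∂PP ≤ EB β n o k q p v := by
  have hf : Measurable (ff n φ) := (ff_cont n φ).measurable
  have hf1 := ff_abs n φ
  have hoq := hok.trans hkq
  have hp : p ≠ 0 := by omega
  have hn' : (0:ℝ) < n := by exact_mod_cast Nat.pos_of_ne_zero hn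
  have t1 := D1_bound (β := β) hf hf1 hoq hqp
  have t2 := D2_bound (v := v) hβ hp hoq hqp hpv
  have t3 := D3_bound q (l := ell p) (ell_pos p).le
  have t4 := D4_bound hβ hoq hn hρ1
  have t5 := D3_bound q (l := 1/(4*(n:ℝ))) (by positivity)
  have hcv : cv (ig β o) o (ff n φ) p - cv (ig β o) o (ff n φ) q ≤ Real.exp ((p:ℝ)/2) / n * u o β + 4 * Real.exp ((o:ℝ)/2) * ell k := by
    have h1 := cv_diff hβ hn φ (o := o) (i := k) (j := p) hk hok (hkq.trans hqp)
    have h2 := (sec_diff hok hkq (ig_dep β le_rfl) (ig_meas β o) (ig_01 β o) hf hf1).2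
    have h3 : 0 ≤ ∫ ω, ig β o ω * (mm (ff n φ) q ω - mm (ff n φ) k ω)^2 ∂PP :=
      integral_nonneg fun ω => mul_nonneg (ig_01 β o ω).1 (sq_nonneg _)
    linarith
  refine ⟨fun ω => ig β o ω * VV (ff n φ) q p (fun x => hh q x ω) +
    ig β o ω * (∫ r, hh q r.1 ω * |hh q r.1 ω - hh q r.2 ω| * dkt q p v (r.1 - r.2) ∂(lam.prod lam)) +
    2 * DK q p * (∫ x, (bz (ell p)).indicator (fun x => hh q x ω * hh q x ω) x ∂lam) +
    |JJ n q p v| * (ig β o ω * (∫ x in (0:ℝ)..(1 - 1/(4*n)), |hh q x ω * hh q x ω - hh q (x + 1/(4*n)) ω * hh q (x + 1/(4*n)) ω|) +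
      ∫ x, (bz (1/(4*n))).indicator (fun x => hh q x ω * hh q x ω) x ∂lam), ?_, ?_, ?_⟩
  · exact ((t1.1.add t2.1).add (t3.1.const_mul _)).add ((t4.1.add t5.1).const_mul _)
  · filter_upwards [(hsq_prod_int q).prod_left_ae] with ω hω
    have hHm : Measurable (fun x => hh q x ω) := sec_meas_x (hh_meas q) ω
    have hH0 : ∀ x, 0 ≤ hh q x ω := fun x => (hh_pos q x ω).le
    have hω' : Integrable (fun x => hh q x ω * hh q x ω) lam := hω
    have a1 := VV_main hHm hH0 hω' hn φ hp hqp hpv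
    have a2 := sq_mean (H := fun x => hh q x ω) hH0 hω' hn φ
    have a3 := VV_nonneg hHm hH0 hω' hf hf1 hqp
    set T := VV (ff n φ) q v (fun x => hh q x ω)
    set T' := VV (ff n φ) q p (fun x => hh q x ω)
    set F := ∫ x, ff n φ x * ff n φ x * (hh q x ω * hh q x ω) ∂lam
    set M := ∫ x, hh q x ω * hh q x ω ∂lam
    set J := JJ n q p v
    set R1 := ∫ r, hh q r.1 ω * |hh q r.1 ω - hh q r.2 ω| * dkt q p v (r.1 - r.2) ∂(lam.prod lam)
    set R2 := ∫ x, (bz (ell p)).indicator (fun x => hh q x ω * hh q x ω) x ∂lam with hR2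
    set R3 := ∫ x in (0:ℝ)..(1 - 1/(4*n)), |hh q x ω * hh q x ω - hh q (x + 1/(4*n)) ω * hh q (x + 1/(4*n)) ω|
    set R4 := ∫ x, (bz (1/(4*n))).indicator (fun x => hh q x ω * hh q x ω) x ∂lam with hR4
    have hR2n : 0 ≤ R2 := integral_nonneg fun x => Set.indicator_nonneg (fun x _ => mul_nonneg (hH0 x) (hH0 x)) x
    have hR4n : 0 ≤ R4 := integral_nonneg fun x => Set.indicator_nonneg (fun x _ => mul_nonneg (hH0 x) (hH0 x)) x
    have b1 : |T - (1/2) * J * M| ≤ |T - T' - J * F| + T' + |J| * |F - (1/2) * M| := by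
      have e : T - (1/2) * J * M = (T - T' - J * F) + T' + J * (F - (1/2) * M) := by ring
      rw [e]
      refine (abs_add_le _ _).trans ?_
      have := abs_add_le (T - T' - J * F) T'
      rw [abs_of_nonneg a3] at this
      rw [abs_mul]
      linarith
    have b2 : |T - (1/2) * J * M| ≤ (R1 + 2 * DK q p * R2) + T' + |J| * (R3 + R4) := by
      refine b1.trans ?_
      have := mul_le_mul_of_nonneg_left a2 (abs_nonneg J)
      linarith
    have g0 := (ig_01 β o ω).1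
    have g1 := (ig_01 β o ω).2
    have hD := DK_nonneg q p
    calc ig β o ω * |T - (1/2) * J * M| ≤ ig β o ω * ((R1 + 2 * DK q p * R2) + T' + |J| * (R3 + R4)) := by gcongr
      _ = ig β o ω * T' + ig β o ω * R1 + ig β o ω * (2 * DK q p * R2) + |J| * (ig β o ω * R3 + ig β o ω * R4) := by ring
      _ ≤ _ := by
        have c1 : ig β o ω * (2 * DK q p * R2) ≤ 2 * DK q p * R2 := by
          have : 0 ≤ 2 * DK q p * R2 := by positivity
          nlinarith
        have c2 : ig β o ω * R4 ≤ R4 := by nlinarith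
        gcongr
  · have i1 := t1.1
    have i12 : Integrable (fun ω => ig β o ω * VV (ff n φ) q p (fun x => hh q x ω) +
      ig β o ω * (∫ r, hh q r.1 ω * |hh q r.1 ω - hh q r.2 ω| * dkt q p v (r.1 - r.2) ∂(lam.prod lam))) PP := t1.1.add t2.1
    have i123 : Integrable (fun ω => ig β o ω * VV (ff n φ) q p (fun x => hh q x ω) +
      ig β o ω * (∫ r, hh q r.1 ω * |hh q r.1 ω - hh q r.2 ω| * dkt q p v (r.1 - r.2) ∂(lam.prod lam)) +
      2 * DK q p * (∫ x, (bz (ell p)).indicator (fun x => hh q x ω * hh q x ω) x ∂lam)) PP := i12.add (t3.1.const_mul _)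
    have i45 : Integrable (fun ω => (ig β o ω * (∫ x in (0:ℝ)..(1 - 1/(4*n)), |hh q x ω * hh q x ω - hh q (x + 1/(4*n)) ω * hh q (x + 1/(4*n)) ω|) +
      ∫ x, (bz (1/(4*n))).indicator (fun x => hh q x ω * hh q x ω) x ∂lam)) PP := t4.1.add t5.1
    rw [integral_add i123 (i45.const_mul _), integral_add i12 (t3.1.const_mul _), integral_add t1.1 t2.1,
      integral_const_mul, integral_const_mul, integral_add t4.1 t5.1, t1.2]
    unfold EB
    have hD := DK_nonneg q p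
    have c1 := mul_le_mul_of_nonneg_left t3.2 (show 0 ≤ 2 * DK q p by positivity)
    have c2 := mul_le_mul_of_nonneg_left (add_le_add t4.2 t5.2) (abs_nonneg (JJ n q p v))
    linarith [t2.2]

end

end Pool.Agent.H968
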