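import Mathlib
import Pool.Agent.H968.VarD

open MeasureTheory ProbabilityTheory Filter Topology Set
open scoped ENNReal NNReal

namespace Pool.Agent.H968

noncomputable section

lemma CI_sep {q v : ℕ} (hqv : q ≤ v) {x y : ℝ} (h1 : |x - y| ≤ 1) (h : ell q ≤ |x - y|) : CI q v x y = 0 := by
  rw [CI_eq h1, KKd_eq_zero hqv h1 h]; ring

lemma gg_abs_one {q v : ℕ} (hqv : q ≤ v) (x : ℝ) : Integrable (fun ω => gg q v x ω - 1) PP ∧ ∫ ω, |gg q v x ω - 1| ∂PP ≤ 2 := by
  have h := gg_one hqv x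
  have hI : Integrable (fun ω => gg q v x ω - 1) PP := h.1.sub (integrable_const 1)
  refine ⟨hI, ?_⟩
  have h1 : ∫ ω, |gg q v x ω - 1| ∂PP ≤ ∫ ω, (gg q v x ω + 1) ∂PP := by
    apply integral_mono hI.abs (h.1.add (integrable_const 1))
    intro ω
    have := gg_pos q v x ω
    show |gg q v x ω - 1| ≤ gg q v x ω + 1
    rw [abs_le]; constructor <;> linarith
  rw [integral_add h.1 (integrable_const 1), h.2] at h1
  norm_num at h1
  exact h1

section det
variable {H : ℝ → ℝ} (hH : Measurable H) (h0 : ∀ x, 0 ≤ H x) (hI : Integrable (fun x => H x * H x) lam)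
include hH h0 hI

lemma gm_prod_int {f : ℝ → ℝ} (hf : Measurable f) (hf1 : ∀ x, |f x| ≤ 1) {q v : ℕ} (hqv : q ≤ v) :
    Integrable (fun s : ℝ × Om => f s.1 * H s.1 * (gg q v s.1 s.2 - 1)) (lam.prod PP) := by
  refine prod_integrable (F := fun x ω => f x * H x * (gg q v x ω - 1)) (gm_meas hf hH q v) ?_
    (B := fun x => H x * 2) ((H_int hH h0 hI).mul_const 2) ?_
  · exact Eventually.of_forall fun x => (gg_abs_one hqv x).1.const_mul _
  · refine Eventually.of_forall fun x => ?_
    simp_rw [abs_mul (f x * H x)]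
    rw [integral_const_mul, abs_mul, abs_of_nonneg (h0 x)]
    have h1 := hf1 x
    have h2 := (gg_abs_one hqv x).2
    have h3 : |f x| * H x ≤ H x := by have := h0 x; nlinarith
    exact mul_le_mul h3 h2 (integral_nonneg fun ω => abs_nonneg _) (h0 x)

lemma UU_add {f f' : ℝ → ℝ} (hf : Measurable f) (hf1 : ∀ x, |f x| ≤ 1) (hf' : Measurable f') (hf1' : ∀ x, |f' x| ≤ 1)
    {q v : ℕ} (hqv : q ≤ v) : ∀ᵐ ω ∂PP, UU (fun x => f x + f' x) q v H ω = UU f q v H ω + UU f' q v H ω := by
  filter_upwards [(gm_prod_int hH h0 hI hf hf1 hqv).prod_left_ae, (gm_prod_int hH h0 hI hf' hf1' hqv).prod_left_ae] with ω h1 h2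
  unfold UU
  rw [← integral_add h1 h2]
  congr 1; ext x; ring

lemma sep_indep {f : ℝ → ℝ} (hf : Measurable f) (hf1 : ∀ x, |f x| ≤ 1) {q v : ℕ} (hqv : q ≤ v)
    {A B : Set ℝ} (hA : MeasurableSet A) (hB : MeasurableSet B) (hd : Disjoint A B)
    (hsep : ∀ s ∈ A, ∀ t ∈ B, s ∈ Icc (0:ℝ) 1 → t ∈ Icc (0:ℝ) 1 → ell q ≤ |s - t|) (θ : ℝ) :
    ∫ ω, Complex.exp (((θ * UU ((A ∪ B).indicator f) q v H ω : ℝ) : ℂ) * Complex.I) ∂PP =
    (∫ ω, Complex.exp (((θ * UU (A.indicator f) q v H ω : ℝ) : ℂ) * Complex.I) ∂PP) *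
    (∫ ω, Complex.exp (((θ * UU (B.indicator f) q v H ω : ℝ) : ℂ) * Complex.I) ∂PP) := by
  have hAB : MeasurableSet (A ∪ B) := hA.union hB
  set G : ℝ → ℝ → ℝ := fun s y => θ * (f s * H s * (Real.exp (s2/2 * y - ((v:ℝ)-q)/4) - 1)) with hG
  have hGm : Measurable (Function.uncurry G) := by
    have m1 : Measurable (fun p : ℝ × ℝ => f p.1 * H p.1) := (hf.comp measurable_fst).mul (hH.comp measurable_fst)
    have m2 : Measurable (fun p : ℝ × ℝ => Real.exp (s2/2 * p.2 - ((v:ℝ)-q)/4) - 1) := by fun_prop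
    exact (m1.mul m2).const_mul θ
  have hGY : ∀ s ω, G s (XI q v s ω) = θ * (f s * H s * (gg q v s ω - 1)) := fun s ω => rfl
  have hInt : Integrable (Function.uncurry fun s ω => G s (XI q v s ω)) ((lam.restrict (A ∪ B)).prod PP) := by
    have h1 := (gm_prod_int hH h0 hI hf hf1 hqv).const_mul θ
    have h2 : (lam.restrict (A ∪ B)).prod PP = (lam.prod PP).restrict ((A ∪ B) ×ˢ univ) := by
      rw [← Measure.prod_restrict, Measure.restrict_univ]
    rw [h2]
    exact h1.restrict
  have hD : ∀ᵐ s ∂(lam.restrict (A ∪ B)), s ∈ Icc (0:ℝ) 1 ∩ (A ∪ B) := by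
    filter_upwards [ae_restrict_mem hAB, ae_restrict_of_ae lam_mem] with s h1 h2
    exact ⟨h2, h1⟩
  have key := indep_int (XI_GP hqv) (XI_meas q v) (lam.restrict (A ∪ B)) (D := Icc (0:ℝ) 1 ∩ (A ∪ B)) (A := A) hA hD
    (by
      intro s hs t ht hsA htA
      have htB : t ∈ B := by
        rcases ht.2 with h | h
        · exact absurd h htA
        · exact h
      have h1 := hsep s hsA t htB hs.1 ht.1
      have h2 : |s - t| ≤ 1 := abs_sub_le_one (p := (s, t)) ⟨hs.1, ht.1⟩
      exact ⟨CI_sep hqv h2 h1, CI_sep hqv (by rw [abs_sub_comm]; exact h2) (by rw [abs_sub_comm]; exact h1)⟩) hGm hInt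
  have e1 : ∀ ω, ∫ s, G s (XI q v s ω) ∂(lam.restrict (A ∪ B)) = θ * UU ((A ∪ B).indicator f) q v H ω := by
    intro ω
    simp_rw [hGY]
    rw [integral_const_mul]
    congr 1
    unfold UU
    rw [← integral_indicator hAB]
    congr 1; ext x
    by_cases hx : x ∈ A ∪ B
    · rw [Set.indicator_of_mem hx, Set.indicator_of_mem hx]
    · rw [Set.indicator_of_notMem hx, Set.indicator_of_notMem hx]; ring
  have e2 : ∀ ω, ∫ s in A, G s (XI q v s ω) ∂(lam.restrict (A ∪ B)) = θ * UU (A.indicator f) q v H ω := by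
    intro ω
    rw [Measure.restrict_restrict hA, show A ∩ (A ∪ B) = A from inter_eq_left.2 subset_union_left]
    simp_rw [hGY]
    rw [integral_const_mul]
    congr 1
    unfold UU
    rw [← integral_indicator hA]
    congr 1; ext x
    by_cases hx : x ∈ A
    · rw [Set.indicator_of_mem hx, Set.indicator_of_mem hx]
    · rw [Set.indicator_of_notMem hx, Set.indicator_of_notMem hx]; ring
  have e3 : ∀ ω, ∫ s in Aᶜ, G s (XI q v s ω) ∂(lam.restrict (A ∪ B)) = θ * UU (B.indicator f) q v H ω := by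
    intro ω
    have hset : Aᶜ ∩ (A ∪ B) = B := by
      ext x
      constructor
      · rintro ⟨h1, h2 | h2⟩
        · exact absurd h2 h1
        · exact h2
      · intro h
        exact ⟨fun hxA => (Set.disjoint_left.1 hd) hxA h, Or.inr h⟩
    rw [Measure.restrict_restrict hA.compl, hset]
    simp_rw [hGY]
    rw [integral_const_mul]
    congr 1
    unfold UU
    rw [← integral_indicator hB]
    congr 1; ext x
    by_cases hx : x ∈ B
    · rw [Set.indicator_of_mem hx, Set.indicator_of_mem hx]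
    · rw [Set.indicator_of_notMem hx, Set.indicator_of_notMem hx]; ring
  simp_rw [e1, e2, e3] at key
  exact key

lemma VV_int {f f' : ℝ → ℝ} (hf : Measurable f) (hf1 : ∀ x, |f x| ≤ 1) (hf' : Measurable f') (hf1' : ∀ x, |f' x| ≤ 1)
    {q v : ℕ} (hqv : q ≤ v) :
    Integrable (fun p : ℝ × ℝ => f p.1 * f' p.2 * (H p.1 * H p.2) * (ek q v (p.1 - p.2) - 1)) (lam.prod lam) := by
  have := HH_bdd_int hH h0 hI (g := fun r => f r.1 * f' r.2 * (ek q v (r.1 - r.2) - 1)) (C := 1 * (Real.exp (((v:ℝ)-q)/2) + 1))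
    (((hf.comp measurable_fst).mul (hf'.comp measurable_snd)).mul (((ek_cont q v).measurable.comp (measurable_fst.sub measurable_snd)).sub_const _)) (Eventually.of_forall fun r => by
      rw [abs_mul]
      have hff : |f r.1 * f' r.2| ≤ 1 := by
        rw [abs_mul]
        have := mul_le_mul (hf1 r.1) (hf1' r.2) (abs_nonneg _) (by norm_num : (0:ℝ) ≤ 1)
        linarith
      apply mul_le_mul hff _ (abs_nonneg _) zero_le_one
      have h1 := ek_le hqv (r.1 - r.2)
      have h2 := ek_pos q v (r.1 - r.2)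
      rw [abs_le]; constructor <;> linarith)
  refine this.congr (Eventually.of_forall fun r => ?_)
  simp only; ring

omit hH h0 hI in
lemma ind_abs {f : ℝ → ℝ} (hf1 : ∀ x, |f x| ≤ 1) (A : Set ℝ) (x : ℝ) : |A.indicator f x| ≤ 1 := by
  by_cases hx : x ∈ A
  · rw [Set.indicator_of_mem hx]; exact hf1 x
  · rw [Set.indicator_of_notMem hx]; simp

lemma sep_VV {f : ℝ → ℝ} (hf : Measurable f) (hf1 : ∀ x, |f x| ≤ 1) {q v : ℕ} (hqv : q ≤ v)
    {A B : Set ℝ} (hA : MeasurableSet A) (hB : MeasurableSet B) (hd : Disjoint A B)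
    (hsep : ∀ s ∈ A, ∀ t ∈ B, s ∈ Icc (0:ℝ) 1 → t ∈ Icc (0:ℝ) 1 → ell q ≤ |s - t|) :
    VV ((A ∪ B).indicator f) q v H = VV (A.indicator f) q v H + VV (B.indicator f) q v H := by
  unfold VV
  rw [← integral_add (VV_int hH h0 hI (hf.indicator hA) (ind_abs hf1 A) (hf.indicator hA) (ind_abs hf1 A) hqv)
    (VV_int hH h0 hI (hf.indicator hB) (ind_abs hf1 B) (hf.indicator hB) (ind_abs hf1 B) hqv)]
  apply integral_congr_ae
  filter_upwards [lam2_mem] with p hp
  have hun : ∀ x, (A ∪ B).indicator f x = A.indicator f x + B.indicator f x := by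
    intro x
    rw [Set.indicator_union_of_disjoint hd]
  have hcross : ∀ s t, s ∈ Icc (0:ℝ) 1 → t ∈ Icc (0:ℝ) 1 → A.indicator f s * B.indicator f t * (ek q v (s - t) - 1) = 0 := by
    intro s t hs ht
    by_cases h1 : s ∈ A
    · by_cases h2 : t ∈ B
      · have h3 := hsep s h1 t h2 hs ht
        have h4 : |s - t| ≤ 1 := abs_sub_le_one (p := (s, t)) ⟨hs, ht⟩
        have : ek q v (s - t) = 1 := by rw [← ea_half]; exact ea_eq_one hqv h4 h3
        rw [this]; ring
      · rw [Set.indicator_of_notMem h2]; ring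
    · rw [Set.indicator_of_notMem h1]; ring
  have c1 := hcross p.1 p.2 hp.1 hp.2
  have c2 := hcross p.2 p.1 hp.2 hp.1
  have hev : ek q v (p.2 - p.1) = ek q v (p.1 - p.2) := by rw [← ek_neg, neg_sub]
  rw [hev] at c2
  rw [hun, hun]
  have e : (A.indicator f p.1 + B.indicator f p.1) * (A.indicator f p.2 + B.indicator f p.2) * (H p.1 * H p.2) * (ek q v (p.1 - p.2) - 1) =
      A.indicator f p.1 * A.indicator f p.2 * (H p.1 * H p.2) * (ek q v (p.1 - p.2) - 1) +
      B.indicator f p.1 * B.indicator f p.2 * (H p.1 * H p.2) * (ek q v (p.1 - p.2) - 1) +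
      (A.indicator f p.1 * B.indicator f p.2 * (ek q v (p.1 - p.2) - 1)) * (H p.1 * H p.2) +
      (A.indicator f p.2 * B.indicator f p.1 * (ek q v (p.1 - p.2) - 1)) * (H p.1 * H p.2) := by ring
  rw [e, c1, c2]; ring

/-- variance of a part of the integral -/
lemma VV_le {f : ℝ → ℝ} (hf : Measurable f) (hf1 : ∀ x, |f x| ≤ 1) {q v : ℕ} (hq : q ≠ 0) (hqv : q ≤ v)
    {A : Set ℝ} (hA : MeasurableSet A) :
    VV (A.indicator f) q v H ≤ 4 * ell q * ∫ x, A.indicator (fun x => H x * H x) x ∂lam := by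
  have hfA := ind_abs hf1 A
  have hfAm := hf.indicator hA
  have hIA : Integrable (A.indicator (fun x => H x * H x)) lam := hI.indicator hA
  have hem : Measurable (fun p : ℝ × ℝ => ek q v (p.1 - p.2) - 1) :=
    ((ek_cont q v).measurable.comp (measurable_fst.sub measurable_snd)).sub_const _
  have heb : ∀ p : ℝ × ℝ, |ek q v (p.1 - p.2) - 1| ≤ Real.exp (((v:ℝ)-q)/2) + 1 := by
    intro p
    have h1 := ek_le hqv (p.1 - p.2)
    have h2 := ek_pos q v (p.1 - p.2)
    rw [abs_le]; constructor <;> linarith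
  have j1 : Integrable (fun p : ℝ × ℝ => (ek q v (p.1 - p.2) - 1) * A.indicator (fun x => H x * H x) p.1) (lam.prod lam) := by
    have h1 : Integrable (fun p : ℝ × ℝ => A.indicator (fun x => H x * H x) p.1 * 1) (lam.prod lam) := hIA.mul_prod (integrable_const (1:ℝ))
    simp only [mul_one] at h1
    exact h1.bdd_mul (c := Real.exp (((v:ℝ)-q)/2) + 1) hem.aestronglyMeasurable (Eventually.of_forall heb)
  have j2 : Integrable (fun p : ℝ × ℝ => (ek q v (p.1 - p.2) - 1) * A.indicator (fun x => H x * H x) p.2) (lam.prod lam) := by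
    have h1 : Integrable (fun p : ℝ × ℝ => 1 * A.indicator (fun x => H x * H x) p.2) (lam.prod lam) := (integrable_const (1:ℝ)).mul_prod hIA
    simp only [one_mul] at h1
    exact h1.bdd_mul (c := Real.exp (((v:ℝ)-q)/2) + 1) hem.aestronglyMeasurable (Eventually.of_forall heb)
  have hpt : ∀ᵐ p ∂(lam.prod lam), A.indicator f p.1 * A.indicator f p.2 * (H p.1 * H p.2) * (ek q v (p.1 - p.2) - 1) ≤
      (1/2) * ((ek q v (p.1 - p.2) - 1) * A.indicator (fun x => H x * H x) p.1) + (1/2) * ((ek q v (p.1 - p.2) - 1) * A.indicator (fun x => H x * H x) p.2) := by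
    filter_upwards [lam2_mem] with p hp
    have h1 := ek_ge_one hqv (abs_sub_le_one hp)
    have h2 : A.indicator f p.1 * A.indicator f p.2 * (H p.1 * H p.2) ≤
        (1/2) * A.indicator (fun x => H x * H x) p.1 + (1/2) * A.indicator (fun x => H x * H x) p.2 := by
      have hn1 : 0 ≤ A.indicator (fun x => H x * H x) p.1 := Set.indicator_nonneg (fun x _ => mul_nonneg (h0 x) (h0 x)) _
      have hn2 : 0 ≤ A.indicator (fun x => H x * H x) p.2 := Set.indicator_nonneg (fun x _ => mul_nonneg (h0 x) (h0 x)) _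
      by_cases h3 : p.1 ∈ A
      · by_cases h4 : p.2 ∈ A
        · rw [Set.indicator_of_mem h3, Set.indicator_of_mem h4, Set.indicator_of_mem h3, Set.indicator_of_mem h4]
          have h5 : |f p.1 * f p.2| ≤ 1 := by
            rw [abs_mul]
            have := mul_le_mul (hf1 p.1) (hf1 p.2) (abs_nonneg _) (by norm_num : (0:ℝ) ≤ 1)
            linarith
          have h6 := mul_nonneg (h0 p.1) (h0 p.2)
          have h7 := (abs_le.1 h5).2
          nlinarith [sq_nonneg (H p.1 - H p.2)]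
        · rw [Set.indicator_of_notMem h4, mul_zero, zero_mul]; linarith
      · rw [Set.indicator_of_notMem h3, zero_mul, zero_mul]; linarith
    have h8 := mul_le_mul_of_nonneg_right h2 (show 0 ≤ ek q v (p.1 - p.2) - 1 by linarith)
    refine h8.trans (le_of_eq ?_)
    ring
  unfold VV
  have h9 := integral_mono_ae (VV_int hH h0 hI hfAm hfA hfAm hfA hqv) ((j1.const_mul (1/2)).add (j2.const_mul (1/2))) hpt
  refine h9.trans ?_
  simp only [Pi.add_apply]
  rw [integral_add (j1.const_mul _) (j2.const_mul _), integral_const_mul, integral_const_mul, integral_prod _ j1, integral_prod_symm _ j2]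
  have k1 : ∫ x, ∫ y, (ek q v (x - y) - 1) * A.indicator (fun x => H x * H x) x ∂lam ∂lam ≤ 4 * ell q * ∫ x, A.indicator (fun x => H x * H x) x ∂lam := by
    rw [← integral_const_mul]
    apply integral_mono_ae j1.integral_prod_left (hIA.const_mul _)
    filter_upwards [lam_mem] with x hx
    show ∫ y, (ek q v (x - y) - 1) * A.indicator (fun x => H x * H x) x ∂lam ≤ 4 * ell q * A.indicator (fun x => H x * H x) x
    rw [integral_mul_const]
    exact mul_le_mul_of_nonneg_right (ek_conv hq hqv hx) (Set.indicator_nonneg (fun x _ => mul_nonneg (h0 x) (h0 x)) _)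
  have k2 : ∫ y, ∫ x, (ek q v (x - y) - 1) * A.indicator (fun x => H x * H x) y ∂lam ∂lam ≤ 4 * ell q * ∫ x, A.indicator (fun x => H x * H x) x ∂lam := by
    rw [← integral_const_mul]
    apply integral_mono_ae j2.integral_prod_right (hIA.const_mul _)
    filter_upwards [lam_mem] with y hy
    show ∫ x, (ek q v (x - y) - 1) * A.indicator (fun x => H x * H x) y ∂lam ≤ 4 * ell q * A.indicator (fun x => H x * H x) y
    rw [integral_mul_const]
    apply mul_le_mul_of_nonneg_right _ (Set.indicator_nonneg (fun x _ => mul_nonneg (h0 x) (h0 x)) _)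
    have h10 := ek_conv hq hqv hy
    refine le_trans (le_of_eq ?_) h10
    congr 1; ext x
    rw [← ek_neg, neg_sub]
  linarith

end det

end

end Pool.Agent.H968
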