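import Mathlib
import Pool.Agent.H968.CLTa

open MeasureTheory ProbabilityTheory Filter Topology Set
open scoped ENNReal NNReal

namespace Pool.Agent.H968

noncomputable section

lemma amgm3 {a b c : ℝ} (ha : 0 ≤ a) (hb : 0 ≤ b) (hc : 0 ≤ c) : a * b * c ≤ (a^3 + b^3 + c^3)/3 := by
  have h : 0 ≤ (a+b+c) * ((a-b)^2 + (b-c)^2 + (c-a)^2) := by positivity
  nlinarith

lemma add_cube_le (a b : ℝ≥0∞) : (a + b)^3 ≤ 4 * (a^3 + b^3) := by
  have h := ENNReal.rpow_add_le_mul_rpow_add_rpow a b (p := 3) (by norm_num)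
  have e : ∀ x : ℝ≥0∞, x ^ (3:ℝ) = x ^ 3 := fun x => by
    have := ENNReal.rpow_natCast x 3
    exact_mod_cast this
  rw [e, e, e] at h
  have e2 : (2:ℝ≥0∞) ^ ((3:ℝ) - 1) = 4 := by
    have := ENNReal.rpow_natCast (2:ℝ≥0∞) 2
    norm_num at this ⊢
  rw [e2] at h
  exact h

lemma ea_pos (a : ℝ) (j k : ℕ) (τ : ℝ) : 0 < ea a j k τ := Real.exp_pos _

lemma triple_bound {q v : ℕ} {hx hy hz : ℝ} (h1 : 0 ≤ hx) (h2 : 0 ≤ hy) (h3 : 0 ≤ hz) (a b c : ℝ) :
    hx * hy * hz * (ek q v a * ek q v b * ek q v c) ≤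
      (1/3) * (hx^3 * (ea (3/4) q v a * ea (3/4) q v c)) + (1/3) * (hy^3 * (ea (3/4) q v a * ea (3/4) q v b)) +
      (1/3) * (hz^3 * (ea (3/4) q v c * ea (3/4) q v b)) := by
  have e1 : ∀ t, ek q v t = ea (1/4) q v t * ea (1/4) q v t := by
    intro t; unfold ek ea; rw [← Real.exp_add]; congr 1; ring
  have e2 : ∀ t, ea (3/4) q v t = (ea (1/4) q v t)^3 := by
    intro t; unfold ea; rw [← Real.exp_nat_mul]; congr 1; push_cast; ring
  have p := fun t => (ea_pos (1/4) q v t).le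
  have h := amgm3 (a := hx * (ea (1/4) q v a * ea (1/4) q v c)) (b := hy * (ea (1/4) q v a * ea (1/4) q v b))
    (c := hz * (ea (1/4) q v c * ea (1/4) q v b)) (mul_nonneg h1 (mul_nonneg (p a) (p c))) (mul_nonneg h2 (mul_nonneg (p a) (p b)))
    (mul_nonneg h3 (mul_nonneg (p c) (p b)))
  rw [e1 a, e1 b, e1 c, e2 a, e2 b, e2 c]
  refine le_trans (le_of_eq ?_) (h.trans (le_of_eq ?_))
  · ring
  · ring

section meas
variable {μ : Measure ℝ} [SFinite μ]

lemma lint_cube {A : ℝ → ℝ≥0∞} (hA : Measurable A) :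
    (∫⁻ x, A x ∂μ)^3 = ∫⁻ p : ℝ × (ℝ × ℝ), A p.1 * (A p.2.1 * A p.2.2) ∂(μ.prod (μ.prod μ)) := by
  have h1 := lintegral_prod_mul (μ := μ) (ν := μ) hA.aemeasurable hA.aemeasurable
  have h2 := lintegral_prod_mul (μ := μ) (ν := μ.prod μ) (f := A) (g := fun r : ℝ × ℝ => A r.1 * A r.2) hA.aemeasurable
    ((hA.comp measurable_fst).mul (hA.comp measurable_snd)).aemeasurable
  rw [h2, h1]; ring

/-- the star bound -/
lemma star_bound {F : ℝ → ℝ≥0∞} (hF : Measurable F) {k : ℝ → ℝ≥0∞} (hk : Measurable k) (hev : ∀ t, k (-t) = k t)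
    {S : ℝ≥0∞} (hS : ∀ᵐ x ∂μ, ∫⁻ y, k (x - y) ∂μ ≤ S) :
    (∫⁻ p : ℝ × (ℝ × ℝ), F p.1 * (k (p.1 - p.2.1) * k (p.1 - p.2.2)) ∂(μ.prod (μ.prod μ)) ≤ S^2 * ∫⁻ x, F x ∂μ) ∧
    (∫⁻ p : ℝ × (ℝ × ℝ), F p.2.1 * (k (p.1 - p.2.1) * k (p.2.1 - p.2.2)) ∂(μ.prod (μ.prod μ)) ≤ S^2 * ∫⁻ x, F x ∂μ) ∧
    (∫⁻ p : ℝ × (ℝ × ℝ), F p.2.2 * (k (p.1 - p.2.2) * k (p.2.1 - p.2.2)) ∂(μ.prod (μ.prod μ)) ≤ S^2 * ∫⁻ x, F x ∂μ) := by
  have hS' : ∀ᵐ y ∂μ, ∫⁻ x, k (x - y) ∂μ ≤ S := by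
    filter_upwards [hS] with y hy
    refine le_trans (le_of_eq ?_) hy
    congr 1; ext x; rw [← hev, neg_sub]
  have mk1 : ∀ c : ℝ, Measurable (fun y => k (c - y)) := fun c => hk.comp (by fun_prop)
  have mk2 : ∀ c : ℝ, Measurable (fun y => k (y - c)) := fun c => hk.comp (by fun_prop)
  refine ⟨?_, ?_, ?_⟩
  · have hm : Measurable (fun p : ℝ × (ℝ × ℝ) => F p.1 * (k (p.1 - p.2.1) * k (p.1 - p.2.2))) :=
      (hF.comp measurable_fst).mul ((hk.comp (by fun_prop)).mul (hk.comp (by fun_prop)))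
    rw [lintegral_prod _ hm.aemeasurable, ← lintegral_const_mul _ hF]
    apply lintegral_mono_ae
    filter_upwards [hS] with x hx
    have hm2 : Measurable (fun r : ℝ × ℝ => k (x - r.1) * k (x - r.2)) := (hk.comp (by fun_prop)).mul (hk.comp (by fun_prop))
    show ∫⁻ r : ℝ × ℝ, F x * (k (x - r.1) * k (x - r.2)) ∂(μ.prod μ) ≤ S^2 * F x
    rw [lintegral_const_mul _ hm2, lintegral_prod_mul (mk1 x).aemeasurable (mk1 x).aemeasurable, mul_comm, sq]
    gcongr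
  · have hm : Measurable (fun p : ℝ × (ℝ × ℝ) => F p.2.1 * (k (p.1 - p.2.1) * k (p.2.1 - p.2.2))) :=
      (hF.comp (by fun_prop)).mul ((hk.comp (by fun_prop)).mul (hk.comp (by fun_prop)))
    rw [lintegral_prod_symm _ hm.aemeasurable]
    have hm3 : Measurable (fun r : ℝ × ℝ => F r.1 * k (r.1 - r.2)) := (hF.comp (by fun_prop)).mul (hk.comp (by fun_prop))
    have h1 : ∫⁻ r : ℝ × ℝ, ∫⁻ x, F r.1 * (k (x - r.1) * k (r.1 - r.2)) ∂μ ∂(μ.prod μ) ≤ ∫⁻ r : ℝ × ℝ, S * (F r.1 * k (r.1 - r.2)) ∂(μ.prod μ) := by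
      apply lintegral_mono_ae
      have hae : ∀ᵐ r : ℝ × ℝ ∂(μ.prod μ), ∫⁻ x, k (x - r.1) ∂μ ≤ S := Measure.quasiMeasurePreserving_fst.ae hS'
      filter_upwards [hae] with r hr
      have e : ∀ x, F r.1 * (k (x - r.1) * k (r.1 - r.2)) = (F r.1 * k (r.1 - r.2)) * k (x - r.1) := by intro x; ring
      simp_rw [e]
      rw [lintegral_const_mul _ (mk2 r.1), mul_comm]
      gcongr
    refine h1.trans ?_
    rw [lintegral_const_mul _ hm3, lintegral_prod _ hm3.aemeasurable, sq, mul_assoc]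
    gcongr
    rw [← lintegral_const_mul _ hF]
    apply lintegral_mono_ae
    filter_upwards [hS] with y hy
    show ∫⁻ z, F y * k (y - z) ∂μ ≤ S * F y
    rw [lintegral_const_mul _ (mk1 y), mul_comm]
    gcongr
  · have hm : Measurable (fun p : ℝ × (ℝ × ℝ) => F p.2.2 * (k (p.1 - p.2.2) * k (p.2.1 - p.2.2))) :=
      (hF.comp (by fun_prop)).mul ((hk.comp (by fun_prop)).mul (hk.comp (by fun_prop)))
    rw [lintegral_prod_symm _ hm.aemeasurable]
    have hm3 : Measurable (fun r : ℝ × ℝ => F r.2 * k (r.1 - r.2)) := (hF.comp (by fun_prop)).mul (hk.comp (by fun_prop))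
    have h1 : ∫⁻ r : ℝ × ℝ, ∫⁻ x, F r.2 * (k (x - r.2) * k (r.1 - r.2)) ∂μ ∂(μ.prod μ) ≤ ∫⁻ r : ℝ × ℝ, S * (F r.2 * k (r.1 - r.2)) ∂(μ.prod μ) := by
      apply lintegral_mono_ae
      have hae : ∀ᵐ r : ℝ × ℝ ∂(μ.prod μ), ∫⁻ x, k (x - r.2) ∂μ ≤ S := Measure.quasiMeasurePreserving_snd.ae hS'
      filter_upwards [hae] with r hr
      have e : ∀ x, F r.2 * (k (x - r.2) * k (r.1 - r.2)) = (F r.2 * k (r.1 - r.2)) * k (x - r.2) := by intro x; ring
      simp_rw [e]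
      rw [lintegral_const_mul _ (mk2 r.2), mul_comm]
      gcongr
    refine h1.trans ?_
    rw [lintegral_const_mul _ hm3, lintegral_prod_symm _ hm3.aemeasurable, sq, mul_assoc]
    gcongr
    rw [← lintegral_const_mul _ hF]
    apply lintegral_mono_ae
    filter_upwards [hS'] with z hz
    show ∫⁻ y, F z * k (y - z) ∂μ ≤ S * F z
    rw [lintegral_const_mul _ (mk2 z), mul_comm]
    gcongr

end meas

/-- kernel as an extended nonnegative function -/
def kE (q v : ℕ) (τ : ℝ) : ℝ≥0∞ := ENNReal.ofReal (ea (3/4) q v τ)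

lemma kE_meas (q v : ℕ) : Measurable (kE q v) := (ea_cont _ _ _).measurable.ennreal_ofReal

lemma kE_int {q v : ℕ} (hq : q ≠ 0) (hqv : q ≤ v) (I : Set ℝ) :
    ∀ᵐ x ∂(lam.restrict I), ∫⁻ y, kE q v (x - y) ∂(lam.restrict I) ≤ lam I + ENNReal.ofReal (8 * ell q) := by
  filter_upwards [ae_restrict_of_ae lam_mem] with x hx
  have h1 : ∫⁻ y, kE q v (x - y) ∂(lam.restrict I) ≤ ∫⁻ y, (1 + ENNReal.ofReal (ea (3/4) q v (x - y) - 1)) ∂(lam.restrict I) := by
    apply lintegral_mono_ae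
    filter_upwards [ae_restrict_of_ae lam_mem] with y hy
    have h2 := ea_ge_one (a := 3/4) (by norm_num) hqv (abs_sub_le_one (p := (x, y)) ⟨hx, hy⟩)
    unfold kE
    rw [show (1:ℝ≥0∞) = ENNReal.ofReal 1 by simp, ← ENNReal.ofReal_add (by norm_num) (by simp only at h2 ⊢; linarith)]
    apply ENNReal.ofReal_le_ofReal; linarith
  refine h1.trans ?_
  rw [lintegral_add_left measurable_const]
  simp only [lintegral_const, Measure.restrict_apply_univ, one_mul]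
  gcongr
  refine (lintegral_mono' Measure.restrict_le_self le_rfl).trans ?_
  have hint : Integrable (fun y => ea (3/4) q v (x - y) - 1) lam := cont_int_lam (((ea_cont _ _ _).comp (by fun_prop)).sub continuous_const)
  rw [← ofReal_integral_eq_lintegral_ofReal hint (by
    filter_upwards [lam_mem] with y hy
    have h2 := ea_ge_one (a := 3/4) (by norm_num) hqv (abs_sub_le_one (p := (x, y)) ⟨hx, hy⟩)
    show (0:ℝ) ≤ ea (3/4) q v (x - y) - 1
    simp only at h2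
    linarith)]
  apply ENNReal.ofReal_le_ofReal
  have := ea_conv (a := 3/4) (by norm_num) (by norm_num) hq hqv hx
  norm_num at this ⊢
  linarith

section det
variable {H : ℝ → ℝ} (hH : Measurable H) (h0 : ∀ x, 0 ≤ H x)
include hH h0

/-- third moment of the positive part -/
lemma third_pos {q v : ℕ} (hq : q ≠ 0) (hqv : q ≤ v) (I : Set ℝ) :
    (∫⁻ ω, (∫⁻ x, ENNReal.ofReal (H x) * ENNReal.ofReal (gg q v x ω) ∂(lam.restrict I))^3 ∂PP ≤
      (lam I + ENNReal.ofReal (8 * ell q))^2 * ∫⁻ x, ENNReal.ofReal (H x ^ 3) ∂(lam.restrict I)) ∧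
    ((∫⁻ x, ENNReal.ofReal (H x) ∂(lam.restrict I))^3 ≤
      (lam I + ENNReal.ofReal (8 * ell q))^2 * ∫⁻ x, ENNReal.ofReal (H x ^ 3) ∂(lam.restrict I)) := by
  set μ := lam.restrict I with hμ
  have hmem : ∀ᵐ p : ℝ × (ℝ × ℝ) ∂(μ.prod (μ.prod μ)), p.1 ∈ Icc (0:ℝ) 1 ∧ p.2.1 ∈ Icc (0:ℝ) 1 ∧ p.2.2 ∈ Icc (0:ℝ) 1 := by
    have hm : ∀ᵐ x ∂μ, x ∈ Icc (0:ℝ) 1 := ae_restrict_of_ae lam_mem
    have h1 : ∀ᵐ p : ℝ × (ℝ × ℝ) ∂(μ.prod (μ.prod μ)), p.1 ∈ Icc (0:ℝ) 1 := Measure.quasiMeasurePreserving_fst.ae hm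
    have h2 : ∀ᵐ r : ℝ × ℝ ∂(μ.prod μ), r.1 ∈ Icc (0:ℝ) 1 := Measure.quasiMeasurePreserving_fst.ae hm
    have h3 : ∀ᵐ r : ℝ × ℝ ∂(μ.prod μ), r.2 ∈ Icc (0:ℝ) 1 := Measure.quasiMeasurePreserving_snd.ae hm
    have h4 : ∀ᵐ p : ℝ × (ℝ × ℝ) ∂(μ.prod (μ.prod μ)), p.2.1 ∈ Icc (0:ℝ) 1 := Measure.quasiMeasurePreserving_snd.ae h2
    have h5 : ∀ᵐ p : ℝ × (ℝ × ℝ) ∂(μ.prod (μ.prod μ)), p.2.2 ∈ Icc (0:ℝ) 1 := Measure.quasiMeasurePreserving_snd.ae h3
    filter_upwards [h1, h4, h5] with p a b c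
    exact ⟨a, b, c⟩
  -- the common upper bound
  have hF : Measurable (fun x => ENNReal.ofReal (H x ^ 3)) := (hH.pow_const 3).ennreal_ofReal
  have hstar := star_bound (μ := μ) hF (kE_meas q v) (fun t => by unfold kE; rw [ea_neg]) (kE_int hq hqv I)
  have hbd : ∫⁻ p : ℝ × (ℝ × ℝ), ENNReal.ofReal (H p.1 * H p.2.1 * H p.2.2 * (ek q v (p.1 - p.2.1) * ek q v (p.2.1 - p.2.2) * ek q v (p.1 - p.2.2))) ∂(μ.prod (μ.prod μ)) ≤
      (lam I + ENNReal.ofReal (8 * ell q))^2 * ∫⁻ x, ENNReal.ofReal (H x ^ 3) ∂μ := by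
    have m1 : Measurable (fun p : ℝ × (ℝ × ℝ) => ENNReal.ofReal (H p.1 ^ 3) * (kE q v (p.1 - p.2.1) * kE q v (p.1 - p.2.2))) :=
      (hF.comp measurable_fst).mul (((kE_meas q v).comp (by fun_prop)).mul ((kE_meas q v).comp (by fun_prop)))
    have m2 : Measurable (fun p : ℝ × (ℝ × ℝ) => ENNReal.ofReal (H p.2.1 ^ 3) * (kE q v (p.1 - p.2.1) * kE q v (p.2.1 - p.2.2))) :=
      (hF.comp (measurable_fst.comp measurable_snd)).mul (((kE_meas q v).comp (by fun_prop)).mul ((kE_meas q v).comp (by fun_prop)))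
    have m3 : Measurable (fun p : ℝ × (ℝ × ℝ) => ENNReal.ofReal (H p.2.2 ^ 3) * (kE q v (p.1 - p.2.2) * kE q v (p.2.1 - p.2.2))) :=
      (hF.comp (measurable_snd.comp measurable_snd)).mul (((kE_meas q v).comp (by fun_prop)).mul ((kE_meas q v).comp (by fun_prop)))
    have hpt : ∀ p : ℝ × (ℝ × ℝ), ENNReal.ofReal (H p.1 * H p.2.1 * H p.2.2 * (ek q v (p.1 - p.2.1) * ek q v (p.2.1 - p.2.2) * ek q v (p.1 - p.2.2))) ≤
        ENNReal.ofReal (1/3) * (ENNReal.ofReal (H p.1 ^ 3) * (kE q v (p.1 - p.2.1) * kE q v (p.1 - p.2.2))) +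
        ENNReal.ofReal (1/3) * (ENNReal.ofReal (H p.2.1 ^ 3) * (kE q v (p.1 - p.2.1) * kE q v (p.2.1 - p.2.2))) +
        ENNReal.ofReal (1/3) * (ENNReal.ofReal (H p.2.2 ^ 3) * (kE q v (p.1 - p.2.2) * kE q v (p.2.1 - p.2.2))) := by
      intro p
      have h := triple_bound (q := q) (v := v) (h0 p.1) (h0 p.2.1) (h0 p.2.2) (p.1 - p.2.1) (p.2.1 - p.2.2) (p.1 - p.2.2)
      refine (ENNReal.ofReal_le_ofReal h).trans ?_
      unfold kE
      have q0 := h0 p.1; have q1 := h0 p.2.1; have q2 := h0 p.2.2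
      have r1 := (ea_pos (3/4) q v (p.1 - p.2.1)).le
      have r2 := (ea_pos (3/4) q v (p.2.1 - p.2.2)).le
      have r3 := (ea_pos (3/4) q v (p.1 - p.2.2)).le
      rw [← ENNReal.ofReal_mul r1, ← ENNReal.ofReal_mul r1, ← ENNReal.ofReal_mul r3, ← ENNReal.ofReal_mul (by positivity),
        ← ENNReal.ofReal_mul (by positivity), ← ENNReal.ofReal_mul (by positivity), ← ENNReal.ofReal_mul (by positivity),
        ← ENNReal.ofReal_mul (by positivity), ← ENNReal.ofReal_mul (by positivity), ← ENNReal.ofReal_add (by positivity) (by positivity),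
        ← ENNReal.ofReal_add (by positivity) (by positivity)]
    refine (lintegral_mono hpt).trans ?_
    have n1 : Measurable (fun p : ℝ × (ℝ × ℝ) => ENNReal.ofReal (1/3) * (ENNReal.ofReal (H p.1 ^ 3) * (kE q v (p.1 - p.2.1) * kE q v (p.1 - p.2.2)))) := m1.const_mul _
    have n2 : Measurable (fun p : ℝ × (ℝ × ℝ) => ENNReal.ofReal (1/3) * (ENNReal.ofReal (H p.2.1 ^ 3) * (kE q v (p.1 - p.2.1) * kE q v (p.2.1 - p.2.2)))) := m2.const_mul _
    have n12 : Measurable (fun p : ℝ × (ℝ × ℝ) => ENNReal.ofReal (1/3) * (ENNReal.ofReal (H p.1 ^ 3) * (kE q v (p.1 - p.2.1) * kE q v (p.1 - p.2.2))) +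
      ENNReal.ofReal (1/3) * (ENNReal.ofReal (H p.2.1 ^ 3) * (kE q v (p.1 - p.2.1) * kE q v (p.2.1 - p.2.2)))) := n1.add n2
    rw [lintegral_add_left n12, lintegral_add_left n1, lintegral_const_mul _ m1,
      lintegral_const_mul _ m2, lintegral_const_mul _ m3]
    set R := (lam I + ENNReal.ofReal (8 * ell q))^2 * ∫⁻ x, ENNReal.ofReal (H x ^ 3) ∂μ
    calc _ ≤ ENNReal.ofReal (1/3) * R + ENNReal.ofReal (1/3) * R + ENNReal.ofReal (1/3) * R := by
          gcongr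
          · exact hstar.1
          · exact hstar.2.1
          · exact hstar.2.2
      _ = (ENNReal.ofReal (1/3) + ENNReal.ofReal (1/3) + ENNReal.ofReal (1/3)) * R := by ring
      _ = R := by
          rw [← ENNReal.ofReal_add (by norm_num) (by norm_num), ← ENNReal.ofReal_add (by norm_num) (by norm_num)]
          norm_num
  have mH : Measurable (fun x => ENNReal.ofReal (H x)) := hH.ennreal_ofReal
  constructor
  · have mg : ∀ ω, Measurable (fun x => ENNReal.ofReal (H x) * ENNReal.ofReal (gg q v x ω)) := fun ω =>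
      mH.mul (sec_meas_x (gg_meas q v) ω).ennreal_ofReal
    simp_rw [fun ω => lint_cube (μ := μ) (mg ω)]
    have mF : Measurable (Function.uncurry fun (ω : Om) (p : ℝ × (ℝ × ℝ)) =>
        ENNReal.ofReal (H p.1) * ENNReal.ofReal (gg q v p.1 ω) * (ENNReal.ofReal (H p.2.1) * ENNReal.ofReal (gg q v p.2.1 ω) * (ENNReal.ofReal (H p.2.2) * ENNReal.ofReal (gg q v p.2.2 ω)))) := by
      have a1 : Measurable (fun s : Om × (ℝ × (ℝ × ℝ)) => ENNReal.ofReal (H s.2.1) * ENNReal.ofReal (gg q v s.2.1 s.1)) :=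
        (mH.comp (measurable_fst.comp measurable_snd)).mul (meas2 (gg_meas q v) (measurable_fst.comp measurable_snd) measurable_fst).ennreal_ofReal
      have a2 : Measurable (fun s : Om × (ℝ × (ℝ × ℝ)) => ENNReal.ofReal (H s.2.2.1) * ENNReal.ofReal (gg q v s.2.2.1 s.1)) :=
        (mH.comp (measurable_fst.comp (measurable_snd.comp measurable_snd))).mul (meas2 (gg_meas q v) (measurable_fst.comp (measurable_snd.comp measurable_snd)) measurable_fst).ennreal_ofReal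
      have a3 : Measurable (fun s : Om × (ℝ × (ℝ × ℝ)) => ENNReal.ofReal (H s.2.2.2) * ENNReal.ofReal (gg q v s.2.2.2 s.1)) :=
        (mH.comp (measurable_snd.comp (measurable_snd.comp measurable_snd))).mul (meas2 (gg_meas q v) (measurable_snd.comp (measurable_snd.comp measurable_snd)) measurable_fst).ennreal_ofReal
      exact a1.mul (a2.mul a3)
    rw [lintegral_lintegral_swap mF.aemeasurable]
    refine le_trans (lintegral_mono_ae ?_) hbd
    filter_upwards [hmem] with p hp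
    have hxy := abs_sub_le_one (p := (p.1, p.2.1)) ⟨hp.1, hp.2.1⟩
    have hyz := abs_sub_le_one (p := (p.2.1, p.2.2)) ⟨hp.2.1, hp.2.2⟩
    have hxz := abs_sub_le_one (p := (p.1, p.2.2)) ⟨hp.1, hp.2.2⟩
    have h3 := gg_three hqv hxy hyz hxz
    have q0 := h0 p.1; have q1 := h0 p.2.1; have q2 := h0 p.2.2
    have e : ∀ ω, ENNReal.ofReal (H p.1) * ENNReal.ofReal (gg q v p.1 ω) * (ENNReal.ofReal (H p.2.1) * ENNReal.ofReal (gg q v p.2.1 ω) * (ENNReal.ofReal (H p.2.2) * ENNReal.ofReal (gg q v p.2.2 ω))) =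
        ENNReal.ofReal (H p.1 * H p.2.1 * H p.2.2) * ENNReal.ofReal (gg q v p.1 ω * gg q v p.2.1 ω * gg q v p.2.2 ω) := by
      intro ω
      have g1 := (gg_pos q v p.1 ω).le; have g2 := (gg_pos q v p.2.1 ω).le; have g3 := (gg_pos q v p.2.2 ω).le
      rw [← ENNReal.ofReal_mul q0, ← ENNReal.ofReal_mul q1, ← ENNReal.ofReal_mul q2, ← ENNReal.ofReal_mul (by positivity),
        ← ENNReal.ofReal_mul (by positivity), ← ENNReal.ofReal_mul (by positivity)]
      congr 1; ring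
    simp_rw [e]
    have mG : Measurable (fun ω => ENNReal.ofReal (gg q v p.1 ω * gg q v p.2.1 ω * gg q v p.2.2 ω)) :=
      (((meas_sec (gg_meas q v) _).mul (meas_sec (gg_meas q v) _)).mul (meas_sec (gg_meas q v) _)).ennreal_ofReal
    rw [lintegral_const_mul _ mG, ← ofReal_integral_eq_lintegral_ofReal h3.1 (Eventually.of_forall fun ω => by
      have g1 := (gg_pos q v p.1 ω).le; have g2 := (gg_pos q v p.2.1 ω).le; have g3 := (gg_pos q v p.2.2 ω).le
      show (0:ℝ) ≤ gg q v p.1 ω * gg q v p.2.1 ω * gg q v p.2.2 ω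
      positivity), h3.2, ← ENNReal.ofReal_mul (by positivity)]
  · rw [lint_cube mH]
    refine le_trans (lintegral_mono_ae ?_) hbd
    filter_upwards [hmem] with p hp
    have hxy := abs_sub_le_one (p := (p.1, p.2.1)) ⟨hp.1, hp.2.1⟩
    have hyz := abs_sub_le_one (p := (p.2.1, p.2.2)) ⟨hp.2.1, hp.2.2⟩
    have hxz := abs_sub_le_one (p := (p.1, p.2.2)) ⟨hp.1, hp.2.2⟩
    have q0 := h0 p.1; have q1 := h0 p.2.1; have q2 := h0 p.2.2
    rw [← ENNReal.ofReal_mul q1, ← ENNReal.ofReal_mul q0]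
    apply ENNReal.ofReal_le_ofReal
    have k1 := ek_ge_one hqv hxy
    have k2 := ek_ge_one hqv hyz
    have k3 := ek_ge_one hqv hxz
    have k4 : 1 ≤ ek q v (p.1 - p.2.1) * ek q v (p.2.1 - p.2.2) * ek q v (p.1 - p.2.2) := by
      have := one_le_mul_of_one_le_of_one_le k1 k2
      exact one_le_mul_of_one_le_of_one_le this k3
    have : 0 ≤ H p.1 * H p.2.1 * H p.2.2 := by positivity
    nlinarith

/-- third absolute moment of a block -/
lemma third_moment {f : ℝ → ℝ} (hf1 : ∀ x, |f x| ≤ 1) {q v : ℕ} (hq : q ≠ 0) (hqv : q ≤ v) {I : Set ℝ} (hI : MeasurableSet I) :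
    ∫⁻ ω, ‖UU (I.indicator f) q v H ω‖ₑ^3 ∂PP ≤
      8 * ((lam I + ENNReal.ofReal (8 * ell q))^2 * ∫⁻ x, ENNReal.ofReal (H x ^ 3) ∂(lam.restrict I)) := by
  have mH : Measurable (fun x => ENNReal.ofReal (H x)) := hH.ennreal_ofReal
  obtain ⟨t1, t2⟩ := third_pos hH h0 hq hqv I (v := v)
  have hpt : ∀ ω, ‖UU (I.indicator f) q v H ω‖ₑ ≤ (∫⁻ x, ENNReal.ofReal (H x) * ENNReal.ofReal (gg q v x ω) ∂(lam.restrict I)) +
      ∫⁻ x, ENNReal.ofReal (H x) ∂(lam.restrict I) := by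
    intro ω
    unfold UU
    refine (enorm_integral_le_lintegral_enorm _).trans ?_
    rw [← lintegral_add_right _ mH, ← lintegral_indicator hI]
    apply lintegral_mono
    intro x
    show ‖I.indicator f x * H x * (gg q v x ω - 1)‖ₑ ≤ I.indicator (fun x => ENNReal.ofReal (H x) * ENNReal.ofReal (gg q v x ω) + ENNReal.ofReal (H x)) x
    by_cases hx : x ∈ I
    · rw [Set.indicator_of_mem hx, Set.indicator_of_mem hx, Real.enorm_eq_ofReal_abs]
      have g := (gg_pos q v x ω).le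
      have hx0 := h0 x
      rw [← ENNReal.ofReal_mul hx0, ← ENNReal.ofReal_add (by positivity) hx0]
      apply ENNReal.ofReal_le_ofReal
      rw [abs_mul, abs_mul, abs_of_nonneg hx0]
      have h1 : |gg q v x ω - 1| ≤ gg q v x ω + 1 := by rw [abs_le]; constructor <;> linarith
      have h2 : |f x| * H x ≤ H x := by have := hf1 x; nlinarith
      have := mul_le_mul h2 h1 (abs_nonneg _) hx0
      linarith
    · rw [Set.indicator_of_notMem hx, Set.indicator_of_notMem hx]; simp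
  calc ∫⁻ ω, ‖UU (I.indicator f) q v H ω‖ₑ^3 ∂PP
      ≤ ∫⁻ ω, 4 * ((∫⁻ x, ENNReal.ofReal (H x) * ENNReal.ofReal (gg q v x ω) ∂(lam.restrict I))^3 +
          (∫⁻ x, ENNReal.ofReal (H x) ∂(lam.restrict I))^3) ∂PP := by
        apply lintegral_mono
        intro ω
        refine (pow_le_pow_left' (hpt ω) 3).trans ?_
        exact add_cube_le _ _
    _ ≤ _ := by
        rw [lintegral_const_mul' _ _ (by norm_num), lintegral_add_right _ measurable_const]
        simp only [lintegral_const, measure_univ, mul_one]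
        calc _ ≤ 4 * ((lam I + ENNReal.ofReal (8 * ell q))^2 * (∫⁻ x, ENNReal.ofReal (H x ^ 3) ∂(lam.restrict I)) +
            (lam I + ENNReal.ofReal (8 * ell q))^2 * ∫⁻ x, ENNReal.ofReal (H x ^ 3) ∂(lam.restrict I)) := by
              gcongr
          _ = _ := by ring

end det

end

end Pool.Agent.H968
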