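import Mathlib
import Pool.Agent.H968.CLTb

open MeasureTheory ProbabilityTheory Filter Topology Set
open scoped ENNReal NNReal

namespace Pool.Agent.H968

noncomputable section

lemma cf_taylor (x : ℝ) : ‖Complex.exp ((x:ℂ) * Complex.I) - (1 + (x:ℂ) * Complex.I - (x:ℂ)^2/2)‖ ≤ 4 * |x|^3 := by
  rcases le_or_gt |x| 1 with h | h
  · have h1 := Complex.exp_bound (x := (x:ℂ) * Complex.I) (by rw [norm_mul, Complex.norm_I, mul_one, Complex.norm_real]; exact h) (n := 3) (by norm_num)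
    have e : ∑ m ∈ Finset.range 3, ((x:ℂ) * Complex.I)^m / (m.factorial : ℂ) = 1 + (x:ℂ) * Complex.I - (x:ℂ)^2/2 := by
      simp only [Finset.sum_range_succ, Finset.sum_range_zero, Nat.factorial]
      rw [mul_pow (x:ℂ) Complex.I 2, Complex.I_sq]
      push_cast; ring
    rw [e, norm_mul, Complex.norm_I, mul_one, Complex.norm_real, Real.norm_eq_abs] at h1
    refine h1.trans ?_
    have h2 : 0 ≤ |x|^3 := by positivity
    have h3 : ((Nat.succ 3 : ℕ):ℝ) * (((Nat.factorial 3 : ℕ):ℝ) * ((3:ℕ):ℝ))⁻¹ ≤ 4 := by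
      norm_num [Nat.factorial]
    nlinarith
  · have h1 : ‖Complex.exp ((x:ℂ) * Complex.I) - (1 + (x:ℂ) * Complex.I - (x:ℂ)^2/2)‖ ≤ 1 + (1 + |x| + |x|^2/2) := by
      refine (norm_sub_le _ _).trans ?_
      rw [Complex.norm_exp_ofReal_mul_I]
      have a1 : ‖(1:ℂ) + (x:ℂ) * Complex.I - (x:ℂ)^2/2‖ ≤ ‖(1:ℂ) + (x:ℂ) * Complex.I‖ + ‖(x:ℂ)^2/2‖ := norm_sub_le _ _
      have a2 : ‖(1:ℂ) + (x:ℂ) * Complex.I‖ ≤ 1 + |x| := by
        refine (norm_add_le _ _).trans ?_
        rw [norm_mul, Complex.norm_I, mul_one, Complex.norm_real, norm_one, Real.norm_eq_abs]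
      have a3 : ‖(x:ℂ)^2/2‖ = |x|^2/2 := by
        rw [norm_div, norm_pow, Complex.norm_real, Real.norm_eq_abs]; norm_num
      linarith
    refine h1.trans ?_
    have h2 : |x|^2 ≤ |x|^3 := by
      have : |x|^3 = |x|^2 * |x| := by ring
      rw [this]; nlinarith [sq_nonneg |x|]
    have h3 : |x| ≤ |x|^2 := by nlinarith
    nlinarith

lemma exp_taylor {y : ℝ} (hy : 0 ≤ y) : |Real.exp (-y) - 1 + y| ≤ y * Real.sqrt y := by
  have h1 : 0 ≤ Real.exp (-y) - 1 + y := by have := Real.add_one_le_exp (-y); linarith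
  rw [abs_of_nonneg h1]
  rcases le_or_gt y 1 with h | h
  · have h2 : Real.exp (-y) ≤ 1 - y + y^2 := by
      have h3 := Real.abs_exp_sub_one_sub_id_le (x := -y) (by rw [abs_neg, abs_of_nonneg hy]; exact h)
      have := (abs_le.1 h3).2
      have e : (-y)^2 = y^2 := by ring
      rw [e] at this
      linarith
    have h4 : y ≤ Real.sqrt y := by
      apply Real.le_sqrt_of_sq_le; nlinarith
    nlinarith
  · have h5 : 1 ≤ Real.sqrt y := Real.one_le_sqrt.2 h.le
    have h6 : Real.exp (-y) ≤ 1 := by rw [Real.exp_le_one_iff]; linarith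
    nlinarith

lemma gauss_lip {x y : ℝ} (hx : 0 ≤ x) (hy : 0 ≤ y) : |Real.exp (-(x^2/2)) - Real.exp (-(y^2/2))| ≤ 2 * |x - y| := by
  wlog h : x ≤ y generalizing x y
  · rw [abs_sub_comm, abs_sub_comm x]; exact this hy hx (le_of_not_ge h)
  have h0 : Real.exp (-(y^2/2)) ≤ Real.exp (-(x^2/2)) := by
    apply Real.exp_le_exp.2; nlinarith
  rw [abs_of_nonneg (by linarith), abs_of_nonpos (by linarith)]
  have h1 : Real.exp (-(x^2/2)) ≤ 1 := by rw [Real.exp_le_one_iff]; nlinarith [sq_nonneg x]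
  have h2 := Real.exp_pos (-(y^2/2))
  rcases le_or_gt (y - x) 2 with hd | hd
  · have e1 : Real.exp (-(y^2/2)) = Real.exp (-(x^2/2)) * Real.exp (-((y^2-x^2)/2)) := by
      rw [← Real.exp_add]; congr 1; ring
    have h3 := Real.add_one_le_exp (-((y^2-x^2)/2))
    have h4 : Real.exp (-(x^2/2)) * (x + 1) ≤ 2 := by
      have h5 := Real.add_one_le_exp (x^2/2)
      have h6 : Real.exp (-(x^2/2)) * Real.exp (x^2/2) = 1 := by rw [← Real.exp_add]; simp
      have h7 : x + 1 ≤ 2 * Real.exp (x^2/2) := by nlinarith [sq_nonneg (x - 1)]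
      have := mul_le_mul_of_nonneg_left h7 (Real.exp_pos (-(x^2/2))).le
      linarith
    have h8 : Real.exp (-(x^2/2)) - Real.exp (-(y^2/2)) ≤ Real.exp (-(x^2/2)) * ((y^2-x^2)/2) := by
      rw [e1]
      have := mul_le_mul_of_nonneg_left h3 (Real.exp_pos (-(x^2/2))).le
      linarith
    have h9 : (y^2-x^2)/2 ≤ (y - x) * (x + 1) := by nlinarith
    have h10 := mul_le_mul_of_nonneg_left h9 (Real.exp_pos (-(x^2/2))).le
    have h11 : Real.exp (-(x^2/2)) * ((y - x) * (x + 1)) ≤ 2 * (y - x) := by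
      have : Real.exp (-(x^2/2)) * ((y - x) * (x + 1)) = (y - x) * (Real.exp (-(x^2/2)) * (x + 1)) := by ring
      rw [this]
      nlinarith
    linarith
  · linarith

/-- characteristic function of one block -/
lemma cf_block_real {U : Om → ℝ} (hU : Measurable U) (hI2 : Integrable (fun ω => U ω * U ω) PP)
    (hI3 : Integrable (fun ω => |U ω|^3) PP) (hmean : ∫ ω, U ω ∂PP = 0) (θ : ℝ) :
    ‖(∫ ω, Complex.exp (((θ * U ω : ℝ) : ℂ) * Complex.I) ∂PP) - ((Real.exp (-(θ^2/2 * ∫ ω, U ω * U ω ∂PP)) : ℝ) : ℂ)‖ ≤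
      5 * |θ|^3 * ∫ ω, |U ω|^3 ∂PP := by
  set V := ∫ ω, U ω * U ω ∂PP with hV
  set τ := ∫ ω, |U ω|^3 ∂PP with hτ
  have hV0 : 0 ≤ V := integral_nonneg fun ω => mul_self_nonneg _
  have hI1 : Integrable U PP := by
    refine ((integrable_const (1:ℝ)).add hI2).mono' hU.aestronglyMeasurable (Eventually.of_forall fun ω => ?_)
    rw [Real.norm_eq_abs]
    simp only [Pi.add_apply]
    have : U ω * U ω = |U ω|^2 := by rw [sq_abs]; ring
    rw [this]
    nlinarith [sq_nonneg (|U ω| - 1)]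
  set c := Real.sqrt V with hc
  have hc0 : 0 ≤ c := Real.sqrt_nonneg _
  have hcc : c * c = V := Real.mul_self_sqrt hV0
  have hVt : c * V ≤ τ := by
    have h1 : ∫ ω, c * (U ω * U ω) ∂PP ≤ ∫ ω, ((2/3) * |U ω|^3 + (1/3) * c^3) ∂PP := by
      apply integral_mono (hI2.const_mul c) ((hI3.const_mul _).add (integrable_const _))
      intro ω
      show c * (U ω * U ω) ≤ (2/3) * |U ω|^3 + (1/3) * c^3
      have : U ω * U ω = |U ω| * |U ω| := (abs_mul_abs_self _).symm
      rw [this]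
      have := amgm3 hc0 (abs_nonneg (U ω)) (abs_nonneg (U ω))
      linarith
    rw [integral_const_mul, integral_add (hI3.const_mul _) (integrable_const _), integral_const_mul] at h1
    simp only [integral_const, probReal_univ, smul_eq_mul, one_mul] at h1
    have h2 : c^3 = c * V := by rw [← hcc]; ring
    rw [h2] at h1
    linarith
  -- expansion
  have hE : Integrable (fun ω => Complex.exp (((θ * U ω : ℝ) : ℂ) * Complex.I)) PP := by
    refine Integrable.of_bound (C := 1) ?_ (Eventually.of_forall fun ω => by rw [Complex.norm_exp_ofReal_mul_I])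
    have : Measurable (fun ω => Complex.exp (((θ * U ω : ℝ) : ℂ) * Complex.I)) :=
      Complex.measurable_exp.comp ((Complex.measurable_ofReal.comp (hU.const_mul θ)).mul_const _)
    exact this.aestronglyMeasurable
  have hP : Integrable (fun ω => (1:ℂ) + ((θ * U ω : ℝ) : ℂ) * Complex.I - (((θ * U ω : ℝ)) : ℂ)^2/2) PP := by
    have a1 : Integrable (fun ω => ((θ * U ω : ℝ) : ℂ) * Complex.I) PP := (hI1.const_mul θ).ofReal.mul_const _
    have a2 : Integrable (fun ω => (((θ * U ω : ℝ)) : ℂ)^2/2) PP := by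
      have := ((hI2.const_mul (θ^2/2)).ofReal (𝕜 := ℂ))
      refine this.congr (Eventually.of_forall fun ω => ?_)
      simp only [Complex.coe_algebraMap]
      push_cast; ring
    exact ((integrable_const _).add a1).sub a2
  have hPval : ∫ ω, ((1:ℂ) + ((θ * U ω : ℝ) : ℂ) * Complex.I - (((θ * U ω : ℝ)) : ℂ)^2/2) ∂PP = ((1 - θ^2/2 * V : ℝ) : ℂ) := by
    have e : ∀ ω, (1:ℂ) + ((θ * U ω : ℝ) : ℂ) * Complex.I - (((θ * U ω : ℝ)) : ℂ)^2/2 =
        ((1 - θ^2/2 * (U ω * U ω) : ℝ) : ℂ) + (θ * Complex.I) * ((U ω : ℝ) : ℂ) := by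
      intro ω; push_cast; ring
    simp_rw [e]
    have b1 : Integrable (fun ω => ((1 - θ^2/2 * (U ω * U ω) : ℝ) : ℂ)) PP := ((integrable_const (1:ℝ)).sub (hI2.const_mul _)).ofReal
    have b2 : Integrable (fun ω => (θ * Complex.I) * ((U ω : ℝ) : ℂ)) PP := hI1.ofReal.const_mul _
    rw [integral_add b1 b2, integral_const_mul, integral_complex_ofReal, integral_complex_ofReal, hmean,
      integral_sub (integrable_const _) (hI2.const_mul _), integral_const_mul]
    simp [hV]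
  have h1 : ‖(∫ ω, Complex.exp (((θ * U ω : ℝ) : ℂ) * Complex.I) ∂PP) - ((1 - θ^2/2 * V : ℝ) : ℂ)‖ ≤ 4 * |θ|^3 * τ := by
    rw [← hPval, ← integral_sub hE hP]
    refine (norm_integral_le_integral_norm _).trans ?_
    rw [hτ, ← integral_const_mul]
    apply integral_mono (hE.sub hP).norm (hI3.const_mul _)
    intro ω
    have := cf_taylor (θ * U ω)
    rw [abs_mul, mul_pow] at this
    refine this.trans (le_of_eq ?_)
    ring
  have hy0 : 0 ≤ θ^2/2 * V := by positivity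
  have h2 : ‖((1 - θ^2/2 * V : ℝ) : ℂ) - ((Real.exp (-(θ^2/2 * V)) : ℝ) : ℂ)‖ ≤ |θ|^3 * τ := by
    rw [← Complex.ofReal_sub, Complex.norm_real, Real.norm_eq_abs]
    have h3 := exp_taylor hy0
    have e : |1 - θ^2/2 * V - Real.exp (-(θ^2/2 * V))| = |Real.exp (-(θ^2/2 * V)) - 1 + θ^2/2 * V| := by
      rw [← abs_neg]; congr 1; ring
    rw [e]
    refine h3.trans ?_
    have h4 : Real.sqrt (θ^2/2 * V) ≤ |θ| * c := by
      rw [hc, Real.sqrt_le_left (by positivity), mul_pow, sq_abs, Real.sq_sqrt hV0]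
      have : 0 ≤ θ^2 * V := by positivity
      linarith
    calc θ^2/2 * V * Real.sqrt (θ^2/2 * V) ≤ θ^2/2 * V * (|θ| * c) := by gcongr
      _ = |θ|^3/2 * (c * V) := by
          have : θ^2 = |θ|^2 := (sq_abs θ).symm
          rw [this]; ring
      _ ≤ |θ|^3/2 * τ := by gcongr
      _ ≤ |θ|^3 * τ := by
          have h5 : 0 ≤ τ := integral_nonneg fun ω => by positivity
          have : 0 ≤ |θ|^3 * τ := by positivity
          linarith
  have h3 := norm_add_le ((∫ ω, Complex.exp (((θ * U ω : ℝ) : ℂ) * Complex.I) ∂PP) - ((1 - θ^2/2 * V : ℝ) : ℂ))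
    (((1 - θ^2/2 * V : ℝ) : ℂ) - ((Real.exp (-(θ^2/2 * V)) : ℝ) : ℂ))
  rw [sub_add_sub_cancel] at h3
  linarith

lemma cf_block {U : Om → ℝ} (hU : Measurable U) (hI2 : Integrable (fun ω => U ω * U ω) PP)
    (hmean : ∫ ω, U ω ∂PP = 0) (θ : ℝ) :
    ‖(∫ ω, Complex.exp (((θ * U ω : ℝ) : ℂ) * Complex.I) ∂PP) - ((Real.exp (-(θ^2/2 * ∫ ω, U ω * U ω ∂PP)) : ℝ) : ℂ)‖ₑ ≤
      ENNReal.ofReal (5 * |θ|^3) * ∫⁻ ω, ‖U ω‖ₑ^3 ∂PP := by
  rcases eq_or_ne θ 0 with h | h
  · subst h; simp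
  · by_cases hT : ∫⁻ ω, ‖U ω‖ₑ^3 ∂PP = ⊤
    · rw [hT, ENNReal.mul_top]
      · exact le_top
      · have : 0 < 5 * |θ|^3 := by have := abs_pos.2 h; positivity
        exact (ENNReal.ofReal_pos.2 this).ne'
    · have e : ∀ ω, ‖U ω‖ₑ^3 = ENNReal.ofReal (|U ω|^3) := by
        intro ω; rw [Real.enorm_eq_ofReal_abs, ENNReal.ofReal_pow (abs_nonneg _)]
      simp_rw [e] at hT ⊢
      have hI3 : Integrable (fun ω => |U ω|^3) PP := by
        refine ⟨(hU.abs.pow_const 3).aestronglyMeasurable, ?_⟩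
        rw [hasFiniteIntegral_iff_ofReal (Eventually.of_forall fun ω => by positivity)]
        exact lt_top_iff_ne_top.2 hT
      have h1 := cf_block_real hU hI2 hI3 hmean θ
      rw [← ofReal_integral_eq_lintegral_ofReal hI3 (Eventually.of_forall fun ω => by positivity),
        ← ENNReal.ofReal_mul (by positivity), ← ofReal_norm_eq_enorm]
      exact ENNReal.ofReal_le_ofReal h1

section det
variable {H : ℝ → ℝ} (hH : Measurable H) (h0 : ∀ x, 0 ≤ H x) (hI : Integrable (fun x => H x * H x) lam)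
include hH h0 hI

lemma UU_mean {f : ℝ → ℝ} (hf : Measurable f) (hf1 : ∀ x, |f x| ≤ 1) {q v : ℕ} (hqv : q ≤ v) :
    ∫ ω, UU f q v H ω ∂PP = 0 := by
  unfold UU
  rw [← integral_integral_swap (f := fun x ω => f x * H x * (gg q v x ω - 1)) (gm_prod_int hH h0 hI hf hf1 hqv)]
  have : ∀ x, ∫ ω, f x * H x * (gg q v x ω - 1) ∂PP = 0 := by
    intro x
    rw [integral_const_mul, integral_sub (gg_one hqv x).1 (integrable_const 1), (gg_one hqv x).2]
    simp
  simp_rw [this]; simp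

/-- additivity in the test function, second moment form -/
lemma VV_split {f f' : ℝ → ℝ} (hf : Measurable f) (hf1 : ∀ x, |f x| ≤ 1) (hf' : Measurable f') (hf1' : ∀ x, |f' x| ≤ 1)
    (hs1 : ∀ x, |f x + f' x| ≤ 1) {q v : ℕ} (hqv : q ≤ v) :
    |Real.sqrt (VV (fun x => f x + f' x) q v H) - Real.sqrt (VV f q v H)| ≤ Real.sqrt (VV f' q v H) := by
  have b1 := UU_bil hH h0 hI hf hf1 hf hf1 hqv
  have b2 := UU_bil hH h0 hI hf' hf1' hf' hf1' hqv
  have b3 := UU_bil hH h0 hI hf hf1 hf' hf1' hqv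
  have v1 := VV_eq hH h0 hI hf hf1 hqv
  have v2 := VV_eq hH h0 hI hf' hf1' hqv
  have v3 := VV_eq hH h0 hI (hf.add hf') hs1 hqv
  set ρ := ∫ ω, UU f q v H ω * UU f' q v H ω ∂PP with hρ
  have n1 := VV_nonneg hH h0 hI hf hf1 hqv
  have n2 := VV_nonneg hH h0 hI hf' hf1' hqv
  have hadd := UU_add hH h0 hI hf hf1 hf' hf1' hqv
  have hlin : ∀ t : ℝ, 0 ≤ VV f' q v H * (t * t) + 2 * ρ * t + VV f q v H := by
    intro t
    have e : ∫ ω, (UU f q v H ω + t * UU f' q v H ω) * (UU f q v H ω + t * UU f' q v H ω) ∂PP =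
        VV f' q v H * (t * t) + 2 * ρ * t + VV f q v H := by
      have e1 : ∀ ω, (UU f q v H ω + t * UU f' q v H ω) * (UU f q v H ω + t * UU f' q v H ω) =
          (t * t) * (UU f' q v H ω * UU f' q v H ω) + (2 * t) * (UU f q v H ω * UU f' q v H ω) + UU f q v H ω * UU f q v H ω := by
        intro ω; ring
      simp_rw [e1]
      have c1 : Integrable (fun ω => (t * t) * (UU f' q v H ω * UU f' q v H ω) + (2 * t) * (UU f q v H ω * UU f' q v H ω)) PP :=
        (b2.1.const_mul _).add (b3.1.const_mul _)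
      rw [integral_add c1 b1.1, integral_add (b2.1.const_mul _) (b3.1.const_mul _), integral_const_mul, integral_const_mul, v1, v2, ← hρ]
      ring
    rw [← e]
    exact integral_nonneg fun ω => mul_self_nonneg _
  have hdisc := discrim_le_zero hlin
  unfold discrim at hdisc
  have hρ2 : ρ^2 ≤ VV f q v H * VV f' q v H := by nlinarith
  have hV : VV (fun x => f x + f' x) q v H = VV f q v H + 2 * ρ + VV f' q v H := by
    have e0 : VV (fun x => f x + f' x) q v H = ∫ ω, UU (fun x => f x + f' x) q v H ω * UU (fun x => f x + f' x) q v H ω ∂PP := v3.symm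
    rw [e0]
    have e1 : ∫ ω, UU (fun x => f x + f' x) q v H ω * UU (fun x => f x + f' x) q v H ω ∂PP =
        ∫ ω, (UU f q v H ω * UU f q v H ω + 2 * (UU f q v H ω * UU f' q v H ω) + UU f' q v H ω * UU f' q v H ω) ∂PP := by
      apply integral_congr_ae
      filter_upwards [hadd] with ω hω
      rw [hω]; ring
    rw [e1]
    have c1 : Integrable (fun ω => UU f q v H ω * UU f q v H ω + 2 * (UU f q v H ω * UU f' q v H ω)) PP := b1.1.add (b3.1.const_mul 2)
    rw [integral_add c1 b2.1, integral_add b1.1 (b3.1.const_mul 2), integral_const_mul, v1, v2]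
  set a := Real.sqrt (VV f q v H) with ha
  set c := Real.sqrt (VV f' q v H) with hc
  have ha0 : 0 ≤ a := Real.sqrt_nonneg _
  have hc0 : 0 ≤ c := Real.sqrt_nonneg _
  have ha2 : a * a = VV f q v H := Real.mul_self_sqrt n1
  have hc2 : c * c = VV f' q v H := Real.mul_self_sqrt n2
  have hρ3 : |ρ| ≤ a * c := by
    apply abs_le_of_sq_le_sq _ (by positivity)
    calc ρ^2 ≤ VV f q v H * VV f' q v H := hρ2
      _ = (a*c)^2 := by rw [← ha2, ← hc2]; ring
  obtain ⟨r1, r2⟩ := abs_le.1 hρ3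
  rw [hV, abs_le]
  constructor
  · have : a - c ≤ Real.sqrt (VV f q v H + 2 * ρ + VV f' q v H) := by
      apply Real.le_sqrt_of_sq_le
      rw [← ha2, ← hc2]; nlinarith
    linarith
  · have : Real.sqrt (VV f q v H + 2 * ρ + VV f' q v H) ≤ a + c := by
      rw [Real.sqrt_le_left (by positivity), ← ha2, ← hc2]; nlinarith
    linarith

lemma UU_abs_le {f : ℝ → ℝ} (hf : Measurable f) (hf1 : ∀ x, |f x| ≤ 1) {q v : ℕ} (hqv : q ≤ v) :
    Integrable (UU f q v H) PP ∧ ∫ ω, |UU f q v H ω| ∂PP ≤ Real.sqrt (VV f q v H) := by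
  have b1 := UU_bil hH h0 hI hf hf1 hf hf1 hqv
  have v1 := VV_eq hH h0 hI hf hf1 hqv
  have hm := UU_meas hf hH q v
  have hI1 : Integrable (UU f q v H) PP := by
    refine ((integrable_const (1:ℝ)).add b1.1).mono' hm.aestronglyMeasurable (Eventually.of_forall fun ω => ?_)
    rw [Real.norm_eq_abs]
    simp only [Pi.add_apply]
    have : UU f q v H ω * UU f q v H ω = |UU f q v H ω|^2 := by rw [sq_abs]; ring
    rw [this]
    nlinarith [sq_nonneg (|UU f q v H ω| - 1)]
  refine ⟨hI1, ?_⟩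
  set t := ∫ ω, |UU f q v H ω| ∂PP with ht
  apply Real.le_sqrt_of_sq_le
  have e : ∫ ω, (|UU f q v H ω| - t) * (|UU f q v H ω| - t) ∂PP = VV f q v H - t^2 := by
    have e1 : ∀ ω, (|UU f q v H ω| - t) * (|UU f q v H ω| - t) = UU f q v H ω * UU f q v H ω - (2 * t) * |UU f q v H ω| + t^2 := by
      intro ω
      have := abs_mul_abs_self (UU f q v H ω)
      nlinarith
    simp_rw [e1]
    rw [int3 b1.1 (hI1.abs.const_mul _) (integrable_const _), integral_const_mul, v1, ← ht]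
    simp; ring
  have : 0 ≤ ∫ ω, (|UU f q v H ω| - t) * (|UU f q v H ω| - t) ∂PP := integral_nonneg fun ω => mul_self_nonneg _
  linarith

end det

end

end Pool.Agent.H968
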