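import Mathlib
import Pool.Agent.H968.CLTc

open MeasureTheory ProbabilityTheory Filter Topology Set
open scoped ENNReal NNReal

namespace Pool.Agent.H968

noncomputable section

/-- period of the block decomposition -/
def per (B : ℝ) (q : ℕ) : ℝ := (B+1) * ell q
/-- blocks -/
def Ib (B : ℝ) (q j : ℕ) : Set ℝ := Ico (j * per B q) (j * per B q + B * ell q)
/-- union of the first blocks -/
def Tb (B : ℝ) (q m : ℕ) : Set ℝ := ⋃ j ∈ Finset.range m, Ib B q j

lemma Ib_meas (B : ℝ) (q j : ℕ) : MeasurableSet (Ib B q j) := measurableSet_Ico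

lemma Tb_meas (B : ℝ) (q m : ℕ) : MeasurableSet (Tb B q m) :=
  Finset.measurableSet_biUnion _ fun j _ => Ib_meas B q j

lemma Tb_zero (B : ℝ) (q : ℕ) : Tb B q 0 = ∅ := by simp [Tb]

lemma Tb_succ (B : ℝ) (q m : ℕ) : Tb B q (m+1) = Tb B q m ∪ Ib B q m := by
  ext x
  simp only [Tb, mem_iUnion, Finset.mem_range, mem_union, exists_prop]
  constructor
  · rintro ⟨j, hj, hx⟩
    rcases Nat.lt_succ_iff_lt_or_eq.1 hj with h | h
    · exact Or.inl ⟨j, h, hx⟩
    · subst h; exact Or.inr hx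
  · rintro (⟨j, hj, hx⟩ | hx)
    · exact ⟨j, by omega, hx⟩
    · exact ⟨m, by omega, hx⟩

lemma Tb_lt {B : ℝ} {q m : ℕ} (hB : 0 ≤ B) {s : ℝ} (hs : s ∈ Tb B q m) : s < m * per B q - ell q := by
  simp only [Tb, mem_iUnion, Finset.mem_range, exists_prop] at hs
  obtain ⟨j, hj, hx⟩ := hs
  have h1 : s < j * per B q + B * ell q := hx.2
  have h2 : ((j:ℝ)+1) ≤ m := by exact_mod_cast hj
  have hl := ell_pos q
  have hper : 0 ≤ per B q := by unfold per; positivity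
  have h3 : ((j:ℝ)+1) * per B q ≤ m * per B q := mul_le_mul_of_nonneg_right h2 hper
  have h4 : ((j:ℝ)+1) * per B q = j * per B q + B * ell q + ell q := by unfold per; ring
  linarith

lemma sep_blocks {B : ℝ} {q m : ℕ} (hB : 0 ≤ B) : ∀ s ∈ Tb B q m, ∀ t ∈ Ib B q m, ell q ≤ |s - t| := by
  intro s hs t ht
  have h1 := Tb_lt hB hs
  have h2 : (m:ℝ) * per B q ≤ t := ht.1
  rw [abs_sub_comm]
  exact (by linarith : ell q ≤ t - s).trans (le_abs_self _)

lemma disj_blocks {B : ℝ} {q m : ℕ} (hB : 0 ≤ B) : Disjoint (Tb B q m) (Ib B q m) := by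
  rw [Set.disjoint_left]
  intro s hs ht
  have := sep_blocks hB s hs s ht
  rw [sub_self, abs_zero] at this
  linarith [ell_pos q]

section det
variable {H : ℝ → ℝ} (hH : Measurable H) (h0 : ∀ x, 0 ≤ H x) (hI : Integrable (fun x => H x * H x) lam)
include hH h0 hI

lemma block_cf {f : ℝ → ℝ} (hf : Measurable f) (hf1 : ∀ x, |f x| ≤ 1) {q v : ℕ} (hq : q ≠ 0) (hqv : q ≤ v)
    {I : Set ℝ} (hIm : MeasurableSet I) {c : ℝ} (hc : 0 ≤ c) (hlam : lam I ≤ ENNReal.ofReal c) (θ : ℝ) :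
    ‖(∫ ω, Complex.exp (((θ * UU (I.indicator f) q v H ω : ℝ) : ℂ) * Complex.I) ∂PP) -
      ((Real.exp (-(θ^2/2 * VV (I.indicator f) q v H)) : ℝ) : ℂ)‖ₑ ≤
      ENNReal.ofReal (40 * |θ|^3 * (c + 8 * ell q)^2) * ∫⁻ x, ENNReal.ofReal (H x ^ 3) ∂(lam.restrict I) := by
  have hfI := hf.indicator hIm
  have hfI1 := ind_abs hf1 I
  have b := UU_bil hH h0 hI hfI hfI1 hfI hfI1 hqv
  have h1 := cf_block (UU_meas hfI hH q v) b.1 (UU_mean hH h0 hI hfI hfI1 hqv) θ
  rw [VV_eq hH h0 hI hfI hfI1 hqv] at h1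
  refine h1.trans ?_
  have h2 := third_moment hH h0 hf1 hq hqv hIm (v := v)
  have hl := ell_pos q
  calc ENNReal.ofReal (5 * |θ|^3) * ∫⁻ ω, ‖UU (I.indicator f) q v H ω‖ₑ^3 ∂PP
      ≤ ENNReal.ofReal (5 * |θ|^3) * (8 * ((lam I + ENNReal.ofReal (8 * ell q))^2 * ∫⁻ x, ENNReal.ofReal (H x ^ 3) ∂(lam.restrict I))) := by
        gcongr
    _ ≤ ENNReal.ofReal (5 * |θ|^3) * (8 * ((ENNReal.ofReal c + ENNReal.ofReal (8 * ell q))^2 * ∫⁻ x, ENNReal.ofReal (H x ^ 3) ∂(lam.restrict I))) := by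
        gcongr
    _ = _ := by
        rw [← ENNReal.ofReal_add hc (by positivity), ← ENNReal.ofReal_pow (by positivity)]
        have e8 : (8:ℝ≥0∞) = ENNReal.ofReal 8 := by norm_num
        rw [e8, ← mul_assoc, ← mul_assoc, mul_assoc (ENNReal.ofReal (5 * |θ|^3)), ← ENNReal.ofReal_mul (by norm_num),
          ← ENNReal.ofReal_mul (by positivity)]
        congr 2; ring

lemma blocks_cf {f : ℝ → ℝ} (hf : Measurable f) (hf1 : ∀ x, |f x| ≤ 1) {q v : ℕ} (hq : q ≠ 0) (hqv : q ≤ v)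
    {B : ℝ} (hB : 0 ≤ B) (θ : ℝ) (m : ℕ) :
    ‖(∫ ω, Complex.exp (((θ * UU ((Tb B q m).indicator f) q v H ω : ℝ) : ℂ) * Complex.I) ∂PP) -
      ((Real.exp (-(θ^2/2 * VV ((Tb B q m).indicator f) q v H)) : ℝ) : ℂ)‖ₑ ≤
      ENNReal.ofReal (40 * |θ|^3 * ((B + 8) * ell q)^2) * ∫⁻ x, ENNReal.ofReal (H x ^ 3) ∂(lam.restrict (Tb B q m)) := by
  have hl := ell_pos q
  induction m with
  | zero =>
    rw [Tb_zero]
    have e1 : ∀ ω, UU ((∅ : Set ℝ).indicator f) q v H ω = 0 := by intro ω; unfold UU; simp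
    have e2 : VV ((∅ : Set ℝ).indicator f) q v H = 0 := by unfold VV; simp
    simp_rw [e1, e2]
    simp
  | succ m ih =>
    rw [Tb_succ]
    have hsep : ∀ s ∈ Tb B q m, ∀ t ∈ Ib B q m, s ∈ Icc (0:ℝ) 1 → t ∈ Icc (0:ℝ) 1 → ell q ≤ |s - t| :=
      fun s hs t ht _ _ => sep_blocks hB s hs t ht
    have hd := disj_blocks (q := q) (m := m) hB
    rw [sep_indep hH h0 hI hf hf1 hqv (Tb_meas B q m) (Ib_meas B q m) hd hsep θ,
      sep_VV hH h0 hI hf hf1 hqv (Tb_meas B q m) (Ib_meas B q m) hd hsep]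
    have hlam : lam (Ib B q m) ≤ ENNReal.ofReal (B * ell q) := by
      unfold lam Ib
      refine (Measure.restrict_apply_le _ _).trans ?_
      rw [Real.volume_Ico]
      apply ENNReal.ofReal_le_ofReal; linarith
    have hb := block_cf hH h0 hI hf hf1 hq hqv (Ib_meas B q m) (c := B * ell q) (by positivity) hlam θ (v := v)
    set a := ∫ ω, Complex.exp (((θ * UU ((Tb B q m).indicator f) q v H ω : ℝ) : ℂ) * Complex.I) ∂PP with ha
    set b := ∫ ω, Complex.exp (((θ * UU ((Ib B q m).indicator f) q v H ω : ℝ) : ℂ) * Complex.I) ∂PP with hbdef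
    set x := VV ((Tb B q m).indicator f) q v H
    set y := VV ((Ib B q m).indicator f) q v H
    have hy : 0 ≤ y := VV_nonneg hH h0 hI (hf.indicator (Ib_meas B q m)) (ind_abs hf1 _) hqv
    have e : Real.exp (-(θ^2/2 * (x + y))) = Real.exp (-(θ^2/2 * x)) * Real.exp (-(θ^2/2 * y)) := by
      rw [← Real.exp_add]; congr 1; ring
    rw [e]
    push_cast
    have e2 : a * b - ((Real.exp (-(θ^2/2 * x)) : ℝ) : ℂ) * ((Real.exp (-(θ^2/2 * y)) : ℝ) : ℂ) =
        a * (b - ((Real.exp (-(θ^2/2 * y)) : ℝ) : ℂ)) + (a - ((Real.exp (-(θ^2/2 * x)) : ℝ) : ℂ)) * ((Real.exp (-(θ^2/2 * y)) : ℝ) : ℂ) := by ring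
    have e3 : a * b - (Complex.exp (-((θ:ℂ)^2/2 * (x:ℂ)))) * (Complex.exp (-((θ:ℂ)^2/2 * (y:ℂ)))) =
        a * b - ((Real.exp (-(θ^2/2 * x)) : ℝ) : ℂ) * ((Real.exp (-(θ^2/2 * y)) : ℝ) : ℂ) := by push_cast; ring
    rw [e3, e2]
    refine (enorm_add_le _ _).trans ?_
    rw [enorm_mul, enorm_mul]
    have ha1 : ‖a‖ₑ ≤ 1 := by
      have : ‖a‖ ≤ 1 := by
        refine (norm_integral_le_of_norm_le_const (C := 1) (Eventually.of_forall fun ω => ?_)).trans (by simp)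
        rw [Complex.norm_exp_ofReal_mul_I]
      rw [← ofReal_norm]
      exact ENNReal.ofReal_le_one.2 this
    have hy1 : ‖((Real.exp (-(θ^2/2 * y)) : ℝ) : ℂ)‖ₑ ≤ 1 := by
      rw [← ofReal_norm, Complex.norm_real, Real.norm_eq_abs, abs_of_pos (Real.exp_pos _)]
      apply ENNReal.ofReal_le_one.2
      rw [Real.exp_le_one_iff]
      have : 0 ≤ θ^2/2 * y := by positivity
      linarith
    have hun : lam.restrict (Tb B q m ∪ Ib B q m) = lam.restrict (Tb B q m) + lam.restrict (Ib B q m) :=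
      Measure.restrict_union hd (Ib_meas B q m)
    rw [hun, lintegral_add_measure, mul_add]
    have e4 : B * ell q + 8 * ell q = (B + 8) * ell q := by ring
    rw [e4] at hb
    calc ‖a‖ₑ * ‖b - ((Real.exp (-(θ^2/2 * y)) : ℝ) : ℂ)‖ₑ + ‖a - ((Real.exp (-(θ^2/2 * x)) : ℝ) : ℂ)‖ₑ * ‖((Real.exp (-(θ^2/2 * y)) : ℝ) : ℂ)‖ₑ
        ≤ 1 * (ENNReal.ofReal (40 * |θ|^3 * ((B + 8) * ell q)^2) * ∫⁻ x, ENNReal.ofReal (H x ^ 3) ∂(lam.restrict (Ib B q m))) +
          (ENNReal.ofReal (40 * |θ|^3 * ((B + 8) * ell q)^2) * ∫⁻ x, ENNReal.ofReal (H x ^ 3) ∂(lam.restrict (Tb B q m))) * 1 := by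
          gcongr
      _ = _ := by rw [one_mul, mul_one, add_comm]

/-- central limit estimate for fixed lower levels -/
theorem clt_det {f : ℝ → ℝ} (hf : Measurable f) (hf1 : ∀ x, |f x| ≤ 1) {q v : ℕ} (hq : q ≠ 0) (hqv : q ≤ v)
    {B : ℝ} (hB : 0 ≤ B) (θ : ℝ) (m : ℕ) :
    ‖(∫ ω, Complex.exp (((θ * UU f q v H ω : ℝ) : ℂ) * Complex.I) ∂PP) - ((Real.exp (-(θ^2/2 * VV f q v H)) : ℝ) : ℂ)‖ₑ ≤
      ENNReal.ofReal (3 * |θ| * Real.sqrt (4 * ell q * ∫ x, (Tb B q m)ᶜ.indicator (fun x => H x * H x) x ∂lam)) +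
      ENNReal.ofReal (40 * |θ|^3 * ((B + 8) * ell q)^2) * ∫⁻ x, ENNReal.ofReal (H x ^ 3) ∂lam := by
  set T := Tb B q m with hT
  have hTm : MeasurableSet T := Tb_meas B q m
  have hfT := hf.indicator hTm
  have hfT1 := ind_abs hf1 T
  have hfG := hf.indicator hTm.compl
  have hfG1 := ind_abs hf1 Tᶜ
  have hsum : ∀ x, T.indicator f x + Tᶜ.indicator f x = f x := fun x => Set.indicator_self_add_compl_apply T f x
  have hsum' : (fun x => T.indicator f x + Tᶜ.indicator f x) = f := funext hsum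
  have h1 := blocks_cf hH h0 hI hf hf1 hq hqv hB θ m (v := v)
  have h2 := UU_add hH h0 hI hfT hfT1 hfG hfG1 hqv
  rw [hsum'] at h2
  have h3 := VV_split hH h0 hI hfT hfT1 hfG hfG1 (fun x => by rw [hsum]; exact hf1 x) hqv
  rw [hsum'] at h3
  have h4 := UU_abs_le hH h0 hI hfG hfG1 hqv
  have hVG := VV_le hH h0 hI hf hf1 hq hqv hTm.compl (v := v)
  set sG := Real.sqrt (VV (Tᶜ.indicator f) q v H) with hsG
  set R := Real.sqrt (4 * ell q * ∫ x, Tᶜ.indicator (fun x => H x * H x) x ∂lam) with hR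
  have hsR : sG ≤ R := Real.sqrt_le_sqrt hVG
  have hVf := VV_nonneg hH h0 hI hf hf1 hqv
  have hVT := VV_nonneg hH h0 hI hfT hfT1 hqv
  -- first replacement
  have r1 : ‖(∫ ω, Complex.exp (((θ * UU f q v H ω : ℝ) : ℂ) * Complex.I) ∂PP) -
      ∫ ω, Complex.exp (((θ * UU (T.indicator f) q v H ω : ℝ) : ℂ) * Complex.I) ∂PP‖ ≤ |θ| * sG := by
    have me : ∀ {g : ℝ → ℝ}, Measurable g → Integrable (fun ω => Complex.exp (((θ * UU g q v H ω : ℝ) : ℂ) * Complex.I)) PP := by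
      intro g hg
      refine Integrable.of_bound (C := 1) ?_ (Eventually.of_forall fun ω => by rw [Complex.norm_exp_ofReal_mul_I])
      have : Measurable (fun ω => Complex.exp (((θ * UU g q v H ω : ℝ) : ℂ) * Complex.I)) :=
        Complex.measurable_exp.comp ((Complex.measurable_ofReal.comp ((UU_meas hg hH q v).const_mul θ)).mul_const _)
      exact this.aestronglyMeasurable
    rw [← integral_sub (me hf) (me hfT)]
    refine (norm_integral_le_integral_norm _).trans ?_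
    have h5 : ∫ ω, ‖Complex.exp (((θ * UU f q v H ω : ℝ) : ℂ) * Complex.I) - Complex.exp (((θ * UU (T.indicator f) q v H ω : ℝ) : ℂ) * Complex.I)‖ ∂PP ≤
        ∫ ω, |θ| * |UU (Tᶜ.indicator f) q v H ω| ∂PP := by
      apply integral_mono_ae ((me hf).sub (me hfT)).norm (h4.1.abs.const_mul _)
      filter_upwards [h2] with ω hω
      show ‖Complex.exp (((θ * UU f q v H ω : ℝ) : ℂ) * Complex.I) - Complex.exp (((θ * UU (T.indicator f) q v H ω : ℝ) : ℂ) * Complex.I)‖ ≤ |θ| * |UU (Tᶜ.indicator f) q v H ω|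
      have h6 := Real.norm_exp_I_mul_ofReal_sub_one_le (x := θ * UU (Tᶜ.indicator f) q v H ω)
      have e : Complex.exp (((θ * UU f q v H ω : ℝ) : ℂ) * Complex.I) - Complex.exp (((θ * UU (T.indicator f) q v H ω : ℝ) : ℂ) * Complex.I) =
          Complex.exp (((θ * UU (T.indicator f) q v H ω : ℝ) : ℂ) * Complex.I) * (Complex.exp (Complex.I * ((θ * UU (Tᶜ.indicator f) q v H ω : ℝ) : ℂ)) - 1) := by
        rw [mul_sub, ← Complex.exp_add, mul_one, hω]
        congr 2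
        push_cast; ring
      rw [e, norm_mul, Complex.norm_exp_ofReal_mul_I, one_mul]
      refine h6.trans ?_
      rw [Real.norm_eq_abs, abs_mul]
    refine h5.trans ?_
    rw [integral_const_mul]
    exact mul_le_mul_of_nonneg_left h4.2 (abs_nonneg _)
  have r2 : ‖((Real.exp (-(θ^2/2 * VV (T.indicator f) q v H)) : ℝ) : ℂ) - ((Real.exp (-(θ^2/2 * VV f q v H)) : ℝ) : ℂ)‖ ≤ 2 * |θ| * sG := by
    rw [← Complex.ofReal_sub, Complex.norm_real, Real.norm_eq_abs]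
    have h7 := gauss_lip (x := |θ| * Real.sqrt (VV (T.indicator f) q v H)) (y := |θ| * Real.sqrt (VV f q v H)) (by positivity) (by positivity)
    have e1 : (|θ| * Real.sqrt (VV (T.indicator f) q v H))^2/2 = θ^2/2 * VV (T.indicator f) q v H := by
      rw [mul_pow, sq_abs, Real.sq_sqrt hVT]; ring
    have e2 : (|θ| * Real.sqrt (VV f q v H))^2/2 = θ^2/2 * VV f q v H := by
      rw [mul_pow, sq_abs, Real.sq_sqrt hVf]; ring
    rw [e1, e2, ← mul_sub, abs_mul, abs_abs] at h7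
    refine h7.trans ?_
    rw [abs_sub_comm (Real.sqrt (VV (T.indicator f) q v H))]
    have := mul_le_mul_of_nonneg_left h3 (abs_nonneg θ)
    linarith
  set a := ∫ ω, Complex.exp (((θ * UU f q v H ω : ℝ) : ℂ) * Complex.I) ∂PP
  set b := ∫ ω, Complex.exp (((θ * UU (T.indicator f) q v H ω : ℝ) : ℂ) * Complex.I) ∂PP
  set x := ((Real.exp (-(θ^2/2 * VV (T.indicator f) q v H)) : ℝ) : ℂ)
  set y := ((Real.exp (-(θ^2/2 * VV f q v H)) : ℝ) : ℂ)
  have e : a - y = ((a - b) + (x - y)) + (b - x) := by ring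
  rw [e]
  refine (enorm_add_le _ _).trans ?_
  have h8 : ‖(a - b) + (x - y)‖ₑ ≤ ENNReal.ofReal (3 * |θ| * R) := by
    rw [← ofReal_norm]
    apply ENNReal.ofReal_le_ofReal
    refine (norm_add_le _ _).trans ?_
    have := mul_le_mul_of_nonneg_left hsR (abs_nonneg θ)
    linarith
  have h9 : ‖b - x‖ₑ ≤ ENNReal.ofReal (40 * |θ|^3 * ((B + 8) * ell q)^2) * ∫⁻ x, ENNReal.ofReal (H x ^ 3) ∂lam := by
    refine h1.trans ?_
    gcongr
    exact Measure.restrict_le_self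
  exact add_le_add h8 h9

end det

/-- the gaps have small measure -/
lemma gap_measure {B : ℝ} (hB : 0 ≤ B) (q : ℕ) : ∃ m : ℕ, lam.real (Tb B q m)ᶜ ≤ 1/(B+1) + 2 * ell q := by
  have hl := ell_pos q
  have hP : 0 < per B q := by unfold per; positivity
  set m := ⌈1/per B q⌉₊ + 1 with hm
  refine ⟨m, ?_⟩
  have hm1 : (1:ℝ) < m * per B q := by
    have h1 : 1/per B q ≤ ⌈1/per B q⌉₊ := Nat.le_ceil _
    have h2 : (m:ℝ) = ⌈1/per B q⌉₊ + 1 := by rw [hm]; push_cast; ring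
    rw [div_le_iff₀ hP] at h1
    rw [h2]; nlinarith
  have hm2 : (m:ℝ) ≤ 1/per B q + 2 := by
    have h1 := Nat.ceil_lt_add_one (show 0 ≤ 1/per B q by positivity)
    have h2 : (m:ℝ) = ⌈1/per B q⌉₊ + 1 := by rw [hm]; push_cast; ring
    linarith
  have hsub : (Tb B q m)ᶜ ∩ Icc 0 1 ⊆ ⋃ j ∈ Finset.range m, Ico ((j:ℝ) * per B q + B * ell q) (((j:ℝ)+1) * per B q) := by
    intro x hx
    set j := ⌊x / per B q⌋₊ with hj
    have hx0 : 0 ≤ x / per B q := div_nonneg hx.2.1 hP.le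
    have h1 : (j:ℝ) * per B q ≤ x := by
      have := Nat.floor_le hx0
      rwa [le_div_iff₀ hP] at this
    have h2 : x < ((j:ℝ)+1) * per B q := by
      have := Nat.lt_floor_add_one (x / per B q)
      rwa [div_lt_iff₀ hP] at this
    have hjm : j < m := by
      by_contra hc
      have h3 : (m:ℝ) ≤ j := by exact_mod_cast not_lt.1 hc
      have h4 : (m:ℝ) * per B q ≤ j * per B q := mul_le_mul_of_nonneg_right h3 hP.le
      have := hx.2.2
      linarith
    simp only [mem_iUnion, Finset.mem_range, exists_prop]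
    refine ⟨j, hjm, ?_, h2⟩
    by_contra hc
    apply hx.1
    simp only [Tb, mem_iUnion, Finset.mem_range, exists_prop]
    exact ⟨j, hjm, h1, not_le.1 hc⟩
  have h5 : lam (Tb B q m)ᶜ ≤ ENNReal.ofReal (m * ell q) := by
    unfold lam
    rw [Measure.restrict_apply (Tb_meas B q m).compl]
    refine (measure_mono hsub).trans ((measure_biUnion_finset_le _ _).trans ?_)
    have e : ∀ j ∈ Finset.range m, volume (Ico ((j:ℝ) * per B q + B * ell q) (((j:ℝ)+1) * per B q)) = ENNReal.ofReal (ell q) := by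
      intro j _
      rw [Real.volume_Ico]
      congr 1; unfold per; ring
    rw [Finset.sum_congr rfl e, Finset.sum_const, Finset.card_range, nsmul_eq_mul, ENNReal.ofReal_mul (by positivity)]
    simp
  have h6 : lam.real (Tb B q m)ᶜ ≤ m * ell q := ENNReal.toReal_le_of_le_ofReal (by positivity) h5
  refine h6.trans ?_
  have h7 := mul_le_mul_of_nonneg_right hm2 hl.le
  refine h7.trans (le_of_eq ?_)
  unfold per
  field_simp

end

end Pool.Agent.H968
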