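import Mathlib
import Pool.Agent.H968.VarD

open MeasureTheory ProbabilityTheory Filter Topology Set
open scoped ENNReal NNReal

namespace Pool.Agent.H968

noncomputable section

/-- inverse square root -/
def gi (x : ℝ) : ℝ := x ^ (-(1/2) : ℝ)

lemma gi_eq_exp {x : ℝ} (hx : 0 < x) : gi x = Real.exp (-(1/2) * Real.log x) := by
  unfold gi; rw [Real.rpow_def_of_pos hx]; congr 1; ring

lemma gi_nonneg {x : ℝ} (hx : 0 ≤ x) : 0 ≤ gi x := Real.rpow_nonneg hx _

lemma gi_anti {x y : ℝ} (hx : 0 < x) (hxy : x ≤ y) : gi y ≤ gi x := by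
  rw [gi_eq_exp hx, gi_eq_exp (hx.trans_le hxy)]
  apply Real.exp_le_exp.2
  have := Real.log_le_log hx hxy
  linarith

lemma gi_convex {a b l : ℝ} (ha : 0 < a) (hb : 0 < b) (hl0 : 0 ≤ l) (hl1 : l ≤ 1) :
    gi ((1-l)*a + l*b) ≤ (1-l) * gi a + l * gi b := by
  have hpos : 0 < (1-l)*a + l*b := by
    rcases hl0.eq_or_lt with h | h
    · rw [← h]; simpa using ha
    · have : 0 ≤ (1-l)*a := mul_nonneg (by linarith) ha.le
      have : 0 < l * b := mul_pos h hb
      linarith
  rw [gi_eq_exp hpos, gi_eq_exp ha, gi_eq_exp hb]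
  have h1 := strictConcaveOn_log_Ioi.concaveOn.2 (mem_Ioi.2 ha) (mem_Ioi.2 hb) (show 0 ≤ 1 - l by linarith) hl0 (by ring)
  simp only [smul_eq_mul] at h1
  have h2 := convexOn_exp.2 (mem_univ (-(1/2) * Real.log a)) (mem_univ (-(1/2) * Real.log b)) (show 0 ≤ 1 - l by linarith) hl0 (by ring)
  simp only [smul_eq_mul] at h2
  refine le_trans ?_ h2
  apply Real.exp_le_exp.2
  linarith

lemma gi_four {n : ℝ} (hn : 0 < n) {t : ℝ} (ht0 : 0 ≤ t) (ht : t ≤ 1/4) :
    gi (n + (1/2 - t)) + gi (n + (1/2 + t)) ≤ gi (n + t) + gi (n + (1 - t)) := by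
  set l := (1/2 - 2*t)/(1 - 2*t) with hl
  have h12 : (0:ℝ) < 1 - 2*t := by linarith
  have hl0 : 0 ≤ l := div_nonneg (by linarith) h12.le
  have hl1 : l ≤ 1 := by rw [hl, div_le_one h12]; linarith
  have hlm : l * (1 - 2*t) = 1/2 - 2*t := by rw [hl]; field_simp
  have h1 := gi_convex (a := n + t) (b := n + (1-t)) (by linarith) (by linarith) hl0 hl1
  have h2 := gi_convex (a := n + (1-t)) (b := n + t) (by linarith) (by linarith) hl0 hl1
  have e1 : (1-l)*(n+t) + l*(n+(1-t)) = n + (1/2 - t) := by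
    have : (1-l)*(n+t) + l*(n+(1-t)) = n + t + l * (1 - 2*t) := by ring
    rw [this, hlm]; ring
  have e2 : (1-l)*(n+(1-t)) + l*(n+t) = n + (1/2 + t) := by
    have : (1-l)*(n+(1-t)) + l*(n+t) = n + (1-t) - l * (1 - 2*t) := by ring
    rw [this, hlm]; ring
  rw [e1] at h1
  rw [e2] at h2
  linarith

lemma gi_ii (a b : ℝ) : IntervalIntegrable gi volume a b := by
  unfold gi
  exact intervalIntegral.intervalIntegrable_rpow' (by norm_num)

lemma cosgi_ii (c a b : ℝ) : IntervalIntegrable (fun x => Real.cos (c * x) * gi x) volume a b :=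
  (gi_ii a b).continuousOn_mul (by fun_prop)

/-- the oscillating constant -/
def js (n : ℕ) : ℝ := 2 * ∫ z in (0:ℝ)..n, Real.cos (2 * Real.pi * z) * gi z

lemma js_mono_step (n : ℕ) (hn : n ≠ 0) : js n ≤ js (n+1) := by
  have hn' : (0:ℝ) < n := by exact_mod_cast Nat.pos_of_ne_zero hn
  unfold js
  rw [← intervalIntegral.integral_add_adjacent_intervals (a := 0) (b := (n:ℝ)) (c := ((n+1:ℕ):ℝ)) (cosgi_ii _ _ _) (cosgi_ii _ _ _)]
  have hcos : ∀ t, Real.cos (2 * Real.pi * (n + t)) = Real.cos (2 * Real.pi * t) := by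
    intro t
    have : 2 * Real.pi * (n + t) = 2 * Real.pi * t + n * (2 * Real.pi) := by ring
    rw [this, Real.cos_add_nat_mul_two_pi]
  -- shift to the unit interval
  have e0 : ∫ z in (n:ℝ)..((n+1:ℕ):ℝ), Real.cos (2 * Real.pi * z) * gi z = ∫ t in (0:ℝ)..1, Real.cos (2 * Real.pi * t) * gi (n + t) := by
    have h := intervalIntegral.integral_comp_add_left (a := 0) (b := 1) (fun z => Real.cos (2 * Real.pi * z) * gi z) (n:ℝ)
    rw [add_zero] at h
    push_cast
    rw [← h]
    congr 1; ext t; rw [hcos]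
  have hG : ∀ a b : ℝ, 0 ≤ a → 0 ≤ b → IntervalIntegrable (fun t => Real.cos (2 * Real.pi * t) * gi (n + t)) volume a b := by
    intro a b ha hb
    have h1 : ContinuousOn (fun t : ℝ => Real.cos (2 * Real.pi * t) * gi (n + t)) (uIcc a b) := by
      apply ContinuousOn.mul (by fun_prop)
      unfold gi
      apply ContinuousOn.rpow_const (by fun_prop)
      intro x hx
      left
      have : 0 ≤ x := (le_min ha hb).trans hx.1
      linarith
    exact h1.intervalIntegrable
  have q1 : ∫ t in (1/4:ℝ)..(1/2), Real.cos (2 * Real.pi * t) * gi (n + t) = - ∫ t in (0:ℝ)..(1/4), Real.cos (2 * Real.pi * t) * gi (n + (1/2 - t)) := by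
    have h := intervalIntegral.integral_comp_sub_left (a := 0) (b := 1/4) (fun t => Real.cos (2 * Real.pi * t) * gi (n + t)) (1/2)
    norm_num at h
    norm_num
    rw [← h, ← intervalIntegral.integral_neg]
    congr 1; ext t
    have : 2 * Real.pi * (1/2 - t) = Real.pi - 2 * Real.pi * t := by ring
    rw [this, Real.cos_pi_sub]; ring
  have q2 : ∫ t in (1/2:ℝ)..(3/4), Real.cos (2 * Real.pi * t) * gi (n + t) = - ∫ t in (0:ℝ)..(1/4), Real.cos (2 * Real.pi * t) * gi (n + (1/2 + t)) := by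
    have h := intervalIntegral.integral_comp_add_left (a := 0) (b := 1/4) (fun t => Real.cos (2 * Real.pi * t) * gi (n + t)) (1/2)
    norm_num at h
    norm_num
    rw [← h, ← intervalIntegral.integral_neg]
    congr 1; ext t
    have : 2 * Real.pi * (1/2 + t) = 2 * Real.pi * t + Real.pi := by ring
    rw [this, Real.cos_add_pi]; ring
  have q3 : ∫ t in (3/4:ℝ)..1, Real.cos (2 * Real.pi * t) * gi (n + t) = ∫ t in (0:ℝ)..(1/4), Real.cos (2 * Real.pi * t) * gi (n + (1 - t)) := by
    have h := intervalIntegral.integral_comp_sub_left (a := 0) (b := 1/4) (fun t => Real.cos (2 * Real.pi * t) * gi (n + t)) 1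
    norm_num at h
    norm_num
    rw [← h]
    congr 1; ext t
    have : 2 * Real.pi * (1 - t) = 2 * Real.pi - 2 * Real.pi * t := by ring
    rw [this, Real.cos_two_pi_sub]
  have e1 : ∫ t in (0:ℝ)..1, Real.cos (2 * Real.pi * t) * gi (n + t) =
      ∫ t in (0:ℝ)..(1/4), Real.cos (2 * Real.pi * t) * (gi (n + t) - gi (n + (1/2 - t)) - gi (n + (1/2 + t)) + gi (n + (1 - t))) := by
    have i1 := hG 0 (1/4) (by norm_num) (by norm_num)
    have i2 := hG (1/4) (1/2) (by norm_num) (by norm_num)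
    have i3 := hG (1/2) (3/4) (by norm_num) (by norm_num)
    have i4 := hG (3/4) 1 (by norm_num) (by norm_num)
    rw [← intervalIntegral.integral_add_adjacent_intervals ((i1.trans i2).trans i3) i4,
      ← intervalIntegral.integral_add_adjacent_intervals (i1.trans i2) i3,
      ← intervalIntegral.integral_add_adjacent_intervals i1 i2, q1, q2, q3]
    have hc : ∀ (g : ℝ → ℝ), Continuous g → (∀ t ∈ Icc (0:ℝ) (1/4), 0 < n + g t) →
        IntervalIntegrable (fun t => Real.cos (2 * Real.pi * t) * gi (n + g t)) volume 0 (1/4) := by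
      intro g hg hpos
      have h1 : ContinuousOn (fun t : ℝ => Real.cos (2 * Real.pi * t) * gi (n + g t)) (uIcc 0 (1/4)) := by
        apply ContinuousOn.mul (by fun_prop)
        unfold gi
        apply ContinuousOn.rpow_const (by fun_prop)
        intro x hx
        rw [uIcc_of_le (by norm_num)] at hx
        left
        exact (hpos x hx).ne'
      exact h1.intervalIntegrable
    have j1 := hc (fun t => t) (by fun_prop) (fun t ht => by have := ht.1; linarith)
    have j2 := hc (fun t => 1/2 - t) (by fun_prop) (fun t ht => by have := ht.2; linarith)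
    have j3 := hc (fun t => 1/2 + t) (by fun_prop) (fun t ht => by have := ht.1; linarith)
    have j4 := hc (fun t => 1 - t) (by fun_prop) (fun t ht => by have := ht.2; linarith)
    have e : ∀ t : ℝ, Real.cos (2 * Real.pi * t) * (gi (n + t) - gi (n + (1/2 - t)) - gi (n + (1/2 + t)) + gi (n + (1 - t))) =
        Real.cos (2 * Real.pi * t) * gi (n + t) - Real.cos (2 * Real.pi * t) * gi (n + (1/2 - t)) -
        Real.cos (2 * Real.pi * t) * gi (n + (1/2 + t)) + Real.cos (2 * Real.pi * t) * gi (n + (1 - t)) := by intro t; ring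
    simp_rw [e]
    rw [intervalIntegral.integral_add ((j1.sub j2).sub j3) j4, intervalIntegral.integral_sub (j1.sub j2) j3,
      intervalIntegral.integral_sub j1 j2]
    ring
  have e2 : 0 ≤ ∫ t in (0:ℝ)..1, Real.cos (2 * Real.pi * t) * gi (n + t) := by
    rw [e1]
    apply intervalIntegral.integral_nonneg (by norm_num)
    intro t ht
    have h1 := gi_four hn' ht.1 ht.2
    have h2 : 0 ≤ Real.cos (2 * Real.pi * t) := by
      apply Real.cos_nonneg_of_mem_Icc
      constructor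
      · have := mul_nonneg (mul_nonneg (by norm_num : (0:ℝ) ≤ 2) Real.pi_pos.le) ht.1
        linarith [Real.pi_pos]
      · have := ht.2
        nlinarith [Real.pi_pos]
    apply mul_nonneg h2; linarith
  rw [e0]
  linarith

lemma js_scale {n : ℕ} (hn : n ≠ 0) : js n = 2 * Real.sqrt n * ∫ τ in (0:ℝ)..1, Real.cos (2 * Real.pi * n * τ) * gi τ := by
  have hn' : (0:ℝ) < n := by exact_mod_cast Nat.pos_of_ne_zero hn
  unfold js
  have h := intervalIntegral.integral_comp_mul_left (a := 0) (b := 1) (fun z => Real.cos (2 * Real.pi * z) * gi z) hn'.ne'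
  rw [mul_zero, mul_one] at h
  have h2 : ∫ z in (0:ℝ)..n, Real.cos (2 * Real.pi * z) * gi z = n * ∫ x in (0:ℝ)..1, Real.cos (2 * Real.pi * (n * x)) * gi (n * x) := by
    rw [h, smul_eq_mul]; field_simp
  have h5 : (n:ℝ) * (∫ x in (0:ℝ)..1, Real.cos (2 * Real.pi * (n * x)) * gi (n * x)) =
      Real.sqrt n * ∫ τ in (0:ℝ)..1, Real.cos (2 * Real.pi * n * τ) * gi τ := by
    rw [← intervalIntegral.integral_const_mul, ← intervalIntegral.integral_const_mul]
    apply intervalIntegral.integral_congr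
    intro x hx
    rw [uIcc_of_le zero_le_one] at hx
    simp only
    have h3 : gi (n * x) = (Real.sqrt n)⁻¹ * gi x := by
      unfold gi
      rw [Real.mul_rpow hn'.le hx.1, Real.sqrt_eq_rpow, ← Real.rpow_neg hn'.le]
    rw [h3]
    have h4 : (n:ℝ) * (Real.sqrt n)⁻¹ = Real.sqrt n := by
      have := Real.mul_self_sqrt hn'.le
      have h5 : 0 < Real.sqrt n := Real.sqrt_pos.2 hn'
      field_simp
      rw [sq, this]
    have h6 : Real.cos (2 * Real.pi * (n * x)) = Real.cos (2 * Real.pi * n * x) := by congr 1; ring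
    rw [h6]
    calc (n:ℝ) * (Real.cos (2 * Real.pi * n * x) * ((Real.sqrt n)⁻¹ * gi x)) = ((n:ℝ) * (Real.sqrt n)⁻¹) * (Real.cos (2 * Real.pi * n * x) * gi x) := by ring
      _ = _ := by rw [h4]
  rw [h2, h5]; ring

lemma gi_int {l : ℝ} (hl : 0 ≤ l) : ∫ τ in (0:ℝ)..l, gi τ = 2 * Real.sqrt l := by
  unfold gi
  rw [integral_rpow (Or.inl (by norm_num))]
  norm_num
  rw [Real.sqrt_eq_rpow]; ring

/-- comparison of the kernel with the inverse square root -/
lemma ek0_le_gi (v : ℕ) {τ : ℝ} (h0 : 0 < τ) (h1 : τ ≤ 1) : ek 0 v τ ≤ gi τ := by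
  unfold ek
  rw [KK_zero, sub_zero, gi_eq_exp h0]
  apply Real.exp_le_exp.2
  have := KK_le_log v h0.ne' (by rw [abs_of_pos h0]; exact h1)
  rw [abs_of_pos h0, one_div, Real.log_inv] at this
  linarith

lemma ek0_eq_gi {v : ℕ} (hv : v ≠ 0) {τ : ℝ} (h0 : 0 < τ) (h1 : τ ≤ 1) (h2 : ell v ≤ τ) : ek 0 v τ = gi τ := by
  unfold ek
  rw [KK_zero, sub_zero, gi_eq_exp h0]
  congr 1
  have := KK_eq_log hv (τ := τ) (by rw [abs_of_pos h0]; exact h1) (by rw [abs_of_pos h0]; exact h2)
  rw [this, abs_of_pos h0, one_div, Real.log_inv]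
  ring

lemma J_err3 {n v : ℕ} (hv : v ≠ 0) :
    |(∫ τ in (0:ℝ)..1, Real.cos (2 * Real.pi * n * τ) * ek 0 v τ) - ∫ τ in (0:ℝ)..1, Real.cos (2 * Real.pi * n * τ) * gi τ| ≤
      2 * Real.sqrt (ell v) := by
  have hl := ell_pos v
  have hl1 := ell_le_one hv
  have i1 : IntervalIntegrable (fun τ => Real.cos (2 * Real.pi * n * τ) * ek 0 v τ) volume 0 1 :=
    Continuous.intervalIntegrable (by have := ek_cont 0 v; fun_prop) _ _
  rw [← intervalIntegral.integral_sub i1 (cosgi_ii _ _ _)]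
  have e : ∀ a b : ℝ, IntervalIntegrable (fun τ => Real.cos (2 * Real.pi * n * τ) * ek 0 v τ - Real.cos (2 * Real.pi * n * τ) * gi τ) volume a b :=
    fun a b => (Continuous.intervalIntegrable (by have := ek_cont 0 v; fun_prop) _ _).sub (cosgi_ii _ _ _)
  rw [← intervalIntegral.integral_add_adjacent_intervals (e 0 (ell v)) (e (ell v) 1)]
  have h2 : ∫ τ in (ell v)..1, (Real.cos (2 * Real.pi * n * τ) * ek 0 v τ - Real.cos (2 * Real.pi * n * τ) * gi τ) = 0 := by
    rw [intervalIntegral.integral_congr (g := fun _ => (0:ℝ))]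
    · simp
    · intro u hu
      rw [uIcc_of_le hl1] at hu
      simp only
      rw [ek0_eq_gi hv (hl.trans_le hu.1) hu.2 hu.1]; ring
  rw [h2, add_zero, ← gi_int hl.le, ← Real.norm_eq_abs]
  apply intervalIntegral.norm_integral_le_of_norm_le hl.le
  · refine Eventually.of_forall fun τ hτ => ?_
    have h3 := ek0_le_gi v hτ.1 (hτ.2.trans hl1)
    have h4 := ek_pos 0 v τ
    rw [Real.norm_eq_abs, ← mul_sub, abs_mul]
    have h5 := Real.abs_cos_le_one (2 * Real.pi * n * τ)
    have h6 : |ek 0 v τ - gi τ| ≤ gi τ := by rw [abs_le]; constructor <;> linarith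
    have := mul_le_mul h5 h6 (abs_nonneg _) (by norm_num : (0:ℝ) ≤ 1)
    linarith
  · exact gi_ii _ _

lemma J_err2 {n p : ℕ} (hn : n ≠ 0) : |∫ τ in (0:ℝ)..1, Real.cos (2 * Real.pi * n * τ) * ek 0 p τ| ≤ Real.exp ((p:ℝ)/2) / (2 * n) := by
  have := osc_one hn 0 (κ := ek 0 p) (b := 1) zero_le_one (by
    intro s hs t ht hst
    exact ek_anti (Nat.zero_le _) (by rw [abs_of_nonneg hs.1, abs_of_nonneg ht.1]; exact hst)) (fun x _ => (ek_pos _ _ _).le)
  simpa [ek_zero] using this

lemma J_err1 {n q p v : ℕ} (hp : p ≠ 0) (hq : q ≠ 0) (hqp : q ≤ p) (hpv : p ≤ v) :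
    |Real.exp ((q:ℝ)/2) * (∫ τ in (0:ℝ)..1, Real.cos (2 * Real.pi * n * τ) * dk q p v τ) -
      ∫ τ in (0:ℝ)..1, Real.cos (2 * Real.pi * n * τ) * (ek 0 v τ - ek 0 p τ)| ≤ 2 * Real.sqrt (ell p) * Real.exp (-((p:ℝ)-q)) := by
  have hl := ell_pos p
  have hl1 := ell_le_one hp
  rw [← intervalIntegral.integral_const_mul]
  have c1 : Continuous (fun τ => Real.exp ((q:ℝ)/2) * (Real.cos (2 * Real.pi * n * τ) * dk q p v τ)) := by
    have := dk_cont q p v; fun_prop
  have c2 : Continuous (fun τ => Real.cos (2 * Real.pi * n * τ) * (ek 0 v τ - ek 0 p τ)) := by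
    have := ek_cont 0 v; have := ek_cont 0 p; fun_prop
  rw [← intervalIntegral.integral_sub (c1.intervalIntegrable _ _) (c2.intervalIntegrable _ _)]
  have c3 : Continuous (fun τ => Real.exp ((q:ℝ)/2) * (Real.cos (2 * Real.pi * n * τ) * dk q p v τ) - Real.cos (2 * Real.pi * n * τ) * (ek 0 v τ - ek 0 p τ)) := c1.sub c2
  rw [← intervalIntegral.integral_add_adjacent_intervals (a := 0) (b := ell p) (c := 1) (c3.intervalIntegrable _ _) (c3.intervalIntegrable _ _)]
  have hid : ∀ τ : ℝ, Real.exp ((q:ℝ)/2) * dk q p v τ = Real.exp (((q:ℝ) - KK q τ)/2) * (ek 0 v τ - ek 0 p τ) := by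
    intro τ
    unfold dk ek
    rw [mul_sub, mul_sub, ← Real.exp_add, ← Real.exp_add, ← Real.exp_add, ← Real.exp_add, KK_zero]
    congr 2 <;> ring
  have h2 : ∫ τ in (ell p)..1, (Real.exp ((q:ℝ)/2) * (Real.cos (2 * Real.pi * n * τ) * dk q p v τ) - Real.cos (2 * Real.pi * n * τ) * (ek 0 v τ - ek 0 p τ)) = 0 := by
    rw [intervalIntegral.integral_congr (g := fun _ => (0:ℝ))]
    · simp
    · intro u hu
      rw [uIcc_of_le hl1] at hu
      have hu0 : 0 ≤ u := hl.le.trans hu.1
      simp only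
      have h3 := dk_eq_zero (o := q) hpv (τ := u) (by rw [abs_of_nonneg hu0]; exact hu.2) (by rw [abs_of_nonneg hu0]; exact hu.1)
      have h4 := dk_eq_zero (o := 0) hpv (τ := u) (by rw [abs_of_nonneg hu0]; exact hu.2) (by rw [abs_of_nonneg hu0]; exact hu.1)
      have h5 : ek 0 v u - ek 0 p u = 0 := h4
      rw [h3, h5]; ring
  rw [h2, add_zero, mul_comm (2 * Real.sqrt (ell p)), ← gi_int hl.le, ← intervalIntegral.integral_const_mul, ← Real.norm_eq_abs]
  apply intervalIntegral.norm_integral_le_of_norm_le hl.le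
  · refine Eventually.of_forall fun τ hτ => ?_
    have hτ1 := hτ.2.trans hl1
    have e1 : Real.exp ((q:ℝ)/2) * (Real.cos (2 * Real.pi * n * τ) * dk q p v τ) - Real.cos (2 * Real.pi * n * τ) * (ek 0 v τ - ek 0 p τ) =
        Real.cos (2 * Real.pi * n * τ) * ((Real.exp (((q:ℝ) - KK q τ)/2) - 1) * (ek 0 v τ - ek 0 p τ)) := by
      have := hid τ
      calc _ = Real.cos (2 * Real.pi * n * τ) * (Real.exp ((q:ℝ)/2) * dk q p v τ) - Real.cos (2 * Real.pi * n * τ) * (ek 0 v τ - ek 0 p τ) := by ring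
        _ = _ := by rw [this]; ring
    rw [e1, Real.norm_eq_abs, abs_mul, abs_mul]
    have hlq : ell p ≤ ell q := by
      unfold ell; apply Real.exp_le_exp.2
      have : (q:ℝ) ≤ p := by exact_mod_cast hqp
      linarith
    have hKq := KK_small hq (τ := τ) (by rw [abs_of_pos hτ.1]; exact hτ.2.trans hlq)
    rw [abs_of_pos hτ.1] at hKq
    have hx : ((q:ℝ) - KK q τ)/2 = τ * Real.exp ((q:ℝ)-1) / 2 := by rw [hKq]; ring
    set x := τ * Real.exp ((q:ℝ)-1) with hxdef
    have hx0 : 0 ≤ x := mul_nonneg hτ.1.le (Real.exp_pos _).le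
    have hxb : x ≤ Real.exp (-((p:ℝ)-q)) := by
      have : Real.exp (-((p:ℝ)-q)) = ell p * Real.exp ((q:ℝ)-1) := by
        unfold ell; rw [← Real.exp_add]; congr 1; ring
      rw [this, hxdef]
      exact mul_le_mul_of_nonneg_right hτ.2 (Real.exp_pos _).le
    have hx1 : x ≤ 1 := by
      refine hxb.trans ?_
      rw [Real.exp_le_one_iff]
      have : (q:ℝ) ≤ p := by exact_mod_cast hqp
      linarith
    have hexp : |Real.exp (((q:ℝ) - KK q τ)/2) - 1| ≤ x := by
      rw [hx]
      have h7 : 1 ≤ Real.exp (x/2) := Real.one_le_exp (by linarith)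
      rw [abs_of_nonneg (by linarith)]
      have h8 := Real.abs_exp_sub_one_le (x := x/2) (by rw [abs_of_nonneg (by linarith)]; linarith)
      rw [abs_of_nonneg (by linarith), abs_of_nonneg (by linarith)] at h8
      linarith
    have h9 : |ek 0 v τ - ek 0 p τ| ≤ gi τ := by
      have a1 := ek0_le_gi v hτ.1 hτ1
      have a2 := ek_pos 0 p τ
      have a3 := dk_nonneg (o := 0) hpv (τ := τ) (by rw [abs_of_pos hτ.1]; exact hτ1)
      have a4 : 0 ≤ ek 0 v τ - ek 0 p τ := a3
      rw [abs_of_nonneg a4]; linarith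
    have h10 := Real.abs_cos_le_one (2 * Real.pi * n * τ)
    have h11 : |Real.exp (((q:ℝ) - KK q τ)/2) - 1| * |ek 0 v τ - ek 0 p τ| ≤ Real.exp (-((p:ℝ)-q)) * gi τ :=
      mul_le_mul (hexp.trans hxb) h9 (abs_nonneg _) (Real.exp_pos _).le
    have h12 := mul_le_mul h10 h11 (mul_nonneg (abs_nonneg _) (abs_nonneg _)) (by norm_num : (0:ℝ) ≤ 1)
    linarith
  · exact (gi_ii _ _).const_mul _

/-- error in the oscillating mass -/
def JE (n q p v : ℕ) : ℝ := 4 * Real.sqrt n * Real.sqrt (ell p) * Real.exp (-((p:ℝ)-q)) + Real.exp ((p:ℝ)/2) / Real.sqrt n +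
  4 * Real.sqrt n * Real.sqrt (ell v)

theorem JJ_asymp {n q p v : ℕ} (hn : n ≠ 0) (hq : q ≠ 0) (hqp : q ≤ p) (hpv : p ≤ v) :
    |Real.sqrt n * Real.exp ((q:ℝ)/2) * JJ n q p v - js n| ≤ JE n q p v := by
  have hn' : (0:ℝ) < n := by exact_mod_cast Nat.pos_of_ne_zero hn
  have hs : 0 < Real.sqrt n := Real.sqrt_pos.2 hn'
  have hp : p ≠ 0 := by omega
  have hv : v ≠ 0 := by omega
  have e1 := J_err1 (n := n) hp hq hqp hpv
  have e2 := J_err2 (p := p) hn
  have e3 := J_err3 (n := n) hv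
  rw [js_scale hn]
  unfold JJ
  set A := ∫ τ in (0:ℝ)..1, Real.cos (2 * Real.pi * n * τ) * dk q p v τ
  have i1 : IntervalIntegrable (fun τ => Real.cos (2 * Real.pi * n * τ) * ek 0 v τ) volume 0 1 :=
    Continuous.intervalIntegrable (by have := ek_cont 0 v; fun_prop) _ _
  have i2 : IntervalIntegrable (fun τ => Real.cos (2 * Real.pi * n * τ) * ek 0 p τ) volume 0 1 :=
    Continuous.intervalIntegrable (by have := ek_cont 0 p; fun_prop) _ _
  have e4 : ∫ τ in (0:ℝ)..1, Real.cos (2 * Real.pi * n * τ) * (ek 0 v τ - ek 0 p τ) =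
      (∫ τ in (0:ℝ)..1, Real.cos (2 * Real.pi * n * τ) * ek 0 v τ) - ∫ τ in (0:ℝ)..1, Real.cos (2 * Real.pi * n * τ) * ek 0 p τ := by
    rw [← intervalIntegral.integral_sub i1 i2]
    congr 1; ext τ; ring
  rw [e4] at e1
  set B := ∫ τ in (0:ℝ)..1, Real.cos (2 * Real.pi * n * τ) * ek 0 v τ
  set C := ∫ τ in (0:ℝ)..1, Real.cos (2 * Real.pi * n * τ) * ek 0 p τ
  set D := ∫ τ in (0:ℝ)..1, Real.cos (2 * Real.pi * n * τ) * gi τ
  have e5 : Real.sqrt n * Real.exp ((q:ℝ)/2) * (2 * A) - 2 * Real.sqrt n * D =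
      (2 * Real.sqrt n) * ((Real.exp ((q:ℝ)/2) * A - (B - C)) - C + (B - D)) := by ring
  rw [e5, abs_mul, abs_of_pos (by positivity)]
  have e6 : |(Real.exp ((q:ℝ)/2) * A - (B - C)) - C + (B - D)| ≤ 2 * Real.sqrt (ell p) * Real.exp (-((p:ℝ)-q)) +
      Real.exp ((p:ℝ)/2) / (2 * n) + 2 * Real.sqrt (ell v) := by
    refine (abs_add_le _ _).trans ?_
    have := abs_sub (Real.exp ((q:ℝ)/2) * A - (B - C)) C
    linarith
  refine (mul_le_mul_of_nonneg_left e6 (by positivity)).trans (le_of_eq ?_)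
  unfold JE
  have e7 : 2 * Real.sqrt n * (Real.exp ((p:ℝ)/2) / (2 * n)) = Real.exp ((p:ℝ)/2) / Real.sqrt n := by
    have h1 := Real.mul_self_sqrt hn'.le
    have h2 : ∀ s E : ℝ, 0 < s → 2 * s * (E / (2 * (s * s))) = E / s := by intro s E hs; field_simp
    have h3 := h2 (Real.sqrt n) (Real.exp ((p:ℝ)/2)) hs
    rw [h1] at h3
    exact h3
  calc _ = 4 * Real.sqrt n * Real.sqrt (ell p) * Real.exp (-((p:ℝ)-q)) + 2 * Real.sqrt n * (Real.exp ((p:ℝ)/2) / (2 * n)) +
      4 * Real.sqrt n * Real.sqrt (ell v) := by ring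
    _ = _ := by rw [e7]

/-- the limit exists and is positive -/
theorem js_limit : ∃ J : ℝ, 0 < J ∧ Tendsto js atTop (𝓝 J) := by
  have hmono : Monotone (fun n : ℕ => js (n+1)) := monotone_nat_of_le_succ fun n => js_mono_step (n+1) (by omega)
  have hbd : ∀ n : ℕ, js (n+1) ≤ js 1 + 1 := by
    intro n
    unfold js
    rw [← intervalIntegral.integral_add_adjacent_intervals (a := 0) (b := ((1:ℕ):ℝ)) (c := ((n+1:ℕ):ℝ)) (cosgi_ii _ _ _) (cosgi_ii _ _ _)]
    have e0 : ∫ z in ((1:ℕ):ℝ)..((n+1:ℕ):ℝ), Real.cos (2 * Real.pi * z) * gi z = ∫ t in (0:ℝ)..n, Real.cos (2 * Real.pi * (1:ℕ) * t + 0) * gi (1 + t) := by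
      have h := intervalIntegral.integral_comp_add_left (a := 0) (b := (n:ℝ)) (fun z => Real.cos (2 * Real.pi * z) * gi z) (1:ℝ)
      rw [add_zero] at h
      push_cast
      rw [add_comm (n:ℝ) 1, ← h]
      congr 1; ext t
      have : 2 * Real.pi * (1 + t) = 2 * Real.pi * t + 2 * Real.pi := by ring
      rw [this, Real.cos_add_two_pi, mul_one, add_zero]
    have h1 := osc_one (n := 1) one_ne_zero 0 (κ := fun t => gi (1 + t)) (b := (n:ℝ)) (by positivity)
      (by
        intro s hs t ht hst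
        exact gi_anti (by linarith [hs.1]) (by linarith)) (fun x hx => gi_nonneg (by linarith [hx.1]))
    rw [e0]
    have h2 : gi (1 + 0) = 1 := by unfold gi; simp
    simp only [h2] at h1
    have := (abs_le.1 h1).2
    norm_num at this ⊢
    linarith
  have hpos : 0 < js 1 := by
    unfold js
    rw [← intervalIntegral.integral_add_adjacent_intervals (a := 0) (b := (1/4:ℝ)) (c := ((1:ℕ):ℝ)) (cosgi_ii _ _ _) (cosgi_ii _ _ _),
      ← intervalIntegral.integral_add_adjacent_intervals (a := (1/4:ℝ)) (b := (3/4:ℝ)) (c := ((1:ℕ):ℝ)) (cosgi_ii _ _ _) (cosgi_ii _ _ _)]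
    have b1 : 1 - Real.pi^2/40 ≤ ∫ z in (0:ℝ)..(1/4), Real.cos (2 * Real.pi * z) * gi z := by
      have h1 : ∫ z in (0:ℝ)..(1/4), (gi z - 2 * Real.pi^2 * z^(3/2:ℝ)) ≤ ∫ z in (0:ℝ)..(1/4), Real.cos (2 * Real.pi * z) * gi z := by
        apply intervalIntegral.integral_mono_on_of_le_Ioo (by norm_num)
        · exact (gi_ii _ _).sub ((intervalIntegral.intervalIntegrable_rpow' (by norm_num)).const_mul _)
        · exact cosgi_ii _ _ _
        · intro z hz
          have h2 := Real.one_sub_sq_div_two_le_cos (x := 2 * Real.pi * z)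
          have h3 := gi_nonneg hz.1.le
          have h4 : z^(3/2:ℝ) = z^2 * gi z := by
            unfold gi
            rw [← Real.rpow_natCast z 2, ← Real.rpow_add hz.1]; norm_num
          rw [h4]
          have h5 := mul_le_mul_of_nonneg_right h2 h3
          refine le_trans (le_of_eq ?_) h5
          ring
      refine le_trans (le_of_eq ?_) h1
      rw [intervalIntegral.integral_sub (gi_ii _ _) ((intervalIntegral.intervalIntegrable_rpow' (by norm_num)).const_mul _),
        intervalIntegral.integral_const_mul, gi_int (by norm_num), integral_rpow (Or.inl (by norm_num))]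
      have s1 : Real.sqrt (1/4) = 1/2 := by
        rw [show (1/4:ℝ) = (1/2)^2 by norm_num, Real.sqrt_sq (by norm_num)]
      have s2 : (1/4:ℝ)^((3/2:ℝ)+1) = 1/32 := by
        rw [show (1/4:ℝ) = (1/2)^(2:ℝ) by norm_num, ← Real.rpow_mul (by norm_num)]
        norm_num
      rw [s1, s2, Real.zero_rpow (by norm_num)]
      ring
    have b2 : -(2/Real.pi) ≤ ∫ z in (1/4:ℝ)..(3/4), Real.cos (2 * Real.pi * z) * gi z := by
      have h1 : ∫ z in (1/4:ℝ)..(3/4), Real.cos (2 * Real.pi * z) * 2 ≤ ∫ z in (1/4:ℝ)..(3/4), Real.cos (2 * Real.pi * z) * gi z := by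
        apply intervalIntegral.integral_mono_on (by norm_num) (Continuous.intervalIntegrable (by fun_prop) _ _) (cosgi_ii _ _ _)
        intro z hz
        have h2 : Real.cos (2 * Real.pi * z) ≤ 0 := by
          apply Real.cos_nonpos_of_pi_div_two_le_of_le
          · nlinarith [hz.1, Real.pi_pos]
          · nlinarith [hz.2, Real.pi_pos]
        have h3 : gi z ≤ 2 := by
          have h4 := gi_anti (x := 1/4) (y := z) (by norm_num) hz.1
          have h5 : gi (1/4) = 2 := by
            unfold gi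
            rw [show (1/4:ℝ) = (1/2)^(2:ℝ) by norm_num, ← Real.rpow_mul (by norm_num)]
            norm_num
          linarith
        nlinarith
      refine le_trans (le_of_eq ?_) h1
      rw [intervalIntegral.integral_mul_const]
      have h6 : ∫ z in (1/4:ℝ)..(3/4), Real.cos (2 * Real.pi * z) = -(1/Real.pi) := by
        have h7 := intervalIntegral.integral_comp_mul_left (a := 1/4) (b := 3/4) (fun z => Real.cos z) (c := 2 * Real.pi) (by positivity)
        rw [h7, integral_cos]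
        have e1 : 2 * Real.pi * (3/4) = 3 * Real.pi / 2 := by ring
        have e2 : 2 * Real.pi * (1/4) = Real.pi / 2 := by ring
        have e3 : Real.sin (3 * Real.pi / 2) = -1 := by
          have : 3 * Real.pi / 2 = Real.pi / 2 + Real.pi := by ring
          rw [this, Real.sin_add_pi, Real.sin_pi_div_two]
        rw [e1, e2, e3, Real.sin_pi_div_two, smul_eq_mul]
        field_simp
        ring
      rw [h6]; ring
    have b3 : 0 ≤ ∫ z in (3/4:ℝ)..((1:ℕ):ℝ), Real.cos (2 * Real.pi * z) * gi z := by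
      apply intervalIntegral.integral_nonneg (by norm_num)
      intro z hz
      have hz2 : z ≤ 1 := by have := hz.2; simpa using this
      apply mul_nonneg _ (gi_nonneg (by linarith [hz.1]))
      have : Real.cos (2 * Real.pi * z) = Real.cos (2 * Real.pi * z - 2 * Real.pi) := (Real.cos_sub_two_pi _).symm
      rw [this]
      apply Real.cos_nonneg_of_mem_Icc
      constructor
      · nlinarith [hz.1, Real.pi_pos]
      · nlinarith [Real.pi_pos]
    have p1 : Real.pi < 3.15 := Real.pi_lt_d2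
    have p2 : 3.14 < Real.pi := Real.pi_gt_d2
    have b4 : 2/Real.pi < 0.64 := by
      rw [div_lt_iff₀ Real.pi_pos]; linarith
    have b5 : Real.pi^2/40 < 0.25 := by nlinarith
    linarith
  have hba : BddAbove (range (fun n : ℕ => js (n+1))) := ⟨js 1 + 1, by rintro _ ⟨n, rfl⟩; exact hbd n⟩
  refine ⟨⨆ n : ℕ, js (n+1), lt_of_lt_of_le hpos (le_ciSup hba 0), ?_⟩
  exact (tendsto_add_atTop_iff_nat 1).1 (tendsto_atTop_ciSup hmono hba)

end

end Pool.Agent.H968
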