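import Mathlib
import Pool.Agent.H968.Mom

open MeasureTheory ProbabilityTheory Filter Topology Set
open scoped ENNReal NNReal

namespace Pool.Agent.H968

noncomputable section

theorem exists_L1_limit {W : ℕ → Om → ℝ} (hW : ∀ j, Measurable (W j)) (h01 : ∀ j ω, W j ω ∈ Icc (0:ℝ) 1)
    (hC : ∀ ε : ℝ, 0 < ε → ∃ J : ℕ, ∀ j k, J ≤ j → J ≤ k → ∫ ω, |W j ω - W k ω| ∂PP ≤ ε) :
    ∃ Ξ : Om → ℝ, Measurable Ξ ∧ (∀ ω, Ξ ω ∈ Icc (0:ℝ) 1) ∧ TendstoInMeasure PP W atTop Ξ := by
  have hM : ∀ j, MemLp (W j) 1 PP := fun j => by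
    refine MemLp.of_bound (hW j).aestronglyMeasurable 1 (Eventually.of_forall fun ω => ?_)
    rw [Real.norm_eq_abs, abs_of_nonneg (h01 j ω).1]; exact (h01 j ω).2
  have hcau : CauchySeq (fun j => (hM j).toLp (W j)) := by
    rw [Metric.cauchySeq_iff]
    intro ε hε
    obtain ⟨J, hJ⟩ := hC (ε/2) (by linarith)
    refine ⟨J, fun m hm n hn => ?_⟩
    have h1 := hJ m n hm hn
    rw [Lp.dist_def, eLpNorm_congr_ae (((hM m).coeFn_toLp).sub ((hM n).coeFn_toLp)), eLpNorm_one_eq_lintegral_enorm]
    have h2 : ∫⁻ ω, ‖(W m - W n) ω‖ₑ ∂PP = ENNReal.ofReal (∫ ω, |W m ω - W n ω| ∂PP) := by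
      rw [ofReal_integral_eq_lintegral_ofReal]
      · congr 1; ext ω
        rw [Pi.sub_apply, Real.enorm_eq_ofReal_abs]
      · refine Integrable.of_bound (C := 1) ((hW m).sub (hW n)).abs.aestronglyMeasurable (Eventually.of_forall fun ω => ?_)
        rw [Real.norm_eq_abs, abs_abs, abs_le]
        have := h01 m ω; have := h01 n ω
        constructor <;> linarith [(h01 m ω).1, (h01 m ω).2, (h01 n ω).1, (h01 n ω).2]
      · exact Eventually.of_forall fun ω => abs_nonneg _
    rw [h2, ENNReal.toReal_ofReal (integral_nonneg fun ω => abs_nonneg _)]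
    linarith
  obtain ⟨g, hg⟩ := cauchySeq_tendsto_of_complete hcau
  have h3 : Tendsto (fun n => eLpNorm (W n - ⇑g) 1 PP) atTop (𝓝 0) := by
    have h4 : g = (Lp.memLp g).toLp g := (Lp.toLp_coeFn g (Lp.memLp g)).symm
    rw [h4] at hg
    exact (Lp.tendsto_Lp_iff_tendsto_eLpNorm'' W hM g (Lp.memLp g)).1 hg
  have hgm : AEStronglyMeasurable (⇑g) PP := (Lp.memLp g).1
  have h5 : TendstoInMeasure PP W atTop (⇑g) :=
    tendstoInMeasure_of_tendsto_eLpNorm one_ne_zero (fun j => (hW j).aestronglyMeasurable) hgm h3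
  obtain ⟨ns, _, hns⟩ := h5.exists_seq_tendsto_ae
  have h6 : ∀ᵐ ω ∂PP, g ω ∈ Icc (0:ℝ) 1 := hns.mono fun ω hω =>
    isClosed_Icc.mem_of_tendsto hω (Eventually.of_forall fun i => h01 _ ω)
  have hgm' : AEMeasurable (⇑g) PP := hgm.aemeasurable
  refine ⟨fun ω => max 0 (min 1 (hgm'.mk _ ω)), ?_, ?_, ?_⟩
  · exact measurable_const.max (measurable_const.min hgm'.measurable_mk)
  · intro ω
    exact ⟨le_max_left _ _, max_le (by norm_num) (min_le_left _ _)⟩
  · refine h5.congr_right ?_
    filter_upwards [h6, hgm'.ae_eq_mk] with ω h7 h8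
    rw [← h8, min_eq_right h7.2, max_eq_right h7.1]

lemma conv_of_inMeasure {W : ℕ → Om → ℝ} (hW : ∀ j, Measurable (W j)) {Ξ : Om → ℝ}
    (h : TendstoInMeasure PP W atTop Ξ) {f : ℝ → ℝ} (hf : Continuous f) {K : ℝ} (hK : ∀ y, |f y| ≤ K) :
    Tendsto (fun j => ∫ ω, f (W j ω) ∂PP) atTop (𝓝 (∫ ω, f (Ξ ω) ∂PP)) := by
  refine tendsto_of_subseq_tendsto fun ns hns => ?_
  obtain ⟨ms, _, hms⟩ := (show TendstoInMeasure PP (fun j => W (ns j)) atTop Ξ from fun ε hε => (h ε hε).comp hns).exists_seq_tendsto_ae
  refine ⟨ms, ?_⟩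
  apply tendsto_integral_of_dominated_convergence (fun _ => K)
  · intro n; exact (hf.measurable.comp (hW _)).aestronglyMeasurable
  · exact integrable_const _
  · intro n; exact Eventually.of_forall fun ω => hK _
  · exact hms.mono fun ω hω => (hf.tendsto _).comp hω

/-- total critical mass at level `k` -/
def MM (k : ℕ) (ω : Om) : ℝ := ∫ x, ww k x ω ∂lam

lemma MM_meas (k : ℕ) : Measurable (MM k) := int_param_meas (ww_meas k)

lemma MM_nonneg (k : ℕ) (ω : Om) : 0 ≤ MM k ω := integral_nonneg fun x => (ww_pos k x ω).le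

lemma NN_eq_of_good {β : ℝ} {k : ℕ} {ω : Om} (h : ω ∈ GG β k) : NN β k ω = Real.sqrt k * MM k ω := by
  unfold NN MM
  rw [← integral_const_mul]
  apply integral_congr_ae
  filter_upwards [GG_ae h] with x hx
  unfold aa; rw [hx, mul_one]

/-- the exponential functional -/
def WW (k : ℕ) (ω : Om) : ℝ := Real.exp (-(Real.sqrt k * MM k ω))

lemma WW_meas (k : ℕ) : Measurable (WW k) := Real.measurable_exp.comp (((MM_meas k).const_mul _).neg)

lemma WW_pos (k : ℕ) (ω : Om) : 0 < WW k ω := Real.exp_pos _

lemma WW_le_one (k : ℕ) (ω : Om) : WW k ω ≤ 1 := by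
  unfold WW; rw [Real.exp_le_one_iff]
  have := MM_nonneg k ω
  have := Real.sqrt_nonneg (k:ℝ)
  have : 0 ≤ Real.sqrt k * MM k ω := by positivity
  linarith

lemma exp_neg_lip {x y : ℝ} (hx : 0 ≤ x) (hy : 0 ≤ y) : |Real.exp (-x) - Real.exp (-y)| ≤ |x - y| := by
  wlog h : x ≤ y generalizing x y
  · rw [abs_sub_comm, abs_sub_comm x]; exact this hy hx (le_of_not_ge h)
  rw [abs_of_nonneg (by have := Real.exp_le_exp.2 (show -y ≤ -x by linarith); linarith), abs_of_nonpos (by linarith)]
  have h1 : Real.exp (-y) = Real.exp (-x) * Real.exp (x - y) := by rw [← Real.exp_add]; congr 1; ring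
  have h2 := Real.add_one_le_exp (x - y)
  have h3 : Real.exp (-x) ≤ 1 := by rw [Real.exp_le_one_iff]; linarith
  have h4 := Real.exp_pos (-x)
  rw [h1]
  have h5 : Real.exp (-x) * (1 - Real.exp (x - y)) ≤ 1 * (y - x) := by
    apply mul_le_mul h3 (by linarith) _ (by norm_num)
    have : Real.exp (x - y) ≤ 1 := by rw [Real.exp_le_one_iff]; linarith
    linarith
  linarith

lemma sq_integrable_NN {β : ℝ} (hβ : 0 ≤ β) (j k : ℕ) : Integrable (fun ω => (NN β j ω - NN β k ω)^2) PP := by
  refine Integrable.of_bound (C := (Real.sqrt j * Real.exp (s2 * β + j) + Real.sqrt k * Real.exp (s2 * β + k))^2)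
    (((NN_meas β j).sub (NN_meas β k)).pow_const 2).aestronglyMeasurable (Eventually.of_forall fun ω => ?_)
  rw [Real.norm_eq_abs, abs_pow]
  gcongr
  exact (abs_sub _ _).trans (add_le_add (NN_bdd hβ j ω) (NN_bdd hβ k ω))

lemma WW_diff {β : ℝ} (hβ : 0 ≤ β) {ε : ℝ} (hε : 0 < ε) (j k : ℕ) :
    ∫ ω, |WW j ω - WW k ω| ∂PP ≤ ε + (1/(4*ε)) * ∫ ω, (NN β j ω - NN β k ω)^2 ∂PP + dl β := by
  set n := max j k with hn
  have hI := sq_integrable_NN hβ j k
  have hG : Integrable (fun ω => ((GG β n)ᶜ).indicator (fun _ => (1:ℝ)) ω) PP :=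
    (integrable_const (1:ℝ)).indicator (GG_meas β n).compl
  have h1 : ∀ ω, |WW j ω - WW k ω| ≤ ε + (1/(4*ε)) * (NN β j ω - NN β k ω)^2 + ((GG β n)ᶜ).indicator (fun _ => (1:ℝ)) ω := by
    intro ω
    by_cases h : ω ∈ GG β n
    · rw [Set.indicator_of_notMem (by simpa using h), add_zero]
      have hj := NN_eq_of_good (GG_anti β (le_max_left j k) h)
      have hk := NN_eq_of_good (GG_anti β (le_max_right j k) h)
      unfold WW
      rw [← hj, ← hk]
      refine (exp_neg_lip (NN_nonneg _ _ _) (NN_nonneg _ _ _)).trans ?_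
      rw [← sq_abs (NN β j ω - NN β k ω)]
      set a := |NN β j ω - NN β k ω|
      have : a = 2 * ε * (a / (2 * ε)) := by field_simp
      have h2 : 0 ≤ (1/(4*ε)) * (a - 2*ε)^2 := by positivity
      have h3 : (1/(4*ε)) * (a - 2*ε)^2 = (1/(4*ε)) * a^2 - a + ε := by field_simp; ring
      linarith
    · rw [Set.indicator_of_mem (by simpa using h)]
      have h1 := WW_pos j ω; have h2 := WW_pos k ω
      have h3 := WW_le_one j ω; have h4 := WW_le_one k ω
      have h5 : 0 ≤ (1/(4*ε)) * (NN β j ω - NN β k ω)^2 := by positivity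
      have : |WW j ω - WW k ω| ≤ 1 := by rw [abs_le]; constructor <;> linarith
      linarith
  have hI1 : Integrable (fun ω => ε + (1/(4*ε)) * (NN β j ω - NN β k ω)^2) PP := (integrable_const ε).add (hI.const_mul _)
  have h2 := integral_mono_of_nonneg (μ := PP) (Eventually.of_forall fun ω => abs_nonneg (WW j ω - WW k ω))
    (hI1.add hG) (Eventually.of_forall h1)
  refine h2.trans ?_
  simp only [Pi.add_apply]
  rw [integral_add hI1 hG, integral_add (integrable_const ε) (hI.const_mul _), integral_const_mul, integral_indicator_const _ (GG_meas β n).compl]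
  simp only [integral_const, probReal_univ, smul_eq_mul, mul_one, one_mul]
  have h3 : PP.real (GG β n)ᶜ ≤ dl β := by
    rw [probReal_compl_eq_one_sub (GG_meas β n)]
    have := GG_prob hβ n
    linarith
  linarith

lemma WW_cauchy {ε : ℝ} (hε : 0 < ε) : ∃ J : ℕ, ∀ j k, J ≤ j → J ≤ k → ∫ ω, |WW j ω - WW k ω| ∂PP ≤ ε := by
  obtain ⟨β, hβ0, hβ⟩ := ((eventually_ge_atTop 0).and (dl_tendsto.eventually (gt_mem_nhds (show 0 < ε/3 by linarith)))).exists
  obtain ⟨J, hJ⟩ := NN_cauchy hβ0 (show 0 < 4 * (ε/3) * (ε/3) by positivity)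
  refine ⟨J, fun j k hj hk => ?_⟩
  have h1 := WW_diff hβ0 (show 0 < ε/3 by linarith) j k
  have h2 := hJ j k hj hk
  have h3 : (1/(4*(ε/3))) * ∫ ω, (NN β j ω - NN β k ω)^2 ∂PP ≤ ε/3 := by
    rw [one_div, inv_mul_le_iff₀ (by positivity)]
    linarith
  linarith

lemma NN_sq_bdd {β : ℝ} (hβ : 0 ≤ β) : ∃ K : ℝ, 0 ≤ K ∧ ∃ J : ℕ, ∀ j, J ≤ j → ∫ ω, (NN β j ω)^2 ∂PP ≤ K := by
  obtain ⟨J, hJ⟩ := NN_cauchy hβ one_pos
  refine ⟨2 + 2 * (Real.sqrt J * Real.exp (s2 * β + J))^2, by positivity, J, fun j hj => ?_⟩
  have h1 := hJ j J hj le_rfl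
  have hI := sq_integrable_NN hβ j J
  have h2 := integral_mono_of_nonneg (μ := PP) (Eventually.of_forall fun ω => sq_nonneg (NN β j ω))
    ((hI.const_mul 2).add (integrable_const (2 * (Real.sqrt J * Real.exp (s2 * β + J))^2))) (Eventually.of_forall fun ω => by
      simp only [Pi.add_apply]
      have h3 := NN_bdd hβ J ω
      have h4 : (NN β J ω)^2 ≤ (Real.sqrt J * Real.exp (s2 * β + J))^2 := by
        rw [← sq_abs]; gcongr
      nlinarith [sq_nonneg (NN β j ω - 2 * NN β J ω)])
  simp only [Pi.add_apply] at h2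
  rw [integral_add (hI.const_mul 2) (integrable_const _), integral_const_mul] at h2
  simp at h2
  linarith

/-- Convergence of the normalised critical mass -/
theorem mass_limit : ∃ Λ : Om → ℝ, Measurable Λ ∧ (∀ ω, 0 ≤ Λ ω) ∧ (¬ ∀ᵐ ω ∂PP, Λ ω = 0) ∧
    ∀ s : ℝ, 0 ≤ s → Tendsto (fun j : ℕ => ∫ ω, Real.exp (-(s * (Real.sqrt j * MM j ω))) ∂PP) atTop
      (𝓝 (∫ ω, Real.exp (-(s * Λ ω)) ∂PP)) := by
  obtain ⟨Ξ, hΞm, hΞ01, hΞ⟩ := exists_L1_limit WW_meas (fun j ω => ⟨(WW_pos j ω).le, WW_le_one j ω⟩)
    (fun ε hε => WW_cauchy hε)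
  -- positivity
  have hpos : ∀ᵐ ω ∂PP, 0 < Ξ ω := by
    have h1 : ∀ β : ℝ, 0 ≤ β → PP.real {ω | Ξ ω = 0} ≤ dl β := by
      intro β hβ
      obtain ⟨K, hK0, J, hJ⟩ := NN_sq_bdd hβ
      have h2 : ∀ A : ℝ, 0 < A → PP.real {ω | Ξ ω = 0} ≤ K/A^2 + dl β := by
        intro A hA
        set f : ℝ → ℝ := fun y => max 0 (1 - Real.exp A * |y|) with hf
        have hfc : Continuous f := by fun_prop
        have hfb : ∀ y, |f y| ≤ 1 := by
          intro y
          simp only [hf]
          rw [abs_of_nonneg (le_max_left _ _)]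
          apply max_le (by norm_num)
          have : 0 ≤ Real.exp A * |y| := by positivity
          linarith
        have hlim := conv_of_inMeasure WW_meas hΞ hfc hfb
        have h3 : ∀ j, J ≤ j → ∫ ω, f (WW j ω) ∂PP ≤ K/A^2 + dl β := by
          intro j hj
          have hI : Integrable (fun ω => (NN β j ω)^2) PP := by
            refine Integrable.of_bound (C := (Real.sqrt j * Real.exp (s2 * β + j))^2)
              ((NN_meas β j).pow_const 2).aestronglyMeasurable (Eventually.of_forall fun ω => ?_)
            rw [Real.norm_eq_abs, abs_pow]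
            gcongr
            exact NN_bdd hβ j ω
          have hG : Integrable (fun ω => ((GG β j)ᶜ).indicator (fun _ => (1:ℝ)) ω) PP :=
            (integrable_const (1:ℝ)).indicator (GG_meas β j).compl
          have h4 : ∀ ω, f (WW j ω) ≤ (1/A^2) * (NN β j ω)^2 + ((GG β j)ᶜ).indicator (fun _ => (1:ℝ)) ω := by
            intro ω
            by_cases h : ω ∈ GG β j
            · rw [Set.indicator_of_notMem (by simpa using h), add_zero]
              have hNN := NN_eq_of_good h
              have hW : WW j ω = Real.exp (-(NN β j ω)) := by unfold WW; rw [hNN]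
              simp only [hf]
              rw [hW, abs_of_pos (Real.exp_pos _), ← Real.exp_add]
              apply max_le (by positivity)
              rcases le_or_gt (NN β j ω) A with h5 | h5
              · have : 1 ≤ Real.exp (A + -NN β j ω) := Real.one_le_exp (by linarith)
                have : 0 ≤ (1/A^2) * (NN β j ω)^2 := by positivity
                linarith
              · have : 1 ≤ (1/A^2) * (NN β j ω)^2 := by
                  rw [one_div, le_inv_mul_iff₀ (by positivity), mul_one]
                  gcongr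
                have := Real.exp_pos (A + -NN β j ω)
                linarith
            · rw [Set.indicator_of_mem (by simpa using h)]
              have : 0 ≤ (1/A^2) * (NN β j ω)^2 := by positivity
              have := (abs_le.1 (hfb (WW j ω))).2
              linarith
          have h5 := integral_mono_of_nonneg (μ := PP) (Eventually.of_forall fun ω => le_max_left 0 (1 - Real.exp A * |WW j ω|))
            ((hI.const_mul (1/A^2)).add hG) (Eventually.of_forall h4)
          simp only [Pi.add_apply] at h5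
          rw [integral_add (hI.const_mul _) hG, integral_const_mul, integral_indicator_const _ (GG_meas β j).compl] at h5
          have h6 : PP.real (GG β j)ᶜ ≤ dl β := by
            rw [probReal_compl_eq_one_sub (GG_meas β j)]
            have := GG_prob hβ j
            linarith
          have h7 : (1/A^2) * ∫ ω, (NN β j ω)^2 ∂PP ≤ K/A^2 := by
            rw [div_mul_eq_mul_div, one_mul]
            gcongr
            exact hJ j hj
          simp only [smul_eq_mul, mul_one] at h5
          linarith
        have h8 : ∫ ω, f (Ξ ω) ∂PP ≤ K/A^2 + dl β :=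
          le_of_tendsto hlim ((eventually_ge_atTop J).mono fun j hj => h3 j hj)
        refine le_trans ?_ h8
        have hms : MeasurableSet {ω | Ξ ω = 0} := measurableSet_eq_fun hΞm measurable_const
        have h9 : ∫ ω, ({ω | Ξ ω = 0}).indicator (fun _ => (1:ℝ)) ω ∂PP ≤ ∫ ω, f (Ξ ω) ∂PP := by
          apply integral_mono ((integrable_const (1:ℝ)).indicator hms)
            (Integrable.of_bound (hfc.measurable.comp hΞm).aestronglyMeasurable 1 (Eventually.of_forall fun ω => hfb _))
          intro ω
          by_cases h : ω ∈ {ω | Ξ ω = 0}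
          · rw [Set.indicator_of_mem h]
            have : Ξ ω = 0 := h
            simp [hf, this]
          · rw [Set.indicator_of_notMem h]; exact le_max_left _ _
        rw [integral_indicator_const _ hms] at h9
        simpa using h9
      have h3 : Tendsto (fun A : ℝ => K/A^2 + dl β) atTop (𝓝 (0 + dl β)) := by
        apply Tendsto.add_const
        exact tendsto_const_nhds.div_atTop (tendsto_pow_atTop (by norm_num))
      rw [zero_add] at h3
      exact ge_of_tendsto h3 ((eventually_gt_atTop 0).mono h2)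
    have h2 : PP.real {ω | Ξ ω = 0} ≤ 0 := ge_of_tendsto dl_tendsto ((eventually_ge_atTop 0).mono h1)
    have h3 : PP.real {ω | Ξ ω = 0} = 0 := le_antisymm h2 measureReal_nonneg
    have h4 : PP {ω | Ξ ω = 0} = 0 := by
      rw [Measure.real, ENNReal.toReal_eq_zero_iff] at h3
      rcases h3 with h | h
      · exact h
      · exact absurd h (measure_ne_top _ _)
    have h5 : ∀ᵐ ω ∂PP, ¬ (Ξ ω = 0) := by
      rw [ae_iff]; simpa using h4
    exact h5.mono fun ω hω => lt_of_le_of_ne (hΞ01 ω).1 (Ne.symm hω)
  refine ⟨fun ω => if 0 < Ξ ω then -Real.log (Ξ ω) else 0, ?_, ?_, ?_, ?_⟩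
  · exact Measurable.ite (measurableSet_lt measurable_const hΞm) (Real.measurable_log.comp hΞm).neg measurable_const
  · intro ω
    dsimp only
    split_ifs with h
    · have := Real.log_nonpos h.le (hΞ01 ω).2
      linarith
    · exact le_rfl
  · intro hall
    have hone : ∀ᵐ ω ∂PP, Ξ ω = 1 := by
      filter_upwards [hall, hpos] with ω h1 h2
      simp only [h2, if_true] at h1
      have h3 : Real.log (Ξ ω) = 0 := by linarith
      have := Real.exp_log h2
      rw [h3, Real.exp_zero] at this
      exact this.symm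
    -- the mean of NN would tend to zero
    obtain ⟨K, hK0, J, hJ⟩ := NN_sq_bdd (β := 1) (by norm_num)
    have hR : 0 < R 1 := by
      have := R_ge (z := 1) (by norm_num)
      have := kap_pos
      linarith
    set f : ℝ → ℝ := fun y => 1 - max 0 (min 1 y) with hf
    have hfc : Continuous f := by fun_prop
    have hfb : ∀ y, |f y| ≤ 1 := by
      intro y
      simp only [hf]
      have h1 : 0 ≤ max 0 (min 1 y) := le_max_left _ _
      have h2 : max 0 (min 1 y) ≤ 1 := max_le (by norm_num) (min_le_left _ _)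
      rw [abs_le]; constructor <;> linarith
    have hlim := conv_of_inMeasure WW_meas hΞ hfc hfb
    have hz : ∫ ω, f (Ξ ω) ∂PP = 0 := by
      have : ∫ ω, f (Ξ ω) ∂PP = ∫ ω, (0:ℝ) ∂PP := integral_congr_ae (hone.mono fun ω hω => by
        simp [hf, hω])
      rw [this]; simp
    rw [hz] at hlim
    have hA : ∀ A : ℝ, 0 < A → R 1 ≤ K / A := by
      intro A hA
      set c := A / (1 - Real.exp (-A)) with hc
      have hexp : Real.exp (-A) < 1 := by
        have := Real.exp_strictMono (show -A < 0 by linarith)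
        rwa [Real.exp_zero] at this
      have hc0 : 0 < c := by rw [hc]; apply div_pos hA; linarith
      have h3 : ∀ j, J ≤ j → ∫ ω, NN 1 j ω ∂PP ≤ c * ∫ ω, f (WW j ω) ∂PP + K/A := by
        intro j hj
        have hI : Integrable (fun ω => (NN 1 j ω)^2) PP := by
          refine Integrable.of_bound (C := (Real.sqrt j * Real.exp (s2 * 1 + j))^2)
            ((NN_meas 1 j).pow_const 2).aestronglyMeasurable (Eventually.of_forall fun ω => ?_)
          rw [Real.norm_eq_abs, abs_pow]
          gcongr
          exact NN_bdd (by norm_num) j ω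
        have hIf : Integrable (fun ω => f (WW j ω)) PP :=
          Integrable.of_bound (hfc.measurable.comp (WW_meas j)).aestronglyMeasurable 1 (Eventually.of_forall fun ω => hfb _)
        have h4 : ∀ᵐ ω ∂PP, NN 1 j ω ≤ c * f (WW j ω) + (1/A) * (NN 1 j ω)^2 := by
          filter_upwards [ww_int_ae j] with ω hωI
          set a := NN 1 j ω with ha
          have ha0 : 0 ≤ a := NN_nonneg _ _ _
          have hfW : 1 - Real.exp (-a) ≤ f (WW j ω) := by
            simp only [hf]
            have h1 : WW j ω ≤ Real.exp (-a) := by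
              unfold WW
              apply Real.exp_le_exp.2
              have : a ≤ Real.sqrt j * MM j ω := by
                rw [ha]; unfold NN MM
                rw [← integral_const_mul]
                apply integral_mono (AA_int_x (by norm_num) j ω) (hωI.const_mul _)
                intro x
                have h1 := ww_pos j x ω
                have h2 := bb_le_one 1 j x ω
                have h3 := bb_nonneg 1 j x ω
                have h4 : aa 1 j x ω ≤ ww j x ω := by unfold aa; nlinarith
                exact mul_le_mul_of_nonneg_left h4 (Real.sqrt_nonneg _)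
              linarith
            have h2 : min 1 (WW j ω) = WW j ω := min_eq_right (WW_le_one _ _)
            rw [h2, max_eq_right (WW_pos _ _).le]
            linarith
          rcases le_or_gt a A with h5 | h5
          · have h6 : a ≤ c * (1 - Real.exp (-a)) := by
              have hconv := convexOn_exp.2 (mem_univ (0:ℝ)) (mem_univ (-A)) (show (0:ℝ) ≤ 1 - a/A by
                rw [sub_nonneg, div_le_one hA]; exact h5) (show (0:ℝ) ≤ a/A by positivity) (by ring)
              simp only [smul_eq_mul, mul_zero, zero_add, Real.exp_zero, mul_one] at hconv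
              have e : a / A * -A = -a := by field_simp
              rw [e] at hconv
              rw [hc, div_mul_eq_mul_div, le_div_iff₀ (by linarith)]
              have : a * (1 - Real.exp (-A)) = A * (a/A * (1 - Real.exp (-A))) := by field_simp
              rw [this]
              apply mul_le_mul_of_nonneg_left _ hA.le
              linarith
            have h7 : 0 ≤ (1/A) * a^2 := by positivity
            have h8 := mul_le_mul_of_nonneg_left hfW hc0.le
            linarith
          · have h6 : a ≤ (1/A) * a^2 := by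
              rw [one_div, le_inv_mul_iff₀ hA]; nlinarith
            have h7 : 0 ≤ c * f (WW j ω) := by
              have : 0 ≤ f (WW j ω) := by
                simp only [hf]
                have : max 0 (min 1 (WW j ω)) ≤ 1 := max_le (by norm_num) (min_le_left _ _)
                linarith
              positivity
            linarith
        have h5 := integral_mono_of_nonneg (μ := PP) (Eventually.of_forall fun ω => NN_nonneg 1 j ω)
          ((hIf.const_mul c).add (hI.const_mul (1/A))) h4
        simp only [Pi.add_apply] at h5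
        rw [integral_add (hIf.const_mul _) (hI.const_mul _), integral_const_mul, integral_const_mul] at h5
        have h7 : (1/A) * ∫ ω, (NN 1 j ω)^2 ∂PP ≤ K/A := by
          rw [div_mul_eq_mul_div, one_mul]
          gcongr
          exact hJ j hj
        linarith
      have h4 : Tendsto (fun j => c * ∫ ω, f (WW j ω) ∂PP + K/A) atTop (𝓝 (c * 0 + K/A)) :=
        (hlim.const_mul c).add_const _
      rw [mul_zero, zero_add] at h4
      exact le_of_tendsto_of_tendsto (NN_mean_tendsto (by norm_num)) h4 ((eventually_ge_atTop J).mono h3)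
    have h5 : Tendsto (fun A : ℝ => K / A) atTop (𝓝 0) := tendsto_const_nhds.div_atTop tendsto_id
    have h6 : R 1 ≤ 0 := ge_of_tendsto h5 ((eventually_gt_atTop 0).mono hA)
    linarith
  · intro s hs
    rcases hs.eq_or_lt with h0 | h0
    · subst h0; simp
    · set f : ℝ → ℝ := fun y => (max 0 (min 1 y)) ^ s with hf
      have hfc : Continuous f := by
        apply Continuous.rpow_const (by fun_prop)
        intro x; right; exact hs
      have hfb : ∀ y, |f y| ≤ 1 := by
        intro y
        simp only [hf]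
        have h1 : 0 ≤ max 0 (min 1 y) := le_max_left _ _
        have h2 : max 0 (min 1 y) ≤ 1 := max_le (by norm_num) (min_le_left _ _)
        rw [abs_of_nonneg (Real.rpow_nonneg h1 _)]
        exact Real.rpow_le_one h1 h2 hs
      have hlim := conv_of_inMeasure WW_meas hΞ hfc hfb
      have e1 : ∀ j ω, f (WW j ω) = Real.exp (-(s * (Real.sqrt j * MM j ω))) := by
        intro j ω
        simp only [hf]
        rw [min_eq_right (WW_le_one _ _), max_eq_right (WW_pos _ _).le]
        unfold WW
        rw [← Real.exp_mul]; congr 1; ring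
      have e2 : ∫ ω, f (Ξ ω) ∂PP = ∫ ω, Real.exp (-(s * (if 0 < Ξ ω then -Real.log (Ξ ω) else 0))) ∂PP := by
        apply integral_congr_ae
        filter_upwards [hpos] with ω hω
        simp only [hω, if_true, hf]
        rw [min_eq_right (hΞ01 ω).2, max_eq_right hω.le, Real.rpow_def_of_pos hω]
        congr 1; ring
      rw [e2] at hlim
      refine hlim.congr fun j => ?_
      congr 1; ext ω; exact e1 j ω

end

end Pool.Agent.H968
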