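import Mathlib
import Pool.Agent.H968.CLTd
import Pool.Agent.H968.Jn
import Pool.Agent.H968.Mass

open MeasureTheory ProbabilityTheory Filter Topology Set
open scoped ENNReal NNReal

namespace Pool.Agent.H968

noncomputable section

def I4 : ℝ := ∫ y in Ici (0:ℝ), (1+y)^3 * Real.exp (-((s2/2) * y))

lemma I4_nonneg : 0 ≤ I4 := by
  unfold I4
  apply setIntegral_nonneg measurableSet_Ici
  intro y hy
  have : (0:ℝ) ≤ y := hy
  positivity

def C3 (β : ℝ) : ℝ := Real.exp (s2*β/2) * (432*(1+β)*I4)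

lemma C3_nonneg {β : ℝ} (hβ : 0 ≤ β) : 0 ≤ C3 β := by unfold C3; have := I4_nonneg; positivity

lemma Pr_exp2 {β : ℝ} (hβ : 0 ≤ β) {q : ℕ} (hq : 3 ≤ q) :
    (Pr^[q] (fun y => Real.exp (-((s2/2) * y)))) β ≤ 432 * (1+β) * ((Real.sqrt q)⁻¹)^3 * I4 := by
  have hc : 0 < s2/2 := by have := s2_pos; linarith
  have hle : ∀ y : ℝ, 0 ≤ y → Real.exp (-((s2/2) * y)) ≤ 1 := by
    intro y hy; rw [Real.exp_le_one_iff]; nlinarith
  have hBH : BH (fun y => Real.exp (-((s2/2) * y))) := ⟨by fun_prop, 1, fun y hy => by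
    rw [abs_of_pos (Real.exp_pos _)]; exact hle y hy⟩
  have hI : IntegrableOn (fun y => (1+y) * Real.exp (-((s2/2) * y))) (Ici 0) := by
    refine Integrable.mono' (integrable_poly_exp hc) (by fun_prop) ?_
    refine (ae_restrict_mem measurableSet_Ici).mono fun y hy => ?_
    have hy0 : (0:ℝ) ≤ y := hy
    rw [Real.norm_eq_abs, abs_of_nonneg (by positivity)]
    have : 1 + y ≤ (1+y)^3 := by nlinarith [sq_nonneg y, mul_nonneg hy0 hy0]
    gcongr
  refine (iter_local hBH.LG (fun y _ => (Real.exp_pos _).le) hI hq hβ).trans ?_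
  have h2 : ∫ y in Ici (0:ℝ), (1+y) * Real.exp (-((s2/2) * y)) ≤ I4 := by
    unfold I4
    apply setIntegral_mono_on hI (integrable_poly_exp hc) measurableSet_Ici
    intro y hy
    have hy0 : (0:ℝ) ≤ y := hy
    have : 1 + y ≤ (1+y)^3 := by nlinarith [sq_nonneg y, mul_nonneg hy0 hy0]
    gcongr
  gcongr

lemma hh_cube (β : ℝ) (q : ℕ) (x : ℝ) (ω : Om) :
    hh q x ω ^ 3 = Real.exp (s2*β/2 + 5*q/4) * (ww q x ω * Real.exp (-((s2/2) * TT β q x ω))) := by
  unfold hh ww TT
  rw [← Real.exp_nat_mul, ← Real.exp_add, ← Real.exp_add]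
  congr 1
  push_cast
  nlinarith [s2_sq]

/-- third moment on the good event -/
lemma third_exp {β : ℝ} (hβ : 0 ≤ β) {q : ℕ} (hq : 3 ≤ q) :
    ∫⁻ ω, ENNReal.ofReal (ig β q ω) * ∫⁻ x, ENNReal.ofReal (hh q x ω ^ 3) ∂lam ∂PP ≤
      ENNReal.ofReal (C3 β * Real.exp (5*q/4) * ((Real.sqrt q)⁻¹)^3) := by
  have hpt : ∀ ω, ENNReal.ofReal (ig β q ω) * ∫⁻ x, ENNReal.ofReal (hh q x ω ^ 3) ∂lam ≤
      ∫⁻ x, ENNReal.ofReal (Real.exp (s2*β/2 + 5*q/4) * (aa β q x ω * Real.exp (-((s2/2) * TT β q x ω)))) ∂lam := by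
    intro ω
    by_cases h : ω ∈ GG β q
    · have e1 : ig β q ω = 1 := by unfold ig; rw [Set.indicator_of_mem h]
      rw [e1, ENNReal.ofReal_one, one_mul]
      apply le_of_eq
      apply lintegral_congr_ae
      filter_upwards [GG_ae h] with x hx
      rw [hh_cube β]
      unfold aa; rw [hx, mul_one]
    · have e1 : ig β q ω = 0 := by unfold ig; rw [Set.indicator_of_notMem h]
      rw [e1]; simp
  refine (lintegral_mono hpt).trans ?_
  have hm : Measurable (Function.uncurry fun (ω : Om) (x : ℝ) => ENNReal.ofReal (Real.exp (s2*β/2 + 5*q/4) * (aa β q x ω * Real.exp (-((s2/2) * TT β q x ω))))) := by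
    apply Measurable.ennreal_ofReal
    have m1 : Measurable (fun s : Om × ℝ => aa β q s.2 s.1) := meas2 (aa_meas β q) measurable_snd measurable_fst
    have m2 : Measurable (fun s : Om × ℝ => TT β q s.2 s.1) := meas2 (TT_meas β q) measurable_snd measurable_fst
    have m3 : Measurable (fun s : Om × ℝ => Real.exp (-((s2/2) * TT β q s.2 s.1))) := Real.measurable_exp.comp ((m2.const_mul _).neg)
    exact (m1.mul m3).const_mul _
  rw [lintegral_lintegral_swap hm.aemeasurable]
  have hBH : BH (fun y => Real.exp (-((s2/2) * y))) := ⟨by fun_prop, 1, fun y hy => by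
    rw [abs_of_pos (Real.exp_pos _), Real.exp_le_one_iff]
    have := s2_pos
    have : 0 ≤ s2/2 * y := by positivity
    linarith⟩
  have hx : ∀ x, ∫⁻ ω, ENNReal.ofReal (Real.exp (s2*β/2 + 5*q/4) * (aa β q x ω * Real.exp (-((s2/2) * TT β q x ω)))) ∂PP ≤
      ENNReal.ofReal (C3 β * Real.exp (5*q/4) * ((Real.sqrt q)⁻¹)^3) := by
    intro x
    rw [← ofReal_integral_eq_lintegral_ofReal ((B_integrable hβ q hBH x).const_mul _)
      (Eventually.of_forall fun ω => by have := aa_nonneg β q x ω; positivity), integral_const_mul, expect_aa hβ hBH]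
    apply ENNReal.ofReal_le_ofReal
    calc Real.exp (s2*β/2 + 5*q/4) * (Pr^[q] fun y => Real.exp (-((s2/2) * y))) β
        ≤ Real.exp (s2*β/2 + 5*q/4) * (432 * (1+β) * ((Real.sqrt q)⁻¹)^3 * I4) := by
          gcongr; exact Pr_exp2 hβ hq
      _ = _ := by unfold C3; rw [Real.exp_add]; ring
  refine (lintegral_mono hx).trans ?_
  simp

/-- second moment on a subset -/
lemma gap_exp {β : ℝ} (hβ : 0 ≤ β) (q : ℕ) {A : Set ℝ} (hA : MeasurableSet A) :
    Integrable (fun ω => ig β q ω * ∫ x, A.indicator (fun x => hh q x ω * hh q x ω) x ∂lam) PP ∧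
    ∫ ω, ig β q ω * (∫ x, A.indicator (fun x => hh q x ω * hh q x ω) x ∂lam) ∂PP ≤ Real.exp ((q:ℝ)/2) * u q β * lam.real A := by
  have hpt : ∀ ω, ig β q ω * (∫ x, A.indicator (fun x => hh q x ω * hh q x ω) x ∂lam) ≤
      ∫ x, A.indicator (fun x => Real.exp ((q:ℝ)/2) * aa β q x ω) x ∂lam := by
    intro ω
    have h0 : 0 ≤ ∫ x, A.indicator (fun x => Real.exp ((q:ℝ)/2) * aa β q x ω) x ∂lam :=
      integral_nonneg fun x => Set.indicator_nonneg (fun x _ => mul_nonneg (Real.exp_pos _).le (aa_nonneg _ _ _ _)) x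
    by_cases h : ω ∈ GG β q
    · have e1 : ig β q ω = 1 := by unfold ig; rw [Set.indicator_of_mem h]
      rw [e1, one_mul]
      apply le_of_eq
      apply integral_congr_ae
      filter_upwards [GG_ae h] with x hx
      by_cases hxA : x ∈ A
      · rw [Set.indicator_of_mem hxA, Set.indicator_of_mem hxA]
        have := hh_sq q x ω
        rw [sq] at this
        unfold aa; rw [hx, this]; ring
      · rw [Set.indicator_of_notMem hxA, Set.indicator_of_notMem hxA]
    · have e1 : ig β q ω = 0 := by unfold ig; rw [Set.indicator_of_notMem h]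
      rw [e1, zero_mul]; exact h0
  have hm : Measurable (Function.uncurry fun (x : ℝ) (ω : Om) => A.indicator (fun x => Real.exp ((q:ℝ)/2) * aa β q x ω) x) := by
    have e : (Function.uncurry fun (x : ℝ) (ω : Om) => A.indicator (fun x => Real.exp ((q:ℝ)/2) * aa β q x ω) x) =
        fun s : ℝ × Om => A.indicator (fun _ => (1:ℝ)) s.1 * (Real.exp ((q:ℝ)/2) * aa β q s.1 s.2) := by
      ext s
      by_cases h : s.1 ∈ A
      · simp [Function.uncurry, h]
      · simp [Function.uncurry, h]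
    rw [e]
    have m1 : Measurable (fun s : ℝ × Om => A.indicator (fun _ => (1:ℝ)) s.1) := (measurable_const.indicator hA).comp measurable_fst
    have m2 : Measurable (fun s : ℝ × Om => Real.exp ((q:ℝ)/2) * aa β q s.1 s.2) := (aa_meas β q).const_mul _
    exact m1.mul m2
  have hnn : ∀ x ω, 0 ≤ A.indicator (fun x => Real.exp ((q:ℝ)/2) * aa β q x ω) x := fun x ω =>
    Set.indicator_nonneg (fun x _ => mul_nonneg (Real.exp_pos _).le (aa_nonneg _ _ _ _)) x
  have hBHi := fun x => B_integrable hβ q one_BH x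
  simp only [mul_one] at hBHi
  have key := param_expect_le (μ := lam) hm hnn (B := fun x => A.indicator (fun _ => Real.exp ((q:ℝ)/2) * u q β) x)
    (Eventually.of_forall fun x => by
      by_cases h : x ∈ A
      · simp only [Set.indicator_of_mem h]; exact (hBHi x).const_mul _
      · simp only [Set.indicator_of_notMem h]; exact integrable_const _)
    ((integrable_const _).indicator hA)
    (Eventually.of_forall fun x => by
      by_cases h : x ∈ A
      · simp only [Set.indicator_of_mem h]; rw [integral_const_mul, expect_aa_one hβ]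
      · simp only [Set.indicator_of_notMem h]; simp)
  have hmeas : Measurable (fun ω => ig β q ω * ∫ x, A.indicator (fun x => hh q x ω * hh q x ω) x ∂lam) := by
    apply (ig_meas β q).mul
    apply int_param_meas (g := fun x ω => A.indicator (fun x => hh q x ω * hh q x ω) x)
    have e : (Function.uncurry fun (x : ℝ) (ω : Om) => A.indicator (fun x => hh q x ω * hh q x ω) x) =
        fun s : ℝ × Om => A.indicator (fun _ => (1:ℝ)) s.1 * (hh q s.1 s.2 * hh q s.1 s.2) := by
      ext s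
      by_cases h : s.1 ∈ A
      · simp [Function.uncurry, h]
      · simp [Function.uncurry, h]
    rw [e]
    have m1 : Measurable (fun s : ℝ × Om => A.indicator (fun _ => (1:ℝ)) s.1) := (measurable_const.indicator hA).comp measurable_fst
    have m2 : Measurable (fun s : ℝ × Om => hh q s.1 s.2) := hh_meas q
    exact m1.mul (m2.mul m2)
  have hn : ∀ ω, 0 ≤ ig β q ω * ∫ x, A.indicator (fun x => hh q x ω * hh q x ω) x ∂lam := fun ω =>
    mul_nonneg (ig_01 β q ω).1 (integral_nonneg fun x => Set.indicator_nonneg (fun x _ => mul_nonneg (hh_pos _ _ _).le (hh_pos _ _ _).le) x)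
  have hInt : Integrable (fun ω => ig β q ω * ∫ x, A.indicator (fun x => hh q x ω * hh q x ω) x ∂lam) PP :=
    key.1.mono' hmeas.aestronglyMeasurable (Eventually.of_forall fun ω => by
      rw [Real.norm_eq_abs, abs_of_nonneg (hn ω)]; exact hpt ω)
  refine ⟨hInt, ?_⟩
  refine (integral_mono hInt key.1 hpt).trans (key.2.trans ?_)
  rw [integral_indicator_const _ hA, smul_eq_mul]
  apply le_of_eq; ring

/-- Jensen for the square root -/
lemma sqrt_exp {X : Om → ℝ} (hXm : Measurable X) (h0 : ∀ ω, 0 ≤ X ω) {β : ℝ} {q : ℕ} (hI : Integrable (fun ω => ig β q ω * X ω) PP) {c : ℝ}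
    (hc : ∫ ω, ig β q ω * X ω ∂PP ≤ c) :
    Integrable (fun ω => ig β q ω * Real.sqrt (X ω)) PP ∧ ∫ ω, ig β q ω * Real.sqrt (X ω) ∂PP ≤ Real.sqrt c := by
  have h01 := ig_01 β q
  have hid : ∀ ω, ig β q ω * ig β q ω = ig β q ω := by
    intro ω; unfold ig
    by_cases h : ω ∈ GG β q
    · rw [Set.indicator_of_mem h]; norm_num
    · rw [Set.indicator_of_notMem h]; norm_num
  have hc0 : 0 ≤ c := (integral_nonneg fun ω => mul_nonneg (h01 ω).1 (h0 ω)).trans hc
  have hI1 : Integrable (fun ω => ig β q ω * Real.sqrt (X ω)) PP := by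
    refine ((integrable_const (1:ℝ)).add hI).mono' ((ig_meas β q).mul hXm.sqrt).aestronglyMeasurable (Eventually.of_forall fun ω => ?_)
    have g0 := (h01 ω).1; have g1 := (h01 ω).2
    rw [Real.norm_eq_abs, abs_of_nonneg (mul_nonneg g0 (Real.sqrt_nonneg _))]
    simp only [Pi.add_apply]
    have hs := Real.mul_self_sqrt (h0 ω)
    have hs0 := Real.sqrt_nonneg (X ω)
    have : Real.sqrt (X ω) ≤ 1 + X ω := by nlinarith [sq_nonneg (Real.sqrt (X ω) - 1)]
    have h2 := mul_le_mul_of_nonneg_left this g0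
    linarith
  refine ⟨hI1, ?_⟩
  set t := ∫ ω, ig β q ω * Real.sqrt (X ω) ∂PP with ht
  apply Real.le_sqrt_of_sq_le
  have e : ∫ ω, (ig β q ω * Real.sqrt (X ω) - t) * (ig β q ω * Real.sqrt (X ω) - t) ∂PP = (∫ ω, ig β q ω * X ω ∂PP) - t^2 := by
    have e1 : ∀ ω, (ig β q ω * Real.sqrt (X ω) - t) * (ig β q ω * Real.sqrt (X ω) - t) = ig β q ω * X ω - (2 * t) * (ig β q ω * Real.sqrt (X ω)) + t^2 := by
      intro ω
      have hs := Real.mul_self_sqrt (h0 ω)
      have := hid ω
      calc _ = (ig β q ω * ig β q ω) * (Real.sqrt (X ω) * Real.sqrt (X ω)) - (2 * t) * (ig β q ω * Real.sqrt (X ω)) + t^2 := by ring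
        _ = _ := by rw [this, hs]
    simp_rw [e1]
    rw [int3 hI (hI1.const_mul _) (integrable_const _), integral_const_mul, ← ht]
    simp; ring
  have : 0 ≤ ∫ ω, (ig β q ω * Real.sqrt (X ω) - t) * (ig β q ω * Real.sqrt (X ω) - t) ∂PP := integral_nonneg fun ω => mul_self_nonneg _
  linarith

end

end Pool.Agent.H968
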