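import Mathlib
import Pool.Agent.H968.Fin1

open MeasureTheory ProbabilityTheory Filter Topology Set
open scoped ENNReal NNReal

namespace Pool.Agent.H968

noncomputable section

/-- the characteristic exponential -/
def cexp (x : ℝ) : ℂ := Complex.exp ((x:ℂ) * Complex.I)

lemma cexp_norm (x : ℝ) : ‖cexp x‖ = 1 := Complex.norm_exp_ofReal_mul_I x

lemma cexp_add (x y : ℝ) : cexp (x + y) = cexp x * cexp y := by
  unfold cexp; rw [← Complex.exp_add]; congr 1; push_cast; ring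

lemma cexp_meas : Measurable cexp := by unfold cexp; fun_prop

lemma cexp_sub_one (x : ℝ) : ‖cexp x - 1‖ ≤ |x| := by
  have := Real.norm_exp_I_mul_ofReal_sub_one_le (x := x)
  unfold cexp
  rw [mul_comm, ← Real.norm_eq_abs]; exact this

lemma cexp_int {g : Om → ℝ} (hg : Measurable g) : Integrable (fun ω => cexp (g ω)) PP :=
  Integrable.of_bound (cexp_meas.comp hg).aestronglyMeasurable 1 (Eventually.of_forall fun ω => by rw [cexp_norm])

/-- conditional characteristic function -/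
def CC (f : ℝ → ℝ) (q v : ℕ) (θ : ℝ) (ω : Om) : ℂ := ∫ ω', cexp (θ * UU f q v (fun x => hh q x ω) ω') ∂PP

lemma mm_gl {f : ℝ → ℝ} (hf : Measurable f) (hf1 : ∀ x, |f x| ≤ 1) {q v : ℕ} (hqv : q ≤ v) (θ : ℝ) :
    ∀ᵐ ω ∂PP, ∫ ω', cexp (θ * mm f v (gl q (ω, ω'))) ∂PP = cexp (θ * mm f q ω) * CC f q v θ ω := by
  filter_upwards [(hsq_prod_int q).prod_left_ae] with ω hω
  have hHm : Measurable (fun x => hh q x ω) := sec_meas_x (hh_meas q) ω
  have hH0 : ∀ x, 0 ≤ hh q x ω := fun x => (hh_pos q x ω).le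
  have hω' : Integrable (fun x => hh q x ω * hh q x ω) lam := hω
  unfold CC
  rw [← integral_const_mul]
  apply integral_congr_ae
  filter_upwards [(gm_prod_int hHm hH0 hω' hf hf1 hqv).prod_left_ae] with ω' h1
  rw [← cexp_add]
  congr 1
  have h2 : Integrable (fun x => f x * hh q x ω) lam := by
    refine (H_int hHm hH0 hω').bdd_mul (c := 1) hf.aestronglyMeasurable (Eventually.of_forall fun x => hf1 x)
  have h3 : mm f v (gl q (ω, ω')) = mm f q ω + UU f q v (fun x => hh q x ω) ω' := by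
    unfold mm UU
    have h1' : Integrable (fun x => f x * hh q x ω * (gg q v x ω' - 1)) lam := h1
    rw [← integral_add h2 h1']
    congr 1; ext x
    rw [hh_gl hqv]; ring
  rw [h3]; ring

lemma MM_hh (q : ℕ) (ω : Om) : ∫ x, hh q x ω * hh q x ω ∂lam = Real.exp ((q:ℝ)/2) * MM q ω := by
  unfold MM
  rw [← integral_const_mul]
  congr 1; ext x
  have := hh_sq q x ω
  rw [sq] at this; exact this

lemma ig_compl_mean {β : ℝ} (hβ : 0 ≤ β) (q : ℕ) : ∫ ω, (1 - ig β q ω) ∂PP ≤ dl β := by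
  have hI : Integrable (fun ω => ig β q ω) PP := by
    refine Integrable.of_bound (ig_meas β q).aestronglyMeasurable 1 (Eventually.of_forall fun ω => ?_)
    rw [Real.norm_eq_abs, abs_of_nonneg (ig_01 _ _ _).1]; exact (ig_01 _ _ _).2
  rw [integral_sub (integrable_const _) hI]
  have : ∫ ω, ig β q ω ∂PP = PP.real (GG β q) := by
    unfold ig
    rw [integral_indicator_const _ (GG_meas β q)]; simp
  rw [this]
  have := GG_prob hβ q
  simp; linarith

lemma enn_combine {x a b c d : ℝ} {A B C D : ℝ≥0∞} (ha : 0 ≤ a) (hb : 0 ≤ b) (hc : 0 ≤ c) (hd : 0 ≤ d)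
    (h : ENNReal.ofReal x ≤ A + B + C + D) (t1 : A ≤ ENNReal.ofReal a) (t2 : B ≤ ENNReal.ofReal b) (t3 : C ≤ ENNReal.ofReal c)
    (t4 : D ≤ ENNReal.ofReal d) : x ≤ a + b + c + d := by
  have h5 := h.trans (add_le_add (add_le_add (add_le_add t1 t2) t3) t4)
  rw [← ENNReal.ofReal_add ha hb, ← ENNReal.ofReal_add (add_nonneg ha hb) hc,
    ← ENNReal.ofReal_add (add_nonneg (add_nonneg ha hb) hc) hd] at h5
  exact (ENNReal.ofReal_le_ofReal_iff (add_nonneg (add_nonneg (add_nonneg ha hb) hc) hd)).1 h5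

lemma enn_mul_le {a b : ℝ} {I : ℝ≥0∞} (ha : 0 ≤ a) (h : I ≤ ENNReal.ofReal b) : ENNReal.ofReal a * I ≤ ENNReal.ofReal (a * b) := by
  rw [ENNReal.ofReal_mul ha]
  exact mul_le_mul' le_rfl h

/-- all error terms together -/
def TE (β : ℝ) (n o k q p v : ℕ) (B θ : ℝ) : ℝ :=
  2 * dl β + |θ| * Real.sqrt (2 * (Real.exp ((k:ℝ)/2) / n) + 2 * (Real.exp ((p:ℝ)/2) / n * u o β + 4 * Real.exp ((o:ℝ)/2) * ell k)) +
  θ^2/2 * EB β n o k q p v + 3 * |θ| * Real.sqrt (4 * ell q * (Real.exp ((q:ℝ)/2) * u q β * (1/(B+1) + 2 * ell q))) +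
  40 * |θ|^3 * ((B + 8) * ell q)^2 * (C3 β * Real.exp (5*q/4) * ((Real.sqrt q)⁻¹)^3)

set_option maxHeartbeats 4000000 in
theorem main_ineq {β : ℝ} (hβ : 0 ≤ β) {n : ℕ} (hn : n ≠ 0) (φ : ℝ) {o k q p v : ℕ} (hk : k ≠ 0) (hok : o ≤ k) (hkq : k ≤ q)
    (hqp : q ≤ p) (hpv : p ≤ v) (hq3 : 3 ≤ q) (hρ1 : 1/(4*(n:ℝ)) * Real.exp ((q:ℝ)-1) ≤ 1) {B : ℝ} (hB : 0 ≤ B) (θ : ℝ)
    (hJ : 0 ≤ JJ n q p v) :
    ‖(∫ ω, cexp (θ * mm (ff n φ) v ω) ∂PP) - ((∫ ω, Real.exp (-(θ^2/4 * JJ n q p v * Real.exp ((q:ℝ)/2) * MM q ω)) ∂PP : ℝ) : ℂ)‖ ≤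
      TE β n o k q p v B θ := by
  have hf : Measurable (ff n φ) := (ff_cont n φ).measurable
  have hf1 := ff_abs n φ
  set f := ff n φ with hfdef
  have hqv := hqp.trans hpv
  have hq0 : q ≠ 0 := by omega
  have hoq := hok.trans hkq
  have h01 := ig_01 β q
  have hgm := ig_meas β q
  set J := JJ n q p v with hJdef
  set E : Om → ℝ := fun ω => Real.exp (-(θ^2/4 * J * Real.exp ((q:ℝ)/2) * MM q ω)) with hE
  have hEm : Measurable E := Real.measurable_exp.comp (((MM_meas q).const_mul _).neg)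
  have hE01 : ∀ ω, 0 < E ω ∧ E ω ≤ 1 := by
    intro ω
    refine ⟨Real.exp_pos _, ?_⟩
    simp only [hE]
    rw [Real.exp_le_one_iff]
    have := MM_nonneg q ω
    have : 0 ≤ θ^2/4 * J * Real.exp ((q:ℝ)/2) * MM q ω := by positivity
    linarith
  have hEi : Integrable E PP := Integrable.of_bound hEm.aestronglyMeasurable 1 (Eventually.of_forall fun ω => by
    rw [Real.norm_eq_abs, abs_of_pos (hE01 ω).1]; exact (hE01 ω).2)
  have hEiC : Integrable (fun ω => ((E ω : ℝ) : ℂ)) PP := hEi.ofReal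
  have hmm := mm_meas hf v
  have hmq := mm_meas hf q
  have hZi : Integrable (fun ω => cexp (θ * mm f v ω)) PP := cexp_int (hmm.const_mul θ)
  have higC : Measurable (fun ω => ((ig β q ω : ℝ) : ℂ)) := Complex.measurable_ofReal.comp hgm
  have igb : ∀ ω, ‖((ig β q ω : ℝ) : ℂ)‖ ≤ 1 := fun ω => by
    rw [Complex.norm_real, Real.norm_eq_abs, abs_of_nonneg (h01 ω).1]; exact (h01 ω).2
  have hgZ : Integrable (fun ω => ((ig β q ω : ℝ) : ℂ) * cexp (θ * mm f v ω)) PP := hZi.bdd_mul (c := 1) higC.aestronglyMeasurable (Eventually.of_forall igb)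
  have hgE : Integrable (fun ω => ((ig β q ω : ℝ) : ℂ) * ((E ω : ℝ) : ℂ)) PP := hEiC.bdd_mul (c := 1) higC.aestronglyMeasurable (Eventually.of_forall igb)
  -- decomposition
  have hEcast : ((∫ ω, E ω ∂PP : ℝ) : ℂ) = ∫ ω, ((E ω : ℝ) : ℂ) ∂PP := by rw [integral_complex_ofReal]
  have hsplit : (∫ ω, cexp (θ * mm f v ω) ∂PP) - ((∫ ω, E ω ∂PP : ℝ) : ℂ) =
      (∫ ω, (1 - ((ig β q ω : ℝ) : ℂ)) * (cexp (θ * mm f v ω) - ((E ω : ℝ) : ℂ)) ∂PP) +
      ((∫ ω, ((ig β q ω : ℝ) : ℂ) * cexp (θ * mm f v ω) ∂PP) - ∫ ω, ((ig β q ω : ℝ) : ℂ) * ((E ω : ℝ) : ℂ) ∂PP) := by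
    have e : ∀ ω, (1 - ((ig β q ω : ℝ) : ℂ)) * (cexp (θ * mm f v ω) - ((E ω : ℝ) : ℂ)) =
        (cexp (θ * mm f v ω) - ((E ω : ℝ) : ℂ)) - (((ig β q ω : ℝ) : ℂ) * cexp (θ * mm f v ω) - ((ig β q ω : ℝ) : ℂ) * ((E ω : ℝ) : ℂ)) := by
      intro ω; ring
    simp_rw [e]
    have a1 : Integrable (fun ω => cexp (θ * mm f v ω) - ((E ω : ℝ) : ℂ)) PP := hZi.sub hEiC
    have a2 : Integrable (fun ω => ((ig β q ω : ℝ) : ℂ) * cexp (θ * mm f v ω) - ((ig β q ω : ℝ) : ℂ) * ((E ω : ℝ) : ℂ)) PP := hgZ.sub hgE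
    rw [integral_sub a1 a2, integral_sub hZi hEiC, integral_sub hgZ hgE, hEcast]
    ring
  have hpart1 : ‖∫ ω, (1 - ((ig β q ω : ℝ) : ℂ)) * (cexp (θ * mm f v ω) - ((E ω : ℝ) : ℂ)) ∂PP‖ ≤ 2 * dl β := by
    have hig : Integrable (fun ω => ig β q ω) PP := by
      refine Integrable.of_bound hgm.aestronglyMeasurable 1 (Eventually.of_forall fun ω => ?_)
      rw [Real.norm_eq_abs, abs_of_nonneg (h01 ω).1]; exact (h01 ω).2
    have h1 := norm_integral_le_of_norm_le (μ := PP) (f := fun ω => (1 - ((ig β q ω : ℝ) : ℂ)) * (cexp (θ * mm f v ω) - ((E ω : ℝ) : ℂ)))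
      (g := fun ω => 2 * (1 - ig β q ω)) (((integrable_const (1:ℝ)).sub hig).const_mul 2) (Eventually.of_forall fun ω => by
        rw [norm_mul]
        have e1 : ‖(1:ℂ) - ((ig β q ω : ℝ) : ℂ)‖ = 1 - ig β q ω := by
          rw [show (1:ℂ) - ((ig β q ω : ℝ) : ℂ) = ((1 - ig β q ω : ℝ) : ℂ) by push_cast; ring, Complex.norm_real, Real.norm_eq_abs,
            abs_of_nonneg (by linarith [(h01 ω).2])]
        have e2 : ‖cexp (θ * mm f v ω) - ((E ω : ℝ) : ℂ)‖ ≤ 2 := by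
          refine (norm_sub_le _ _).trans ?_
          rw [cexp_norm, Complex.norm_real, Real.norm_eq_abs, abs_of_pos (hE01 ω).1]
          linarith [(hE01 ω).2]
        rw [e1, mul_comm]
        exact mul_le_mul_of_nonneg_right e2 (by linarith [(h01 ω).2]))
    rw [integral_const_mul] at h1
    have := ig_compl_mean hβ q
    linarith
  -- the main part
  have hcond : ∫ ω, ((ig β q ω : ℝ) : ℂ) * cexp (θ * mm f v ω) ∂PP = ∫ ω, ((ig β q ω : ℝ) : ℂ) * (cexp (θ * mm f q ω) * CC f q v θ ω) ∂PP := by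
    rw [integral_glC (k := q) hgZ]
    apply integral_congr_ae
    filter_upwards [mm_gl hf hf1 hqv θ] with ω hω
    have hd : ∀ ω', ig β q (gl q (ω, ω')) = ig β q ω := fun ω' => (ig_dep β le_rfl).gl (ω, ω')
    simp_rw [hd]
    rw [integral_const_mul, hω]
  -- second moments of mm q
  have hsm1 := low_level hn φ k (ig_meas β o) (ig_01 β o)
  have hsm2 := sec_diff hok hkq (ig_dep β le_rfl) (ig_meas β o) (ig_01 β o) hf hf1
  have hcvp : cv (ig β o) o f q - cv (ig β o) o f k ≤ Real.exp ((p:ℝ)/2) / n * u o β + 4 * Real.exp ((o:ℝ)/2) * ell k := by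
    have h1 := cv_diff hβ hn φ (o := o) (i := k) (j := p) hk hok (hkq.trans hqp)
    have h2 := (sec_diff hoq hqp (ig_dep β le_rfl) (ig_meas β o) (ig_01 β o) hf hf1).2
    have h3 : 0 ≤ ∫ ω, ig β o ω * (mm f p ω - mm f q ω)^2 ∂PP :=
      integral_nonneg fun ω => mul_nonneg (ig_01 β o ω).1 (sq_nonneg _)
    linarith
  have hmq2 : Integrable (fun ω => ig β q ω * (mm f q ω)^2) PP ∧ ∫ ω, ig β q ω * (mm f q ω)^2 ∂PP ≤
      2 * (Real.exp ((k:ℝ)/2) / n) + 2 * (Real.exp ((p:ℝ)/2) / n * u o β + 4 * Real.exp ((o:ℝ)/2) * ell k) := by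
    have hdom : ∀ ω, ig β q ω * (mm f q ω)^2 ≤ 2 * (ig β o ω * (mm f k ω)^2) + 2 * (ig β o ω * (mm f q ω - mm f k ω)^2) := by
      intro ω
      have h1 := ig_anti β hoq ω
      have h2 := (h01 ω).1
      have h3 : (mm f q ω)^2 ≤ 2 * (mm f k ω)^2 + 2 * (mm f q ω - mm f k ω)^2 := by nlinarith [sq_nonneg (mm f q ω - 2 * mm f k ω)]
      calc ig β q ω * (mm f q ω)^2 ≤ ig β o ω * (2 * (mm f k ω)^2 + 2 * (mm f q ω - mm f k ω)^2) :=
            mul_le_mul h1 h3 (sq_nonneg _) (ig_01 β o ω).1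
        _ = _ := by ring
    have hdI : Integrable (fun ω => 2 * (ig β o ω * (mm f k ω)^2) + 2 * (ig β o ω * (mm f q ω - mm f k ω)^2)) PP :=
      (hsm1.1.const_mul 2).add (hsm2.1.const_mul 2)
    have hI : Integrable (fun ω => ig β q ω * (mm f q ω)^2) PP :=
      hdI.mono' (hgm.mul (hmq.pow_const 2)).aestronglyMeasurable (Eventually.of_forall fun ω => by
        rw [Real.norm_eq_abs, abs_of_nonneg (mul_nonneg (h01 ω).1 (sq_nonneg _))]; exact hdom ω)
    refine ⟨hI, (integral_mono hI hdI hdom).trans ?_⟩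
    rw [integral_add (hsm1.1.const_mul 2) (hsm2.1.const_mul 2), integral_const_mul, integral_const_mul, hsm2.2]
    linarith [hsm1.2]
  have hA2 := sqrt_exp (hmq.pow_const 2) (fun ω => sq_nonneg _) hmq2.1 hmq2.2
  -- variance error
  obtain ⟨D, hDI, hDp, hDb⟩ := var_error hβ hn φ hk hok hkq hqp hpv hρ1
  -- gaps
  obtain ⟨m, hm⟩ := gap_measure hB q
  set Γ := (Tb B q m)ᶜ with hΓ
  have hΓm : MeasurableSet Γ := (Tb_meas B q m).compl
  have hgap := gap_exp hβ q hΓm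
  have hu0 := u_nonneg q β
  have hgap2 : ∫ ω, ig β q ω * (4 * ell q * ∫ x, Γ.indicator (fun x => hh q x ω * hh q x ω) x ∂lam) ∂PP ≤
      4 * ell q * (Real.exp ((q:ℝ)/2) * u q β * (1/(B+1) + 2 * ell q)) := by
    have e : ∀ ω, ig β q ω * (4 * ell q * ∫ x, Γ.indicator (fun x => hh q x ω * hh q x ω) x ∂lam) =
        4 * ell q * (ig β q ω * ∫ x, Γ.indicator (fun x => hh q x ω * hh q x ω) x ∂lam) := by intro ω; ring
    simp_rw [e]
    rw [integral_const_mul]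
    have hl := ell_pos q
    apply mul_le_mul_of_nonneg_left _ (by positivity)
    refine hgap.2.trans ?_
    gcongr
  have hgapI : Integrable (fun ω => ig β q ω * (4 * ell q * ∫ x, Γ.indicator (fun x => hh q x ω * hh q x ω) x ∂lam)) PP := by
    refine (hgap.1.const_mul (4 * ell q)).congr (Eventually.of_forall fun ω => ?_)
    simp only; ring
  have hGam : Measurable (fun ω => ∫ x, Γ.indicator (fun x => hh q x ω * hh q x ω) x ∂lam) := by
    apply int_param_meas (g := fun x ω => Γ.indicator (fun x => hh q x ω * hh q x ω) x)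
    have e : (Function.uncurry fun (x : ℝ) (ω : Om) => Γ.indicator (fun x => hh q x ω * hh q x ω) x) =
        fun s : ℝ × Om => Γ.indicator (fun _ => (1:ℝ)) s.1 * (hh q s.1 s.2 * hh q s.1 s.2) := by
      ext s
      by_cases h : s.1 ∈ Γ
      · simp [Function.uncurry, h]
      · simp [Function.uncurry, h]
    rw [e]
    have m1 : Measurable (fun s : ℝ × Om => Γ.indicator (fun _ => (1:ℝ)) s.1) := (measurable_const.indicator hΓm).comp measurable_fst
    have m2 : Measurable (fun s : ℝ × Om => hh q s.1 s.2) := hh_meas q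
    exact m1.mul (m2.mul m2)
  have hA3 := sqrt_exp (hGam.const_mul (4 * ell q)) (fun ω => by
    have hl := ell_pos q
    have : 0 ≤ ∫ x, Γ.indicator (fun x => hh q x ω * hh q x ω) x ∂lam := integral_nonneg fun x => Set.indicator_nonneg (fun x _ => mul_nonneg (hh_pos _ _ _).le (hh_pos _ _ _).le) x
    positivity) hgapI hgap2
  have hthird := third_exp hβ hq3
  -- pointwise bound
  have hpt : ∀ᵐ ω ∂PP, ‖((ig β q ω : ℝ) : ℂ) * (cexp (θ * mm f q ω) * CC f q v θ ω) - ((ig β q ω : ℝ) : ℂ) * ((E ω : ℝ) : ℂ)‖ₑ ≤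
      ENNReal.ofReal (|θ| * (ig β q ω * Real.sqrt ((mm f q ω)^2))) + ENNReal.ofReal (θ^2/2 * D ω) +
      ENNReal.ofReal (3 * |θ| * (ig β q ω * Real.sqrt (4 * ell q * ∫ x, Γ.indicator (fun x => hh q x ω * hh q x ω) x ∂lam))) +
      ENNReal.ofReal (40 * |θ|^3 * ((B + 8) * ell q)^2) * (ENNReal.ofReal (ig β q ω) * ∫⁻ x, ENNReal.ofReal (hh q x ω ^ 3) ∂lam) := by
    filter_upwards [(hsq_prod_int q).prod_left_ae, hDp] with ω hω hD
    have hHm : Measurable (fun x => hh q x ω) := sec_meas_x (hh_meas q) ω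
    have hH0 : ∀ x, 0 ≤ hh q x ω := fun x => (hh_pos q x ω).le
    have hω' : Integrable (fun x => hh q x ω * hh q x ω) lam := hω
    have hclt := clt_det hHm hH0 hω' hf hf1 hq0 hqv hB θ m
    have hVV := VV_nonneg hHm hH0 hω' hf hf1 hqv
    set V := VV f q v (fun x => hh q x ω) with hV
    set C := CC f q v θ ω with hC
    have g0 := (h01 ω).1
    have g1 := (h01 ω).2
    have hMM := MM_nonneg q ω
    have e : ((ig β q ω : ℝ) : ℂ) * (cexp (θ * mm f q ω) * C) - ((ig β q ω : ℝ) : ℂ) * ((E ω : ℝ) : ℂ) =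
        ((ig β q ω : ℝ) : ℂ) * (((cexp (θ * mm f q ω) - 1) * C + (((Real.exp (-(θ^2/2 * V)) : ℝ) : ℂ) - ((E ω : ℝ) : ℂ))) + (C - ((Real.exp (-(θ^2/2 * V)) : ℝ) : ℂ))) := by
      ring
    rw [e, enorm_mul]
    have n0 : ‖((ig β q ω : ℝ) : ℂ)‖ₑ = ENNReal.ofReal (ig β q ω) := by
      rw [← ofReal_norm, Complex.norm_real, Real.norm_eq_abs, abs_of_nonneg g0]
    have hCn : ‖C‖ ≤ 1 := by
      refine (norm_integral_le_of_norm_le_const (C := 1) (Eventually.of_forall fun ω' => ?_)).trans (by simp)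
      rw [cexp_norm]
    have n1 : ‖(cexp (θ * mm f q ω) - 1) * C + (((Real.exp (-(θ^2/2 * V)) : ℝ) : ℂ) - ((E ω : ℝ) : ℂ))‖ ≤
        |θ| * Real.sqrt ((mm f q ω)^2) + θ^2/2 * |V - (1/2) * J * ∫ x, hh q x ω * hh q x ω ∂lam| := by
      refine (norm_add_le _ _).trans ?_
      have a1 : ‖(cexp (θ * mm f q ω) - 1) * C‖ ≤ |θ| * Real.sqrt ((mm f q ω)^2) := by
        rw [norm_mul, Real.sqrt_sq_eq_abs, ← abs_mul]
        have := cexp_sub_one (θ * mm f q ω)
        nlinarith [norm_nonneg C, norm_nonneg (cexp (θ * mm f q ω) - 1)]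
      have a2 : ‖((Real.exp (-(θ^2/2 * V)) : ℝ) : ℂ) - ((E ω : ℝ) : ℂ)‖ ≤ θ^2/2 * |V - (1/2) * J * ∫ x, hh q x ω * hh q x ω ∂lam| := by
        rw [← Complex.ofReal_sub, Complex.norm_real, Real.norm_eq_abs]
        simp only [hE]
        refine (exp_neg_lip (by positivity) (by positivity)).trans (le_of_eq ?_)
        rw [MM_hh]
        have : θ^2/2 * V - θ^2/4 * J * Real.exp ((q:ℝ)/2) * MM q ω = (θ^2/2) * (V - (1/2) * J * (Real.exp ((q:ℝ)/2) * MM q ω)) := by ring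
        rw [this, abs_mul, abs_of_nonneg (by positivity : 0 ≤ θ^2/2)]
      exact add_le_add a1 a2
    have n2 : ‖C - ((Real.exp (-(θ^2/2 * V)) : ℝ) : ℂ)‖ₑ ≤ ENNReal.ofReal (3 * |θ| * Real.sqrt (4 * ell q * ∫ x, Γ.indicator (fun x => hh q x ω * hh q x ω) x ∂lam)) +
        ENNReal.ofReal (40 * |θ|^3 * ((B + 8) * ell q)^2) * ∫⁻ x, ENNReal.ofReal (hh q x ω ^ 3) ∂lam := hclt
    rw [n0]
    set S1 := |θ| * Real.sqrt ((mm f q ω)^2) with hS1
    set S2 := |V - (1/2) * J * ∫ x, hh q x ω * hh q x ω ∂lam| with hS2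
    set S3 := 3 * |θ| * Real.sqrt (4 * ell q * ∫ x, Γ.indicator (fun x => hh q x ω * hh q x ω) x ∂lam) with hS3
    set L3 := ∫⁻ x, ENNReal.ofReal (hh q x ω ^ 3) ∂lam with hL3
    have hS1n : 0 ≤ S1 := by positivity
    have hS3n : 0 ≤ S3 := by positivity
    have hDω : ig β q ω * S2 ≤ D ω := by
      refine le_trans ?_ hD
      exact mul_le_mul_of_nonneg_right (ig_anti β hoq ω) (abs_nonneg _)
    calc ENNReal.ofReal (ig β q ω) * ‖((cexp (θ * mm f q ω) - 1) * C + (((Real.exp (-(θ^2/2 * V)) : ℝ) : ℂ) - ((E ω : ℝ) : ℂ))) + (C - ((Real.exp (-(θ^2/2 * V)) : ℝ) : ℂ))‖ₑ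
        ≤ ENNReal.ofReal (ig β q ω) * (ENNReal.ofReal (S1 + θ^2/2 * S2) + (ENNReal.ofReal S3 + ENNReal.ofReal (40 * |θ|^3 * ((B + 8) * ell q)^2) * L3)) := by
          gcongr
          refine (enorm_add_le _ _).trans ?_
          apply add_le_add _ n2
          rw [← ofReal_norm]
          exact ENNReal.ofReal_le_ofReal n1
      _ = ENNReal.ofReal (ig β q ω * (S1 + θ^2/2 * S2)) + ENNReal.ofReal (ig β q ω * S3) +
          ENNReal.ofReal (40 * |θ|^3 * ((B + 8) * ell q)^2) * (ENNReal.ofReal (ig β q ω) * L3) := by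
          rw [ENNReal.ofReal_mul g0, ENNReal.ofReal_mul g0]; ring
      _ ≤ _ := by
          gcongr ?_ + ?_ + _
          · have : ig β q ω * (S1 + θ^2/2 * S2) ≤ |θ| * (ig β q ω * Real.sqrt ((mm f q ω)^2)) + θ^2/2 * D ω := by
              have := mul_le_mul_of_nonneg_left hDω (show 0 ≤ θ^2/2 by positivity)
              rw [hS1]
              nlinarith
            refine (ENNReal.ofReal_le_ofReal this).trans ENNReal.ofReal_add_le
          · apply le_of_eq; congr 1; rw [hS3]; ring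
  have hpart2 : ‖(∫ ω, ((ig β q ω : ℝ) : ℂ) * cexp (θ * mm f v ω) ∂PP) - ∫ ω, ((ig β q ω : ℝ) : ℂ) * ((E ω : ℝ) : ℂ) ∂PP‖ ≤
      |θ| * Real.sqrt (2 * (Real.exp ((k:ℝ)/2) / n) + 2 * (Real.exp ((p:ℝ)/2) / n * u o β + 4 * Real.exp ((o:ℝ)/2) * ell k)) +
      θ^2/2 * EB β n o k q p v + 3 * |θ| * Real.sqrt (4 * ell q * (Real.exp ((q:ℝ)/2) * u q β * (1/(B+1) + 2 * ell q))) +
      40 * |θ|^3 * ((B + 8) * ell q)^2 * (C3 β * Real.exp (5*q/4) * ((Real.sqrt q)⁻¹)^3) := by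
    rw [hcond]
    have hl := ell_pos q
    have hint1 : Integrable (fun ω => ((ig β q ω : ℝ) : ℂ) * (cexp (θ * mm f q ω) * CC f q v θ ω)) PP := by
      have h1 := (gl_mp q).integrable_comp_of_integrable hgZ
      have h2 := h1.integral_prod_left
      refine h2.congr ?_
      filter_upwards [mm_gl hf hf1 hqv θ] with ω hω
      have hd : ∀ ω', ig β q (gl q (ω, ω')) = ig β q ω := fun ω' => (ig_dep β le_rfl).gl (ω, ω')
      simp only [Function.comp_def, hd]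
      rw [integral_const_mul, hω]
    rw [← integral_sub hint1 hgE]
    have h3 := (enorm_integral_le_lintegral_enorm (μ := PP) (fun ω => ((ig β q ω : ℝ) : ℂ) * (cexp (θ * mm f q ω) * CC f q v θ ω) - ((ig β q ω : ℝ) : ℂ) * ((E ω : ℝ) : ℂ))).trans (lintegral_mono_ae hpt)
    have m1 : Measurable (fun ω => ENNReal.ofReal (|θ| * (ig β q ω * Real.sqrt ((mm f q ω)^2)))) :=
      ((hgm.mul (hmq.pow_const 2).sqrt).const_mul _).ennreal_ofReal
    have m3 : Measurable (fun ω => ENNReal.ofReal (3 * |θ| * (ig β q ω * Real.sqrt (4 * ell q * ∫ x, Γ.indicator (fun x => hh q x ω * hh q x ω) x ∂lam)))) :=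
      ((hgm.mul (hGam.const_mul _).sqrt).const_mul _).ennreal_ofReal
    have m2 : AEMeasurable (fun ω => ENNReal.ofReal (θ^2/2 * D ω)) PP := (hDI.aemeasurable.const_mul _).ennreal_ofReal
    have hh3m : Measurable (fun ω => ∫⁻ x, ENNReal.ofReal (hh q x ω ^ 3) ∂lam) := by
      have : Measurable (fun s : Om × ℝ => ENNReal.ofReal (hh q s.2 s.1 ^ 3)) := ((meas2 (hh_meas q) measurable_snd measurable_fst).pow_const 3).ennreal_ofReal
      exact this.lintegral_prod_right'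
    have m4 : Measurable (fun ω => ENNReal.ofReal (ig β q ω) * ∫⁻ x, ENNReal.ofReal (hh q x ω ^ 3) ∂lam) := hgm.ennreal_ofReal.mul hh3m
    have m12 : AEMeasurable (fun ω => ENNReal.ofReal (|θ| * (ig β q ω * Real.sqrt ((mm f q ω)^2))) + ENNReal.ofReal (θ^2/2 * D ω)) PP := m1.aemeasurable.add m2
    have m123 : AEMeasurable (fun ω => ENNReal.ofReal (|θ| * (ig β q ω * Real.sqrt ((mm f q ω)^2))) + ENNReal.ofReal (θ^2/2 * D ω) +
      ENNReal.ofReal (3 * |θ| * (ig β q ω * Real.sqrt (4 * ell q * ∫ x, Γ.indicator (fun x => hh q x ω * hh q x ω) x ∂lam)))) PP := m12.add m3.aemeasurable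
    rw [lintegral_add_left' m123, lintegral_add_left' m12, lintegral_add_left m1, lintegral_const_mul _ m4] at h3
    have t1 : ∫⁻ ω, ENNReal.ofReal (|θ| * (ig β q ω * Real.sqrt ((mm f q ω)^2))) ∂PP ≤
        ENNReal.ofReal (|θ| * Real.sqrt (2 * (Real.exp ((k:ℝ)/2) / n) + 2 * (Real.exp ((p:ℝ)/2) / n * u o β + 4 * Real.exp ((o:ℝ)/2) * ell k))) := by
      rw [← ofReal_integral_eq_lintegral_ofReal (hA2.1.const_mul _) (Eventually.of_forall fun ω => mul_nonneg (abs_nonneg _) (mul_nonneg (h01 ω).1 (Real.sqrt_nonneg _))),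
        integral_const_mul]
      exact ENNReal.ofReal_le_ofReal (mul_le_mul_of_nonneg_left hA2.2 (abs_nonneg _))
    have hDn : 0 ≤ᵐ[PP] fun ω => θ^2/2 * D ω := by
      filter_upwards [hDp] with ω hω
      have : 0 ≤ D ω := (mul_nonneg (ig_01 β o ω).1 (abs_nonneg _)).trans hω
      show (0:ℝ) ≤ θ^2/2 * D ω
      positivity
    have t2 : ∫⁻ ω, ENNReal.ofReal (θ^2/2 * D ω) ∂PP ≤ ENNReal.ofReal (θ^2/2 * EB β n o k q p v) := by
      rw [← ofReal_integral_eq_lintegral_ofReal (hDI.const_mul _) hDn, integral_const_mul]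
      exact ENNReal.ofReal_le_ofReal (mul_le_mul_of_nonneg_left hDb (by positivity))
    have t3 : ∫⁻ ω, ENNReal.ofReal (3 * |θ| * (ig β q ω * Real.sqrt (4 * ell q * ∫ x, Γ.indicator (fun x => hh q x ω * hh q x ω) x ∂lam))) ∂PP ≤
        ENNReal.ofReal (3 * |θ| * Real.sqrt (4 * ell q * (Real.exp ((q:ℝ)/2) * u q β * (1/(B+1) + 2 * ell q)))) := by
      rw [← ofReal_integral_eq_lintegral_ofReal (hA3.1.const_mul _) (Eventually.of_forall fun ω => mul_nonneg (by positivity) (mul_nonneg (h01 ω).1 (Real.sqrt_nonneg _))),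
        integral_const_mul]
      exact ENNReal.ofReal_le_ofReal (mul_le_mul_of_nonneg_left hA3.2 (by positivity))
    have t4 : ENNReal.ofReal (40 * |θ|^3 * ((B + 8) * ell q)^2) * ∫⁻ ω, ENNReal.ofReal (ig β q ω) * ∫⁻ x, ENNReal.ofReal (hh q x ω ^ 3) ∂lam ∂PP ≤
        ENNReal.ofReal (40 * |θ|^3 * ((B + 8) * ell q)^2 * (C3 β * Real.exp (5*q/4) * ((Real.sqrt q)⁻¹)^3)) := by
      exact enn_mul_le (by positivity) hthird
    have hEBn : 0 ≤ EB β n o k q p v := by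
      have : 0 ≤ ∫ ω, D ω ∂PP := integral_nonneg_of_ae (by
        filter_upwards [hDp] with ω hω
        exact (mul_nonneg (ig_01 β o ω).1 (abs_nonneg _)).trans hω)
      linarith
    have hC3 := C3_nonneg hβ
    rw [← ofReal_norm] at h3
    exact enn_combine (mul_nonneg (abs_nonneg _) (Real.sqrt_nonneg _)) (mul_nonneg (by positivity) hEBn)
      (mul_nonneg (by positivity) (Real.sqrt_nonneg _)) (by positivity) h3 t1 t2 t3 t4
  show ‖(∫ ω, cexp (θ * mm f v ω) ∂PP) - ((∫ ω, E ω ∂PP : ℝ) : ℂ)‖ ≤ TE β n o k q p v B θ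
  rw [hsplit]
  refine (norm_add_le _ _).trans ?_
  unfold TE
  linarith

end

end Pool.Agent.H968
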