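import Mathlib
import Pool.Agent.H968.Fin2
import Pool.Agent.H968.Jn

open MeasureTheory ProbabilityTheory Filter Topology Set
open scoped ENNReal NNReal

namespace Pool.Agent.H968

noncomputable section

section alg

variable {h z a y c K1 E n uo uq W : ℝ}

lemma z_small (hz : 1 ≤ z) (hza : z^10 ≤ a) : 1 ≤ a := le_trans (one_le_pow₀ hz) hza

lemma ay_small (hz : 1 ≤ z) (hza : z^10 ≤ a) (hay : a^4 ≤ y) : a^2 / y ≤ 1/z^2 := by
  have ha := z_small hz hza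
  have hy : 0 < y := lt_of_lt_of_le (by positivity) hay
  rw [div_le_div_iff₀ hy (by positivity), one_mul]
  have h1 : z^2 ≤ z^10 := pow_le_pow_right₀ hz (by norm_num)
  have h2 : a ≤ a^2 := le_self_pow₀ ha (by norm_num)
  have h3 : z ≤ a := (le_self_pow₀ hz (by norm_num)).trans hza
  calc a^2 * z^2 ≤ a^2 * a^2 := by gcongr
    _ = a^4 := by ring
    _ ≤ y := hay

lemma alg1 (hh : 0 < h) (hz : 1 ≤ z) (hza : z^10 ≤ a) (hay : a^4 ≤ y) (hc : 0 ≤ c) (hK : 0 ≤ K1) (hE : 0 ≤ E)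
    (hn : h^4 ≤ n) (hu0 : 0 ≤ uo) (hu : uo ≤ K1/a^2) (hW : W ≤ c * a^2 * h^2) :
    W * (2 * ((h^2/y)/n) + 2 * ((h^2/z^2)/n * uo + 4 * (h^2/y^3) * (E*y^2/h^4))) ≤ c*(2+2*K1+8*E)/z^2 := by
  have ha := z_small hz hza
  have hy : 0 < y := lt_of_lt_of_le (by positivity) hay
  have hn0 : 0 < n := lt_of_lt_of_le (by positivity) hn
  have hz0 : 0 < z := by linarith
  have ha0 : 0 < a := by linarith
  calc W * (2 * ((h^2/y)/n) + 2 * ((h^2/z^2)/n * uo + 4 * (h^2/y^3) * (E*y^2/h^4)))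
      ≤ (c * a^2 * h^2) * (2 * ((h^2/y)/h^4) + 2 * ((h^2/z^2)/h^4 * (K1/a^2) + 4 * (h^2/y^3) * (E*y^2/h^4))) := by
        gcongr
    _ = c * (2 * (a^2/y) + 2*K1/z^2 + 8*E*(a^2/y)) := by field_simp; ring
    _ ≤ c * (2 * (1/z^2) + 2*K1/z^2 + 8*E*(1/z^2)) := by
        have := ay_small hz hza hay
        gcongr
    _ = _ := by ring

lemma zy_small (hz : 1 ≤ z) (hza : z^10 ≤ a) (hay : a^4 ≤ y) : a^2 * (z^6/y^3) ≤ 1/z^2 := by
  have ha := z_small hz hza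
  have hy : 0 < y := lt_of_lt_of_le (by positivity) hay
  have hy1 : 1 ≤ y := le_trans (one_le_pow₀ ha) hay
  have hz0 : 0 < z := by linarith
  have h1 := ay_small hz hza hay
  have h2 : z^6 / y^2 ≤ 1 := by
    rw [div_le_one (by positivity)]
    calc z^6 ≤ z^10 := pow_le_pow_right₀ hz (by norm_num)
      _ ≤ a := hza
      _ ≤ a^4 := le_self_pow₀ ha (by norm_num)
      _ ≤ y := hay
      _ ≤ y^2 := le_self_pow₀ hy1 (by norm_num)
  calc a^2 * (z^6/y^3) = (a^2/y) * (z^6/y^2) := by field_simp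
    _ ≤ (1/z^2) * 1 := by gcongr
    _ = _ := by ring

/-- the variance error term -/
lemma alg2 (hh : 1 ≤ h) (hz : 1 ≤ z) (hza : z^10 ≤ a) (hay : a^4 ≤ y) (hah : a^8 ≤ h) (hc : 0 ≤ c) (hK : 0 ≤ K1) (hE : 0 ≤ E)
    (hn : h^4 ≤ n) (hu0 : 0 ≤ uo) (hu : uo ≤ K1/a^2) (hW0 : 0 ≤ W) (hW : W ≤ c * a^2 * h^2)
    {D J r : ℝ} (hD : D = z^4 * (4 * (E*z^4/h^4))) (hJ0 : 0 ≤ J) (hJ : J ≤ D) (hr0 : 0 ≤ r) (hr : r ≤ 1/z^6) :
    W * (((h^2/z^2)/n * uo + 4 * (h^2/y^3) * (E*y^2/h^4)) +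
      D * ((h^2/z^6) * (1/z^4) * (uo + z^6/y^3)) +
      2 * D * (2 * (E*z^4/h^4) * (h^2/z^6)) +
      J * (2 * ((h^2/z^6) * r * (uo + z^6/y^3)) + 2 * (1/(4*n)) * (h^2/z^6))) ≤ c * (K1 + 4*E + 4*E*(K1+1) + 16*E^2 + 8*E*(K1+1) + 2*E)/z^2 := by
  have ha := z_small hz hza
  have hy : 0 < y := lt_of_lt_of_le (by positivity) hay
  have hn0 : 0 < n := lt_of_lt_of_le (by positivity) hn
  have hz0 : 0 < z := by linarith
  have ha0 : 0 < a := by linarith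
  have hh0 : 0 < h := by linarith
  subst hD
  have zy := zy_small hz hza hay
  have ays := ay_small hz hza hay
  have hz2 : z^2 ≤ z^10 := pow_le_pow_right₀ hz (by norm_num)
  calc W * (((h^2/z^2)/n * uo + 4 * (h^2/y^3) * (E*y^2/h^4)) +
      (z^4 * (4 * (E*z^4/h^4))) * ((h^2/z^6) * (1/z^4) * (uo + z^6/y^3)) +
      2 * (z^4 * (4 * (E*z^4/h^4))) * (2 * (E*z^4/h^4) * (h^2/z^6)) +
      J * (2 * ((h^2/z^6) * r * (uo + z^6/y^3)) + 2 * (1/(4*n)) * (h^2/z^6)))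
      ≤ (c * a^2 * h^2) * (((h^2/z^2)/h^4 * (K1/a^2) + 4 * (h^2/y^3) * (E*y^2/h^4)) +
      (z^4 * (4 * (E*z^4/h^4))) * ((h^2/z^6) * (1/z^4) * (K1/a^2 + z^6/y^3)) +
      2 * (z^4 * (4 * (E*z^4/h^4))) * (2 * (E*z^4/h^4) * (h^2/z^6)) +
      (z^4 * (4 * (E*z^4/h^4))) * (2 * ((h^2/z^6) * (1/z^6) * (K1/a^2 + z^6/y^3)) + 2 * (1/(4*h^4)) * (h^2/z^6))) := by
        gcongr
    _ = c * (K1/z^2 + 4*E*(a^2/y) + 4*E*(1/z^2)*(K1 + a^2*(z^6/y^3)) + 16*E^2*(a^2 * z^6/h^4) + 8*E*(1/z^4)*(K1 + a^2 * (z^6/y^3)) + 2*E*(a^2*z^2/h^4)) := by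
        field_simp
        ring
    _ ≤ c * (K1/z^2 + 4*E*(1/z^2) + 4*E*(1/z^2)*(K1 + 1) + 16*E^2*(1/z^2) + 8*E*(1/z^2)*(K1 + 1) + 2*E*(1/z^2)) := by
        have e1 : a^2*(z^6/y^3) ≤ 1 := zy.trans (by rw [div_le_one (by positivity)]; exact one_le_pow₀ hz)
        have e2 : 1/z^4 ≤ 1/z^2 := by
          apply one_div_le_one_div_of_le (by positivity)
          exact pow_le_pow_right₀ hz (by norm_num)
        have e3 : a^2 * z^6/h^4 ≤ 1/z^2 := by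
          rw [div_le_div_iff₀ (by positivity) (by positivity)]
          calc a^2 * z^6 * z^2 = a^2 * z^8 := by ring
            _ ≤ a^2 * z^10 := by
              have : z^8 ≤ z^10 := pow_le_pow_right₀ hz (by norm_num)
              gcongr
            _ ≤ a^2 * a := by gcongr
            _ = a^3 := by ring
            _ ≤ a^8 := pow_le_pow_right₀ ha (by norm_num)
            _ ≤ h := hah
            _ ≤ h^4 := le_self_pow₀ hh (by norm_num)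
            _ = 1 * h^4 := by ring
        have e4 : a^2*z^2/h^4 ≤ 1/z^2 := by
          refine le_trans ?_ e3
          have : z^2 ≤ z^6 := pow_le_pow_right₀ hz (by norm_num)
          gcongr
        gcongr
    _ = _ := by ring

lemma alg3 (hh : 1 ≤ h) (hz : 1 ≤ z) (hza : z^10 ≤ a) (hah : a^8 ≤ h) (hc : 0 ≤ c) (hK : 0 ≤ K1) (hE : 0 ≤ E)
    (hu0 : 0 ≤ uq) (hu : uq ≤ K1/a^2) (hW : W ≤ c * a^2 * h^2) :
    W * (4 * (E*z^12/h^4) * ((h^2/z^6) * uq * (1/(z^8+1) + 2 * (E*z^12/h^4)))) ≤ c * (4*E*K1*(1+2*E))/z^2 := by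
  have ha := z_small hz hza
  have hz0 : 0 < z := by linarith
  have ha0 : 0 < a := by linarith
  have hh0 : 0 < h := by linarith
  calc W * (4 * (E*z^12/h^4) * ((h^2/z^6) * uq * (1/(z^8+1) + 2 * (E*z^12/h^4))))
      ≤ (c * a^2 * h^2) * (4 * (E*z^12/h^4) * ((h^2/z^6) * (K1/a^2) * (1/z^8 + 2 * (E*z^12/h^4)))) := by
        have : 1/(z^8+1) ≤ 1/z^8 := one_div_le_one_div_of_le (by positivity) (by linarith)
        gcongr
    _ = c * (4*E*K1*(1/z^2 + 2*E*(z^18/h^4))) := by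
        field_simp
    _ ≤ c * (4*E*K1*(1/z^2 + 2*E*(1/z^2))) := by
        have e3 : z^18/h^4 ≤ 1/z^2 := by
          rw [div_le_div_iff₀ (by positivity) (by positivity)]
          calc z^18 * z^2 = (z^10)^2 := by ring
            _ ≤ a^2 := by gcongr
            _ ≤ a^8 := pow_le_pow_right₀ ha (by norm_num)
            _ ≤ h := hah
            _ ≤ h^4 := le_self_pow₀ hh (by norm_num)
            _ = 1 * h^4 := by ring
        gcongr
    _ = _ := by ring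

lemma alg4 (hh : 1 ≤ h) (hz : 1 ≤ z) (hza : z^10 ≤ a) {c1 A T S : ℝ} (hc : 0 ≤ c1) (hE : 0 ≤ E)
    (hT0 : 0 ≤ T) (hT : T ≤ c1 * a * h) (hA : 0 ≤ A) (hS0 : 0 ≤ S) (hS : S ≤ 2/a^2) :
    40 * T^3 * ((z^8 + 8) * (E*z^12/h^4))^2 * (A * (h/z^3)^5 * S^3) ≤ 25920*E^2*c1^3*A/z := by
  have ha := z_small hz hza
  have hz0 : 0 < z := by linarith
  have ha0 : 0 < a := by linarith
  have hh0 : 0 < h := by linarith
  have h8 : z^8 + 8 ≤ 9 * z^8 := by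
    have : 1 ≤ z^8 := one_le_pow₀ hz
    linarith
  calc 40 * T^3 * ((z^8 + 8) * (E*z^12/h^4))^2 * (A * (h/z^3)^5 * S^3)
      ≤ 40 * (c1 * a * h)^3 * ((9*z^8) * (E*z^12/h^4))^2 * (A * (h/z^3)^5 * (2/a^2)^3) := by
        gcongr
    _ = 25920*E^2*c1^3*A*(z^25/a^3) := by
        field_simp
        ring
    _ ≤ 25920*E^2*c1^3*A*(1/z) := by
        have : z^25/a^3 ≤ 1/z := by
          rw [div_le_div_iff₀ (by positivity) (by positivity)]
          calc z^25 * z = z^26 := by ring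
            _ ≤ z^30 := pow_le_pow_right₀ hz (by norm_num)
            _ = (z^10)^3 := by ring
            _ ≤ a^3 := by gcongr
            _ = 1 * a^3 := by ring
        gcongr
    _ = _ := by ring

end alg

/-- parameter relations -/
structure Par (n L s l o k q p v : ℕ) : Prop where
  hn1 : Real.exp L ≤ n
  hn2 : (n:ℝ) ≤ Real.exp (L+1)
  hp : p + s = L
  hq : q + 3*s = L
  hk : k + 2*l = L
  ho : o + 6*l = L
  hs : Real.exp (10*s) ≤ L
  hl : (L:ℝ) ≤ Real.exp l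
  hL8 : (L:ℝ)^8 ≤ Real.exp L
  ho4 : L ≤ 4*o
  hq4 : L ≤ 4*q
  ho1 : o ≠ 0
  hsl : 3*s ≤ 2*l
  hq3 : 3 ≤ q
  hv : 2*L+2 ≤ v

section

variable {n L s l o k q p v : ℕ}

lemma Par.L1 (h : Par n L s l o k q p v) : (1:ℝ) ≤ L := by
  have h1 := h.hs
  have : (1:ℝ) ≤ Real.exp (10*s) := Real.one_le_exp (by positivity)
  linarith

lemma Par.n0 (h : Par n L s l o k q p v) : n ≠ 0 := by
  intro h0
  have h1 := h.hn1
  rw [h0] at h1
  have := Real.exp_pos (L:ℝ)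
  simp at h1
  linarith

lemma sqrt_inv_le {m : ℕ} (hL : (1:ℝ) ≤ L) (hm : L ≤ 4*m) : (Real.sqrt m)⁻¹ ≤ 2/(Real.sqrt (Real.sqrt L))^2 := by
  rw [Real.sq_sqrt (Real.sqrt_nonneg _)]
  have hm' : (L:ℝ) ≤ 4*m := by exact_mod_cast hm
  have h1 : Real.sqrt L ≤ 2 * Real.sqrt m := by
    rw [show (2:ℝ) * Real.sqrt m = Real.sqrt (4*m) by
      rw [Real.sqrt_mul (by norm_num), show (4:ℝ) = 2^2 by norm_num, Real.sqrt_sq (by norm_num)]]
    exact Real.sqrt_le_sqrt hm'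
  have hL0 : 0 < Real.sqrt L := Real.sqrt_pos.2 (by linarith)
  have hm0 : 0 < Real.sqrt m := by linarith
  rw [← one_div, div_le_div_iff₀ hm0 hL0]
  linarith

lemma u_bd {β : ℝ} (hβ : 0 ≤ β) {m : ℕ} (hL : (1:ℝ) ≤ L) (hm : L ≤ 4*m) :
    u m β ≤ 2 * kap * (β+2) / (Real.sqrt (Real.sqrt L))^2 := by
  have hm0 : m ≠ 0 := by
    intro h0; subst h0
    have : L = 0 := by omega
    rw [this] at hL; norm_num at hL
  refine (u_le_lin hm0 hβ).trans ?_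
  have h1 := sqrt_inv_le hL hm
  have h2 := kap_pos
  calc kap * (β+2) * (Real.sqrt m)⁻¹ ≤ kap * (β+2) * (2/(Real.sqrt (Real.sqrt L))^2) := by gcongr
    _ = _ := by ring

lemma Par.za (h : Par n L s l o k q p v) : (Real.exp ((s:ℝ)/4))^10 ≤ Real.sqrt (Real.sqrt L) := by
  have hL := h.L1
  apply Real.le_sqrt_of_sq_le
  apply Real.le_sqrt_of_sq_le
  rw [← Real.exp_nat_mul, ← Real.exp_nat_mul, ← Real.exp_nat_mul]
  refine le_trans (le_of_eq ?_) h.hs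
  congr 1; push_cast; ring

lemma Par.a4 (h : Par n L s l o k q p v) : (Real.sqrt (Real.sqrt L))^4 = L := by
  have hL := h.L1
  rw [show (4:ℕ) = 2*2 by norm_num, pow_mul, Real.sq_sqrt (Real.sqrt_nonneg _), Real.sq_sqrt (by linarith)]

lemma Par.ah (h : Par n L s l o k q p v) : (Real.sqrt (Real.sqrt L))^8 ≤ Real.exp ((L:ℝ)/4) := by
  have hL := h.L1
  have h1 : (Real.sqrt (Real.sqrt L))^8 = (L:ℝ)^2 := by
    rw [show (8:ℕ) = 4*2 by norm_num, pow_mul, h.a4]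
  rw [h1]
  have h2 := h.hL8
  have h3 : Real.exp (L:ℝ) = (Real.exp ((L:ℝ)/4))^4 := by
    rw [← Real.exp_nat_mul]; congr 1; push_cast; ring
  rw [h3] at h2
  have h4 : ((L:ℝ)^2)^4 ≤ (Real.exp ((L:ℝ)/4))^4 := by rw [← pow_mul]; exact h2
  exact le_of_pow_le_pow_left₀ (by norm_num) (Real.exp_pos _).le h4

theorem TE_bound {β : ℝ} (hβ : 0 ≤ β) {c1 : ℝ} (hc1 : 0 ≤ c1) : ∃ K : ℝ, 0 ≤ K ∧ ∀ {n L s l o k q p v : ℕ}, Par n L s l o k q p v →
    ∀ θ : ℝ, |θ| ≤ c1 * Real.sqrt (Real.sqrt L) * Real.exp ((L:ℝ)/4) →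
    TE β n o k q p v (Real.exp (2*s)) θ ≤ 2 * dl β + K / Real.exp ((s:ℝ)/4) := by
  set K1 := 2 * kap * (β+2) with hK1
  set E := Real.exp 1 with hE
  set c := c1^2 with hc
  have hE0 : 0 < E := Real.exp_pos _
  have hK10 : 0 ≤ K1 := by have := kap_pos; positivity
  have hC3 := C3_nonneg hβ
  refine ⟨Real.sqrt (c*(2+2*K1+8*E)) + c * (K1 + 4*E + 4*E*(K1+1) + 16*E^2 + 8*E*(K1+1) + 2*E)/2 + 3 * Real.sqrt (c * (4*E*K1*(1+2*E))) +
    25920*E^2*c1^3*C3 β, by positivity, ?_⟩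
  intro n L s l o k q p v h θ hθ
  set a := Real.sqrt (Real.sqrt L) with ha
  set H := Real.exp ((L:ℝ)/4) with hH
  set z := Real.exp ((s:ℝ)/4) with hz
  set y := Real.exp (l:ℝ) with hy
  have hL := h.L1
  have hza : z^10 ≤ a := h.za
  have hz1 : 1 ≤ z := Real.one_le_exp (by positivity)
  have ha1 : 1 ≤ a := z_small hz1 hza
  have hH1 : 1 ≤ H := Real.one_le_exp (by positivity)
  have hah : a^8 ≤ H := h.ah
  have hay : a^4 ≤ y := by rw [h.a4]; exact h.hl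
  have hz0 : 0 < z := by linarith
  have hy0 : 0 < y := Real.exp_pos _
  have hH0 : 0 < H := by linarith
  have hpr : (p:ℝ) = L - s := by have := h.hp; rw [← this]; push_cast; ring
  have hqr : (q:ℝ) = L - 3*s := by have := h.hq; rw [← this]; push_cast; ring
  have hkr : (k:ℝ) = L - 2*l := by have := h.hk; rw [← this]; push_cast; ring
  have hor : (o:ℝ) = L - 6*l := by have := h.ho; rw [← this]; push_cast; ring
  have ep : Real.exp ((p:ℝ)/2) = H^2/z^2 := by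
    rw [hH, hz, ← Real.exp_nat_mul, ← Real.exp_nat_mul, ← Real.exp_sub, hpr]; congr 1; push_cast; ring
  have eq' : Real.exp ((q:ℝ)/2) = H^2/z^6 := by
    rw [hH, hz, ← Real.exp_nat_mul, ← Real.exp_nat_mul, ← Real.exp_sub, hqr]; congr 1; push_cast; ring
  have ek' : Real.exp ((k:ℝ)/2) = H^2/y := by
    rw [hH, hy, ← Real.exp_nat_mul, ← Real.exp_sub, hkr]; congr 1; push_cast; ring
  have eo : Real.exp ((o:ℝ)/2) = H^2/y^3 := by
    rw [hH, hy, ← Real.exp_nat_mul, ← Real.exp_nat_mul, ← Real.exp_sub, hor]; congr 1; push_cast; ring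
  have lp : ell p = E*z^4/H^4 := by
    unfold ell
    rw [hH, hz, hE, ← Real.exp_nat_mul, ← Real.exp_nat_mul, ← Real.exp_add, ← Real.exp_sub, hpr]; congr 1; push_cast; ring
  have lq : ell q = E*z^12/H^4 := by
    unfold ell
    rw [hH, hz, hE, ← Real.exp_nat_mul, ← Real.exp_nat_mul, ← Real.exp_add, ← Real.exp_sub, hqr]; congr 1; push_cast; ring
  have lk : ell k = E*y^2/H^4 := by
    unfold ell
    rw [hH, hy, hE, ← Real.exp_nat_mul, ← Real.exp_nat_mul, ← Real.exp_add, ← Real.exp_sub, hkr]; congr 1; push_cast; ring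
  have eDK : DK q p = z^4 * (4 * (E*z^4/H^4)) := by
    unfold DK
    rw [lp]
    congr 1
    rw [hz, ← Real.exp_nat_mul, hpr, hqr]; congr 1; push_cast; ring
  have esq1 : Real.sqrt (Real.exp (-((p:ℝ)-q))) = 1/z^4 := by
    rw [show Real.exp (-((p:ℝ)-q)) = (1/z^4)^2 by
      rw [div_pow, one_pow, ← pow_mul, hz, ← Real.exp_nat_mul, one_div, ← Real.exp_neg, hpr, hqr]; congr 1; push_cast; ring,
      Real.sqrt_sq (by positivity)]
  have esq2 : Real.sqrt (Real.exp (-((q:ℝ)-o))) = z^6/y^3 := by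
    rw [show Real.exp (-((q:ℝ)-o)) = (z^6/y^3)^2 by
      rw [div_pow, ← pow_mul, ← pow_mul, hz, hy, ← Real.exp_nat_mul, ← Real.exp_nat_mul, ← Real.exp_sub, hor, hqr]; congr 1; push_cast; ring,
      Real.sqrt_sq (by positivity)]
  have hnH : H^4 ≤ (n:ℝ) := by
    refine le_trans (le_of_eq ?_) h.hn1
    rw [hH, ← Real.exp_nat_mul]; congr 1; push_cast; ring
  have hn0 : (0:ℝ) < n := lt_of_lt_of_le (by positivity) hnH
  have hr : Real.sqrt (1/(4*(n:ℝ)) * Real.exp ((q:ℝ)-1)) ≤ 1/z^6 := by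
    rw [show (1/z^6:ℝ) = Real.sqrt ((1/z^6)^2) by rw [Real.sqrt_sq (by positivity)]]
    apply Real.sqrt_le_sqrt
    have e1 : Real.exp ((q:ℝ)-1) ≤ H^4/z^12 := by
      rw [hH, hz, ← Real.exp_nat_mul, ← Real.exp_nat_mul, ← Real.exp_sub, hqr]
      apply Real.exp_le_exp.2; push_cast; linarith
    calc 1/(4*(n:ℝ)) * Real.exp ((q:ℝ)-1) ≤ 1/(4*H^4) * (H^4/z^12) := by gcongr
      _ = (1/4) * (1/z^6)^2 := by field_simp
      _ ≤ 1 * (1/z^6)^2 := by gcongr; norm_num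
      _ = _ := by ring
  have huo := u_bd hβ hL h.ho4
  have huq := u_bd hβ hL h.hq4
  rw [← hK1, ← ha] at huo huq
  have huo0 := u_nonneg o β
  have huq0 := u_nonneg q β
  have hW : θ^2 ≤ c * a^2 * H^2 := by
    rw [← sq_abs]
    calc |θ|^2 ≤ (c1 * a * H)^2 := by gcongr
      _ = _ := by rw [hc]; ring
  have hW0 : 0 ≤ θ^2 := sq_nonneg θ
  have hc0 : 0 ≤ c := sq_nonneg c1
  have hp0 : p ≠ 0 := by have := h.hq3; have := h.hp; have := h.hq; omega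
  have hqp : q ≤ p := by have := h.hp; have := h.hq; omega
  have hpv : p ≤ v := by have := h.hp; have := h.hv; omega
  have hJ := JJ_abs (n := n) hp0 hqp hpv
  -- the four terms
  have T1 : |θ| * Real.sqrt (2 * (Real.exp ((k:ℝ)/2) / n) + 2 * (Real.exp ((p:ℝ)/2) / n * u o β + 4 * Real.exp ((o:ℝ)/2) * ell k)) ≤
      Real.sqrt (c*(2+2*K1+8*E)) / z := by
    rw [← Real.sqrt_sq_eq_abs, ← Real.sqrt_mul hW0, ek', ep, eo, lk]
    have := alg1 hH0 hz1 hza hay hc0 hK10 hE0.le hnH huo0 huo hW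
    refine (Real.sqrt_le_sqrt this).trans (le_of_eq ?_)
    rw [Real.sqrt_div (by positivity), Real.sqrt_sq hz0.le]
  have T2 : θ^2/2 * EB β n o k q p v ≤ c * (K1 + 4*E + 4*E*(K1+1) + 16*E^2 + 8*E*(K1+1) + 2*E)/2 / z := by
    unfold EB
    rw [ep, eo, lk, eDK, eq', esq1, esq2, lp]
    have := alg2 hH1 hz1 hza hay hah hc0 hK10 hE0.le hnH huo0 huo hW0 hW eDK (abs_nonneg (JJ n q p v)) hJ
      (Real.sqrt_nonneg (1/(4*(n:ℝ)) * Real.exp ((q:ℝ)-1))) hr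
    rw [eDK] at this
    have h2 : c * (K1 + 4*E + 4*E*(K1+1) + 16*E^2 + 8*E*(K1+1) + 2*E)/z^2 ≤ c * (K1 + 4*E + 4*E*(K1+1) + 16*E^2 + 8*E*(K1+1) + 2*E)/z := by
      apply div_le_div_of_nonneg_left (by positivity) hz0
      exact le_self_pow₀ hz1 (by norm_num)
    have h3 := this.trans h2
    calc _ = (1/2) * (θ^2 * (((H^2/z^2)/n * u o β + 4 * (H^2/y^3) * (E*y^2/H^4)) +
      (z^4 * (4 * (E*z^4/H^4))) * ((H^2/z^6) * (1/z^4) * (u o β + z^6/y^3)) +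
      2 * (z^4 * (4 * (E*z^4/H^4))) * (2 * (E*z^4/H^4) * (H^2/z^6)) +
      |JJ n q p v| * (2 * ((H^2/z^6) * Real.sqrt (1/(4*(n:ℝ)) * Real.exp ((q:ℝ)-1)) * (u o β + z^6/y^3)) + 2 * (1/(4*n)) * (H^2/z^6)))) := by ring
      _ ≤ (1/2) * (c * (K1 + 4*E + 4*E*(K1+1) + 16*E^2 + 8*E*(K1+1) + 2*E)/z) := by gcongr
      _ = _ := by ring
  have T3 : 3 * |θ| * Real.sqrt (4 * ell q * (Real.exp ((q:ℝ)/2) * u q β * (1/(Real.exp (2*s)+1) + 2 * ell q))) ≤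
      3 * Real.sqrt (c * (4*E*K1*(1+2*E))) / z := by
    have e8 : Real.exp (2*(s:ℝ)) = z^8 := by rw [hz, ← Real.exp_nat_mul]; congr 1; push_cast; ring
    rw [mul_assoc, ← Real.sqrt_sq_eq_abs, ← Real.sqrt_mul hW0, eq', lq, e8]
    have := alg3 hH1 hz1 hza hah hc0 hK10 hE0.le huq0 huq hW
    have h2 := Real.sqrt_le_sqrt this
    rw [Real.sqrt_div (by positivity), Real.sqrt_sq hz0.le] at h2
    calc _ ≤ 3 * (Real.sqrt (c * (4*E*K1*(1+2*E))) / z) := by gcongr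
      _ = _ := by ring
  have T4 : 40 * |θ|^3 * ((Real.exp (2*s) + 8) * ell q)^2 * (C3 β * Real.exp (5*q/4) * ((Real.sqrt q)⁻¹)^3) ≤ 25920*E^2*c1^3*C3 β / z := by
    have e8 : Real.exp (2*(s:ℝ)) = z^8 := by rw [hz, ← Real.exp_nat_mul]; congr 1; push_cast; ring
    have e5 : Real.exp (5*q/4) = (H/z^3)^5 := by
      rw [div_pow, ← pow_mul, hz, hH, ← Real.exp_nat_mul, ← Real.exp_nat_mul, ← Real.exp_sub, hqr]; congr 1; push_cast; ring
    rw [e8, e5, lq]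
    exact alg4 hH1 hz1 hza hc1 hE0.le (abs_nonneg θ) hθ hC3 (by positivity) (sqrt_inv_le hL h.hq4)
  unfold TE
  have : ∀ A B C D : ℝ, (A + B + 3*C + D)/z = A/z + B/z + 3*C/z + D/z := by intro A B C D; ring
  rw [this]
  linarith

end

end

end Pool.Agent.H968
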