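import Mathlib
import Pool.Agent.H968.Fin3

open MeasureTheory ProbabilityTheory Filter Topology Set
open scoped ENNReal NNReal

namespace Pool.Agent.H968

noncomputable section

/-- the Laplace transform of a nonnegative variable -/
def LT (Λ : Om → ℝ) (s : ℝ) : ℝ := ∫ ω, Real.exp (-(s * Λ ω)) ∂PP

lemma LT_int {Λ : Om → ℝ} (hm : Measurable Λ) (h0 : ∀ ω, 0 ≤ Λ ω) {s : ℝ} (hs : 0 ≤ s) :
    Integrable (fun ω => Real.exp (-(s * Λ ω))) PP := by
  refine Integrable.of_bound (Real.measurable_exp.comp ((hm.const_mul s).neg)).aestronglyMeasurable 1 (Eventually.of_forall fun ω => ?_)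
  rw [Real.norm_eq_abs, abs_of_pos (Real.exp_pos _), Real.exp_le_one_iff]
  have := mul_nonneg hs (h0 ω)
  linarith

lemma LT_anti {Λ : Om → ℝ} (hm : Measurable Λ) (h0 : ∀ ω, 0 ≤ Λ ω) {s t : ℝ} (hs : 0 ≤ s) (hst : s ≤ t) :
    LT Λ t ≤ LT Λ s := by
  unfold LT
  apply integral_mono (LT_int hm h0 (hs.trans hst)) (LT_int hm h0 hs)
  intro ω
  apply Real.exp_le_exp.2
  have := mul_le_mul_of_nonneg_right hst (h0 ω)
  linarith

lemma LT_cont {Λ : Om → ℝ} (hm : Measurable Λ) (h0 : ∀ ω, 0 ≤ Λ ω) {s : ℝ} (hs : 0 ≤ s) {ε : ℝ} (hε : 0 < ε) :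
    ∃ δ > 0, ∀ t, 0 ≤ t → |t - s| ≤ δ → |LT Λ t - LT Λ s| ≤ ε := by
  by_contra hcon
  push Not at hcon
  have h1 : ∀ n : ℕ, ∃ t, 0 ≤ t ∧ |t - s| ≤ 1/((n:ℝ)+1) ∧ ε < |LT Λ t - LT Λ s| := fun n => hcon _ (by positivity)
  choose T hT0 hT1 hT2 using h1
  have hT : Tendsto T atTop (𝓝 s) := by
    rw [tendsto_iff_dist_tendsto_zero]
    refine squeeze_zero (fun n => dist_nonneg) (fun n => ?_) tendsto_one_div_add_atTop_nhds_zero_nat
    rw [Real.dist_eq]; exact hT1 n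
  have hlim : Tendsto (fun n => LT Λ (T n)) atTop (𝓝 (LT Λ s)) := by
    unfold LT
    apply tendsto_integral_of_dominated_convergence (fun _ => (1:ℝ))
    · intro n; exact (LT_int hm h0 (hT0 n)).aestronglyMeasurable
    · exact integrable_const _
    · intro n
      refine Eventually.of_forall fun ω => ?_
      rw [Real.norm_eq_abs, abs_of_pos (Real.exp_pos _), Real.exp_le_one_iff]
      have := mul_nonneg (hT0 n) (h0 ω)
      linarith
    · refine Eventually.of_forall fun ω => ?_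
      exact (Real.continuous_exp.tendsto _).comp ((hT.mul_const _).neg)
  have h2 := (hlim.sub_const (LT Λ s)).abs
  rw [sub_self, abs_zero] at h2
  have h3 := (h2.eventually (gt_mem_nhds hε)).exists
  obtain ⟨n, hn⟩ := h3
  exact absurd hn (not_lt.2 (hT2 n).le)

lemma laplace_unif {Λ : Om → ℝ} (hm : Measurable Λ) (h0 : ∀ ω, 0 ≤ Λ ω)
    (hl : ∀ s : ℝ, 0 ≤ s → Tendsto (fun j : ℕ => ∫ ω, Real.exp (-(s * (Real.sqrt j * MM j ω))) ∂PP) atTop (𝓝 (LT Λ s)))
    {s : ℝ} (hs : 0 ≤ s) {ε : ℝ} (hε : 0 < ε) :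
    ∃ δ > 0, ∃ q0 : ℕ, ∀ q ≥ q0, ∀ t, 0 ≤ t → |t - s| ≤ δ →
      |(∫ ω, Real.exp (-(t * (Real.sqrt q * MM q ω))) ∂PP) - LT Λ s| ≤ ε := by
  obtain ⟨δ, hδ, hc⟩ := LT_cont hm h0 hs (half_pos hε)
  have a1 : 0 ≤ max (s-δ) 0 := le_max_right _ _
  have a2 : 0 ≤ s + δ := by linarith
  have b1 : |max (s-δ) 0 - s| ≤ δ := by
    rw [abs_le]
    constructor
    · have := le_max_left (s-δ) 0; linarith
    · have : max (s-δ) 0 ≤ s := max_le (by linarith) hs
      linarith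
  have b2 : |(s+δ) - s| ≤ δ := by rw [add_sub_cancel_left, abs_of_pos hδ]
  have c1 := hc _ a1 b1
  have c2 := hc _ a2 b2
  obtain ⟨q1, hq1⟩ := eventually_atTop.1 ((Metric.tendsto_nhds.1 (hl _ a1)) (ε/2) (half_pos hε))
  obtain ⟨q2, hq2⟩ := eventually_atTop.1 ((Metric.tendsto_nhds.1 (hl _ a2)) (ε/2) (half_pos hε))
  refine ⟨δ, hδ, max q1 q2, fun q hq t ht0 ht => ?_⟩
  have d1 := hq1 q ((le_max_left _ _).trans hq)
  have d2 := hq2 q ((le_max_right _ _).trans hq)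
  rw [Real.dist_eq] at d1 d2
  rw [abs_le] at ht
  have hmX : Measurable (fun ω => Real.sqrt q * MM q ω) := (MM_meas q).const_mul _
  have hX0 : ∀ ω, 0 ≤ Real.sqrt q * MM q ω := fun ω => mul_nonneg (Real.sqrt_nonneg _) (MM_nonneg q ω)
  have e1 := LT_anti hmX hX0 a1 (show max (s-δ) 0 ≤ t from max_le (by linarith) ht0)
  have e2 := LT_anti hmX hX0 ht0 (show t ≤ s + δ by linarith)
  unfold LT at e1 e2
  rw [abs_lt] at d1 d2
  rw [abs_le] at c1 c2 ⊢
  constructor <;> linarith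

/-- parameters as functions of n -/
def Lf (n : ℕ) : ℕ := ⌊Real.log n⌋₊
/-- slowly growing level -/
def sf (n : ℕ) : ℕ := ⌊Real.log (Lf n) / 10⌋₊
/-- logarithmic level -/
def lf (n : ℕ) : ℕ := ⌈Real.log (Lf n)⌉₊

lemma Lf_tendsto : Tendsto Lf atTop atTop :=
  tendsto_nat_floor_atTop.comp (Real.tendsto_log_atTop.comp tendsto_natCast_atTop_atTop)

lemma sf_tendsto : Tendsto sf atTop atTop := by
  apply tendsto_nat_floor_atTop.comp
  apply Tendsto.atTop_div_const (by norm_num)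
  exact Real.tendsto_log_atTop.comp (tendsto_natCast_atTop_atTop.comp Lf_tendsto)

lemma Par_ev : ∀ᶠ n in atTop, ∀ v, 2 * Lf n + 2 ≤ v →
    Par n (Lf n) (sf n) (lf n) (Lf n - 6 * lf n) (Lf n - 2 * lf n) (Lf n - 3 * sf n) (Lf n - sf n) v := by
  have h1 : ∀ᶠ L : ℕ in atTop, ‖Real.log (L:ℝ)‖ ≤ (1/16) * ‖(L:ℝ)‖ :=
    tendsto_natCast_atTop_atTop.eventually (Real.isLittleO_log_id_atTop.bound (by norm_num : (0:ℝ) < 1/16))
  have h2 := Lf_tendsto.eventually h1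
  have h3 := Lf_tendsto.eventually (eventually_ge_atTop 100)
  filter_upwards [h2, h3, eventually_ge_atTop 1] with n hn1 hn2 hn3 v hv
  set L := Lf n with hL
  have hLr : (100:ℝ) ≤ L := by exact_mod_cast hn2
  have hlog0 : 0 ≤ Real.log (L:ℝ) := Real.log_nonneg (by linarith)
  rw [Real.norm_eq_abs, Real.norm_eq_abs, abs_of_nonneg hlog0, abs_of_nonneg (by linarith)] at hn1
  have hn0 : (0:ℝ) < n := by exact_mod_cast hn3
  have hlogn : 0 ≤ Real.log (n:ℝ) := Real.log_nonneg (by exact_mod_cast hn3)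
  have f1 : (L:ℝ) ≤ Real.log n := Nat.floor_le hlogn
  have f2 : Real.log n < L + 1 := Nat.lt_floor_add_one _
  have s1 : (sf n : ℝ) ≤ Real.log L / 10 := Nat.floor_le (by positivity)
  have l1 : Real.log L ≤ (lf n : ℝ) := Nat.le_ceil _
  have l2 : (lf n : ℝ) < Real.log L + 1 := Nat.ceil_lt_add_one hlog0
  have hsl : 3 * sf n ≤ 2 * lf n := by
    have : (3 * sf n : ℝ) ≤ 2 * lf n := by linarith
    exact_mod_cast this
  have hl8 : 8 * lf n ≤ L := by
    have : (8 * lf n : ℝ) ≤ L := by linarith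
    exact_mod_cast this
  exact {
    hn1 := by rw [← Real.le_log_iff_exp_le hn0]; exact f1
    hn2 := by rw [← Real.log_le_iff_le_exp hn0]; exact f2.le
    hp := by omega
    hq := by omega
    hk := by omega
    ho := by omega
    hs := by
      rw [← Real.le_log_iff_exp_le (by linarith)]; linarith
    hl := by rw [← Real.log_le_iff_le_exp (by linarith)]; exact l1
    hL8 := by
      rw [← Real.log_le_iff_le_exp (by positivity), Real.log_pow]; push_cast; linarith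
    ho4 := by omega
    hq4 := by omega
    ho1 := by omega
    hsl := hsl
    hq3 := by omega
    hv := hv }

/-- the scale -/
def sc (n : ℕ) : ℝ := Real.sqrt (Real.sqrt (Real.log n)) * Real.sqrt (Real.sqrt n)

section

variable {n L s l o k q p v : ℕ}

lemma Par.logn (h : Par n L s l o k q p v) : (L:ℝ) ≤ Real.log n ∧ Real.log n ≤ L + 1 := by
  have hn0 : (0:ℝ) < n := by exact_mod_cast Nat.pos_of_ne_zero h.n0
  exact ⟨by rw [Real.le_log_iff_exp_le hn0]; exact h.hn1, by rw [Real.log_le_iff_le_exp hn0]; exact h.hn2⟩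

lemma sc_sq (n : ℕ) : sc n ^ 2 = Real.sqrt (Real.log n) * Real.sqrt n := by
  unfold sc; rw [mul_pow, Real.sq_sqrt (Real.sqrt_nonneg _), Real.sq_sqrt (Real.sqrt_nonneg _)]

lemma Par.sc_le (h : Par n L s l o k q p v) : sc n ≤ 4 * Real.sqrt (Real.sqrt L) * Real.exp ((L:ℝ)/4) := by
  have hL := h.L1
  have h1 : Real.sqrt (Real.sqrt (Real.log n)) ≤ 2 * Real.sqrt (Real.sqrt L) := by
    have : (2:ℝ) * Real.sqrt (Real.sqrt L) = Real.sqrt (Real.sqrt (16*L)) := by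
      rw [Real.sqrt_mul (by norm_num), Real.sqrt_mul (Real.sqrt_nonneg _), show (16:ℝ) = 4^2 by norm_num, Real.sqrt_sq (by norm_num),
        show (4:ℝ) = 2^2 by norm_num, Real.sqrt_sq (by norm_num)]
    rw [this]
    apply Real.sqrt_le_sqrt
    apply Real.sqrt_le_sqrt
    linarith [h.logn.2]
  have h2 : Real.sqrt (Real.sqrt n) ≤ 2 * Real.exp ((L:ℝ)/4) := by
    have e1 : Real.sqrt (Real.sqrt (Real.exp ((L:ℝ)+1))) = Real.exp (((L:ℝ)+1)/4) := by
      rw [show Real.exp ((L:ℝ)+1) = (Real.exp (((L:ℝ)+1)/4)^2)^2 by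
        rw [← pow_mul, ← Real.exp_nat_mul]; congr 1; push_cast; ring, Real.sqrt_sq (by positivity), Real.sqrt_sq (by positivity)]
    have e2 : Real.exp (((L:ℝ)+1)/4) ≤ 2 * Real.exp ((L:ℝ)/4) := by
      rw [show ((L:ℝ)+1)/4 = 1/4 + (L:ℝ)/4 by ring, Real.exp_add]
      have : Real.exp (1/4) ≤ 2 := by
        have h3 : (Real.exp (1/4))^4 ≤ 2^4 := by
          rw [← Real.exp_nat_mul]
          have := Real.exp_one_lt_d9
          norm_num at this ⊢
          linarith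
        exact le_of_pow_le_pow_left₀ (by norm_num) (by norm_num) h3
      gcongr
    refine le_trans ?_ e2
    rw [← e1]
    exact Real.sqrt_le_sqrt (Real.sqrt_le_sqrt h.hn2)
  unfold sc
  calc _ ≤ (2 * Real.sqrt (Real.sqrt L)) * (2 * Real.exp ((L:ℝ)/4)) := by gcongr
    _ = _ := by ring

lemma Par.zH (h : Par n L s l o k q p v) : Real.exp ((s:ℝ)/4) ≤ Real.exp ((L:ℝ)/4) := by
  have hL := h.L1
  have hz1 : 1 ≤ Real.exp ((s:ℝ)/4) := Real.one_le_exp (by positivity)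
  have ha := z_small hz1 h.za
  calc Real.exp ((s:ℝ)/4) ≤ (Real.exp ((s:ℝ)/4))^10 := le_self_pow₀ hz1 (by norm_num)
    _ ≤ Real.sqrt (Real.sqrt L) := h.za
    _ ≤ (Real.sqrt (Real.sqrt L))^8 := le_self_pow₀ ha (by norm_num)
    _ ≤ _ := h.ah

lemma Par.JE_le (h : Par n L s l o k q p v) : JE n q p v ≤ (4*Real.exp 1 + 5) / Real.exp ((s:ℝ)/4) := by
  have hL := h.L1
  set H := Real.exp ((L:ℝ)/4) with hH
  set z := Real.exp ((s:ℝ)/4) with hz
  have hz1 : 1 ≤ z := Real.one_le_exp (by positivity)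
  have hH1 : 1 ≤ H := Real.one_le_exp (by positivity)
  have hz0 : 0 < z := by linarith
  have hH0 : 0 < H := by linarith
  have hzH : z ≤ H := h.zH
  have hpr : (p:ℝ) = L - s := by have := h.hp; rw [← this]; push_cast; ring
  have hqr : (q:ℝ) = L - 3*s := by have := h.hq; rw [← this]; push_cast; ring
  have hvr : 2*(L:ℝ) + 2 ≤ v := by exact_mod_cast h.hv
  have sqe : ∀ x : ℝ, Real.sqrt (Real.exp x) = Real.exp (x/2) := fun x => by
    rw [show Real.exp x = (Real.exp (x/2))^2 by rw [← Real.exp_nat_mul]; congr 1; push_cast; ring, Real.sqrt_sq (Real.exp_pos _).le]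
  have hn2 : Real.sqrt n ≤ Real.exp (((L:ℝ)+1)/2) := by
    rw [← sqe]; exact Real.sqrt_le_sqrt h.hn2
  have hn1 : Real.exp ((L:ℝ)/2) ≤ Real.sqrt n := by
    rw [← sqe]; exact Real.sqrt_le_sqrt h.hn1
  have t1 : 4 * Real.sqrt n * Real.sqrt (ell p) * Real.exp (-((p:ℝ)-q)) ≤ 4 * Real.exp 1 / z := by
    unfold ell
    rw [sqe]
    calc 4 * Real.sqrt n * Real.exp (-((p:ℝ)-1)/2) * Real.exp (-((p:ℝ)-q))
        ≤ 4 * Real.exp (((L:ℝ)+1)/2) * Real.exp (-((p:ℝ)-1)/2) * Real.exp (-((p:ℝ)-q)) := by gcongr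
      _ = 4 * Real.exp (1 - 3*(s:ℝ)/2) := by
          rw [mul_assoc, mul_assoc, ← Real.exp_add, ← Real.exp_add, hpr, hqr]; congr 2; ring
      _ ≤ 4 * Real.exp (1 - (s:ℝ)/4) := by
          have : (0:ℝ) ≤ s := by positivity
          apply mul_le_mul_of_nonneg_left _ (by norm_num)
          apply Real.exp_le_exp.2
          linarith
      _ = 4 * Real.exp 1 / z := by rw [Real.exp_sub]; ring
  have t2 : Real.exp ((p:ℝ)/2) / Real.sqrt n ≤ 1/z := by
    calc Real.exp ((p:ℝ)/2) / Real.sqrt n ≤ Real.exp ((p:ℝ)/2) / Real.exp ((L:ℝ)/2) := by gcongr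
      _ = Real.exp (-(s:ℝ)/2) := by rw [← Real.exp_sub, hpr]; congr 1; ring
      _ ≤ Real.exp (-((s:ℝ)/4)) := by
          apply Real.exp_le_exp.2
          have : (0:ℝ) ≤ s := by positivity
          linarith
      _ = 1/z := by rw [Real.exp_neg, one_div]
  have t3 : 4 * Real.sqrt n * Real.sqrt (ell v) ≤ 4/z := by
    unfold ell
    rw [sqe]
    calc 4 * Real.sqrt n * Real.exp (-((v:ℝ)-1)/2) ≤ 4 * Real.exp (((L:ℝ)+1)/2) * Real.exp (-((v:ℝ)-1)/2) := by gcongr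
      _ = 4 * Real.exp ((((L:ℝ)+1) - (v-1))/2) := by rw [mul_assoc, ← Real.exp_add]; congr 2; ring
      _ ≤ 4 * Real.exp (-((L:ℝ)/4)) := by gcongr; linarith
      _ = 4 * (1/H) := by rw [Real.exp_neg, one_div]
      _ ≤ 4 * (1/z) := by gcongr
      _ = _ := by ring
  unfold JE
  have : (4*Real.exp 1 + 5) / z = 4 * Real.exp 1 / z + 1/z + 4/z := by ring
  rw [this]
  linarith

lemma Par.ratio (h : Par n L s l o k q p v) : |Real.sqrt (Real.log n / q) - 1| ≤ 4 / Real.exp ((s:ℝ)/4) := by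
  have hL := h.L1
  have hqr : (q:ℝ) = L - 3*s := by have := h.hq; rw [← this]; push_cast; ring
  have hq3 : (3:ℝ) ≤ q := by exact_mod_cast h.hq3
  have hq4 : (L:ℝ) ≤ 4*q := by exact_mod_cast h.hq4
  have hlg := h.logn
  have h1 : 1 ≤ Real.log n / q := by
    rw [le_div_iff₀ (by linarith)]
    have : (0:ℝ) ≤ s := by positivity
    linarith
  have h2 : 1 ≤ Real.sqrt (Real.log n / q) := Real.one_le_sqrt.2 h1
  rw [abs_of_nonneg (by linarith)]
  have h3 : Real.sqrt (Real.log n / q) ≤ Real.log n / q := by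
    rw [Real.sqrt_le_left (by linarith)]
    exact le_self_pow₀ h1 (by norm_num)
  have h4 : Real.log n / q - 1 ≤ 4 / Real.exp ((s:ℝ)/4) := by
    have e : Real.log n / q - 1 = (Real.log n - q) / q := by field_simp
    rw [e, div_le_div_iff₀ (by linarith) (Real.exp_pos _)]
    have e1 : Real.log n - q ≤ Real.exp (3*(s:ℝ)) := by
      have := Real.add_one_le_exp (3*(s:ℝ))
      linarith
    calc (Real.log n - q) * Real.exp ((s:ℝ)/4) ≤ Real.exp (3*(s:ℝ)) * Real.exp ((s:ℝ)/4) := by gcongr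
      _ ≤ Real.exp (10*(s:ℝ)) := by
          rw [← Real.exp_add]
          apply Real.exp_le_exp.2
          have : (0:ℝ) ≤ s := by positivity
          linarith
      _ ≤ L := h.hs
      _ ≤ 4 * q := hq4
  linarith

end

lemma sig_close {T x J js' K2 z r : ℝ} (hT : 0 ≤ T) (hJ : 0 ≤ J) (hz : 1 ≤ z) (hr : |r - 1| ≤ 4/z) (hx : |x - js'| ≤ K2/z) :
    |T * r * x - T * J| ≤ T * (5 * (K2/z + |js' - J|) + 4 * J/z) := by
  have hz0 : 0 < z := by linarith
  have h1 : |r| ≤ 5 := by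
    have : |r| ≤ |r - 1| + 1 := by
      calc |r| = |(r-1) + 1| := by ring_nf
        _ ≤ |r-1| + |1| := abs_add_le _ _
        _ = _ := by norm_num
    have : 4/z ≤ 4 := div_le_self (by norm_num) hz
    linarith
  have h2 : |x - J| ≤ K2/z + |js' - J| := by
    calc |x - J| = |(x - js') + (js' - J)| := by ring_nf
      _ ≤ _ := (abs_add_le _ _).trans (by linarith)
  have e : T * r * x - T * J = T * (r * (x - J) + (r - 1) * J) := by ring
  rw [e, abs_mul, abs_of_nonneg hT]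
  apply mul_le_mul_of_nonneg_left _ hT
  refine (abs_add_le _ _).trans ?_
  rw [abs_mul, abs_mul, abs_of_nonneg hJ]
  have h3 : |r| * |x - J| ≤ 5 * (K2/z + |js' - J|) := mul_le_mul h1 h2 (abs_nonneg _) (by norm_num)
  have h4 : |r - 1| * J ≤ 4 * J / z := by
    calc |r-1| * J ≤ (4/z) * J := by gcongr
      _ = _ := by ring
  linarith

/-- the limit of the characteristic functions, uniformly in the level and the direction -/
theorem char_limit : ∃ (Λ : Om → ℝ) (J : ℝ), Measurable Λ ∧ (∀ ω, 0 ≤ Λ ω) ∧ (¬ ∀ᵐ ω ∂PP, Λ ω = 0) ∧ 0 < J ∧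
    ∀ t ε : ℝ, 0 < ε → ∃ n0 : ℕ, ∀ n ≥ n0, ∀ v, 2 * Lf n + 2 ≤ v → ∀ φ : ℝ,
      ‖(∫ ω, cexp ((t * sc n) * mm (ff n φ) v ω) ∂PP) - ((LT Λ (t^2/4 * J) : ℝ) : ℂ)‖ ≤ ε := by
  obtain ⟨Λ, hΛm, hΛ0, hΛne, hΛl⟩ := mass_limit
  obtain ⟨J, hJ, hJl⟩ := js_limit
  refine ⟨Λ, J, hΛm, hΛ0, hΛne, hJ, fun t ε hε => ?_⟩
  -- choice of β
  obtain ⟨β, hβ, hdl⟩ : ∃ β : ℝ, 0 ≤ β ∧ 2 * dl β ≤ ε/3 := by
    have h1 := (dl_tendsto.eventually (gt_mem_nhds (show (0:ℝ) < ε/6 by linarith))).and (eventually_ge_atTop 0)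
    obtain ⟨β, hβ⟩ := h1.exists
    exact ⟨β, hβ.2, by linarith [hβ.1]⟩
  obtain ⟨K, hK, hTE⟩ := TE_bound hβ (c1 := 4 * |t|) (by positivity)
  have hT : 0 ≤ t^2/4 := by positivity
  obtain ⟨δ, hδ, q0, hlap⟩ := laplace_unif hΛm hΛ0 hΛl (s := t^2/4 * J) (by positivity) (show 0 < ε/3 by linarith)
  set K2 := 4*Real.exp 1 + 5 with hK2
  -- limits
  have hz : Tendsto (fun n => Real.exp ((sf n : ℝ)/4)) atTop atTop :=
    Real.tendsto_exp_atTop.comp ((tendsto_natCast_atTop_atTop.comp sf_tendsto).atTop_div_const (by norm_num))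
  have lim1 : Tendsto (fun n => K / Real.exp ((sf n : ℝ)/4)) atTop (𝓝 0) := hz.const_div_atTop K
  have lim2 : Tendsto (fun n => js n - K2 / Real.exp ((sf n : ℝ)/4)) atTop (𝓝 (J - 0)) := hJl.sub (hz.const_div_atTop K2)
  have lim3 : Tendsto (fun n => t^2/4 * (5 * (K2/Real.exp ((sf n : ℝ)/4) + |js n - J|) + 4 * J/Real.exp ((sf n : ℝ)/4))) atTop
      (𝓝 (t^2/4 * (5 * (0 + |J - J|) + 0))) :=
    (((((hz.const_div_atTop K2).add ((hJl.sub_const J).abs)).const_mul 5).add (hz.const_div_atTop (4*J))).const_mul (t^2/4))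
  rw [sub_self, abs_zero] at lim3
  norm_num at lim3
  rw [sub_zero] at lim2
  have ev1 := lim1.eventually (gt_mem_nhds (show (0:ℝ) < ε/3 by linarith))
  have ev2 := lim2.eventually (lt_mem_nhds hJ)
  have ev3 := lim3.eventually (gt_mem_nhds hδ)
  have ev4 : ∀ᶠ n in atTop, q0 ≤ Lf n - 3 * sf n := by
    have hL : ∀ᶠ n in atTop, 4 * q0 ≤ Lf n := Lf_tendsto.eventually (eventually_ge_atTop _)
    filter_upwards [hL, Par_ev] with n h1 h2
    have := (h2 _ le_rfl).hq4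
    omega
  obtain ⟨n0, hn0⟩ := eventually_atTop.1 (((ev1.and ev2).and (ev3.and ev4)).and Par_ev)
  refine ⟨n0, fun n hn v hv φ => ?_⟩
  obtain ⟨⟨⟨g1, g2⟩, ⟨g3, g4⟩⟩, g5⟩ := hn0 n hn
  have P := g5 v hv
  set L := Lf n
  set s := sf n
  set l := lf n
  set q := L - 3*s with hq
  set p := L - s with hp
  set z := Real.exp ((s:ℝ)/4) with hzdef
  have hz1 : 1 ≤ z := Real.one_le_exp (by positivity)
  have hz0 : 0 < z := by linarith
  have hnpos : (0:ℝ) < n := by exact_mod_cast Nat.pos_of_ne_zero P.n0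
  have hsn : 0 < Real.sqrt n := Real.sqrt_pos.2 hnpos
  have hJE : |Real.sqrt n * Real.exp ((q:ℝ)/2) * JJ n q p v - js n| ≤ K2/z :=
    (JJ_asymp P.n0 (by have := P.hq3; omega) (by have := P.hp; have := P.hq; omega) (by have := P.hp; have := P.hv; omega)).trans P.JE_le
  have hJpos : 0 ≤ JJ n q p v := by
    have h1 := (abs_le.1 hJE).1
    have h2 : 0 ≤ Real.sqrt n * Real.exp ((q:ℝ)/2) * JJ n q p v := by linarith
    exact nonneg_of_mul_nonneg_right h2 (by positivity)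
  have hρ : 1/(4*(n:ℝ)) * Real.exp ((q:ℝ)-1) ≤ 1 := by
    have h1 : Real.exp ((q:ℝ)-1) ≤ n := by
      refine le_trans ?_ P.hn1
      apply Real.exp_le_exp.2
      have : (q:ℝ) ≤ L := by have := P.hq; exact_mod_cast (by omega : q ≤ L)
      linarith
    calc 1/(4*(n:ℝ)) * Real.exp ((q:ℝ)-1) ≤ 1/(4*(n:ℝ)) * n := by gcongr
      _ = 1/4 := by field_simp
      _ ≤ 1 := by norm_num
  have hmain := main_ineq hβ P.n0 φ (o := L - 6*l) (k := L - 2*l) (q := q) (p := p) (v := v)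
    (by have := P.ho; have := P.ho1; have := P.hk; omega) (by omega) (by have := P.hsl; omega) (by omega)
    (by have := P.hv; omega) P.hq3 hρ (B := Real.exp (2*s)) (Real.exp_pos _).le (t * sc n) hJpos
  have hsc0 : 0 ≤ sc n := by unfold sc; positivity
  have hTEb := hTE P (t * sc n) (by
    rw [abs_mul, abs_of_nonneg hsc0]
    have := mul_le_mul_of_nonneg_left P.sc_le (abs_nonneg t)
    calc _ ≤ _ := this
      _ = _ := by ring)
  -- the Laplace part
  have hq0 : (0:ℝ) < q := by have := P.hq3; exact_mod_cast (by omega : 0 < q)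
  have hsq : 0 < Real.sqrt q := Real.sqrt_pos.2 hq0
  set σ := (t * sc n)^2/4 * JJ n q p v * Real.exp ((q:ℝ)/2) / Real.sqrt q with hσ
  have hσ' : σ = t^2/4 * Real.sqrt (Real.log n / q) * (Real.sqrt n * Real.exp ((q:ℝ)/2) * JJ n q p v) := by
    rw [hσ, mul_pow, sc_sq, Real.sqrt_div' _ hq0.le]
    ring
  have hσ0 : 0 ≤ σ := by rw [hσ]; positivity
  have hσc : |σ - t^2/4 * J| ≤ δ := by
    rw [hσ']
    refine (sig_close hT hJ.le hz1 P.ratio hJE).trans ?_
    have : t^2/4 * (5 * (K2/z + |js n - J|) + 4 * J/z) < δ := g3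
    exact this.le
  have hL := hlap q g4 σ hσ0 hσc
  have hrw : (∫ ω, Real.exp (-((t * sc n)^2/4 * JJ n q p v * Real.exp ((q:ℝ)/2) * MM q ω)) ∂PP) =
      ∫ ω, Real.exp (-(σ * (Real.sqrt q * MM q ω))) ∂PP := by
    congr 1; ext ω; congr 2; rw [hσ]; field_simp
  rw [hrw] at hmain
  have h3 : ‖((∫ ω, Real.exp (-(σ * (Real.sqrt q * MM q ω))) ∂PP : ℝ) : ℂ) - ((LT Λ (t^2/4 * J) : ℝ) : ℂ)‖ ≤ ε/3 := by
    rw [← Complex.ofReal_sub, Complex.norm_real]; exact hL
  calc _ = ‖((∫ ω, cexp ((t * sc n) * mm (ff n φ) v ω) ∂PP) - ((∫ ω, Real.exp (-(σ * (Real.sqrt q * MM q ω))) ∂PP : ℝ) : ℂ)) +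
        (((∫ ω, Real.exp (-(σ * (Real.sqrt q * MM q ω))) ∂PP : ℝ) : ℂ) - ((LT Λ (t^2/4 * J) : ℝ) : ℂ))‖ := by ring_nf
    _ ≤ _ := norm_add_le _ _
    _ ≤ ε := by
      have : K / z < ε/3 := g1
      linarith

end

end Pool.Agent.H968
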