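import Mathlib
import Pool.Agent.H968.Fin4

open MeasureTheory ProbabilityTheory Filter Topology Set
open scoped ENNReal NNReal

namespace Pool.Agent.H968

noncomputable section

section
variable {Ω S : Type*} [MeasurableSpace Ω] {P : Measure Ω} [IsProbabilityMeasure P]
  {Y : S → Ω → ℝ} {C : S → S → ℝ}

omit [IsProbabilityMeasure P] in
/-- finite linear combinations -/
lemma GP.linF (h : GP P Y C) {κ T : Type*} [Fintype κ] (τ : T → κ → S) (A : T → κ → ℝ) :
    GP P (fun t ω => ∑ x, A t x * Y (τ t x) ω) (fun t t' => ∑ x, ∑ y, A t x * A t' y * C (τ t x) (τ t' y)) := by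
  constructor
  · intro t; exact Finset.measurable_sum _ fun x _ => (h.meas _).const_mul _
  · intro m s c
    have h1 := h.charF (ι := Fin m × κ) (fun p => τ (s p.1) p.2) (fun p => c p.1 * A (s p.1) p.2)
    simp only [Fintype.sum_prod_type] at h1
    have e1 : ∀ ω, ∑ i, c i * ∑ x, A (s i) x * Y (τ (s i) x) ω = ∑ i, ∑ x, c i * A (s i) x * Y (τ (s i) x) ω := by
      intro ω
      apply Finset.sum_congr rfl; intro i _
      rw [Finset.mul_sum]
      apply Finset.sum_congr rfl; intro x _; ring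
    simp_rw [e1]
    rw [h1]
    congr 4
    apply Finset.sum_congr rfl; intro i _
    rw [Finset.sum_comm]
    apply Finset.sum_congr rfl; intro j _
    rw [Finset.mul_sum]
    apply Finset.sum_congr rfl; intro x _
    rw [Finset.mul_sum]
    apply Finset.sum_congr rfl; intro y _; ring

/-- limits in mean -/
lemma GP.lim {T : Type*} {Z : ℕ → T → Ω → ℝ} {K : ℕ → T → T → ℝ} (hZ : ∀ N, GP P (Z N) (K N)) {W : T → Ω → ℝ}
    {K' : T → T → ℝ} (hW : ∀ t, Measurable (W t)) (hK : ∀ s t, Tendsto (fun N => K N s t) atTop (𝓝 (K' s t)))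
    (hc : ∀ t, Tendsto (fun N => ∫⁻ ω, ‖Z N t ω - W t ω‖ₑ ∂P) atTop (𝓝 0)) : GP P W K' := by
  refine ⟨hW, fun m s a => ?_⟩
  have hcm : Continuous (fun x : ℝ => Complex.exp ((x : ℂ) * Complex.I)) := by fun_prop
  have t1 : Tendsto (fun N => ∫ ω, Complex.exp (((∑ i, a i * Z N (s i) ω : ℝ) : ℂ) * Complex.I) ∂P) atTop
      (𝓝 (∫ ω, Complex.exp (((∑ i, a i * W (s i) ω : ℝ) : ℂ) * Complex.I) ∂P)) := by
    rw [tendsto_iff_edist_tendsto_0]
    have hb : Tendsto (fun N => ∑ i, ‖a i‖ₑ * ∫⁻ ω, ‖Z N (s i) ω - W (s i) ω‖ₑ ∂P) atTop (𝓝 (∑ i : Fin m, ‖a i‖ₑ * 0)) :=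
      tendsto_finsetSum _ fun i _ => ENNReal.Tendsto.const_mul (hc (s i)) (Or.inr enorm_ne_top)
    simp only [mul_zero, Finset.sum_const_zero] at hb
    refine tendsto_of_tendsto_of_tendsto_of_le_of_le tendsto_const_nhds hb (fun _ => zero_le) fun N => ?_
    have mW : Measurable (fun ω => ∑ i, a i * W (s i) ω) := Finset.measurable_sum _ fun i _ => (hW (s i)).const_mul _
    have mZ := (hZ N).meas_lin s a
    have i1 : Integrable (fun ω => Complex.exp (((∑ i, a i * Z N (s i) ω : ℝ) : ℂ) * Complex.I)) P :=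
      Integrable.of_bound (hcm.measurable.comp mZ).aestronglyMeasurable 1 (Eventually.of_forall fun ω => by
        rw [Complex.norm_exp_ofReal_mul_I])
    have i2 : Integrable (fun ω => Complex.exp (((∑ i, a i * W (s i) ω : ℝ) : ℂ) * Complex.I)) P :=
      Integrable.of_bound (hcm.measurable.comp mW).aestronglyMeasurable 1 (Eventually.of_forall fun ω => by
        rw [Complex.norm_exp_ofReal_mul_I])
    rw [edist_eq_enorm_sub, ← integral_sub i1 i2]
    refine (enorm_integral_le_lintegral_enorm _).trans ?_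
    calc ∫⁻ ω, ‖Complex.exp (((∑ i, a i * Z N (s i) ω : ℝ) : ℂ) * Complex.I) - Complex.exp (((∑ i, a i * W (s i) ω : ℝ) : ℂ) * Complex.I)‖ₑ ∂P
        ≤ ∫⁻ ω, ∑ i, ‖a i‖ₑ * ‖Z N (s i) ω - W (s i) ω‖ₑ ∂P := by
          apply lintegral_mono; intro ω
          beta_reduce
          have h1 : ‖Complex.exp (((∑ i, a i * Z N (s i) ω : ℝ) : ℂ) * Complex.I) - Complex.exp (((∑ i, a i * W (s i) ω : ℝ) : ℂ) * Complex.I)‖ ≤
              |(∑ i, a i * Z N (s i) ω) - ∑ i, a i * W (s i) ω| := by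
            have h2 := cexp_sub_one ((∑ i, a i * Z N (s i) ω) - ∑ i, a i * W (s i) ω)
            have h3 : Complex.exp (((∑ i, a i * Z N (s i) ω : ℝ) : ℂ) * Complex.I) - Complex.exp (((∑ i, a i * W (s i) ω : ℝ) : ℂ) * Complex.I) =
                cexp (∑ i, a i * W (s i) ω) * (cexp ((∑ i, a i * Z N (s i) ω) - ∑ i, a i * W (s i) ω) - 1) := by
              rw [mul_sub, ← cexp_add, mul_one, add_sub_cancel]; rfl
            rw [h3, norm_mul, cexp_norm, one_mul]; exact h2
          rw [← Finset.sum_sub_distrib] at h1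
          calc _ ≤ ‖∑ i, (a i * Z N (s i) ω - a i * W (s i) ω)‖ₑ := by
                rw [← ofReal_norm, ← ofReal_norm, Real.norm_eq_abs]; exact ENNReal.ofReal_le_ofReal h1
            _ ≤ ∑ i, ‖a i * Z N (s i) ω - a i * W (s i) ω‖ₑ := enorm_sum_le _ _
            _ = _ := by
              apply Finset.sum_congr rfl; intro i _
              rw [← mul_sub, enorm_mul]
      _ = ∑ i, ‖a i‖ₑ * ∫⁻ ω, ‖Z N (s i) ω - W (s i) ω‖ₑ ∂P := by
          rw [lintegral_finsetSum]
          · apply Finset.sum_congr rfl; intro i _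
            rw [lintegral_const_mul]
            exact (((hZ N).meas (s i)).sub (hW (s i))).enorm
          · intro i _
            exact (((hZ N).meas (s i)).sub (hW (s i))).enorm.const_mul _
  have t2 : Tendsto (fun n => Complex.exp (-(((∑ i, ∑ j, a i * a j * K n (s i) (s j) : ℝ) : ℂ)) / 2)) atTop
      (𝓝 (Complex.exp (-(((∑ i, ∑ j, a i * a j * K' (s i) (s j) : ℝ) : ℂ)) / 2))) := by
    have hc : Continuous (fun x : ℝ => Complex.exp (-(x : ℂ) / 2)) := by fun_prop
    apply (hc.tendsto _).comp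
    apply tendsto_finsetSum; intro i _
    apply tendsto_finsetSum; intro j _
    exact (hK _ _).const_mul _
  refine tendsto_nhds_unique t1 (t2.congr fun n => ?_)
  exact ((hZ n).char m s a).symm

end

/-- simple approximations of the identity on the unit interval -/
def eN (N : ℕ) : SimpleFunc ℝ ℝ := SimpleFunc.approxOn (fun x : ℝ => x) measurable_id (Icc (0:ℝ) 1) 0 (by simp) N

lemma eN_mem (N : ℕ) (x : ℝ) : eN N x ∈ Icc (0:ℝ) 1 := SimpleFunc.approxOn_mem _ _ _ _

lemma eN_tendsto {x : ℝ} (hx : x ∈ Icc (0:ℝ) 1) : Tendsto (fun N => eN N x) atTop (𝓝 x) :=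
  SimpleFunc.tendsto_approxOn _ _ (subset_closure hx)

lemma eN_int (N : ℕ) {K : ℝ → ℝ} (hK : Integrable K lam) (g : ℝ → ℝ) :
    ∫ a, K a * g (eN N a) ∂lam = ∑ r : (eN N).range, (∫ a, ((eN N) ⁻¹' {(r:ℝ)}).indicator K a ∂lam) * g r := by
  have h1 : ∀ a, K a * g (eN N a) = ∑ r ∈ (eN N).range, ((eN N) ⁻¹' {r}).indicator K a * g r := by
    intro a
    rw [Finset.sum_eq_single (eN N a)]
    · rw [indicator_of_mem (by simp)]
    · intro r _ hr
      rw [indicator_of_notMem (by simpa using hr.symm), zero_mul]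
    · intro hr; exact absurd (SimpleFunc.mem_range_self _ _) hr
  simp_rw [h1]
  rw [integral_finsetSum]
  · rw [← Finset.sum_coe_sort]
    apply Finset.sum_congr rfl; intro r _
    rw [integral_mul_const]
  · intro r _
    exact (hK.indicator ((eN N).measurableSet_fiber r)).mul_const _

lemma bd_of_cont {g : ℝ → ℝ} (hg : Continuous g) : ∃ B, 0 ≤ B ∧ ∀ a ∈ Icc (0:ℝ) 1, |g a| ≤ B := by
  obtain ⟨B, hB⟩ := isCompact_Icc.exists_bound_of_continuousOn (hg.continuousOn (s := Icc (0:ℝ) 1))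
  refine ⟨max B 0, le_max_right _ _, fun a ha => ?_⟩
  have := hB a ha
  rw [Real.norm_eq_abs] at this
  exact this.trans (le_max_left _ _)

lemma bd_of_cont2 {g : ℝ × ℝ → ℝ} (hg : Continuous g) : ∃ B, 0 ≤ B ∧ ∀ a ∈ Icc (0:ℝ) 1, ∀ b ∈ Icc (0:ℝ) 1, |g (a, b)| ≤ B := by
  obtain ⟨B, hB⟩ := (isCompact_Icc.prod isCompact_Icc).exists_bound_of_continuousOn (hg.continuousOn (s := Icc (0:ℝ) 1 ×ˢ Icc (0:ℝ) 1))
  refine ⟨max B 0, le_max_right _ _, fun a ha b hb => ?_⟩
  have := hB (a, b) ⟨ha, hb⟩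
  rw [Real.norm_eq_abs] at this
  exact this.trans (le_max_left _ _)

lemma eN_lim1 {K g : ℝ → ℝ} (hK : Measurable K) {B : ℝ} (hB : ∀ a, |K a| ≤ B) (hg : Continuous g) :
    Tendsto (fun N => ∫ a, K a * g (eN N a) ∂lam) atTop (𝓝 (∫ a, K a * g a ∂lam)) := by
  obtain ⟨G, hG0, hG⟩ := bd_of_cont hg
  have hB0 : 0 ≤ B := (abs_nonneg _).trans (hB 0)
  apply tendsto_integral_of_dominated_convergence (fun _ => B * G)
  · intro N
    exact (hK.mul (hg.measurable.comp (eN N).measurable)).aestronglyMeasurable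
  · exact integrable_const _
  · intro N
    refine Eventually.of_forall fun a => ?_
    rw [norm_mul, Real.norm_eq_abs, Real.norm_eq_abs]
    exact mul_le_mul (hB a) (hG _ (eN_mem N a)) (abs_nonneg _) hB0
  · filter_upwards [lam_mem] with a ha
    exact ((hg.tendsto a).comp (eN_tendsto ha)).const_mul _

lemma eN_lim2 {K K' : ℝ → ℝ} (hK : Measurable K) {B : ℝ} (hB : ∀ a, |K a| ≤ B) (hK' : Measurable K') {B' : ℝ} (hB' : ∀ a, |K' a| ≤ B')
    {g : ℝ × ℝ → ℝ} (hg : Continuous g) :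
    Tendsto (fun N => ∫ a, K a * ∫ b, K' b * g (eN N a, eN N b) ∂lam ∂lam) atTop (𝓝 (∫ a, K a * ∫ b, K' b * g (a, b) ∂lam ∂lam)) := by
  obtain ⟨G, hG0, hG⟩ := bd_of_cont2 hg
  have hB0 : 0 ≤ B := (abs_nonneg _).trans (hB 0)
  have hB'0 : 0 ≤ B' := (abs_nonneg _).trans (hB' 0)
  have hin : ∀ᵐ a ∂lam, Tendsto (fun N => ∫ b, K' b * g (eN N a, eN N b) ∂lam) atTop (𝓝 (∫ b, K' b * g (a, b) ∂lam)) := by
    filter_upwards [lam_mem] with a ha
    apply tendsto_integral_of_dominated_convergence (fun _ => B' * G)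
    · intro N
      exact (hK'.mul (hg.measurable.comp (measurable_const.prodMk (eN N).measurable))).aestronglyMeasurable
    · exact integrable_const _
    · intro N
      refine Eventually.of_forall fun b => ?_
      rw [norm_mul, Real.norm_eq_abs, Real.norm_eq_abs]
      exact mul_le_mul (hB' b) (hG _ (eN_mem N a) _ (eN_mem N b)) (abs_nonneg _) hB'0
    · filter_upwards [lam_mem] with b hb
      have h1 : Tendsto (fun N => ((eN N a : ℝ), (eN N b : ℝ))) atTop (𝓝 (a, b)) := (eN_tendsto ha).prodMk_nhds (eN_tendsto hb)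
      exact ((hg.tendsto (a, b)).comp h1).const_mul _
  apply tendsto_integral_of_dominated_convergence (fun _ => B * (B' * G))
  · intro N
    have m1 : StronglyMeasurable (fun p : ℝ × ℝ => K' p.2 * g (eN N p.1, eN N p.2)) :=
      ((hK'.comp measurable_snd).mul (hg.measurable.comp (((eN N).measurable.comp measurable_fst).prodMk ((eN N).measurable.comp measurable_snd)))).stronglyMeasurable
    exact (hK.mul (StronglyMeasurable.integral_prod_right' (ν := lam) m1).measurable).aestronglyMeasurable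
  · exact integrable_const _
  · intro N
    refine Eventually.of_forall fun a => ?_
    rw [norm_mul, Real.norm_eq_abs]
    apply mul_le_mul (hB a) _ (norm_nonneg _) hB0
    refine (norm_integral_le_of_norm_le_const (C := B' * G) (Eventually.of_forall fun b => ?_)).trans (by simp)
    rw [norm_mul, Real.norm_eq_abs, Real.norm_eq_abs]
    exact mul_le_mul (hB' b) (hG _ (eN_mem N a) _ (eN_mem N b)) (abs_nonneg _) hB'0
  · filter_upwards [hin] with a ha
    exact ha.const_mul _

section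
variable {Ω S : Type*} [MeasurableSpace Ω] {P : Measure Ω} [IsProbabilityMeasure P]
  {Y : S → Ω → ℝ} {C : S → S → ℝ}

lemma GP.abs_path (h : GP P Y C) {σ : ℝ → S} (hY : Measurable (fun p : ℝ × Ω => Y (σ p.1) p.2))
    (hc2 : Continuous (fun p : ℝ × ℝ => C (σ p.1) (σ p.2))) : ∀ᵐ ω ∂P, Integrable (fun a => Y (σ a) ω) lam := by
  obtain ⟨B, hB0, hB⟩ := bd_of_cont2 hc2
  have h1 : ∫⁻ a, ∫⁻ ω, ‖Y (σ a) ω‖ₑ ∂P ∂lam ≤ ENNReal.ofReal (Real.sqrt B) := by
    calc _ ≤ ∫⁻ a, ENNReal.ofReal (Real.sqrt B) ∂lam := by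
          apply lintegral_mono_ae
          filter_upwards [lam_mem] with a ha
          exact (h.lintegral_abs_le (σ a)).trans (ENNReal.ofReal_le_ofReal (Real.sqrt_le_sqrt ((le_abs_self _).trans (hB a ha a ha))))
      _ = _ := by simp
  have hm : Measurable (fun p : ℝ × Ω => ‖Y (σ p.1) p.2‖ₑ) := hY.enorm
  rw [lintegral_lintegral_swap hm.aemeasurable] at h1
  have h2 := ae_lt_top' (Measurable.aemeasurable (by
    have : Measurable (fun p : Ω × ℝ => ‖Y (σ p.2) p.1‖ₑ) := hm.comp measurable_swap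
    exact this.lintegral_prod_right')) (ne_top_of_le_ne_top ENNReal.ofReal_ne_top h1)
  filter_upwards [h2] with ω hω
  exact ⟨(hY.comp (measurable_id.prodMk measurable_const)).aestronglyMeasurable, hω⟩

theorem GP.intF (h : GP P Y C) {T : Type*} (σ : ℝ → S) (hY : Measurable (fun p : ℝ × Ω => Y (σ p.1) p.2))
    (hc2 : Continuous (fun p : ℝ × ℝ => C (σ p.1) (σ p.2))) (hcl : ∀ s, Continuous (fun a => C s (σ a)))
    (hcr : ∀ s, Continuous (fun a => C (σ a) s)) (d : T → ℝ) (τ : T → S) (κ : T → ℝ → ℝ) (hκ : ∀ t, Measurable (κ t))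
    (hκb : ∀ t, ∃ B, ∀ a, |κ t a| ≤ B) :
    GP P (fun t ω => d t * Y (τ t) ω + ∫ a, κ t a * Y (σ a) ω ∂lam)
      (fun t t' => d t * d t' * C (τ t) (τ t') + d t * ∫ b, κ t' b * C (τ t) (σ b) ∂lam + d t' * ∫ a, κ t a * C (σ a) (τ t') ∂lam +
        ∫ a, κ t a * ∫ b, κ t' b * C (σ a) (σ b) ∂lam ∂lam) := by
  have hκi : ∀ t, Integrable (κ t) lam := fun t => by
    obtain ⟨B, hB⟩ := hκb t
    exact Integrable.of_bound (hκ t).aestronglyMeasurable B (Eventually.of_forall fun a => hB a)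
  -- discretised processes
  have hN : ∀ N : ℕ, GP P (fun t ω => d t * Y (τ t) ω + ∫ a, κ t a * Y (σ (eN N a)) ω ∂lam)
      (fun t t' => d t * d t' * C (τ t) (τ t') + d t * ∫ b, κ t' b * C (τ t) (σ (eN N b)) ∂lam + d t' * ∫ a, κ t a * C (σ (eN N a)) (τ t') ∂lam +
        ∫ a, κ t a * ∫ b, κ t' b * C (σ (eN N a)) (σ (eN N b)) ∂lam ∂lam) := by
    intro N
    have h1 := h.linF (κ := Option ↥(eN N).range) (T := T) (fun t x => x.elim (τ t) (fun r => σ r))
      (fun t x => x.elim (d t) (fun r => ∫ a, ((eN N) ⁻¹' {(r:ℝ)}).indicator (κ t) a ∂lam))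
    have e1 : (fun (t : T) (ω : Ω) => ∑ x : Option ↥(eN N).range, (x.elim (d t) (fun r => ∫ a, ((eN N) ⁻¹' {(r:ℝ)}).indicator (κ t) a ∂lam)) *
        Y (x.elim (τ t) (fun r => σ r)) ω) = fun t ω => d t * Y (τ t) ω + ∫ a, κ t a * Y (σ (eN N a)) ω ∂lam := by
      ext t ω
      rw [Fintype.sum_option, eN_int N (hκi t) (fun r => Y (σ r) ω)]
      rfl
    have e2 : (fun (t t' : T) => ∑ x : Option ↥(eN N).range, ∑ y : Option ↥(eN N).range,
        (x.elim (d t) (fun r => ∫ a, ((eN N) ⁻¹' {(r:ℝ)}).indicator (κ t) a ∂lam)) *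
        (y.elim (d t') (fun r => ∫ a, ((eN N) ⁻¹' {(r:ℝ)}).indicator (κ t') a ∂lam)) *
        C (x.elim (τ t) (fun r => σ r)) (y.elim (τ t') (fun r => σ r))) =
        fun t t' => d t * d t' * C (τ t) (τ t') + d t * ∫ b, κ t' b * C (τ t) (σ (eN N b)) ∂lam + d t' * ∫ a, κ t a * C (σ (eN N a)) (τ t') ∂lam +
        ∫ a, κ t a * ∫ b, κ t' b * C (σ (eN N a)) (σ (eN N b)) ∂lam ∂lam := by
      ext t t'
      rw [eN_int N (hκi t') (fun r => C (τ t) (σ r)), eN_int N (hκi t) (fun r => C (σ r) (τ t')),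
        eN_int N (hκi t) (fun r => ∫ b, κ t' b * C (σ r) (σ (eN N b)) ∂lam)]
      have e3 : ∀ r : ℝ, ∫ b, κ t' b * C (σ r) (σ (eN N b)) ∂lam = ∑ r' : (eN N).range, (∫ a, ((eN N) ⁻¹' {(r':ℝ)}).indicator (κ t') a ∂lam) * C (σ r) (σ r') :=
        fun r => eN_int N (hκi t') (fun r' => C (σ r) (σ r'))
      simp only [e3, Fintype.sum_option, Option.elim_none, Option.elim_some, Finset.mul_sum, Finset.sum_add_distrib]
      have e4 : ∑ r' : (eN N).range, d t * (∫ a, ((eN N) ⁻¹' {(r':ℝ)}).indicator (κ t') a ∂lam) * C (τ t) (σ r') =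
          ∑ r' : (eN N).range, d t * ((∫ a, ((eN N) ⁻¹' {(r':ℝ)}).indicator (κ t') a ∂lam) * C (τ t) (σ r')) := by
        apply Finset.sum_congr rfl; intro r _; ring
      have e5 : ∑ r : (eN N).range, (∫ a, ((eN N) ⁻¹' {(r:ℝ)}).indicator (κ t) a ∂lam) * d t' * C (σ r) (τ t') =
          ∑ r : (eN N).range, d t' * ((∫ a, ((eN N) ⁻¹' {(r:ℝ)}).indicator (κ t) a ∂lam) * C (σ r) (τ t')) := by
        apply Finset.sum_congr rfl; intro r _; ring
      have e6 : ∑ r : (eN N).range, ∑ r' : (eN N).range, (∫ a, ((eN N) ⁻¹' {(r:ℝ)}).indicator (κ t) a ∂lam) *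
          (∫ a, ((eN N) ⁻¹' {(r':ℝ)}).indicator (κ t') a ∂lam) * C (σ r) (σ r') =
          ∑ r : (eN N).range, ∑ r' : (eN N).range, (∫ a, ((eN N) ⁻¹' {(r:ℝ)}).indicator (κ t) a ∂lam) *
          ((∫ a, ((eN N) ⁻¹' {(r':ℝ)}).indicator (κ t') a ∂lam) * C (σ r) (σ r')) := by
        apply Finset.sum_congr rfl; intro r _
        apply Finset.sum_congr rfl; intro r' _; ring
      rw [e4, e5, e6]
      ring
    rw [e1, e2] at h1
    exact h1
  have hmeas : ∀ t, Measurable (fun ω => d t * Y (τ t) ω + ∫ a, κ t a * Y (σ a) ω ∂lam) := by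
    intro t
    refine ((h.meas _).const_mul _).add ?_
    have : StronglyMeasurable (fun p : Ω × ℝ => κ t p.2 * Y (σ p.2) p.1) :=
      (((hκ t).comp measurable_snd).mul (hY.comp measurable_swap)).stronglyMeasurable
    exact (StronglyMeasurable.integral_prod_right' (ν := lam) this).measurable
  refine GP.lim hN hmeas (fun s t => ?_) (fun t => ?_)
  · obtain ⟨B, hB⟩ := hκb s
    obtain ⟨B', hB'⟩ := hκb t
    exact ((tendsto_const_nhds.add ((eN_lim1 (hκ t) hB' (hcl (τ s))).const_mul _)).add ((eN_lim1 (hκ s) hB (hcr (τ t))).const_mul _)).add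
      (eN_lim2 (hκ s) hB (hκ t) hB' hc2)
  · obtain ⟨B, hB⟩ := hκb t
    have hB0 : 0 ≤ B := (abs_nonneg _).trans (hB 0)
    obtain ⟨G, hG0, hG⟩ := bd_of_cont2 hc2
    have habs := h.abs_path hY hc2
    -- pointwise variance
    set V : ℕ → ℝ → ℝ := fun N a => C (σ (eN N a)) (σ (eN N a)) - C (σ (eN N a)) (σ a) - C (σ a) (σ (eN N a)) + C (σ a) (σ a) with hV
    have hVb : ∀ N a, ∫⁻ ω, ‖Y (σ (eN N a)) ω - Y (σ a) ω‖ₑ ∂P ≤ ENNReal.ofReal (Real.sqrt (V N a)) := by
      intro N a
      have h1 := (h.lin2 (T := Unit) (fun _ => σ (eN N a)) (fun _ => σ a) (fun _ => 1) (fun _ => -1)).lintegral_abs_le ()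
      simp only [one_mul, neg_mul, mul_neg, mul_one, neg_neg] at h1
      simp only [← sub_eq_add_neg] at h1
      refine h1.trans (le_of_eq ?_)
      rw [hV]
    have hlim : Tendsto (fun N => ∫⁻ a, ENNReal.ofReal B * ENNReal.ofReal (Real.sqrt (V N a)) ∂lam) atTop (𝓝 (∫⁻ a, 0 ∂lam)) := by
      apply tendsto_lintegral_of_dominated_convergence (fun _ => ENNReal.ofReal B * ENNReal.ofReal (Real.sqrt (4*G)))
      · intro N
        have mE := (eN N).measurable
        have mV : Measurable (V N) :=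
          (((hc2.measurable.comp (mE.prodMk mE)).sub (hc2.measurable.comp (mE.prodMk measurable_id))).sub
            (hc2.measurable.comp (measurable_id.prodMk mE))).add (hc2.measurable.comp (measurable_id.prodMk measurable_id))
        exact (mV.sqrt.ennreal_ofReal).const_mul _
      · intro N
        filter_upwards [lam_mem] with a ha
        gcongr
        have g1 := hG _ (eN_mem N a) _ (eN_mem N a)
        have g2 := hG _ (eN_mem N a) a ha
        have g3 := hG a ha _ (eN_mem N a)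
        have g4 := hG a ha a ha
        rw [abs_le] at g1 g2 g3 g4
        simp only [hV]
        linarith
      · simp [ENNReal.mul_eq_top]
      · filter_upwards [lam_mem] with a ha
        have he := eN_tendsto ha
        have l1 : Tendsto (fun N => V N a) atTop (𝓝 (C (σ a) (σ a) - C (σ a) (σ a) - C (σ a) (σ a) + C (σ a) (σ a))) := by
          have c1 : Tendsto (fun N => C (σ (eN N a)) (σ (eN N a))) atTop (𝓝 (C (σ a) (σ a))) :=
            (hc2.tendsto (a, a)).comp (he.prodMk_nhds he)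
          have c2 : Tendsto (fun N => C (σ (eN N a)) (σ a)) atTop (𝓝 (C (σ a) (σ a))) :=
            (hc2.tendsto (a, a)).comp (he.prodMk_nhds tendsto_const_nhds)
          have c3 : Tendsto (fun N => C (σ a) (σ (eN N a))) atTop (𝓝 (C (σ a) (σ a))) :=
            (hc2.tendsto (a, a)).comp (tendsto_const_nhds.prodMk_nhds he)
          exact ((c1.sub c2).sub c3).add tendsto_const_nhds
        have e0 : C (σ a) (σ a) - C (σ a) (σ a) - C (σ a) (σ a) + C (σ a) (σ a) = 0 := by ring
        rw [e0] at l1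
        have l2 := ENNReal.tendsto_ofReal ((Real.continuous_sqrt.tendsto 0).comp l1)
        rw [Real.sqrt_zero, ENNReal.ofReal_zero] at l2
        have l3 := ENNReal.Tendsto.const_mul (a := ENNReal.ofReal B) l2 (Or.inr ENNReal.ofReal_ne_top)
        rw [mul_zero] at l3
        exact l3
    rw [lintegral_zero] at hlim
    refine tendsto_of_tendsto_of_tendsto_of_le_of_le tendsto_const_nhds hlim (fun _ => zero_le) fun N => ?_
    have hYN : Measurable (fun p : ℝ × Ω => Y (σ (eN N p.1)) p.2) :=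
      hY.comp (((eN N).measurable.comp measurable_fst).prodMk measurable_snd)
    calc ∫⁻ ω, ‖(d t * Y (τ t) ω + ∫ a, κ t a * Y (σ (eN N a)) ω ∂lam) - (d t * Y (τ t) ω + ∫ a, κ t a * Y (σ a) ω ∂lam)‖ₑ ∂P
        ≤ ∫⁻ ω, ∫⁻ a, ENNReal.ofReal B * ‖Y (σ (eN N a)) ω - Y (σ a) ω‖ₑ ∂lam ∂P := by
          apply lintegral_mono_ae
          filter_upwards [habs] with ω hω
          have i2 : Integrable (fun a => κ t a * Y (σ a) ω) lam := hω.bdd_mul (c := B) (hκ t).aestronglyMeasurable (Eventually.of_forall fun a => hB a)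
          have i1 : Integrable (fun a => κ t a * Y (σ (eN N a)) ω) lam := by
            have i0 : Integrable (fun a => Y (σ (eN N a)) ω) lam := by
              have hb : ∀ a, |Y (σ (eN N a)) ω| ≤ ∑ r ∈ (eN N).range, |Y (σ r) ω| := fun a =>
                Finset.single_le_sum (f := fun r => |Y (σ r) ω|) (fun r _ => abs_nonneg _) (SimpleFunc.mem_range_self (eN N) a)
              exact Integrable.of_bound (hYN.comp (measurable_id.prodMk measurable_const)).aestronglyMeasurable _ (Eventually.of_forall hb)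
            exact i0.bdd_mul (c := B) (hκ t).aestronglyMeasurable (Eventually.of_forall fun a => hB a)
          rw [add_sub_add_left_eq_sub, ← integral_sub i1 i2]
          refine (enorm_integral_le_lintegral_enorm _).trans ?_
          apply lintegral_mono; intro a
          beta_reduce
          rw [← mul_sub, enorm_mul]
          gcongr
          rw [← ofReal_norm]
          exact ENNReal.ofReal_le_ofReal (hB a)
      _ = ∫⁻ a, ∫⁻ ω, ENNReal.ofReal B * ‖Y (σ (eN N a)) ω - Y (σ a) ω‖ₑ ∂P ∂lam := by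
          apply lintegral_lintegral_swap
          have : Measurable (fun p : Ω × ℝ => ENNReal.ofReal B * ‖Y (σ (eN N p.2)) p.1 - Y (σ p.2) p.1‖ₑ) :=
            (((hYN.comp measurable_swap).sub (hY.comp measurable_swap)).enorm).const_mul _
          exact this.aemeasurable
      _ ≤ ∫⁻ a, ENNReal.ofReal B * ENNReal.ofReal (Real.sqrt (V N a)) ∂lam := by
          apply lintegral_mono; intro a
          beta_reduce
          have mm' : Measurable (fun ω => ‖Y (σ (eN N a)) ω - Y (σ a) ω‖ₑ) := ((h.meas _).sub (h.meas _)).enorm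
          rw [lintegral_const_mul _ mm']
          exact mul_le_mul' le_rfl (hVb N a)

end

end

end Pool.Agent.H968
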