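import Mathlib
import Pool.Agent.H968.Br1

open MeasureTheory ProbabilityTheory Filter Topology Set
open scoped ENNReal NNReal

namespace Pool.Agent.H968

noncomputable section

/-- logarithmic kernel -/
def lg (τ : ℝ) : ℝ := Real.log (1/|τ|)

lemma lg_eq (τ : ℝ) : lg τ = -Real.log τ := by unfold lg; rw [one_div, Real.log_inv, Real.log_abs]

lemma lg_nonneg {τ : ℝ} (h : |τ| ≤ 1) : 0 ≤ lg τ := by
  rw [lg_eq, ← Real.log_abs]; have := Real.log_nonpos (abs_nonneg _) h; linarith

lemma lg_meas : Measurable lg := by unfold lg; fun_prop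

lemma lg_int (a : ℝ) : Integrable (fun b => lg (a - b)) lam := by
  have h1 : IntervalIntegrable (fun b => Real.log (a - b)) volume 0 1 := by
    have h0 : IntervalIntegrable Real.log volume a (a - 1) := intervalIntegral.intervalIntegrable_log'
    have := h0.comp_sub_left a
    simpa using this
  rw [intervalIntegrable_iff_integrableOn_Icc_of_le zero_le_one] at h1
  have h2 : Integrable (fun b => Real.log (a - b)) lam := h1
  refine h2.neg.congr (Eventually.of_forall fun b => ?_)
  simp only [Pi.neg_apply]; rw [lg_eq]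

lemma lg_int_le {a : ℝ} (ha : a ∈ Icc (0:ℝ) 1) : ∫ b, lg (a - b) ∂lam ≤ 2 := by
  have h1 : ∫ b, lg (a - b) ∂lam = -∫ b in (0:ℝ)..1, Real.log (a - b) := by
    rw [lam_integral, ← intervalIntegral.integral_neg]
    apply intervalIntegral.integral_congr; intro b _; exact lg_eq _
  rw [h1, intervalIntegral.integral_comp_sub_left (fun x => Real.log x) a, sub_zero, integral_log]
  have e1 : (a - 1) * Real.log (a - 1) = -((1-a) * Real.log (1-a)) := by
    rw [← Real.log_neg_eq_log, neg_sub]; ring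
  rw [e1]
  have g : ∀ x : ℝ, 0 ≤ x → -(x * Real.log x) ≤ 1 - x := by
    intro x hx
    rcases hx.eq_or_lt with h | h
    · rw [← h]; simp
    · have := Real.one_sub_inv_le_log_of_pos h
      have h2 := mul_le_mul_of_nonneg_left this hx
      have h3 : x * (1 - x⁻¹) = x - 1 := by field_simp
      linarith
  have g1 := g a ha.1
  have g2 := g (1-a) (by linarith [ha.2])
  linarith

lemma KK_tendsto_lg {τ : ℝ} (h0 : τ ≠ 0) (h1 : |τ| ≤ 1) : Tendsto (fun k => KK k τ) atTop (𝓝 (lg τ)) := by
  apply tendsto_const_nhds.congr'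
  have hpos : 0 < |τ| := abs_pos.2 h0
  have h2 : Tendsto (fun k : ℕ => Real.exp (-((k:ℝ)-1))) atTop (𝓝 0) := by
    apply Real.tendsto_exp_neg_atTop_nhds_zero.comp
    exact tendsto_atTop_add_const_right _ (-1) tendsto_natCast_atTop_atTop
  filter_upwards [h2.eventually (gt_mem_nhds hpos), eventually_ne_atTop 0] with k hk hk0
  exact (KK_eq_log hk0 h1 hk.le).symm

lemma KK_le_lg (k : ℕ) {τ : ℝ} (h0 : τ ≠ 0) (h1 : |τ| ≤ 1) : KK k τ ≤ lg τ := KK_le_log k h0 h1

lemma lam_ne (a : ℝ) : ∀ᵐ b ∂lam, a - b ≠ 0 := by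
  have h1 : ∀ᵐ b ∂(volume : Measure ℝ), b ≠ a := by
    rw [ae_iff]; simp
  filter_upwards [ae_restrict_of_ae (s := Icc (0:ℝ) 1) h1] with b hb
  exact sub_ne_zero.2 hb.symm

lemma CK_cont (i : ℕ) : Continuous (fun p : ℝ × ℝ => CK i p.1 p.2) := by
  unfold CK
  apply continuous_tsum (u := fun j : ℕ => 2 * Real.exp i * (1 / ((j:ℝ)+1)^2))
  · intro j; fun_prop
  · exact summable_inv_sq.mul_left _
  · intro j p
    rw [norm_mul, Real.norm_eq_abs, Real.norm_eq_abs, abs_of_nonneg (qK_nonneg i j)]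
    have h1 := qK_le i j
    have h2 := Real.abs_cos_le_one (Real.pi * j * (p.1 - p.2))
    have h3 := qK_nonneg i j
    calc qK i j * |Real.cos (Real.pi * j * (p.1 - p.2))| ≤ (2 * Real.exp i / ((j:ℝ)+1)^2) * 1 := by gcongr
      _ = _ := by ring

lemma Cm_cont (m : ℕ) : Continuous (fun p : ℝ × ℝ => Cm m p.1 p.2) := by
  unfold Cm; exact continuous_finsetSum _ fun i _ => CK_cont i

lemma Cm_cont_r (m : ℕ) (x : ℝ) : Continuous (fun a : ℝ => Cm m x a) := by
  have h : Continuous (fun a : ℝ => (x, a)) := by fun_prop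
  have h2 := (Cm_cont m).comp h
  simp only [Function.comp_def] at h2
  exact h2

lemma Cm_cont_l (m : ℕ) (x : ℝ) : Continuous (fun a : ℝ => Cm m a x) := by
  have h : Continuous (fun a : ℝ => (a, x)) := by fun_prop
  have h2 := (Cm_cont m).comp h
  simp only [Function.comp_def] at h2
  exact h2

lemma X_meas' (i : ℕ) : Measurable (fun p : ℝ × Om => X i p.1 p.2) := X_meas i

lemma abs_sub_Icc {a b : ℝ} (ha : a ∈ Icc (0:ℝ) 1) (hb : b ∈ Icc (0:ℝ) 1) : |a - b| ≤ 1 := by
  rw [abs_le]; constructor <;> linarith [ha.1, ha.2, hb.1, hb.2]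

lemma cK_int_le (i : ℕ) {a : ℝ} (ha : a ∈ Icc (0:ℝ) 1) : ∫ b, cK i (a - b) ∂lam ≤ 2 * Real.exp (-((i:ℝ)-1)) := by
  set e := Real.exp (-((i:ℝ)-1)) with he
  have he0 : 0 < e := Real.exp_pos _
  have h1 : ∫ b, cK i (a - b) ∂lam ≤ ∫ b, (Icc (a-e) (a+e)).indicator (fun _ => (1:ℝ)) b ∂lam := by
    apply integral_mono_ae (cont_int_lam ((cK_cont i).comp (continuous_const.sub continuous_id)))
    · exact (integrable_const _).indicator measurableSet_Icc
    · filter_upwards [lam_mem] with b hb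
      by_cases h : b ∈ Icc (a-e) (a+e)
      · rw [indicator_of_mem h]; exact cK_le_one _ _
      · rw [indicator_of_notMem h]
        apply le_of_eq
        apply cK_eq_zero (abs_sub_Icc ha hb)
        rw [mem_Icc, not_and_or, not_le, not_le] at h
        rcases h with h | h
        · rw [abs_of_pos (by linarith)]; linarith
        · rw [abs_sub_comm, abs_of_pos (by linarith)]; linarith
  refine h1.trans ?_
  rw [integral_indicator_const _ measurableSet_Icc, smul_eq_mul, mul_one]
  unfold lam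
  rw [Measure.real, Measure.restrict_apply measurableSet_Icc]
  have h2 : (volume (Icc (a-e) (a+e) ∩ Icc 0 1)).toReal ≤ (volume (Icc (a-e) (a+e))).toReal := by
    apply ENNReal.toReal_mono
    · rw [Real.volume_Icc]; exact ENNReal.ofReal_ne_top
    · exact measure_mono inter_subset_left
  refine h2.trans ?_
  rw [Real.volume_Icc, ENNReal.toReal_ofReal (by linarith)]
  linarith

/-- mollification kernels -/
structure Ker (κ : ℝ → ℝ → ℝ) (B : ℝ) : Prop where
  meas : Measurable (Function.uncurry κ)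
  nonneg : ∀ x a, 0 ≤ κ x a
  le : ∀ x a, κ x a ≤ B
  int_le : ∀ x, ∫ a, κ x a ∂lam ≤ 1

section
variable {κ : ℝ → ℝ → ℝ} {B : ℝ}

lemma Ker.ms (h : Ker κ B) (x : ℝ) : Measurable (κ x) := h.meas.comp (measurable_const.prodMk measurable_id)

lemma Ker.int (h : Ker κ B) (x : ℝ) : Integrable (κ x) lam :=
  Integrable.of_bound (h.ms x).aestronglyMeasurable B (Eventually.of_forall fun a => by
    rw [Real.norm_eq_abs, abs_of_nonneg (h.nonneg x a)]; exact h.le x a)

lemma Ker.B0 (h : Ker κ B) : 0 ≤ B := (h.nonneg 0 0).trans (h.le 0 0)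

lemma Ker.bddI (h : Ker κ B) (x : ℝ) {g : ℝ → ℝ} (hg : Integrable g lam) : Integrable (fun a => κ x a * g a) lam :=
  hg.bdd_mul (c := B) (h.ms x).aestronglyMeasurable (Eventually.of_forall fun a => by
    rw [Real.norm_eq_abs, abs_of_nonneg (h.nonneg x a)]; exact h.le x a)

/-- truncated kernels for the joint process -/
def kt (κ : ℝ → ℝ → ℝ) (s : Bool × ℝ) (a : ℝ) : ℝ := if s.1 then 0 else κ s.2 a

/-- weights for the joint process -/
def dt (s : Bool × ℝ) : ℝ := if s.1 then 1 else 0

/-- covariance of the joint process -/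
def CW (κ : ℝ → ℝ → ℝ) (v : ℕ) (s t : Bool × ℝ) : ℝ :=
  dt s * dt t * Cm v s.2 t.2 + dt s * ∫ b, kt κ t b * Cm v s.2 b ∂lam + dt t * ∫ a, kt κ s a * Cm v a t.2 ∂lam +
    ∫ a, kt κ s a * ∫ b, kt κ t b * lg (a - b) ∂lam ∂lam

/-- approximating processes -/
def ZW (κ : ℝ → ℝ → ℝ) (v i : ℕ) (s : Bool × ℝ) (ω : Om) : ℝ :=
  dt s * X (min i v) s.2 ω + ∫ a, kt κ s a * X i a ω ∂lam

lemma kt_meas (h : Ker κ B) : Measurable (fun p : (Bool × ℝ) × ℝ => kt κ p.1 p.2) := by
  unfold kt
  apply Measurable.ite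
  · have : Measurable (fun p : (Bool × ℝ) × ℝ => p.1.1) := measurable_fst.comp measurable_fst
    exact this (measurableSet_singleton true)
  · exact measurable_const
  · exact h.meas.comp ((measurable_snd.comp measurable_fst).prodMk measurable_snd)

lemma kt_bd (h : Ker κ B) (s : Bool × ℝ) (a : ℝ) : |kt κ s a| ≤ B := by
  unfold kt
  split_ifs
  · simpa using h.B0
  · rw [abs_of_nonneg (h.nonneg _ _)]; exact h.le _ _

lemma kt_nonneg (h : Ker κ B) (s : Bool × ℝ) (a : ℝ) : 0 ≤ kt κ s a := by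
  unfold kt
  split_ifs
  · exact le_rfl
  · exact h.nonneg _ _

lemma kt_int_le (h : Ker κ B) (s : Bool × ℝ) : ∫ a, kt κ s a ∂lam ≤ 1 := by
  unfold kt
  split_ifs
  · simp
  · exact h.int_le _

lemma kt_ms (h : Ker κ B) (s : Bool × ℝ) : Measurable (kt κ s) := (kt_meas h).comp (measurable_const.prodMk measurable_id)

lemma kt_int (h : Ker κ B) (s : Bool × ℝ) : Integrable (kt κ s) lam :=
  Integrable.of_bound (kt_ms h s).aestronglyMeasurable B (Eventually.of_forall fun a => kt_bd h s a)

lemma dt_meas : Measurable dt := by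
  unfold dt
  apply Measurable.ite (measurable_fst (measurableSet_singleton true)) measurable_const measurable_const

lemma ZW_meas (h : Ker κ B) (v i : ℕ) : Measurable (Function.uncurry (ZW κ v i)) := by
  have m1 : Measurable (fun p : (Bool × ℝ) × Om => dt p.1 * X (min i v) p.1.2 p.2) :=
    (dt_meas.comp measurable_fst).mul ((X_meas (min i v)).comp ((measurable_snd.comp measurable_fst).prodMk measurable_snd))
  have m2 : StronglyMeasurable (fun p : ((Bool × ℝ) × Om) × ℝ => kt κ p.1.1 p.2 * X i p.2 p.1.2) :=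
    (((kt_meas h).comp ((measurable_fst.comp measurable_fst).prodMk measurable_snd)).mul
      ((X_meas i).comp (measurable_snd.prodMk (measurable_snd.comp measurable_fst)))).stronglyMeasurable
  exact m1.add (StronglyMeasurable.integral_prod_right' (ν := lam) m2).measurable

lemma ZW_GP (h : Ker κ B) (v i : ℕ) : GP PP (ZW κ v i) (fun s t => dt s * dt t * Cm (min i v) s.2 t.2 +
    dt s * ∫ b, kt κ t b * Cm (min i v) s.2 b ∂lam + dt t * ∫ a, kt κ s a * Cm (min i v) a t.2 ∂lam +
    ∫ a, kt κ s a * ∫ b, kt κ t b * Cm i a b ∂lam ∂lam) := by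
  have hcx : ∀ (j k : ℕ) (x y : ℝ), CX (j, x) (k, y) = Cm (min j k) x y := fun j k x y => rfl
  have hY : Measurable (fun p : ℝ × Om => (fun q : ℕ × ℝ => X q.1 q.2) ((fun a : ℝ => (i, a)) p.1) p.2) := by
    exact X_meas' i
  have hc2 : Continuous (fun p : ℝ × ℝ => CX ((fun a : ℝ => (i, a)) p.1) ((fun a : ℝ => (i, a)) p.2)) := by
    have : (fun p : ℝ × ℝ => CX ((fun a : ℝ => (i, a)) p.1) ((fun a : ℝ => (i, a)) p.2)) = fun p => Cm i p.1 p.2 := by
      ext p
      show CX (i, p.1) (i, p.2) = _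
      rw [hcx, min_self]
    rw [this]; exact Cm_cont i
  have hcl : ∀ s : ℕ × ℝ, Continuous (fun a : ℝ => CX s ((fun a : ℝ => (i, a)) a)) := by
    intro s
    have : (fun a : ℝ => CX s ((fun a : ℝ => (i, a)) a)) = fun a => Cm (min s.1 i) s.2 a := by
      ext a; exact hcx s.1 i s.2 a
    rw [this]; exact Cm_cont_r _ _
  have hcr : ∀ s : ℕ × ℝ, Continuous (fun a : ℝ => CX ((fun a : ℝ => (i, a)) a) s) := by
    intro s
    have : (fun a : ℝ => CX ((fun a : ℝ => (i, a)) a) s) = fun a => Cm (min i s.1) a s.2 := by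
      ext a; exact hcx i s.1 a s.2
    rw [this]; exact Cm_cont_l _ _
  have h1 := X_GP.intF (T := Bool × ℝ) (fun a : ℝ => (i, a)) hY hc2 hcl hcr
    dt (fun s => (min i v, s.2)) (kt κ) (kt_ms h) (fun s => ⟨B, kt_bd h s⟩)
  simp only [hcx, min_self] at h1
  have e1 : min (min i v) i = min i v := by omega
  have e2 : min i (min i v) = min i v := by omega
  simp only [e1, e2] at h1
  exact h1

lemma dbl_tendsto (h : Ker κ B) (s t : Bool × ℝ) :
    Tendsto (fun i => ∫ a, kt κ s a * ∫ b, kt κ t b * Cm i a b ∂lam ∂lam) atTop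
      (𝓝 (∫ a, kt κ s a * ∫ b, kt κ t b * lg (a - b) ∂lam ∂lam)) := by
  have hB0 := h.B0
  have hin : ∀ a ∈ Icc (0:ℝ) 1, Tendsto (fun i => ∫ b, kt κ t b * Cm i a b ∂lam) atTop (𝓝 (∫ b, kt κ t b * lg (a - b) ∂lam)) := by
    intro a ha
    apply tendsto_integral_of_dominated_convergence (fun b => B * lg (a - b))
    · intro i
      exact ((kt_ms h t).mul (Cm_cont_r i a).measurable).aestronglyMeasurable
    · exact (lg_int a).const_mul _
    · intro i
      filter_upwards [lam_mem, lam_ne a] with b hb hne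
      have h1 := abs_sub_Icc ha hb
      rw [norm_mul, Real.norm_eq_abs, Real.norm_eq_abs, Cm_eq h1, abs_of_nonneg (KK_nonneg i h1)]
      exact mul_le_mul (kt_bd h t b) (KK_le_lg i hne h1) (KK_nonneg i h1) hB0
    · filter_upwards [lam_mem, lam_ne a] with b hb hne
      have h1 := abs_sub_Icc ha hb
      simp_rw [Cm_eq h1]
      exact (KK_tendsto_lg hne h1).const_mul _
  apply tendsto_integral_of_dominated_convergence (fun _ => B * (B * 2))
  · intro i
    have m1 : StronglyMeasurable (fun p : ℝ × ℝ => kt κ t p.2 * Cm i p.1 p.2) :=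
      (((kt_ms h t).comp measurable_snd).mul (Cm_cont i).measurable).stronglyMeasurable
    exact ((kt_ms h s).mul (StronglyMeasurable.integral_prod_right' (ν := lam) m1).measurable).aestronglyMeasurable
  · exact integrable_const _
  · intro i
    filter_upwards [lam_mem] with a ha
    rw [norm_mul, Real.norm_eq_abs]
    apply mul_le_mul (kt_bd h s a) _ (norm_nonneg _) hB0
    have h1 : ‖∫ b, kt κ t b * Cm i a b ∂lam‖ ≤ ∫ b, B * lg (a - b) ∂lam := by
      apply norm_integral_le_of_norm_le ((lg_int a).const_mul _)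
      filter_upwards [lam_mem, lam_ne a] with b hb hne
      have h1 := abs_sub_Icc ha hb
      rw [norm_mul, Real.norm_eq_abs, Real.norm_eq_abs, Cm_eq h1, abs_of_nonneg (KK_nonneg i h1)]
      exact mul_le_mul (kt_bd h t b) (KK_le_lg i hne h1) (KK_nonneg i h1) hB0
    rw [integral_const_mul] at h1
    exact h1.trans (mul_le_mul_of_nonneg_left (lg_int_le ha) hB0)
  · filter_upwards [lam_mem] with a ha
    exact (hin a ha).const_mul _

lemma X_path (i : ℕ) : ∀ᵐ ω ∂PP, Integrable (fun a => X i a ω) lam := by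
  have := (Xm_GP i).abs_path (σ := fun a : ℝ => a) (X_meas' i) (Cm_cont i)
  exact this

lemma inc_bound (h : Ker κ B) (i : ℕ) (s : Bool × ℝ) :
    ∫⁻ ω, ‖∫ a, kt κ s a * XI i (i+1) a ω ∂lam‖ₑ ∂PP ≤ ENNReal.ofReal (Real.sqrt (2 * B * Real.exp (-((i:ℝ)-1)))) := by
  have hB0 := h.B0
  have hci : ∀ a b : ℝ, CI i (i+1) a b = CK i a b := by
    intro a b; unfold CI Cm; rw [Finset.sum_range_succ]; ring
  have hci' : CI i (i+1) = CK i := by ext a b; exact hci a b
  have hG := XI_GP (Nat.le_succ i)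
  rw [Nat.succ_eq_add_one, hci'] at hG
  have hXm : Measurable (fun p : ℝ × Om => XI i (i+1) p.1 p.2) := XI_meas i (i+1)
  have c1 : ∀ x : ℝ, Continuous (fun a : ℝ => CK i x a) := by
    intro x
    have h : Continuous (fun a : ℝ => (x, a)) := by fun_prop
    have h2 := (CK_cont i).comp h
    simp only [Function.comp_def] at h2
    exact h2
  have c2 : ∀ x : ℝ, Continuous (fun a : ℝ => CK i a x) := by
    intro x
    have h : Continuous (fun a : ℝ => (a, x)) := by fun_prop
    have h2 := (CK_cont i).comp h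
    simp only [Function.comp_def] at h2
    exact h2
  have h1 := hG.intF (T := Bool × ℝ) (fun a : ℝ => a) hXm (CK_cont i) c1 c2 (fun _ => 0) (fun _ => 0) (kt κ) (kt_ms h) (fun s => ⟨B, kt_bd h s⟩)
  have h2 := h1.lintegral_abs_le s
  simp only [zero_mul, zero_add, add_zero] at h2
  refine h2.trans (ENNReal.ofReal_le_ofReal (Real.sqrt_le_sqrt ?_))
  have hint : ∀ a ∈ Icc (0:ℝ) 1, ∫ b, kt κ s b * CK i a b ∂lam ≤ B * (2 * Real.exp (-((i:ℝ)-1))) := by
    intro a ha
    refine le_trans ?_ (mul_le_mul_of_nonneg_left (cK_int_le i ha) hB0)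
    rw [← integral_const_mul]
    apply integral_mono_ae
    · have : Integrable (fun b => CK i a b) lam := cont_int_lam (c1 a)
      exact this.bdd_mul (c := B) (kt_ms h s).aestronglyMeasurable (Eventually.of_forall fun b => kt_bd h s b)
    · exact (cont_int_lam ((cK_cont i).comp (continuous_const.sub continuous_id))).const_mul _
    · filter_upwards [lam_mem] with b hb
      have h1 := abs_sub_Icc ha hb
      rw [CK_eq i h1]
      exact mul_le_mul_of_nonneg_right ((le_abs_self _).trans (kt_bd h s b)) (cK_nonneg i h1)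
  calc ∫ a, kt κ s a * ∫ b, kt κ s b * CK i a b ∂lam ∂lam ≤ ∫ a, kt κ s a * (B * (2 * Real.exp (-((i:ℝ)-1)))) ∂lam := by
        apply integral_mono_of_nonneg
        · filter_upwards [lam_mem] with a ha
          apply mul_nonneg (kt_nonneg h s a)
          apply integral_nonneg_of_ae
          filter_upwards [lam_mem] with b hb
          have h1 := abs_sub_Icc ha hb
          show (0:ℝ) ≤ kt κ s b * CK i a b
          rw [CK_eq i h1]
          exact mul_nonneg (kt_nonneg h s b) (cK_nonneg i h1)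
        · exact (kt_int h s).mul_const _
        · filter_upwards [lam_mem] with a ha
          exact mul_le_mul_of_nonneg_left (hint a ha) (kt_nonneg h s a)
    _ = (∫ a, kt κ s a ∂lam) * (B * (2 * Real.exp (-((i:ℝ)-1)))) := integral_mul_const _ _
    _ ≤ 1 * (B * (2 * Real.exp (-((i:ℝ)-1)))) := by
        apply mul_le_mul_of_nonneg_right (kt_int_le h s); positivity
    _ = _ := by ring

lemma inc_bound2 (v i : ℕ) (s : Bool × ℝ) :
    ∫⁻ ω, ‖dt s * (X (min (i+1) v) s.2 ω - X (min i v) s.2 ω)‖ₑ ∂PP ≤ (if i < v then 1 else 0) := by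
  have hd : ‖dt s‖ₑ ≤ 1 := by unfold dt; split_ifs <;> simp
  by_cases hi : i < v
  · rw [if_pos hi]
    have hle : min i v ≤ min (i+1) v := by omega
    have h1 := (XI_GP hle).lintegral_abs_le s.2
    rw [CI_diag] at h1
    have e1 : ((min (i+1) v : ℕ) : ℝ) - ((min i v : ℕ) : ℝ) = 1 := by
      rw [min_eq_left (by omega : i + 1 ≤ v), min_eq_left (by omega : i ≤ v)]; push_cast; ring
    rw [e1, Real.sqrt_one, ENNReal.ofReal_one] at h1
    refine le_trans ?_ h1
    apply lintegral_mono; intro ω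
    beta_reduce
    rw [enorm_mul]
    calc _ ≤ 1 * ‖X (min (i+1) v) s.2 ω - X (min i v) s.2 ω‖ₑ := by gcongr
      _ = _ := by rw [one_mul]; rfl
  · rw [if_neg hi]
    have e1 : min (i+1) v = v := by omega
    have e2 : min i v = v := by omega
    rw [e1, e2]; simp

theorem exists_W (h : Ker κ B) (v : ℕ) : ∃ W : (Bool × ℝ) → Om → ℝ, Measurable (Function.uncurry W) ∧ GP PP W (CW κ v) := by
  have hB0 := h.B0
  have hδ : ∑' i : ℕ, ((if i < v then (1:ℝ≥0∞) else 0) + ENNReal.ofReal (Real.sqrt (2 * B * Real.exp (-((i:ℝ)-1))))) ≠ ∞ := by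
    rw [ENNReal.tsum_add]
    apply ENNReal.add_ne_top.2
    constructor
    · rw [tsum_eq_sum (s := Finset.range v)]
      · exact (ENNReal.sum_lt_top.2 fun i _ => by split_ifs <;> simp).ne
      · intro i hi
        rw [if_neg (by simpa using hi)]
    · have e : ∀ i : ℕ, Real.sqrt (2 * B * Real.exp (-((i:ℝ)-1))) = Real.sqrt (2 * B * Real.exp 1) * (Real.exp (-(1/2)))^i := by
        intro i
        rw [show 2 * B * Real.exp (-((i:ℝ)-1)) = (2 * B * Real.exp 1) * ((Real.exp (-(1/2)))^i)^2 by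
          rw [← pow_mul, ← Real.exp_nat_mul, mul_assoc (2 * B), ← Real.exp_add]; congr 2; push_cast; ring,
          Real.sqrt_mul (by positivity), Real.sqrt_sq (by positivity)]
      simp_rw [e]
      rw [← ENNReal.ofReal_tsum_of_nonneg]
      · exact ENNReal.ofReal_ne_top
      · intro n; positivity
      · apply Summable.mul_left
        apply summable_geometric_of_lt_one (Real.exp_pos _).le
        rw [Real.exp_lt_one_iff]; norm_num
  obtain ⟨W, h1, h2, -⟩ := conv_GP (P := PP) (S := Bool × ℝ) (C := CW κ v) (ZW κ v) (ZW_meas h v) _ (ZW_GP h v) (fun s t => by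
      unfold CW
      refine Tendsto.add ?_ (dbl_tendsto h s t)
      apply tendsto_const_nhds.congr'
      filter_upwards [eventually_ge_atTop v] with i hi
      rw [min_eq_right hi]) _ hδ (fun i s => by
      calc ∫⁻ ω, ‖ZW κ v (i+1) s ω - ZW κ v i s ω‖ₑ ∂PP
          ≤ ∫⁻ ω, (‖dt s * (X (min (i+1) v) s.2 ω - X (min i v) s.2 ω)‖ₑ + ‖∫ a, kt κ s a * XI i (i+1) a ω ∂lam‖ₑ) ∂PP := by
            apply lintegral_mono_ae
            filter_upwards [X_path i, X_path (i+1)] with ω p1 p2
            have i1 : Integrable (fun a => kt κ s a * X i a ω) lam :=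
              p1.bdd_mul (c := B) (kt_ms h s).aestronglyMeasurable (Eventually.of_forall fun b => kt_bd h s b)
            have i2 : Integrable (fun a => kt κ s a * X (i+1) a ω) lam :=
              p2.bdd_mul (c := B) (kt_ms h s).aestronglyMeasurable (Eventually.of_forall fun b => kt_bd h s b)
            have e : ZW κ v (i+1) s ω - ZW κ v i s ω = dt s * (X (min (i+1) v) s.2 ω - X (min i v) s.2 ω) + ∫ a, kt κ s a * XI i (i+1) a ω ∂lam := by
              unfold ZW XI
              simp_rw [mul_sub]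
              rw [integral_sub i2 i1]
              ring
            rw [e]
            exact enorm_add_le _ _
        _ = (∫⁻ ω, ‖dt s * (X (min (i+1) v) s.2 ω - X (min i v) s.2 ω)‖ₑ ∂PP) + ∫⁻ ω, ‖∫ a, kt κ s a * XI i (i+1) a ω ∂lam‖ₑ ∂PP := by
            apply lintegral_add_left
            exact (((meas_sec (X_meas _) _).sub (meas_sec (X_meas _) _)).const_mul _).enorm
        _ ≤ _ := add_le_add (inc_bound2 v i s) (inc_bound h i s))
  exact ⟨W, h1, h2⟩

end

end

end Pool.Agent.H968
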