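import Mathlib
import Pool.Agent.H968.Br2

open MeasureTheory ProbabilityTheory Filter Topology Set
open scoped ENNReal NNReal

namespace Pool.Agent.H968

noncomputable section

section
variable {Ω S : Type*} [MeasurableSpace Ω] {P : Measure Ω} [IsProbabilityMeasure P]
  {Y : S → Ω → ℝ} {C : S → S → ℝ}

/-- normalised exponential -/
def psi (Y : S → Ω → ℝ) (C : S → S → ℝ) (s : S) (ω : Ω) : ℝ := Real.exp (s2/2 * Y s ω - C s s / 4)

omit [MeasurableSpace Ω] in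
lemma psi_pos (s : S) (ω : Ω) : 0 < psi Y C s ω := Real.exp_pos _

lemma psi_two (h : GP P Y C) (s t : S) : Integrable (fun ω => psi Y C s ω * psi Y C t ω) P ∧
    ∫ ω, psi Y C s ω * psi Y C t ω ∂P = Real.exp ((C s t + C t s)/4) := by
  have h1 := h.integrable_exp (m := 2) ![s, t] ![s2/2, s2/2]
  have h2 := h.integral_exp (m := 2) ![s, t] ![s2/2, s2/2]
  unfold qf at h2
  simp only [Fin.sum_univ_two, Matrix.cons_val_zero, Matrix.cons_val_one] at h1 h2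
  have e : ∀ ω, psi Y C s ω * psi Y C t ω = Real.exp (-(C s s + C t t)/4) * Real.exp (s2/2 * Y s ω + s2/2 * Y t ω) := by
    intro ω; unfold psi; rw [← Real.exp_add, ← Real.exp_add]; congr 1; ring
  simp_rw [e]
  refine ⟨h1.const_mul _, ?_⟩
  rw [integral_const_mul, h2, ← Real.exp_add]
  congr 1
  have hs : s2/2 * (s2/2) = 1/2 := by rw [show s2/2*(s2/2) = s2*s2/4 by ring, s2_sq]; norm_num
  rw [hs]; ring

lemma psi_one (h : GP P Y C) (s : S) : Integrable (psi Y C s) P ∧ ∫ ω, psi Y C s ω ∂P = 1 := by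
  have h1 := h.integrable_exp (m := 1) ![s] ![s2/2]
  have h2 := h.integral_exp (m := 1) ![s] ![s2/2]
  unfold qf at h2
  simp only [Finset.univ_unique, Fin.default_eq_zero, Fin.isValue, Finset.sum_singleton, Matrix.cons_val_zero] at h1 h2
  have e : ∀ ω, psi Y C s ω = Real.exp (-(C s s)/4) * Real.exp (s2/2 * Y s ω) := by
    intro ω; unfold psi; rw [← Real.exp_add]; congr 1; ring
  have e' : psi Y C s = fun ω => Real.exp (-(C s s)/4) * Real.exp (s2/2 * Y s ω) := funext e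
  rw [e']
  refine ⟨h1.const_mul _, ?_⟩
  rw [integral_const_mul, h2, ← Real.exp_add, Real.exp_eq_one_iff]
  have hs : s2/2 * (s2/2) = 1/2 := by rw [show s2/2*(s2/2) = s2*s2/4 by ring, s2_sq]; norm_num
  rw [hs]; ring

end

section
variable {S : Type*} {Y : S → Om → ℝ} {C : S → S → ℝ}

/-- two point function -/
def tp (C : S → S → ℝ) (s t : S) : ℝ := Real.exp ((C s t + C t s)/4)

lemma tp_pos (s t : S) : 0 < tp C s t := Real.exp_pos _

/-- the kernel of the second moment of the difference -/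
def KD (C : S → S → ℝ) (F1 F2 : ℝ → ℝ) (s1 s2' : ℝ → S) (p : ℝ × ℝ) : ℝ :=
  F1 p.1 * F1 p.2 * tp C (s1 p.1) (s1 p.2) - F1 p.1 * F2 p.2 * tp C (s1 p.1) (s2' p.2) - F2 p.1 * F1 p.2 * tp C (s2' p.1) (s1 p.2) +
    F2 p.1 * F2 p.2 * tp C (s2' p.1) (s2' p.2)

theorem L2_formula (h : GP PP Y C) {F1 F2 : ℝ → ℝ} {s1 s2' : ℝ → S} (hF1 : Measurable F1) (hF2 : Measurable F2)
    (hm1 : Measurable (fun q : ℝ × Om => psi Y C (s1 q.1) q.2)) (hm2 : Measurable (fun q : ℝ × Om => psi Y C (s2' q.1) q.2))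
    {b : ℝ × ℝ → ℝ} (hb : Integrable b (lam.prod lam))
    (h11 : ∀ᵐ p ∂(lam.prod lam), |F1 p.1 * F1 p.2| * tp C (s1 p.1) (s1 p.2) ≤ b p)
    (h12 : ∀ᵐ p ∂(lam.prod lam), |F1 p.1 * F2 p.2| * tp C (s1 p.1) (s2' p.2) ≤ b p)
    (h21 : ∀ᵐ p ∂(lam.prod lam), |F2 p.1 * F1 p.2| * tp C (s2' p.1) (s1 p.2) ≤ b p)
    (h22 : ∀ᵐ p ∂(lam.prod lam), |F2 p.1 * F2 p.2| * tp C (s2' p.1) (s2' p.2) ≤ b p) :
    Integrable (fun ω => (∫ x, (F1 x * psi Y C (s1 x) ω - F2 x * psi Y C (s2' x) ω) ∂lam)^2) PP ∧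
    ∫ ω, (∫ x, (F1 x * psi Y C (s1 x) ω - F2 x * psi Y C (s2' x) ω) ∂lam)^2 ∂PP = ∫ p, KD C F1 F2 s1 s2' p ∂(lam.prod lam) := by
  set H : ℝ → Om → ℝ := fun x ω => F1 x * psi Y C (s1 x) ω - F2 x * psi Y C (s2' x) ω with hH
  have mH : Measurable (Function.uncurry H) := ((hF1.comp measurable_fst).mul hm1).sub ((hF2.comp measurable_fst).mul hm2)
  have hp : ∀ p : ℝ × ℝ, Integrable (fun ω => H p.1 ω * H p.2 ω) PP ∧ ∫ ω, H p.1 ω * H p.2 ω ∂PP = KD C F1 F2 s1 s2' p ∧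
      ∫ ω, |H p.1 ω * H p.2 ω| ∂PP ≤ |F1 p.1 * F1 p.2| * tp C (s1 p.1) (s1 p.2) + |F1 p.1 * F2 p.2| * tp C (s1 p.1) (s2' p.2) +
        |F2 p.1 * F1 p.2| * tp C (s2' p.1) (s1 p.2) + |F2 p.1 * F2 p.2| * tp C (s2' p.1) (s2' p.2) := by
    intro p
    obtain ⟨i11, e11⟩ := psi_two h (s1 p.1) (s1 p.2)
    obtain ⟨i12, e12⟩ := psi_two h (s1 p.1) (s2' p.2)
    obtain ⟨i21, e21⟩ := psi_two h (s2' p.1) (s1 p.2)
    obtain ⟨i22, e22⟩ := psi_two h (s2' p.1) (s2' p.2)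
    have e : ∀ ω, H p.1 ω * H p.2 ω = F1 p.1 * F1 p.2 * (psi Y C (s1 p.1) ω * psi Y C (s1 p.2) ω) -
        F1 p.1 * F2 p.2 * (psi Y C (s1 p.1) ω * psi Y C (s2' p.2) ω) - F2 p.1 * F1 p.2 * (psi Y C (s2' p.1) ω * psi Y C (s1 p.2) ω) +
        F2 p.1 * F2 p.2 * (psi Y C (s2' p.1) ω * psi Y C (s2' p.2) ω) := by
      intro ω; simp only [hH]; ring
    have j1 := i11.const_mul (F1 p.1 * F1 p.2)
    have j2 := i12.const_mul (F1 p.1 * F2 p.2)
    have j3 := i21.const_mul (F2 p.1 * F1 p.2)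
    have j4 := i22.const_mul (F2 p.1 * F2 p.2)
    have j12 : Integrable (fun ω => F1 p.1 * F1 p.2 * (psi Y C (s1 p.1) ω * psi Y C (s1 p.2) ω) -
        F1 p.1 * F2 p.2 * (psi Y C (s1 p.1) ω * psi Y C (s2' p.2) ω)) PP := j1.sub j2
    have j123 : Integrable (fun ω => F1 p.1 * F1 p.2 * (psi Y C (s1 p.1) ω * psi Y C (s1 p.2) ω) -
        F1 p.1 * F2 p.2 * (psi Y C (s1 p.1) ω * psi Y C (s2' p.2) ω) - F2 p.1 * F1 p.2 * (psi Y C (s2' p.1) ω * psi Y C (s1 p.2) ω)) PP := j12.sub j3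
    have jall : Integrable (fun ω => H p.1 ω * H p.2 ω) PP := by
      simp_rw [e]; exact j123.add j4
    refine ⟨jall, ?_, ?_⟩
    · simp_rw [e]
      rw [integral_add j123 j4, integral_sub j12 j3, integral_sub j1 j2, integral_const_mul, integral_const_mul, integral_const_mul,
        integral_const_mul, e11, e12, e21, e22]
      rfl
    · have k1 := i11.const_mul |F1 p.1 * F1 p.2|
      have k2 := i12.const_mul |F1 p.1 * F2 p.2|
      have k3 := i21.const_mul |F2 p.1 * F1 p.2|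
      have k4 := i22.const_mul |F2 p.1 * F2 p.2|
      have k12 : Integrable (fun ω => |F1 p.1 * F1 p.2| * (psi Y C (s1 p.1) ω * psi Y C (s1 p.2) ω) +
        |F1 p.1 * F2 p.2| * (psi Y C (s1 p.1) ω * psi Y C (s2' p.2) ω)) PP := k1.add k2
      have k123 : Integrable (fun ω => |F1 p.1 * F1 p.2| * (psi Y C (s1 p.1) ω * psi Y C (s1 p.2) ω) +
        |F1 p.1 * F2 p.2| * (psi Y C (s1 p.1) ω * psi Y C (s2' p.2) ω) + |F2 p.1 * F1 p.2| * (psi Y C (s2' p.1) ω * psi Y C (s1 p.2) ω)) PP := k12.add k3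
      have kall : Integrable (fun ω => |F1 p.1 * F1 p.2| * (psi Y C (s1 p.1) ω * psi Y C (s1 p.2) ω) +
        |F1 p.1 * F2 p.2| * (psi Y C (s1 p.1) ω * psi Y C (s2' p.2) ω) + |F2 p.1 * F1 p.2| * (psi Y C (s2' p.1) ω * psi Y C (s1 p.2) ω) +
        |F2 p.1 * F2 p.2| * (psi Y C (s2' p.1) ω * psi Y C (s2' p.2) ω)) PP := k123.add k4
      have hle : ∫ ω, |H p.1 ω * H p.2 ω| ∂PP ≤ ∫ ω, (|F1 p.1 * F1 p.2| * (psi Y C (s1 p.1) ω * psi Y C (s1 p.2) ω) +
        |F1 p.1 * F2 p.2| * (psi Y C (s1 p.1) ω * psi Y C (s2' p.2) ω) + |F2 p.1 * F1 p.2| * (psi Y C (s2' p.1) ω * psi Y C (s1 p.2) ω) +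
        |F2 p.1 * F2 p.2| * (psi Y C (s2' p.1) ω * psi Y C (s2' p.2) ω)) ∂PP := by
        apply integral_mono jall.abs kall
        intro ω
        show |H p.1 ω * H p.2 ω| ≤ _
        have q1 : ∀ s t : S, |psi Y C s ω * psi Y C t ω| = psi Y C s ω * psi Y C t ω := fun s t => abs_of_pos (mul_pos (psi_pos _ _) (psi_pos _ _))
        rw [e]
        refine (abs_add_le _ _).trans ?_
        refine add_le_add ((abs_sub _ _).trans (add_le_add ((abs_sub _ _).trans (add_le_add ?_ ?_)) ?_)) ?_ <;>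
          rw [abs_mul _ (psi Y C _ ω * psi Y C _ ω), q1]
      refine hle.trans (le_of_eq ?_)
      rw [integral_add k123 k4, integral_add k12 k3, integral_add k1 k2, integral_const_mul, integral_const_mul, integral_const_mul,
        integral_const_mul, e11, e12, e21, e22]
      rfl
  have hHH : Measurable (Function.uncurry fun (p : ℝ × ℝ) ω => H p.1 ω * H p.2 ω) := by
    have a1 : Measurable (fun q : (ℝ × ℝ) × Om => H q.1.1 q.2) := mH.comp ((measurable_fst.comp measurable_fst).prodMk measurable_snd)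
    have a2 : Measurable (fun q : (ℝ × ℝ) × Om => H q.1.2 q.2) := mH.comp ((measurable_snd.comp measurable_fst).prodMk measurable_snd)
    exact a1.mul a2
  have hI : Integrable (fun q : (ℝ × ℝ) × Om => H q.1.1 q.2 * H q.1.2 q.2) ((lam.prod lam).prod PP) := by
    apply prod_integrable hHH (Eventually.of_forall fun p => (hp p).1) (hb.const_mul 4)
    filter_upwards [h11, h12, h21, h22] with p a1 a2 a3 a4
    have := (hp p).2.2
    show ∫ ω, |H p.1 ω * H p.2 ω| ∂PP ≤ 4 * b p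
    linarith
  have hbil := bil_formula hI
  have hsq : ∀ ω, (∫ x, H x ω ∂lam)^2 = ∫ p : ℝ × ℝ, H p.1 ω * H p.2 ω ∂(lam.prod lam) := by
    intro ω; rw [sq, ← integral_prod_mul (μ := lam) (ν := lam) (fun x => H x ω) (fun x => H x ω)]
  constructor
  · have h3 : Integrable (fun ω => ∫ p : ℝ × ℝ, H p.1 ω * H p.2 ω ∂(lam.prod lam)) PP := hI.swap.integral_prod_left
    exact h3.congr (Eventually.of_forall fun ω => (hsq ω).symm)
  · have e1 : ∀ ω, (∫ x, H x ω ∂lam)^2 = (∫ x, H x ω ∂lam) * (∫ y, H y ω ∂lam) := fun ω => sq _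
    show ∫ ω, (∫ x, H x ω ∂lam)^2 ∂PP = _
    simp_rw [e1]
    rw [hbil]
    apply integral_congr_ae
    exact Eventually.of_forall fun p => (hp p).2.1

end

end

end Pool.Agent.H968
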