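import Mathlib
import Pool.Agent.H968.Br3

open MeasureTheory ProbabilityTheory Filter Topology Set
open scoped ENNReal NNReal

namespace Pool.Agent.H968

noncomputable section

/-- mollifiers -/
structure Mol (ρ : ℝ → ℝ) (M R : ℝ) : Prop where
  meas : Measurable ρ
  nonneg : ∀ t, 0 ≤ ρ t
  le : ∀ t, ρ t ≤ M
  supp : ∀ t, R < |t| → ρ t = 0
  int_one : ∫ t, ρ t = 1
  hR : 0 < R

/-- the kernel of the mollification on the unit interval -/
def mk (ρ : ℝ → ℝ) (R ε x a : ℝ) : ℝ := (Icc (R*ε) (1 - R*ε)).indicator (fun x => ε⁻¹ * ρ ((x-a)/ε)) x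

lemma lg_neg (τ : ℝ) : lg (-τ) = lg τ := by unfold lg; rw [abs_neg]

lemma lg_sub_comm (a b : ℝ) : lg (a - b) = lg (b - a) := by rw [← lg_neg, neg_sub]

lemma lg_int' (y : ℝ) : Integrable (fun a => lg (a - y)) lam :=
  (lg_int y).congr (Eventually.of_forall fun a => lg_sub_comm _ _)

section
variable {ρ : ℝ → ℝ} {M R ε : ℝ}

lemma Mol.M0 (h : Mol ρ M R) : 0 ≤ M := (h.nonneg 0).trans (h.le 0)

lemma mk_of_mem {x : ℝ} (hx : x ∈ Icc (R*ε) (1 - R*ε)) (a : ℝ) : mk ρ R ε x a = ε⁻¹ * ρ ((x-a)/ε) := by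
  unfold mk; rw [indicator_of_mem hx]

lemma mk_of_notMem {x : ℝ} (hx : x ∉ Icc (R*ε) (1 - R*ε)) (a : ℝ) : mk ρ R ε x a = 0 := by
  unfold mk; rw [indicator_of_notMem hx]

lemma mk_supp (h : Mol ρ M R) (hε : 0 < ε) {x a : ℝ} (hxa : R * ε < |x - a|) : mk ρ R ε x a = 0 := by
  by_cases hx : x ∈ Icc (R*ε) (1 - R*ε)
  · rw [mk_of_mem hx, h.supp, mul_zero]
    rw [abs_div, abs_of_pos hε, lt_div_iff₀ hε]; exact hxa
  · exact mk_of_notMem hx a

lemma scaled_int (h : Mol ρ M R) (hε : 0 < ε) (x : ℝ) : ∫ a, ε⁻¹ * ρ ((x-a)/ε) = 1 := by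
  rw [integral_const_mul, integral_sub_left_eq_self (fun a => ρ (a/ε)) volume x, Measure.integral_comp_div ρ ε, h.int_one,
    abs_of_pos hε, smul_eq_mul, mul_one, inv_mul_cancel₀ hε.ne']

lemma mk_int_one (h : Mol ρ M R) (hε : 0 < ε) {x : ℝ} (hx : x ∈ Icc (R*ε) (1 - R*ε)) : ∫ a, mk ρ R ε x a ∂lam = 1 := by
  simp_rw [mk_of_mem hx]
  unfold lam
  refine Eq.trans ?_ (scaled_int h hε x)
  apply setIntegral_eq_integral_of_forall_compl_eq_zero
  intro a ha
  have h1 : R * ε < |x - a| := by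
    rw [mem_Icc, not_and_or, not_le, not_le] at ha
    rcases ha with ha | ha
    · rw [abs_of_pos (by have := h.hR; have := mul_pos this hε; linarith [hx.1])]; linarith [hx.1]
    · rw [abs_sub_comm, abs_of_pos (by have := h.hR; have := mul_pos this hε; linarith [hx.2])]; linarith [hx.2]
  have := mk_supp h hε h1
  rw [mk_of_mem hx] at this
  exact this

lemma mk_meas (h : Mol ρ M R) : Measurable (Function.uncurry (mk ρ R ε)) := by
  have e : Function.uncurry (mk ρ R ε) = ((Icc (R*ε) (1 - R*ε)) ×ˢ univ).indicator (fun p : ℝ × ℝ => ε⁻¹ * ρ ((p.1-p.2)/ε)) := by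
    ext p
    unfold Function.uncurry mk
    by_cases hx : p.1 ∈ Icc (R*ε) (1 - R*ε)
    · rw [indicator_of_mem hx, indicator_of_mem (by exact ⟨hx, mem_univ _⟩)]
    · rw [indicator_of_notMem hx, indicator_of_notMem (by intro h; exact hx h.1)]
  rw [e]
  apply Measurable.indicator _ (measurableSet_Icc.prod MeasurableSet.univ)
  exact (h.meas.comp ((measurable_fst.sub measurable_snd).div_const _)).const_mul _

lemma mk_Ker (h : Mol ρ M R) (hε : 0 < ε) : Ker (mk ρ R ε) (ε⁻¹ * M) where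
  meas := mk_meas h
  nonneg x a := by
    by_cases hx : x ∈ Icc (R*ε) (1 - R*ε)
    · rw [mk_of_mem hx]; exact mul_nonneg (by positivity) (h.nonneg _)
    · rw [mk_of_notMem hx]
  le x a := by
    by_cases hx : x ∈ Icc (R*ε) (1 - R*ε)
    · rw [mk_of_mem hx]; exact mul_le_mul_of_nonneg_left (h.le _) (by positivity)
    · rw [mk_of_notMem hx]; exact mul_nonneg (by positivity) h.M0
  int_le x := by
    by_cases hx : x ∈ Icc (R*ε) (1 - R*ε)
    · exact (mk_int_one h hε hx).le
    · simp_rw [mk_of_notMem hx]; simp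

lemma log_box {y : ℝ} (hε : 0 < ε) : ∫ a, (Icc (y-ε) (y+ε)).indicator (fun a => Real.log ε - Real.log (a - y)) a ∂lam ≤ 2 * ε ∧
    Integrable (fun a => (Icc (y-ε) (y+ε)).indicator (fun a => Real.log ε - Real.log (a - y)) a) lam := by
  have hii : IntervalIntegrable (fun a => Real.log ε - Real.log (a - y)) volume (y-ε) (y+ε) := by
    apply IntervalIntegrable.sub intervalIntegrable_const
    have h0 : IntervalIntegrable Real.log volume (-ε) ε := intervalIntegral.intervalIntegrable_log'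
    have := h0.comp_sub_right y
    simp only [neg_add_eq_sub] at this
    rw [add_comm ε y] at this
    exact this
  have hval : ∫ a in (y-ε)..(y+ε), (Real.log ε - Real.log (a - y)) = 2 * ε := by
    rw [intervalIntegral.integral_comp_sub_right (fun t => Real.log ε - Real.log t) y]
    have e1 : y - ε - y = -ε := by ring
    have e2 : y + ε - y = ε := by ring
    rw [e1, e2, intervalIntegral.integral_sub intervalIntegrable_const intervalIntegral.intervalIntegrable_log', integral_log,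
      intervalIntegral.integral_const, Real.log_neg_eq_log, smul_eq_mul]
    ring
  have hle : y - ε ≤ y + ε := by linarith
  have hI : IntegrableOn (fun a => Real.log ε - Real.log (a - y)) (Icc (y-ε) (y+ε)) volume :=
    (intervalIntegrable_iff_integrableOn_Icc_of_le hle).1 hii
  have hI2 : Integrable (fun a => (Icc (y-ε) (y+ε)).indicator (fun a => Real.log ε - Real.log (a - y)) a) volume :=
    hI.integrable_indicator measurableSet_Icc
  refine ⟨?_, hI2.restrict⟩
  unfold lam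
  have hne : ∀ᵐ a ∂(volume : Measure ℝ), a ≠ y := by
    rw [ae_iff]; simp
  have hnn : 0 ≤ᵐ[volume] fun a => (Icc (y-ε) (y+ε)).indicator (fun a => Real.log ε - Real.log (a - y)) a := by
    filter_upwards [hne] with a hay
    show (0:ℝ) ≤ (Icc (y-ε) (y+ε)).indicator (fun a => Real.log ε - Real.log (a - y)) a
    by_cases ha : a ∈ Icc (y-ε) (y+ε)
    · rw [indicator_of_mem ha]
      have h0 : 0 < |a - y| := abs_pos.2 (sub_ne_zero.2 hay)
      have h1 : |a - y| ≤ ε := by rw [abs_le]; constructor <;> linarith [ha.1, ha.2]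
      have h2 := Real.log_le_log h0 h1
      rw [Real.log_abs] at h2
      linarith
    · rw [indicator_of_notMem ha]
  refine (setIntegral_le_integral hI2 hnn).trans ?_
  rw [integral_indicator measurableSet_Icc, integral_Icc_eq_integral_Ioc, ← intervalIntegral.integral_of_le hle, hval]

/-- the constant in the upper bound -/
def cmol (M R : ℝ) : ℝ := 2 * M + Real.log (2 * R + 2)

lemma cmol_nonneg (h : Mol ρ M R) : 0 ≤ cmol M R := by
  have h1 := h.hR
  have h2 := h.M0
  unfold cmol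
  have := Real.log_nonneg (show (1:ℝ) ≤ 2 * R + 2 by linarith)
  linarith

lemma mk_log_upper (h : Mol ρ M R) (hε : 0 < ε) {x : ℝ} (hx : x ∈ Icc (R*ε) (1 - R*ε)) {y : ℝ} (hxy : x ≠ y) (hxy1 : |x - y| ≤ 1) :
    ∫ a, mk ρ R ε x a * lg (a - y) ∂lam ≤ lg (x - y) + cmol M R := by
  have hK := mk_Ker h hε
  have hR := h.hR
  have hM := h.M0
  have hone := mk_int_one h hε hx
  have hI := hK.bddI x (lg_int' y)
  have hpos : 0 < |x - y| := abs_pos.2 (sub_ne_zero.2 hxy)
  have hlog2 : 0 ≤ Real.log (2*R+2) := Real.log_nonneg (by linarith)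
  unfold cmol
  rcases le_or_gt (2*R*ε) |x - y| with hc | hc
  · have hle : ∀ a, mk ρ R ε x a * lg (a - y) ≤ mk ρ R ε x a * (lg (x - y) + Real.log 2) := by
      intro a
      by_cases ha : R * ε < |x - a|
      · rw [mk_supp h hε ha]; simp
      · rw [not_lt] at ha
        apply mul_le_mul_of_nonneg_left _ (hK.nonneg x a)
        have h1 : |x - y| / 2 ≤ |a - y| := by
          have h2 : |x - y| ≤ |x - a| + |a - y| := abs_sub_le x a y
          linarith
        have h3 := Real.log_le_log (by positivity) h1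
        rw [Real.log_div hpos.ne' (by norm_num), Real.log_abs, Real.log_abs] at h3
        rw [lg_eq, lg_eq]; linarith
    have h4 := integral_mono hI ((hK.int x).mul_const _) hle
    rw [integral_mul_const, hone, one_mul] at h4
    have h5 : Real.log 2 ≤ Real.log (2*R+2) := Real.log_le_log (by norm_num) (by linarith)
    linarith
  · obtain ⟨hb1, hb2⟩ := log_box (y := y) hε
    have hle : ∀ᵐ a ∂lam, mk ρ R ε x a * lg (a - y) ≤ mk ρ R ε x a * (-Real.log ε) +
        (ε⁻¹ * M) * (Icc (y-ε) (y+ε)).indicator (fun a => Real.log ε - Real.log (a - y)) a := by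
      have hne : ∀ᵐ a ∂lam, a - y ≠ 0 := by
        filter_upwards [lam_ne y] with a ha
        intro h0; apply ha; linarith
      filter_upwards [hne] with a hay
      have h0 : 0 < |a - y| := abs_pos.2 hay
      by_cases ha : a ∈ Icc (y-ε) (y+ε)
      · rw [indicator_of_mem ha]
        have h1 : |a - y| ≤ ε := by rw [abs_le]; constructor <;> linarith [ha.1, ha.2]
        have h2 := Real.log_le_log h0 h1
        rw [Real.log_abs] at h2
        have h3 := mul_le_mul_of_nonneg_right (hK.le x a) (show 0 ≤ Real.log ε - Real.log (a - y) by linarith)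
        rw [lg_eq]
        nlinarith
      · rw [indicator_of_notMem ha, mul_zero, add_zero]
        apply mul_le_mul_of_nonneg_left _ (hK.nonneg x a)
        have h1 : ε ≤ |a - y| := by
          rw [mem_Icc, not_and_or, not_le, not_le] at ha
          rcases ha with ha | ha
          · rw [abs_sub_comm]; exact (by linarith : ε ≤ y - a).trans (le_abs_self _)
          · exact (by linarith : ε ≤ a - y).trans (le_abs_self _)
        have h2 := Real.log_le_log hε h1
        rw [Real.log_abs] at h2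
        rw [lg_eq]; linarith
    have h4 := integral_mono_ae hI (((hK.int x).mul_const _).add (hb2.const_mul (ε⁻¹ * M))) hle
    have e5 : ∫ a, (((fun a => mk ρ R ε x a * (-Real.log ε)) + fun a => (ε⁻¹ * M) * (Icc (y-ε) (y+ε)).indicator (fun a => Real.log ε - Real.log (a - y)) a) a) ∂lam =
        -Real.log ε + (ε⁻¹ * M) * ∫ a, (Icc (y-ε) (y+ε)).indicator (fun a => Real.log ε - Real.log (a - y)) a ∂lam := by
      rw [integral_add' ((hK.int x).mul_const _) (hb2.const_mul (ε⁻¹ * M)), integral_mul_const, hone, one_mul, integral_const_mul]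
    rw [e5] at h4
    have h6 : (ε⁻¹ * M) * ∫ a, (Icc (y-ε) (y+ε)).indicator (fun a => Real.log ε - Real.log (a - y)) a ∂lam ≤ 2 * M := by
      calc _ ≤ (ε⁻¹ * M) * (2 * ε) := by gcongr
        _ = 2 * M := by field_simp
    have h7 : -Real.log ε ≤ lg (x - y) + Real.log (2*R+2) := by
      have h8 : Real.log |x - y| ≤ Real.log ((2*R+2) * ε) := Real.log_le_log hpos (by nlinarith)
      rw [Real.log_mul (by positivity) hε.ne', Real.log_abs] at h8
      rw [lg_eq]; linarith
    linarith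

lemma avg (h : Mol ρ M R) (hε : 0 < ε) {x : ℝ} (hx : x ∈ Icc (R*ε) (1 - R*ε)) {g : ℝ → ℝ} (hg : Measurable g) {L η : ℝ} (hη : 0 ≤ η)
    (hgL : ∀ a ∈ Icc (0:ℝ) 1, |x - a| ≤ R * ε → |g a - L| ≤ η) : |(∫ a, mk ρ R ε x a * g a ∂lam) - L| ≤ η := by
  have hK := mk_Ker h hε
  have hone := mk_int_one h hε hx
  have hM := h.M0
  have hb : ∀ᵐ a ∂lam, |mk ρ R ε x a * (g a - L)| ≤ mk ρ R ε x a * η := by
    filter_upwards [lam_mem] with a ha
    rw [abs_mul, abs_of_nonneg (hK.nonneg x a)]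
    by_cases h1 : |x - a| ≤ R * ε
    · exact mul_le_mul_of_nonneg_left (hgL a ha h1) (hK.nonneg x a)
    · rw [mk_supp h hε (not_le.1 h1)]; simp
  have hI : Integrable (fun a => mk ρ R ε x a * (g a - L)) lam :=
    ((hK.int x).mul_const η).mono' ((hK.ms x).mul (hg.sub_const L)).aestronglyMeasurable hb
  have e : ∫ a, mk ρ R ε x a * g a ∂lam = (∫ a, mk ρ R ε x a * (g a - L) ∂lam) + L := by
    have e1 : ∀ a, mk ρ R ε x a * g a = mk ρ R ε x a * (g a - L) + mk ρ R ε x a * L := by intro a; ring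
    simp_rw [e1]
    rw [integral_add hI ((hK.int x).mul_const L), integral_mul_const, hone, one_mul]
  rw [e, add_sub_cancel_right]
  have h1 := norm_integral_le_of_norm_le (f := fun a => mk ρ R ε x a * (g a - L)) ((hK.int x).mul_const η) hb
  rw [integral_mul_const, hone, one_mul] at h1
  exact h1

end

/-- mollification scales -/
def ej (j : ℕ) : ℝ := 1 / ((j:ℝ) + 1)

lemma ej_pos (j : ℕ) : 0 < ej j := by unfold ej; positivity

lemma ej_tendsto : Tendsto ej atTop (𝓝 0) := tendsto_one_div_add_atTop_nhds_zero_nat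

lemma lg_near {τ0 : ℝ} (h0 : τ0 ≠ 0) {η : ℝ} (hη : 0 < η) : ∃ δ > 0, ∀ τ, |τ - τ0| ≤ δ → |lg τ - lg τ0| ≤ η ∧ |τ0|/2 ≤ |τ| := by
  have hc : ContinuousAt Real.log τ0 := Real.continuousAt_log h0
  rw [Metric.continuousAt_iff] at hc
  obtain ⟨δ, hδ, h1⟩ := hc η hη
  have hpos : 0 < |τ0| := abs_pos.2 h0
  refine ⟨min (δ/2) (|τ0|/2), by positivity, fun τ hτ => ⟨?_, ?_⟩⟩
  · have h2 := h1 (x := τ) (by rw [Real.dist_eq]; exact lt_of_le_of_lt (hτ.trans (min_le_left _ _)) (by linarith))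
    rw [Real.dist_eq] at h2
    rw [lg_eq, lg_eq, abs_sub_comm]
    have : -Real.log τ0 - -Real.log τ = Real.log τ - Real.log τ0 := by ring
    rw [this]; exact h2.le
  · have h2 : |τ0| ≤ |τ0 - τ| + |τ| := by
      calc |τ0| = |(τ0 - τ) + τ| := by ring_nf
        _ ≤ _ := abs_add_le _ _
    have h3 := hτ.trans (min_le_right _ _)
    rw [abs_sub_comm] at h3
    linarith

section
variable {ρ : ℝ → ℝ} {M R : ℝ}

lemma mem_ev (h : Mol ρ M R) {x : ℝ} (hx : x ∈ Ioo (0:ℝ) 1) : ∀ᶠ j in atTop, x ∈ Icc (R * ej j) (1 - R * ej j) := by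
  have h1 : Tendsto (fun j => R * ej j) atTop (𝓝 0) := by simpa using ej_tendsto.const_mul R
  have h2 : Tendsto (fun j => 1 - R * ej j) atTop (𝓝 1) := by simpa using h1.const_sub 1
  filter_upwards [h1.eventually (gt_mem_nhds hx.1), h2.eventually (lt_mem_nhds hx.2)] with j a b
  exact ⟨a.le, b.le⟩

lemma lim_L1 (h : Mol ρ M R) {x y : ℝ} (hx : x ∈ Ioo (0:ℝ) 1) (hy : y ∈ Ioo (0:ℝ) 1) (hxy : x ≠ y) :
    Tendsto (fun j => ∫ a, mk ρ R (ej j) x a * Cm j a y ∂lam) atTop (𝓝 (lg (x - y))) := by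
  rw [Metric.tendsto_nhds]
  intro η hη
  obtain ⟨δ, hδ, hn⟩ := lg_near (sub_ne_zero.2 hxy) (half_pos hη)
  have h1 : Tendsto (fun j => R * ej j) atTop (𝓝 0) := by simpa using ej_tendsto.const_mul R
  have h2 : Tendsto (fun k : ℕ => Real.exp (-((k:ℝ)-1))) atTop (𝓝 0) := by
    apply Real.tendsto_exp_neg_atTop_nhds_zero.comp
    exact tendsto_atTop_add_const_right _ (-1) tendsto_natCast_atTop_atTop
  have hpos : 0 < |x - y| := abs_pos.2 (sub_ne_zero.2 hxy)
  filter_upwards [mem_ev h hx, h1.eventually (gt_mem_nhds hδ), h2.eventually (gt_mem_nhds (half_pos hpos)), eventually_ne_atTop 0] with j a b c d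
  rw [Real.dist_eq]
  refine lt_of_le_of_lt (avg h (ej_pos j) a (Cm_cont_l j y).measurable (half_pos hη).le fun t ht htx => ?_) (half_lt_self hη)
  have hyI : y ∈ Icc (0:ℝ) 1 := ⟨hy.1.le, hy.2.le⟩
  have e1 : |(t - y) - (x - y)| ≤ δ := by
    have : (t - y) - (x - y) = -(x - t) := by ring
    rw [this, abs_neg]; linarith
  obtain ⟨g1, g2⟩ := hn _ e1
  have h3 := abs_sub_Icc ht hyI
  rw [Cm_eq h3, KK_eq_log d h3 (by linarith)]
  exact g1

lemma lim_L1' (h : Mol ρ M R) {x y : ℝ} (hx : x ∈ Ioo (0:ℝ) 1) (hy : y ∈ Ioo (0:ℝ) 1) (hxy : x ≠ y) :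
    Tendsto (fun j => ∫ a, mk ρ R (ej j) x a * Cm j y a ∂lam) atTop (𝓝 (lg (x - y))) := by
  refine (lim_L1 h hx hy hxy).congr fun j => ?_
  apply integral_congr_ae
  filter_upwards [lam_mem] with a ha
  have hyI : y ∈ Icc (0:ℝ) 1 := ⟨hy.1.le, hy.2.le⟩
  rw [Cm_eq (abs_sub_Icc ha hyI), Cm_eq (abs_sub_Icc hyI ha), ← KK_neg, neg_sub]

lemma inner_meas (h : Mol ρ M R) {ε : ℝ} (y : ℝ) : Measurable (fun a => ∫ b, mk ρ R ε y b * lg (a - b) ∂lam) := by
  have m1 : StronglyMeasurable (fun p : ℝ × ℝ => mk ρ R ε y p.2 * lg (p.1 - p.2)) :=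
    (((mk_meas h).comp (measurable_const.prodMk measurable_snd)).mul (lg_meas.comp (measurable_fst.sub measurable_snd))).stronglyMeasurable
  exact (StronglyMeasurable.integral_prod_right' (ν := lam) m1).measurable

lemma lim_L2 (h : Mol ρ M R) {x y : ℝ} (hx : x ∈ Ioo (0:ℝ) 1) (hy : y ∈ Ioo (0:ℝ) 1) (hxy : x ≠ y) :
    Tendsto (fun j => ∫ a, mk ρ R (ej j) x a * ∫ b, mk ρ R (ej j) y b * lg (a - b) ∂lam ∂lam) atTop (𝓝 (lg (x - y))) := by
  rw [Metric.tendsto_nhds]
  intro η hη
  obtain ⟨δ, hδ, hn⟩ := lg_near (sub_ne_zero.2 hxy) (half_pos hη)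
  have h1 : Tendsto (fun j => R * ej j) atTop (𝓝 0) := by simpa using ej_tendsto.const_mul R
  filter_upwards [mem_ev h hx, mem_ev h hy, h1.eventually (gt_mem_nhds (half_pos hδ))] with j a a' b
  rw [Real.dist_eq]
  refine lt_of_le_of_lt (avg h (ej_pos j) a (inner_meas h y) (half_pos hη).le fun t ht htx => ?_) (half_lt_self hη)
  apply avg h (ej_pos j) a' (lg_meas.comp (measurable_const.sub measurable_id)) (half_pos hη).le
  intro u hu huy
  have e1 : |(t - u) - (x - y)| ≤ δ := by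
    have : (t - u) - (x - y) = (y - u) - (x - t) := by ring
    rw [this]
    refine (abs_sub _ _).trans ?_
    linarith
  exact (hn _ e1).1

end

end

end Pool.Agent.H968
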