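import Mathlib
import Pool.Agent.H968.Br4

open MeasureTheory ProbabilityTheory Filter Topology Set
open scoped ENNReal NNReal

namespace Pool.Agent.H968

noncomputable section

/-- the limiting two point function -/
def ge (t : ℝ) : ℝ := Real.exp (lg t / 2)

lemma ge_pos (t : ℝ) : 0 < ge t := Real.exp_pos _

lemma ge_neg (t : ℝ) : ge (-t) = ge t := by unfold ge; rw [lg_neg]

lemma ge_meas : Measurable ge := Real.measurable_exp.comp (lg_meas.div_const 2)

lemma ge_ii : IntervalIntegrable ge volume (-1) 1 := by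
  have h1 : IntervalIntegrable ge volume 0 1 := by
    have h0 : IntervalIntegrable (fun t : ℝ => t ^ (-(1/2) : ℝ)) volume 0 1 := intervalIntegral.intervalIntegrable_rpow' (by norm_num)
    refine h0.congr ?_
    intro t ht
    rw [uIoc_of_le zero_le_one] at ht
    show t ^ (-(1/2) : ℝ) = ge t
    unfold ge
    rw [lg_eq, Real.rpow_def_of_pos ht.1]; congr 1; ring
  have h2 : IntervalIntegrable ge volume (-1) 0 := by
    rw [IntervalIntegrable.iff_comp_neg]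
    simp only [ge_neg, neg_neg, neg_zero]
    exact h1.symm
  exact h2.trans h1

lemma ge_int (x : ℝ) (hx : x ∈ Icc (0:ℝ) 1) : Integrable (fun y => ge (x - y)) lam ∧ ∫ y, ge (x - y) ∂lam ≤ ∫ t in (-1:ℝ)..1, ge t := by
  have h1 : IntervalIntegrable ge volume x (x - 1) := by
    apply ge_ii.mono_set
    rw [uIcc_of_ge (by linarith), uIcc_of_le (by norm_num)]
    exact Icc_subset_Icc (by linarith [hx.1]) (by linarith [hx.2])
  have h2 := h1.comp_sub_left x
  simp only [sub_self, sub_sub_cancel] at h2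
  rw [intervalIntegrable_iff_integrableOn_Icc_of_le zero_le_one] at h2
  refine ⟨h2, ?_⟩
  rw [lam_integral, intervalIntegral.integral_comp_sub_left (fun t => ge t) x, sub_zero]
  apply intervalIntegral.integral_mono_interval (by linarith [hx.1]) (by linarith) (by linarith [hx.2])
  · exact Eventually.of_forall fun t => (ge_pos t).le
  · exact ge_ii

lemma ge_prod : Integrable (fun p : ℝ × ℝ => ge (p.1 - p.2)) (lam.prod lam) := by
  have hm : Measurable (fun p : ℝ × ℝ => ge (p.1 - p.2)) := ge_meas.comp (measurable_fst.sub measurable_snd)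
  rw [integrable_prod_iff hm.aestronglyMeasurable]
  constructor
  · filter_upwards [lam_mem] with x hx using (ge_int x hx).1
  · have m1 : StronglyMeasurable (fun p : ℝ × ℝ => ‖ge (p.1 - p.2)‖) := hm.norm.stronglyMeasurable
    refine Integrable.of_bound (StronglyMeasurable.integral_prod_right' (ν := lam) m1).aestronglyMeasurable (∫ t in (-1:ℝ)..1, ge t) ?_
    filter_upwards [lam_mem] with x hx
    have e : ∀ y, ‖ge (x - y)‖ = ge (x - y) := fun y => abs_of_pos (ge_pos _)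
    simp only [e]
    rw [Real.norm_eq_abs, abs_of_nonneg (integral_nonneg fun y => (ge_pos _).le)]
    exact (ge_int x hx).2

lemma lam2_good : ∀ᵐ p ∂(lam.prod lam), p.1 ∈ Ioo (0:ℝ) 1 ∧ p.2 ∈ Ioo (0:ℝ) 1 ∧ p.1 ≠ p.2 := by
  have hI : ∀ᵐ x ∂lam, x ∈ Ioo (0:ℝ) 1 := by
    have h0 : ∀ᵐ x ∂(volume : Measure ℝ), x ≠ 0 := by rw [ae_iff]; simp
    have h1 : ∀ᵐ x ∂(volume : Measure ℝ), x ≠ 1 := by rw [ae_iff]; simp
    filter_upwards [lam_mem, ae_restrict_of_ae (s := Icc (0:ℝ) 1) h0, ae_restrict_of_ae (s := Icc (0:ℝ) 1) h1] with x hx a b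
    exact ⟨lt_of_le_of_ne hx.1 a.symm, lt_of_le_of_ne hx.2 b⟩
  have h1 : ∀ᵐ p ∂(lam.prod lam), p.1 ∈ Ioo (0:ℝ) 1 := Measure.quasiMeasurePreserving_fst.ae hI
  have h2 : ∀ᵐ p ∂(lam.prod lam), p.2 ∈ Ioo (0:ℝ) 1 := Measure.quasiMeasurePreserving_snd.ae hI
  have h3 : ∀ᵐ p ∂(lam.prod lam), p.1 ≠ p.2 := by
    have hs : MeasurableSet {p : ℝ × ℝ | p.1 ≠ p.2} := (measurableSet_eq_fun measurable_fst measurable_snd).compl
    rw [Measure.ae_prod_iff_ae_ae hs]
    refine Eventually.of_forall fun x => ?_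
    filter_upwards [lam_ne x] with y hy
    exact sub_ne_zero.1 hy
  filter_upwards [h1, h2, h3] with p a b c using ⟨a, b, c⟩

section
variable {κ : ℝ → ℝ → ℝ} {v : ℕ}

lemma CW_ff (x y : ℝ) : CW κ v (false, x) (false, y) = ∫ a, κ x a * ∫ b, κ y b * lg (a - b) ∂lam ∂lam := by
  unfold CW dt kt; simp

lemma CW_ft (x y : ℝ) : CW κ v (false, x) (true, y) = ∫ a, κ x a * Cm v a y ∂lam := by
  unfold CW dt kt; simp

lemma CW_tf (x y : ℝ) : CW κ v (true, x) (false, y) = ∫ b, κ y b * Cm v x b ∂lam := by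
  unfold CW dt kt; simp

lemma CW_tt (x y : ℝ) : CW κ v (true, x) (true, y) = Cm v x y := by
  unfold CW dt kt; simp

end

section
variable {ρ : ℝ → ℝ} {M R : ℝ}

lemma up_ft (h : Mol ρ M R) {ε : ℝ} (hε : 0 < ε) (v : ℕ) {x y : ℝ} (hx : x ∈ Icc (R*ε) (1 - R*ε)) (hy : y ∈ Icc (0:ℝ) 1) (hx1 : x ∈ Icc (0:ℝ) 1)
    (hxy : x ≠ y) : ∫ a, mk ρ R ε x a * Cm v a y ∂lam ≤ lg (x - y) + cmol M R := by
  have hK := mk_Ker h hε
  refine le_trans ?_ (mk_log_upper h hε hx hxy (abs_sub_Icc hx1 hy))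
  apply integral_mono_ae
  · exact hK.bddI x (cont_int_lam (Cm_cont_l v y))
  · exact hK.bddI x (lg_int' y)
  · filter_upwards [lam_mem, lam_ne y] with a ha hne
    have h1 := abs_sub_Icc ha hy
    have hne' : a - y ≠ 0 := fun h0 => hne (by linarith)
    show mk ρ R ε x a * Cm v a y ≤ mk ρ R ε x a * lg (a - y)
    rw [Cm_eq h1]
    exact mul_le_mul_of_nonneg_left (KK_le_lg v hne' h1) (hK.nonneg x a)

lemma up_tf (h : Mol ρ M R) {ε : ℝ} (hε : 0 < ε) (v : ℕ) {x y : ℝ} (hx : x ∈ Icc (R*ε) (1 - R*ε)) (hy : y ∈ Icc (0:ℝ) 1) (hx1 : x ∈ Icc (0:ℝ) 1)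
    (hxy : x ≠ y) : ∫ a, mk ρ R ε x a * Cm v y a ∂lam ≤ lg (x - y) + cmol M R := by
  refine le_trans (le_of_eq ?_) (up_ft h hε v hx hy hx1 hxy)
  apply integral_congr_ae
  filter_upwards [lam_mem] with a ha
  rw [Cm_eq (abs_sub_Icc hy ha), Cm_eq (abs_sub_Icc ha hy), ← KK_neg, neg_sub]

lemma up_ff (h : Mol ρ M R) {ε : ℝ} (hε : 0 < ε) {x y : ℝ} (hx : x ∈ Icc (R*ε) (1 - R*ε)) (hy : y ∈ Icc (R*ε) (1 - R*ε)) (hx1 : x ∈ Icc (0:ℝ) 1)
    (hy1 : y ∈ Icc (0:ℝ) 1) (hxy : x ≠ y) : ∫ a, mk ρ R ε x a * ∫ b, mk ρ R ε y b * lg (a - b) ∂lam ∂lam ≤ lg (x - y) + 2 * cmol M R := by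
  have hK := mk_Ker h hε
  have hin : ∀ a ∈ Icc (0:ℝ) 1, y - a ≠ 0 → ∫ b, mk ρ R ε y b * lg (a - b) ∂lam ≤ lg (a - y) + cmol M R := by
    intro a ha hne
    have h1 := mk_log_upper h hε hy (sub_ne_zero.1 hne) (abs_sub_Icc hy1 ha)
    rw [lg_sub_comm a y]
    refine le_trans (le_of_eq ?_) h1
    congr 1; ext b; rw [lg_sub_comm]
  have h0 : ∀ a ∈ Icc (0:ℝ) 1, 0 ≤ ∫ b, mk ρ R ε y b * lg (a - b) ∂lam := by
    intro a ha
    apply integral_nonneg_of_ae
    filter_upwards [lam_mem] with b hb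
    exact mul_nonneg (hK.nonneg y b) (lg_nonneg (abs_sub_Icc ha hb))
  have hI : Integrable (fun a => mk ρ R ε x a * (lg (a - y) + cmol M R)) lam := hK.bddI x ((lg_int' y).add (integrable_const _))
  calc ∫ a, mk ρ R ε x a * ∫ b, mk ρ R ε y b * lg (a - b) ∂lam ∂lam ≤ ∫ a, mk ρ R ε x a * (lg (a - y) + cmol M R) ∂lam := by
        apply integral_mono_of_nonneg
        · filter_upwards [lam_mem] with a ha
          exact mul_nonneg (hK.nonneg x a) (h0 a ha)
        · exact hI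
        · filter_upwards [lam_mem, lam_ne y] with a ha hne
          exact mul_le_mul_of_nonneg_left (hin a ha hne) (hK.nonneg x a)
    _ = (∫ a, mk ρ R ε x a * lg (a - y) ∂lam) + cmol M R := by
        simp_rw [mul_add]
        rw [integral_add (hK.bddI x (lg_int' y)) ((hK.int x).mul_const _), integral_mul_const, mk_int_one h hε hx, one_mul]
    _ ≤ _ := by
        have := mk_log_upper h hε hx hxy (abs_sub_Icc hx1 hy1)
        linarith

/-- window -/
def fD (f : ℝ → ℝ) (R ε : ℝ) (x : ℝ) : ℝ := (Icc (R*ε) (1 - R*ε)).indicator f x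

lemma fD_abs {f : ℝ → ℝ} (hf1 : ∀ x, |f x| ≤ 1) (R ε x : ℝ) : |fD f R ε x| ≤ 1 := by
  unfold fD
  by_cases hx : x ∈ Icc (R*ε) (1 - R*ε)
  · rw [indicator_of_mem hx]; exact hf1 x
  · rw [indicator_of_notMem hx]; simp

lemma fD_meas {f : ℝ → ℝ} (hf : Measurable f) (R ε : ℝ) : Measurable (fD f R ε) := hf.indicator measurableSet_Icc

/-- dominating function -/
def bd (M R : ℝ) (p : ℝ × ℝ) : ℝ := Real.exp (cmol M R) * ge (p.1 - p.2)

lemma bd_int (M R : ℝ) : Integrable (bd M R) (lam.prod lam) := ge_prod.const_mul _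

lemma dom (h : Mol ρ M R) {ε : ℝ} (hε : 0 < ε) (v : ℕ) {f : ℝ → ℝ} (hf1 : ∀ x, |f x| ≤ 1) :
    ∀ᵐ p ∂(lam.prod lam),
      |fD f R ε p.1 * fD f R ε p.2| * tp (CW (mk ρ R ε) v) (false, p.1) (false, p.2) ≤ bd M R p ∧
      |fD f R ε p.1 * f p.2| * tp (CW (mk ρ R ε) v) (false, p.1) (true, p.2) ≤ bd M R p ∧
      |f p.1 * fD f R ε p.2| * tp (CW (mk ρ R ε) v) (true, p.1) (false, p.2) ≤ bd M R p ∧
      |f p.1 * f p.2| * tp (CW (mk ρ R ε) v) (true, p.1) (true, p.2) ≤ bd M R p := by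
  have hc := cmol_nonneg h
  filter_upwards [lam2_good] with p hp
  obtain ⟨hx, hy, hxy⟩ := hp
  have hx1 : p.1 ∈ Icc (0:ℝ) 1 := ⟨hx.1.le, hx.2.le⟩
  have hy1 : p.2 ∈ Icc (0:ℝ) 1 := ⟨hy.1.le, hy.2.le⟩
  have hb0 : 0 ≤ bd M R p := mul_nonneg (Real.exp_pos _).le (ge_pos _).le
  have key : ∀ {A B t : ℝ}, |A| ≤ 1 → |B| ≤ 1 → t ≤ 2 * lg (p.1 - p.2) + 4 * cmol M R → |A * B| * Real.exp (t/4) ≤ bd M R p := by
    intro A B t hA hB ht
    have h1 : |A * B| ≤ 1 := by rw [abs_mul]; exact mul_le_one₀ hA (abs_nonneg _) hB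
    have h2 : Real.exp (t/4) ≤ bd M R p := by
      unfold bd ge
      rw [← Real.exp_add]
      apply Real.exp_le_exp.2; linarith
    calc |A * B| * Real.exp (t/4) ≤ 1 * bd M R p := by gcongr
      _ = _ := one_mul _
  refine ⟨?_, ?_, ?_, ?_⟩
  · by_cases hD1 : p.1 ∈ Icc (R*ε) (1 - R*ε)
    · by_cases hD2 : p.2 ∈ Icc (R*ε) (1 - R*ε)
      · apply key (fD_abs hf1 _ _ _) (fD_abs hf1 _ _ _)
        rw [CW_ff, CW_ff]
        have h1 := up_ff h hε hD1 hD2 hx1 hy1 hxy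
        have h2 := up_ff h hε hD2 hD1 hy1 hx1 hxy.symm
        rw [lg_sub_comm p.2 p.1] at h2
        linarith
      · have : fD f R ε p.2 = 0 := indicator_of_notMem hD2 _
        rw [this, mul_zero, abs_zero, zero_mul]; exact hb0
    · have : fD f R ε p.1 = 0 := indicator_of_notMem hD1 _
      rw [this, zero_mul, abs_zero, zero_mul]; exact hb0
  · by_cases hD1 : p.1 ∈ Icc (R*ε) (1 - R*ε)
    · apply key (fD_abs hf1 _ _ _) (hf1 _)
      rw [CW_ft, CW_tf]
      have h1 := up_ft h hε v hD1 hy1 hx1 hxy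
      have h2 := up_tf h hε v hD1 hy1 hx1 hxy
      linarith
    · have : fD f R ε p.1 = 0 := indicator_of_notMem hD1 _
      rw [this, zero_mul, abs_zero, zero_mul]; exact hb0
  · by_cases hD2 : p.2 ∈ Icc (R*ε) (1 - R*ε)
    · apply key (hf1 _) (fD_abs hf1 _ _ _)
      rw [CW_ft, CW_tf]
      have h1 := up_ft h hε v hD2 hx1 hy1 hxy.symm
      have h2 := up_tf h hε v hD2 hx1 hy1 hxy.symm
      rw [lg_sub_comm p.2 p.1] at h1 h2
      linarith
    · have : fD f R ε p.2 = 0 := indicator_of_notMem hD2 _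
      rw [this, mul_zero, abs_zero, zero_mul]; exact hb0
  · apply key (hf1 _) (hf1 _)
    have hle := abs_sub_Icc hx1 hy1
    have hle' := abs_sub_Icc hy1 hx1
    rw [CW_tt, CW_tt, Cm_eq hle, Cm_eq hle', ← KK_neg v (p.2 - p.1), neg_sub]
    have := KK_le_lg v (sub_ne_zero.2 hxy) hle
    linarith

/-- joint process at scale `j` -/
def WW' (h : Mol ρ M R) (j : ℕ) : Bool × ℝ → Om → ℝ := (exists_W (mk_Ker h (ej_pos j)) j).choose

lemma WW'_meas (h : Mol ρ M R) (j : ℕ) : Measurable (Function.uncurry (WW' h j)) := (exists_W (mk_Ker h (ej_pos j)) j).choose_spec.1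

lemma WW'_GP (h : Mol ρ M R) (j : ℕ) : GP PP (WW' h j) (CW (mk ρ R (ej j)) j) := (exists_W (mk_Ker h (ej_pos j)) j).choose_spec.2

lemma fD_ev (f : ℝ → ℝ) (h : Mol ρ M R) {x : ℝ} (hx : x ∈ Ioo (0:ℝ) 1) : ∀ᶠ j in atTop, fD f R (ej j) x = f x := by
  filter_upwards [mem_ev h hx] with j hj
  exact indicator_of_mem hj _

lemma KD_tendsto (h : Mol ρ M R) {f : ℝ → ℝ} (hf : Measurable f) (hf1 : ∀ x, |f x| ≤ 1)
    (hm : ∀ j, AEStronglyMeasurable (KD (CW (mk ρ R (ej j)) j) (fD f R (ej j)) f (fun x => (false, x)) (fun x => (true, x))) (lam.prod lam)) :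
    Tendsto (fun j => ∫ p, KD (CW (mk ρ R (ej j)) j) (fD f R (ej j)) f (fun x => (false, x)) (fun x => (true, x)) p ∂(lam.prod lam)) atTop (𝓝 0) := by
  have h0 : (0:ℝ) = ∫ p : ℝ × ℝ, (0:ℝ) ∂(lam.prod lam) := by simp
  rw [h0]
  apply tendsto_integral_of_dominated_convergence (fun p => 4 * bd M R p) hm ((bd_int M R).const_mul 4)
  · intro j
    filter_upwards [dom h (ej_pos j) j hf1] with p hp
    obtain ⟨a1, a2, a3, a4⟩ := hp
    rw [Real.norm_eq_abs]
    unfold KD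
    have e : ∀ A B : ℝ, ∀ s t : Bool × ℝ, |A * B * tp (CW (mk ρ R (ej j)) j) s t| = |A * B| * tp (CW (mk ρ R (ej j)) j) s t := fun A B s t => by
      rw [abs_mul, abs_of_pos (tp_pos s t)]
    refine (abs_add_le _ _).trans ?_
    have b1 := (abs_sub (fD f R (ej j) p.1 * fD f R (ej j) p.2 * tp (CW (mk ρ R (ej j)) j) (false, p.1) (false, p.2) - fD f R (ej j) p.1 * f p.2 * tp (CW (mk ρ R (ej j)) j) (false, p.1) (true, p.2))
      (f p.1 * fD f R (ej j) p.2 * tp (CW (mk ρ R (ej j)) j) (true, p.1) (false, p.2)))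
    have b2 := (abs_sub (fD f R (ej j) p.1 * fD f R (ej j) p.2 * tp (CW (mk ρ R (ej j)) j) (false, p.1) (false, p.2)) (fD f R (ej j) p.1 * f p.2 * tp (CW (mk ρ R (ej j)) j) (false, p.1) (true, p.2)))
    rw [e, e] at b2
    rw [e] at b1
    rw [e]
    linarith
  · filter_upwards [lam2_good] with p hp
    obtain ⟨hx, hy, hxy⟩ := hp
    have hc : Tendsto (fun t : ℝ => Real.exp (t/4)) (𝓝 (lg (p.1 - p.2) + lg (p.1 - p.2))) (𝓝 (Real.exp ((lg (p.1 - p.2) + lg (p.1 - p.2))/4))) :=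
      (Real.continuous_exp.comp (continuous_id.div_const 4)).tendsto _
    have hyx : lg (p.2 - p.1) = lg (p.1 - p.2) := lg_sub_comm _ _
    have hle := abs_sub_Icc (show p.1 ∈ Icc (0:ℝ) 1 from ⟨hx.1.le, hx.2.le⟩) (show p.2 ∈ Icc (0:ℝ) 1 from ⟨hy.1.le, hy.2.le⟩)
    have l11 : Tendsto (fun j => tp (CW (mk ρ R (ej j)) j) (false, p.1) (false, p.2)) atTop (𝓝 (Real.exp ((lg (p.1 - p.2) + lg (p.1 - p.2))/4))) := by
      unfold tp
      simp only [CW_ff]
      have := (lim_L2 h hx hy hxy).add (lim_L2 h hy hx hxy.symm)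
      rw [hyx] at this
      exact hc.comp this
    have l12 : Tendsto (fun j => tp (CW (mk ρ R (ej j)) j) (false, p.1) (true, p.2)) atTop (𝓝 (Real.exp ((lg (p.1 - p.2) + lg (p.1 - p.2))/4))) := by
      unfold tp
      simp only [CW_ft, CW_tf]
      exact hc.comp ((lim_L1 h hx hy hxy).add (lim_L1' h hx hy hxy))
    have l21 : Tendsto (fun j => tp (CW (mk ρ R (ej j)) j) (true, p.1) (false, p.2)) atTop (𝓝 (Real.exp ((lg (p.1 - p.2) + lg (p.1 - p.2))/4))) := by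
      unfold tp
      simp only [CW_ft, CW_tf]
      have := (lim_L1' h hy hx hxy.symm).add (lim_L1 h hy hx hxy.symm)
      rw [hyx] at this
      exact hc.comp this
    have l22 : Tendsto (fun j => tp (CW (mk ρ R (ej j)) j) (true, p.1) (true, p.2)) atTop (𝓝 (Real.exp ((lg (p.1 - p.2) + lg (p.1 - p.2))/4))) := by
      unfold tp
      simp only [CW_tt]
      have k1 : Tendsto (fun j => Cm j p.1 p.2) atTop (𝓝 (lg (p.1 - p.2))) := by
        simp_rw [Cm_eq hle]; exact KK_tendsto_lg (sub_ne_zero.2 hxy) hle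
      have k2 : Tendsto (fun j => Cm j p.2 p.1) atTop (𝓝 (lg (p.1 - p.2))) := by
        rw [← hyx]
        have hle' : |p.2 - p.1| ≤ 1 := by rw [abs_sub_comm]; exact hle
        simp_rw [Cm_eq hle']; exact KK_tendsto_lg (sub_ne_zero.2 hxy.symm) hle'
      exact hc.comp (k1.add k2)
    have hF : ∀ᶠ j in atTop, KD (CW (mk ρ R (ej j)) j) (fD f R (ej j)) f (fun x => (false, x)) (fun x => (true, x)) p =
        f p.1 * f p.2 * tp (CW (mk ρ R (ej j)) j) (false, p.1) (false, p.2) - f p.1 * f p.2 * tp (CW (mk ρ R (ej j)) j) (false, p.1) (true, p.2) -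
        f p.1 * f p.2 * tp (CW (mk ρ R (ej j)) j) (true, p.1) (false, p.2) + f p.1 * f p.2 * tp (CW (mk ρ R (ej j)) j) (true, p.1) (true, p.2) := by
      filter_upwards [fD_ev f h hx, fD_ev f h hy] with j a b
      unfold KD
      rw [a, b]
    have hlim := (((l11.const_mul (f p.1 * f p.2)).sub (l12.const_mul (f p.1 * f p.2))).sub (l21.const_mul (f p.1 * f p.2))).add (l22.const_mul (f p.1 * f p.2))
    rw [sub_self, zero_sub, neg_add_cancel] at hlim
    exact hlim.congr' (hF.mono fun j hj => hj.symm)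

end

end

end Pool.Agent.H968
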