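import Mathlib
import Pool.Agent.H968.Br5

open MeasureTheory ProbabilityTheory Filter Topology Set
open scoped ENNReal NNReal

namespace Pool.Agent.H968

noncomputable section

section
variable {Ω S : Type*} [MeasurableSpace Ω] {P : Measure Ω} [IsProbabilityMeasure P]
  {Y : S → Ω → ℝ} {C : S → S → ℝ}

omit [IsProbabilityMeasure P] in
lemma GP.comp (h : GP P Y C) {T : Type*} (g : T → S) : GP P (fun t => Y (g t)) (fun t t' => C (g t) (g t')) :=
  ⟨fun t => h.meas (g t), fun m s a => h.char m (g ∘ s) a⟩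

omit [IsProbabilityMeasure P] in
lemma GP.congr_cov (h : GP P Y C) {C' : S → S → ℝ} (hC : ∀ s t, C s t = C' s t) : GP P Y C' := by
  have : C = C' := by ext s t; exact hC s t
  rw [← this]; exact h

lemma psi_prod (h : GP P Y C) {s : ℝ → S} (hm : Measurable (fun q : ℝ × Ω => psi Y C (s q.1) q.2)) :
    Integrable (fun q : ℝ × Ω => psi Y C (s q.1) q.2) (lam.prod P) := by
  rw [integrable_prod_iff hm.aestronglyMeasurable]
  refine ⟨Eventually.of_forall fun x => (psi_one h (s x)).1, ?_⟩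
  have e : (fun x => ∫ ω, ‖psi Y C (s x) ω‖ ∂P) = fun _ => (1:ℝ) := by
    ext x
    rw [← (psi_one h (s x)).2]
    congr 1; ext ω
    rw [Real.norm_eq_abs, abs_of_pos (psi_pos _ _)]
  rw [e]
  exact integrable_const _

lemma psi_path (h : GP P Y C) {s : ℝ → S} (hm : Measurable (fun q : ℝ × Ω => psi Y C (s q.1) q.2)) :
    ∀ᵐ ω ∂P, Integrable (fun x => psi Y C (s x) ω) lam := (psi_prod h hm).prod_left_ae

lemma cexp_lip (x y : ℝ) : ‖cexp x - cexp y‖ ≤ |x - y| := by
  have h3 : cexp x - cexp y = cexp y * (cexp (x - y) - 1) := by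
    rw [mul_sub, ← cexp_add, mul_one, add_sub_cancel]
  rw [h3, norm_mul, cexp_norm, one_mul]; exact cexp_sub_one _

lemma cexp_int' {g : Ω → ℝ} (hg : AEMeasurable g P) : Integrable (fun ω => cexp (g ω)) P :=
  Integrable.of_bound (cexp_meas.comp_aemeasurable hg).aestronglyMeasurable 1 (Eventually.of_forall fun ω => by rw [cexp_norm])

/-- comparison of characteristic functions in mean square -/
lemma cexp_L2 {A B : Ω → ℝ} (hA : AEMeasurable A P) (hB : AEMeasurable B P) (θ : ℝ) (hI : Integrable (fun ω => (A ω - B ω)^2) P) :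
    ‖(∫ ω, cexp (θ * A ω) ∂P) - ∫ ω, cexp (θ * B ω) ∂P‖ ≤ |θ| * Real.sqrt (∫ ω, (A ω - B ω)^2 ∂P) := by
  have hI2 : MemLp (fun ω => A ω - B ω) 2 P := (memLp_two_iff_integrable_sq (hA.sub hB).aestronglyMeasurable).2 hI
  have hI1 : Integrable (fun ω => A ω - B ω) P := hI2.integrable one_le_two
  rw [← integral_sub (cexp_int' (hA.const_mul θ)) (cexp_int' (hB.const_mul θ))]
  have h1 : ‖∫ ω, (cexp (θ * A ω) - cexp (θ * B ω)) ∂P‖ ≤ ∫ ω, |θ| * |A ω - B ω| ∂P := by
    apply norm_integral_le_of_norm_le (hI1.abs.const_mul _)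
    refine Eventually.of_forall fun ω => ?_
    refine (cexp_lip _ _).trans ?_
    rw [← mul_sub, abs_mul]
  refine h1.trans ?_
  rw [integral_const_mul]
  apply mul_le_mul_of_nonneg_left _ (abs_nonneg _)
  apply Real.le_sqrt_of_sq_le
  have hv := ProbabilityTheory.variance_nonneg (fun ω => |A ω - B ω|) P
  have hI2' : MemLp (fun ω => |A ω - B ω|) 2 P := hI2.norm
  rw [variance_eq_sub hI2'] at hv
  have e : ∫ ω, ((fun ω => |A ω - B ω|)^2) ω ∂P = ∫ ω, (A ω - B ω)^2 ∂P := by
    congr 1; ext ω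
    simp only [Pi.pow_apply, sq_abs]
  rw [e] at hv
  linarith

end

section
variable {ρ : ℝ → ℝ} {M R : ℝ}

/-- the covariance of the mollified field -/
def Cε (ρ : ℝ → ℝ) (R ε : ℝ) (x y : ℝ) : ℝ := ∫ a, mk ρ R ε x a * ∫ b, mk ρ R ε y b * lg (a - b) ∂lam ∂lam

lemma W_diag_meas (h : Mol ρ M R) (j : ℕ) : Measurable (fun x => CW (mk ρ R (ej j)) j (false, x) (false, x)) := by
  simp_rw [CW_ff]
  have m0 : Measurable (fun q : (ℝ × ℝ) × ℝ => mk ρ R (ej j) q.1.1 q.2 * lg (q.1.2 - q.2)) :=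
    ((mk_meas h).comp ((measurable_fst.comp measurable_fst).prodMk measurable_snd)).mul
      (lg_meas.comp ((measurable_snd.comp measurable_fst).sub measurable_snd))
  have m1 : Measurable (fun q : ℝ × ℝ => ∫ b, mk ρ R (ej j) q.1 b * lg (q.2 - b) ∂lam) :=
    (StronglyMeasurable.integral_prod_right' (ν := lam) m0.stronglyMeasurable).measurable
  have m2 : Measurable (fun q : ℝ × ℝ => mk ρ R (ej j) q.1 q.2 * ∫ b, mk ρ R (ej j) q.1 b * lg (q.2 - b) ∂lam) :=
    (mk_meas h).mul m1
  exact (StronglyMeasurable.integral_prod_right' (ν := lam) m2.stronglyMeasurable).measurable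

lemma psiF_meas (h : Mol ρ M R) (j : ℕ) : Measurable (fun q : ℝ × Om => psi (WW' h j) (CW (mk ρ R (ej j)) j) (false, q.1) q.2) := by
  unfold psi
  have m1 : Measurable (fun q : ℝ × Om => WW' h j (false, q.1) q.2) :=
    (WW'_meas h j).comp ((measurable_const.prodMk measurable_fst).prodMk measurable_snd)
  exact Real.measurable_exp.comp ((m1.const_mul _).sub (((W_diag_meas h j).comp measurable_fst).div_const 4))

lemma psiT_meas (h : Mol ρ M R) (j : ℕ) : Measurable (fun q : ℝ × Om => psi (WW' h j) (CW (mk ρ R (ej j)) j) (true, q.1) q.2) := by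
  unfold psi
  have m1 : Measurable (fun q : ℝ × Om => WW' h j (true, q.1) q.2) :=
    (WW'_meas h j).comp ((measurable_const.prodMk measurable_fst).prodMk measurable_snd)
  have m2 : Measurable (fun q : ℝ × Om => CW (mk ρ R (ej j)) j (true, q.1) (true, q.1)) := by
    simp_rw [CW_tt]
    have : Continuous (fun x : ℝ => (x, x)) := by fun_prop
    exact ((Cm_cont j).measurable.comp this.measurable).comp measurable_fst
  exact Real.measurable_exp.comp ((m1.const_mul _).sub (m2.div_const 4))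

/-- mollified functional on the canonical space -/
def Aj (h : Mol ρ M R) (f : ℝ → ℝ) (j : ℕ) (ω : Om) : ℝ :=
  ∫ x, fD f R (ej j) x * psi (WW' h j) (CW (mk ρ R (ej j)) j) (false, x) ω ∂lam

/-- level functional on the canonical space -/
def Bj (h : Mol ρ M R) (f : ℝ → ℝ) (j : ℕ) (ω : Om) : ℝ :=
  ∫ x, f x * psi (WW' h j) (CW (mk ρ R (ej j)) j) (true, x) ω ∂lam

lemma Aj_meas (h : Mol ρ M R) {f : ℝ → ℝ} (hf : Measurable f) (j : ℕ) : Measurable (Aj h f j) :=
  int_param_meas (((fD_meas hf R (ej j)).comp measurable_fst).mul (psiF_meas h j))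

lemma Bj_meas (h : Mol ρ M R) {f : ℝ → ℝ} (hf : Measurable f) (j : ℕ) : Measurable (Bj h f j) :=
  int_param_meas ((hf.comp measurable_fst).mul (psiT_meas h j))

lemma Cm_meas2 {α : Type*} [MeasurableSpace α] (j : ℕ) {a b : α → ℝ} (ha : Measurable a) (hb : Measurable b) :
    Measurable (fun q => Cm j (a q) (b q)) := by
  have h2 := (Cm_cont j).measurable.comp (ha.prodMk hb)
  simp only [Function.comp_def] at h2
  exact h2

lemma KD_meas (h : Mol ρ M R) {f : ℝ → ℝ} (hf : Measurable f) (j : ℕ) :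
    Measurable (KD (CW (mk ρ R (ej j)) j) (fD f R (ej j)) f (fun x => (false, x)) (fun x => (true, x))) := by
  have mF := fD_meas hf R (ej j)
  have c11 : Measurable (fun p : ℝ × ℝ => CW (mk ρ R (ej j)) j (false, p.1) (false, p.2)) := by
    simp_rw [CW_ff]
    have m0 : Measurable (fun q : (ℝ × ℝ) × ℝ => mk ρ R (ej j) q.1.1 q.2 * lg (q.1.2 - q.2)) :=
      ((mk_meas h).comp ((measurable_fst.comp measurable_fst).prodMk measurable_snd)).mul
        (lg_meas.comp ((measurable_snd.comp measurable_fst).sub measurable_snd))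
    have m1 : Measurable (fun q : ℝ × ℝ => ∫ b, mk ρ R (ej j) q.1 b * lg (q.2 - b) ∂lam) :=
      (StronglyMeasurable.integral_prod_right' (ν := lam) m0.stronglyMeasurable).measurable
    have m2 : Measurable (fun q : (ℝ × ℝ) × ℝ => mk ρ R (ej j) q.1.1 q.2 * ∫ b, mk ρ R (ej j) q.1.2 b * lg (q.2 - b) ∂lam) :=
      ((mk_meas h).comp ((measurable_fst.comp measurable_fst).prodMk measurable_snd)).mul
        (m1.comp ((measurable_snd.comp measurable_fst).prodMk measurable_snd))
    exact (StronglyMeasurable.integral_prod_right' (ν := lam) m2.stronglyMeasurable).measurable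
  have c12 : Measurable (fun p : ℝ × ℝ => CW (mk ρ R (ej j)) j (false, p.1) (true, p.2)) := by
    simp_rw [CW_ft]
    have m2 : Measurable (fun q : (ℝ × ℝ) × ℝ => mk ρ R (ej j) q.1.1 q.2 * Cm j q.2 q.1.2) :=
      ((mk_meas h).comp ((measurable_fst.comp measurable_fst).prodMk measurable_snd)).mul
        (Cm_meas2 j measurable_snd (measurable_snd.comp measurable_fst))
    exact (StronglyMeasurable.integral_prod_right' (ν := lam) m2.stronglyMeasurable).measurable
  have c21 : Measurable (fun p : ℝ × ℝ => CW (mk ρ R (ej j)) j (true, p.1) (false, p.2)) := by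
    simp_rw [CW_tf]
    have m2 : Measurable (fun q : (ℝ × ℝ) × ℝ => mk ρ R (ej j) q.1.2 q.2 * Cm j q.1.1 q.2) :=
      ((mk_meas h).comp ((measurable_snd.comp measurable_fst).prodMk measurable_snd)).mul
        (Cm_meas2 j (measurable_fst.comp measurable_fst) measurable_snd)
    exact (StronglyMeasurable.integral_prod_right' (ν := lam) m2.stronglyMeasurable).measurable
  have c22 : Measurable (fun p : ℝ × ℝ => CW (mk ρ R (ej j)) j (true, p.1) (true, p.2)) := by
    simp_rw [CW_tt]; exact (Cm_cont j).measurable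
  have f1 : Measurable (fun p : ℝ × ℝ => fD f R (ej j) p.1) := mF.comp measurable_fst
  have f2 : Measurable (fun p : ℝ × ℝ => fD f R (ej j) p.2) := mF.comp measurable_snd
  have g1 : Measurable (fun p : ℝ × ℝ => f p.1) := hf.comp measurable_fst
  have g2 : Measurable (fun p : ℝ × ℝ => f p.2) := hf.comp measurable_snd
  have sw : ∀ {F : ℝ × ℝ → ℝ}, Measurable F → Measurable (fun p : ℝ × ℝ => F p.swap) := fun hF => hF.comp measurable_swap
  have t11 : Measurable (fun p : ℝ × ℝ => tp (CW (mk ρ R (ej j)) j) (false, p.1) (false, p.2)) :=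
    Real.measurable_exp.comp ((c11.add (sw c11)).div_const 4)
  have t12 : Measurable (fun p : ℝ × ℝ => tp (CW (mk ρ R (ej j)) j) (false, p.1) (true, p.2)) :=
    Real.measurable_exp.comp ((c12.add (sw c21)).div_const 4)
  have t21 : Measurable (fun p : ℝ × ℝ => tp (CW (mk ρ R (ej j)) j) (true, p.1) (false, p.2)) :=
    Real.measurable_exp.comp ((c21.add (sw c12)).div_const 4)
  have t22 : Measurable (fun p : ℝ × ℝ => tp (CW (mk ρ R (ej j)) j) (true, p.1) (true, p.2)) :=
    Real.measurable_exp.comp ((c22.add (sw c22)).div_const 4)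
  exact ((((f1.mul f2).mul t11).sub ((f1.mul g2).mul t12)).sub ((g1.mul f2).mul t21)).add ((g1.mul g2).mul t22)

lemma AB_L2 (h : Mol ρ M R) {f : ℝ → ℝ} (hf : Measurable f) (hf1 : ∀ x, |f x| ≤ 1) (j : ℕ) :
    Integrable (fun ω => (Aj h f j ω - Bj h f j ω)^2) PP ∧
    ∫ ω, (Aj h f j ω - Bj h f j ω)^2 ∂PP = ∫ p, KD (CW (mk ρ R (ej j)) j) (fD f R (ej j)) f (fun x => (false, x)) (fun x => (true, x)) p ∂(lam.prod lam) := by
  have hdom := dom h (ej_pos j) j hf1
  have hL := L2_formula (WW'_GP h j) (F1 := fD f R (ej j)) (F2 := f) (s1 := fun x => (false, x)) (s2' := fun x => (true, x))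
    (fD_meas hf R (ej j)) hf (psiF_meas h j) (psiT_meas h j) (bd_int M R) (hdom.mono fun p hp => hp.1) (hdom.mono fun p hp => hp.2.1)
    (hdom.mono fun p hp => hp.2.2.1) (hdom.mono fun p hp => hp.2.2.2)
  have hae : ∀ᵐ ω ∂PP, (∫ x, (fD f R (ej j) x * psi (WW' h j) (CW (mk ρ R (ej j)) j) (false, x) ω - f x * psi (WW' h j) (CW (mk ρ R (ej j)) j) (true, x) ω) ∂lam)^2 =
      (Aj h f j ω - Bj h f j ω)^2 := by
    filter_upwards [psi_path (WW'_GP h j) (psiF_meas h j), psi_path (WW'_GP h j) (psiT_meas h j)] with ω h1 h2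
    unfold Aj Bj
    rw [integral_sub]
    · exact h1.bdd_mul (c := 1) (fD_meas hf R (ej j)).aestronglyMeasurable (Eventually.of_forall fun x => fD_abs hf1 _ _ _)
    · exact h2.bdd_mul (c := 1) hf.aestronglyMeasurable (Eventually.of_forall fun x => hf1 x)
  exact ⟨hL.1.congr hae, by rw [← hL.2]; exact (integral_congr_ae hae).symm⟩

lemma BB_law (h : Mol ρ M R) {f : ℝ → ℝ} (hf : Measurable f) (hf1 : ∀ x, |f x| ≤ 1) (j : ℕ) (θ : ℝ) :
    ∫ ω, cexp (θ * Bj h f j ω) ∂PP = ∫ ω, cexp (θ * mm f j ω) ∂PP := by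
  have hG1 : GP PP (fun x : ℝ => WW' h j (true, x)) (Cm j) := by
    refine ((WW'_GP h j).comp (fun x : ℝ => (true, x))).congr_cov fun s t => CW_tt s t
  have hGm : Measurable (Function.uncurry fun (x y : ℝ) => θ * (f x * Real.exp (s2/2 * y - j/4))) := by
    have m1 : Measurable (fun p : ℝ × ℝ => f p.1) := hf.comp measurable_fst
    have m2 : Measurable (fun p : ℝ × ℝ => Real.exp (s2/2 * p.2 - j/4)) := by fun_prop
    exact (m1.mul m2).const_mul θ
  have hj : Measurable (Function.uncurry (fun x : ℝ => WW' h j (true, x))) :=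
    (WW'_meas h j).comp ((measurable_const.prodMk measurable_fst).prodMk measurable_snd)
  have hc : ∀ x, CW (mk ρ R (ej j)) j (true, x) (true, x) = j := by
    intro x; rw [CW_tt]; unfold Cm; simp [CK_diag]
  have hI1 : Integrable (Function.uncurry fun (x : ℝ) (ω : Om) => θ * (f x * Real.exp (s2/2 * WW' h j (true, x) ω - j/4))) (lam.prod PP) := by
    have h1 := psi_prod (WW'_GP h j) (psiT_meas h j)
    have h2 : Integrable (fun q : ℝ × Om => f q.1 * psi (WW' h j) (CW (mk ρ R (ej j)) j) (true, q.1) q.2) (lam.prod PP) :=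
      h1.bdd_mul (c := 1) (hf.comp measurable_fst).aestronglyMeasurable (Eventually.of_forall fun q => hf1 _)
    refine (h2.const_mul θ).congr (Eventually.of_forall fun q => ?_)
    simp only [psi, hc, Function.uncurry]
  have hI2 : Integrable (Function.uncurry fun (x : ℝ) (ω : Om) => θ * (f x * Real.exp (s2/2 * X j x ω - j/4))) (lam.prod PP) := by
    have hXm := Xm_GP j
    have hcx : ∀ x, Cm j x x = j := by intro x; unfold Cm; simp [CK_diag]
    have hm : Measurable (fun q : ℝ × Om => psi (X j) (Cm j) q.1 q.2) := by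
      unfold psi
      simp_rw [hcx]
      exact Real.measurable_exp.comp (((X_meas' j).const_mul _).sub_const _)
    have h1 := psi_prod hXm (s := fun x => x) hm
    have h2 : Integrable (fun q : ℝ × Om => f q.1 * psi (X j) (Cm j) q.1 q.2) (lam.prod PP) :=
      h1.bdd_mul (c := 1) (hf.comp measurable_fst).aestronglyMeasurable (Eventually.of_forall fun q => hf1 _)
    refine (h2.const_mul θ).congr (Eventually.of_forall fun q => ?_)
    simp only [psi, hcx, Function.uncurry]
  have hlaw := law_int hG1 (Xm_GP j) hj (X_meas j) lam (D := univ) (Eventually.of_forall fun _ => mem_univ _) (fun s _ t _ => rfl) hGm hI1 hI2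
  have e1 : ∀ ω, θ * Bj h f j ω = ∫ x, θ * (f x * Real.exp (s2/2 * WW' h j (true, x) ω - j/4)) ∂lam := by
    intro ω; unfold Bj; rw [integral_const_mul]; simp only [psi, hc]
  have e2 : ∀ ω, θ * mm f j ω = ∫ x, θ * (f x * Real.exp (s2/2 * X j x ω - j/4)) ∂lam := by
    intro ω; unfold mm; rw [integral_const_mul]; rfl
  simp_rw [e1, e2]
  exact hlaw

theorem can_close (h : Mol ρ M R) {f : ℝ → ℝ} (hf : Measurable f) (hf1 : ∀ x, |f x| ≤ 1) (θ : ℝ) :
    Tendsto (fun j => (∫ ω, cexp (θ * Aj h f j ω) ∂PP) - ∫ ω, cexp (θ * mm f j ω) ∂PP) atTop (𝓝 0) := by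
  rw [tendsto_zero_iff_norm_tendsto_zero]
  have h1 := KD_tendsto h hf hf1 (fun j => (KD_meas h hf j).aestronglyMeasurable)
  have h2 := ((Real.continuous_sqrt.tendsto 0).comp h1).const_mul |θ|
  rw [Real.sqrt_zero, mul_zero] at h2
  refine squeeze_zero (fun j => norm_nonneg _) (fun j => ?_) h2
  rw [← BB_law h hf hf1 j θ]
  have h3 := AB_L2 h hf hf1 j
  refine (cexp_L2 (Aj_meas h hf j).aemeasurable (Bj_meas h hf j).aemeasurable θ h3.1).trans (le_of_eq ?_)
  rw [h3.2]; rfl

end

end

end Pool.Agent.H968
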