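import Mathlib

open MeasureTheory ProbabilityTheory Filter Topology Set


namespace Pool.Agent.H968

/-- Smooth compactly supported real functions on the line. -/
def TestFn : Set (ℝ → ℝ) := {f | ContDiff ℝ (⊤ : ℕ∞) f ∧ HasCompactSupport f}

/-- `X` is a centred Gaussian random field, tested against smooth compactly supported functions,
whose covariance kernel on `[0,1]` is `log (1 / |x - y|)`.  Nothing is imposed on the covariance
outside the unit interval. -/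
structure IsLogField {Ω : Type*} [MeasurableSpace Ω] (P : Measure Ω) (X : (ℝ → ℝ) → Ω → ℝ) : Prop where
  gaussian : IsGaussianProcess (fun f : TestFn => X f) P
  centred : ∀ f ∈ TestFn, ∫ ω, X f ω ∂P = 0
  cov : ∀ f ∈ TestFn, ∀ g ∈ TestFn, (∀ x, x ∉ Icc (0:ℝ) 1 → f x = 0) → (∀ x, x ∉ Icc (0:ℝ) 1 → g x = 0) →
    ∫ ω, X f ω * X g ω ∂P = ∫ x, ∫ y, f x * g y * Real.log (1 / |x - y|)

/-- Standard mollifiers. -/
structure IsMollifier (ρ : ℝ → ℝ) : Prop where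
  smooth : ContDiff ℝ (⊤ : ℕ∞) ρ
  compact : HasCompactSupport ρ
  nonneg : ∀ x, 0 ≤ ρ x
  mass : ∫ x, ρ x = 1

/-- The test function `a ↦ ε⁻¹ ρ ((x - a) / ε)`, so that `X (mollFn ρ ε x)` is the mollified field at `x`. -/
noncomputable def mollFn (ρ : ℝ → ℝ) (ε x : ℝ) : ℝ → ℝ := fun a => ε⁻¹ * ρ ((x - a) / ε)

/-- `μ` is the Gaussian multiplicative chaos of the field `X` on `[0,1]` with parameter `γ`:
`Xe ε x` is a jointly measurable version of the mollified field `X_ε(x)`, and the measures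
`exp (γ X_ε(x) - γ²/2 E[X_ε(x)²]) dx` on `[0,1]` converge weakly in probability to `μ` as `ε → 0+`
(this includes almost sure weak convergence). -/
structure IsChaos {Ω : Type*} [MeasurableSpace Ω] (P : Measure Ω) (γ : ℝ) (X : (ℝ → ℝ) → Ω → ℝ) (ρ : ℝ → ℝ)
    (Xe : ℝ → ℝ → Ω → ℝ) (μ : Ω → Measure ℝ) : Prop where
  meas : ∀ ε > 0, Measurable (Function.uncurry (Xe ε))
  moll : ∀ ε > 0, ∀ x ∈ Icc (0:ℝ) 1, Xe ε x =ᵐ[P] X (mollFn ρ ε x)
  fin : ∀ᵐ ω ∂P, IsFiniteMeasure (μ ω)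
  conv : ∀ f : ℝ → ℝ, Continuous f →
    TendstoInMeasure P
      (fun (ε : ℝ) ω => ∫ x in (0:ℝ)..1, f x * Real.exp (γ * Xe ε x ω - γ^2 / 2 * ∫ ω', (Xe ε x ω')^2 ∂P))
      (𝓝[>] 0) (fun ω => ∫ x in Icc (0:ℝ) 1, f x ∂(μ ω))

/-- The Fourier coefficients `c_n = ∫_{[0,1]} exp (-2 π i n x) μ(dx)`. -/
noncomputable def coef {Ω : Type*} (μ : Ω → Measure ℝ) (n : ℕ) (ω : Ω) : ℂ :=
  ∫ x in Icc (0:ℝ) 1, Complex.exp (-(2 * Real.pi * n * x) * Complex.I) ∂(μ ω)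

end Pool.Agent.H968
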