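import Mathlib
import Pool.Agent.H968.Br6
import Pool.Agent.H968.Def

open MeasureTheory ProbabilityTheory Filter Topology Set
open scoped ENNReal NNReal

namespace Pool.Agent.H968

noncomputable section

section
variable {Ω : Type*} [MeasurableSpace Ω] {P : Measure Ω} [IsProbabilityMeasure P]

lemma gauss_char {S : Ω → ℝ} (h : HasGaussianLaw S P) (h0 : ∫ ω, S ω ∂P = 0) :
    ∫ ω, Complex.exp ((S ω : ℂ) * Complex.I) ∂P = Complex.exp (-((∫ ω, (S ω)^2 ∂P : ℝ) : ℂ) / 2) := by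
  have hm := h.aemeasurable
  have h1 : charFun (P.map S) 1 = ∫ ω, Complex.exp ((S ω : ℂ) * Complex.I) ∂P := by
    rw [charFun_apply_real, integral_map hm (by fun_prop)]
    congr 1; ext ω; simp
  rw [← h1, h.map_eq_gaussianReal, charFun_gaussianReal]
  have hv : Var[S; P] = ∫ ω, (S ω)^2 ∂P := by
    rw [variance_eq_sub h.memLp_two, h0]
    simp
  have hv0 : 0 ≤ Var[S; P] := variance_nonneg _ _
  rw [Real.coe_toNNReal _ hv0, hv, h0]
  congr 1; push_cast; ring

lemma gauss_exp {S : Ω → ℝ} (h : HasGaussianLaw S P) (h0 : ∫ ω, S ω ∂P = 0) (γ : ℝ) :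
    Integrable (fun ω => Real.exp (γ * S ω - γ^2/2 * ∫ ω', (S ω')^2 ∂P)) P ∧
    ∫ ω, Real.exp (γ * S ω - γ^2/2 * ∫ ω', (S ω')^2 ∂P) ∂P = 1 := by
  have hm := h.aemeasurable
  have hv : Var[S; P] = ∫ ω, (S ω)^2 ∂P := by
    rw [variance_eq_sub h.memLp_two, h0]
    simp
  have hv0 : 0 ≤ Var[S; P] := variance_nonneg _ _
  have hmap := h.map_eq_gaussianReal
  have h1 := mgf_gaussianReal hmap γ
  unfold mgf at h1
  rw [Real.coe_toNNReal _ hv0, h0, hv] at h1
  have hI : Integrable (fun ω => Real.exp (γ * S ω)) P := by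
    have h2 := integrable_exp_mul_gaussianReal (μ := P[S]) (v := Var[S; P].toNNReal) γ
    rw [← hmap] at h2
    exact (integrable_map_measure (by fun_prop) hm).1 h2
  have e : ∀ ω, Real.exp (γ * S ω - γ^2/2 * ∫ ω', (S ω')^2 ∂P) = Real.exp (-(γ^2/2 * ∫ ω', (S ω')^2 ∂P)) * Real.exp (γ * S ω) := by
    intro ω; rw [← Real.exp_add]; congr 1; ring
  simp_rw [e]
  refine ⟨hI.const_mul _, ?_⟩
  rw [integral_const_mul, h1, ← Real.exp_add, Real.exp_eq_one_iff]
  ring

lemma mollFn_mem {ρ : ℝ → ℝ} (hρ : IsMollifier ρ) {ε : ℝ} (hε : 0 < ε) (x : ℝ) : mollFn ρ ε x ∈ TestFn := by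
  constructor
  · unfold mollFn
    apply ContDiff.mul contDiff_const
    apply hρ.smooth.comp
    fun_prop
  · unfold mollFn
    have h1 : HasCompactSupport (fun a => ρ ((x - a)/ε)) := by
      have e : (fun a => ρ ((x - a)/ε)) = ρ ∘ (fun a => (x - a)/ε) := rfl
      rw [e]
      obtain ⟨K, hK, hK2⟩ := (exists_compact_iff_hasCompactSupport (f := ρ)).2 hρ.compact
      apply HasCompactSupport.intro (K := (fun t => x - ε * t) '' K) (hK.image (by fun_prop))
      intro a ha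
      apply hK2
      intro h
      apply ha
      refine ⟨(x - a)/ε, h, ?_⟩
      field_simp
      ring
    exact h1.mul_left

/-- bounds for a standard mollifier -/
lemma exists_Mol {ρ : ℝ → ℝ} (hρ : IsMollifier ρ) : ∃ M R, Mol ρ M R := by
  obtain ⟨M, hM⟩ := hρ.compact.exists_bound_of_continuous hρ.smooth.continuous
  obtain ⟨R, hR⟩ := hρ.compact.isCompact.isBounded.subset_closedBall 0
  refine ⟨M, max R 1, ⟨hρ.smooth.continuous.measurable, hρ.nonneg, fun t => ?_, fun t ht => ?_, hρ.mass, ?_⟩⟩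
  · have := hM t
    rw [Real.norm_eq_abs] at this
    exact (le_abs_self _).trans this
  · by_contra h
    have h1 : t ∈ tsupport ρ := subset_tsupport ρ h
    have h2 := hR h1
    rw [Metric.mem_closedBall, dist_zero_right, Real.norm_eq_abs] at h2
    have := (le_max_left R 1)
    linarith
  · exact lt_of_lt_of_le one_pos (le_max_right _ _)

end

section
variable {Ω : Type*} [MeasurableSpace Ω] {P : Measure Ω} [IsProbabilityMeasure P] {X : (ℝ → ℝ) → Ω → ℝ} {ρ : ℝ → ℝ} {M R : ℝ}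

lemma IsLogField.law (hX : IsLogField P X) {f : ℝ → ℝ} (hf : f ∈ TestFn) : HasGaussianLaw (X f) P :=
  hX.gaussian.hasGaussianLaw_eval ⟨f, hf⟩

lemma IsLogField.lin (hX : IsLogField P X) {m : ℕ} (f : Fin m → ℝ → ℝ) (hf : ∀ i, f i ∈ TestFn) (b : Fin m → ℝ) :
    ∫ ω, Complex.exp (((∑ i, b i * X (f i) ω : ℝ) : ℂ) * Complex.I) ∂P =
      Complex.exp (-((∑ i, ∑ j, b i * b j * ∫ ω, X (f i) ω * X (f j) ω ∂P : ℝ) : ℂ) / 2) := by
  have h1 := ((hX.gaussian.comp_right (fun i : Fin m => (⟨f i, hf i⟩ : TestFn))).smul b).hasGaussianLaw_fun_sum (I := Finset.univ)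
  simp only [smul_eq_mul, Function.comp] at h1
  have hI : ∀ i, Integrable (X (f i)) P := fun i => (hX.law (hf i)).integrable
  have hI2 : ∀ i j, Integrable (fun ω => X (f i) ω * X (f j) ω) P := fun i j =>
    (hX.law (hf i)).memLp_two.integrable_mul (hX.law (hf j)).memLp_two
  have h0 : ∫ ω, ∑ i, b i * X (f i) ω ∂P = 0 := by
    rw [integral_finsetSum _ fun i _ => (hI i).const_mul _]
    apply Finset.sum_eq_zero; intro i _
    rw [integral_const_mul, hX.centred _ (hf i), mul_zero]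
  have h2 := gauss_char h1 h0
  rw [h2]
  congr 4
  have e : ∀ ω, (∑ i, b i * X (f i) ω)^2 = ∑ i, ∑ j, b i * b j * (X (f i) ω * X (f j) ω) := by
    intro ω
    rw [sq, Finset.sum_mul_sum]
    apply Finset.sum_congr rfl; intro i _
    apply Finset.sum_congr rfl; intro j _; ring
  simp_rw [e]
  rw [integral_finsetSum _ fun i _ => integrable_finsetSum _ fun j _ => (hI2 i j).const_mul _]
  apply Finset.sum_congr rfl; intro i _
  rw [integral_finsetSum _ fun j _ => (hI2 i j).const_mul _]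
  apply Finset.sum_congr rfl; intro j _
  rw [integral_const_mul]

/-- window version of the mollified field -/
def Yw (R ε : ℝ) (Xe : ℝ → ℝ → Ω → ℝ) (x : ℝ) (ω : Ω) : ℝ := (Icc (R*ε) (1 - R*ε)).indicator (fun x => Xe ε x ω) x

lemma supp_mollFn (h : Mol ρ M R) {ε : ℝ} (hε : 0 < ε) {x : ℝ} (hx : x ∈ Icc (R*ε) (1 - R*ε)) :
    ∀ a, a ∉ Icc (0:ℝ) 1 → mollFn ρ ε x a = 0 := by
  intro a ha
  have h0 := mul_pos h.hR hε
  have h1 : R * ε < |x - a| := by
    rw [mem_Icc, not_and_or, not_le, not_le] at ha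
    rcases ha with ha | ha
    · rw [abs_of_pos (by linarith [hx.1])]; linarith [hx.1]
    · rw [abs_sub_comm, abs_of_pos (by linarith [hx.2])]; linarith [hx.2]
  have := mk_supp h hε h1
  rw [mk_of_mem hx] at this
  exact this

lemma cov_eq (h : Mol ρ M R) {ε : ℝ} (hε : 0 < ε) {x y : ℝ} (hx : x ∈ Icc (R*ε) (1 - R*ε)) (hy : y ∈ Icc (R*ε) (1 - R*ε)) :
    ∫ a, ∫ b, mollFn ρ ε x a * mollFn ρ ε y b * Real.log (1 / |a - b|) = Cε ρ R ε x y := by
  unfold Cε
  simp_rw [mk_of_mem hx, mk_of_mem hy]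
  have e1 : ∀ a, ∫ b, mollFn ρ ε x a * mollFn ρ ε y b * Real.log (1 / |a - b|) = mollFn ρ ε x a * ∫ b, mollFn ρ ε y b * lg (a - b) ∂lam := by
    intro a
    have e2 : ∀ b, mollFn ρ ε x a * mollFn ρ ε y b * Real.log (1 / |a - b|) = mollFn ρ ε x a * (mollFn ρ ε y b * lg (a - b)) := by
      intro b; unfold lg; ring
    simp_rw [e2]
    rw [integral_const_mul]
    congr 1
    unfold lam
    symm
    apply setIntegral_eq_integral_of_forall_compl_eq_zero
    intro b hb
    rw [supp_mollFn h hε hy b hb, zero_mul]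
  simp_rw [e1]
  unfold lam
  symm
  apply setIntegral_eq_integral_of_forall_compl_eq_zero
  intro a ha
  have := supp_mollFn h hε hx a ha
  unfold mollFn at this
  rw [this, zero_mul]

lemma Cε_zero {ε : ℝ} {x y : ℝ} (hx : x ∉ Icc (R*ε) (1 - R*ε) ∨ y ∉ Icc (R*ε) (1 - R*ε)) : Cε ρ R ε x y = 0 := by
  unfold Cε
  rcases hx with hx | hx
  · simp_rw [mk_of_notMem hx]; simp
  · simp_rw [mk_of_notMem hx]; simp

lemma field_GP (hX : IsLogField P X) (hρ : IsMollifier ρ) (h : Mol ρ M R) {ε : ℝ} (hε : 0 < ε) {Xe : ℝ → ℝ → Ω → ℝ}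
    (hm : Measurable (Function.uncurry (Xe ε))) (hXe : ∀ x ∈ Icc (0:ℝ) 1, Xe ε x =ᵐ[P] X (mollFn ρ ε x)) :
    GP P (Yw R ε Xe) (Cε ρ R ε) := by
  classical
  have hsub : ∀ x ∈ Icc (R*ε) (1 - R*ε), x ∈ Icc (0:ℝ) 1 := fun x hx => by
    have h0 := mul_pos h.hR hε
    exact ⟨by linarith [hx.1], by linarith [hx.2]⟩
  constructor
  · intro x
    unfold Yw
    by_cases hx : x ∈ Icc (R*ε) (1 - R*ε)
    · simp only [indicator_of_mem hx]
      exact hm.comp (measurable_const.prodMk measurable_id)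
    · simp only [indicator_of_notMem hx]
      exact measurable_const
  · intro m s a
    set b : Fin m → ℝ := fun i => if s i ∈ Icc (R*ε) (1 - R*ε) then a i else 0 with hb
    have hae : ∀ᵐ ω ∂P, ∀ i, a i * Yw R ε Xe (s i) ω = b i * X (mollFn ρ ε (s i)) ω := by
      rw [ae_all_iff]
      intro i
      by_cases hx : s i ∈ Icc (R*ε) (1 - R*ε)
      · filter_upwards [hXe (s i) (hsub _ hx)] with ω hω
        simp only [hb, Yw, if_pos hx, indicator_of_mem hx, hω]
      · refine Eventually.of_forall fun ω => ?_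
        simp only [hb, Yw, if_neg hx, indicator_of_notMem hx, mul_zero, zero_mul]
    have e1 : ∫ ω, Complex.exp (((∑ i, a i * Yw R ε Xe (s i) ω : ℝ) : ℂ) * Complex.I) ∂P =
        ∫ ω, Complex.exp (((∑ i, b i * X (mollFn ρ ε (s i)) ω : ℝ) : ℂ) * Complex.I) ∂P := by
      apply integral_congr_ae
      filter_upwards [hae] with ω hω
      simp only [hω]
    rw [e1, hX.lin (fun i => mollFn ρ ε (s i)) (fun i => mollFn_mem hρ hε _) b]
    congr 4
    apply Finset.sum_congr rfl; intro i _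
    apply Finset.sum_congr rfl; intro j _
    by_cases hi : s i ∈ Icc (R*ε) (1 - R*ε)
    · by_cases hj : s j ∈ Icc (R*ε) (1 - R*ε)
      · simp only [hb, if_pos hi, if_pos hj]
        rw [hX.cov _ (mollFn_mem hρ hε _) _ (mollFn_mem hρ hε _) (supp_mollFn h hε hi) (supp_mollFn h hε hj), cov_eq h hε hi hj]
      · rw [Cε_zero (Or.inr hj)]; simp only [hb, if_neg hj]; ring
    · rw [Cε_zero (Or.inl hi)]; simp only [hb, if_neg hi]; ring

end

end

end Pool.Agent.H968
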