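import Mathlib
import Pool.Agent.H968.Br7

open MeasureTheory ProbabilityTheory Filter Topology Set
open scoped ENNReal NNReal

namespace Pool.Agent.H968

noncomputable section

lemma gam_eq : (1 / Real.sqrt 2 : ℝ) = s2/2 := by
  unfold s2
  have h := Real.mul_self_sqrt (show (0:ℝ) ≤ 2 by norm_num)
  have h0 : Real.sqrt 2 ≠ 0 := by positivity
  field_simp
  nlinarith

section
variable {Ω : Type*} [MeasurableSpace Ω] {P : Measure Ω} [IsProbabilityMeasure P] {X : (ℝ → ℝ) → Ω → ℝ} {ρ : ℝ → ℝ} {M R : ℝ}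

/-- density of the approximating measures -/
def Ed (P : Measure Ω) (Xe : ℝ → ℝ → Ω → ℝ) (ε x : ℝ) (ω : Ω) : ℝ :=
  Real.exp (s2/2 * Xe ε x ω - (s2/2)^2 / 2 * ∫ ω', (Xe ε x ω')^2 ∂P)

lemma Ed_meas {Xe : ℝ → ℝ → Ω → ℝ} {ε : ℝ} (hm : Measurable (Function.uncurry (Xe ε))) : Measurable (Function.uncurry (Ed P Xe ε)) := by
  unfold Ed
  have m1 : Measurable (fun q : ℝ × Ω => Xe ε q.1 q.2) := hm
  have m2 : StronglyMeasurable (fun q : ℝ × Ω => (Xe ε q.1 q.2)^2) := (m1.pow_const 2).stronglyMeasurable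
  have m3 : Measurable (fun x : ℝ => ∫ ω', (Xe ε x ω')^2 ∂P) := (StronglyMeasurable.integral_prod_right' (ν := P) m2).measurable
  exact Real.measurable_exp.comp ((m1.const_mul _).sub ((m3.comp measurable_fst).const_mul _))

lemma Ed_one (hX : IsLogField P X) (hρ : IsMollifier ρ) {ε : ℝ} (hε : 0 < ε) {Xe : ℝ → ℝ → Ω → ℝ}
    (hXe : ∀ x ∈ Icc (0:ℝ) 1, Xe ε x =ᵐ[P] X (mollFn ρ ε x)) {x : ℝ} (hx : x ∈ Icc (0:ℝ) 1) :
    Integrable (Ed P Xe ε x) P ∧ ∫ ω, Ed P Xe ε x ω ∂P = 1 := by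
  have h1 : HasGaussianLaw (Xe ε x) P := (hX.law (mollFn_mem hρ hε x)).congr (hXe x hx).symm
  have h2 : ∫ ω, Xe ε x ω ∂P = 0 := by
    rw [integral_congr_ae (hXe x hx)]; exact hX.centred _ (mollFn_mem hρ hε x)
  exact gauss_exp h1 h2 (s2/2)

lemma var_diag (hX : IsLogField P X) (hρ : IsMollifier ρ) (h : Mol ρ M R) {ε : ℝ} (hε : 0 < ε) {Xe : ℝ → ℝ → Ω → ℝ}
    (hXe : ∀ x ∈ Icc (0:ℝ) 1, Xe ε x =ᵐ[P] X (mollFn ρ ε x)) {x : ℝ} (hx : x ∈ Icc (R*ε) (1 - R*ε)) (hx1 : x ∈ Icc (0:ℝ) 1) :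
    ∫ ω', (Xe ε x ω')^2 ∂P = Cε ρ R ε x x := by
  have e : ∫ ω', (Xe ε x ω')^2 ∂P = ∫ ω', X (mollFn ρ ε x) ω' * X (mollFn ρ ε x) ω' ∂P := by
    apply integral_congr_ae
    filter_upwards [hXe x hx1] with ω hω
    rw [hω, sq]
  rw [e, hX.cov _ (mollFn_mem hρ hε x) _ (mollFn_mem hρ hε x) (supp_mollFn h hε hx) (supp_mollFn h hε hx), cov_eq h hε hx hx]

/-- approximating functional -/
def Af (P : Measure Ω) (Xe : ℝ → ℝ → Ω → ℝ) (f : ℝ → ℝ) (ε : ℝ) (ω : Ω) : ℝ := ∫ x, f x * Ed P Xe ε x ω ∂lam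

/-- windowed approximating functional -/
def Ad (ρ : ℝ → ℝ) (R : ℝ) (Xe : ℝ → ℝ → Ω → ℝ) (f : ℝ → ℝ) (ε : ℝ) (ω : Ω) : ℝ :=
  ∫ x, fD f R ε x * psi (Yw R ε Xe) (Cε ρ R ε) x ω ∂lam

lemma Cdiag_meas (h : Mol ρ M R) {ε : ℝ} : Measurable (fun x => Cε ρ R ε x x) := by
  unfold Cε
  have m0 : Measurable (fun q : (ℝ × ℝ) × ℝ => mk ρ R ε q.1.1 q.2 * lg (q.1.2 - q.2)) :=
    ((mk_meas h).comp ((measurable_fst.comp measurable_fst).prodMk measurable_snd)).mul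
      (lg_meas.comp ((measurable_snd.comp measurable_fst).sub measurable_snd))
  have m1 : Measurable (fun q : ℝ × ℝ => ∫ b, mk ρ R ε q.1 b * lg (q.2 - b) ∂lam) :=
    (StronglyMeasurable.integral_prod_right' (ν := lam) m0.stronglyMeasurable).measurable
  have m2 : Measurable (fun q : ℝ × ℝ => mk ρ R ε q.1 q.2 * ∫ b, mk ρ R ε q.1 b * lg (q.2 - b) ∂lam) :=
    (mk_meas h).mul m1
  exact (StronglyMeasurable.integral_prod_right' (ν := lam) m2.stronglyMeasurable).measurable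

lemma Yw_meas {Xe : ℝ → ℝ → Ω → ℝ} {ε : ℝ} (hm : Measurable (Function.uncurry (Xe ε))) : Measurable (Function.uncurry (Yw R ε Xe)) := by
  have e : Function.uncurry (Yw R ε Xe) = ((Icc (R*ε) (1 - R*ε)) ×ˢ (univ : Set Ω)).indicator (Function.uncurry (Xe ε)) := by
    ext p
    unfold Function.uncurry Yw
    by_cases hx : p.1 ∈ Icc (R*ε) (1 - R*ε)
    · rw [indicator_of_mem hx, indicator_of_mem (by exact ⟨hx, mem_univ _⟩)]
    · rw [indicator_of_notMem hx, indicator_of_notMem (by intro h; exact hx h.1)]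
  rw [e]
  exact hm.indicator (measurableSet_Icc.prod MeasurableSet.univ)

lemma psiY_meas (h : Mol ρ M R) {Xe : ℝ → ℝ → Ω → ℝ} {ε : ℝ} (hm : Measurable (Function.uncurry (Xe ε))) :
    Measurable (fun q : ℝ × Ω => psi (Yw R ε Xe) (Cε ρ R ε) q.1 q.2) := by
  unfold psi
  have m1 : Measurable (fun q : ℝ × Ω => Yw R ε Xe q.1 q.2) := Yw_meas hm
  exact Real.measurable_exp.comp ((m1.const_mul _).sub (((Cdiag_meas h).comp measurable_fst).div_const 4))

lemma Ad_meas (h : Mol ρ M R) {Xe : ℝ → ℝ → Ω → ℝ} {ε : ℝ} (hm : Measurable (Function.uncurry (Xe ε))) {f : ℝ → ℝ} (hf : Measurable f) :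
    Measurable (Ad ρ R Xe f ε) := by
  have : StronglyMeasurable (fun p : Ω × ℝ => fD f R ε p.2 * psi (Yw R ε Xe) (Cε ρ R ε) p.2 p.1) :=
    (((fD_meas hf R ε).comp measurable_snd).mul ((psiY_meas h hm).comp measurable_swap)).stronglyMeasurable
  exact (StronglyMeasurable.integral_prod_right' (ν := lam) this).measurable

lemma Af_meas {Xe : ℝ → ℝ → Ω → ℝ} {ε : ℝ} (hm : Measurable (Function.uncurry (Xe ε))) {f : ℝ → ℝ} (hf : Measurable f) :
    Measurable (Af P Xe f ε) := by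
  have : StronglyMeasurable (fun p : Ω × ℝ => f p.2 * Ed P Xe ε p.2 p.1) :=
    ((hf.comp measurable_snd).mul ((Ed_meas hm).comp measurable_swap)).stronglyMeasurable
  exact (StronglyMeasurable.integral_prod_right' (ν := lam) this).measurable

/-- the mass outside the window -/
lemma win_mass {ε : ℝ} (hR : 0 < R) (hε : 0 < ε) : ∫⁻ x, (Icc (R*ε) (1 - R*ε))ᶜ.indicator (fun _ => (1:ℝ≥0∞)) x ∂lam ≤ ENNReal.ofReal (2 * (R*ε)) := by
  rw [lintegral_indicator_const measurableSet_Icc.compl, one_mul]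
  unfold lam
  rw [Measure.restrict_apply measurableSet_Icc.compl]
  have hsub : (Icc (R*ε) (1 - R*ε))ᶜ ∩ Icc (0:ℝ) 1 ⊆ Icc 0 (R*ε) ∪ Icc (1 - R*ε) 1 := by
    rintro x ⟨h1, h2⟩
    rw [mem_compl_iff, mem_Icc, not_and_or, not_le, not_le] at h1
    rcases h1 with h1 | h1
    · left; exact ⟨h2.1, h1.le⟩
    · right; exact ⟨h1.le, h2.2⟩
  refine (measure_mono hsub).trans ((measure_union_le _ _).trans ?_)
  have h0 : 0 ≤ R * ε := (mul_pos hR hε).le
  rw [Real.volume_Icc, Real.volume_Icc, ← ENNReal.ofReal_add (by linarith) (by linarith)]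
  apply ENNReal.ofReal_le_ofReal; linarith

lemma AfAd (hX : IsLogField P X) (hρ : IsMollifier ρ) (h : Mol ρ M R) {ε : ℝ} (hε : 0 < ε) {Xe : ℝ → ℝ → Ω → ℝ}
    (hm : Measurable (Function.uncurry (Xe ε))) (hXe : ∀ x ∈ Icc (0:ℝ) 1, Xe ε x =ᵐ[P] X (mollFn ρ ε x))
    {f : ℝ → ℝ} (hf : Measurable f) (hf1 : ∀ x, |f x| ≤ 1) :
    ∫⁻ ω, ‖Af P Xe f ε ω - Ad ρ R Xe f ε ω‖ₑ ∂P ≤ ENNReal.ofReal (2 * (R*ε)) := by
  have hG := field_GP hX hρ h hε hm hXe
  have hpath1 := psi_path hG (s := fun x => x) (psiY_meas h hm)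
  have hEm := Ed_meas (P := P) hm
  have hprod : Integrable (fun q : ℝ × Ω => Ed P Xe ε q.1 q.2) (lam.prod P) := by
    rw [integrable_prod_iff (by exact hEm.aestronglyMeasurable)]
    refine ⟨?_, ?_⟩
    · filter_upwards [lam_mem] with x hx using (Ed_one hX hρ hε hXe hx).1
    · refine (integrable_const (1:ℝ)).congr ?_
      filter_upwards [lam_mem] with x hx
      rw [← (Ed_one hX hρ hε hXe hx).2]
      congr 1; ext ω
      rw [Real.norm_eq_abs]
      exact (abs_of_pos (Real.exp_pos _)).symm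
  have hpath2 : ∀ᵐ ω ∂P, Integrable (fun x => Ed P Xe ε x ω) lam := hprod.prod_left_ae
  have hkey : ∀ x ∈ Icc (0:ℝ) 1, ∀ ω, ‖f x * Ed P Xe ε x ω - fD f R ε x * psi (Yw R ε Xe) (Cε ρ R ε) x ω‖ₑ ≤
      (Icc (R*ε) (1 - R*ε))ᶜ.indicator (fun _ => (1:ℝ≥0∞)) x * ‖Ed P Xe ε x ω‖ₑ := by
    intro x hx ω
    by_cases hD : x ∈ Icc (R*ε) (1 - R*ε)
    · have e1 : fD f R ε x = f x := indicator_of_mem hD _
      have e2 : psi (Yw R ε Xe) (Cε ρ R ε) x ω = Ed P Xe ε x ω := by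
        unfold psi Ed Yw
        rw [indicator_of_mem hD, var_diag hX hρ h hε hXe hD hx]
        congr 1
        have hs : (s2/2)^2 = 1/2 := by rw [show (s2/2)^2 = s2*s2/4 by ring, s2_sq]; norm_num
        rw [hs]; ring
      rw [e1, e2, sub_self, enorm_zero]
      exact zero_le
    · have e1 : fD f R ε x = 0 := indicator_of_notMem hD _
      rw [e1, zero_mul, sub_zero, enorm_mul, indicator_of_mem (by exact hD), one_mul]
      calc ‖f x‖ₑ * ‖Ed P Xe ε x ω‖ₑ ≤ 1 * ‖Ed P Xe ε x ω‖ₑ := by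
            gcongr
            rw [← ofReal_norm, ← ENNReal.ofReal_one]
            exact ENNReal.ofReal_le_ofReal (hf1 x)
        _ = _ := one_mul _
  calc ∫⁻ ω, ‖Af P Xe f ε ω - Ad ρ R Xe f ε ω‖ₑ ∂P
      ≤ ∫⁻ ω, ∫⁻ x, (Icc (R*ε) (1 - R*ε))ᶜ.indicator (fun _ => (1:ℝ≥0∞)) x * ‖Ed P Xe ε x ω‖ₑ ∂lam ∂P := by
        apply lintegral_mono_ae
        filter_upwards [hpath1, hpath2] with ω h1 h2
        unfold Af Ad
        rw [← integral_sub]
        · refine (enorm_integral_le_lintegral_enorm _).trans ?_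
          apply lintegral_mono_ae
          filter_upwards [lam_mem] with x hx using hkey x hx ω
        · exact h2.bdd_mul (c := 1) hf.aestronglyMeasurable (Eventually.of_forall fun x => hf1 x)
        · exact h1.bdd_mul (c := 1) (fD_meas hf R ε).aestronglyMeasurable (Eventually.of_forall fun x => fD_abs hf1 _ _ _)
    _ = ∫⁻ x, ∫⁻ ω, (Icc (R*ε) (1 - R*ε))ᶜ.indicator (fun _ => (1:ℝ≥0∞)) x * ‖Ed P Xe ε x ω‖ₑ ∂P ∂lam := by
        apply lintegral_lintegral_swap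
        have m1 : Measurable (fun p : Ω × ℝ => (Icc (R*ε) (1 - R*ε))ᶜ.indicator (fun _ => (1:ℝ≥0∞)) p.2) :=
          (measurable_const.indicator measurableSet_Icc.compl).comp measurable_snd
        have m2 : Measurable (fun p : Ω × ℝ => ‖Ed P Xe ε p.2 p.1‖ₑ) := (hEm.comp measurable_swap).enorm
        exact (m1.mul m2).aemeasurable
    _ = ∫⁻ x, (Icc (R*ε) (1 - R*ε))ᶜ.indicator (fun _ => (1:ℝ≥0∞)) x ∂lam := by
        apply lintegral_congr_ae
        filter_upwards [lam_mem] with x hx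
        have mE : Measurable (fun ω => ‖Ed P Xe ε x ω‖ₑ) := (hEm.comp (measurable_const.prodMk measurable_id)).enorm
        rw [lintegral_const_mul _ mE]
        have e1 : ∫⁻ ω, ‖Ed P Xe ε x ω‖ₑ ∂P = 1 := by
          obtain ⟨i1, i2⟩ := Ed_one hX hρ hε hXe hx
          have e2 := ofReal_integral_norm_eq_lintegral_enorm i1
          rw [← e2]
          have e3 : ∫ ω, ‖Ed P Xe ε x ω‖ ∂P = 1 := by
            rw [← i2]; congr 1; ext ω
            rw [Real.norm_eq_abs]; exact abs_of_pos (Real.exp_pos _)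
          rw [e3, ENNReal.ofReal_one]
        rw [e1, mul_one]
    _ ≤ _ := win_mass h.hR hε

lemma cexp_L1 {A B : Ω → ℝ} (hA : AEMeasurable A P) (hB : AEMeasurable B P) (θ : ℝ) {c : ℝ} (hc : 0 ≤ c)
    (hI : ∫⁻ ω, ‖A ω - B ω‖ₑ ∂P ≤ ENNReal.ofReal c) :
    ‖(∫ ω, cexp (θ * A ω) ∂P) - ∫ ω, cexp (θ * B ω) ∂P‖ ≤ |θ| * c := by
  rw [← integral_sub (cexp_int' (hA.const_mul θ)) (cexp_int' (hB.const_mul θ))]
  have h1 : ‖∫ ω, (cexp (θ * A ω) - cexp (θ * B ω)) ∂P‖ₑ ≤ ENNReal.ofReal (|θ| * c) := by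
    refine (enorm_integral_le_lintegral_enorm _).trans ?_
    calc ∫⁻ ω, ‖cexp (θ * A ω) - cexp (θ * B ω)‖ₑ ∂P ≤ ∫⁻ ω, ENNReal.ofReal |θ| * ‖A ω - B ω‖ₑ ∂P := by
          apply lintegral_mono; intro ω
          beta_reduce
          rw [← ofReal_norm, ← ofReal_norm, ← ENNReal.ofReal_mul (abs_nonneg _)]
          apply ENNReal.ofReal_le_ofReal
          refine (cexp_lip _ _).trans (le_of_eq ?_)
          rw [← mul_sub, abs_mul, Real.norm_eq_abs]
      _ = ENNReal.ofReal |θ| * ∫⁻ ω, ‖A ω - B ω‖ₑ ∂P := lintegral_const_mul' _ _ ENNReal.ofReal_ne_top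
      _ ≤ ENNReal.ofReal |θ| * ENNReal.ofReal c := mul_le_mul' le_rfl hI
      _ = _ := (ENNReal.ofReal_mul (abs_nonneg _)).symm
  rw [← ofReal_norm] at h1
  exact (ENNReal.ofReal_le_ofReal_iff (by positivity)).1 h1

lemma Ad_law (hX : IsLogField P X) (hρ : IsMollifier ρ) (h : Mol ρ M R) (j : ℕ) {Xe : ℝ → ℝ → Ω → ℝ}
    (hm : Measurable (Function.uncurry (Xe (ej j)))) (hXe : ∀ x ∈ Icc (0:ℝ) 1, Xe (ej j) x =ᵐ[P] X (mollFn ρ (ej j) x))
    {f : ℝ → ℝ} (hf : Measurable f) (hf1 : ∀ x, |f x| ≤ 1) (θ : ℝ) :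
    ∫ ω, cexp (θ * Ad ρ R Xe f (ej j) ω) ∂P = ∫ ω, cexp (θ * Aj h f j ω) ∂PP := by
  have hG := field_GP hX hρ h (ej_pos j) hm hXe
  have hG2 : GP PP (fun x : ℝ => WW' h j (false, x)) (Cε ρ R (ej j)) :=
    ((WW'_GP h j).comp (fun x : ℝ => (false, x))).congr_cov fun s t => CW_ff s t
  have hGm : Measurable (Function.uncurry fun (x y : ℝ) => θ * (fD f R (ej j) x * Real.exp (s2/2 * y - Cε ρ R (ej j) x x/4))) := by
    have m1 : Measurable (fun p : ℝ × ℝ => fD f R (ej j) p.1) := (fD_meas hf R _).comp measurable_fst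
    have m3 : Measurable (fun p : ℝ × ℝ => Cε ρ R (ej j) p.1 p.1) := (Cdiag_meas h).comp measurable_fst
    have m2 : Measurable (fun p : ℝ × ℝ => Real.exp (s2/2 * p.2 - Cε ρ R (ej j) p.1 p.1/4)) :=
      Real.measurable_exp.comp ((measurable_snd.const_mul _).sub (m3.div_const 4))
    exact (m1.mul m2).const_mul θ
  have hj : Measurable (Function.uncurry (fun x : ℝ => WW' h j (false, x))) :=
    (WW'_meas h j).comp ((measurable_const.prodMk measurable_fst).prodMk measurable_snd)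
  have hI1 : Integrable (Function.uncurry fun (x : ℝ) (ω : Ω) => θ * (fD f R (ej j) x * Real.exp (s2/2 * Yw R (ej j) Xe x ω - Cε ρ R (ej j) x x/4))) (lam.prod P) := by
    have h1 := psi_prod hG (s := fun x => x) (psiY_meas h hm)
    have h2 : Integrable (fun q : ℝ × Ω => fD f R (ej j) q.1 * psi (Yw R (ej j) Xe) (Cε ρ R (ej j)) q.1 q.2) (lam.prod P) :=
      h1.bdd_mul (c := 1) ((fD_meas hf R _).comp measurable_fst).aestronglyMeasurable (Eventually.of_forall fun q => fD_abs hf1 _ _ _)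
    exact h2.const_mul θ
  have hI2 : Integrable (Function.uncurry fun (x : ℝ) (ω : Om) => θ * (fD f R (ej j) x * Real.exp (s2/2 * WW' h j (false, x) ω - Cε ρ R (ej j) x x/4))) (lam.prod PP) := by
    have h1 := psi_prod (WW'_GP h j) (psiF_meas h j)
    have h2 : Integrable (fun q : ℝ × Om => fD f R (ej j) q.1 * psi (WW' h j) (CW (mk ρ R (ej j)) j) (false, q.1) q.2) (lam.prod PP) :=
      h1.bdd_mul (c := 1) ((fD_meas hf R _).comp measurable_fst).aestronglyMeasurable (Eventually.of_forall fun q => fD_abs hf1 _ _ _)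
    refine (h2.const_mul θ).congr (Eventually.of_forall fun q => ?_)
    simp only [psi, CW_ff, Function.uncurry]
    rfl
  have hlaw := law_int hG hG2 (Yw_meas hm) hj lam (D := univ) (Eventually.of_forall fun _ => mem_univ _) (fun s _ t _ => rfl) hGm hI1 hI2
  have e1 : ∀ ω, θ * Ad ρ R Xe f (ej j) ω = ∫ x, θ * (fD f R (ej j) x * Real.exp (s2/2 * Yw R (ej j) Xe x ω - Cε ρ R (ej j) x x/4)) ∂lam := by
    intro ω; unfold Ad; rw [integral_const_mul]; rfl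
  have e2 : ∀ ω, θ * Aj h f j ω = ∫ x, θ * (fD f R (ej j) x * Real.exp (s2/2 * WW' h j (false, x) ω - Cε ρ R (ej j) x x/4)) ∂lam := by
    intro ω; unfold Aj; rw [integral_const_mul]; simp only [psi, CW_ff]; rfl
  simp_rw [e1, e2]
  exact hlaw

end

end

end Pool.Agent.H968
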