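import Mathlib
import Pool.Agent.H968.Br8

open MeasureTheory ProbabilityTheory Filter Topology Set
open scoped ENNReal NNReal

namespace Pool.Agent.H968

noncomputable section

section
variable {Ω : Type*} [MeasurableSpace Ω] {P : Measure Ω} [IsProbabilityMeasure P] {X : (ℝ → ℝ) → Ω → ℝ} {ρ : ℝ → ℝ}
  {Xe : ℝ → ℝ → Ω → ℝ} {μ : Ω → Measure ℝ}

lemma ej_within : Tendsto ej atTop (𝓝[>] 0) :=
  tendsto_nhdsWithin_iff.2 ⟨ej_tendsto, Eventually.of_forall fun j => ej_pos j⟩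

lemma conv_seq (hμ : IsChaos P (1 / Real.sqrt 2) X ρ Xe μ) {f : ℝ → ℝ} (hf : Continuous f) :
    TendstoInMeasure P (fun j => Af P Xe f (ej j)) atTop (fun ω => ∫ x in Icc (0:ℝ) 1, f x ∂(μ ω)) := by
  have h1 := (hμ.conv f hf).comp ej_within
  have e : (fun j => Af P Xe f (ej j)) = (fun (ε : ℝ) ω => ∫ x in (0:ℝ)..1, f x * Real.exp ((1 / Real.sqrt 2) * Xe ε x ω - (1 / Real.sqrt 2)^2 / 2 * ∫ ω', (Xe ε x ω')^2 ∂P)) ∘ ej := by
    ext j ω
    simp only [Function.comp, Af, lam_integral, gam_eq]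
    rfl
  rw [e]; exact h1

lemma lim_meas (hμ : IsChaos P (1 / Real.sqrt 2) X ρ Xe μ) {f : ℝ → ℝ} (hf : Continuous f) :
    AEMeasurable (fun ω => ∫ x in Icc (0:ℝ) 1, f x ∂(μ ω)) P :=
  (conv_seq hμ hf).aemeasurable fun j => (Af_meas (hμ.meas _ (ej_pos j)) hf.measurable).aemeasurable

lemma cexp_meas_conv {A : ℕ → Ω → ℝ} {B : Ω → ℝ} (hA : ∀ j, AEMeasurable (A j) P) (h : TendstoInMeasure P A atTop B) (θ : ℝ) :
    Tendsto (fun j => ∫ ω, cexp (θ * A j ω) ∂P) atTop (𝓝 (∫ ω, cexp (θ * B ω) ∂P)) := by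
  have h1 := (h.tendstoInDistribution hA)
  have h2 := ProbabilityMeasure.tendsto_iff_tendsto_charFun.1 h1.tendsto θ
  have e : ∀ {G : Ω → ℝ}, AEMeasurable G P → charFun (P.map G) θ = ∫ ω, cexp (θ * G ω) ∂P := by
    intro G hG
    rw [charFun_apply_real, integral_map hG (by fun_prop)]
    congr 1; ext ω; unfold cexp; push_cast; rfl
  simp only [ProbabilityMeasure.coe_mk] at h2
  rw [e h1.aemeasurable_limit] at h2
  exact h2.congr fun j => e (hA j)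

/-- the bridge between the abstract chaos and the canonical level approximation -/
theorem bridge (hX : IsLogField P X) (hρ : IsMollifier ρ) (hμ : IsChaos P (1 / Real.sqrt 2) X ρ Xe μ) {f : ℝ → ℝ}
    (hf : Continuous f) (hf1 : ∀ x, |f x| ≤ 1) (θ : ℝ) :
    Tendsto (fun j => ∫ ω, cexp (θ * mm f j ω) ∂PP) atTop (𝓝 (∫ ω, cexp (θ * ∫ x in Icc (0:ℝ) 1, f x ∂(μ ω)) ∂P)) := by
  obtain ⟨M, R, h⟩ := exists_Mol hρ
  have hfm := hf.measurable
  have hmeas : ∀ j, Measurable (Function.uncurry (Xe (ej j))) := fun j => hμ.meas _ (ej_pos j)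
  have hA := fun j => (Af_meas (P := P) (hmeas j) hfm).aemeasurable (μ := P)
  have t1 := cexp_meas_conv hA (conv_seq hμ hf) θ
  have t2 : Tendsto (fun j => (∫ ω, cexp (θ * Af P Xe f (ej j) ω) ∂P) - ∫ ω, cexp (θ * Ad ρ R Xe f (ej j) ω) ∂P) atTop (𝓝 0) := by
    rw [tendsto_zero_iff_norm_tendsto_zero]
    have h0 : Tendsto (fun j => |θ| * (2 * (R * ej j))) atTop (𝓝 (|θ| * (2 * (R * 0)))) := ((ej_tendsto.const_mul R).const_mul 2).const_mul |θ|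
    simp only [mul_zero] at h0
    refine squeeze_zero (fun j => norm_nonneg _) (fun j => ?_) h0
    exact cexp_L1 (hA j) (Ad_meas h (hmeas j) hfm).aemeasurable θ (by have := mul_pos h.hR (ej_pos j); linarith)
      (AfAd hX hρ h (ej_pos j) (hmeas j) (hμ.moll _ (ej_pos j)) hfm hf1)
  have t3 := can_close h hfm hf1 θ
  have t4 := (t1.sub t2).sub t3
  rw [sub_zero, sub_zero] at t4
  refine t4.congr fun j => ?_
  rw [Ad_law hX hρ h j (hmeas j) (hμ.moll _ (ej_pos j)) hfm hf1 θ]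
  ring

end

/-- the limiting objects -/
def LamJ : (Om → ℝ) × ℝ := ⟨char_limit.choose, char_limit.choose_spec.choose⟩

/-- limit of the critical masses -/
def Lam : Om → ℝ := LamJ.1
/-- oscillation constant -/
def Jc : ℝ := LamJ.2

lemma Lam_spec : Measurable Lam ∧ (∀ ω, 0 ≤ Lam ω) ∧ (¬ ∀ᵐ ω ∂PP, Lam ω = 0) ∧ 0 < Jc ∧
    ∀ t ε : ℝ, 0 < ε → ∃ n0 : ℕ, ∀ n ≥ n0, ∀ v, 2 * Lf n + 2 ≤ v → ∀ φ : ℝ,
      ‖(∫ ω, cexp ((t * sc n) * mm (ff n φ) v ω) ∂PP) - ((LT Lam (t^2/4 * Jc) : ℝ) : ℂ)‖ ≤ ε :=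
  char_limit.choose_spec.choose_spec

section
variable {Ω : Type*} [MeasurableSpace Ω] {P : Measure Ω} [IsProbabilityMeasure P] {X : (ℝ → ℝ) → Ω → ℝ} {ρ : ℝ → ℝ}
  {Xe : ℝ → ℝ → Ω → ℝ} {μ : Ω → Measure ℝ}

/-- characteristic functions of the rescaled real Fourier integrals -/
theorem real_limit (hX : IsLogField P X) (hρ : IsMollifier ρ) (hμ : IsChaos P (1 / Real.sqrt 2) X ρ Xe μ) (t φ : ℝ) :
    Tendsto (fun n : ℕ => ∫ ω, cexp ((t * sc n) * ∫ x in Icc (0:ℝ) 1, ff n φ x ∂(μ ω)) ∂P) atTop (𝓝 ((LT Lam (t^2/4 * Jc) : ℝ) : ℂ)) := by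
  rw [Metric.tendsto_atTop]
  intro ε hε
  obtain ⟨n0, hn0⟩ := Lam_spec.2.2.2.2 t (ε/2) (half_pos hε)
  refine ⟨n0, fun n hn => ?_⟩
  have hb := bridge hX hρ hμ (ff_cont n φ) (ff_abs n φ) (t * sc n)
  have h2 := (hb.sub_const ((LT Lam (t^2/4 * Jc) : ℝ) : ℂ)).norm
  rw [dist_eq_norm]
  refine lt_of_le_of_lt (le_of_tendsto h2 ?_) (half_lt_self hε)
  filter_upwards [eventually_ge_atTop (2 * Lf n + 2)] with v hv
  exact hn0 n hn v hv φ

end

end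

end Pool.Agent.H968
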