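import Mathlib
import Pool.Agent.H968.Br9

open MeasureTheory ProbabilityTheory Filter Topology Set
open scoped ENNReal NNReal

namespace Pool.Agent.H968

noncomputable section

/-- the limit in the complex plane -/
def Zlim (p : Om × ℂ) : ℂ := Real.sqrt (Jc / 2 * Lam p.1) • p.2

/-- the space carrying the limit -/
def QQ : Measure (Om × ℂ) := PP.prod (stdGaussian ℂ)

instance : IsProbabilityMeasure QQ := by unfold QQ; infer_instance

lemma Zlim_meas : Measurable Zlim := by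
  unfold Zlim
  have h1 : Measurable (fun p : Om × ℂ => Real.sqrt (Jc / 2 * Lam p.1)) := ((Lam_spec.1.comp measurable_fst).const_mul _).sqrt
  exact h1.smul measurable_snd

lemma Zlim_char (t : ℂ) : charFun (QQ.map Zlim) t = ((LT Lam (‖t‖^2/4 * Jc) : ℝ) : ℂ) := by
  obtain ⟨hm, h0, -, hJ, -⟩ := Lam_spec
  rw [charFun_apply, integral_map Zlim_meas.aemeasurable (by fun_prop)]
  have hc : Continuous (fun z : ℂ => Complex.exp ((inner ℝ z t : ℂ) * Complex.I)) := by fun_prop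
  have hI : Integrable (fun p : Om × ℂ => Complex.exp ((inner ℝ (Zlim p) t : ℂ) * Complex.I)) (PP.prod (stdGaussian ℂ)) := by
    refine Integrable.of_bound (hc.measurable.comp Zlim_meas).aestronglyMeasurable 1 (Eventually.of_forall fun p => ?_)
    rw [Complex.norm_exp_ofReal_mul_I]
  unfold QQ
  rw [integral_prod _ hI]
  unfold LT
  rw [← integral_complex_ofReal]
  congr 1; ext ω
  have e1 : ∀ z : ℂ, inner ℝ (Zlim (ω, z)) t = inner ℝ z (Real.sqrt (Jc / 2 * Lam ω) • t) := by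
    intro z
    unfold Zlim
    rw [real_inner_smul_left, real_inner_smul_right]
  simp_rw [e1]
  have h2 := charFun_stdGaussian (E := ℂ) (Real.sqrt (Jc / 2 * Lam ω) • t)
  rw [charFun_apply] at h2
  rw [h2, norm_smul, Real.norm_eq_abs, abs_of_nonneg (Real.sqrt_nonneg _)]
  have h3 : Real.sqrt (Jc / 2 * Lam ω) ^ 2 = Jc / 2 * Lam ω := Real.sq_sqrt (mul_nonneg (by linarith) (h0 ω))
  have e2 : -(((Real.sqrt (Jc / 2 * Lam ω) * ‖t‖ : ℝ) : ℂ))^2 / 2 = ((-(‖t‖^2/4 * Jc * Lam ω) : ℝ) : ℂ) := by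
    rw [← Complex.ofReal_pow, mul_pow, h3]; push_cast; ring
  rw [e2, ← Complex.ofReal_exp]

section
variable {Ω : Type*} [MeasurableSpace Ω] {P : Measure Ω} [IsProbabilityMeasure P] {X : (ℝ → ℝ) → Ω → ℝ} {ρ : ℝ → ℝ}
  {Xe : ℝ → ℝ → Ω → ℝ} {μ : Ω → Measure ℝ}

lemma coef_int {m : Measure ℝ} [IsFiniteMeasure m] (n : ℕ) :
    Integrable (fun x : ℝ => Complex.exp (-(2 * Real.pi * n * x) * Complex.I)) (m.restrict (Icc (0:ℝ) 1)) := by
  have hc : Continuous (fun x : ℝ => Complex.exp (-(2 * Real.pi * n * x) * Complex.I)) := by fun_prop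
  refine Integrable.of_bound hc.measurable.aestronglyMeasurable 1 (Eventually.of_forall fun x => ?_)
  have : (-(2 * Real.pi * n * x) * Complex.I : ℂ) = ((-(2 * Real.pi * n * x) : ℝ) : ℂ) * Complex.I := by push_cast; ring
  rw [this, Complex.norm_exp_ofReal_mul_I]

lemma coef_inner {ω : Ω} (hfin : IsFiniteMeasure (μ ω)) (n : ℕ) (t : ℂ) :
    inner ℝ (coef μ n ω) t = ‖t‖ * ∫ x in Icc (0:ℝ) 1, ff n (-Complex.arg t) x ∂(μ ω) := by
  have hi := coef_int (m := μ ω) n
  rw [Complex.inner]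
  have e1 : (t * (starRingEnd ℂ) (coef μ n ω)).re = (coef μ n ω * (starRingEnd ℂ) t).re := by
    simp only [Complex.mul_re, Complex.conj_re, Complex.conj_im]; ring
  rw [e1]
  unfold coef
  rw [← integral_mul_const, ← integral_const_mul]
  have h2 : Integrable (fun x : ℝ => Complex.exp (-(2 * Real.pi * n * x) * Complex.I) * (starRingEnd ℂ) t) ((μ ω).restrict (Icc (0:ℝ) 1)) := hi.mul_const _
  have h3 := Complex.reCLM.integral_comp_comm h2
  simp only [Complex.reCLM_apply] at h3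
  rw [← h3]
  congr 1; ext x
  have e2 : (starRingEnd ℂ) t = (‖t‖ : ℂ) * Complex.exp (-(Complex.arg t : ℂ) * Complex.I) := by
    conv_lhs => rw [← Complex.norm_mul_exp_arg_mul_I t]
    rw [map_mul, Complex.conj_ofReal, ← Complex.exp_conj, map_mul, Complex.conj_I, Complex.conj_ofReal]
    congr 2; ring
  rw [e2]
  have e3 : Complex.exp (-(2 * Real.pi * n * x) * Complex.I) * ((‖t‖ : ℂ) * Complex.exp (-(Complex.arg t : ℂ) * Complex.I)) =
      ((‖t‖ : ℝ) : ℂ) * Complex.exp (((-(2 * Real.pi * n * x + Complex.arg t) : ℝ) : ℂ) * Complex.I) := by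
    rw [mul_left_comm, ← Complex.exp_add]
    congr 2; push_cast; ring
  rw [e3, Complex.re_ofReal_mul, Complex.exp_ofReal_mul_I_re, Real.cos_neg]
  unfold ff
  rw [sub_neg_eq_add]

lemma ff_zero (n : ℕ) (x : ℝ) : ff n 0 x = Real.cos (2 * Real.pi * n * x) := by unfold ff; rw [sub_zero]

lemma coef_ae (hμ : IsChaos P (1 / Real.sqrt 2) X ρ Xe μ) (n : ℕ) : AEMeasurable (coef μ n) P := by
  have h1 := lim_meas hμ (ff_cont n (-Complex.arg 1))
  have h2 := lim_meas hμ (ff_cont n (-Complex.arg Complex.I))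
  have h3 : AEMeasurable (fun ω => ((∫ x in Icc (0:ℝ) 1, ff n (-Complex.arg 1) x ∂(μ ω) : ℝ) : ℂ) +
      ((∫ x in Icc (0:ℝ) 1, ff n (-Complex.arg Complex.I) x ∂(μ ω) : ℝ) : ℂ) * Complex.I) P :=
    (Complex.measurable_ofReal.comp_aemeasurable h1).add ((Complex.measurable_ofReal.comp_aemeasurable h2).mul_const _)
  refine h3.congr ?_
  filter_upwards [hμ.fin] with ω hω
  have a1 := coef_inner (μ := μ) hω n 1
  have a2 := coef_inner (μ := μ) hω n Complex.I
  rw [Complex.inner] at a1 a2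
  simp only [norm_one, one_mul, Complex.norm_I] at a1 a2
  rw [← a1, ← a2]
  apply Complex.ext <;> simp

theorem complex_limit (hX : IsLogField P X) (hρ : IsMollifier ρ) (hμ : IsChaos P (1 / Real.sqrt 2) X ρ Xe μ) :
    TendstoInDistribution (fun (n : ℕ) ω => sc n • coef μ n ω) atTop Zlim (fun _ => P) QQ := by
  have hm : ∀ n : ℕ, AEMeasurable (fun ω => sc n • coef μ n ω) P := fun n => (coef_ae hμ n).const_smul (sc n)
  refine ⟨hm, Zlim_meas.aemeasurable, ?_⟩
  apply ProbabilityMeasure.tendsto_of_tendsto_charFun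
  intro t
  change Tendsto (fun n : ℕ => charFun (P.map (fun ω => sc n • coef μ n ω)) t) atTop (𝓝 (charFun (QQ.map Zlim) t))
  rw [Zlim_char t]
  refine (real_limit hX hρ hμ ‖t‖ (-Complex.arg t)).congr fun n => ?_
  show _ = charFun (P.map (fun ω => sc n • coef μ n ω)) t
  rw [charFun_apply, integral_map (hm n) (by fun_prop)]
  apply integral_congr_ae
  filter_upwards [hμ.fin] with ω hω
  unfold cexp
  rw [real_inner_smul_left, coef_inner (μ := μ) hω n t]
  congr 3; ring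

end

/-- the law of the limit of the modulus -/
def nuL : Measure ℝ := QQ.map (fun p => ‖Zlim p‖)

lemma nuL_prob : IsProbabilityMeasure nuL := Measure.isProbabilityMeasure_map Zlim_meas.norm.aemeasurable

lemma nuL_ne : nuL ≠ Measure.dirac 0 := by
  intro h
  obtain ⟨hm, h0, hne, hJ, -⟩ := Lam_spec
  -- the limit vanishes almost surely
  have h1 : ∀ᵐ p ∂QQ, Zlim p = 0 := by
    have h2 : nuL {0}ᶜ = 0 := by rw [h, Measure.dirac_apply' _ (measurableSet_singleton 0).compl]; simp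
    unfold nuL at h2
    rw [Measure.map_apply Zlim_meas.norm (measurableSet_singleton 0).compl] at h2
    rw [ae_iff]
    have e : {a | ¬Zlim a = 0} = (fun a => ‖Zlim a‖) ⁻¹' {0}ᶜ := by ext p; simp
    rw [e]; exact h2
  have h2 : QQ.map Zlim = Measure.dirac 0 := by
    rw [Measure.map_congr h1]
    show QQ.map (fun _ => (0:ℂ)) = _
    rw [Measure.map_const]; simp
  -- compare characteristic functions
  obtain ⟨s, hs⟩ : ∃ s : ℝ, s^2/4 * Jc = 1 ∧ 0 ≤ s := by
    refine ⟨Real.sqrt (4/Jc), ?_, Real.sqrt_nonneg _⟩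
    rw [Real.sq_sqrt (by positivity)]; field_simp
  have h3 := Zlim_char (s : ℂ)
  rw [h2, charFun_dirac, inner_zero_left, Complex.norm_real, Real.norm_eq_abs, abs_of_nonneg hs.2, hs.1] at h3
  simp only [Complex.ofReal_zero, zero_mul, Complex.exp_zero] at h3
  have h4 : LT Lam 1 = 1 := by exact_mod_cast h3.symm
  unfold LT at h4
  have hI := LT_int hm h0 zero_le_one
  have h5 : ∫ ω, (1 - Real.exp (-(1 * Lam ω))) ∂PP = 0 := by
    rw [integral_sub (integrable_const _) hI, h4]; simp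
  have hn : ∀ ω, 0 ≤ 1 - Real.exp (-(1 * Lam ω)) := by
    intro ω
    have : Real.exp (-(1 * Lam ω)) ≤ 1 := by rw [Real.exp_le_one_iff]; have := h0 ω; linarith
    linarith
  rw [integral_eq_zero_iff_of_nonneg hn ((integrable_const _).sub hI)] at h5
  apply hne
  filter_upwards [h5] with ω hω
  have h6 : 1 - Real.exp (-(1 * Lam ω)) = 0 := hω
  have h7 : Real.exp (-(1 * Lam ω)) = 1 := by linarith
  rw [Real.exp_eq_one_iff] at h7
  linarith

lemma sc_eq (n : ℕ) : sc n = (Real.log n)^(1/4:ℝ) * (n:ℝ)^(1/4:ℝ) := by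
  have h : ∀ x : ℝ, 0 ≤ x → Real.sqrt (Real.sqrt x) = x^(1/4:ℝ) := by
    intro x hx
    rw [Real.sqrt_eq_rpow, Real.sqrt_eq_rpow, ← Real.rpow_mul hx]
    norm_num
  unfold sc
  rw [h _ (Nat.cast_nonneg n)]
  rcases Nat.eq_zero_or_pos n with h0 | h0
  · subst h0; simp
  · rw [h _ (Real.log_nonneg (by exact_mod_cast h0))]

universe u

/-- **Main theorem.** -/
theorem main : ∃ ν : Measure ℝ, ∃ _ : IsProbabilityMeasure ν, ν ≠ Measure.dirac 0 ∧
    ∀ (Ω : Type u) [MeasurableSpace Ω] (P : Measure Ω) [IsProbabilityMeasure P] (X : (ℝ → ℝ) → Ω → ℝ) (ρ : ℝ → ℝ)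
      (Xe : ℝ → ℝ → Ω → ℝ) (μ : Ω → Measure ℝ), IsLogField P X → IsMollifier ρ → IsChaos P (1 / Real.sqrt 2) X ρ Xe μ →
      TendstoInDistribution (fun (n : ℕ) ω => (Real.log n)^(1/4:ℝ) * (n:ℝ)^(1/4:ℝ) * ‖coef μ n ω‖) atTop (fun x : ℝ => x) (fun _ => P) ν := by
  refine ⟨nuL, nuL_prob, nuL_ne, fun Ω _ P _ X ρ Xe μ hX hρ hμ => ?_⟩
  have h1 := (complex_limit hX hρ hμ).continuous_comp continuous_norm
  have h2 := h1.tendsto
  have e : ∀ n : ℕ, (fun ω => (Real.log n)^(1/4:ℝ) * (n:ℝ)^(1/4:ℝ) * ‖coef μ n ω‖) = ((fun z : ℂ => ‖z‖) ∘ fun ω => sc n • coef μ n ω) := by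
    intro n; ext ω
    simp only [Function.comp]
    rw [norm_smul, sc_eq, Real.norm_eq_abs, abs_of_nonneg]
    exact mul_nonneg (Real.rpow_nonneg (by
      rcases Nat.eq_zero_or_pos n with h0 | h0
      · subst h0; simp
      · exact Real.log_nonneg (by exact_mod_cast h0)) _) (Real.rpow_nonneg (Nat.cast_nonneg n) _)
  have := nuL_prob
  have hae : ∀ n : ℕ, AEMeasurable (fun ω => (Real.log n)^(1/4:ℝ) * (n:ℝ)^(1/4:ℝ) * ‖coef μ n ω‖) P := by
    intro n; rw [e]; exact h1.forall_aemeasurable n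
  refine ⟨hae, aemeasurable_id, ?_⟩
  have hlim : (⟨nuL.map (fun x : ℝ => x), Measure.isProbabilityMeasure_map aemeasurable_id⟩ : ProbabilityMeasure ℝ) =
      ⟨QQ.map ((fun z : ℂ => ‖z‖) ∘ Zlim), Measure.isProbabilityMeasure_map h1.aemeasurable_limit⟩ := by
    apply Subtype.ext
    show nuL.map (fun x : ℝ => x) = QQ.map ((fun z : ℂ => ‖z‖) ∘ Zlim)
    rw [Measure.map_id']; rfl
  have hseq : (fun n : ℕ => (⟨P.map (fun ω => (Real.log n)^(1/4:ℝ) * (n:ℝ)^(1/4:ℝ) * ‖coef μ n ω‖),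
      Measure.isProbabilityMeasure_map (hae n)⟩ : ProbabilityMeasure ℝ)) =
      fun n : ℕ => ⟨P.map ((fun z : ℂ => ‖z‖) ∘ fun ω => sc n • coef μ n ω), Measure.isProbabilityMeasure_map (h1.forall_aemeasurable n)⟩ := by
    funext n
    apply Subtype.ext
    show P.map _ = P.map _
    rw [e n]
  have h3 : Tendsto (β := ProbabilityMeasure ℝ) (fun n : ℕ => (⟨P.map (fun ω => (Real.log n)^(1/4:ℝ) * (n:ℝ)^(1/4:ℝ) * ‖coef μ n ω‖),
      Measure.isProbabilityMeasure_map (hae n)⟩ : ProbabilityMeasure ℝ)) atTop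
      (𝓝 (⟨nuL.map (fun x : ℝ => x), Measure.isProbabilityMeasure_map aemeasurable_id⟩ : ProbabilityMeasure ℝ)) := by
    rw [hlim, hseq]
    exact h2
  exact h3

end

end Pool.Agent.H968
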